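import Pool.Agent.Lib.MP_adc574_ag_HM.MilDefs

/-!
# JOB MilB: the Milnor basis, independence

`g` homogeneous of weight `d > 0`, `h_j = ∂_j g`, Euler: `d g = ∑ w_j x_j h_j` (see `KosF` for the proof of such an identity; it is private there, copy it).
* `mb_tf` (part a): `Q` homogeneous of weight `N`, `g Q = zz A h = ∑ b_j h_j`, `b_j = ∑ i, ∂_i A i j`, where we may assume `b_j` homogeneous: replace `A i j` by its part with `wt e + d = N + d + w i + w j`, i.e. `wt e = N + w i + w j` (then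
  `b_j` has weight `N + w j` and `b_j h_j` weight `N + d`, which is the weight of `g Q`; the other parts do not contribute). So `∑ j, (d⁻¹ w_j x_j Q - b_j) h_j = 0`; `koszul_hom` with level `N' = N + ∑ w` (`wtp e = N' + w j`): `d⁻¹ w_j x_j Q - b_j = ∑ i, G j i * h i`,
  `Asym G`. Divergence: `dvg b = 0` (`dvg_dvg`), `dvg (j ↦ w_j x_j Q) = (N + ∑ w) Q`, and `dvg (j ↦ ∑ i, G j i * h i) = ± zz G h` (`dvg_asym` with `G j i = - G i j`). So `Q = zz A' h`, `A' = const • G` (constant `± d / (N + ∑ w)`, `N + ∑ w > 0`).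
* `mb_ind0` (part a): `∑ u ∈ U, c_u g^(j u) x^u = zz A h`, `d j_u + wt u = N` for all `u` with `c_u ≠ 0`. Claim `c_u = 0`. Induction on the minimum (or: strong induction on `N`). The left side mod `Jac g`: `g ∈ Jac g` (Euler, `d ≠ 0`), `zz A h ∈ Jac g`, so `∑_{j_u = 0} c_u x^u ∈ Jac g` and
  `c_u = 0` if `j_u = 0` (`hU.ind`). If now all `u` with `c_u ≠ 0` have `j_u ≥ 1`: the left side is `g Q`, `Q = ∑ c_u g^(j u - 1) x^u` homogeneous of weight `N - d`; by `mb_tf` `Q = zz A' h`; apply the induction hypothesis (`N - d < N`). (If `N < d` then all `j_u = 0`.)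
* `mb_ind` (part b): `φ` of weighted degree `≤ d` with top part `g`; `∑ u ∈ U, (a u)(φ) x^u = zz A (∂φ)`. Suppose some `a u ≠ 0`, `u ∈ U`, and let `N` be the maximum of `d natDegree (a u) + wt u` over `u ∈ U`, `a u ≠ 0`. The left side `P` has only monomials of weight `≤ N`, and its part of weight `N` is
  `∑ lc_u g^(j u) x^u` over the `u` with `d j_u + wt u = N`, `j_u = natDegree (a u)`, `lc_u = leadingCoeff`. `A` has some level `L` (`wtp e ≤ L + w i + w j`). If `L + d > N + ∑ w` the coefficients of `zz A (∂φ) = P` at `wtp e = L + d` vanish and `lemS` lowers `L` (while `L > 0`; if `L = 0` in this case then `lemS` gives `A'` with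
  `wtp e + 1 ≤ w i + w j`, so `A' = 0`, `P = 0`). So there is `A` with `z(A) = P` and level `L` with `L + d ≤ N + ∑ w`, or `P = 0`. The part of `zz A (∂φ)` of weight `N` is then `zz A_top (∂g)` with `A_top i j` the part of `A i j` with `wtp e = L + w i + w j` if `L + d = N + ∑ w`, and `0` otherwise (`= zz 0`).
  So `∑ lc_u g^(j u) x^u = zz A'' (∂g)`, and `mb_ind0` gives `lc_u = 0`: contradiction.
-/

set_option autoImplicit false

namespace MPadcHM

open MvPolynomial

universe u

section MilBa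

variable {K : Type*} [Field K] [CharZero K] {n : ℕ}

private theorem milba_wt_add (w : Fin n → ℕ) (e f : Fin n →₀ ℕ) :
    wt w (e + f) = wt w e + wt w f := by
  unfold wt
  rw [← Finset.sum_add_distrib]
  exact Finset.sum_congr rfl fun i _ => by rw [Finsupp.add_apply]; ring

private theorem milba_wt_single (w : Fin n → ℕ) (i : Fin n) : wt w (Finsupp.single i 1) = w i := by
  unfold wt
  rw [Finset.sum_eq_single i]
  · rw [Finsupp.single_eq_same, mul_one]
  · intro j _ hj
    rw [Finsupp.single_eq_of_ne hj, mul_zero]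
  · intro h
    exact absurd (Finset.mem_univ i) h

private theorem milba_wtp (w : Fin n → ℕ) (e : Fin n →₀ ℕ) : wtp w e = wt w e + ∑ i, w i := by
  unfold wtp wt
  rw [← Finset.sum_add_distrib]
  exact Finset.sum_congr rfl fun i _ => by ring

/-- the weights of the monomials of `P` are in `S` -/
private def MilbaSp (w : Fin n → ℕ) (S : Set ℤ) (P : MvPolynomial (Fin n) K) : Prop :=
  ∀ e, coeff e P ≠ 0 → ((wt w e : ℕ) : ℤ) ∈ S

omit [CharZero K] in
private theorem milba_mono {w : Fin n → ℕ} {S S' : Set ℤ} {P : MvPolynomial (Fin n) K}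
    (h : MilbaSp w S P) (hS : ∀ m ∈ S, m ∈ S') : MilbaSp w S' P := fun e he => hS _ (h e he)

omit [CharZero K] in
private theorem milba_add {w : Fin n → ℕ} {S : Set ℤ} {P Q : MvPolynomial (Fin n) K}
    (hP : MilbaSp w S P) (hQ : MilbaSp w S Q) : MilbaSp w S (P + Q) := by
  intro e he
  rw [coeff_add] at he
  by_cases h : coeff e P = 0
  · refine hQ e fun h' => he ?_
    rw [h, h', add_zero]
  · exact hP e h

omit [CharZero K] in
private theorem milba_sub {w : Fin n → ℕ} {S : Set ℤ} {P Q : MvPolynomial (Fin n) K}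
    (hP : MilbaSp w S P) (hQ : MilbaSp w S Q) : MilbaSp w S (P - Q) := by
  intro e he
  rw [coeff_sub] at he
  by_cases h : coeff e P = 0
  · refine hQ e fun h' => he ?_
    rw [h, h', sub_zero]
  · exact hP e h

omit [CharZero K] in
private theorem milba_sum {w : Fin n → ℕ} {S : Set ℤ} {ι : Type*} {s : Finset ι}
    {P : ι → MvPolynomial (Fin n) K} (hP : ∀ i ∈ s, MilbaSp w S (P i)) :
    MilbaSp w S (∑ i ∈ s, P i) := by
  intro e he
  rw [coeff_sum] at he
  obtain ⟨i, hi, h⟩ := Finset.exists_ne_zero_of_sum_ne_zero he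
  exact hP i hi e h

omit [CharZero K] in
private theorem milba_mul {w : Fin n → ℕ} {S S' S'' : Set ℤ} {P Q : MvPolynomial (Fin n) K}
    (hP : MilbaSp w S P) (hQ : MilbaSp w S' Q) (h : ∀ a ∈ S, ∀ b ∈ S', a + b ∈ S'') :
    MilbaSp w S'' (P * Q) := by
  classical
  intro e he
  rw [coeff_mul] at he
  obtain ⟨x, hx, hne⟩ := Finset.exists_ne_zero_of_sum_ne_zero he
  have h1 := hP x.1 (left_ne_zero_of_mul hne)
  have h2 := hQ x.2 (right_ne_zero_of_mul hne)
  have h3 := h _ h1 _ h2
  rw [← Finset.HasAntidiagonal.mem_antidiagonal.1 hx, milba_wt_add]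
  push_cast
  exact h3

omit [CharZero K] in
private theorem milba_C_mul {w : Fin n → ℕ} {S : Set ℤ} {P : MvPolynomial (Fin n) K} (a : K)
    (hP : MilbaSp w S P) : MilbaSp w S (C a * P) := by
  intro e he
  rw [coeff_C_mul] at he
  exact hP e (right_ne_zero_of_mul he)

omit [CharZero K] in
private theorem milba_X (w : Fin n → ℕ) (j : Fin n) :
    MilbaSp w {(w j : ℤ)} (X j : MvPolynomial (Fin n) K) := by
  classical
  intro e he
  rw [coeff_X] at he
  by_cases h : Finsupp.single j 1 = e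
  · rw [← h, milba_wt_single]
    rfl
  · rw [if_neg h] at he
    exact absurd rfl he

omit [CharZero K] in
private theorem milba_pderiv {w : Fin n → ℕ} {S S' : Set ℤ} {P : MvPolynomial (Fin n) K} {i : Fin n}
    (hP : MilbaSp w S P) (h : ∀ m, m + (w i : ℤ) ∈ S → m ∈ S') : MilbaSp w S' (pderiv i P) := by
  intro e he
  rw [coeff_pderiv] at he
  have h1 := hP _ (left_ne_zero_of_mul he)
  rw [milba_wt_add, milba_wt_single] at h1
  push_cast at h1
  exact h _ h1

/-- the part of weight `m` -/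
private noncomputable def milbaPa (w : Fin n → ℕ) (m : ℤ) (P : MvPolynomial (Fin n) K) :
    MvPolynomial (Fin n) K :=
  ∑ e ∈ P.support.filter (fun e => ((wt w e : ℕ) : ℤ) = m), monomial e (coeff e P)

omit [CharZero K] in
private theorem milba_coeff_pa (w : Fin n → ℕ) (m : ℤ) (P : MvPolynomial (Fin n) K)
    (e : Fin n →₀ ℕ) :
    coeff e (milbaPa w m P) = if ((wt w e : ℕ) : ℤ) = m then coeff e P else 0 := by
  classical
  unfold milbaPa
  rw [coeff_sum]
  simp only [coeff_monomial]
  rw [Finset.sum_ite_eq']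
  by_cases h : ((wt w e : ℕ) : ℤ) = m
  · rw [if_pos h]
    by_cases h2 : coeff e P = 0
    · rw [h2]
      exact ite_self _
    · rw [if_pos (Finset.mem_filter.2 ⟨mem_support_iff.2 h2, h⟩)]
  · have h4 : e ∉ P.support.filter (fun e => ((wt w e : ℕ) : ℤ) = m) := by
      intro h3
      exact h (Finset.mem_filter.1 h3).2
    rw [if_neg h, if_neg h4]

omit [CharZero K] in
private theorem milba_pa_sp (w : Fin n → ℕ) (m : ℤ) (P : MvPolynomial (Fin n) K) :
    MilbaSp w {m} (milbaPa w m P) := by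
  intro e he
  rw [milba_coeff_pa] at he
  by_contra h
  exact he (if_neg h)

omit [CharZero K] in
private theorem milba_pa_of_sp {w : Fin n → ℕ} {m : ℤ} {P : MvPolynomial (Fin n) K}
    (h : MilbaSp w {m} P) : milbaPa w m P = P := by
  ext e
  rw [milba_coeff_pa]
  by_cases h1 : ((wt w e : ℕ) : ℤ) = m
  · rw [if_pos h1]
  · rw [if_neg h1]
    by_contra h2
    exact h1 (h e (Ne.symm h2))

omit [CharZero K] in
private theorem milba_pa_zero {w : Fin n → ℕ} {m : ℤ} {P : MvPolynomial (Fin n) K} {S : Set ℤ}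
    (h : MilbaSp w S P) (hm : m ∉ S) : milbaPa w m P = 0 := by
  ext e
  rw [milba_coeff_pa, coeff_zero]
  by_cases h1 : ((wt w e : ℕ) : ℤ) = m
  · rw [if_pos h1]
    by_contra h2
    exact hm (h1 ▸ h e h2)
  · rw [if_neg h1]

omit [CharZero K] in
private theorem milba_pa_top {w : Fin n → ℕ} {m : ℤ} {P : MvPolynomial (Fin n) K}
    (h : MilbaSp w (Set.Iic m) P) (h0 : milbaPa w m P = 0) : MilbaSp w (Set.Iic (m - 1)) P := by
  intro e he
  have h1 := h e he
  rw [Set.mem_Iic] at h1 ⊢
  rcases lt_or_eq_of_le h1 with h2 | h2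
  · omega
  · exfalso
    have h3 := milba_coeff_pa w m P e
    rw [if_pos h2, h0, coeff_zero] at h3
    exact he h3.symm

omit [CharZero K] in
private theorem milba_pa_add (w : Fin n → ℕ) (m : ℤ) (P Q : MvPolynomial (Fin n) K) :
    milbaPa w m (P + Q) = milbaPa w m P + milbaPa w m Q := by
  ext e
  simp only [coeff_add, milba_coeff_pa]
  by_cases h1 : ((wt w e : ℕ) : ℤ) = m
  · simp only [if_pos h1]
  · simp only [if_neg h1, add_zero]

omit [CharZero K] in
private theorem milba_pa_sub (w : Fin n → ℕ) (m : ℤ) (P Q : MvPolynomial (Fin n) K) :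
    milbaPa w m (P - Q) = milbaPa w m P - milbaPa w m Q := by
  ext e
  simp only [coeff_sub, milba_coeff_pa]
  by_cases h1 : ((wt w e : ℕ) : ℤ) = m
  · simp only [if_pos h1]
  · simp only [if_neg h1, sub_zero]

omit [CharZero K] in
private theorem milba_pa_sum {ι : Type*} (w : Fin n → ℕ) (m : ℤ) (s : Finset ι)
    (P : ι → MvPolynomial (Fin n) K) :
    milbaPa w m (∑ i ∈ s, P i) = ∑ i ∈ s, milbaPa w m (P i) := by
  ext e
  simp only [coeff_sum, milba_coeff_pa]
  by_cases h1 : ((wt w e : ℕ) : ℤ) = m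
  · simp only [if_pos h1]
  · simp only [if_neg h1, Finset.sum_const_zero]

omit [CharZero K] in
private theorem milba_pa_pderiv (w : Fin n → ℕ) (m : ℤ) (i : Fin n) (P : MvPolynomial (Fin n) K) :
    milbaPa w m (pderiv i P) = pderiv i (milbaPa w (m + (w i : ℤ)) P) := by
  ext e
  rw [milba_coeff_pa, coeff_pderiv, coeff_pderiv, milba_coeff_pa, milba_wt_add, milba_wt_single]
  push_cast
  by_cases h1 : ((wt w e : ℕ) : ℤ) = m
  · rw [if_pos h1, if_pos (by rw [h1])]
  · rw [if_neg h1, if_neg (by omega), zero_mul]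

omit [CharZero K] in
private theorem milba_pa_mul {w : Fin n → ℕ} {a b : ℤ} {P Q : MvPolynomial (Fin n) K}
    (hP : MilbaSp w (Set.Iic a) P) (hQ : MilbaSp w (Set.Iic b) Q) :
    milbaPa w (a + b) (P * Q) = milbaPa w a P * milbaPa w b Q := by
  classical
  ext e
  rw [milba_coeff_pa]
  by_cases h1 : ((wt w e : ℕ) : ℤ) = a + b
  · rw [if_pos h1, coeff_mul, coeff_mul]
    refine Finset.sum_congr rfl fun x hx => ?_
    rw [milba_coeff_pa, milba_coeff_pa]
    have h2 : ((wt w x.1 : ℕ) : ℤ) + ((wt w x.2 : ℕ) : ℤ) = a + b := by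
      rw [← h1, ← Finset.HasAntidiagonal.mem_antidiagonal.1 hx, milba_wt_add]
      push_cast
      rfl
    by_cases h3 : coeff x.1 P = 0
    · rw [h3, ite_self, zero_mul, zero_mul]
    by_cases h4 : coeff x.2 Q = 0
    · rw [h4, ite_self, mul_zero, mul_zero]
    have h5 := hP _ h3
    have h6 := hQ _ h4
    rw [Set.mem_Iic] at h5 h6
    rw [if_pos (by omega), if_pos (by omega)]
  · rw [if_neg h1]
    by_contra h2
    have h3 : MilbaSp w {a + b} (milbaPa w a P * milbaPa w b Q) :=
      milba_mul (milba_pa_sp w a P) (milba_pa_sp w b Q) fun x hx y hy => by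
        rw [Set.mem_singleton_iff] at hx hy ⊢
        rw [hx, hy]
    exact h1 (h3 e (Ne.symm h2))

omit [CharZero K] in
private theorem milba_pa_part (w : Fin n → ℕ) (d : ℕ) (f : MvPolynomial (Fin n) K) :
    milbaPa w (d : ℤ) f = part w d f := by
  classical
  ext e
  unfold part
  rw [milba_coeff_pa, coeff_weightedHomogeneousComponent]
  have h : Finsupp.weight w e = wt w e := by
    rw [Finsupp.weight_apply, Finsupp.sum_fintype]
    · unfold wt
      exact Finset.sum_congr rfl fun i _ => by rw [smul_eq_mul, mul_comm]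
    · intro i
      rw [zero_smul]
  rw [h]
  by_cases h1 : wt w e = d
  · rw [if_pos h1, if_pos (by rw [h1])]
  · rw [if_neg h1, if_neg (by exact_mod_cast h1)]

omit [CharZero K] in
/-- Euler: the divergence of `w_j x_j c` -/
private theorem milba_dvg_euler {w : Fin n → ℕ} {N : ℕ} {c : MvPolynomial (Fin n) K} (a : K)
    (hc : ∀ e, coeff e c ≠ 0 → wtp w e = N) :
    dvg (fun j => C (a * (w j : K)) * (X j * c)) = C (a * (N : K)) * c := by
  unfold dvg
  ext e
  rw [coeff_sum, coeff_C_mul]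
  have h1 : ∀ j, coeff e (pderiv j (C (a * (w j : K)) * (X j * c))) =
      a * ((w j : K) * (e j + 1)) * coeff e c := by
    intro j
    rw [coeff_pderiv, coeff_C_mul, add_comm e, coeff_X_mul]
    ring
  rw [Finset.sum_congr rfl fun j _ => h1 j, ← Finset.sum_mul, ← Finset.mul_sum]
  by_cases h2 : coeff e c = 0
  · rw [h2, mul_zero, mul_zero]
  · have h3 := hc e h2
    have h4 : ((wtp w e : ℕ) : K) = ∑ j, (w j : K) * (e j + 1) := by
      unfold wtp
      push_cast
      rfl
    rw [← h4, h3]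

/-- Euler -/
private theorem milba_euler (w : Fin n → ℕ) (d : ℕ) (hd : 0 < d) (f : MvPolynomial (Fin n) K) :
    ∑ j, C ((d : K)⁻¹ * (w j : K)) * (X j * pderiv j (part w d f)) = part w d f := by
  have h1 : (part w d f).IsWeightedHomogeneous w d :=
    weightedHomogeneousComponent_isWeightedHomogeneous d f
  have h2 := h1.sum_weight_X_mul_pderiv
  have hd0 : (d : K) ≠ 0 := Nat.cast_ne_zero.2 hd.ne'
  calc ∑ j, C ((d : K)⁻¹ * (w j : K)) * (X j * pderiv j (part w d f))
      = C ((d : K)⁻¹) * ∑ j, w j • (X j * pderiv j (part w d f)) := by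
        rw [Finset.mul_sum]
        refine Finset.sum_congr rfl fun j _ => ?_
        rw [nsmul_eq_mul, C_mul, mul_assoc]
        congr 1
    _ = part w d f := by
        rw [h2, nsmul_eq_mul, ← mul_assoc]
        have h3 : ((d : ℕ) : MvPolynomial (Fin n) K) = C (d : K) := by
          rw [map_natCast]
        rw [h3, ← C_mul, inv_mul_cancel₀ hd0, C_1, one_mul]

omit [CharZero K] in
private theorem milba_zz_C (a : K) (A : Fin n → Fin n → MvPolynomial (Fin n) K)
    (h : Fin n → MvPolynomial (Fin n) K) :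
    zz (fun i j => C a * A i j) h = C a * zz A h := by
  unfold zz
  rw [Finset.mul_sum]
  refine Finset.sum_congr rfl fun j _ => ?_
  rw [← mul_assoc, Finset.mul_sum]
  congr 1
  exact Finset.sum_congr rfl fun i _ => pderiv_C_mul


omit [CharZero K] in
private theorem milba_pa_mul_hom {w : Fin n → ℕ} {b : ℤ} (a : ℤ) (P : MvPolynomial (Fin n) K)
    {Q : MvPolynomial (Fin n) K} (hQ : MilbaSp w {b} Q) :
    milbaPa w (a + b) (P * Q) = milbaPa w a P * Q := by
  classical
  ext e
  rw [milba_coeff_pa]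
  by_cases h1 : ((wt w e : ℕ) : ℤ) = a + b
  · rw [if_pos h1, coeff_mul, coeff_mul]
    refine Finset.sum_congr rfl fun x hx => ?_
    rw [milba_coeff_pa]
    have h2 : ((wt w x.1 : ℕ) : ℤ) + ((wt w x.2 : ℕ) : ℤ) = a + b := by
      rw [← h1, ← Finset.HasAntidiagonal.mem_antidiagonal.1 hx, milba_wt_add]
      push_cast
      rfl
    by_cases h4 : coeff x.2 Q = 0
    · rw [h4, mul_zero, mul_zero]
    have h6 := hQ _ h4
    rw [Set.mem_singleton_iff] at h6
    rw [if_pos (by omega)]
  · rw [if_neg h1]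
    by_contra h2
    have h3 : MilbaSp w {a + b} (milbaPa w a P * Q) :=
      milba_mul (milba_pa_sp w a P) hQ fun x hx y hy => by
        rw [Set.mem_singleton_iff] at hx hy ⊢
        rw [hx, hy]
    exact h1 (h3 e (Ne.symm h2))

omit [CharZero K] in
private theorem milba_zz_hom {w : Fin n → ℕ} {d : ℕ} {f : MvPolynomial (Fin n) K}
    (hf : MilbaSp w {(d : ℤ)} f) (N : ℤ) (A : Fin n → Fin n → MvPolynomial (Fin n) K) :
    milbaPa w (N + d) (zz A fun j => pderiv j f) =
      zz (fun i j => milbaPa w (N + w i + w j) (A i j)) (fun j => pderiv j f) := by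
  have h2 : ∀ j, MilbaSp w {(d : ℤ) - w j} (pderiv j f) := fun j =>
    milba_pderiv hf fun m hm => by
      rw [Set.mem_singleton_iff] at hm ⊢
      omega
  unfold zz
  rw [milba_pa_sum]
  refine Finset.sum_congr rfl fun j _ => ?_
  have h3 : N + (d : ℤ) = (N + w j) + ((d : ℤ) - w j) := by ring
  rw [h3, milba_pa_mul_hom (N + w j) _ (h2 j), milba_pa_sum]
  congr 1
  refine Finset.sum_congr rfl fun i _ => ?_
  rw [milba_pa_pderiv]
  have h5 : N + (w j : ℤ) + w i = N + w i + w j := by ring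
  rw [h5]

omit [CharZero K] in
private theorem milba_monomial (w : Fin n → ℕ) (u : Fin n →₀ ℕ) (a : K) :
    MilbaSp w {((wt w u : ℕ) : ℤ)} (monomial u a) := by
  classical
  intro e he
  rw [coeff_monomial] at he
  by_cases h : u = e
  · rw [h]
    rfl
  · rw [if_neg h] at he
    exact absurd rfl he

omit [CharZero K] in
private theorem milba_pow {w : Fin n → ℕ} {d : ℕ} {f : MvPolynomial (Fin n) K}
    (hf : MilbaSp w {(d : ℤ)} f) (k : ℕ) : MilbaSp w {((d * k : ℕ) : ℤ)} (f ^ k) := by
  induction k with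
  | zero =>
    rw [pow_zero]
    have h := milba_monomial w (0 : Fin n →₀ ℕ) (1 : K)
    have h0 : wt w (0 : Fin n →₀ ℕ) = 0 := by
      unfold wt
      exact Finset.sum_eq_zero fun i _ => by rw [Finsupp.zero_apply, mul_zero]
    rw [h0] at h
    exact h
  | succ k ih =>
    rw [pow_succ]
    refine milba_mul ih hf fun x hx y hy => ?_
    rw [Set.mem_singleton_iff] at hx hy ⊢
    rw [hx, hy]
    push_cast
    ring

omit [CharZero K] in
private theorem milba_zz_mem (A : Fin n → Fin n → MvPolynomial (Fin n) K)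
    (f : MvPolynomial (Fin n) K) : (zz A fun j => pderiv j f) ∈ Jac f := by
  unfold zz Jac
  exact Ideal.sum_mem _ fun j _ => Ideal.mul_mem_left _ _ (Ideal.subset_span ⟨j, rfl⟩)

end MilBa

variable {κ : Type u} [Field κ] [CharZero κ] {n : ℕ}

theorem mb_tf (hn : 2 ≤ n) (w : Fin n → ℕ) (hw : ∀ i, 0 < w i) (d : ℕ) (hd : 0 < d)
    (g : MvPolynomial (Fin n) κ) (hg : Hom w d g) (M : ℕ)
    (hJ : ∀ i, (X i : MvPolynomial (Fin n) κ) ^ M ∈ Jac g) (Q : MvPolynomial (Fin n) κ) (N : ℕ)
    (hQ : ∀ e ∈ Q.support, wt w e = N) (A : Fin n → Fin n → MvPolynomial (Fin n) κ) (hA : Asym A)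
    (h : g * Q = zz A fun j => pderiv j g) :
    ∃ A' : Fin n → Fin n → MvPolynomial (Fin n) κ, Asym A' ∧ Q = zz A' fun j => pderiv j g := by
  classical
  have hWpos : 0 < ∑ k, w k := by
    have h1 : w ⟨0, by omega⟩ ≤ ∑ k, w k :=
      Finset.single_le_sum (f := w) (fun i _ => Nat.zero_le _) (Finset.mem_univ _)
    have h2 := hw ⟨0, by omega⟩
    omega
  have hwtp : ∀ e, wtp w e = wt w e + ∑ k, w k := milba_wtp w
  have hg' : MilbaSp w {(d : ℤ)} g := by
    intro e he
    rw [Set.mem_singleton_iff]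
    exact_mod_cast hg e (mem_support_iff.2 he)
  have hgd : part w d g = g := by
    rw [← milba_pa_part]
    exact milba_pa_of_sp hg'
  have hQ' : MilbaSp w {(N : ℤ)} Q := by
    intro e he
    rw [Set.mem_singleton_iff]
    exact_mod_cast hQ e (mem_support_iff.2 he)
  set a : Fin n → Fin n → MvPolynomial (Fin n) κ :=
    fun i j => milbaPa w ((N : ℤ) + w i + w j) (A i j) with ha
  have haA : Asym a := by
    constructor
    · intro i
      rw [ha]
      dsimp only
      rw [hA.1 i]
      ext e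
      rw [milba_coeff_pa, coeff_zero, ite_self]
    · intro i j
      rw [ha]
      dsimp only
      rw [hA.2 i j]
      have h1 : (N : ℤ) + (w j : ℤ) + w i = N + w i + w j := by ring
      rw [h1]
      ext e
      rw [coeff_neg, milba_coeff_pa, milba_coeff_pa, coeff_neg]
      by_cases h2 : ((wt w e : ℕ) : ℤ) = N + w i + w j
      · rw [if_pos h2, if_pos h2]
      · rw [if_neg h2, if_neg h2, neg_zero]
  have heq : g * Q = zz a fun j => pderiv j g := by
    have h1 : MilbaSp w {(N : ℤ) + d} (g * Q) := milba_mul hg' hQ' fun x hx y hy => by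
      rw [Set.mem_singleton_iff] at hx hy ⊢
      rw [hx, hy, add_comm]
    rw [← milba_pa_of_sp h1, h, milba_zz_hom hg' (N : ℤ) A]
  have hd0 : (d : κ) ≠ 0 := Nat.cast_ne_zero.2 hd.ne'
  have hN0 : ((N + ∑ k, w k : ℕ) : κ) ≠ 0 := Nat.cast_ne_zero.2 (by omega)
  -- the syzygy
  let R : Fin n → MvPolynomial (Fin n) κ := fun j =>
    C ((d : κ)⁻¹ * (w j : κ)) * (X j * Q) - ∑ i, pderiv i (a i j)
  have hR : ∑ j, R j * pderiv j g = 0 := by
    have h1 := milba_euler w d hd g
    rw [hgd] at h1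
    calc ∑ j, R j * pderiv j g
        = (∑ j, Q * (C ((d : κ)⁻¹ * (w j : κ)) * (X j * pderiv j g))) -
          zz a (fun j => pderiv j g) := by
          unfold zz
          rw [← Finset.sum_sub_distrib]
          refine Finset.sum_congr rfl fun j _ => ?_
          change (C ((d : κ)⁻¹ * (w j : κ)) * (X j * Q) - (∑ i, pderiv i (a i j))) * _ = _
          ring
      _ = 0 := by
          rw [← Finset.mul_sum, h1, ← heq]
          ring
  have hRs : ∀ j, MilbaSp w {(N : ℤ) + w j} (R j) := by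
    intro j
    refine milba_sub (milba_C_mul _ ?_) (milba_sum fun i _ => ?_)
    · refine milba_mul (milba_X w j) hQ' fun x hx y hy => ?_
      rw [Set.mem_singleton_iff] at hx hy ⊢
      rw [hx, hy, add_comm]
    · refine milba_pderiv (milba_pa_sp w _ (A i j)) fun m hm => ?_
      rw [Set.mem_singleton_iff] at hm ⊢
      omega
  have hRN : ∀ j, ∀ e ∈ (R j).support, wtp w e = (N + ∑ k, w k) + w j := by
    intro j e he
    have h1 := hRs j e (mem_support_iff.1 he)
    rw [Set.mem_singleton_iff] at h1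
    have h2 := hwtp e
    omega
  have hh : ∀ j, ∀ e ∈ (pderiv j g).support, wt w e + w j = d := by
    intro j e he
    have h1 : MilbaSp w {(d : ℤ) - w j} (pderiv j g) := by
      refine milba_pderiv hg' fun m hm => ?_
      rw [Set.mem_singleton_iff] at hm ⊢
      omega
    have h2 := h1 e (mem_support_iff.1 he)
    rw [Set.mem_singleton_iff] at h2
    omega
  obtain ⟨G, hG, -, hRG⟩ := koszul_hom w d (fun j => pderiv j g) M (fun i => hJ i) hh
    (N + ∑ k, w k) R hRN hR
  let Gt : Fin n → Fin n → MvPolynomial (Fin n) κ := fun i j => G j i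
  have hGt : Asym Gt := ⟨fun i => hG.1 i, fun i j => hG.2 j i⟩
  have hdv1 : dvg R = - zz Gt (fun j => pderiv j g) := by
    have h1 : R = fun j => ∑ i, Gt i j * pderiv i g := funext hRG
    rw [h1]
    exact dvg_asym g Gt hGt
  have hdv2 : dvg R = C ((d : κ)⁻¹ * ((N + ∑ k, w k : ℕ) : κ)) * Q := by
    have h1 : dvg R = dvg (fun j => C ((d : κ)⁻¹ * (w j : κ)) * (X j * Q)) -
        dvg (fun j => ∑ i, pderiv i (a i j)) := by
      unfold dvg
      rw [← Finset.sum_sub_distrib]
      exact Finset.sum_congr rfl fun j _ => map_sub _ _ _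
    rw [h1, dvg_dvg a haA, sub_zero]
    refine milba_dvg_euler _ fun e he => ?_
    have h2 := hQ e (mem_support_iff.2 he)
    rw [hwtp e, h2]
  refine ⟨fun i j => C (-((d : κ) * ((N + ∑ k, w k : ℕ) : κ)⁻¹)) * Gt i j, ⟨?_, ?_⟩, ?_⟩
  · intro i
    dsimp only
    rw [hGt.1 i, mul_zero]
  · intro i j
    dsimp only
    rw [hGt.2 i j, mul_neg]
  · have h1 : zz Gt (fun j => pderiv j g) =
        - (C ((d : κ)⁻¹ * ((N + ∑ k, w k : ℕ) : κ)) * Q) := by
      rw [← hdv2, hdv1, neg_neg]
    rw [milba_zz_C, h1, mul_neg, ← mul_assoc, ← C_mul]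
    have h3 : -((d : κ) * ((N + ∑ k, w k : ℕ) : κ)⁻¹) *
        ((d : κ)⁻¹ * ((N + ∑ k, w k : ℕ) : κ)) = -1 := by
      rw [neg_mul]
      congr 1
      rw [mul_mul_mul_comm, mul_inv_cancel₀ hd0, inv_mul_cancel₀ hN0, one_mul]
    rw [h3, C_neg, C_1]
    ring

theorem mb_ind0 (hn : 2 ≤ n) (w : Fin n → ℕ) (hw : ∀ i, 0 < w i) (d : ℕ) (hd : 0 < d)
    (g : MvPolynomial (Fin n) κ) (hg : Hom w d g) (M : ℕ)
    (hJ : ∀ i, (X i : MvPolynomial (Fin n) κ) ^ M ∈ Jac g) (U : Finset (Fin n →₀ ℕ))
    (hU : IsMB w g U) (N : ℕ) (c : (Fin n →₀ ℕ) → κ) (j : (Fin n →₀ ℕ) → ℕ)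
    (hj : ∀ u, c u ≠ 0 → d * j u + wt w u = N) (A : Fin n → Fin n → MvPolynomial (Fin n) κ)
    (hA : Asym A) (h : ∑ u ∈ U, g ^ j u * monomial u (c u) = zz A fun j => pderiv j g) :
    ∀ u ∈ U, c u = 0 := by
  classical
  induction N using Nat.strong_induction_on generalizing c j A with
  | _ N ih =>
  have hg' : MilbaSp w {(d : ℤ)} g := by
    intro e he
    rw [Set.mem_singleton_iff]
    exact_mod_cast hg e (mem_support_iff.2 he)
  have hgd : part w d g = g := by
    rw [← milba_pa_part]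
    exact milba_pa_of_sp hg'
  have hgJ : g ∈ Jac g := by
    have h1 := milba_euler w d hd g
    rw [hgd] at h1
    have h2 : ∑ i, C ((d : κ)⁻¹ * (w i : κ)) * (X i * pderiv i g) ∈ Jac g := by
      refine Ideal.sum_mem _ fun i _ => ?_
      rw [← mul_assoc]
      exact Ideal.mul_mem_left _ _ (Ideal.subset_span ⟨i, rfl⟩)
    rw [h1] at h2
    exact h2
  have hzero : ∀ u ∈ U, j u = 0 → c u = 0 := by
    have h1 : ∑ u ∈ U, monomial u (if j u = 0 then c u else 0) ∈ Jac g := by
      have h2 : ∑ u ∈ U, monomial u (if j u = 0 then c u else 0) =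
          (zz A fun j => pderiv j g) -
            ∑ u ∈ U, (if j u = 0 then 0 else g ^ j u * monomial u (c u)) := by
        rw [← h, ← Finset.sum_sub_distrib]
        refine Finset.sum_congr rfl fun u _ => ?_
        by_cases hu : j u = 0
        · rw [if_pos hu, if_pos hu, hu, pow_zero, one_mul, sub_zero]
        · rw [if_neg hu, if_neg hu, sub_self, map_zero]
      rw [h2]
      refine Ideal.sub_mem _ (milba_zz_mem A g) (Ideal.sum_mem _ fun u _ => ?_)
      by_cases hu : j u = 0
      · rw [if_pos hu]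
        exact Ideal.zero_mem _
      · rw [if_neg hu]
        exact Ideal.mul_mem_right _ _ (Ideal.pow_mem_of_mem _ hgJ _ (Nat.pos_of_ne_zero hu))
    intro u hu hju
    have h3 := hU.ind _ h1 u hu
    rw [if_pos hju] at h3
    exact h3
  by_cases hNd : N < d
  · intro u hu
    by_contra hcu
    have h1 := hj u hcu
    have h2 : j u ≠ 0 := fun h3 => hcu (hzero u hu h3)
    have h3 : d * 1 ≤ d * j u := Nat.mul_le_mul_left d (Nat.pos_of_ne_zero h2)
    omega
  · have hj' : ∀ u, (if u ∈ U then c u else 0) ≠ 0 → d * (j u - 1) + wt w u = N - d := by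
      intro u hu
      by_cases huU : u ∈ U
      · rw [if_pos huU] at hu
        have h1 := hj u hu
        have h2 : j u ≠ 0 := fun h3 => hu (hzero u huU h3)
        obtain ⟨k, hk⟩ := Nat.exists_eq_succ_of_ne_zero h2
        rw [hk] at h1 ⊢
        rw [Nat.succ_eq_add_one, Nat.mul_add, mul_one] at h1
        rw [Nat.succ_eq_add_one, Nat.add_sub_cancel]
        omega
      · rw [if_neg huU] at hu
        exact absurd rfl hu
    set Q : MvPolynomial (Fin n) κ :=
      ∑ u ∈ U, g ^ (j u - 1) * monomial u (if u ∈ U then c u else 0) with hQdef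
    have hgQ : g * Q = zz A fun j => pderiv j g := by
      rw [← h, hQdef, Finset.mul_sum]
      refine Finset.sum_congr rfl fun u hu => ?_
      rw [if_pos hu]
      by_cases hcu : c u = 0
      · rw [hcu, map_zero, mul_zero, mul_zero, mul_zero]
      · have h2 : j u ≠ 0 := fun h3 => hcu (hzero u hu h3)
        rw [← mul_assoc, mul_pow_sub_one h2]
    have hQN : ∀ e ∈ Q.support, wt w e = N - d := by
      have h1 : MilbaSp w {((N - d : ℕ) : ℤ)} Q := by
        refine milba_sum fun u _ => ?_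
        by_cases hcu : (if u ∈ U then c u else 0) = 0
        · rw [hcu, map_zero, mul_zero]
          intro e he
          rw [coeff_zero] at he
          exact absurd rfl he
        · refine milba_mul (milba_pow hg' _) (milba_monomial w u _) fun x hx y hy => ?_
          rw [Set.mem_singleton_iff] at hx hy ⊢
          rw [hx, hy, ← hj' u hcu]
          push_cast
          ring
      intro e he
      have h2 := h1 e (mem_support_iff.1 he)
      rw [Set.mem_singleton_iff] at h2
      exact_mod_cast h2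
    obtain ⟨A', hA', hQA'⟩ := mb_tf hn w hw d hd g hg M hJ Q (N - d) hQN A hA hgQ
    have h4 := ih (N - d) (by omega) (fun u => if u ∈ U then c u else 0) (fun u => j u - 1)
      hj' A' hA' hQA'
    intro u hu
    have h5 := h4 u hu
    rw [if_pos hu] at h5
    exact h5

private theorem milbb_wt_add (w : Fin n → ℕ) (e f : Fin n →₀ ℕ) :
    wt w (e + f) = wt w e + wt w f := by
  unfold wt
  rw [← Finset.sum_add_distrib]
  exact Finset.sum_congr rfl fun i _ => by rw [Finsupp.add_apply]; ring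

private theorem milbb_wt_single (w : Fin n → ℕ) (i : Fin n) : wt w (Finsupp.single i 1) = w i := by
  unfold wt
  rw [Finset.sum_eq_single i]
  · rw [Finsupp.single_eq_same, mul_one]
  · intro j _ hj
    rw [Finsupp.single_eq_of_ne hj, mul_zero]
  · intro h
    exact absurd (Finset.mem_univ i) h

private theorem milbb_wtp (w : Fin n → ℕ) (e : Fin n →₀ ℕ) : wtp w e = wt w e + ∑ i, w i := by
  unfold wtp wt
  rw [← Finset.sum_add_distrib]
  exact Finset.sum_congr rfl fun i _ => by ring

/-- the weights of the monomials of `P` are in `S` -/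
private def MilbbSp (w : Fin n → ℕ) (S : Set ℤ) (P : MvPolynomial (Fin n) κ) : Prop :=
  ∀ e, coeff e P ≠ 0 → ((wt w e : ℕ) : ℤ) ∈ S

omit [CharZero κ] in
private theorem milbb_mono {w : Fin n → ℕ} {S S' : Set ℤ} {P : MvPolynomial (Fin n) κ}
    (h : MilbbSp w S P) (hS : ∀ m ∈ S, m ∈ S') : MilbbSp w S' P := fun e he => hS _ (h e he)

omit [CharZero κ] in
private theorem milbb_sum {w : Fin n → ℕ} {S : Set ℤ} {ι : Type*} {s : Finset ι}
    {P : ι → MvPolynomial (Fin n) κ} (hP : ∀ i ∈ s, MilbbSp w S (P i)) :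
    MilbbSp w S (∑ i ∈ s, P i) := by
  intro e he
  rw [coeff_sum] at he
  obtain ⟨i, hi, h⟩ := Finset.exists_ne_zero_of_sum_ne_zero he
  exact hP i hi e h

omit [CharZero κ] in
private theorem milbb_mul {w : Fin n → ℕ} {S S' S'' : Set ℤ} {P Q : MvPolynomial (Fin n) κ}
    (hP : MilbbSp w S P) (hQ : MilbbSp w S' Q) (h : ∀ a ∈ S, ∀ b ∈ S', a + b ∈ S'') :
    MilbbSp w S'' (P * Q) := by
  classical
  intro e he
  rw [coeff_mul] at he
  obtain ⟨x, hx, hne⟩ := Finset.exists_ne_zero_of_sum_ne_zero he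
  have h1 := hP x.1 (left_ne_zero_of_mul hne)
  have h2 := hQ x.2 (right_ne_zero_of_mul hne)
  have h3 := h _ h1 _ h2
  rw [← Finset.HasAntidiagonal.mem_antidiagonal.1 hx, milbb_wt_add]
  push_cast
  exact h3

omit [CharZero κ] in
private theorem milbb_pderiv {w : Fin n → ℕ} {S S' : Set ℤ} {P : MvPolynomial (Fin n) κ} {i : Fin n}
    (hP : MilbbSp w S P) (h : ∀ m, m + (w i : ℤ) ∈ S → m ∈ S') : MilbbSp w S' (pderiv i P) := by
  intro e he
  rw [coeff_pderiv] at he
  have h1 := hP _ (left_ne_zero_of_mul he)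
  rw [milbb_wt_add, milbb_wt_single] at h1
  push_cast at h1
  exact h _ h1

/-- the part of weight `m` -/
private noncomputable def milbbPa (w : Fin n → ℕ) (m : ℤ) (P : MvPolynomial (Fin n) κ) :
    MvPolynomial (Fin n) κ :=
  ∑ e ∈ P.support.filter (fun e => ((wt w e : ℕ) : ℤ) = m), monomial e (coeff e P)

omit [CharZero κ] in
private theorem milbb_coeff_pa (w : Fin n → ℕ) (m : ℤ) (P : MvPolynomial (Fin n) κ)
    (e : Fin n →₀ ℕ) :
    coeff e (milbbPa w m P) = if ((wt w e : ℕ) : ℤ) = m then coeff e P else 0 := by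
  classical
  unfold milbbPa
  rw [coeff_sum]
  simp only [coeff_monomial]
  rw [Finset.sum_ite_eq']
  by_cases h : ((wt w e : ℕ) : ℤ) = m
  · rw [if_pos h]
    by_cases h2 : coeff e P = 0
    · rw [h2]
      exact ite_self _
    · rw [if_pos (Finset.mem_filter.2 ⟨mem_support_iff.2 h2, h⟩)]
  · have h4 : e ∉ P.support.filter (fun e => ((wt w e : ℕ) : ℤ) = m) := by
      intro h3
      exact h (Finset.mem_filter.1 h3).2
    rw [if_neg h, if_neg h4]

omit [CharZero κ] in
private theorem milbb_pa_sp (w : Fin n → ℕ) (m : ℤ) (P : MvPolynomial (Fin n) κ) :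
    MilbbSp w {m} (milbbPa w m P) := by
  intro e he
  rw [milbb_coeff_pa] at he
  by_contra h
  exact he (if_neg h)

omit [CharZero κ] in
private theorem milbb_pa_of_sp {w : Fin n → ℕ} {m : ℤ} {P : MvPolynomial (Fin n) κ}
    (h : MilbbSp w {m} P) : milbbPa w m P = P := by
  ext e
  rw [milbb_coeff_pa]
  by_cases h1 : ((wt w e : ℕ) : ℤ) = m
  · rw [if_pos h1]
  · rw [if_neg h1]
    by_contra h2
    exact h1 (h e (Ne.symm h2))

omit [CharZero κ] in
private theorem milbb_pa_zero {w : Fin n → ℕ} {m : ℤ} {P : MvPolynomial (Fin n) κ} {S : Set ℤ}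
    (h : MilbbSp w S P) (hm : m ∉ S) : milbbPa w m P = 0 := by
  ext e
  rw [milbb_coeff_pa, coeff_zero]
  by_cases h1 : ((wt w e : ℕ) : ℤ) = m
  · rw [if_pos h1]
    by_contra h2
    exact hm (h1 ▸ h e h2)
  · rw [if_neg h1]

omit [CharZero κ] in
private theorem milbb_pa_sum {ι : Type*} (w : Fin n → ℕ) (m : ℤ) (s : Finset ι)
    (P : ι → MvPolynomial (Fin n) κ) :
    milbbPa w m (∑ i ∈ s, P i) = ∑ i ∈ s, milbbPa w m (P i) := by
  ext e
  simp only [coeff_sum, milbb_coeff_pa]
  by_cases h1 : ((wt w e : ℕ) : ℤ) = m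
  · simp only [if_pos h1]
  · simp only [if_neg h1, Finset.sum_const_zero]

omit [CharZero κ] in
private theorem milbb_pa_pderiv (w : Fin n → ℕ) (m : ℤ) (i : Fin n) (P : MvPolynomial (Fin n) κ) :
    milbbPa w m (pderiv i P) = pderiv i (milbbPa w (m + (w i : ℤ)) P) := by
  ext e
  rw [milbb_coeff_pa, coeff_pderiv, coeff_pderiv, milbb_coeff_pa, milbb_wt_add, milbb_wt_single]
  push_cast
  by_cases h1 : ((wt w e : ℕ) : ℤ) = m
  · rw [if_pos h1, if_pos (by rw [h1])]
  · rw [if_neg h1, if_neg (by omega), zero_mul]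

omit [CharZero κ] in
private theorem milbb_pa_mul {w : Fin n → ℕ} {a b : ℤ} {P Q : MvPolynomial (Fin n) κ}
    (hP : MilbbSp w (Set.Iic a) P) (hQ : MilbbSp w (Set.Iic b) Q) :
    milbbPa w (a + b) (P * Q) = milbbPa w a P * milbbPa w b Q := by
  classical
  ext e
  rw [milbb_coeff_pa]
  by_cases h1 : ((wt w e : ℕ) : ℤ) = a + b
  · rw [if_pos h1, coeff_mul, coeff_mul]
    refine Finset.sum_congr rfl fun x hx => ?_
    rw [milbb_coeff_pa, milbb_coeff_pa]
    have h2 : ((wt w x.1 : ℕ) : ℤ) + ((wt w x.2 : ℕ) : ℤ) = a + b := by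
      rw [← h1, ← Finset.HasAntidiagonal.mem_antidiagonal.1 hx, milbb_wt_add]
      push_cast
      rfl
    by_cases h3 : coeff x.1 P = 0
    · rw [h3, ite_self, zero_mul, zero_mul]
    by_cases h4 : coeff x.2 Q = 0
    · rw [h4, ite_self, mul_zero, mul_zero]
    have h5 := hP _ h3
    have h6 := hQ _ h4
    rw [Set.mem_Iic] at h5 h6
    rw [if_pos (by omega), if_pos (by omega)]
  · rw [if_neg h1]
    by_contra h2
    have h3 : MilbbSp w {a + b} (milbbPa w a P * milbbPa w b Q) :=
      milbb_mul (milbb_pa_sp w a P) (milbb_pa_sp w b Q) fun x hx y hy => by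
        rw [Set.mem_singleton_iff] at hx hy ⊢
        rw [hx, hy]
    exact h1 (h3 e (Ne.symm h2))

omit [CharZero κ] in
private theorem milbb_pa_part (w : Fin n → ℕ) (d : ℕ) (f : MvPolynomial (Fin n) κ) :
    milbbPa w (d : ℤ) f = part w d f := by
  classical
  ext e
  unfold part
  rw [milbb_coeff_pa, coeff_weightedHomogeneousComponent]
  have h : Finsupp.weight w e = wt w e := by
    rw [Finsupp.weight_apply, Finsupp.sum_fintype]
    · unfold wt
      exact Finset.sum_congr rfl fun i _ => by rw [smul_eq_mul, mul_comm]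
    · intro i
      rw [zero_smul]
  rw [h]
  by_cases h1 : wt w e = d
  · rw [if_pos h1, if_pos (by rw [h1])]
  · rw [if_neg h1, if_neg (by exact_mod_cast h1)]

omit [CharZero κ] in
/-- the top part of `zz A (∂ f)` -/
private theorem milbb_zz {w : Fin n → ℕ} {d : ℕ} {f : MvPolynomial (Fin n) κ}
    (hf : MilbbSp w (Set.Iic (d : ℤ)) f) {N : ℤ}
    {A : Fin n → Fin n → MvPolynomial (Fin n) κ}
    (hlev : ∀ i j, MilbbSp w (Set.Iic (N + w i + w j)) (A i j)) :
    MilbbSp w (Set.Iic (N + d)) (zz A fun j => pderiv j f) ∧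
      milbbPa w (N + d) (zz A fun j => pderiv j f) =
        zz (fun i j => milbbPa w (N + w i + w j) (A i j)) (fun j => pderiv j (part w d f)) := by
  have h1 : ∀ j, MilbbSp w (Set.Iic (N + w j)) (∑ i, pderiv i (A i j)) := fun j =>
    milbb_sum fun i _ => milbb_pderiv (hlev i j) fun m hm => by
      rw [Set.mem_Iic] at hm ⊢
      omega
  have h2 : ∀ j, MilbbSp w (Set.Iic ((d : ℤ) - w j)) (pderiv j f) := fun j =>
    milbb_pderiv hf fun m hm => by
      rw [Set.mem_Iic] at hm ⊢
      omega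
  constructor
  · unfold zz
    refine milbb_sum fun j _ => milbb_mul (h1 j) (h2 j) fun a ha b hb => ?_
    rw [Set.mem_Iic] at ha hb ⊢
    omega
  · unfold zz
    rw [milbb_pa_sum]
    refine Finset.sum_congr rfl fun j _ => ?_
    have h3 : N + (d : ℤ) = (N + w j) + ((d : ℤ) - w j) := by ring
    rw [h3, milbb_pa_mul (h1 j) (h2 j), milbb_pa_sum, milbb_pa_pderiv]
    have h4 : (d : ℤ) - w j + w j = d := by ring
    rw [h4, milbb_pa_part]
    congr 1
    refine Finset.sum_congr rfl fun i _ => ?_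
    rw [milbb_pa_pderiv]
    have h5 : N + (w j : ℤ) + w i = N + w i + w j := by ring
    rw [h5]

omit [CharZero κ] in
private theorem milbb_pa_C (w : Fin n → ℕ) (m : ℤ) (c : κ) (P : MvPolynomial (Fin n) κ) :
    milbbPa w m (C c * P) = C c * milbbPa w m P := by
  ext e
  simp only [coeff_C_mul, milbb_coeff_pa]
  by_cases h1 : ((wt w e : ℕ) : ℤ) = m
  · simp only [if_pos h1]
  · simp only [if_neg h1, mul_zero]

omit [CharZero κ] in
private theorem milbb_C_mul {w : Fin n → ℕ} {S : Set ℤ} {P : MvPolynomial (Fin n) κ} (a : κ)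
    (hP : MilbbSp w S P) : MilbbSp w S (C a * P) := by
  intro e he
  rw [coeff_C_mul] at he
  exact hP e (right_ne_zero_of_mul he)

omit [CharZero κ] in
private theorem milbb_mon (w : Fin n → ℕ) (u : Fin n →₀ ℕ) (c : κ) :
    MilbbSp w {((wt w u : ℕ) : ℤ)} (monomial u c) := by
  classical
  intro e he
  rw [coeff_monomial] at he
  by_cases h : u = e
  · rw [h]
    rfl
  · rw [if_neg h] at he
    exact absurd rfl he

omit [CharZero κ] in
private theorem milbb_pow {w : Fin n → ℕ} {d : ℤ} {φ : MvPolynomial (Fin n) κ}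
    (hφ : MilbbSp w (Set.Iic d) φ) (i : ℕ) :
    MilbbSp w (Set.Iic (d * i)) (φ ^ i) ∧ milbbPa w (d * i) (φ ^ i) = milbbPa w d φ ^ i := by
  induction i with
  | zero =>
    have h1 : MilbbSp w {((wt w 0 : ℕ) : ℤ)} (1 : MvPolynomial (Fin n) κ) := milbb_mon w 0 1
    have h0 : wt w 0 = 0 := by
      unfold wt
      simp
    rw [h0, Nat.cast_zero] at h1
    rw [pow_zero, pow_zero, Nat.cast_zero, mul_zero]
    exact ⟨milbb_mono h1 fun m hm => le_of_eq hm, milbb_pa_of_sp h1⟩
  | succ i ih =>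
    have e1 : d * ((i + 1 : ℕ) : ℤ) = d * i + d := by
      push_cast
      ring
    rw [pow_succ, pow_succ, e1]
    refine ⟨milbb_mul ih.1 hφ fun a ha b hb => ?_, ?_⟩
    · rw [Set.mem_Iic] at ha hb ⊢
      exact add_le_add ha hb
    · rw [milbb_pa_mul ih.1 hφ, ih.2]

omit [CharZero κ] in
private theorem milbb_aeval {w : Fin n → ℕ} {d : ℕ} (hd : 0 < d) {φ : MvPolynomial (Fin n) κ}
    (hφ : MilbbSp w (Set.Iic (d : ℤ)) φ) (a : Polynomial κ) :
    MilbbSp w (Set.Iic ((d : ℤ) * a.natDegree)) (Polynomial.aeval φ a) ∧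
      milbbPa w ((d : ℤ) * a.natDegree) (Polynomial.aeval φ a) =
        C a.leadingCoeff * part w d φ ^ a.natDegree := by
  have hd' : (0 : ℤ) < d := by exact_mod_cast hd
  have e1 : Polynomial.aeval φ a =
      ∑ i ∈ Finset.range (a.natDegree + 1), C (a.coeff i) * φ ^ i := by
    rw [Polynomial.aeval_eq_sum_range]
    exact Finset.sum_congr rfl fun i _ => by rw [smul_eq_C_mul]
  rw [e1]
  constructor
  · refine milbb_sum fun i hi => milbb_C_mul _ (milbb_mono (milbb_pow hφ i).1 fun m hm => ?_)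
    rw [Finset.mem_range] at hi
    rw [Set.mem_Iic] at hm ⊢
    refine hm.trans (mul_le_mul_of_nonneg_left ?_ hd'.le)
    exact_mod_cast Nat.le_of_lt_succ hi
  · rw [milbb_pa_sum, Finset.sum_range_succ, Finset.sum_eq_zero, zero_add, milbb_pa_C,
      (milbb_pow hφ _).2, milbb_pa_part]
    · rfl
    · intro i hi
      rw [Finset.mem_range] at hi
      refine milbb_pa_zero (milbb_C_mul _ (milbb_pow hφ i).1) ?_
      rw [Set.mem_Iic, not_le]
      refine mul_lt_mul_of_pos_left ?_ hd'
      exact_mod_cast hi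

omit [CharZero κ] in
/-- the part of weight `N` of one summand -/
private theorem milbb_term {w : Fin n → ℕ} {d : ℕ} (hd : 0 < d) {φ : MvPolynomial (Fin n) κ}
    (hφ : MilbbSp w (Set.Iic (d : ℤ)) φ) (a : Polynomial κ) (u : Fin n →₀ ℕ) :
    MilbbSp w (Set.Iic ((d * a.natDegree + wt w u : ℕ) : ℤ))
        (Polynomial.aeval φ a * monomial u 1) ∧
      milbbPa w ((d * a.natDegree + wt w u : ℕ) : ℤ) (Polynomial.aeval φ a * monomial u 1) =
        part w d φ ^ a.natDegree * monomial u a.leadingCoeff := by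
  have h1 := milbb_aeval hd hφ a
  have h2 : MilbbSp w (Set.Iic ((wt w u : ℕ) : ℤ)) (monomial u (1 : κ)) :=
    milbb_mono (milbb_mon w u 1) fun m hm => le_of_eq hm
  have e1 : ((d * a.natDegree + wt w u : ℕ) : ℤ) =
      (d : ℤ) * a.natDegree + ((wt w u : ℕ) : ℤ) := by
    push_cast
    rfl
  rw [e1]
  refine ⟨milbb_mul h1.1 h2 fun x hx y hy => ?_, ?_⟩
  · rw [Set.mem_Iic] at hx hy ⊢
    exact add_le_add hx hy
  · rw [milbb_pa_mul h1.1 h2, h1.2, milbb_pa_of_sp (milbb_mon w u 1), mul_comm (C _), mul_assoc,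
      C_mul_monomial, mul_one]

omit [CharZero κ] in
private theorem milbb_asym_zero : Asym (fun _ _ : Fin n => (0 : MvPolynomial (Fin n) κ)) :=
  ⟨fun _ => rfl, fun _ _ => neg_zero.symm⟩

omit [CharZero κ] in
private theorem milbb_zz_zero (x : Fin n → MvPolynomial (Fin n) κ) :
    zz (fun _ _ => (0 : MvPolynomial (Fin n) κ)) x = 0 := by
  unfold zz
  refine Finset.sum_eq_zero fun j _ => ?_
  rw [Finset.sum_eq_zero (fun i _ => by rw [map_zero]), zero_mul]

private theorem milbb_lower (hn : 2 ≤ n) (w : Fin n → ℕ) (hw : ∀ i, 0 < w i) (d : ℕ) (hd : 0 < d)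
    (φ : MvPolynomial (Fin n) κ) (hφ : DegLe w d φ) (M : ℕ)
    (hJ : ∀ i, (X i : MvPolynomial (Fin n) κ) ^ M ∈ Jac (part w d φ)) (N : ℤ)
    (P : MvPolynomial (Fin n) κ) (hP : MilbbSp w (Set.Iic N) P) (L : ℕ) :
    ∀ A : Fin n → Fin n → MvPolynomial (Fin n) κ, Asym A →
      (∀ i j, ∀ e ∈ (A i j).support, wtp w e ≤ L + w i + w j) →
      (P = zz A fun j => pderiv j φ) →
      ∃ A' : Fin n → Fin n → MvPolynomial (Fin n) κ, Asym A' ∧
        milbbPa w N P = zz A' fun j => pderiv j (part w d φ) := by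
  have hW : ∀ i j : Fin n, i ≠ j → w i + w j ≤ ∑ k, w k := by
    intro i j hij
    calc w i + w j = ∑ k ∈ ({i, j} : Finset (Fin n)), w k := by
          rw [Finset.sum_pair hij]
      _ ≤ ∑ k, w k := Finset.sum_le_sum_of_subset (Finset.subset_univ _)
  obtain ⟨W, hWdef⟩ : ∃ W : ℤ, W = ((∑ k, w k : ℕ) : ℤ) := ⟨_, rfl⟩
  have hwtp : ∀ e, ((wtp w e : ℕ) : ℤ) = ((wt w e : ℕ) : ℤ) + W := by
    intro e
    rw [milbb_wtp, hWdef]
    push_cast
    rfl
  have hφ' : MilbbSp w (Set.Iic (d : ℤ)) φ := by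
    intro e he
    rw [Set.mem_Iic]
    exact_mod_cast hφ e (mem_support_iff.2 he)
  -- the case of a small level
  have hsmall : ∀ L : ℕ, (L : ℤ) + d ≤ N + W →
      ∀ A : Fin n → Fin n → MvPolynomial (Fin n) κ, Asym A →
      (∀ i j, ∀ e ∈ (A i j).support, wtp w e ≤ L + w i + w j) →
      (P = zz A fun j => pderiv j φ) →
      ∃ A' : Fin n → Fin n → MvPolynomial (Fin n) κ, Asym A' ∧
        milbbPa w N P = zz A' fun j => pderiv j (part w d φ) := by
    intro L hL A hA hlev hz
    have hlev' : ∀ i j, MilbbSp w (Set.Iic ((L : ℤ) - W + w i + w j)) (A i j) := by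
      intro i j e he
      rw [Set.mem_Iic]
      have h1 := hlev i j e (mem_support_iff.2 he)
      have h2 := hwtp e
      omega
    obtain ⟨z1, z2⟩ := milbb_zz hφ' hlev'
    rcases lt_or_eq_of_le hL with h1 | h1
    · refine ⟨_, milbb_asym_zero, ?_⟩
      rw [milbb_zz_zero, hz]
      refine milbb_pa_zero z1 ?_
      rw [Set.mem_Iic]
      omega
    · have e1 : (L : ℤ) - W + d = N := by omega
      rw [e1] at z2
      refine ⟨fun i j => milbbPa w ((L : ℤ) - W + w i + w j) (A i j), ⟨fun i => ?_, fun i j => ?_⟩,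
        ?_⟩
      · dsimp only
        rw [hA.1 i]
        ext e
        rw [milbb_coeff_pa, coeff_zero, ite_self]
      · dsimp only
        rw [hA.2 i j]
        have h2 : (L : ℤ) - W + (w j : ℤ) + w i = L - W + w i + w j := by ring
        rw [h2]
        ext e
        rw [coeff_neg, milbb_coeff_pa, milbb_coeff_pa, coeff_neg]
        by_cases h3 : ((wt w e : ℕ) : ℤ) = L - W + w i + w j
        · rw [if_pos h3, if_pos h3]
        · rw [if_neg h3, if_neg h3, neg_zero]
      · rw [hz, z2]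
  induction L with
  | zero =>
    intro A hA hlev hz
    by_cases hL : ((0 : ℕ) : ℤ) + d ≤ N + W
    · exact hsmall 0 hL A hA hlev hz
    · obtain ⟨A', hA', hA's, hzA'⟩ := lemS hn w hw d hd φ hφ M hJ 0 A hA hlev (by
        intro e he
        rw [← hz]
        by_contra h
        have h1 := hP e h
        rw [Set.mem_Iic] at h1
        have h2 := hwtp e
        omega)
      have hA0 : A' = fun _ _ => 0 := by
        funext i j
        by_cases hij : i = j
        · rw [hij, hA'.1 j]
        · ext e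
          rw [coeff_zero]
          by_contra h
          have h1 := hA's i j _ (mem_support_iff.2 h)
          rw [milbb_wtp] at h1
          have h2 := hW i j hij
          omega
      refine ⟨_, milbb_asym_zero, ?_⟩
      rw [milbb_zz_zero, hz, ← hzA', hA0, milbb_zz_zero]
      ext e
      rw [milbb_coeff_pa, coeff_zero, ite_self]
  | succ L ih =>
    intro A hA hlev hz
    by_cases hL : ((L + 1 : ℕ) : ℤ) + d ≤ N + W
    · exact hsmall (L + 1) hL A hA hlev hz
    · obtain ⟨A', hA', hA's, hzA'⟩ := lemS hn w hw d hd φ hφ M hJ (L + 1) A hA hlev (by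
        intro e he
        rw [← hz]
        by_contra h
        have h1 := hP e h
        rw [Set.mem_Iic] at h1
        have h2 := hwtp e
        omega)
      refine ih A' hA' ?_ (hz.trans hzA'.symm)
      intro i j e he
      have h1 := hA's i j e he
      omega

theorem mb_ind (hn : 2 ≤ n) (w : Fin n → ℕ) (hw : ∀ i, 0 < w i) (d : ℕ) (hd : 0 < d)
    (φ : MvPolynomial (Fin n) κ) (hφ : DegLe w d φ) (M : ℕ)
    (hJ : ∀ i, (X i : MvPolynomial (Fin n) κ) ^ M ∈ Jac (part w d φ)) (U : Finset (Fin n →₀ ℕ))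
    (hU : IsMB w (part w d φ) U) (a : (Fin n →₀ ℕ) → Polynomial κ)
    (A : Fin n → Fin n → MvPolynomial (Fin n) κ) (hA : Asym A)
    (h : ∑ u ∈ U, Polynomial.aeval φ (a u) * monomial u 1 = zz A fun j => pderiv j φ) :
    ∀ u ∈ U, a u = 0 := by
  classical
  by_contra hcon
  push Not at hcon
  obtain ⟨u1, hu1, hau1⟩ := hcon
  obtain ⟨u0, hu0, hmax⟩ := Finset.exists_max_image (U.filter fun u => a u ≠ 0)
    (fun u => d * (a u).natDegree + wt w u) ⟨u1, Finset.mem_filter.2 ⟨hu1, hau1⟩⟩
  rw [Finset.mem_filter] at hu0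
  obtain ⟨hu0U, hau0⟩ := hu0
  obtain ⟨N, hN⟩ : ∃ N : ℕ, N = d * (a u0).natDegree + wt w u0 := ⟨_, rfl⟩
  have hmax' : ∀ u ∈ U, a u ≠ 0 → d * (a u).natDegree + wt w u ≤ N := by
    intro u hu hau
    rw [hN]
    exact hmax u (Finset.mem_filter.2 ⟨hu, hau⟩)
  have hφ' : MilbbSp w (Set.Iic (d : ℤ)) φ := by
    intro e he
    rw [Set.mem_Iic]
    exact_mod_cast hφ e (mem_support_iff.2 he)
  -- the top coefficients
  let c : (Fin n →₀ ℕ) → κ := fun u =>
    if a u ≠ 0 ∧ d * (a u).natDegree + wt w u = N then (a u).leadingCoeff else 0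
  let j : (Fin n →₀ ℕ) → ℕ := fun u => (a u).natDegree
  have hc : ∀ u, c u ≠ 0 → d * j u + wt w u = N := by
    intro u hu
    by_contra h1
    apply hu
    exact if_neg fun h2 => h1 h2.2
  have hterm : ∀ u ∈ U, MilbbSp w (Set.Iic (N : ℤ)) (Polynomial.aeval φ (a u) * monomial u 1) ∧
      milbbPa w (N : ℤ) (Polynomial.aeval φ (a u) * monomial u 1) =
        part w d φ ^ j u * monomial u (c u) := by
    intro u hu
    by_cases hau : a u = 0
    · have h1 : c u = 0 := if_neg fun h2 => h2.1 hau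
      rw [hau, map_zero, zero_mul, h1, monomial_zero, mul_zero]
      constructor
      · intro e he
        rw [coeff_zero] at he
        exact absurd rfl he
      · ext e
        rw [milbb_coeff_pa, coeff_zero, ite_self]
    · have h1 := milbb_term hd hφ' (a u) u
      have h2 := hmax' u hu hau
      rcases lt_or_eq_of_le h2 with h3 | h3
      · have h4 : c u = 0 := if_neg fun h5 => by omega
        rw [h4, monomial_zero, mul_zero]
        refine ⟨milbb_mono h1.1 fun m hm => ?_, milbb_pa_zero h1.1 ?_⟩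
        · rw [Set.mem_Iic] at hm ⊢
          refine hm.trans ?_
          exact_mod_cast h2
        · rw [Set.mem_Iic, not_le]
          exact_mod_cast h3
      · have h4 : c u = (a u).leadingCoeff := if_pos ⟨hau, h3⟩
        rw [h4, ← h3]
        exact h1
  obtain ⟨P, hPdef⟩ : ∃ P : MvPolynomial (Fin n) κ,
    P = ∑ u ∈ U, Polynomial.aeval φ (a u) * monomial u 1 := ⟨_, rfl⟩
  have hPs : MilbbSp w (Set.Iic (N : ℤ)) P := by
    rw [hPdef]
    exact milbb_sum fun u hu => (hterm u hu).1
  have hPa : milbbPa w (N : ℤ) P = ∑ u ∈ U, part w d φ ^ j u * monomial u (c u) := by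
    rw [hPdef, milbb_pa_sum]
    exact Finset.sum_congr rfl fun u hu => (hterm u hu).2
  -- a level of `A`
  obtain ⟨L, hL⟩ : ∃ L : ℕ, ∀ i j, ∀ e ∈ (A i j).support, wtp w e ≤ L + w i + w j := by
    refine ⟨Finset.univ.sup fun i => Finset.univ.sup fun j => (A i j).support.sup (wtp w), ?_⟩
    intro i j e he
    have h1 : wtp w e ≤ (A i j).support.sup (wtp w) := Finset.le_sup (f := wtp w) he
    have h2 : (A i j).support.sup (wtp w) ≤
        Finset.univ.sup fun j => (A i j).support.sup (wtp w) :=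
      Finset.le_sup (f := fun j => (A i j).support.sup (wtp w)) (Finset.mem_univ j)
    have h3 : (Finset.univ.sup fun j => (A i j).support.sup (wtp w)) ≤
        Finset.univ.sup fun i => Finset.univ.sup fun j => (A i j).support.sup (wtp w) :=
      Finset.le_sup (f := fun i => Finset.univ.sup fun j => (A i j).support.sup (wtp w))
        (Finset.mem_univ i)
    omega
  obtain ⟨A', hA', hzA'⟩ := milbb_lower hn w hw d hd φ hφ M hJ (N : ℤ) P hPs L A hA hL
    (hPdef.trans h)
  rw [hPa] at hzA'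
  have hg : Hom w d (part w d φ) := by
    intro e he
    rw [← milbb_pa_part] at he
    have h1 := milbb_pa_sp w (d : ℤ) φ e (mem_support_iff.1 he)
    rw [Set.mem_singleton_iff] at h1
    exact_mod_cast h1
  have h0 := mb_ind0 hn w hw d hd (part w d φ) hg M hJ U hU N c j hc A' hA' hzA' u0 hu0U
  have h1 : c u0 = (a u0).leadingCoeff := if_pos ⟨hau0, hN.symm⟩
  rw [h1, Polynomial.leadingCoeff_eq_zero] at h0
  exact hau0 h0

end MPadcHM
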