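import Pool.Agent.Lib.MP_adc574_ag_HM.MilA
import Pool.Agent.Lib.MP_adc574_ag_HM.MilB
import Pool.Agent.Lib.MP_adc574_ag_HM.InfA

/-!
# JOB MilC: the basis of `H`

* `h_gen`: from `mb_gen` with `B = κ`, `φ = S.φ`, `g = part w d φ` (`algebraMap κ κ = id`; `φ - g` has weight `< d` by `hS.deg`). Apply `br`: `br (zz A (∂φ)) = 0` (`hG.lev`), `br (aeval φ a * P) = a(t) • br P` for `a ∈ κ[T]` (linearity and `hG.mul`; `a(t) = algebraMap κ[X] K a`).
* `h_ind`: `H = HH S.fK`. Let `∑ u ∈ U, a_u • mk (x^u) = 0`, `a_u ∈ K` (not all 0); clear denominators: `a_u ∈ κ[t]`. So `∑ a_u x^u = zz A (∂f) + C' f` in `K[x]`, `f = S.fK`, and `zz` is linear: multiply by a common denominator `q ∈ κ[t]`, `q ≠ 0`, of the coefficients of `A i j` and `C'`: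
  `∑ (q a_u) x^u = zz A (∂φ) + C' (φ - t)` with `A i j`, `C'` now in `κ[t][x]` (an identity in `MvPolynomial (Fin n) κ[X]`; `κ[X] → K` is injective). Apply the ring homomorphism `σ : MvPolynomial (Fin n) κ[X] → MvPolynomial (Fin n) κ`, `x_i ↦ x_i`, `t ↦ φ`
  (`eval₂Hom (Polynomial.aeval φ).toRingHom X`): `φ - t ↦ 0`; `σ (zz A (∂φ)) = zz_φ (A'')` for some antisymmetric `A''` over `κ`: by linearity it is enough for `A i j = C (T^m) * A⁰ i j` with `A⁰` over `κ`, where `σ` gives `φ^m * zz A⁰ (∂φ) = zz (φ^m A⁰) (∂φ)` (`zz_mul'`, induction on `m`). (One can write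
  `A i j = ∑_{m < L} C (T^m) * (A_m i j)` with `A_m i j` over `κ`, `A_m` antisymmetric: the coefficients of `T^m`.) So `∑ (q a_u)(φ) x^u = zz A'' (∂φ)` and `mb_ind` gives `q a_u = 0`, `a_u = 0`. (`hJ`: `X i ^ M = monomial (single i M) 1`, `wt = w i M ≥ M`, `hS.jac`.)
-/

set_option autoImplicit false

namespace MPadcHM

open MvPolynomial

universe u

private theorem milca_weight {n : ℕ} (w : Fin n → ℕ) (e : Fin n →₀ ℕ) :
    Finsupp.weight w e = wt w e := by
  rw [Finsupp.weight_apply, Finsupp.sum_fintype _ _ (fun i => by simp)]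
  unfold wt
  exact Finset.sum_congr rfl fun i _ => by rw [smul_eq_mul, mul_comm]

private theorem milca_coeff {κ : Type*} [Field κ] {n : ℕ} (w : Fin n → ℕ) (N : ℕ)
    (P : MvPolynomial (Fin n) κ) (e : Fin n →₀ ℕ) :
    coeff e (part w N P) = if wt w e = N then coeff e P else 0 := by
  rw [part, coeff_weightedHomogeneousComponent, milca_weight]

/-- the action of the polynomials in `φ` -/
private theorem milca_aeval {κ : Type u} [Field κ] {n : ℕ} {S : Dat κ n}
    {H : Type u} [AddCommGroup H] [Module (RatFunc κ) H] [Module κ H] {nab : H →ₗ[κ] H}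
    {br : MvPolynomial (Fin n) κ →ₗ[κ] H} [IsScalarTower κ (RatFunc κ) H] (hG : IsGM S nab br)
    (a : Polynomial κ) : ∀ P : MvPolynomial (Fin n) κ,
      br (Polynomial.aeval S.φ a * P) = algebraMap (Polynomial κ) (RatFunc κ) a • br P := by
  induction a using Polynomial.induction_on with
  | C c =>
    intro P
    rw [Polynomial.aeval_C, ← Algebra.smul_def, map_smul, RatFunc.algebraMap_C,
      ← RatFunc.algebraMap_eq_C, algebraMap_smul]
  | add p q hp hq =>
    intro P
    rw [map_add, add_mul, map_add, hp, hq, map_add, add_smul]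
  | monomial m c ih =>
    intro P
    have e : Polynomial.C c * Polynomial.X ^ (m + 1) =
        (Polynomial.C c * Polynomial.X ^ m) * (Polynomial.X : Polynomial κ) := by
      rw [pow_succ, mul_assoc]
    have e2 : Polynomial.aeval S.φ ((Polynomial.C c * Polynomial.X ^ m) * (Polynomial.X : Polynomial κ)) =
        Polynomial.aeval S.φ (Polynomial.C c * Polynomial.X ^ m) * S.φ := by
      rw [map_mul, Polynomial.aeval_X]
    have e3 : algebraMap (Polynomial κ) (RatFunc κ)
        ((Polynomial.C c * Polynomial.X ^ m) * (Polynomial.X : Polynomial κ)) =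
        algebraMap (Polynomial κ) (RatFunc κ) (Polynomial.C c * Polynomial.X ^ m) * RatFunc.X := by
      rw [map_mul, RatFunc.algebraMap_X]
    rw [e, e2, e3, mul_assoc, ih, hG.mul, mul_smul]

theorem h_gen {κ : Type u} [Field κ] [CharZero κ] {n : ℕ} (hn : 2 ≤ n) {S : Dat κ n} (hS : S.Ok)
    {H : Type u} [AddCommGroup H] [Module (RatFunc κ) H] [Module κ H] {nab : H →ₗ[κ] H}
    {br : MvPolynomial (Fin n) κ →ₗ[κ] H} [IsScalarTower κ (RatFunc κ) H] (hG : IsGM S nab br)
    (U : Finset (Fin n →₀ ℕ)) (hU : IsMB S.w (part S.w S.d S.φ) U)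
    (P : MvPolynomial (Fin n) κ) (N : ℕ) (hP : ∀ e ∈ P.support, wt S.w e ≤ N) :
    ∃ a : (Fin n →₀ ℕ) → Polynomial κ, (∀ u, a u ≠ 0 → S.d * (a u).natDegree + wt S.w u ≤ N) ∧
      br P = ∑ u ∈ U, algebraMap (Polynomial κ) (RatFunc κ) (a u) • br (monomial u 1) := by
  have hg : Hom S.w S.d (part S.w S.d S.φ) := by
    intro e he
    rw [mem_support_iff, milca_coeff] at he
    by_contra h
    exact he (if_neg h)
  have hφ : ∀ e ∈ (S.φ - (part S.w S.d S.φ).map (algebraMap κ κ)).support, wt S.w e < S.d := by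
    intro e he
    rw [Algebra.algebraMap_self, MvPolynomial.map_id] at he
    rw [mem_support_iff, coeff_sub, milca_coeff] at he
    by_cases h : wt S.w e = S.d
    · rw [if_pos h, sub_self] at he
      exact absurd rfl he
    · rw [if_neg h, sub_zero] at he
      exact lt_of_le_of_ne (hS.deg e (mem_support_iff.2 he)) h
  obtain ⟨a, A, hA, ha, hPa⟩ := mb_gen hn S.w hS.w_pos S.d hS.d_pos (part S.w S.d S.φ) hg U hU
    S.φ hφ P N hP
  refine ⟨a, ha, ?_⟩
  rw [hPa, map_add, hG.lev A hA, add_zero, map_sum]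
  exact Finset.sum_congr rfl fun u _ => milca_aeval hG (a u) _

private theorem milcb_lift {κ : Type u} [Field κ] {n : ℕ} (q : Polynomial κ)
    (P : MvPolynomial (Fin n) (RatFunc κ))
    (h : ∀ x ∈ P.coeffs, IsLocalization.IsInteger (Polynomial κ) (q • x)) :
    ∃ P', MvPolynomial.map (algebraMap (Polynomial κ) (RatFunc κ)) P' =
      C (algebraMap (Polynomial κ) (RatFunc κ) q) * P := by
  have h1 : C (algebraMap (Polynomial κ) (RatFunc κ) q) * P ∈
      Set.range (MvPolynomial.map (σ := Fin n) (algebraMap (Polynomial κ) (RatFunc κ))) := by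
    rw [MvPolynomial.mem_range_map_iff_coeffs_subset]
    intro x hx
    rw [Finset.mem_coe, MvPolynomial.mem_coeffs_iff] at hx
    obtain ⟨e, he, rfl⟩ := hx
    rw [coeff_C_mul]
    have he' : coeff e P ≠ 0 := by
      intro h0
      rw [MvPolynomial.mem_support_iff, coeff_C_mul, h0, mul_zero] at he
      exact he rfl
    obtain ⟨y, hy⟩ := h _ (MvPolynomial.coeff_mem_coeffs e he')
    refine ⟨y, ?_⟩
    rw [hy, Algebra.smul_def]
  exact h1

/-- The specialisation `t ↦ φ`. -/
private noncomputable def milcb_s {κ : Type u} [Field κ] {n : ℕ} (φ : MvPolynomial (Fin n) κ) :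
    MvPolynomial (Fin n) (Polynomial κ) →+* MvPolynomial (Fin n) κ :=
  eval₂Hom (Polynomial.aeval φ : Polynomial κ →ₐ[κ] MvPolynomial (Fin n) κ).toRingHom X

private theorem milcb_s_C {κ : Type u} [Field κ] {n : ℕ} (φ : MvPolynomial (Fin n) κ)
    (c : Polynomial κ) : milcb_s φ (C c) = Polynomial.aeval φ c :=
  eval₂Hom_C _ _ _

private theorem milcb_s_map {κ : Type u} [Field κ] {n : ℕ} (φ P : MvPolynomial (Fin n) κ) :
    milcb_s φ (MvPolynomial.map Polynomial.C P) = P := by
  unfold milcb_s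
  rw [coe_eval₂Hom, eval₂_map]
  have h : ((Polynomial.aeval φ : Polynomial κ →ₐ[κ] MvPolynomial (Fin n) κ).toRingHom.comp
      Polynomial.C) = C := by
    ext1 a
    exact (Polynomial.aeval φ : Polynomial κ →ₐ[κ] MvPolynomial (Fin n) κ).commutes a
  rw [h, eval₂_eta]

private theorem milcb_s_monomial {κ : Type u} [Field κ] {n : ℕ} (φ : MvPolynomial (Fin n) κ)
    (e : Fin n →₀ ℕ) (c : Polynomial κ) :
    milcb_s φ (monomial e c) = Polynomial.aeval φ c * monomial e 1 := by
  have h1 : (monomial e c : MvPolynomial (Fin n) (Polynomial κ)) =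
      C c * MvPolynomial.map Polynomial.C (monomial e 1) := by
    rw [map_monomial, C_mul_monomial, map_one, mul_one]
  rw [h1, map_mul, milcb_s_C, milcb_s_map]

/-- The coefficientwise derivative, specialised. -/
private noncomputable def milcb_r {κ : Type u} [Field κ] {n : ℕ} (φ : MvPolynomial (Fin n) κ)
    (P : MvPolynomial (Fin n) (Polynomial κ)) : MvPolynomial (Fin n) κ :=
  ∑ e ∈ P.support, Polynomial.aeval φ (Polynomial.derivative (coeff e P)) * monomial e 1

private theorem milcb_r_zero {κ : Type u} [Field κ] {n : ℕ} (φ : MvPolynomial (Fin n) κ) :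
    milcb_r φ 0 = 0 := by
  unfold milcb_r
  rw [support_zero, Finset.sum_empty]

private theorem milcb_r_neg {κ : Type u} [Field κ] {n : ℕ} (φ : MvPolynomial (Fin n) κ)
    (P : MvPolynomial (Fin n) (Polynomial κ)) : milcb_r φ (-P) = - milcb_r φ P := by
  unfold milcb_r
  rw [support_neg, ← Finset.sum_neg_distrib]
  refine Finset.sum_congr rfl fun e _ => ?_
  rw [coeff_neg, Polynomial.derivative_neg, map_neg, neg_mul]

private theorem milcb_chain {κ : Type u} [Field κ] {n : ℕ} (φ : MvPolynomial (Fin n) κ)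
    (P : MvPolynomial (Fin n) (Polynomial κ)) (i : Fin n) :
    pderiv i (milcb_s φ P) = milcb_s φ (pderiv i P) + milcb_r φ P * pderiv i φ := by
  have h1 : milcb_s φ P = ∑ e ∈ P.support, Polynomial.aeval φ (coeff e P) * monomial e 1 := by
    conv_lhs => rw [P.as_sum]
    rw [map_sum]
    exact Finset.sum_congr rfl fun e _ => milcb_s_monomial φ e _
  have h2 : milcb_s φ (pderiv i P) =
      ∑ e ∈ P.support, Polynomial.aeval φ (coeff e P) * pderiv i (monomial e (1 : κ)) := by
    conv_lhs => rw [P.as_sum]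
    rw [map_sum, map_sum]
    refine Finset.sum_congr rfl fun e _ => ?_
    have h3 : (monomial e (coeff e P) : MvPolynomial (Fin n) (Polynomial κ)) =
        C (coeff e P) * MvPolynomial.map Polynomial.C (monomial e 1) := by
      rw [map_monomial, C_mul_monomial, map_one, mul_one]
    rw [h3, pderiv_C_mul, map_mul, milcb_s_C, pderiv_map, milcb_s_map]
  rw [h1, h2, map_sum, milcb_r, Finset.sum_mul, ← Finset.sum_add_distrib]
  refine Finset.sum_congr rfl fun e _ => ?_
  rw [pderiv_mul, Derivation.map_aeval, smul_eq_mul]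
  ring

private theorem milcb_s_zz {κ : Type u} [Field κ] [CharZero κ] {n : ℕ}
    (φ : MvPolynomial (Fin n) κ)
    (A : Fin n → Fin n → MvPolynomial (Fin n) (Polynomial κ)) (hA : Asym A) :
    milcb_s φ (zz A fun j => pderiv j (MvPolynomial.map Polynomial.C φ)) =
      zz (fun i j => milcb_s φ (A i j)) fun j => pderiv j φ := by
  have h1 : ∑ j, ∑ i, milcb_r φ (A i j) * pderiv i φ * pderiv j φ = 0 := by
    have h2 : ∑ j, ∑ i, milcb_r φ (A i j) * pderiv i φ * pderiv j φ =
        - ∑ j, ∑ i, milcb_r φ (A i j) * pderiv i φ * pderiv j φ := by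
      conv_lhs => rw [Finset.sum_comm]
      rw [← Finset.sum_neg_distrib]
      refine Finset.sum_congr rfl fun i _ => ?_
      rw [← Finset.sum_neg_distrib]
      refine Finset.sum_congr rfl fun j _ => ?_
      rw [hA.2 i j, milcb_r_neg]
      ring
    have h3 : (2 : MvPolynomial (Fin n) κ) *
        ∑ j, ∑ i, milcb_r φ (A i j) * pderiv i φ * pderiv j φ = 0 := by
      linear_combination h2
    have h4 : (2 : MvPolynomial (Fin n) κ) ≠ 0 := by
      intro h5
      have h6 := congrArg (coeff 0) h5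
      rw [coeff_zero] at h6
      have h7 : (2 : MvPolynomial (Fin n) κ) = C 2 := by
        rw [map_ofNat]
      rw [h7, coeff_C, if_pos rfl] at h6
      exact two_ne_zero h6
    exact (mul_eq_zero.1 h3).resolve_left h4
  unfold zz
  rw [map_sum]
  have h5 : ∀ j, milcb_s φ ((∑ i, pderiv i (A i j)) * pderiv j (MvPolynomial.map Polynomial.C φ)) =
      (∑ i, pderiv i (milcb_s φ (A i j))) * pderiv j φ -
        ∑ i, milcb_r φ (A i j) * pderiv i φ * pderiv j φ := by
    intro j
    rw [map_mul, pderiv_map, milcb_s_map, map_sum, Finset.sum_mul, Finset.sum_mul,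
      ← Finset.sum_sub_distrib]
    refine Finset.sum_congr rfl fun i _ => ?_
    rw [milcb_chain]
    ring
  rw [Finset.sum_congr rfl (fun j _ => h5 j), Finset.sum_sub_distrib, h1, sub_zero]

theorem h_ind {κ : Type u} [Field κ] [CharZero κ] {n : ℕ} (hn : 2 ≤ n) (S : Dat κ n) (hS : S.Ok)
    (U : Finset (Fin n →₀ ℕ)) (hU : IsMB S.w (part S.w S.d S.φ) U)
    (a : (Fin n →₀ ℕ) → RatFunc κ) (h : ∑ u ∈ U, a u • S.br (monomial u 1) = 0) :
    ∀ u ∈ U, a u = 0 := by
  classical
  have h0 : (∑ u ∈ U, monomial u (a u)) ∈ Zmod S.fK := by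
    rw [← Submodule.Quotient.mk_eq_zero, ← h]
    have h1 : ∀ u : Fin n →₀ ℕ, a u • S.br (monomial u 1) =
        (Zmod S.fK).mkQ (monomial u (a u)) := by
      intro u
      have h2 : S.br (monomial u 1) = (Zmod S.fK).mkQ (monomial u 1) := by
        show (Zmod S.fK).mkQ _ = _
        rw [map_monomial, map_one]
      rw [h2, ← map_smul, smul_monomial, smul_eq_mul, mul_one]
    simp only [h1]
    rw [← map_sum]
    rfl
  obtain ⟨A, C', hA, hAC⟩ := h0
  -- common denominator
  obtain ⟨q, hq⟩ := IsLocalization.exist_integer_multiples_of_finset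
    (nonZeroDivisors (Polynomial κ))
    ((Finset.univ.biUnion fun i => Finset.univ.biUnion fun j => (A i j).coeffs) ∪ C'.coeffs ∪
      U.image a : Finset (RatFunc κ))
  have hq0 : (q : Polynomial κ) ≠ 0 := nonZeroDivisors.ne_zero q.2
  have hA1 : ∀ i j, ∃ P', MvPolynomial.map (algebraMap (Polynomial κ) (RatFunc κ)) P' =
      C (algebraMap (Polynomial κ) (RatFunc κ) q) * A i j := by
    intro i j
    refine milcb_lift _ _ fun x hx => hq x ?_
    simp only [Finset.mem_union, Finset.mem_biUnion, Finset.mem_univ, true_and]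
    exact Or.inl (Or.inl ⟨i, j, hx⟩)
  have hC1 : ∃ P', MvPolynomial.map (algebraMap (Polynomial κ) (RatFunc κ)) P' =
      C (algebraMap (Polynomial κ) (RatFunc κ) q) * C' := by
    refine milcb_lift _ _ fun x hx => hq x ?_
    simp only [Finset.mem_union]
    exact Or.inl (Or.inr hx)
  have ha1 : ∀ u ∈ U, ∃ b : Polynomial κ, algebraMap (Polynomial κ) (RatFunc κ) b =
      algebraMap (Polynomial κ) (RatFunc κ) q * a u := by
    intro u hu
    obtain ⟨b, hb⟩ := hq (a u) (by
      simp only [Finset.mem_union]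
      exact Or.inr (Finset.mem_image_of_mem _ hu))
    refine ⟨b, ?_⟩
    rw [hb, Algebra.smul_def]
  choose A1 hA1 using hA1
  obtain ⟨C1, hC1⟩ := hC1
  choose b hb using ha1
  -- extend b
  have hb' : ∃ b' : (Fin n →₀ ℕ) → Polynomial κ, ∀ u ∈ U,
      algebraMap (Polynomial κ) (RatFunc κ) (b' u) = algebraMap (Polynomial κ) (RatFunc κ) q * a u := by
    refine ⟨fun u => if hu : u ∈ U then b u hu else 0, fun u hu => ?_⟩
    dsimp only
    rw [dif_pos hu]
    exact hb u hu
  obtain ⟨b', hb'⟩ := hb'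
  have hinj : Function.Injective
      (MvPolynomial.map (σ := Fin n) (algebraMap (Polynomial κ) (RatFunc κ))) :=
    MvPolynomial.map_injective _ (RatFunc.algebraMap_injective κ)
  have hasym : Asym A1 := by
    refine ⟨fun i => hinj ?_, fun i j => hinj ?_⟩
    · rw [hA1, hA.1 i, mul_zero, map_zero]
    · rw [map_neg, hA1, hA1, hA.2 i j, mul_neg]
  -- the identity over the polynomials in `t`
  have hid : ∑ u ∈ U, monomial u (b' u) =
      (zz A1 fun j => pderiv j (MvPolynomial.map Polynomial.C S.φ)) +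
        C1 * (MvPolynomial.map Polynomial.C S.φ - C Polynomial.X) := by
    apply hinj
    have hfK : S.fK = MvPolynomial.map (algebraMap (Polynomial κ) (RatFunc κ))
        (MvPolynomial.map Polynomial.C S.φ - C Polynomial.X) := by
      rw [map_sub, map_map, map_C, RatFunc.algebraMap_X]
      rfl
    have hpd : ∀ j, pderiv j S.fK = MvPolynomial.map (algebraMap (Polynomial κ) (RatFunc κ))
        (pderiv j (MvPolynomial.map Polynomial.C S.φ)) := by
      intro j
      rw [hfK, pderiv_map, map_sub, pderiv_C, sub_zero]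
    rw [map_add, map_mul, hC1, ← hfK, map_sum]
    have h1 : ∑ u ∈ U, MvPolynomial.map (algebraMap (Polynomial κ) (RatFunc κ)) (monomial u (b' u)) =
        C (algebraMap (Polynomial κ) (RatFunc κ) q) * ∑ u ∈ U, monomial u (a u) := by
      rw [Finset.mul_sum]
      refine Finset.sum_congr rfl fun u hu => ?_
      rw [map_monomial, hb' u hu, C_mul_monomial]
    rw [h1, hAC, mul_add, mul_assoc]
    congr 1
    unfold zz
    rw [map_sum, Finset.mul_sum]
    refine Finset.sum_congr rfl fun j _ => ?_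
    dsimp only
    rw [map_mul, map_sum, hpd, ← mul_assoc, Finset.mul_sum]
    congr 1
    refine Finset.sum_congr rfl fun i _ => ?_
    rw [← pderiv_map, hA1, pderiv_C_mul]
  -- specialise
  have hsp := congrArg (milcb_s S.φ) hid
  rw [map_sum, map_add, map_mul, map_sub, milcb_s_map, milcb_s_C, Polynomial.aeval_X, sub_self,
    mul_zero, add_zero, milcb_s_zz S.φ A1 hasym] at hsp
  have hsp2 : ∑ u ∈ U, Polynomial.aeval S.φ (b' u) * monomial u 1 =
      zz (fun i j => milcb_s S.φ (A1 i j)) fun j => pderiv j S.φ := by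
    rw [← hsp]
    exact Finset.sum_congr rfl fun u _ => (milcb_s_monomial S.φ u (b' u)).symm
  have hJ : ∀ i, (X i : MvPolynomial (Fin n) κ) ^ S.M ∈ Jac (part S.w S.d S.φ) := by
    intro i
    rw [X_pow_eq_monomial]
    refine hS.jac _ ?_
    unfold wt
    have h1 : S.w i * (Finsupp.single i S.M) i ≤
        ∑ j, S.w j * (Finsupp.single i S.M) j :=
      Finset.single_le_sum (f := fun j => S.w j * (Finsupp.single i S.M) j)
        (fun _ _ => Nat.zero_le _) (Finset.mem_univ i)
    rw [Finsupp.single_eq_same] at h1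
    have h2 := hS.w_pos i
    nlinarith
  have hfin := mb_ind hn S.w hS.w_pos S.d hS.d_pos S.φ hS.deg S.M hJ U hU b'
    (fun i j => milcb_s S.φ (A1 i j))
    ⟨fun i => by dsimp only; rw [hasym.1 i, map_zero],
      fun i j => by dsimp only; rw [hasym.2 i j, map_neg]⟩ hsp2
  intro u hu
  have h1 := hb' u hu
  rw [hfin u hu, map_zero] at h1
  have h2 : algebraMap (Polynomial κ) (RatFunc κ) q ≠ 0 :=
    (map_ne_zero_iff _ (RatFunc.algebraMap_injective κ)).2 hq0
  exact (mul_eq_zero.1 h1.symm).resolve_left h2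

end MPadcHM
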