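import Pool.Agent.Lib.MP_adc574_ag_HM.GalB
import Pool.Agent.Lib.MP_adc574_ag_HM.MilC

/-!
# JOB BC: irreducibility descends along extensions of the field of constants

`S' = S.map (algebraMap κ κ')`, `K = κ(t)`, `K' = κ'(t)`, `i : K → K'` the ring homomorphism with `i (algebraMap p) = algebraMap (p.map f)` (`f = algebraMap κ κ'`; injective). `j : HH S.fK → HH S'.fK` induced by `MvPolynomial.map i : K[x] → K'[x]` (maps `S.fK` to `S'.fK`, `Zmod` into `Zmod`); additive, `j (a • h) = i a • j h`, `j (S.br P) = S'.br (P.map f)`.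
Let `nab` be an `IsGM` connection for `S`, `nab'` one for `S'` (`exists_nab`). `j (nab h) = nab' (j h)`: on `h = br P`: `δ(φ) = ∑ q_l ∂_l φ`, `nab (br (δ(φ) P)) = br (∑ ∂_l (q_l P))`, and `= δ'(t) • br P + δ(t) • nab (br P)`; the same for `S'` with the images, so `j (nab (br P)) = nab' (j (br P))` as `δ(t) ≠ 0`; in general by `leib` and `i (DK a) = DK (i a)` (`hG.span`).
So `j (lv nab br k (x^e)) = lv nab' br' k (x^e)`: the `K'`-span of `j (Hprim S)` is `Hprim S'`.
`j` preserves independence: `U` from `exists_MB` for `part w d S.φ`; the same `U` is a Milnor basis for `part w d S'.φ = (part w d S.φ).map f`? (for `IsMB.ind` over `κ'` expand in a `κ`-basis of `κ'`: apply `κ`-linear functionals `κ' → κ` to the coefficients: `Jac (g.map f)` is mapped to `Jac g`; `span`: map.) By `h_ind` for `S` and `S'` the `br (x^u)`, `u ∈ U`, are a `K`-basis (with `h_gen`, `hG.span`) of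
`HH S.fK` and their images are a `K'`-basis of `HH S'.fK`. So if `x_1, …, x_m ∈ HH S.fK` are `K`-independent then the `j x_i` are `K'`-independent (matrix of coordinates with entries in `K`: a nonzero minor stays nonzero; or `LinearIndependent` under the field extension `K → K'`, e.g. extend `x_i` to a basis and compare).
Conclusion: let `H' ≤ Hprim S` be stable. `H'' := span K' (j H')` is stable under `nab'`, in `Hprim S'`, so `⊥` or `Hprim S'`. If `⊥`: `H' = ⊥` (`j` injective). If `Hprim S'`: `finrank K H' = finrank K' H'' = finrank K' (Hprim S') = finrank K (Hprim S)` (images of bases), so `H' = Hprim S`.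
Alternatively (perhaps simpler): suppose `x ∈ Hprim S`, `x ∉ H'`. Choose a `K`-basis `x_1..x_m` of `H'`; `x_1, …, x_m, x` are independent, so `j x` is not in the `K'`-span of the `j x_i`, which is `H''`; so `H'' ≠ Hprim S'`.
-/

set_option autoImplicit false

namespace MPadcHM

open MvPolynomial

universe u

/-- The polynomial with the linear functional `l` applied to the coefficients. -/
private noncomputable def bca_L {κ κ' : Type u} [Field κ] [Field κ'] [Algebra κ κ'] {n : ℕ}
    (l : κ' →ₗ[κ] κ) (P : MvPolynomial (Fin n) κ') : MvPolynomial (Fin n) κ :=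
  ∑ e ∈ P.support, monomial e (l (coeff e P))

private theorem bca_coeff {κ κ' : Type u} [Field κ] [Field κ'] [Algebra κ κ'] {n : ℕ}
    (l : κ' →ₗ[κ] κ) (P : MvPolynomial (Fin n) κ') (e : Fin n →₀ ℕ) :
    coeff e (bca_L l P) = l (coeff e P) := by
  classical
  unfold bca_L
  rw [coeff_sum]
  simp only [coeff_monomial]
  rw [Finset.sum_ite_eq']
  split_ifs with h
  · rfl
  · rw [notMem_support_iff.1 h, map_zero]

private theorem bca_add {κ κ' : Type u} [Field κ] [Field κ'] [Algebra κ κ'] {n : ℕ}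
    (l : κ' →ₗ[κ] κ) {ι : Type*} (s : Finset ι) (P : ι → MvPolynomial (Fin n) κ') :
    bca_L l (∑ i ∈ s, P i) = ∑ i ∈ s, bca_L l (P i) := by
  ext e
  rw [bca_coeff, coeff_sum, coeff_sum, map_sum]
  exact Finset.sum_congr rfl fun i _ => (bca_coeff l (P i) e).symm

private theorem bca_mul {κ κ' : Type u} [Field κ] [Field κ'] [Algebra κ κ'] {n : ℕ}
    (l : κ' →ₗ[κ] κ) (P : MvPolynomial (Fin n) κ') (Q : MvPolynomial (Fin n) κ) :
    bca_L l (P * Q.map (algebraMap κ κ')) = bca_L l P * Q := by
  classical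
  ext e
  rw [bca_coeff, coeff_mul, coeff_mul, map_sum]
  refine Finset.sum_congr rfl fun a _ => ?_
  rw [bca_coeff, coeff_map, mul_comm, ← Algebra.smul_def, map_smul, smul_eq_mul, mul_comm]

private theorem bca_monomial {κ κ' : Type u} [Field κ] [Field κ'] [Algebra κ κ'] {n : ℕ}
    (l : κ' →ₗ[κ] κ) (u : Fin n →₀ ℕ) (c : κ') :
    bca_L l (monomial u c) = monomial u (l c) := by
  classical
  ext e
  rw [bca_coeff, coeff_monomial, coeff_monomial]
  split_ifs
  · rfl
  · rw [map_zero]

private theorem bca_jac {κ κ' : Type u} [Field κ] [Field κ'] [Algebra κ κ'] {n : ℕ}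
    (g : MvPolynomial (Fin n) κ) (P : MvPolynomial (Fin n) κ) (hP : P ∈ Jac g) :
    P.map (algebraMap κ κ') ∈ Jac (g.map (algebraMap κ κ')) := by
  unfold Jac at hP ⊢
  rw [Ideal.mem_span_range_iff_exists_fun] at hP ⊢
  obtain ⟨c, hc⟩ := hP
  refine ⟨fun j => (c j).map (algebraMap κ κ'), ?_⟩
  rw [← hc, map_sum]
  refine Finset.sum_congr rfl fun j _ => ?_
  rw [map_mul, pderiv_map]

private theorem bca_jac' {κ κ' : Type u} [Field κ] [Field κ'] [Algebra κ κ'] {n : ℕ}
    (l : κ' →ₗ[κ] κ) (g : MvPolynomial (Fin n) κ) (P : MvPolynomial (Fin n) κ')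
    (hP : P ∈ Jac (g.map (algebraMap κ κ'))) : bca_L l P ∈ Jac g := by
  unfold Jac at hP ⊢
  rw [Ideal.mem_span_range_iff_exists_fun] at hP ⊢
  obtain ⟨c, hc⟩ := hP
  refine ⟨fun j => bca_L l (c j), ?_⟩
  rw [← hc, bca_add]
  refine Finset.sum_congr rfl fun j _ => ?_
  rw [pderiv_map, bca_mul]

theorem IsMB_map {κ κ' : Type u} [Field κ] [Field κ'] [Algebra κ κ'] {n : ℕ} (w : Fin n → ℕ)
    (g : MvPolynomial (Fin n) κ) (U : Finset (Fin n →₀ ℕ)) (hU : IsMB w g U) :
    IsMB w (g.map (algebraMap κ κ')) U := by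
  refine ⟨fun e => ?_, fun c hc u hu => ?_⟩
  · obtain ⟨c, h1, h2⟩ := hU.span e
    refine ⟨fun u => algebraMap κ κ' (c u), fun u hu => h1 u ?_, ?_⟩
    · intro h0
      apply hu
      show algebraMap κ κ' (c u) = 0
      rw [h0, map_zero]
    · have h3 := bca_jac (κ' := κ') g _ h2
      have h4 : (monomial e (1 : κ) - ∑ u ∈ U, monomial u (c u)).map (algebraMap κ κ') =
          monomial e 1 - ∑ u ∈ U, monomial u (algebraMap κ κ' (c u)) := by
        rw [map_sub, map_sum, map_monomial, map_one]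
        congr 1
        exact Finset.sum_congr rfl fun u _ => by rw [map_monomial]
      rw [h4] at h3
      exact h3
  · rw [← Module.forall_dual_apply_eq_zero_iff κ (c u)]
    intro l
    have h1 := bca_jac' l g _ hc
    rw [bca_add] at h1
    simp only [bca_monomial] at h1
    exact hU.ind (fun u => l (c u)) h1 u hu

private theorem bcb_i (κ κ' : Type u) [Field κ] [Field κ'] [Algebra κ κ'] :
    ∃ i : RatFunc κ →+* RatFunc κ', (∀ a : κ, i (algebraMap κ (RatFunc κ) a) =
      algebraMap κ' (RatFunc κ') (algebraMap κ κ' a)) ∧ i RatFunc.X = RatFunc.X := by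
  let g : Polynomial κ →+* RatFunc κ' :=
    (algebraMap (Polynomial κ') (RatFunc κ')).comp (Polynomial.mapRingHom (algebraMap κ κ'))
  have hg : Function.Injective g := by
    intro a b hab
    have h1 : Polynomial.mapRingHom (algebraMap κ κ') a = Polynomial.mapRingHom (algebraMap κ κ') b :=
      RatFunc.algebraMap_injective κ' hab
    exact Polynomial.map_injective (algebraMap κ κ') (algebraMap κ κ').injective h1
  let i : RatFunc κ →+* RatFunc κ' := IsFractionRing.lift (A := Polynomial κ) (K := RatFunc κ) hg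
  have hi : ∀ p : Polynomial κ, i (algebraMap (Polynomial κ) (RatFunc κ) p) = g p :=
    fun p => IsFractionRing.lift_algebraMap hg p
  refine ⟨i, fun a => ?_, ?_⟩
  · rw [RatFunc.algebraMap_eq_C, ← RatFunc.algebraMap_C, hi]
    show algebraMap (Polynomial κ') (RatFunc κ') ((Polynomial.C a).map (algebraMap κ κ')) = _
    rw [Polynomial.map_C, RatFunc.algebraMap_C, RatFunc.algebraMap_eq_C]
  · rw [← RatFunc.algebraMap_X, hi]
    show algebraMap (Polynomial κ') (RatFunc κ') (Polynomial.X.map (algebraMap κ κ')) = _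
    rw [Polynomial.map_X, RatFunc.algebraMap_X]

private theorem bcb_der {k L : Type u} [Field k] [Field L] [Algebra k L] (E : Derivation k L L) :
    ∃ D : Derivation ℤ L L, ∀ x, D x = E x := ⟨E.restrictScalars ℤ, fun _ => rfl⟩

private theorem bcb_D {κ κ' : Type u} [Field κ] [Field κ'] [Algebra κ κ']
    (i : RatFunc κ →+* RatFunc κ') (hC : ∀ a : κ, i (algebraMap κ (RatFunc κ) a) =
      algebraMap κ' (RatFunc κ') (algebraMap κ κ' a)) (hX : i RatFunc.X = RatFunc.X)
    (x : RatFunc κ) : DK κ' (i x) = i (DK κ x) := by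
  obtain ⟨D, hD⟩ := bcb_der (DK κ')
  rw [← hD]
  exact DK_unique κ i D (fun a => by rw [hD, hC, DK_C]) (by rw [hD, hX, DK_X]) x

section

variable {K K' : Type u} [Field K] [Field K'] {n : ℕ}

private noncomputable def bcbM (i : K →+* K') (n : ℕ) :
    MvPolynomial (Fin n) K →ₛₗ[i] MvPolynomial (Fin n) K' where
  toFun P := MvPolynomial.map i P
  map_add' P Q := map_add _ P Q
  map_smul' a P := by
    rw [MvPolynomial.smul_eq_C_mul, map_mul, map_C, ← MvPolynomial.smul_eq_C_mul]

private theorem bcb_smul (i : K →+* K') (a : K) (P : MvPolynomial (Fin n) K) :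
    MvPolynomial.map i (a • P) = i a • MvPolynomial.map i P := (bcbM i n).map_smulₛₗ a P

private theorem bcb_zz (i : K →+* K') (f : MvPolynomial (Fin n) K)
    (A : Fin n → Fin n → MvPolynomial (Fin n) K) :
    MvPolynomial.map i (zz A fun j => pderiv j f) =
      zz (fun a b => MvPolynomial.map i (A a b)) fun j => pderiv j (MvPolynomial.map i f) := by
  unfold zz
  rw [map_sum]
  refine Finset.sum_congr rfl fun b _ => ?_
  rw [map_mul, map_sum]
  exact congrArg₂ (· * ·) (Finset.sum_congr rfl fun a _ => pderiv_map.symm) pderiv_map.symm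

private theorem bcb_Z (i : K →+* K') (f P : MvPolynomial (Fin n) K) (hP : P ∈ Zmod f) :
    MvPolynomial.map i P ∈ Zmod (MvPolynomial.map i f) := by
  obtain ⟨A, C', hA, rfl⟩ := hP
  refine ⟨fun a b => MvPolynomial.map i (A a b), MvPolynomial.map i C', ⟨fun a => ?_, fun a b => ?_⟩, ?_⟩
  · show MvPolynomial.map i (A a a) = 0
    rw [hA.1 a, map_zero]
  · show MvPolynomial.map i (A a b) = - MvPolynomial.map i (A b a)
    rw [hA.2 a b, map_neg]
  · rw [map_add, bcb_zz, map_mul]

private theorem bcb_j (i : K →+* K') (f : MvPolynomial (Fin n) K) (f' : MvPolynomial (Fin n) K')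
    (hf : f' = MvPolynomial.map i f) : ∃ j : HH f →ₛₗ[i] HH f',
      ∀ P, j ((Zmod f).mkQ P) = (Zmod f').mkQ (MvPolynomial.map i P) := by
  subst hf
  exact ⟨Submodule.mapQ (Zmod f) (Zmod (MvPolynomial.map i f)) (bcbM i n)
    (fun P hP => bcb_Z i f P hP), fun P => rfl⟩

/-- the elementary relation -/
private theorem bcb_el (f : MvPolynomial (Fin n) K) (i j : Fin n) (Q : MvPolynomial (Fin n) K) :
    pderiv i Q * pderiv j f - pderiv j Q * pderiv i f ∈ Zmod f := by
  classical
  refine ⟨fun a b => (if a = i ∧ b = j then Q else 0) - (if a = j ∧ b = i then Q else 0), 0,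
    ⟨fun a => ?_, fun a b => ?_⟩, ?_⟩
  · show (if a = i ∧ a = j then Q else 0) - (if a = j ∧ a = i then Q else 0) = 0
    have h : (a = i ∧ a = j) ↔ (a = j ∧ a = i) := and_comm
    simp only [h, sub_self]
  · show (if a = i ∧ b = j then Q else 0) - (if a = j ∧ b = i then Q else 0) =
      -((if b = i ∧ a = j then Q else 0) - (if b = j ∧ a = i then Q else 0))
    have h1 : (b = i ∧ a = j) ↔ (a = j ∧ b = i) := and_comm
    have h2 : (b = j ∧ a = i) ↔ (a = i ∧ b = j) := and_comm
    simp only [h1, h2, neg_sub]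
  · have h : ∀ (p q : Fin n) , ∑ b, (∑ a, pderiv a (if a = p ∧ b = q then Q else 0)) * pderiv b f =
        pderiv p Q * pderiv q f := by
      intro p q
      rw [Finset.sum_eq_single q]
      · rw [Finset.sum_eq_single p]
        · simp
        · intro a _ ha
          simp [ha]
        · intro hp
          exact absurd (Finset.mem_univ _) hp
      · intro b _ hb
        simp [hb]
      · intro hp
        exact absurd (Finset.mem_univ _) hp
    unfold zz
    simp only [map_sub, Finset.sum_sub_distrib, sub_mul, h, zero_mul, add_zero]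

private theorem bcb_expand (P : MvPolynomial (Fin n) K') :
    P = ∑ e ∈ P.support, coeff e P • monomial e (1 : K') := by
  conv_lhs => rw [P.as_sum]
  refine Finset.sum_congr rfl fun e _ => ?_
  rw [smul_monomial, smul_eq_mul, mul_one]

private theorem bcb_fun [CharZero K'] (i : K →+* K') (f : MvPolynomial (Fin n) K)
    (l : HH f →ₗ[K] K) : ∃ l' : HH (MvPolynomial.map i f) →ₗ[K'] K',
      ∀ P, l' ((Zmod (MvPolynomial.map i f)).mkQ (MvPolynomial.map i P)) =
        i (l ((Zmod f).mkQ P)) := by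
  classical
  let l0 : MvPolynomial (Fin n) K' →ₗ[K'] K' :=
    (MvPolynomial.basisMonomials (Fin n) K').constr K'
      (fun e => i (l ((Zmod f).mkQ (monomial e 1))))
  have h0 : ∀ e, l0 (monomial e 1) = i (l ((Zmod f).mkQ (monomial e 1))) := by
    intro e
    have h := (MvPolynomial.basisMonomials (Fin n) K').constr_basis K'
      (fun e => i (l ((Zmod f).mkQ (monomial e 1)))) e
    rwa [MvPolynomial.coe_basisMonomials] at h
  have h1 : ∀ P : MvPolynomial (Fin n) K, l0 (MvPolynomial.map i P) = i (l ((Zmod f).mkQ P)) := by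
    intro P
    conv_lhs => rw [bcb_expand P]
    conv_rhs => rw [bcb_expand P]
    simp only [map_sum, bcb_smul, map_smul, smul_eq_mul, map_mul, map_monomial, map_one, h0]
  have h2 : ∀ P : MvPolynomial (Fin n) K, P ∈ Zmod f → l0 (MvPolynomial.map i P) = 0 := by
    intro P hP
    rw [h1]
    have h3 : (Zmod f).mkQ P = 0 := (Submodule.Quotient.mk_eq_zero _).2 hP
    rw [h3, map_zero, map_zero]
  set f' := MvPolynomial.map i f with hf'
  have hC : ∀ C' : MvPolynomial (Fin n) K', l0 (C' * f') = 0 := by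
    intro C'
    rw [bcb_expand C', Finset.sum_mul, map_sum]
    refine Finset.sum_eq_zero fun e _ => ?_
    rw [smul_mul_assoc, map_smul]
    have h3 : monomial e (1 : K') * f' = MvPolynomial.map i (monomial e 1 * f) := by
      rw [map_mul, map_monomial, i.map_one]
    have h4 : monomial e (1 : K) * f ∈ Zmod f :=
      ⟨fun _ _ => 0, monomial e 1, ⟨fun _ => rfl, fun _ _ => by simp⟩, by simp [zz]⟩
    rw [h3, h2 _ h4, smul_zero]
  have hE : ∀ (a b : Fin n) (Q : MvPolynomial (Fin n) K'),
      l0 (pderiv a Q * pderiv b f' - pderiv b Q * pderiv a f') = 0 := by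
    intro a b Q
    let T : MvPolynomial (Fin n) K' →ₗ[K'] K' := l0.comp
      ((LinearMap.mulRight K' (pderiv b f')).comp ((pderiv a : Derivation K' _ _) : _ →ₗ[K'] _) -
        (LinearMap.mulRight K' (pderiv a f')).comp ((pderiv b : Derivation K' _ _) : _ →ₗ[K'] _))
    have hT : ∀ Q, T Q = l0 (pderiv a Q * pderiv b f' - pderiv b Q * pderiv a f') := fun Q => rfl
    rw [← hT, bcb_expand Q, map_sum]
    refine Finset.sum_eq_zero fun e _ => ?_
    rw [map_smul, hT]
    have h3 : pderiv a (monomial e (1 : K')) * pderiv b f' - pderiv b (monomial e (1 : K')) * pderiv a f' =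
        MvPolynomial.map i (pderiv a (monomial e (1 : K)) * pderiv b f -
          pderiv b (monomial e (1 : K)) * pderiv a f) := by
      have h5 : monomial e (1 : K') = MvPolynomial.map i (monomial e (1 : K)) := by
        rw [map_monomial, i.map_one]
      rw [h5, hf', map_sub, map_mul, map_mul, pderiv_map, pderiv_map, pderiv_map, pderiv_map]
    rw [h3, h2 _ (bcb_el f a b _), smul_zero]
  have hZ : Zmod f' ≤ LinearMap.ker l0 := by
    rintro P ⟨A, C', hA, rfl⟩
    rw [LinearMap.mem_ker, map_add, hC, add_zero]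
    have h3 : (2 : K') • (zz A fun j => pderiv j f') =
        ∑ b, ∑ a, (pderiv a (A a b) * pderiv b f' - pderiv b (A a b) * pderiv a f') := by
      have h4 : (zz A fun j => pderiv j f') = ∑ b, ∑ a, pderiv a (A a b) * pderiv b f' := by
        unfold zz
        exact Finset.sum_congr rfl fun b _ => Finset.sum_mul _ _ _
      have h5 : ∑ b, ∑ a, pderiv b (A a b) * pderiv a f' =
          - ∑ b, ∑ a, pderiv a (A a b) * pderiv b f' := by
        rw [Finset.sum_comm, ← Finset.sum_neg_distrib]
        refine Finset.sum_congr rfl fun b _ => ?_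
        rw [← Finset.sum_neg_distrib]
        refine Finset.sum_congr rfl fun a _ => ?_
        rw [hA.2 b a, map_neg, neg_mul]
      simp only [Finset.sum_sub_distrib]
      rw [h5, ← h4, sub_neg_eq_add, two_smul]
    have h6 : l0 ((2 : K') • (zz A fun j => pderiv j f')) = 0 := by
      rw [h3, map_sum]
      refine Finset.sum_eq_zero fun b _ => ?_
      rw [map_sum]
      exact Finset.sum_eq_zero fun a _ => hE a b _
    rw [map_smul, smul_eq_mul] at h6
    exact (mul_eq_zero.mp h6).resolve_left two_ne_zero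
  exact ⟨(Zmod f').liftQ l0 hZ, fun P => h1 P⟩

private theorem bcb_mem [CharZero K'] (i : K →+* K') (f : MvPolynomial (Fin n) K)
    (f' : MvPolynomial (Fin n) K') (hf : f' = MvPolynomial.map i f) (j : HH f →ₛₗ[i] HH f')
    (hj : ∀ P, j ((Zmod f).mkQ P) = (Zmod f').mkQ (MvPolynomial.map i P))
    (W : Submodule K (HH f)) (x : HH f) (hx : j x ∈ Submodule.span K' (j '' W)) : x ∈ W := by
  subst hf
  by_contra hxW
  obtain ⟨l, hl1, hl2⟩ := Submodule.exists_dual_map_eq_bot_of_notMem hxW inferInstance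
  obtain ⟨l', hl'⟩ := bcb_fun i f l
  have h1 : ∀ y, l' (j y) = i (l y) := by
    intro y
    obtain ⟨P, rfl⟩ := (Zmod f).mkQ_surjective y
    rw [hj, hl']
  have h2 : Submodule.span K' (j '' W) ≤ LinearMap.ker l' := by
    rw [Submodule.span_le]
    rintro _ ⟨y, hy, rfl⟩
    show l' (j y) = 0
    have h3 : l y ∈ W.map l := Submodule.mem_map_of_mem hy
    rw [hl2, Submodule.mem_bot] at h3
    rw [h1, h3, map_zero]
  have h4 : l' (j x) = 0 := h2 hx
  rw [h1] at h4
  exact hl1 ((map_eq_zero_iff i i.injective).mp h4)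

end

section

variable {κ κ' : Type u} [Field κ] [Field κ'] [Algebra κ κ'] {n : ℕ}

private theorem bcb_fK (i : RatFunc κ →+* RatFunc κ')
    (hC : ∀ a : κ, i (algebraMap κ (RatFunc κ) a) =
      algebraMap κ' (RatFunc κ') (algebraMap κ κ' a)) (hX : i RatFunc.X = RatFunc.X)
    (S : Dat κ n) : (S.map (algebraMap κ κ')).fK = MvPolynomial.map i S.fK := by
  show (S.φ.map (algebraMap κ κ')).map (algebraMap κ' (RatFunc κ')) - C RatFunc.X = _
  unfold Dat.fK
  rw [map_sub, map_C, hX, map_map, map_map]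
  have h : (algebraMap κ' (RatFunc κ')).comp (algebraMap κ κ') = i.comp (algebraMap κ (RatFunc κ)) :=
    RingHom.ext fun a => (hC a).symm
  rw [h]

private theorem bcb_br (i : RatFunc κ →+* RatFunc κ')
    (hC : ∀ a : κ, i (algebraMap κ (RatFunc κ) a) =
      algebraMap κ' (RatFunc κ') (algebraMap κ κ' a))
    (P : MvPolynomial (Fin n) κ) : MvPolynomial.map i (P.map (algebraMap κ (RatFunc κ))) =
      (P.map (algebraMap κ κ')).map (algebraMap κ' (RatFunc κ')) := by
  rw [map_map, map_map]
  have h : (algebraMap κ' (RatFunc κ')).comp (algebraMap κ κ') = i.comp (algebraMap κ (RatFunc κ)) :=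
    RingHom.ext fun a => (hC a).symm
  rw [h]

omit [Algebra κ κ'] in
private theorem bcb_cD (i : RatFunc κ →+* RatFunc κ')
    (hD : ∀ x, DK κ' (i x) = i (DK κ x)) (P : MvPolynomial (Fin n) (RatFunc κ)) :
    MvPolynomial.map i (∑ e ∈ P.support, monomial e (DK κ (coeff e P))) =
      ∑ e ∈ (MvPolynomial.map i P).support, monomial e (DK κ' (coeff e (MvPolynomial.map i P))) := by
  classical
  rw [MvPolynomial.support_map_of_injective P i.injective, map_sum]
  refine Finset.sum_congr rfl fun e _ => ?_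
  rw [map_monomial, coeff_map, hD]

omit [Algebra κ κ'] in
/-- `j` commutes with the connections. -/
private theorem bcb_nab (i : RatFunc κ →+* RatFunc κ')
    (hD : ∀ x, DK κ' (i x) = i (DK κ x)) (S : Dat κ n) (hS : S.Ok) (S' : Dat κ' n)
    (hf : S'.fK = MvPolynomial.map i S.fK) (j : HH S.fK →ₛₗ[i] HH S'.fK)
    (hj : ∀ P, j ((Zmod S.fK).mkQ P) = (Zmod S'.fK).mkQ (MvPolynomial.map i P))
    (nab : HH S.fK →ₗ[κ] HH S.fK) (nab' : HH S'.fK →ₗ[κ'] HH S'.fK)
    (hn : ∀ (B : Fin n → MvPolynomial (Fin n) (RatFunc κ)) (C1 P : MvPolynomial (Fin n) (RatFunc κ)),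
        P = ∑ j, B j * pderiv j S.fK + C1 * S.fK →
        nab ((Zmod S.fK).mkQ P) = (Zmod S.fK).mkQ
          ((∑ e ∈ P.support, monomial e (DK κ (coeff e P))) + (dvg B + C1)))
    (hn' : ∀ (B : Fin n → MvPolynomial (Fin n) (RatFunc κ'))
        (C1 P : MvPolynomial (Fin n) (RatFunc κ')),
        P = ∑ j, B j * pderiv j S'.fK + C1 * S'.fK →
        nab' ((Zmod S'.fK).mkQ P) = (Zmod S'.fK).mkQ
          ((∑ e ∈ P.support, monomial e (DK κ' (coeff e P))) + (dvg B + C1)))
    (h : HH S.fK) : j (nab h) = nab' (j h) := by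
  obtain ⟨P, rfl⟩ := (Zmod S.fK).mkQ_surjective h
  obtain ⟨c, c0, hc⟩ := unit_rel S hS
  have h1 : P = ∑ l, (P * c l) * pderiv l S.fK + (P * c0) * S.fK := by
    have h2 : ∑ l, (P * c l) * pderiv l S.fK = P * ∑ l, c l * pderiv l S.fK := by
      rw [Finset.mul_sum]
      exact Finset.sum_congr rfl fun l _ => mul_assoc _ _ _
    rw [h2]
    linear_combination (- P) * hc
  have h3 : MvPolynomial.map i P = ∑ l, MvPolynomial.map i (P * c l) * pderiv l S'.fK +
      MvPolynomial.map i (P * c0) * S'.fK := by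
    conv_lhs => rw [h1]
    rw [map_add, map_sum, map_mul _ (P * c0), hf]
    refine congrArg₂ (· + ·) (Finset.sum_congr rfl fun l _ => ?_) rfl
    rw [map_mul _ (P * c l), pderiv_map]
  rw [hj, hn _ _ P h1, hn' _ _ _ h3, hj]
  refine congrArg (Zmod S'.fK).mkQ ?_
  rw [map_add, bcb_cD i hD, map_add]
  refine congrArg₂ (· + ·) rfl (congrArg₂ (· + ·) ?_ rfl)
  unfold dvg
  rw [map_sum]
  exact Finset.sum_congr rfl fun l _ => pderiv_map.symm

end

theorem bc_irr {κ κ' : Type u} [Field κ] [CharZero κ] [Field κ'] [CharZero κ'] [Algebra κ κ']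
    {n : ℕ} (hn : 2 ≤ n) (S : Dat κ n) (hS : S.Ok) (h : GMIrr (S.map (algebraMap κ κ'))) :
    GMIrr S := by
  have hS' : (S.map (algebraMap κ κ')).Ok := map_ok S hS _
  obtain ⟨i, hC, hX⟩ := bcb_i κ κ'
  have hD := bcb_D i hC hX
  have hw : (S.map (algebraMap κ κ')).w = S.w := rfl
  have hd : (S.map (algebraMap κ κ')).d = S.d := rfl
  have hf := bcb_fK i hC hX S
  have hbr' : ∀ P, (S.map (algebraMap κ κ')).br P =
      (Zmod (S.map (algebraMap κ κ')).fK).mkQ (P.map (algebraMap κ' (RatFunc κ'))) := fun P => rfl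
  have hbr : ∀ P, S.br P = (Zmod S.fK).mkQ (P.map (algebraMap κ (RatFunc κ))) := fun P => rfl
  generalize S.map (algebraMap κ κ') = S' at h hS' hw hd hf hbr'
  obtain ⟨j, hj⟩ := bcb_j i S.fK S'.fK hf
  intro nab hG H' hle hst
  obtain ⟨nab0, hG0, hn0⟩ := exists_nab S hS
  obtain ⟨nab', hG', hn'⟩ := exists_nab S' hS'
  obtain rfl : nab = nab0 := gm_unique hS hG hG0
  have hjn : ∀ x, j (nab x) = nab' (j x) := bcb_nab i hD S hS S' hf j hj nab nab' hn0 hn'
  have hjb : ∀ P, j (S.br P) = S'.br (P.map (algebraMap κ κ')) := by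
    intro P
    rw [hbr, hj, bcb_br i hC, hbr']
  have hjk : ∀ (k : ℕ) (x : HH S.fK), j ((nab ^ k) x) = (nab' ^ k) (j x) := by
    intro k
    induction k with
    | zero => intro x; rfl
    | succ k ih =>
      intro x
      rw [pow_succ', pow_succ', Module.End.mul_apply, Module.End.mul_apply, hjn, ih]
  have hjc : ∀ (a : κ) (x : HH S.fK), j (a • x) = algebraMap κ κ' a • j x := by
    intro a x
    rw [← algebraMap_smul (RatFunc κ) a x, j.map_smulₛₗ, hC, algebraMap_smul]
  have hjl : ∀ (k : ℕ) (e : Fin n →₀ ℕ), j (lv nab S.br k (monomial e 1)) =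
      lv nab' S'.br k (monomial e 1) := by
    intro k e
    show j (((k.factorial : κ)⁻¹) • (nab ^ k) (S.br (monomial e 1))) =
      ((k.factorial : κ')⁻¹) • (nab' ^ k) (S'.br (monomial e 1))
    rw [hjc, hjk, hjb, map_monomial, map_one, map_inv₀, map_natCast]
  have hjp : ∀ x ∈ Hprim S nab S.br, j x ∈ Hprim S' nab' S'.br := by
    have h1 : Hprim S nab S.br ≤ (Hprim S' nab' S'.br).comap j := by
      unfold Hprim
      rw [Submodule.span_le]
      rintro _ ⟨k, e, he, rfl⟩
      refine Submodule.subset_span ⟨k, e, ?_, hjl k e⟩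
      rw [hw, hd]
      exact he
    exact fun x hx => h1 hx
  have hspan : Hprim S' nab' S'.br ≤ Submodule.span (RatFunc κ') (j '' Hprim S nab S.br) := by
    unfold Hprim
    rw [Submodule.span_le]
    rintro _ ⟨k, e, he, rfl⟩
    refine Submodule.subset_span ⟨lv nab S.br k (monomial e 1), Submodule.subset_span ⟨k, e, ?_, rfl⟩,
      hjl k e⟩
    rw [hw, hd] at he
    exact he
  have hle' : Submodule.span (RatFunc κ') (j '' H') ≤ Hprim S' nab' S'.br := by
    rw [Submodule.span_le]
    rintro _ ⟨x, hx, rfl⟩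
    exact hjp x (hle hx)
  have hst' : ∀ x ∈ Submodule.span (RatFunc κ') (j '' (H' : Set (HH S.fK))),
      nab' x ∈ Submodule.span (RatFunc κ') (j '' (H' : Set (HH S.fK))) := by
    intro x hx
    induction hx using Submodule.span_induction with
    | mem x hx =>
      obtain ⟨y, hy, rfl⟩ := hx
      rw [← hjn]
      exact Submodule.subset_span ⟨nab y, hst y hy, rfl⟩
    | zero =>
      rw [map_zero]
      exact Submodule.zero_mem _
    | add x y _ _ hx hy =>
      rw [map_add]
      exact Submodule.add_mem _ hx hy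
    | smul a x hx' hx =>
      rw [hG'.leib]
      exact Submodule.add_mem _ (Submodule.smul_mem _ _ hx') (Submodule.smul_mem _ _ hx)
  rcases h nab' hG' _ hle' hst' with h1 | h1
  · left
    rw [eq_bot_iff]
    intro x hx
    refine bcb_mem i S.fK S'.fK hf j hj ⊥ x ?_
    have h2 : j x ∈ Submodule.span (RatFunc κ') (j '' (H' : Set (HH S.fK))) :=
      Submodule.subset_span ⟨x, hx, rfl⟩
    rw [h1, Submodule.mem_bot] at h2
    rw [h2]
    exact Submodule.zero_mem _
  · right
    refine le_antisymm hle fun x hx => ?_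
    refine bcb_mem i S.fK S'.fK hf j hj H' x ?_
    rw [h1]
    exact hjp x hx

end MPadcHM
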