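import Pool.Agent.Lib.MP_adc574_ag_GM.UPer
import Pool.Agent.Lib.MP_adc574_ag_GM.UIndep
import Pool.Agent.Lib.MP_adc574_ag_GM.GD

/-!
# Ultraproducts: Cartier functionals, irreducible polynomials
-/

set_option autoImplicit false

namespace MPadcHM

open MvPolynomial MPadcGM

universe u

section

variable {ι : Type} (U : Ultrafilter ι) (κ : ι → Type u) [∀ i, Field (κ i)]
  {A : Type u} [CommRing A] {m : ℕ} (f : MvPolynomial (Fin m) A) (p : ι → ℕ)
  (φ : ∀ i, A →+* κ i)

theorem monomial_one_map {B : Type*} [CommRing B] (ψ : A →+* B) (e : Fin m →₀ ℕ) :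
    (monomial e (1 : A)).map ψ = monomial e (1 : B) := by
  rw [map_monomial, ψ.map_one]

theorem period_map {B : Type*} [CommRing B] (ψ : A →+* B) (g : MvPolynomial (Fin m) A)
    (e : Fin m →₀ ℕ) (k : ℕ) (j : Fin m) :
    (g * pderiv j (monomial e (1 : A)) - C ((k : A) + 1) * (monomial e (1 : A) * pderiv j g)).map ψ =
      g.map ψ * pderiv j (monomial e (1 : B)) -
        ((k : B) + 1) • (monomial e (1 : B) * pderiv j (g.map ψ)) := by
  rw [map_sub, map_mul, map_mul, map_mul, map_C, ← pderiv_map, ← pderiv_map, monomial_one_map,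
    ψ.map_add, map_natCast, ψ.map_one, ← MvPolynomial.smul_eq_C_mul]

theorem uper_mul (hlarge : ∀ n : ℕ, ∀ᶠ i in (U : Filter ι), n < p i) (v : Fin m →₀ ℕ) (k : ℕ)
    (P : MvPolynomial (Fin m) (Ult U κ)) :
    uper U κ f p φ v (k + 1) (P * f.map (uphi U κ φ)) = uper U κ f p φ v k P := by
  have hsm : ∀ (e : Fin m →₀ ℕ) (a : Ult U κ), monomial e a = a • monomial e (1 : Ult U κ) := by
    intro e a
    rw [smul_monomial, smul_eq_mul, mul_one]
  induction P using MvPolynomial.induction_on' with
  | monomial e a =>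
    rw [hsm e a, smul_mul_assoc, map_smul, map_smul]
    refine congrArg (fun z => a • z) ?_
    have h1 : monomial e (1 : Ult U κ) * f.map (uphi U κ φ) =
        (monomial e (1 : A) * f).map (uphi U κ φ) := by
      rw [map_mul, monomial_one_map]
    rw [h1, uper_poly, uper_monomial, ultMk_eq]
    filter_upwards [hlarge (k + 1)] with i hi
    rw [map_mul, monomial_one_map]
    exact cart_mul (p i) (f.map (φ i)) v k (by omega) (monomial e 1)
  | add P Q hP hQ =>
    rw [add_mul, map_add, map_add, hP, hQ]

theorem uper_exact (hp : ∀ i, (p i).Prime) (hchar : ∀ i, CharP (κ i) (p i))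
    (hlarge : ∀ n : ℕ, ∀ᶠ i in (U : Filter ι), n < p i) (v : Fin m →₀ ℕ) (k : ℕ) (j : Fin m)
    (Q : MvPolynomial (Fin m) (Ult U κ)) :
    uper U κ f p φ v (k + 1) (f.map (uphi U κ φ) * pderiv j Q -
      ((k : Ult U κ) + 1) • (Q * pderiv j (f.map (uphi U κ φ)))) = 0 := by
  have hsm : ∀ (e : Fin m →₀ ℕ) (a : Ult U κ), monomial e a = a • monomial e (1 : Ult U κ) := by
    intro e a
    rw [smul_monomial, smul_eq_mul, mul_one]
  induction Q using MvPolynomial.induction_on' with
  | monomial e a =>
    have h1 : f.map (uphi U κ φ) * pderiv j (monomial e a) -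
        ((k : Ult U κ) + 1) • (monomial e a * pderiv j (f.map (uphi U κ φ))) =
        a • ((f * pderiv j (monomial e (1 : A)) -
          C ((k : A) + 1) * (monomial e (1 : A) * pderiv j f)).map (uphi U κ φ)) := by
      rw [period_map, hsm e a, Derivation.map_smul, smul_mul_assoc, mul_smul_comm,
        smul_sub, smul_comm a ((k : Ult U κ) + 1)]
    rw [h1, map_smul, uper_poly]
    refine smul_eq_zero_of_right a ?_
    rw [ultMk_eq_zero]
    filter_upwards [hlarge (k + 1)] with i hi
    have hpi : Fact (p i).Prime := ⟨hp i⟩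
    have hci := hchar i
    have h2 := cart_exact (p i) (f.map (φ i)) v k (by omega) j (monomial e 1)
    rw [period_map]
    exact h2
  | add P Q hP hQ =>
    have h1 : f.map (uphi U κ φ) * pderiv j (P + Q) -
        ((k : Ult U κ) + 1) • ((P + Q) * pderiv j (f.map (uphi U κ φ))) =
        (f.map (uphi U κ φ) * pderiv j P -
          ((k : Ult U κ) + 1) • (P * pderiv j (f.map (uphi U κ φ)))) +
        (f.map (uphi U κ φ) * pderiv j Q -
          ((k : Ult U κ) + 1) • (Q * pderiv j (f.map (uphi U κ φ)))) := by
      rw [map_add, mul_add, add_mul, smul_add]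
      ring
    rw [h1, map_add, hP, hQ, add_zero]

theorem uper_deriv (hp : ∀ i, (p i).Prime) (hchar : ∀ i, CharP (κ i) (p i))
    (hlarge : ∀ n : ℕ, ∀ᶠ i in (U : Filter ι), n < p i) (D : Derivation ℤ A A)
    (δ : ∀ i, Derivation ℤ (κ i) (κ i)) (hδ : ∀ i a, δ i (φ i a) = φ i (D a))
    (Δ : Derivation ℤ (Ult U κ) (Ult U κ))
    (hΔ : ∀ x : ∀ i, κ i, Δ (ultMk U κ x) = ultMk U κ fun i => δ i (x i)) (v : Fin m →₀ ℕ)
    (k : ℕ) (e : Fin m →₀ ℕ) :
    Δ (uper U κ f p φ v k (monomial e 1)) = -((k : Ult U κ) + 1) *
      uper U κ f p φ v (k + 1) (monomial e 1 * (coeffD D f).map (uphi U κ φ)) := by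
  have h1 : monomial e (1 : Ult U κ) * (coeffD D f).map (uphi U κ φ) =
      (monomial e (1 : A) * coeffD D f).map (uphi U κ φ) := by
    rw [map_mul, monomial_one_map]
  have h2 : -((k : Ult U κ) + 1) = ultMk U κ (fun i => -((k : κ i) + 1)) := by
    have h3 : (fun i => -((k : κ i) + 1)) = -((k : ∀ i, κ i) + 1) := by
      funext i
      rw [Pi.neg_apply, Pi.add_apply, Pi.natCast_apply, Pi.one_apply]
    rw [h3, map_neg, map_add, map_natCast, map_one]
  have h4 : -((k : Ult U κ) + 1) *
      uper U κ f p φ v (k + 1) (monomial e 1 * (coeffD D f).map (uphi U κ φ)) =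
      ultMk U κ fun i => δ i (cart (p i) (f.map (φ i)) v k (monomial e 1)) := by
    rw [h1, uper_poly, h2, ← map_mul, ultMk_eq]
    filter_upwards [hlarge (k + 1)] with i hi
    have hpi : Fact (p i).Prime := ⟨hp i⟩
    have hci := hchar i
    rw [Pi.mul_apply, map_mul, monomial_one_map]
    exact (cart_deriv (p i) f (φ i) D (δ i) (hδ i) v k (by omega) e).symm
  rw [h4, uper_monomial]
  exact hΔ _

/-- Linear independence of the Cartier functionals, tested at one pole order. -/
theorem uper_indep_at (w : Fin m → ℕ) (d k₀ : ℕ)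
    (h : ∀ᶠ i in (U : Filter ι), ∀ lam : expo w d → κ i,
      (∀ e ∈ expo w ((k₀ + 1) * d),
        ∑ v, lam v * cart (p i) (f.map (φ i)) v.1 k₀ (monomial e 1) = 0) → lam = 0)
    (g : expo w d → Ult U κ)
    (hg : ∀ e ∈ expo w ((k₀ + 1) * d), ∑ v, g v * uper U κ f p φ v.1 k₀ (monomial e 1) = 0) :
    g = 0 := by
  choose lam hlam using fun v => ultMk_surjective U κ (g v)
  have h1 : ∀ e ∈ expo w ((k₀ + 1) * d), ∀ᶠ i in (U : Filter ι),
      ∑ v : expo w d, lam v i * cart (p i) (f.map (φ i)) v.1 k₀ (monomial e 1) = 0 := by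
    intro e he
    have h2 := hg e he
    simp only [uper_monomial] at h2
    have h3 : ultMk U κ (fun i => ∑ v : expo w d,
        lam v i * cart (p i) (f.map (φ i)) v.1 k₀ (monomial e 1)) = 0 := by
      rw [← h2]
      have h4 : (fun i => ∑ v : expo w d,
          lam v i * cart (p i) (f.map (φ i)) v.1 k₀ (monomial e 1)) =
          ∑ v : expo w d, lam v *
            (fun i => cart (p i) (f.map (φ i)) v.1 k₀ (monomial e 1)) := by
        funext i
        rw [Finset.sum_apply]
        rfl
      rw [h4, map_sum]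
      refine Finset.sum_congr rfl fun v _ => ?_
      rw [map_mul, hlam v]
    exact (ultMk_eq_zero U κ _).1 h3
  have h5 : ∀ᶠ i in (U : Filter ι), ∀ e ∈ expo w ((k₀ + 1) * d),
      ∑ v : expo w d, lam v i * cart (p i) (f.map (φ i)) v.1 k₀ (monomial e 1) = 0 :=
    (Filter.eventually_all_finset _).2 h1
  funext v
  rw [← hlam v, Pi.zero_apply, ultMk_eq_zero]
  filter_upwards [h, h5] with i hi1 hi2
  have h6 := hi1 (fun v => lam v i) hi2
  exact congrFun h6 v

end

section Irr

variable {ι : Type} (U : Ultrafilter ι) (E : ι → Type u) [∀ i, Field (E i)]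

/-- A polynomial over an ultraproduct is the class of a family of polynomials of bounded degree. -/
theorem exists_lift_poly (g : Polynomial (Ult U E)) :
    ∃ G : ∀ i, Polynomial (E i), (∀ l, ultMk U E (fun i => (G i).coeff l) = g.coeff l) ∧
      ∀ i, (G i).natDegree ≤ g.natDegree := by
  classical
  choose s hs using ultMk_surjective U E
  refine ⟨fun i => ∑ l ∈ Finset.range (g.natDegree + 1),
    Polynomial.monomial l (if g.coeff l = 0 then 0 else s (g.coeff l) i), ?_, ?_⟩
  · intro l
    have h1 : (fun i => (∑ l ∈ Finset.range (g.natDegree + 1),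
        Polynomial.monomial l (if g.coeff l = 0 then 0 else s (g.coeff l) i)).coeff l) =
        fun i => if g.coeff l = 0 then 0 else s (g.coeff l) i := by
      funext i
      rw [Polynomial.finsetSum_coeff]
      simp only [Polynomial.coeff_monomial]
      rw [Finset.sum_ite_eq']
      by_cases hl : l ∈ Finset.range (g.natDegree + 1)
      · rw [if_pos hl]
      · rw [if_neg hl, if_pos]
        apply Polynomial.coeff_eq_zero_of_natDegree_lt
        rw [Finset.mem_range] at hl
        omega
    rw [h1]
    by_cases h0 : g.coeff l = 0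
    · simp only [if_pos h0]
      rw [h0]
      exact map_zero _
    · simp only [if_neg h0]
      exact hs _
  · intro i
    refine Polynomial.natDegree_sum_le_of_forall_le _ _ fun l hl => ?_
    refine (Polynomial.natDegree_monomial_le _).trans ?_
    rw [Finset.mem_range] at hl
    omega

theorem irreducible_ult {A : Type u} [CommRing A] (ψ : ∀ i, A →+* E i) (δ : Polynomial A)
    (h : ∀ᶠ i in (U : Filter ι), Irreducible (δ.map (ψ i))) :
    Irreducible (δ.map (uphi U E ψ)) := by
  classical
  constructor
  · intro hu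
    have hdeg : ∀ l, 0 < l → (δ.map (uphi U E ψ)).coeff l = 0 := by
      intro l hl
      have h1 := Polynomial.natDegree_eq_zero_of_isUnit hu
      exact Polynomial.coeff_eq_zero_of_natDegree_lt (by omega)
    have h1 : ∀ᶠ i in (U : Filter ι), ∀ l ∈ Finset.range (δ.natDegree + 1), 0 < l →
        ψ i (δ.coeff l) = 0 := by
      refine (Filter.eventually_all_finset _).2 fun l _ => ?_
      by_cases hl : 0 < l
      · have h2 := hdeg l hl
        rw [Polynomial.coeff_map, uphi_apply, ultMk_eq_zero] at h2
        filter_upwards [h2] with i hi _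
        exact hi
      · exact Filter.Eventually.of_forall fun i h => absurd h hl
    have hne : (δ.map (uphi U E ψ)).coeff 0 ≠ 0 := by
      have h3 := Polynomial.eq_C_of_natDegree_eq_zero (Polynomial.natDegree_eq_zero_of_isUnit hu)
      intro h4
      rw [h4, Polynomial.C_0] at h3
      rw [h3] at hu
      exact not_isUnit_zero hu
    rw [Polynomial.coeff_map, uphi_apply, Ne, ultMk_eq_zero, ← Ultrafilter.eventually_not] at hne
    obtain ⟨i, hi1, hi2, hi3⟩ := (h1.and (hne.and h)).exists
    apply hi3.not_isUnit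
    have h4 : δ.map (ψ i) = Polynomial.C (ψ i (δ.coeff 0)) := by
      ext l
      rw [Polynomial.coeff_map, Polynomial.coeff_C]
      by_cases hl : l = 0
      · rw [if_pos hl, hl]
      · rw [if_neg hl]
        by_cases hl2 : l ∈ Finset.range (δ.natDegree + 1)
        · exact hi1 l hl2 (Nat.pos_of_ne_zero hl)
        · rw [Polynomial.coeff_eq_zero_of_natDegree_lt, map_zero]
          rw [Finset.mem_range] at hl2
          omega
    rw [h4, Polynomial.isUnit_C]
    exact isUnit_iff_ne_zero.2 hi2
  · intro a b hab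
    obtain ⟨G, hG, hGd⟩ := exists_lift_poly U E a
    obtain ⟨H, hH, hHd⟩ := exists_lift_poly U E b
    have h1 : ∀ᶠ i in (U : Filter ι), δ.map (ψ i) = G i * H i := by
      have h2 : ∀ᶠ i in (U : Filter ι), ∀ l ∈ Finset.range (δ.natDegree + a.natDegree +
          b.natDegree + 1), (δ.map (ψ i)).coeff l = (G i * H i).coeff l := by
        refine (Filter.eventually_all_finset _).2 fun l _ => ?_
        have h3 := congrArg (fun q => Polynomial.coeff q l) hab
        simp only [Polynomial.coeff_mul, Polynomial.coeff_map, uphi_apply, ← hG, ← hH] at h3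
        simp only [← map_mul, ← map_sum] at h3
        rw [ultMk_eq] at h3
        filter_upwards [h3] with i hi
        rw [Polynomial.coeff_map, hi, Polynomial.coeff_mul, Finset.sum_apply]
        rfl
      filter_upwards [h2] with i hi
      ext l
      by_cases hl : l ∈ Finset.range (δ.natDegree + a.natDegree + b.natDegree + 1)
      · exact hi l hl
      · rw [Finset.mem_range] at hl
        rw [Polynomial.coeff_map, Polynomial.coeff_eq_zero_of_natDegree_lt (by omega), map_zero]
        symm
        apply Polynomial.coeff_eq_zero_of_natDegree_lt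
        have h4 := Polynomial.natDegree_mul_le (p := G i) (q := H i)
        have h5 := hGd i
        have h6 := hHd i
        omega
    have h2 : ∀ᶠ i in (U : Filter ι), IsUnit (G i) ∨ IsUnit (H i) := by
      filter_upwards [h, h1] with i hi1 hi2
      exact hi1.isUnit_or_isUnit hi2
    have hunit : ∀ (g : Polynomial (Ult U E)) (G : ∀ i, Polynomial (E i)),
        (∀ l, ultMk U E (fun i => (G i).coeff l) = g.coeff l) →
        (∀ᶠ i in (U : Filter ι), IsUnit (G i)) → IsUnit g := by
      intro g G hG hu
      have h3 : g = Polynomial.C (g.coeff 0) := by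
        ext l
        rw [Polynomial.coeff_C]
        by_cases hl : l = 0
        · rw [if_pos hl, hl]
        · rw [if_neg hl, ← hG, ultMk_eq_zero]
          filter_upwards [hu] with i hi
          have h4 := Polynomial.natDegree_eq_zero_of_isUnit hi
          exact Polynomial.coeff_eq_zero_of_natDegree_lt (by omega)
      rw [h3, Polynomial.isUnit_C, isUnit_iff_ne_zero, ← hG]
      intro h4
      rw [ultMk_eq_zero] at h4
      obtain ⟨i, hi1, hi2⟩ := (h4.and hu).exists
      have h5 := Polynomial.eq_C_of_natDegree_eq_zero (Polynomial.natDegree_eq_zero_of_isUnit hi2)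
      rw [hi1, Polynomial.C_0] at h5
      rw [h5] at hi2
      exact not_isUnit_zero hi2
    rcases Ultrafilter.eventually_or.1 h2 with h3 | h3
    · exact Or.inl (hunit a G hG h3)
    · exact Or.inr (hunit b H hH h3)

end Irr

end MPadcHM
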