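import Pool.Agent.Lib.MP_adc574_ag_HM.PQS
import Pool.Agent.Lib.MP_adc574_ag_HM.PUlt
import Pool.Agent.Lib.MP_adc574_ag_GM.Main

/-!
# Preparations for `core`
-/

set_option autoImplicit false

namespace MPadcHM

open MvPolynomial MPadcGM

universe u

theorem countable_of_finiteType (R : Type*) [CommRing R] [Algebra.FiniteType ℤ R] :
    Countable R := by
  obtain ⟨n, f, hf⟩ := Algebra.FiniteType.iff_quotient_mvPolynomial''.1
    (inferInstance : Algebra.FiniteType ℤ R)
  have h1 : Countable (MvPolynomial (Fin n) ℤ) := by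
    let g : MvPolynomial (Fin n) ℤ → ((Fin n →₀ ℕ) →₀ ℤ) := fun P =>
      Finsupp.onFinset P.support (fun e => coeff e P) (fun e he => mem_support_iff.2 he)
    have hg : Function.Injective g := by
      intro P Q h
      ext e
      exact DFunLike.congr_fun h e
    exact hg.countable
  exact hf.countable

theorem exists_seq {R : Type u} [CommRing R] [IsDomain R] [Algebra.FiniteType ℤ R]
    (δ : Polynomial R)
    (hI : ∀ r : R, r ≠ 0 → ∀ p₀ : ℕ, ∃ p : ℕ, p.Prime ∧ p₀ < p ∧
      ∃ (E : Type u) (_ : Field E) (_ : CharP E p) (ψ : R →+* E), ψ r ≠ 0 ∧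
        Irreducible (δ.map ψ)) (p₀ : ℕ) :
    ∃ (p : ℕ → ℕ) (E : ℕ → Type u) (_ : ∀ i, Field (E i)) (_ : ∀ i, CharP (E i) (p i))
      (ψ : ∀ i, R →+* E i), (∀ i, (p i).Prime ∧ p₀ < p i ∧ i < p i ∧ Irreducible (δ.map (ψ i))) ∧
        ∀ x : R, x ≠ 0 → ∃ m, ∀ i, m ≤ i → ψ i x ≠ 0 := by
  classical
  have hcount := countable_of_finiteType R
  obtain ⟨e, he⟩ := exists_surjective_nat R
  let s : ℕ → R := fun n => if e n = 0 then 1 else e n
  have hs : ∀ n, s n ≠ 0 := by
    intro n
    by_cases h : e n = 0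
    · simp only [s, if_pos h]
      exact one_ne_zero
    · simp only [s, if_neg h]
      exact h
  have hr : ∀ i, ∏ j ∈ Finset.range (i + 1), s j ≠ 0 := fun i =>
    Finset.prod_ne_zero_iff.2 fun j _ => hs j
  choose p hp hpl E hE hchar ψ hψ hirr using fun i : ℕ => hI _ (hr i) (max p₀ i)
  refine ⟨p, E, hE, hchar, ψ, fun i => ⟨hp i, lt_of_le_of_lt (le_max_left _ _) (hpl i),
    lt_of_le_of_lt (le_max_right _ _) (hpl i), hirr i⟩, ?_⟩
  intro x hx
  obtain ⟨m, hm⟩ := he x
  refine ⟨m, fun i hi h0 => hψ i ?_⟩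
  rw [map_prod]
  refine Finset.prod_eq_zero (i := m) (Finset.mem_range.2 (by omega)) ?_
  have h1 : s m = x := by
    simp only [s, hm, if_neg hx]
  rw [h1, h0]

section

variable {R : Type*} [CommRing R] {n : ℕ}

theorem mem_Jac_map {S : Type*} [CommRing S] (ψ : R →+* S) {φ P : MvPolynomial (Fin n) R}
    (h : P ∈ Jac φ) : P.map ψ ∈ Jac (φ.map ψ) := by
  have hJ : (Jac φ).map (MvPolynomial.map ψ) = Jac (φ.map ψ) := by
    rw [Jac, Jac, Ideal.map_span, ← Set.range_comp]
    apply congrArg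
    apply congrArg
    funext j
    simp only [Function.comp_apply, pderiv_map]
  rw [← hJ]
  exact Ideal.mem_map_of_mem _ h

theorem aeval_map_map {S : Type*} [CommRing S] (ψ : R →+* S) (φ : MvPolynomial (Fin n) R)
    (δ : Polynomial R) :
    Polynomial.aeval (φ.map ψ) (δ.map ψ) = (Polynomial.aeval φ δ).map ψ := by
  rw [Polynomial.aeval_def, Polynomial.eval₂_map, Polynomial.aeval_def, Polynomial.hom_eval₂]
  congr 1
  ext a : 1
  simp only [RingHom.comp_apply, algebraMap_eq, map_C]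

/-- The homogeneous equation of the pencil over `R[t]`. -/
noncomputable def peq (d : ℕ) (Φ : MvPolynomial (Fin (n + 1)) R) :
    MvPolynomial (Fin (n + 1)) (Polynomial R) :=
  Φ.map Polynomial.C - C Polynomial.X * X 0 ^ d

/-- The affine equation of the pencil over `R[t]`. -/
noncomputable def paeq (Φ : MvPolynomial (Fin (n + 1)) R) :
    MvPolynomial (Fin n) (Polynomial R) :=
  (aff Φ).map Polynomial.C - C Polynomial.X

theorem aff_peq (d : ℕ) (Φ : MvPolynomial (Fin (n + 1)) R) : aff (peq d Φ) = paeq Φ := by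
  rw [peq, paeq, aff_sub, aff_map, aff_mul, aff_C, aff_pow, aff_X_zero, one_pow, mul_one]

theorem isWeightedHomogeneous_X_pow {S : Type*} [CommRing S] (w : Fin n → ℕ) (d : ℕ) (a : S) :
    (C a * X 0 ^ d : MvPolynomial (Fin (n + 1)) S).IsWeightedHomogeneous
      (Fin.cons 1 w : Fin (n + 1) → ℕ) d := by
  rw [X_pow_eq_monomial, C_mul_monomial]
  refine isWeightedHomogeneous_monomial _ _ _ ?_
  rw [Finsupp.weight_single, Fin.cons_zero, smul_eq_mul, mul_one]

theorem isWeightedHomogeneous_sub' {S : Type*} [CommRing S] {m : ℕ} (w : Fin m → ℕ) (d : ℕ)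
    {P Q : MvPolynomial (Fin m) S} (hP : P.IsWeightedHomogeneous w d)
    (hQ : Q.IsWeightedHomogeneous w d) : (P - Q).IsWeightedHomogeneous w d :=
  (weightedHomogeneousSubmodule S w d).sub_mem hP hQ

theorem peq_homog (w : Fin n → ℕ) (d : ℕ) (Φ : MvPolynomial (Fin (n + 1)) R)
    (hΦ : Φ.IsWeightedHomogeneous (Fin.cons 1 w : Fin (n + 1) → ℕ) d) :
    (peq d Φ).IsWeightedHomogeneous (Fin.cons 1 w : Fin (n + 1) → ℕ) d :=
  isWeightedHomogeneous_sub' _ _ (isWeightedHomogeneous_map _ hΦ)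
    (isWeightedHomogeneous_X_pow w d _)

theorem bdr_peq {d : ℕ} (hd : 0 < d) (Φ : MvPolynomial (Fin (n + 1)) R) :
    bdr (peq d Φ) = (bdr Φ).map Polynomial.C := by
  rw [peq, ← bdr_map, bdr, map_sub, map_mul, map_pow, aeval_X, Fin.cons_zero, zero_pow hd.ne',
    mul_zero, sub_zero]
  rfl

/-- The reduction of the pencil. -/
noncomputable def pred {E : Type*} [Field E] (ψ : R →+* E) : Polynomial R →+* RatFunc E :=
  (algebraMap (Polynomial E) (RatFunc E)).comp (Polynomial.mapRingHom ψ)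

theorem pred_C {E : Type*} [Field E] (ψ : R →+* E) (r : R) :
    pred ψ (Polynomial.C r) = algebraMap E (RatFunc E) (ψ r) := by
  rw [pred, RingHom.comp_apply, Polynomial.coe_mapRingHom, Polynomial.map_C]
  rfl

theorem pred_X {E : Type*} [Field E] (ψ : R →+* E) :
    pred ψ Polynomial.X = RatFunc.X := by
  rw [pred, RingHom.comp_apply, Polynomial.coe_mapRingHom, Polynomial.map_X, RatFunc.algebraMap_X]

theorem pred_ne_zero {E : Type*} [Field E] (ψ : R →+* E) {a : Polynomial R} {l : ℕ}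
    (h : ψ (a.coeff l) ≠ 0) : pred ψ a ≠ 0 := by
  intro h0
  rw [pred, RingHom.comp_apply, Polynomial.coe_mapRingHom,
    map_eq_zero_iff _ (RatFunc.algebraMap_injective E)] at h0
  apply h
  rw [← Polynomial.coeff_map, h0, Polynomial.coeff_zero]

theorem peq_map {E : Type*} [Field E] (ψ : R →+* E) (d : ℕ) (Φ : MvPolynomial (Fin (n + 1)) R) :
    (peq d Φ).map (pred ψ) =
      (Φ.map ψ).map (algebraMap E (RatFunc E)) - C RatFunc.X * X 0 ^ d := by
  have h : (pred ψ).comp Polynomial.C = (algebraMap E (RatFunc E)).comp ψ :=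
    RingHom.ext fun r => pred_C ψ r
  rw [peq, map_sub, map_mul, map_C, map_pow, map_X, pred_X, map_map, map_map, h]

end

/-- The Jacobian ideal of the pencil over the residue fields. -/
theorem peq_jac {R : Type u} [CommRing R] [IsDomain R] [CharZero R] {n : ℕ}
    (w : Fin n → ℕ) (hw : ∀ i, 0 < w i) (d : ℕ) (hd : 0 < d)
    (Φ : MvPolynomial (Fin (n + 1)) R)
    (hΦ : Φ.IsWeightedHomogeneous (Fin.cons 1 w : Fin (n + 1) → ℕ) d) (M : ℕ)
    (hjac : ∀ e : Fin n →₀ ℕ, M ≤ wt w e → monomial e (1 : R) ∈ Jac (bdr Φ))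
    (δ : Polynomial R) (hδ0 : δ ≠ 0) (hδ : Polynomial.aeval (aff Φ) δ ∈ Jac (aff Φ)) :
    ∃ (a : Polynomial R) (M' : ℕ), a ≠ 0 ∧ ∀ {κ : Type u} [Field κ] (φ : Polynomial R →+* κ),
      φ a ≠ 0 → ∀ e : Fin (n + 1) →₀ ℕ,
        M' ≤ ∑ i, (Fin.cons 1 w : Fin (n + 1) → ℕ) i * e i →
        monomial e (1 : κ) ∈ Ideal.span (Set.range fun j => pderiv j ((peq d Φ).map φ)) := by
  let k := FractionRing (Polynomial R)
  have hinj : Function.Injective (algebraMap (Polynomial R) k) := IsFractionRing.injective _ _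
  have hck : CharZero k := charZero_of_injective_algebraMap hinj
  have hW : ∀ i, 0 < (Fin.cons 1 w : Fin (n + 1) → ℕ) i := by
    intro i
    refine Fin.cases ?_ (fun j => ?_) i
    · exact Nat.one_pos
    · exact hw j
  refine exists_jac (k := k) hinj (Fin.cons 1 w : Fin (n + 1) → ℕ) hW (peq d Φ) ?_
  have hhom := isWeightedHomogeneous_map (algebraMap (Polynomial R) k) (peq_homog w d Φ hΦ)
  refine quasiSmooth_of w d hd _ hhom ?_ ?_
  · intro i
    rw [bdr_map, bdr_peq hd]
    have h1 : monomial (Finsupp.single i (M + 1)) (1 : R) ∈ Jac (bdr Φ) := by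
      apply hjac
      rw [wt, Finset.sum_eq_single i]
      · rw [Finsupp.single_eq_same]
        exact le_trans (Nat.le_succ M) (Nat.le_mul_of_pos_left _ (hw i))
      · intro j _ hj
        rw [Finsupp.single_apply, if_neg (Ne.symm hj), mul_zero]
      · intro h
        exact absurd (Finset.mem_univ i) h
    have h2 := mem_Jac_map (algebraMap (Polynomial R) k) (mem_Jac_map Polynomial.C h1)
    rw [map_monomial, map_monomial, map_one, map_one, ← X_pow_eq_monomial] at h2
    exact ⟨M + 1, h2⟩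
  · rw [aff_map, aff_peq]
    have h1 := unit_mem (aff Φ) δ hδ
    have h2 := Ideal.mem_map_of_mem (MvPolynomial.map (algebraMap (Polynomial R) k)) h1
    rw [Ideal.map_sup, map_C] at h2
    have h3 : (Jac (paeq Φ)).map (MvPolynomial.map (algebraMap (Polynomial R) k)) =
        Jac ((paeq Φ).map (algebraMap (Polynomial R) k)) := by
      rw [Jac, Jac, Ideal.map_span, ← Set.range_comp]
      apply congrArg
      apply congrArg
      funext j
      simp only [Function.comp_apply, pderiv_map]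
    change _ ∈ Ideal.map _ (Jac (paeq Φ)) ⊔ Ideal.map _ (Ideal.span {paeq Φ}) at h2
    rw [h3, Ideal.map_span, Set.image_singleton] at h2
    have h4 : algebraMap (Polynomial R) k δ ≠ 0 := by
      rw [Ne, map_eq_zero_iff _ hinj]
      exact hδ0
    have h5 : (1 : MvPolynomial (Fin n) k) = C (algebraMap (Polynomial R) k δ)⁻¹ *
        C (algebraMap (Polynomial R) k δ) := by
      rw [← C_mul, inv_mul_cancel₀ h4, C_1]
    rw [h5]
    exact Ideal.mul_mem_left _ _ h2

end MPadcHM
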