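import Pool.Agent.Lib.MP_adc574_ag_HM.Family

/-!
# The family `φ = g + ∑ b_i x_i` with independent `b_i`: irreducible equation of the critical values over `k₀`
-/

set_option autoImplicit false

namespace MPadcHM

open MvPolynomial

universe u

theorem family_irr {κ₀ k₀ : Type u} [Field κ₀] [Field k₀] [Algebra κ₀ k₀] [CharZero κ₀] {n : ℕ}
    (hn : 0 < n) (b : Fin n → k₀) (hb : AlgebraicIndependent κ₀ b)
    (htop : IntermediateField.adjoin κ₀ (Set.range b) = ⊤) (w : Fin n → ℕ) (hw : ∀ i, 0 < w i)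
    (d : ℕ) (hwd : ∀ i, w i < d) (g : MvPolynomial (Fin n) κ₀) (hg : DegLe w d g)
    (hgT : ∀ i, (X i : MvPolynomial (Fin n) κ₀) ∈ (Jac (part w d g)).radical)
    (φ : MvPolynomial (Fin n) k₀)
    (hφ : φ = g.map (algebraMap κ₀ k₀) + ∑ i, C (b i) * X i) :
    (∀ j, ∃ ξ : Polynomial k₀, X j - Polynomial.aeval φ ξ ∈ Jac φ) ∧
      ∃ δ : Polynomial k₀, Polynomial.aeval φ δ ∈ Jac φ ∧ Irreducible δ := by
  refine ⟨(family hn b hb htop w hw d hwd g hg hgT φ hφ).1, ?_⟩
  have hgT' := hgT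
  choose N hN using fun i => Ideal.mem_radical_iff.1 (hgT' i)
  obtain ⟨s, hs⟩ := spn_of_jac w hw d hwd g hg (∑ i, N i) (fun i =>
    Ideal.pow_mem_of_pow_mem _ (hN i) (Finset.single_le_sum (fun _ _ => Nat.zero_le _) (Finset.mem_univ i)))
  obtain ⟨m, hm⟩ := exists_isMin hs (vv g)
  refine ⟨m.map (aeval b : MvPolynomial (Fin n) κ₀ →ₐ[κ₀] k₀).toRingHom, ?_, ?_⟩
  · have h1 := ker_lemma b g φ hφ m
    rw [hm.2.1, map_zero, sub_zero] at h1
    exact h1
  · have hinj : Function.Injective (th g) := th_injective hs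
    have hbi : Function.Injective (aeval b : MvPolynomial (Fin n) κ₀ →ₐ[κ₀] k₀) := hb
    let _ : Algebra (MvPolynomial (Fin n) κ₀) k₀ := (aeval b : MvPolynomial (Fin n) κ₀ →ₐ[κ₀] k₀).toRingHom.toAlgebra
    have : FaithfulSMul (MvPolynomial (Fin n) κ₀) k₀ := (faithfulSMul_iff_algebraMap_injective _ _).2 hbi
    have : IsFractionRing (MvPolynomial (Fin n) κ₀) k₀ := IsFractionRing.of_field _ _ (fun x => by
      have h1 : x ∈ IntermediateField.adjoin κ₀ (Set.range b) := by
        rw [htop]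
        exact IntermediateField.mem_top
      exact (IntermediateField.mem_adjoin_range_iff κ₀ b x).1 h1)
    exact hm.irreducible hinj k₀

end MPadcHM
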