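import Pool.Agent.Lib.MP_adc574_ag_HM.InfG
import Pool.Agent.Lib.MP_adc574_ag_HM.FinA

/-!
# JOB IrrA: irreducibility of the primitive part

* `Hprim_nab`: `nab (a g) = (DK a) g + a nab g` and `nab [x^e]_k = (k+1) [x^e]_{k+1}`, `wtp e < d (k+1) ≤ d (k+2)`.
* `lv_one_mem`: `[1]_{k+1} ∈ Hprim` as `wtp 0 = ∑ w < d`.
* `no_lattice` (`inf_lemma` for `𝓔 = EE k ∩ Hprim`): if `H' ≤ Hprim` is a `nab`-stable `K`-subspace and for all `x ∈ EE k`, `x ∈ Hprim` there is `y ∈ EE k`, `y ∈ Hprim` with `nab x - y ∈ H'`, then all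
  `x ∈ EE k ∩ Hprim` are in `H'`, and hence `H' = Hprim` (`EE_span`: every `h ∈ Hprim` has a nonzero multiple in `EE k ∩ Hprim`). `hbd` from `EE_bd`.
* `irr`: take `k = 0`. For `x ∈ EE 0 ∩ Hprim` `nab x ∈ EE 1` (`EE_nab`), `nab x - p_x • [1]_1 ∈ EE 0` (`EE_succ`), and it is in `Hprim`. Case 1: for all `x ∈ EE 0 ∩ H'` one can
  choose `p_x` divisible by `δ`: then `nab x ∈ EE 0` (`EE_delta`), and `𝓔 = EE 0 ∩ H'` (a `κ[t]`-submodule) is `nab`-stable; `inf_lemma` with `H' := ⊥`, this `𝓔`: `𝓔 = 0`, so `H' = ⊥` (`EE_span`). Case 2: some `h ∈ EE 0 ∩ H'` with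
  `nab h - p • [1]_1 ∈ EE 0`, `δ ∤ p`: `p q + δ s = 1` (`δ` irreducible in `κ[X]`, `hS.irr.coprime_iff_not_dvd`). For `x ∈ EE 0 ∩ Hprim` with `nab x - p_x [1]_1 ∈ EE 0` put `y = nab x - p_x q • nab h`: `y ∈ EE 0`, because modulo `EE 0`
  `nab x = p_x [1]_1`, `p_x q nab h = p_x q p [1]_1 = p_x (1 - δ s) [1]_1 = p_x [1]_1`; `y ∈ Hprim`; `nab x - y = p_x q • nab h ∈ H'`. By `no_lattice` `H' = Hprim`.
-/

set_option autoImplicit false

namespace MPadcHM

open MvPolynomial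

universe u

variable {κ : Type u} [Field κ] [CharZero κ] {n : ℕ} {S : Dat κ n} {H : Type u} [AddCommGroup H]
  [Module (RatFunc κ) H] [Module κ H] [IsScalarTower κ (RatFunc κ) H] [Module (Polynomial κ) H]
  [IsScalarTower (Polynomial κ) (RatFunc κ) H] [IsScalarTower κ (Polynomial κ) H]
  {nab : H →ₗ[κ] H} {br : MvPolynomial (Fin n) κ →ₗ[κ] H}

theorem Hprim_nab (hG : IsGM S nab br) (h : H) (hh : h ∈ Hprim S nab br) :
    nab h ∈ Hprim S nab br := by
  unfold Hprim at hh ⊢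
  induction hh using Submodule.span_induction with
  | mem x hx =>
    obtain ⟨k, e, he, rfl⟩ := hx
    rw [nab_lv]
    refine Submodule.smul_of_tower_mem _ _ (Submodule.subset_span ⟨k + 1, e, ?_, rfl⟩)
    exact lt_of_lt_of_le he (Nat.mul_le_mul_left _ (by omega))
  | zero => rw [map_zero]; exact Submodule.zero_mem _
  | add x y _ _ hx hy => rw [map_add]; exact Submodule.add_mem _ hx hy
  | smul a x hx hnx =>
    rw [hG.leib]
    exact Submodule.add_mem _ (Submodule.smul_mem _ _ hx) (Submodule.smul_mem _ _ hnx)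

theorem lv_one_mem (hwd : ∑ i, S.w i < S.d) (k : ℕ) :
    lv nab br k (1 : MvPolynomial (Fin n) κ) ∈ Hprim S nab br := by
  unfold Hprim
  refine Submodule.subset_span ⟨k, 0, ?_, rfl⟩
  have h1 : wtp S.w (0 : Fin n →₀ ℕ) = ∑ i, S.w i := by
    unfold wtp
    simp
  rw [h1]
  refine lt_of_lt_of_le hwd ?_
  nlinarith [Nat.zero_le (S.d * k)]

private theorem irra_cancel {F : Submodule (RatFunc κ) H} {p : Polynomial κ} (hp : p ≠ 0) {h : H}
    (hh : p • h ∈ F) : h ∈ F := by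
  have hp' : algebraMap (Polynomial κ) (RatFunc κ) p ≠ 0 := by
    intro h0
    exact hp ((IsFractionRing.injective (Polynomial κ) (RatFunc κ)) (by rw [h0, map_zero]))
  rw [← algebraMap_smul (RatFunc κ) p h] at hh
  have h2 := F.smul_mem (algebraMap (Polynomial κ) (RatFunc κ) p)⁻¹ hh
  rwa [smul_smul, inv_mul_cancel₀ hp', one_smul] at h2

private theorem irra_tower {F : Submodule (RatFunc κ) H} (p : Polynomial κ) {h : H}
    (hh : h ∈ F) : p • h ∈ F := by
  rw [← algebraMap_smul (RatFunc κ) p h]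
  exact F.smul_mem _ hh

theorem no_lattice (hn : 0 < n) (hS : S.Ok) (hG : IsGM S nab br) (k : ℕ)
    (H' : Submodule (RatFunc κ) H) (hle : H' ≤ Hprim S nab br) (hst : ∀ h ∈ H', nab h ∈ H')
    (h : ∀ x ∈ EE nab br k, x ∈ Hprim S nab br →
      ∃ y ∈ EE nab br k, y ∈ Hprim S nab br ∧ nab x - y ∈ H') : H' = Hprim S nab br := by
  haveI := H_finite hn hS hG
  have key := inf_lemma hn hS hG H' hle hst
    (EE nab br k ⊓ (Hprim S nab br).restrictScalars (Polynomial κ))
    (fun x hx => hx.2)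
    (fun l => by
      obtain ⟨p, hp, hq⟩ := EE_bd hn hS hG k l
      exact ⟨p, hp, fun x hx => hq x hx.1⟩)
    (fun x hx => by
      obtain ⟨y, hy1, hy2, hy3⟩ := h x hx.1 hx.2
      exact ⟨y, ⟨hy1, hy2⟩, hy3⟩)
  refine le_antisymm hle (fun x hx => ?_)
  obtain ⟨p, hp, hq⟩ := EE_span hG k x
  exact irra_cancel hp (key _ ⟨hq, irra_tower p hx⟩)

theorem irr (hn : 0 < n) (hS : S.Ok) (hirr : Irreducible S.δ) (hG : IsGM S nab br)
    (hwd : ∑ i, S.w i < S.d)
    (H' : Submodule (RatFunc κ) H) (hle : H' ≤ Hprim S nab br) (hst : ∀ h ∈ H', nab h ∈ H') :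
    H' = ⊥ ∨ H' = Hprim S nab br := by
  haveI := H_finite hn hS hG
  set g : H := lv nab br (0 + 1) (1 : MvPolynomial (Fin n) κ) with hg
  have hdel : S.δ • g ∈ EE nab br 0 := EE_delta hS hG 0
  by_cases hc : ∀ x ∈ EE nab br 0, x ∈ H' → ∀ p : Polynomial κ, nab x - p • g ∈ EE nab br 0 → S.δ ∣ p
  · left
    have key := inf_lemma hn hS hG ⊥ bot_le
      (fun h hh => by rw [Submodule.mem_bot] at hh ⊢; rw [hh, map_zero])
      (EE nab br 0 ⊓ H'.restrictScalars (Polynomial κ))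
      (fun x hx => hle hx.2)
      (fun l => by
        obtain ⟨p, hp, hq⟩ := EE_bd hn hS hG 0 l
        exact ⟨p, hp, fun x hx => hq x hx.1⟩)
      (fun x hx => by
        refine ⟨nab x, ⟨?_, hst x hx.2⟩, by rw [sub_self]; exact Submodule.zero_mem _⟩
        obtain ⟨p, hp⟩ := EE_succ hS hG 0 (nab x) (EE_nab hG 0 x hx.1)
        obtain ⟨s, hs⟩ := hc x hx.1 hx.2 p hp
        have e1 : nab x = (nab x - p • g) + s • (S.δ • g) := by
          rw [smul_smul, mul_comm s, ← hs, sub_add_cancel]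
        rw [e1]
        exact Submodule.add_mem _ hp (Submodule.smul_mem _ _ hdel))
    rw [eq_bot_iff]
    intro x hx
    obtain ⟨p, hp, hq⟩ := EE_span hG 0 x
    exact irra_cancel hp (key _ ⟨hq, irra_tower p hx⟩)
  · right
    push Not at hc
    obtain ⟨h, hh1, hh2, p, hp, hnd⟩ := hc
    obtain ⟨a, b, hab⟩ := (hirr.coprime_iff_not_dvd).2 hnd
    refine no_lattice hn hS hG 0 H' hle hst (fun x hx hxH => ?_)
    obtain ⟨px, hpx⟩ := EE_succ hS hG 0 (nab x) (EE_nab hG 0 x hx)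
    have hm : (px * b) • nab h ∈ H' := irra_tower _ (hst h hh2)
    refine ⟨nab x - (px * b) • nab h, ?_, ?_, by rw [sub_sub_cancel]; exact hm⟩
    · have e1 : nab x - (px * b) • nab h =
          (nab x - px • g) - (px * b) • (nab h - p • g) + (px * a) • (S.δ • g) := by
        have e2 : px = px * b * p + px * a * S.δ := by
          linear_combination (-px) * hab
        have e3 : px • g = (px * b * p) • g + (px * a * S.δ) • g := by
          rw [← add_smul, ← e2]
        rw [e3, smul_sub, smul_smul, smul_smul]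
        abel
      rw [e1]
      exact Submodule.add_mem _ (Submodule.sub_mem _ hpx (Submodule.smul_mem _ _ hp))
        (Submodule.smul_mem _ _ hdel)
    · exact Submodule.sub_mem _ (Hprim_nab hG x hxH) (hle hm)

end MPadcHM
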