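import Pool.Agent.Lib.MP_adc574_ag_HM.MilDefs
import Pool.Agent.Lib.MP_adc574_ag_HM.GMC
import Pool.Agent.Lib.MP_adc574_ag_HM.IrrA

/-!
# JOB GalB: automorphisms of the constants act on `H`

`map_ok` (part a): `Dat.Ok` is preserved by base change `f : κ →+* κ'` (`w_pos`, `d_pos` the same; `deg`, `jac`, `ann`, `gen`: map the identities (`Ideal.mem_span_range_iff_exists_fun`), `pderiv_map`, `part` commutes with `map` (`weightedHomogeneousComponent`: coefficientwise); `sep`: `Polynomial.Separable.map`).
`gm_unique` (part a): an `IsGM` connection is unique: for `P` over `κ`: `δ(φ) = ∑ q_i ∂_i φ` (`hS.ann`), so `nab (br (δ(φ) P)) = br (∑ ∂_i (q_i P))` (`exa`, linearity) is the same for both, and `br (δ(φ) P) = δ(t) • br P` (`mul`), `nab (δ(t) • y) = δ'(t) • y + δ(t) • nab y` (`leib`). As `δ(t) ≠ 0` both agree on `br P`, hence everywhere (`span`, `leib`; `Submodule.span_induction`).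
`exists_act` (part b): `σ : M ≃+* M` with `S.map σ = S`. `s : RatFunc M ≃+* RatFunc M`: `RatFunc.mapRingHom`/`IsFractionRing.ringEquivOfRingEquiv (Polynomial.mapEquiv σ)`, `s (algebraMap p) = algebraMap (p.map σ)`. `MvPolynomial.map s : K[x] → K[x]` maps `S.fK` to itself (`S.φ.map σ = S.φ`; `s (RatFunc.X) = X`), and `Zmod S.fK` to itself
(`pderiv_map`, `Asym`): it descends to the quotient `T : HH S.fK → HH S.fK` additive, `T (a • h) = s a • T h`; the inverse from `σ.symm`. `T (S.br P) = S.br (P.map σ)` (`algebraMap κ K` commutes with `σ`, `s`).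
`T ∘ nab = nab ∘ T`: `nab' h := T.symm (nab (T h))` is again an `IsGM` connection for the same data, where `nab'` is `κ`-linear (`T (a • h) = σ a • T h` for `a ∈ κ`, as `κ` acts through `K`): `leib`: `s` commutes with `DK` (`DK_poly`, quotients; or `DK_unique` for `j = s` and the derivation `s ∘ DK ∘ s⁻¹`...: both sides are derivations of `K` killing constants and with value 1 at `X`),
`exa`: `T (br (Q ∂_i φ)) = br ((Q.map σ) ∂_i φ)`, etc.; so `nab' = nab` by `gm_unique`.
-/

set_option autoImplicit false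

namespace MPadcHM

open MvPolynomial

universe u

private theorem galba_jac {R T : Type u} [CommRing R] [CommRing T] {n : ℕ} (f : R →+* T)
    (φ P : MvPolynomial (Fin n) R) (hP : P ∈ Jac φ) : P.map f ∈ Jac (φ.map f) := by
  have h := Ideal.mem_map_of_mem (MvPolynomial.map f) hP
  unfold Jac at h ⊢
  rw [Ideal.map_span, ← Set.range_comp] at h
  have e : (fun j => pderiv j (φ.map f)) = (MvPolynomial.map f) ∘ (fun j => pderiv j φ) := by
    funext j
    exact pderiv_map
  rw [e]
  exact h

private theorem galba_part {R T : Type u} [CommRing R] [CommRing T] {n : ℕ} (f : R →+* T)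
    (w : Fin n → ℕ) (N : ℕ) (P : MvPolynomial (Fin n) R) :
    part w N (P.map f) = (part w N P).map f := by
  classical
  ext e
  unfold part
  rw [coeff_map, coeff_weightedHomogeneousComponent, coeff_weightedHomogeneousComponent, coeff_map]
  split_ifs
  · rfl
  · rw [map_zero]

private theorem galba_aeval {R T : Type u} [CommRing R] [CommRing T] {n : ℕ} (f : R →+* T)
    (φ : MvPolynomial (Fin n) R) (p : Polynomial R) :
    Polynomial.aeval (φ.map f) (p.map f) = (Polynomial.aeval φ p).map f := by
  symm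
  refine Polynomial.map_aeval_eq_aeval_map (φ := f) (ψ := MvPolynomial.map f) ?_ p φ
  ext x
  rw [RingHom.comp_apply, RingHom.comp_apply, MvPolynomial.algebraMap_eq,
    MvPolynomial.algebraMap_eq, map_C]

theorem map_ok {κ κ' : Type u} [Field κ] [Field κ'] {n : ℕ} (S : Dat κ n) (hS : S.Ok)
    (f : κ →+* κ') : (S.map f).Ok := by
  refine ⟨hS.w_pos, hS.d_pos, fun e he => ?_, fun e he => ?_, ?_, ?_, fun j => ?_⟩
  · exact hS.deg e (MvPolynomial.support_map_subset f S.φ he)
  · have h := galba_jac f _ _ (hS.jac e he)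
    rw [map_monomial, map_one, ← galba_part] at h
    exact h
  · exact hS.sep.map
  · have h := galba_jac f _ _ hS.ann
    rw [← galba_aeval] at h
    exact h
  · have h := galba_jac f _ _ (hS.gen j)
    rw [map_sub, map_X, ← galba_aeval] at h
    exact h

private theorem galba_mul {κ : Type u} [Field κ] {n : ℕ} {S : Dat κ n}
    {H : Type u} [AddCommGroup H] [Module (RatFunc κ) H] [Module κ H]
    [IsScalarTower κ (RatFunc κ) H] {nab : H →ₗ[κ] H} {br : MvPolynomial (Fin n) κ →ₗ[κ] H}
    (hG : IsGM S nab br) (p : Polynomial κ) (P : MvPolynomial (Fin n) κ) :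
    br (Polynomial.aeval S.φ p * P) = algebraMap (Polynomial κ) (RatFunc κ) p • br P := by
  induction p using Polynomial.induction_on generalizing P with
  | C a =>
    rw [Polynomial.aeval_C, MvPolynomial.algebraMap_eq, ← smul_eq_C_mul, map_smul,
      RatFunc.algebraMap_C, ← RatFunc.algebraMap_eq_C, algebraMap_smul]
  | add p q hp hq => rw [map_add, map_add, add_mul, map_add, hp, hq, add_smul]
  | monomial m a ih =>
    have e1 : Polynomial.aeval S.φ (Polynomial.C a * Polynomial.X ^ (m + 1)) * P =
        Polynomial.aeval S.φ (Polynomial.C a * Polynomial.X ^ m) * (S.φ * P) := by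
      rw [pow_succ, ← mul_assoc, map_mul (Polynomial.aeval S.φ), Polynomial.aeval_X, mul_assoc]
    have e2 : algebraMap (Polynomial κ) (RatFunc κ) (Polynomial.C a * Polynomial.X ^ (m + 1)) =
        algebraMap (Polynomial κ) (RatFunc κ) (Polynomial.C a * Polynomial.X ^ m) * RatFunc.X := by
      rw [pow_succ, ← mul_assoc, map_mul, RatFunc.algebraMap_X]
    rw [e1, ih, hG.mul, e2, mul_smul]

theorem gm_unique {κ : Type u} [Field κ] [CharZero κ] {n : ℕ} {S : Dat κ n} (hS : S.Ok)
    {H : Type u} [AddCommGroup H] [Module (RatFunc κ) H] [Module κ H]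
    [IsScalarTower κ (RatFunc κ) H] {nab nab' : H →ₗ[κ] H} {br : MvPolynomial (Fin n) κ →ₗ[κ] H}
    (hG : IsGM S nab br) (hG' : IsGM S nab' br) : nab = nab' := by
  have hδ : algebraMap (Polynomial κ) (RatFunc κ) S.δ ≠ 0 := by
    intro h
    exact hS.sep.ne_zero ((map_eq_zero_iff _ (IsFractionRing.injective (Polynomial κ) (RatFunc κ))).mp h)
  obtain ⟨q, hq⟩ := (Ideal.mem_span_range_iff_exists_fun).1 hS.ann
  have hb : ∀ P, nab (br P) = nab' (br P) := by
    intro P
    have e1 : Polynomial.aeval S.φ S.δ * P = ∑ i, (q i * P) * pderiv i S.φ := by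
      rw [← hq, Finset.sum_mul]
      exact Finset.sum_congr rfl fun i _ => by ring
    have e2 : nab (br (Polynomial.aeval S.φ S.δ * P)) =
        nab' (br (Polynomial.aeval S.φ S.δ * P)) := by
      rw [e1, map_sum, map_sum, map_sum]
      exact Finset.sum_congr rfl fun i _ => by rw [hG.exa, hG'.exa]
    rw [galba_mul hG, hG.leib, hG'.leib] at e2
    have e3 := add_left_cancel e2
    have e4 := congrArg (fun h => (algebraMap (Polynomial κ) (RatFunc κ) S.δ)⁻¹ • h) e3
    simp only [smul_smul, inv_mul_cancel₀ hδ, one_smul] at e4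
    exact e4
  ext h
  have hm : h ∈ Submodule.span (RatFunc κ) (Set.range br) := by
    rw [hG.span]
    exact Submodule.mem_top
  induction hm using Submodule.span_induction with
  | mem x hx =>
    obtain ⟨P, rfl⟩ := hx
    exact hb P
  | zero => rw [map_zero, map_zero]
  | add x y _ _ hx hy => rw [map_add, map_add, hx, hy]
  | smul a x _ hx => rw [hG.leib, hG'.leib, hx]

private noncomputable def galbb_F {K : Type u} [Field K] (n : ℕ) (s : K →+* K) :
    MvPolynomial (Fin n) K →ₛₗ[s] MvPolynomial (Fin n) K where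
  toFun P := P.map s
  map_add' P Q := map_add _ P Q
  map_smul' a P := by
    rw [smul_eq_C_mul, map_mul, map_C, ← smul_eq_C_mul]

private theorem galbb_le {K : Type u} [Field K] {n : ℕ} (s : K →+* K)
    (f : MvPolynomial (Fin n) K) (hf : f.map s = f) :
    Zmod f ≤ (Zmod f).comap (galbb_F n s) := by
  rintro P ⟨A, C1, hA, rfl⟩
  refine ⟨fun i j => (A i j).map s, C1.map s, ⟨fun i => ?_, fun i j => ?_⟩, ?_⟩
  · change map s (A i i) = 0
    rw [hA.1 i, map_zero]
  · change map s (A i j) = -map s (A j i)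
    rw [hA.2 i j, map_neg]
  · change map s ((zz A fun j => pderiv j f) + C1 * f) = _
    rw [map_add, map_mul, hf]
    congr 1
    unfold zz
    rw [map_sum]
    refine Finset.sum_congr rfl fun j _ => ?_
    rw [map_mul, map_sum, ← pderiv_map, hf]
    congr 1
    refine Finset.sum_congr rfl fun i _ => ?_
    rw [pderiv_map]

private noncomputable def galbb_T {K : Type u} [Field K] {n : ℕ} (s : K →+* K)
    (f : MvPolynomial (Fin n) K) (hf : f.map s = f) : HH f →ₛₗ[s] HH f :=
  Submodule.mapQ (Zmod f) (Zmod f) (galbb_F n s) (galbb_le s f hf)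

private theorem galbb_T_mk {K : Type u} [Field K] {n : ℕ} (s : K →+* K)
    (f : MvPolynomial (Fin n) K) (hf : f.map s = f) (P : MvPolynomial (Fin n) K) :
    galbb_T s f hf ((Zmod f).mkQ P) = (Zmod f).mkQ (P.map s) := rfl

private theorem galbb_equiv {K : Type u} [Field K] {n : ℕ} (s : K ≃+* K)
    (f : MvPolynomial (Fin n) K) (hf : f.map (s : K →+* K) = f) :
    ∃ T : HH f ≃+ HH f, (∀ P, T ((Zmod f).mkQ P) = (Zmod f).mkQ (P.map (s : K →+* K))) ∧
      (∀ (a : K) (h : HH f), T (a • h) = s a • T h) ∧
      ∀ (a : K) (h : HH f), T.symm (a • h) = s.symm a • T.symm h := by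
  have hcomp : ∀ P : MvPolynomial (Fin n) K,
      (P.map (s : K →+* K)).map (s.symm : K →+* K) = P := by
    intro P
    rw [MvPolynomial.map_map]
    have e : (s.symm : K →+* K).comp (s : K →+* K) = RingHom.id K := by
      ext x
      exact s.symm_apply_apply x
    rw [e, MvPolynomial.map_id]
  have hcomp' : ∀ P : MvPolynomial (Fin n) K,
      (P.map (s.symm : K →+* K)).map (s : K →+* K) = P := by
    intro P
    rw [MvPolynomial.map_map]
    have e : (s : K →+* K).comp (s.symm : K →+* K) = RingHom.id K := by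
      ext x
      exact s.apply_symm_apply x
    rw [e, MvPolynomial.map_id]
  have hf' : f.map (s.symm : K →+* K) = f := by
    have h1 := hcomp f
    rwa [hf] at h1
  refine ⟨{ toFun := galbb_T (s : K →+* K) f hf
            invFun := galbb_T (s.symm : K →+* K) f hf'
            left_inv := fun h => ?_
            right_inv := fun h => ?_
            map_add' := fun x y => map_add _ x y }, fun P => galbb_T_mk _ f hf P, fun a h => ?_,
          fun a h => ?_⟩
  · obtain ⟨P, rfl⟩ := (Zmod f).mkQ_surjective h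
    rw [galbb_T_mk, galbb_T_mk, hcomp]
  · obtain ⟨P, rfl⟩ := (Zmod f).mkQ_surjective h
    rw [galbb_T_mk, galbb_T_mk, hcomp']
  · exact map_smulₛₗ (galbb_T (s : K →+* K) f hf) a h
  · exact map_smulₛₗ (galbb_T (s.symm : K →+* K) f hf') a h

private def galbb_D {L : Type u} [Field L] (D : L →+ L)
    (h : ∀ a b, D (a * b) = a * D b + b * D a) : Derivation ℤ L L :=
  Derivation.mk' D.toIntLinearMap (fun a b => h a b)

private theorem galbb_alg (M : Type u) [Field M] (a : M) :
    algebraMap M (RatFunc M) a = algebraMap (Polynomial M) (RatFunc M) (Polynomial.C a) := by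
  rw [IsScalarTower.algebraMap_apply M (Polynomial M) (RatFunc M)]
  rfl

theorem exists_act {M : Type u} [Field M] [CharZero M] {n : ℕ} (S : Dat M n) (hS : S.Ok)
    (σ : M ≃+* M) (hσ : S.map (σ : M →+* M) = S) (nab : HH S.fK →ₗ[M] HH S.fK)
    (hG : IsGM S nab S.br) :
    ∃ (s : RatFunc M ≃+* RatFunc M) (T : HH S.fK ≃+ HH S.fK),
      (∀ p : Polynomial M, s (algebraMap (Polynomial M) (RatFunc M) p) =
        algebraMap (Polynomial M) (RatFunc M) (p.map (σ : M →+* M))) ∧
      (∀ (a : RatFunc M) (h : HH S.fK), T (a • h) = s a • T h) ∧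
      (∀ h, T (nab h) = nab (T h)) ∧
      ∀ P : MvPolynomial (Fin n) M, T (S.br P) = S.br (P.map (σ : M →+* M)) := by
  have hφ : S.φ.map (σ : M →+* M) = S.φ := congrArg Dat.φ hσ
  let s : RatFunc M ≃+* RatFunc M :=
    IsFractionRing.ringEquivOfRingEquiv (A := Polynomial M) (B := Polynomial M)
      (Polynomial.mapEquiv σ)
  have hs : ∀ p : Polynomial M, s (algebraMap (Polynomial M) (RatFunc M) p) =
      algebraMap (Polynomial M) (RatFunc M) (p.map (σ : M →+* M)) := fun p =>
    IsFractionRing.ringEquivOfRingEquiv_algebraMap (Polynomial.mapEquiv σ) p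
  have hsa : ∀ a : M, s (algebraMap M (RatFunc M) a) = algebraMap M (RatFunc M) (σ a) := by
    intro a
    rw [galbb_alg, hs, Polynomial.map_C, galbb_alg]
    rfl
  have hsX : s RatFunc.X = RatFunc.X := by
    rw [← RatFunc.algebraMap_X, hs, Polynomial.map_X]
  have hmap : ∀ P : MvPolynomial (Fin n) M,
      (P.map (algebraMap M (RatFunc M))).map (s : RatFunc M →+* RatFunc M) =
        (P.map (σ : M →+* M)).map (algebraMap M (RatFunc M)) := by
    intro P
    rw [MvPolynomial.map_map, MvPolynomial.map_map]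
    have e : (s : RatFunc M →+* RatFunc M).comp (algebraMap M (RatFunc M)) =
        (algebraMap M (RatFunc M)).comp (σ : M →+* M) := by
      ext a
      exact hsa a
    rw [e]
  have hf : S.fK.map (s : RatFunc M →+* RatFunc M) = S.fK := by
    unfold Dat.fK
    rw [map_sub, hmap, hφ, map_C]
    have e : (s : RatFunc M →+* RatFunc M) RatFunc.X = RatFunc.X := hsX
    rw [e]
  obtain ⟨T, hT1, hT2, hT3⟩ := galbb_equiv s S.fK hf
  have hbr : ∀ P : MvPolynomial (Fin n) M, T (S.br P) = S.br (P.map (σ : M →+* M)) := by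
    intro P
    have e1 : S.br P = (Zmod S.fK).mkQ (P.map (algebraMap M (RatFunc M))) := rfl
    have e2 : S.br (P.map (σ : M →+* M)) =
        (Zmod S.fK).mkQ ((P.map (σ : M →+* M)).map (algebraMap M (RatFunc M))) := rfl
    rw [e1, e2, hT1, hmap]
  have hDK : ∀ x : RatFunc M, DK M (s x) = s (DK M x) := by
    intro x
    refine DK_unique M (s : RatFunc M →+* RatFunc M)
      (galbb_D (DK M : RatFunc M →ₗ[M] RatFunc M).toAddMonoidHom
        (fun a b => (DK M).leibniz a b)) (fun a => ?_) ?_ x
    · change DK M (s (algebraMap M (RatFunc M) a)) = 0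
      rw [hsa, DK_C]
    · change DK M (s RatFunc.X) = 1
      rw [hsX, DK_X]
  have hTs : ∀ (a : M) (h : HH S.fK), T (a • h) = σ a • T h := by
    intro a h
    rw [← algebraMap_smul (RatFunc M) a h, hT2, hsa, algebraMap_smul]
  have hTs' : ∀ (a : M) (h : HH S.fK), T.symm (σ a • h) = a • T.symm h := by
    intro a h
    apply T.injective
    rw [AddEquiv.apply_symm_apply, hTs, AddEquiv.apply_symm_apply]
  let nab' : HH S.fK →ₗ[M] HH S.fK :=
    { toFun := fun h => T.symm (nab (T h))
      map_add' := fun x y => by rw [map_add, map_add, map_add]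
      map_smul' := fun a h => by rw [hTs, map_smul, hTs', RingHom.id_apply] }
  have hn' : ∀ h, nab' h = T.symm (nab (T h)) := fun _ => rfl
  have hG' : IsGM S nab' S.br := by
    refine ⟨fun x h => ?_, hG.mul, fun i Q => ?_, hG.lev, hG.span⟩
    · rw [hn', hn', hT2, hG.leib, map_add, hT3, hT3, hDK, AddEquiv.symm_apply_apply,
        RingEquiv.symm_apply_apply, RingEquiv.symm_apply_apply]
    · have e : (pderiv i S.φ).map (σ : M →+* M) = pderiv i S.φ := by
        rw [← pderiv_map, hφ]
      rw [hn', hbr, map_mul, e, hG.exa, pderiv_map, ← hbr, AddEquiv.symm_apply_apply]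
  have hu := gm_unique hS hG hG'
  refine ⟨s, T, hs, hT2, fun h => ?_, hbr⟩
  have h1 := hn' h
  rw [← hu] at h1
  rw [h1, AddEquiv.apply_symm_apply]

end MPadcHM
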