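import Pool.Agent.Lib.MP_adc574_ag_HM.IrrA

/-!
# JOB GalC: stable subspaces and the roots of `δ`

`u = [1]_{k+1}`. For a stable `H' ≤ Hprim` let `PP H' = {p ∈ κ[t] : ∃ x ∈ EE k ∩ H', nab x - p • u ∈ EE k}`. `κ` algebraically closed.
* `PP` is an ideal of `κ[t]` (`a x ↦ a p`: `nab (a x) = a' x + a nab x`, `leib` and `DK_poly`) containing `δ` (`x = 0`, `EE_delta`).
* `sing_ne` : if `H' ≠ ⊥` there are a root `τ` of `δ`, `x ∈ EE k ∩ H'` and `p` with `nab x - p • u ∈ EE k` and `p(τ) ≠ 0`. Otherwise every `p ∈ PP H'` vanishes at all roots of `δ`, so `δ ∣ p` (`δ` is separable and splits: product of different linear factors, e.g. `δ` squarefree; `Polynomial.Separable` + `IsAlgClosed.splits`: `∏ (T - τ)` over the roots, up to the leading coefficient;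
  pairwise coprime factors), so `nab x ∈ EE k` for all `x ∈ EE k ∩ H'` (`EE_nab`, `EE_succ`, `EE_delta`), and `inf_lemma` with `H' := ⊥`, `𝓔 := EE k ∩ H'` gives `EE k ∩ H' = 0`, `H' = ⊥` (`EE_span`) as in the first case of `irr` (IrrA).
* `sing_all`: if `H' ≠ Hprim` there is a root `τ'` of `δ` such that `p(τ') = 0` for all `x ∈ EE k ∩ H'` and all `p` with `nab x - p • u ∈ EE k`. The ideal `PP H' = (g)`, `g ∣ δ`. If `g` is not a unit it has a root `τ'` (`IsAlgClosed.exists_root`), a root of `δ`, and all `p ∈ PP H'` vanish there. If `1 ∈ PP H'`: `x₀ ∈ EE k ∩ H'` with `nab x₀ - u ∈ EE k`; for `x ∈ EE k ∩ Hprim` with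
  `nab x - p • u ∈ EE k` put `y = nab x - p • nab x₀ ∈ EE k ∩ Hprim`, `nab x - y = p • nab x₀ ∈ H'`; `no_lattice` gives `H' = Hprim`.
* `ann_gen`: `{a | a • u ∈ EE k} = (g)` with `g ∣ δ`, and `g` is not a unit if `Hprim ≠ ⊥`: if `u ∈ EE k` then `EE k ∩ Hprim` is `nab`-stable and `no_lattice` with `⊥` gives `Hprim = ⊥` (see `IrrB.lean`).
-/

set_option autoImplicit false

namespace MPadcHM

open MvPolynomial

universe u

variable {κ : Type u} [Field κ] [CharZero κ] {n : ℕ} {S : Dat κ n} {H : Type u} [AddCommGroup H]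
  [Module (RatFunc κ) H] [Module κ H] [IsScalarTower κ (RatFunc κ) H] [Module (Polynomial κ) H]
  [IsScalarTower (Polynomial κ) (RatFunc κ) H] [IsScalarTower κ (Polynomial κ) H]
  {nab : H →ₗ[κ] H} {br : MvPolynomial (Fin n) κ →ₗ[κ] H}

private theorem galc_cancel {F : Submodule (RatFunc κ) H} {p : Polynomial κ} (hp : p ≠ 0) {h : H}
    (hh : p • h ∈ F) : h ∈ F := by
  have hp' : algebraMap (Polynomial κ) (RatFunc κ) p ≠ 0 := by
    intro h0
    exact hp ((IsFractionRing.injective (Polynomial κ) (RatFunc κ)) (by rw [h0, map_zero]))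
  rw [← algebraMap_smul (RatFunc κ) p h] at hh
  have h2 := F.smul_mem (algebraMap (Polynomial κ) (RatFunc κ) p)⁻¹ hh
  rwa [smul_smul, inv_mul_cancel₀ hp', one_smul] at h2

private theorem galc_tower {F : Submodule (RatFunc κ) H} (p : Polynomial κ) {h : H}
    (hh : h ∈ F) : p • h ∈ F := by
  rw [← algebraMap_smul (RatFunc κ) p h]
  exact F.smul_mem _ hh

private theorem galc_nab (hG : IsGM S nab br) (q : Polynomial κ) (h : H) :
    nab (q • h) = Polynomial.derivative q • h + q • nab h := by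
  have h1 := hG.leib (algebraMap (Polynomial κ) (RatFunc κ) q) h
  rw [DK_poly] at h1
  simp only [algebraMap_smul] at h1
  exact h1

private theorem galc_dvd [IsAlgClosed κ] {d p : Polynomial κ} (hd : d.Separable)
    (h : ∀ τ, d.IsRoot τ → p.eval τ = 0) : d ∣ p := by
  by_cases hp : p = 0
  · rw [hp]
    exact dvd_zero _
  · have hd0 : d ≠ 0 := hd.ne_zero
    refine (IsAlgClosed.splits d).dvd_of_roots_le_roots hd0 ?_
    rw [Multiset.le_iff_subset (Polynomial.nodup_roots hd)]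
    intro τ hτ
    rw [Polynomial.mem_roots hp]
    exact h τ ((Polynomial.mem_roots hd0).1 hτ)

theorem sing_ne [IsAlgClosed κ] (hn : 0 < n) (hS : S.Ok) (hG : IsGM S nab br) (k : ℕ)
    (H' : Submodule (RatFunc κ) H) (hle : H' ≤ Hprim S nab br) (hst : ∀ h ∈ H', nab h ∈ H')
    (hne : H' ≠ ⊥) : ∃ τ : κ, S.δ.IsRoot τ ∧ ∃ x ∈ EE nab br k, x ∈ H' ∧
      ∃ p : Polynomial κ, nab x - p • lv nab br (k + 1) (1 : MvPolynomial (Fin n) κ) ∈
        EE nab br k ∧ p.eval τ ≠ 0 := by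
  haveI := H_finite hn hS hG
  by_contra hcon
  push Not at hcon
  apply hne
  have hdel : S.δ • lv nab br (k + 1) (1 : MvPolynomial (Fin n) κ) ∈ EE nab br k :=
    EE_delta hS hG k
  have key := inf_lemma hn hS hG ⊥ bot_le
    (fun h hh => by rw [Submodule.mem_bot] at hh ⊢; rw [hh, map_zero])
    (EE nab br k ⊓ H'.restrictScalars (Polynomial κ))
    (fun x hx => hle hx.2)
    (fun l => by
      obtain ⟨p, hp, hq⟩ := EE_bd hn hS hG k l
      exact ⟨p, hp, fun x hx => hq x hx.1⟩)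
    (fun x hx => by
      refine ⟨nab x, ⟨?_, hst x hx.2⟩, by rw [sub_self]; exact Submodule.zero_mem _⟩
      obtain ⟨p, hp⟩ := EE_succ hS hG k (nab x) (EE_nab hG k x hx.1)
      obtain ⟨s, hs⟩ := galc_dvd hS.sep (fun τ hτ => hcon τ hτ x hx.1 hx.2 p hp)
      have e1 : nab x = (nab x - p • lv nab br (k + 1) (1 : MvPolynomial (Fin n) κ)) +
          s • (S.δ • lv nab br (k + 1) (1 : MvPolynomial (Fin n) κ)) := by
        rw [smul_smul, mul_comm s, ← hs, sub_add_cancel]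
      rw [e1]
      exact Submodule.add_mem _ hp (Submodule.smul_mem _ _ hdel))
  rw [eq_bot_iff]
  intro x hx
  obtain ⟨p, hp, hq⟩ := EE_span hG k x
  exact galc_cancel hp (key _ ⟨hq, galc_tower p hx⟩)

theorem sing_all [IsAlgClosed κ] (hn : 0 < n) (hS : S.Ok) (hG : IsGM S nab br)
    (hwd : ∑ i, S.w i < S.d) (k : ℕ) (H' : Submodule (RatFunc κ) H)
    (hle : H' ≤ Hprim S nab br) (hst : ∀ h ∈ H', nab h ∈ H') (hne : H' ≠ Hprim S nab br) :
    ∃ τ : κ, S.δ.IsRoot τ ∧ ∀ x ∈ EE nab br k, x ∈ H' → ∀ p : Polynomial κ,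
      nab x - p • lv nab br (k + 1) (1 : MvPolynomial (Fin n) κ) ∈ EE nab br k →
        p.eval τ = 0 := by
  obtain ⟨u, hu⟩ : ∃ u : H, u = lv nab br (k + 1) (1 : MvPolynomial (Fin n) κ) := ⟨_, rfl⟩
  have hdel : S.δ • u ∈ EE nab br k := by
    rw [hu]
    exact EE_delta hS hG k
  rw [← hu]
  obtain ⟨I, hI⟩ : ∃ I : Ideal (Polynomial κ), ∀ p, p ∈ I ↔
      ∃ x ∈ EE nab br k, x ∈ H' ∧ nab x - p • u ∈ EE nab br k := by
    refine ⟨{ carrier := {p | ∃ x ∈ EE nab br k, x ∈ H' ∧ nab x - p • u ∈ EE nab br k}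
              add_mem' := ?_
              zero_mem' := ?_
              smul_mem' := ?_ }, fun p => Iff.rfl⟩
    · rintro p q ⟨x, hx, hx', hxp⟩ ⟨y, hy, hy', hyq⟩
      refine ⟨x + y, Submodule.add_mem _ hx hy, Submodule.add_mem _ hx' hy', ?_⟩
      have e : nab (x + y) - (p + q) • u = (nab x - p • u) + (nab y - q • u) := by
        rw [map_add, add_smul]
        abel
      rw [e]
      exact Submodule.add_mem _ hxp hyq
    · refine ⟨0, Submodule.zero_mem _, Submodule.zero_mem _, ?_⟩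
      rw [map_zero, zero_smul, sub_zero]
      exact Submodule.zero_mem _
    · rintro a p ⟨x, hx, hx', hxp⟩
      refine ⟨a • x, Submodule.smul_mem _ _ hx, galc_tower a hx', ?_⟩
      have e : nab (a • x) - (a • p) • u = Polynomial.derivative a • x + a • (nab x - p • u) := by
        rw [galc_nab hG, smul_eq_mul, mul_smul, smul_sub]
        abel
      rw [e]
      exact Submodule.add_mem _ (Submodule.smul_mem _ _ hx) (Submodule.smul_mem _ _ hxp)
  obtain ⟨g, hg⟩ : ∃ g : Polynomial κ, ∀ a, a ∈ I ↔ g ∣ a := by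
    obtain ⟨g, hg⟩ := (IsPrincipalIdealRing.principal I).principal
    refine ⟨g, fun a => ?_⟩
    rw [hg]
    exact Ideal.mem_span_singleton
  have hgδ : g ∣ S.δ := by
    rw [← hg, hI]
    refine ⟨0, Submodule.zero_mem _, Submodule.zero_mem _, ?_⟩
    rw [map_zero, zero_sub]
    exact Submodule.neg_mem _ hdel
  by_cases hgu : IsUnit g
  · exfalso
    apply hne
    have h1 : (1 : Polynomial κ) ∈ I := (hg 1).2 hgu.dvd
    obtain ⟨x₀, hx₀, hx₀', hx₀p⟩ := (hI 1).1 h1
    rw [one_smul] at hx₀p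
    refine no_lattice hn hS hG k H' hle hst (fun x hx hxH => ?_)
    obtain ⟨p, hp⟩ := EE_succ hS hG k (nab x) (EE_nab hG k x hx)
    rw [← hu] at hp
    have hm : p • nab x₀ ∈ H' := galc_tower _ (hst x₀ hx₀')
    refine ⟨nab x - p • nab x₀, ?_, ?_, by rw [sub_sub_cancel]; exact hm⟩
    · have e : nab x - p • nab x₀ = (nab x - p • u) - p • (nab x₀ - u) := by
        rw [smul_sub]
        abel
      rw [e]
      exact Submodule.sub_mem _ hp (Submodule.smul_mem _ _ hx₀p)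
    · exact Submodule.sub_mem _ (Hprim_nab hG x hxH) (hle hm)
  · have hg0 : g ≠ 0 := by
      intro h0
      rw [h0, zero_dvd_iff] at hgδ
      exact hS.sep.ne_zero hgδ
    have hdeg : g.degree ≠ 0 := by
      intro h0
      exact hgu (Polynomial.isUnit_iff_degree_eq_zero.2 h0)
    obtain ⟨τ, hτ⟩ := IsAlgClosed.exists_root g hdeg
    refine ⟨τ, hτ.dvd hgδ, fun x hx hx' p hp => ?_⟩
    have h2 : g ∣ p := (hg p).1 ((hI p).2 ⟨x, hx, hx', hp⟩)
    exact hτ.dvd h2

theorem ann_gen (hn : 0 < n) (hS : S.Ok) (hG : IsGM S nab br) (hwd : ∑ i, S.w i < S.d)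
    (hne : Hprim S nab br ≠ ⊥) (k : ℕ) : ∃ g : Polynomial κ, ¬ IsUnit g ∧ g ∣ S.δ ∧
      ∀ a : Polynomial κ, a • lv nab br (k + 1) (1 : MvPolynomial (Fin n) κ) ∈ EE nab br k ↔
        g ∣ a := by
  obtain ⟨u, hu⟩ : ∃ u : H, u = lv nab br (k + 1) (1 : MvPolynomial (Fin n) κ) := ⟨_, rfl⟩
  have hdel : S.δ • u ∈ EE nab br k := by
    rw [hu]
    exact EE_delta hS hG k
  rw [← hu]
  have hu_not : u ∉ EE nab br k := by
    intro hcon
    have h1 := no_lattice hn hS hG k ⊥ bot_le (fun h hh => by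
      rw [Submodule.mem_bot] at hh
      rw [hh, map_zero]
      exact Submodule.zero_mem _) (fun x hx hx' => ⟨nab x, by
        obtain ⟨p, hp⟩ := EE_succ hS hG k (nab x) (EE_nab hG k x hx)
        rw [← hu] at hp
        have h1 := Submodule.add_mem _ hp (Submodule.smul_mem _ p hcon)
        rwa [sub_add_cancel] at h1, Hprim_nab hG x hx', by
        rw [sub_self]
        exact Submodule.zero_mem _⟩)
    exact hne h1.symm
  obtain ⟨I, hI⟩ : ∃ I : Ideal (Polynomial κ), ∀ a, a ∈ I ↔ a • u ∈ EE nab br k :=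
    ⟨(EE nab br k).comap (LinearMap.toSpanSingleton (Polynomial κ) H u), fun a => by
      rw [Submodule.mem_comap, LinearMap.toSpanSingleton_apply]⟩
  obtain ⟨g, hg⟩ : ∃ g : Polynomial κ, ∀ a, a • u ∈ EE nab br k ↔ g ∣ a := by
    obtain ⟨g, hg⟩ := (IsPrincipalIdealRing.principal I).principal
    refine ⟨g, fun a => ?_⟩
    rw [← hI, hg]
    exact Ideal.mem_span_singleton
  refine ⟨g, ?_, (hg _).1 hdel, hg⟩
  intro h
  apply hu_not
  have h1 := (hg 1).2 h.dvd
  rwa [one_smul] at h1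

end MPadcHM
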