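import Pool.Agent.Lib.MP_adc574_ag_HM.IrrA

/-!
# JOB SplB: from the lattice `EE k` to the lattice `EE 0`

`u = [1]_{k+1}`; `hAnn`: `a • u ∈ EE k → δ ∣ a`.
* `EE_down`: `y ∈ EE (j+1)`, `j + 1 ≤ k`, `nab^[k-j] y ∈ EE k` imply `y ∈ EE j`. `y = y' + p • [1]_{j+1}`, `y' ∈ EE j` (`EE_succ`). `nab^[i] (EE j) ⊂ EE (j + i)` (`EE_nab`), `EE` is monotone, so `nab^[k-j] y' ∈ EE k`. And modulo `EE k`
  `nab^[i] (p • [1]_{j+1}) ≡ p • nab^[i] [1]_{j+1}` for `i = k - j`: more precisely for every `i` `nab^[i] (p • [1]_{j+1}) - (∏_{s<i} (j + 2 + s)) p • [1]_{j+1+i} ∈ EE (j + i)` (induction on `i`: `nab (c p • [1]_{j+1+i}) = c p' • [1]_{j+1+i} + c (j+2+i) p • [1]_{j+2+i}`, `nab_lv`, and `c p' • [1]_{j+1+i} ∈ EE (j+i+1)`).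
  For `i = k - j`: `j + 1 + i = k + 1`, so `c p • u ∈ EE k` with `c = (j+2)⋯(k+1) ≠ 0` in `κ`; so `δ ∣ p` and `p • [1]_{j+1} ∈ EE j` (`EE_delta`).
* `split_down`: `x ∈ EE 0 ∩ Hprim`. `nab^[i] x ∈ EE i ⊂ EE k` for `i ≤ k`, in `Hprim` (`Hprim_nab`), so `nab^[i] (e x) = e (nab^[i] x) ∈ EE k` (`h0`) for `i ≤ k`. By `EE_down` for `j = k-1, …, 0`: `e x ∈ EE 0` (decreasing induction on `j`: `e x ∈ EE j`).
-/

set_option autoImplicit false

namespace MPadcHM

open MvPolynomial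

universe u

variable {κ : Type u} [Field κ] [CharZero κ] {n : ℕ} {S : Dat κ n} {H : Type u} [AddCommGroup H]
  [Module (RatFunc κ) H] [Module κ H] [IsScalarTower κ (RatFunc κ) H] [Module (Polynomial κ) H]
  [IsScalarTower (Polynomial κ) (RatFunc κ) H] [IsScalarTower κ (Polynomial κ) H]
  {nab : H →ₗ[κ] H} {br : MvPolynomial (Fin n) κ →ₗ[κ] H}

private theorem splb_mono {i k : ℕ} (h : i ≤ k) : EE nab br i ≤ EE nab br k := by
  apply Submodule.span_mono
  rintro x ⟨j, e, hj, rfl⟩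
  exact ⟨j, e, hj.trans h, rfl⟩

private theorem splb_iter (hG : IsGM S nab br) (j i : ℕ) (x : H) (hx : x ∈ EE nab br j) :
    (nab^[i]) x ∈ EE nab br (j + i) := by
  induction i with
  | zero => exact hx
  | succ i ih =>
    rw [Function.iterate_succ_apply']
    exact EE_nab hG (j + i) _ ih

private theorem splb_leib (hG : IsGM S nab br) (p : Polynomial κ) (x : H) :
    nab (p • x) = Polynomial.derivative p • x + p • nab x := by
  rw [← algebraMap_smul (RatFunc κ) p x, hG.leib, DK_poly, algebraMap_smul, algebraMap_smul]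

private theorem splb_top (hG : IsGM S nab br) (j i : ℕ) (p : Polynomial κ) :
    ∃ c : κ, c ≠ 0 ∧ (nab^[i]) (p • lv nab br (j + 1) (1 : MvPolynomial (Fin n) κ)) -
      (Polynomial.C c * p) • lv nab br (j + 1 + i) (1 : MvPolynomial (Fin n) κ) ∈
        EE nab br (j + i) := by
  induction i with
  | zero =>
    refine ⟨1, one_ne_zero, ?_⟩
    rw [Polynomial.C_1, one_mul]
    have : (nab^[0]) (p • lv nab br (j + 1) (1 : MvPolynomial (Fin n) κ)) =
      p • lv nab br (j + 1) (1 : MvPolynomial (Fin n) κ) := rfl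
    rw [this]
    have e : p • lv nab br (j + 1) (1 : MvPolynomial (Fin n) κ) -
        p • lv nab br (j + 1 + 0) (1 : MvPolynomial (Fin n) κ) = 0 := sub_self _
    rw [e]
    exact Submodule.zero_mem _
  | succ i ih =>
    obtain ⟨c, hc, hz⟩ := ih
    have hne : (((j + 1 + i : ℕ) : κ) + 1) ≠ 0 := by exact_mod_cast Nat.succ_ne_zero (j + 1 + i)
    refine ⟨c * (((j + 1 + i : ℕ) : κ) + 1), mul_ne_zero hc hne, ?_⟩
    rw [Function.iterate_succ_apply']
    obtain ⟨y, hy⟩ : ∃ y : H, y = (nab^[i]) (p • lv nab br (j + 1) (1 : MvPolynomial (Fin n) κ)) :=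
      ⟨_, rfl⟩
    rw [← hy] at hz ⊢
    obtain ⟨L, hL⟩ : ∃ L : H, L = lv nab br (j + 1 + i) (1 : MvPolynomial (Fin n) κ) := ⟨_, rfl⟩
    have hnL : nab L = (((j + 1 + i : ℕ) : κ) + 1) •
        lv nab br (j + 1 + (i + 1)) (1 : MvPolynomial (Fin n) κ) := by
      rw [hL]; exact nab_lv (j + 1 + i) _
    rw [← hL] at hz
    have h1 := EE_nab hG (j + i) _ hz
    have h2 : Polynomial.derivative (Polynomial.C c * p) • L ∈ EE nab br (j + (i + 1)) := by
      apply Submodule.smul_mem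
      rw [hL]
      exact EE_mem (j + (i + 1)) (j + 1 + i) (by omega) _
    rw [map_sub, splb_leib hG, hnL] at h1
    have e1 : (Polynomial.C c * p) • (((j + 1 + i : ℕ) : κ) + 1) •
        lv nab br (j + 1 + (i + 1)) (1 : MvPolynomial (Fin n) κ) =
        (Polynomial.C (c * (((j + 1 + i : ℕ) : κ) + 1)) * p) •
          lv nab br (j + 1 + (i + 1)) (1 : MvPolynomial (Fin n) κ) := by
      rw [← finab_C (((j + 1 + i : ℕ) : κ) + 1), smul_smul, Polynomial.C_mul]
      congr 1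
      ring
    rw [e1] at h1
    have e2 : nab y - (Polynomial.C (c * (((j + 1 + i : ℕ) : κ) + 1)) * p) •
          lv nab br (j + 1 + (i + 1)) (1 : MvPolynomial (Fin n) κ) =
        (nab y - (Polynomial.derivative (Polynomial.C c * p) • L +
          (Polynomial.C (c * (((j + 1 + i : ℕ) : κ) + 1)) * p) •
          lv nab br (j + 1 + (i + 1)) (1 : MvPolynomial (Fin n) κ))) +
        Polynomial.derivative (Polynomial.C c * p) • L := by abel
    rw [e2]
    exact Submodule.add_mem _ h1 h2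

theorem EE_down (hS : S.Ok) (hG : IsGM S nab br) (k : ℕ)
    (hAnn : ∀ a : Polynomial κ, a • lv nab br (k + 1) (1 : MvPolynomial (Fin n) κ) ∈
      EE nab br k → S.δ ∣ a) (j : ℕ) (hj : j + 1 ≤ k) (y : H) (hy : y ∈ EE nab br (j + 1))
    (hy' : (nab^[k - j]) y ∈ EE nab br k) : y ∈ EE nab br j := by
  obtain ⟨p, hp⟩ := EE_succ hS hG j y hy
  obtain ⟨c, hc, hz⟩ := splb_top (nab := nab) (br := br) hG j (k - j) p
  have e0 : j + (k - j) = k := by omega
  have e1 : j + 1 + (k - j) = k + 1 := by omega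
  rw [e0, e1] at hz
  have h1 := splb_iter hG j (k - j) _ hp
  rw [e0, iterate_map_sub] at h1
  have h2 : (Polynomial.C c * p) • lv nab br (k + 1) (1 : MvPolynomial (Fin n) κ) ∈
      EE nab br k := by
    have h3 := Submodule.sub_mem _ (Submodule.sub_mem _ hy' h1) hz
    rw [sub_sub_cancel, sub_sub_cancel] at h3
    exact h3
  obtain ⟨s, hs⟩ := hAnn _ h2
  have h4 : p = S.δ * (Polynomial.C c⁻¹ * s) := by
    have h5 : Polynomial.C c⁻¹ * (Polynomial.C c * p) = p := by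
      rw [← mul_assoc, ← Polynomial.C_mul, inv_mul_cancel₀ hc, Polynomial.C_1, one_mul]
    rw [← h5, hs]
    ring
  have h6 : p • lv nab br (j + 1) (1 : MvPolynomial (Fin n) κ) ∈ EE nab br j := by
    rw [h4, mul_comm, mul_smul]
    exact Submodule.smul_mem _ _ (EE_delta hS hG j)
  have h7 := Submodule.add_mem _ hp h6
  rwa [sub_add_cancel] at h7

theorem split_down (hS : S.Ok) (hG : IsGM S nab br) (k : ℕ)
    (hAnn : ∀ a : Polynomial κ, a • lv nab br (k + 1) (1 : MvPolynomial (Fin n) κ) ∈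
      EE nab br k → S.δ ∣ a)
    (e : H →ₗ[RatFunc κ] H) (he : ∀ x ∈ Hprim S nab br, e x ∈ Hprim S nab br)
    (hcomm : ∀ x ∈ Hprim S nab br, nab (e x) = e (nab x))
    (h0 : ∀ x ∈ EE nab br k, x ∈ Hprim S nab br → e x ∈ EE nab br k) (x : H)
    (hx : x ∈ EE nab br 0) (hx' : x ∈ Hprim S nab br) : e x ∈ EE nab br 0 := by
  have hit : ∀ m : ℕ, (nab^[m]) x ∈ Hprim S nab br ∧ (nab^[m]) (e x) = e ((nab^[m]) x) := by
    intro m
    induction m with
    | zero => exact ⟨hx', rfl⟩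
    | succ m ih =>
      rw [Function.iterate_succ_apply', Function.iterate_succ_apply', ih.2]
      exact ⟨Hprim_nab hG _ ih.1, hcomm _ ih.1⟩
  have hk : ∀ m : ℕ, m ≤ k → (nab^[m]) (e x) ∈ EE nab br k := by
    intro m hm
    rw [(hit m).2]
    refine h0 _ ?_ (hit m).1
    have h1 := splb_iter hG 0 m x hx
    exact splb_mono (by omega) h1
  have key : ∀ i : ℕ, i ≤ k → e x ∈ EE nab br (k - i) := by
    intro i
    induction i with
    | zero => intro _; exact hk 0 (Nat.zero_le _)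
    | succ i ih =>
      intro hi
      have h1 := ih (by omega)
      have e1 : k - i = (k - (i + 1)) + 1 := by omega
      rw [e1] at h1
      exact EE_down hS hG k hAnn (k - (i + 1)) (by omega) (e x) h1 (hk _ (by omega))
  have h1 := key k le_rfl
  rwa [Nat.sub_self] at h1

end MPadcHM
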