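import Pool.Agent.Lib.MP_adc574_ag_HM.InfD

/-!
# JOB WA: the filtration at infinity in a Milnor basis

`InW S br U q x`: `x = ∑ u ∈ U, a_u • br (x^u)` with `d deg a_u + (wtp u - d) ≤ q` (`Bd d N x : x = 0 ∨ d * intDegree x ≤ N`). Hypothesis `hgen` = conclusion of `h_gen` (file MilC): `br P` for `P` of weight `≤ N` is a combination with `a u ∈ κ[t]`, `d natDegree + wt u ≤ N`.
* basic rules: sums (same `U`: add the coefficients, `Bd_add`), `κ`-multiples, monotone, `InW_mul`: `a ∈ K` with `d deg a ≤ m` maps `InW q` to `InW (q + m)` (`intDegree (a b) = intDegree a + intDegree b`, `RatFunc.intDegree_mul`).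
* `InW_br`: `br P ∈ W_q` if `wt e + ∑ w - d ≤ q` for the monomials of `P` (`hgen`; `RatFunc.intDegree_polynomial`: `intDegree (algebraMap p) = natDegree p`). The case `P = 0` is trivial.
* `InW_theta_step`: let `Θ x = X • nab x`. If `Θ` maps `W_q` to `W_{q+C}` for all `q` and `C ≥ 1` then also to `W_{q+C-1}`. For `u ∈ U` let `q_u = wtp u - d`. EU (`k = 0`, `lv_zero`, `nab_lv`): `d • Θ (br x^u) = (wtp u - d) • br x^u + nab (br (x^u ψ))`, and `nab (br (x^u ψ)) = X⁻¹ • Θ (br (x^u ψ))`, where
  `br (x^u ψ) ∈ W_{q_u + d - 1}` (`InW_br`, `psi_deg`: the monomials of `ψ` have weight `< d`), so `X⁻¹ • Θ (..) ∈ W_{q_u - 1 + C}` (`InW_mul`, `intDegree X⁻¹ = -1`). So `Θ (br x^u) ∈ W_{q_u + C - 1}` as `C ≥ 1` (`d` is invertible in `κ`). For `x = ∑ a_u • br x^u`: `Θ (a • y) = (X * DK a) • y + a • Θ y` (`hG.leib`), and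
  `deg (X * DK a) ≤ deg a` (`deg_DK`: see the bounds for `DK` in `InfD`, or prove: for `a = p / q` `DK a = (p' q - p q') / q²`).
* `InW_theta`: some `C` exists (`hgen`-type finiteness: every `Θ (br x^u)` is a `K`-combination of the `br x^u` by `hspan`), so by induction `C = 0` works, and then the same formula gives `Θ (br x^u) - (q_u / d) • br x^u ∈ W_{q_u - 1}`; for `x = a • br x^u` with `d deg a + q_u ≤ q`: `Θ x - (q / d) x =
  (X * DK a - ((q - q_u) / d) • a) • br x^u + a • (Θ (br x^u) - (q_u / d) • br x^u)`, and `deg (X * DK a - m • a) < deg a` if `m = deg a` (integer; leading coefficients cancel), so `d deg (..) + q_u ≤ q - 1` in all cases: if `d deg a + q_u = q` then `(q - q_u) / d = deg a`; if `d deg a + q_u ≤ q - 1` clear.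
* `InW_low`: `x ∈ EE 0` is `br P` for some... (the `κ[t]`-span of the `br x^e`): by `hgen` `x = ∑ a_u • br x^u` with `a_u ∈ κ[t]` (polynomials). By independence (`hli`) these are the coefficients in `InW (∑ w - d)`: `d deg a_u + wt u ≤ 0` for `a_u ≠ 0`, so `natDegree a_u = 0` and `wt u = 0`, `u = 0` (`w i > 0`): `x = c • br 1` (`monomial 0 1 = 1`).
-/

set_option autoImplicit false

namespace MPadcHM

open MvPolynomial

universe u

/-- The filtration at infinity. -/
def InW {κ : Type u} [Field κ] {n : ℕ} (S : Dat κ n) {H : Type u} [AddCommGroup H]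
    [Module (RatFunc κ) H] [Module κ H] (br : MvPolynomial (Fin n) κ →ₗ[κ] H)
    (U : Finset (Fin n →₀ ℕ)) (q : ℤ) (x : H) : Prop :=
  ∃ a : (Fin n →₀ ℕ) → RatFunc κ, (∀ u, Bd S.d (q - ((wtp S.w u : ℤ) - S.d)) (a u)) ∧
    x = ∑ u ∈ U, a u • br (monomial u 1)

section deg

variable {κ : Type u} [Field κ]

private theorem waa_frac {d : ℕ} {N : ℤ} (r s : Polynomial κ) (hs : s ≠ 0)
    (h : r ≠ 0 → (d : ℤ) * ((r.natDegree : ℤ) - s.natDegree) ≤ N) :
    Bd d N (algebraMap (Polynomial κ) (RatFunc κ) r / algebraMap (Polynomial κ) (RatFunc κ) s) := by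
  by_cases hr : r = 0
  · left
    rw [hr, map_zero, zero_div]
  · right
    have hr' : algebraMap (Polynomial κ) (RatFunc κ) r ≠ 0 :=
      (map_ne_zero_iff _ (RatFunc.algebraMap_injective κ)).2 hr
    have hs' : algebraMap (Polynomial κ) (RatFunc κ) s ≠ 0 :=
      (map_ne_zero_iff _ (RatFunc.algebraMap_injective κ)).2 hs
    rw [RatFunc.intDegree_div hr' hs', RatFunc.intDegree_polynomial, RatFunc.intDegree_polynomial]
    exact h hr

private theorem waa_DK (p q : Polynomial κ) (hq : q ≠ 0) (c : κ) :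
    RatFunc.X * DK κ (algebraMap (Polynomial κ) (RatFunc κ) p /
      algebraMap (Polynomial κ) (RatFunc κ) q) - c • (algebraMap (Polynomial κ) (RatFunc κ) p /
      algebraMap (Polynomial κ) (RatFunc κ) q) =
    algebraMap (Polynomial κ) (RatFunc κ) (Polynomial.X * Polynomial.derivative p * q -
      p * (Polynomial.X * Polynomial.derivative q) - Polynomial.C c * p * q) /
      algebraMap (Polynomial κ) (RatFunc κ) (q * q) := by
  have hq' : algebraMap (Polynomial κ) (RatFunc κ) q ≠ 0 :=
    (map_ne_zero_iff _ (RatFunc.algebraMap_injective κ)).2 hq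
  have hc : ∀ y : RatFunc κ, c • y = RatFunc.C c * y := fun y => by
    rw [Algebra.smul_def, RatFunc.algebraMap_eq_C]
  rw [Derivation.leibniz_div, DK_poly, DK_poly, hc]
  simp only [map_sub, map_mul, RatFunc.algebraMap_X, RatFunc.algebraMap_C, smul_eq_mul]
  field_simp

private theorem waa_exists (x : RatFunc κ) (hx : x ≠ 0) : ∃ p q : Polynomial κ, p ≠ 0 ∧ q ≠ 0 ∧
    x = algebraMap (Polynomial κ) (RatFunc κ) p / algebraMap (Polynomial κ) (RatFunc κ) q ∧
    x.intDegree = (p.natDegree : ℤ) - q.natDegree :=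
  ⟨x.num, x.denom, RatFunc.num_ne_zero hx, x.denom_ne_zero, (RatFunc.num_div_denom x).symm, rfl⟩

private theorem waa_xder (p : Polynomial κ) (m : ℕ) :
    (Polynomial.X * Polynomial.derivative p).coeff m = (m : κ) * p.coeff m := by
  cases m with
  | zero => simp
  | succ k =>
    rw [Polynomial.coeff_X_mul, Polynomial.coeff_derivative]
    push_cast
    ring

private theorem waa_deg (p : Polynomial κ) :
    (Polynomial.X * Polynomial.derivative p).degree ≤ p.degree := by
  rw [Polynomial.degree_le_iff_coeff_zero]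
  intro m hm
  rw [waa_xder, Polynomial.coeff_eq_zero_of_degree_lt hm, mul_zero]

private theorem waa_lead (p : Polynomial κ) (hp : p ≠ 0) :
    (Polynomial.X * Polynomial.derivative p - Polynomial.C (p.natDegree : κ) * p).degree <
      p.degree := by
  rw [Polynomial.degree_eq_natDegree hp, Polynomial.degree_lt_iff_coeff_zero]
  intro m hm
  rw [Polynomial.coeff_sub, waa_xder, Polynomial.coeff_C_mul]
  rcases hm.eq_or_lt with h | h
  · rw [← h, sub_self]
  · rw [Polynomial.coeff_eq_zero_of_natDegree_lt h, mul_zero, mul_zero, sub_zero]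

theorem Bd_mul {d : ℕ} {N N' : ℤ} {x y : RatFunc κ} (hx : Bd d N x) (hy : Bd d N' y) :
    Bd d (N + N') (x * y) := by
  by_cases hx0 : x = 0
  · left
    rw [hx0, zero_mul]
  by_cases hy0 : y = 0
  · left
    rw [hy0, mul_zero]
  right
  rw [RatFunc.intDegree_mul hx0 hy0, mul_add]
  exact add_le_add (hx.resolve_left hx0) (hy.resolve_left hy0)

theorem Bd_poly {d : ℕ} (p : Polynomial κ) :
    Bd d ((d : ℤ) * p.natDegree) (algebraMap (Polynomial κ) (RatFunc κ) p) := by
  right
  rw [RatFunc.intDegree_polynomial]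

theorem Bd_DK {d : ℕ} {N : ℤ} {x : RatFunc κ} (hx : Bd d N x) :
    Bd d N (RatFunc.X * DK κ x) := by
  by_cases hx0 : x = 0
  · left
    rw [hx0, map_zero, mul_zero]
  obtain ⟨p, q, hp, hq, hpq, hdeg⟩ := waa_exists x hx0
  have h1 := hx.resolve_left hx0
  rw [hdeg] at h1
  have h2 := waa_DK p q hq 0
  rw [zero_smul, sub_zero, ← hpq] at h2
  rw [h2]
  refine waa_frac _ _ (mul_ne_zero hq hq) fun hR => ?_
  have h3 : (Polynomial.X * Polynomial.derivative p * q -
      p * (Polynomial.X * Polynomial.derivative q) - Polynomial.C 0 * p * q).degree ≤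
      (p * q).degree := by
    rw [Polynomial.C_0, zero_mul, zero_mul, sub_zero]
    refine (Polynomial.degree_sub_le _ _).trans (max_le ?_ ?_)
    · rw [Polynomial.degree_mul, Polynomial.degree_mul (p := p)]
      exact add_le_add (waa_deg p) le_rfl
    · rw [Polynomial.degree_mul, Polynomial.degree_mul (p := p)]
      exact add_le_add le_rfl (waa_deg q)
  have h4 := Polynomial.natDegree_le_natDegree h3
  rw [Polynomial.natDegree_mul hp hq] at h4
  rw [Polynomial.natDegree_mul hq hq]
  refine le_trans (mul_le_mul_of_nonneg_left ?_ (Int.natCast_nonneg d)) h1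
  push_cast
  omega

/-- The leading terms cancel. -/
theorem Bd_euler [CharZero κ] {d : ℕ} (hd : 0 < d) {N : ℤ} {x : RatFunc κ} (hx : Bd d N x) :
    Bd d (N - 1) (RatFunc.X * DK κ x - ((N : κ) / d) • x) := by
  by_cases hx0 : x = 0
  · left
    rw [hx0, map_zero, mul_zero, smul_zero, sub_zero]
  have h1 := hx.resolve_left hx0
  rcases h1.eq_or_lt with h | h
  · obtain ⟨p, q, hp, hq, hpq, hdeg⟩ := waa_exists x hx0
    have hd' : (d : κ) ≠ 0 := by exact_mod_cast hd.ne'
    have hc : (N : κ) / d = (p.natDegree : κ) - q.natDegree := by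
      rw [← h, hdeg]
      push_cast
      field_simp
    have h2 := waa_DK p q hq ((N : κ) / d)
    rw [← hpq] at h2
    rw [h2]
    refine waa_frac _ _ (mul_ne_zero hq hq) fun hR => ?_
    have h5 : Polynomial.X * Polynomial.derivative p * q -
        p * (Polynomial.X * Polynomial.derivative q) - Polynomial.C ((N : κ) / d) * p * q =
        (Polynomial.X * Polynomial.derivative p - Polynomial.C (p.natDegree : κ) * p) * q -
        p * (Polynomial.X * Polynomial.derivative q - Polynomial.C (q.natDegree : κ) * q) := by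
      rw [hc, Polynomial.C_sub]
      ring
    rw [h5] at hR ⊢
    have h3 : ((Polynomial.X * Polynomial.derivative p - Polynomial.C (p.natDegree : κ) * p) * q -
        p * (Polynomial.X * Polynomial.derivative q - Polynomial.C (q.natDegree : κ) * q)).degree <
        (p * q).degree := by
      refine lt_of_le_of_lt (Polynomial.degree_sub_le _ _) (max_lt ?_ ?_)
      · rw [Polynomial.degree_mul, Polynomial.degree_mul (p := p)]
        exact WithBot.add_lt_add_right (Polynomial.degree_ne_bot.2 hq) (waa_lead p hp)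
      · rw [Polynomial.degree_mul, Polynomial.degree_mul (p := p)]
        exact WithBot.add_lt_add_left (Polynomial.degree_ne_bot.2 hp) (waa_lead q hq)
    have h4 := Polynomial.natDegree_lt_natDegree hR h3
    rw [Polynomial.natDegree_mul hp hq] at h4
    rw [Polynomial.natDegree_mul hq hq]
    generalize hr : ((Polynomial.X * Polynomial.derivative p - Polynomial.C (p.natDegree : κ) * p) * q -
        p * (Polynomial.X * Polynomial.derivative q - Polynomial.C (q.natDegree : κ) * q)).natDegree = r at h4 ⊢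
    have h6 : (r : ℤ) - ((q.natDegree + q.natDegree : ℕ) : ℤ) ≤ x.intDegree - 1 := by
      rw [hdeg]
      push_cast
      omega
    have h7 := mul_le_mul_of_nonneg_left h6 (Int.natCast_nonneg d)
    have h9 : (d : ℤ) * (x.intDegree - 1) = N - d := by rw [mul_sub, h, mul_one]
    have h8 : (1 : ℤ) ≤ d := by exact_mod_cast hd
    linarith
  · have e : RatFunc.X * DK κ x - ((N : κ) / d) • x =
        RatFunc.X * DK κ x + (-((N : κ) / d)) • x := by
      rw [neg_smul]
      ring
    rw [e]
    exact Bd_add (Bd_DK (Or.inr (by omega))) (Bd_smul _ (Or.inr (by omega)))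

end deg

variable {κ : Type u} [Field κ] [CharZero κ] {n : ℕ} {S : Dat κ n} {H : Type u} [AddCommGroup H]
  [Module (RatFunc κ) H] [Module κ H] [IsScalarTower κ (RatFunc κ) H] {nab : H →ₗ[κ] H}
  {br : MvPolynomial (Fin n) κ →ₗ[κ] H} {U : Finset (Fin n →₀ ℕ)}

theorem InW_add {q : ℤ} {x y : H} (hx : InW S br U q x) (hy : InW S br U q y) :
    InW S br U q (x + y) := by
  obtain ⟨a, ha, rfl⟩ := hx
  obtain ⟨b, hb, rfl⟩ := hy
  refine ⟨fun u => a u + b u, fun u => Bd_add (ha u) (hb u), ?_⟩
  rw [← Finset.sum_add_distrib]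
  exact Finset.sum_congr rfl fun u _ => (add_smul _ _ _).symm

theorem InW_zero (q : ℤ) : InW S br U q (0 : H) := by
  refine ⟨fun _ => 0, fun u => Or.inl rfl, ?_⟩
  simp only [zero_smul, Finset.sum_const_zero]

theorem InW_mono {q q' : ℤ} (h : q ≤ q') {x : H} (hx : InW S br U q x) : InW S br U q' x := by
  obtain ⟨a, ha, rfl⟩ := hx
  exact ⟨a, fun u => Bd_mono (ha u) (by linarith), rfl⟩

theorem InW_smul {q : ℤ} (a : κ) {x : H} (hx : InW S br U q x) : InW S br U q (a • x) := by
  obtain ⟨b, hb, rfl⟩ := hx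
  refine ⟨fun u => a • b u, fun u => Bd_smul a (hb u), ?_⟩
  rw [Finset.smul_sum]
  exact Finset.sum_congr rfl fun u _ => (smul_assoc _ _ _).symm

theorem InW_sub {q : ℤ} {x y : H} (hx : InW S br U q x) (hy : InW S br U q y) :
    InW S br U q (x - y) := by
  have h := InW_add hx (InW_smul (-1 : κ) hy)
  rwa [neg_smul, one_smul, ← sub_eq_add_neg] at h

theorem InW_mul {q m : ℤ} {a : RatFunc κ} (ha : Bd S.d m a) {x : H} (hx : InW S br U q x) :
    InW S br U (q + m) (a • x) := by
  obtain ⟨b, hb, rfl⟩ := hx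
  refine ⟨fun u => a * b u, fun u => Bd_mono (Bd_mul ha (hb u)) (by linarith), ?_⟩
  rw [Finset.smul_sum]
  exact Finset.sum_congr rfl fun u _ => (mul_smul _ _ _).symm

variable (hgen : ∀ (P : MvPolynomial (Fin n) κ) (N : ℕ), (∀ e ∈ P.support, wt S.w e ≤ N) →
  ∃ a : (Fin n →₀ ℕ) → Polynomial κ, (∀ u, a u ≠ 0 → S.d * (a u).natDegree + wt S.w u ≤ N) ∧
    br P = ∑ u ∈ U, algebraMap (Polynomial κ) (RatFunc κ) (a u) • br (monomial u 1))

include hgen in
theorem InW_br (P : MvPolynomial (Fin n) κ) (q : ℤ)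
    (hP : ∀ e ∈ P.support, (wtp S.w e : ℤ) - S.d ≤ q) : InW S br U q (br P) := by
  rcases P.support.eq_empty_or_nonempty with h0 | ⟨e0, he0⟩
  · rw [MvPolynomial.support_eq_empty.1 h0, map_zero]
    exact InW_zero q
  · have hW : ∀ e, (wtp S.w e : ℤ) = wt S.w e + ((∑ i, S.w i : ℕ) : ℤ) := by
      intro e
      rw [wtp_eq]
      push_cast
      ring
    have h1 : ∀ e ∈ P.support, (wt S.w e : ℤ) ≤ q + S.d - ((∑ i, S.w i : ℕ) : ℤ) := by
      intro e he
      have h2 := hP e he
      rw [hW] at h2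
      linarith
    have h3 := h1 e0 he0
    obtain ⟨N, hN⟩ := Int.eq_ofNat_of_zero_le
      (show 0 ≤ q + S.d - ((∑ i, S.w i : ℕ) : ℤ) from (Int.natCast_nonneg _).trans h3)
    rw [hN] at h1
    obtain ⟨a, ha1, ha2⟩ := hgen P N (fun e he => by
      have := h1 e he
      exact_mod_cast this)
    refine ⟨fun u => algebraMap (Polynomial κ) (RatFunc κ) (a u), fun u => ?_, ha2⟩
    by_cases hu : a u = 0
    · left
      show algebraMap (Polynomial κ) (RatFunc κ) (a u) = 0
      rw [hu, map_zero]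
    · right
      show (S.d : ℤ) * (algebraMap (Polynomial κ) (RatFunc κ) (a u)).intDegree ≤ _
      rw [RatFunc.intDegree_polynomial, hW]
      have h4 := ha1 u hu
      have h5 : (S.d : ℤ) * (a u).natDegree + wt S.w u ≤ N := by exact_mod_cast h4
      linarith

private theorem wab_sum {ι : Type*} {q : ℤ} (T : Finset ι) (f : ι → H)
    (h : ∀ u ∈ T, InW S br U q (f u)) : InW S br U q (∑ u ∈ T, f u) :=
  Finset.sum_induction f (InW S br U q) (fun _ _ ha hb => InW_add ha hb) (InW_zero q) h

private theorem wab_wtp_add (w : Fin n → ℕ) (e b : Fin n →₀ ℕ) : wtp w (e + b) = wtp w e + wt w b := by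
  unfold wtp wt
  rw [← Finset.sum_add_distrib]
  refine Finset.sum_congr rfl fun i _ => ?_
  rw [Finsupp.add_apply]
  ring

omit [CharZero κ] in
private theorem wab_Xinv {d : ℕ} : Bd d (-(d : ℤ)) ((RatFunc.X : RatFunc κ)⁻¹) := by
  right
  rw [RatFunc.intDegree_inv, RatFunc.intDegree_X]
  linarith

include hgen in
theorem InW_exists (hG : IsGM S nab br) (x : H) : ∃ q : ℤ, InW S br U q x := by
  have hx : x ∈ Submodule.span (RatFunc κ) (Set.range br) := by
    rw [hG.span]
    trivial
  induction hx using Submodule.span_induction with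
  | mem x hx =>
    obtain ⟨P, rfl⟩ := hx
    refine ⟨∑ e ∈ P.support, |(wtp S.w e : ℤ) - S.d|, InW_br hgen P _ fun e he => ?_⟩
    refine (le_abs_self _).trans ?_
    exact Finset.single_le_sum (f := fun e => |(wtp S.w e : ℤ) - S.d|) (fun _ _ => abs_nonneg _) he
  | zero => exact ⟨0, InW_zero 0⟩
  | add x y _ _ hx hy =>
    obtain ⟨q, hq⟩ := hx
    obtain ⟨q', hq'⟩ := hy
    exact ⟨max q q', InW_add (InW_mono (le_max_left _ _) hq) (InW_mono (le_max_right _ _) hq')⟩
  | smul a x _ hx =>
    obtain ⟨q, hq⟩ := hx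
    exact ⟨q + S.d * a.intDegree, InW_mul (Or.inr le_rfl) hq⟩

include hgen in
private theorem wab_mon (u : Fin n →₀ ℕ) :
    InW S br U ((wtp S.w u : ℤ) - S.d) (br (monomial u 1)) := by
  refine InW_br hgen _ _ fun e he => ?_
  classical
  rw [mem_support_iff, coeff_monomial] at he
  by_cases h : u = e
  · rw [h]
  · rw [if_neg h] at he
    exact absurd rfl he

include hgen in
private theorem wab_theta (hS : S.Ok) (hG : IsGM S nab br) (C : ℤ) (hC : 1 ≤ C)
    (h : ∀ (q : ℤ) (x : H), InW S br U q x →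
      InW S br U (q + C) ((RatFunc.X : RatFunc κ) • nab x)) (u : Fin n →₀ ℕ) :
    InW S br U ((wtp S.w u : ℤ) - S.d + C - 1)
      ((RatFunc.X : RatFunc κ) • nab (br (monomial u 1))) := by
  have hd : (S.d : κ) ≠ 0 := by exact_mod_cast hS.d_pos.ne'
  have h1 := EU hG 0 u
  have h2 : ∀ P, lv nab br (0 + 1) P = nab (br P) := by
    intro P
    have h3 := nab_lv (nab := nab) (br := br) 0 P
    rw [lv_zero, Nat.cast_zero, zero_add, one_smul] at h3
    exact h3.symm
  rw [h2, h2, lv_zero, Nat.cast_zero, zero_add, one_mul, one_smul] at h1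
  -- the term with `ψ`
  have h4 : InW S br U ((wtp S.w u : ℤ) - S.d + S.d - 1) (br (monomial u 1 * S.psi)) := by
    refine InW_br hgen _ _ fun e' he' => ?_
    rw [mem_support_iff, coeff_monomial_mul'] at he'
    have hle : u ≤ e' := by
      by_contra hle
      rw [if_neg hle] at he'
      exact he' rfl
    rw [if_pos hle, one_mul] at he'
    obtain ⟨b, rfl⟩ := exists_add_of_le hle
    rw [add_tsub_cancel_left] at he'
    have h4 := psi_deg hS b (mem_support_iff.mpr he')
    have h5 := wab_wtp_add S.w u b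
    have h6 : (wtp S.w (u + b) : ℤ) + 1 ≤ wtp S.w u + S.d := by
      have : wtp S.w (u + b) + 1 ≤ wtp S.w u + S.d := by omega
      exact_mod_cast this
    linarith
  have h5 := InW_mul (wab_Xinv (κ := κ) (d := S.d)) (h _ _ h4)
  rw [smul_smul, inv_mul_cancel₀ RatFunc.X_ne_zero, one_smul] at h5
  have h6 : InW S br U ((wtp S.w u : ℤ) - S.d + C - 1) (nab (br (monomial u 1 * S.psi))) :=
    InW_mono (by linarith) h5
  have h7 : InW S br U ((wtp S.w u : ℤ) - S.d + C - 1)
      (((S.d : κ) - (wtp S.w u : κ)) • br (monomial u 1)) :=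
    InW_mono (by linarith) (InW_smul _ (wab_mon hgen u))
  have h8 := InW_smul ((S.d : κ)⁻¹) (InW_sub h6 h7)
  rw [← h1, smul_smul, inv_mul_cancel₀ hd, one_smul] at h8
  exact h8

include hgen in
theorem InW_theta_step (hn : 0 < n) (hS : S.Ok) (hG : IsGM S nab br) (C : ℤ) (hC : 1 ≤ C)
    (h : ∀ (q : ℤ) (x : H), InW S br U q x →
      InW S br U (q + C) ((RatFunc.X : RatFunc κ) • nab x)) (q : ℤ) (x : H)
    (hx : InW S br U q x) : InW S br U (q + C - 1) ((RatFunc.X : RatFunc κ) • nab x) := by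
  obtain ⟨a, ha, rfl⟩ := hx
  rw [map_sum, Finset.smul_sum]
  refine wab_sum U _ fun u _ => ?_
  rw [hG.leib, smul_add, smul_smul, smul_comm (RatFunc.X : RatFunc κ) (a u)]
  refine InW_add ?_ ?_
  · exact InW_mono (by linarith) (InW_mul (Bd_DK (ha u)) (wab_mon hgen u))
  · exact InW_mono (by linarith) (InW_mul (ha u) (wab_theta hgen hS hG C hC h u))

omit [CharZero κ] [IsScalarTower κ (RatFunc κ) H] in
private theorem wac_term {q : ℤ} {u : Fin n →₀ ℕ} (hu : u ∈ U) {a : RatFunc κ}
    (ha : Bd S.d (q - ((wtp S.w u : ℤ) - S.d)) a) :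
    InW S br U q (a • br (monomial u 1)) := by
  classical
  refine ⟨fun v => if v = u then a else 0, fun v => ?_, ?_⟩
  · beta_reduce
    by_cases hv : v = u
    · rw [if_pos hv, hv]
      exact ha
    · rw [if_neg hv]
      exact Or.inl rfl
  · rw [Finset.sum_eq_single u]
    · beta_reduce
      rw [if_pos rfl]
    · intro v _ hv
      beta_reduce
      rw [if_neg hv, zero_smul]
    · intro h
      exact absurd hu h

private theorem wac_sum {q : ℤ} (T : Finset (Fin n →₀ ℕ)) (f : (Fin n →₀ ℕ) → H)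
    (h : ∀ u ∈ T, InW S br U q (f u)) : InW S br U q (∑ u ∈ T, f u) :=
  Finset.sum_induction f (InW S br U q) (fun _ _ ha hb => InW_add ha hb) (InW_zero q) h

private theorem wac_EU (hG : IsGM S nab br) (e : Fin n →₀ ℕ) :
    (S.d : κ) • (RatFunc.X : RatFunc κ) • nab (br (monomial e 1)) =
      nab (br (monomial e 1 * S.psi)) + ((wtp S.w e : κ) - S.d) • br (monomial e 1) := by
  have h1 := EU hG 0 e
  have h2 := nab_lv (nab := nab) (br := br) 0 (monomial e (1 : κ))
  have h3 := nab_lv (nab := nab) (br := br) 0 (monomial e (1 : κ) * S.psi)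
  rw [lv_zero, Nat.cast_zero, zero_add, one_smul] at h2 h3
  rw [Nat.cast_zero, zero_add, one_mul, one_smul, zero_add, lv_zero, ← h2, ← h3] at h1
  rw [h1, sub_eq_add_neg, ← neg_smul, neg_sub]

omit [CharZero κ] [IsScalarTower κ (RatFunc κ) H] in
private theorem wac_leib (hG : IsGM S nab br) (a : RatFunc κ) (y : H) :
    (RatFunc.X : RatFunc κ) • nab (a • y) =
      ((RatFunc.X : RatFunc κ) * DK κ a) • y + a • (RatFunc.X : RatFunc κ) • nab y := by
  rw [hG.leib, smul_add, smul_smul, smul_smul, smul_smul, mul_comm a]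

omit [CharZero κ] [IsScalarTower κ (RatFunc κ) H] in
private theorem wac_Xinv : Bd S.d (-(S.d : ℤ)) ((RatFunc.X : RatFunc κ)⁻¹) := by
  right
  rw [RatFunc.intDegree_inv, RatFunc.intDegree_X]
  linarith

include hgen in
private theorem wac_psi (hS : S.Ok) (u : Fin n →₀ ℕ) :
    InW S br U ((wtp S.w u : ℤ) - S.d + (S.d - 1)) (br (monomial u 1 * S.psi)) := by
  refine InW_br hgen _ _ fun e he => ?_
  rw [mem_support_iff, coeff_monomial_mul'] at he
  have hle : u ≤ e := by
    by_contra hle
    rw [if_neg hle] at he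
    exact he rfl
  rw [if_pos hle, one_mul] at he
  obtain ⟨b, rfl⟩ := exists_add_of_le hle
  rw [add_tsub_cancel_left] at he
  have h4 := psi_deg hS b (mem_support_iff.mpr he)
  have h5 : wtp S.w (u + b) = wtp S.w u + wt S.w b := by
    unfold wtp wt
    rw [← Finset.sum_add_distrib]
    refine Finset.sum_congr rfl fun i _ => ?_
    rw [Finsupp.add_apply]
    ring
  have h6 : (wtp S.w (u + b) : ℤ) + 1 ≤ wtp S.w u + S.d := by
    have : wtp S.w (u + b) + 1 ≤ wtp S.w u + S.d := by omega
    exact_mod_cast this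
  linarith

include hgen in
private theorem wac_bound (hG : IsGM S nab br) :
    ∃ C : ℕ, ∀ (q : ℤ) (x : H), InW S br U q x →
      InW S br U (q + C) ((RatFunc.X : RatFunc κ) • nab x) := by
  classical
  choose f hf using fun u : Fin n →₀ ℕ =>
    InW_exists hgen hG ((RatFunc.X : RatFunc κ) • nab (br (monomial u 1)))
  let c : (Fin n →₀ ℕ) → ℕ := fun u => (f u - ((wtp S.w u : ℤ) - S.d)).toNat
  refine ⟨∑ u ∈ U, c u, ?_⟩
  intro q x hx
  obtain ⟨a, ha, hxa⟩ := hx
  rw [hxa, map_sum, Finset.smul_sum]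
  apply wac_sum
  intro u hu
  rw [wac_leib hG]
  have hc0 : (0 : ℤ) ≤ ((∑ u ∈ U, c u : ℕ) : ℤ) := Int.natCast_nonneg _
  have hc1 : (c u : ℤ) ≤ ((∑ u ∈ U, c u : ℕ) : ℤ) := by
    have : c u ≤ ∑ u ∈ U, c u := Finset.single_le_sum (f := c) (fun _ _ => Nat.zero_le _) hu
    exact_mod_cast this
  have hc2 : f u - ((wtp S.w u : ℤ) - S.d) ≤ (c u : ℤ) := Int.self_le_toNat _
  apply InW_add
  · apply InW_mono _ (wac_term hu (Bd_DK (ha u)))
    linarith
  · apply InW_mono _ (InW_mul (ha u) (hf u))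
    linarith

include hgen in
private theorem wac_theta0 (hn : 0 < n) (hS : S.Ok) (hG : IsGM S nab br) (q : ℤ) (x : H)
    (hx : InW S br U q x) : InW S br U q ((RatFunc.X : RatFunc κ) • nab x) := by
  have key : ∀ C : ℕ, (∀ (q : ℤ) (x : H), InW S br U q x →
      InW S br U (q + C) ((RatFunc.X : RatFunc κ) • nab x)) → ∀ (q : ℤ) (x : H), InW S br U q x →
      InW S br U q ((RatFunc.X : RatFunc κ) • nab x) := by
    intro C
    induction C with
    | zero =>
      intro h q x hx
      have h1 := h q x hx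
      rwa [Nat.cast_zero, add_zero] at h1
    | succ C ih =>
      intro h
      apply ih
      intro q x hx
      have h1 := InW_theta_step hgen hn hS hG ((C + 1 : ℕ) : ℤ) (by push_cast; linarith [Int.natCast_nonneg C]) h q x hx
      apply InW_mono _ h1
      push_cast
      linarith
  obtain ⟨C, hC⟩ := wac_bound hgen hG
  exact key C hC q x hx

include hgen in
private theorem wac_mono (hn : 0 < n) (hS : S.Ok) (hG : IsGM S nab br) (u : Fin n →₀ ℕ) :
    InW S br U ((wtp S.w u : ℤ) - S.d - 1) ((RatFunc.X : RatFunc κ) • nab (br (monomial u 1)) -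
      ((((wtp S.w u : ℤ) - S.d : ℤ) : κ) / S.d) • br (monomial u 1)) := by
  have hd : (S.d : κ) ≠ 0 := by exact_mod_cast hS.d_pos.ne'
  have hX : (RatFunc.X : RatFunc κ) ≠ 0 := RatFunc.X_ne_zero
  have h1 := wac_EU hG u
  have h2 : (RatFunc.X : RatFunc κ) • nab (br (monomial u 1)) -
      ((((wtp S.w u : ℤ) - S.d : ℤ) : κ) / S.d) • br (monomial u 1) =
      (S.d : κ)⁻¹ • (RatFunc.X : RatFunc κ)⁻¹ • (RatFunc.X : RatFunc κ) •
        nab (br (monomial u 1 * S.psi)) := by
    rw [smul_smul (RatFunc.X : RatFunc κ)⁻¹, inv_mul_cancel₀ hX, one_smul]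
    have h3 : (RatFunc.X : RatFunc κ) • nab (br (monomial u 1)) =
        (S.d : κ)⁻¹ • ((S.d : κ) • (RatFunc.X : RatFunc κ) • nab (br (monomial u 1))) := by
      rw [smul_smul, inv_mul_cancel₀ hd, one_smul]
    have h4 : (((wtp S.w u : ℤ) - S.d : ℤ) : κ) / S.d = (S.d : κ)⁻¹ * ((wtp S.w u : κ) - S.d) := by
      rw [div_eq_inv_mul]
      push_cast
      rfl
    rw [h3, h1, smul_add, smul_smul, h4]
    abel
  rw [h2]
  apply InW_smul
  have h5 := InW_mul (wac_Xinv (S := S)) (wac_theta0 hgen hn hS hG _ _ (wac_psi hgen hS u))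
  apply InW_mono _ h5
  linarith

include hgen in
theorem InW_theta (hn : 0 < n) (hS : S.Ok) (hG : IsGM S nab br) (q : ℤ) (x : H)
    (hx : InW S br U q x) :
    InW S br U (q - 1) ((RatFunc.X : RatFunc κ) • nab x - ((q : κ) / S.d) • x) := by
  have hd : (S.d : κ) ≠ 0 := by exact_mod_cast hS.d_pos.ne'
  obtain ⟨a, ha, hxa⟩ := hx
  rw [hxa, map_sum, Finset.smul_sum, Finset.smul_sum, ← Finset.sum_sub_distrib]
  apply wac_sum
  intro u hu
  have h1 : (RatFunc.X : RatFunc κ) • nab (a u • br (monomial u 1)) -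
      ((q : κ) / S.d) • a u • br (monomial u 1) =
      (RatFunc.X * DK κ (a u) - (((q - ((wtp S.w u : ℤ) - S.d) : ℤ) : κ) / S.d) • a u) •
        br (monomial u 1) + a u • ((RatFunc.X : RatFunc κ) • nab (br (monomial u 1)) -
      ((((wtp S.w u : ℤ) - S.d : ℤ) : κ) / S.d) • br (monomial u 1)) := by
    rw [wac_leib hG, sub_smul, smul_sub, smul_assoc, smul_comm (a u) ((((wtp S.w u : ℤ) - S.d : ℤ) : κ) / S.d)]
    have h2 : ((q : κ) / S.d) • a u • br (monomial u (1 : κ)) =
        (((q - ((wtp S.w u : ℤ) - S.d) : ℤ) : κ) / S.d) • a u • br (monomial u 1) +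
        ((((wtp S.w u : ℤ) - S.d : ℤ) : κ) / S.d) • a u • br (monomial u 1) := by
      rw [← add_smul, ← add_div, ← Int.cast_add, sub_add_cancel]
    rw [h2]
    abel
  rw [h1]
  apply InW_add
  · have h3 := wac_term (br := br) (q := q - 1) hu (Bd_mono (Bd_euler hS.d_pos (ha u)) (by linarith :
      q - ((wtp S.w u : ℤ) - S.d) - 1 ≤ q - 1 - ((wtp S.w u : ℤ) - S.d)))
    exact h3
  · apply InW_mono _ (InW_mul (ha u) (wac_mono hgen hn hS hG u))
    linarith

include hgen in
theorem InW_low [Module (Polynomial κ) H] [IsScalarTower (Polynomial κ) (RatFunc κ) H]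
    [IsScalarTower κ (Polynomial κ) H] (hS : S.Ok) (hG : IsGM S nab br)
    (hli : ∀ a : (Fin n →₀ ℕ) → RatFunc κ, ∑ u ∈ U, a u • br (monomial u 1) = 0 →
      ∀ u ∈ U, a u = 0) (x : H) (hx : x ∈ EE nab br 0)
    (hx' : InW S br U ((∑ i, S.w i : ℕ) - (S.d : ℤ)) x) : ∃ c : κ, x = c • br 1 := by
  classical
  obtain ⟨p, hp⟩ : ∃ p : (Fin n →₀ ℕ) → Polynomial κ,
      x = ∑ u ∈ U, algebraMap (Polynomial κ) (RatFunc κ) (p u) • br (monomial u 1) := by
    clear hx'
    unfold EE at hx
    induction hx using Submodule.span_induction with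
    | mem y hy =>
      obtain ⟨j, e, hj, rfl⟩ := hy
      obtain rfl : j = 0 := Nat.le_zero.1 hj
      rw [lv_zero]
      obtain ⟨a, _, ha⟩ := hgen (monomial e 1) (wt S.w e) (by
        intro e' he'
        rw [mem_support_iff, coeff_monomial] at he'
        have h1 : e = e' := by
          by_contra h2
          exact he' (if_neg h2)
        rw [h1])
      exact ⟨a, ha⟩
    | zero =>
      refine ⟨fun _ => 0, ?_⟩
      symm
      apply Finset.sum_eq_zero
      intro u _
      rw [map_zero, zero_smul]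
    | add y z _ _ hy hz =>
      obtain ⟨a, ha⟩ := hy
      obtain ⟨b, hb⟩ := hz
      refine ⟨fun u => a u + b u, ?_⟩
      rw [ha, hb, ← Finset.sum_add_distrib]
      refine Finset.sum_congr rfl fun u _ => ?_
      rw [map_add, add_smul]
    | smul r y _ hy =>
      obtain ⟨a, ha⟩ := hy
      refine ⟨fun u => r * a u, ?_⟩
      rw [ha, Finset.smul_sum]
      refine Finset.sum_congr rfl fun u _ => ?_
      rw [map_mul, ← smul_smul, algebraMap_smul (RatFunc κ) r]
  obtain ⟨a, ha, hxa⟩ := hx'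
  have h0 : ∀ u ∈ U, a u = algebraMap (Polynomial κ) (RatFunc κ) (p u) := by
    intro u hu
    have h1 := hli (fun u => a u - algebraMap (Polynomial κ) (RatFunc κ) (p u)) (by
      have h2 : ∑ u ∈ U, (a u - algebraMap (Polynomial κ) (RatFunc κ) (p u)) •
          br (monomial u (1 : κ)) = ∑ u ∈ U, a u • br (monomial u 1) -
          ∑ u ∈ U, algebraMap (Polynomial κ) (RatFunc κ) (p u) • br (monomial u 1) := by
        rw [← Finset.sum_sub_distrib]
        refine Finset.sum_congr rfl fun u _ => ?_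
        rw [sub_smul]
      rw [h2, ← hxa, ← hp, sub_self]) u hu
    exact sub_eq_zero.1 h1
  have hdeg : ∀ u ∈ U, p u ≠ 0 → (p u).natDegree = 0 ∧ u = 0 := by
    intro u hu hpu
    have h1 := ha u
    rw [h0 u hu] at h1
    have h2 : algebraMap (Polynomial κ) (RatFunc κ) (p u) ≠ 0 := by
      intro h3
      exact hpu ((map_eq_zero_iff _ (RatFunc.algebraMap_injective κ)).1 h3)
    rcases h1 with h1 | h1
    · exact absurd h1 h2
    · rw [RatFunc.intDegree_polynomial, wtp_eq] at h1
      have h3 : (S.d : ℤ) * ((p u).natDegree : ℤ) + (wt S.w u : ℤ) ≤ 0 := by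
        push_cast at h1
        linarith
      have h4 : S.d * (p u).natDegree + wt S.w u ≤ 0 := by exact_mod_cast h3
      have h5 : S.d * (p u).natDegree = 0 := by omega
      have h6 : wt S.w u = 0 := by omega
      constructor
      · rcases Nat.mul_eq_zero.1 h5 with h7 | h7
        · exact absurd h7 hS.d_pos.ne'
        · exact h7
      · ext i
        unfold wt at h6
        have h7 := (Finset.sum_eq_zero_iff.1 h6) i (Finset.mem_univ i)
        rcases Nat.mul_eq_zero.1 h7 with h8 | h8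
        · exact absurd h8 (hS.w_pos i).ne'
        · rw [h8, Finsupp.zero_apply]
  have hone : (monomial 0 (1 : κ) : MvPolynomial (Fin n) κ) = 1 := rfl
  by_cases hU : (0 : Fin n →₀ ℕ) ∈ U
  · have h1 : x = algebraMap (Polynomial κ) (RatFunc κ) (p 0) • br (monomial 0 1) := by
      rw [hp]
      apply Finset.sum_eq_single 0
      · intro u hu hu0
        have h2 : p u = 0 := by
          by_contra h3
          exact hu0 (hdeg u hu h3).2
        rw [h2, map_zero, zero_smul]
      · intro h
        exact absurd hU h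
    obtain ⟨c, hc⟩ : ∃ c : κ, p 0 = Polynomial.C c := by
      by_cases h2 : p 0 = 0
      · exact ⟨0, by rw [h2, map_zero]⟩
      · exact ⟨(p 0).coeff 0, Polynomial.eq_C_of_natDegree_eq_zero (hdeg 0 hU h2).1⟩
    refine ⟨c, ?_⟩
    rw [h1, hc, hone, RatFunc.algebraMap_C, ← RatFunc.algebraMap_eq_C, algebraMap_smul]
  · refine ⟨0, ?_⟩
    rw [zero_smul, hp]
    apply Finset.sum_eq_zero
    intro u hu
    have h2 : p u = 0 := by
      by_contra h3
      have h4 := (hdeg u hu h3).2
      rw [h4] at hu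
      exact hU hu
    rw [h2, map_zero, zero_smul]

end MPadcHM
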