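import Pool.Agent.Lib.MP_adc574_ag_HM.SplA
import Pool.Agent.Lib.MP_adc574_ag_HM.SplB
import Pool.Agent.Lib.MP_adc574_ag_HM.WA

/-!
# JOB SplC: no direct decomposition

* `split_inf`: there is `C : ℕ` with `e (W_q) ⊂ W_{q+C}` for all `q` (`e (br x^u) ∈ W_{wtp u - d + C}` for the finitely many `u ∈ U` by `InW_exists`, `InW_mono`; `K`-linearity, `InW_mul`). Let `C` be such that `e (W_q ∩ Hprim) ⊂ W_{q+C}` for all `q`, `C ≥ 1`. For `x ∈ W_q ∩ Hprim`: `z = X • nab x - (q/d) • x ∈ W_{q-1} ∩ Hprim`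
  (`InW_theta`, `Hprim_nab`), so `e z ∈ W_{q-1+C}`; `e z = X • nab (e x) - (q/d) • e x` (`e` is `K`-linear; `κ` acts through `K`). And `X • nab (e x) - ((q+C)/d) • e x ∈ W_{q+C-1}` (`InW_theta` for `e x ∈ W_{q+C}`). The difference is `(C/d) • e x ∈ W_{q+C-1}`, `C/d ≠ 0` in `κ`. So `C` can be lowered to `C - 1`; finally `C = 0`.
* `stable_one`: a stable `H' ≤ Hprim` containing `u = [1]_{k+1}` is `Hprim`: `no_lattice`: for `x ∈ EE k ∩ Hprim` `y = nab x - p_x • u ∈ EE k ∩ Hprim` (`EE_nab`, `EE_succ`), `nab x - y = p_x • u ∈ H'`.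
* `no_split`: let `e : H →ₗ[K] H` be `x ↦` the component in `H1` for `x ∈ Hprim = H1 ⊕ H2`, extended by 0 to a complement of `Hprim` (`Submodule.exists_isCompl`, `Submodule.linearProjOfIsCompl`; or: `H2' = H2 ⊔ C`, `C` a complement of `Hprim`, `IsCompl H1 H2'`, the projection to `H1` along `H2'`). `e x = x` on `H1`, `e x = 0` on `H2`, `e` maps `Hprim` to `H1`,
  commutes with `nab` on `Hprim` (both summands are stable). By `split_fin`, `split_down`, `split_inf`: `e [1]_0 ∈ EE 0`, and it is in `W_{∑ w - d}` (`br 1 ∈ W_{∑ w - d}` by `InW_br`, `wtp 0 = ∑ w`); `[1]_0 = br 1 = lv 0 1 ∈ Hprim` (`lv_one_mem`). So `e (br 1) = c • br 1` (`InW_low`), `e (e (br 1)) = e (br 1)`, so `c² = c` or `br 1 = 0`.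
  If `c = 1` or `br 1 = 0`: `br 1 ∈ H1`, if `c = 0`: `br 1 = br 1 - e (br 1) ∈ H2`. A stable subspace containing `br 1` contains all `lv k 1 = (k!)⁻¹ nab^k (br 1)`, so it is `Hprim` (`stable_one`), and the other one is 0 (`H1 ⊓ H2 = ⊥`).
-/

set_option autoImplicit false

namespace MPadcHM

open MvPolynomial

universe u

variable {κ : Type u} [Field κ] [CharZero κ] {n : ℕ} {S : Dat κ n} {H : Type u} [AddCommGroup H]
  [Module (RatFunc κ) H] [Module κ H] [IsScalarTower κ (RatFunc κ) H] [Module (Polynomial κ) H]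
  [IsScalarTower (Polynomial κ) (RatFunc κ) H] [IsScalarTower κ (Polynomial κ) H]
  {nab : H →ₗ[κ] H} {br : MvPolynomial (Fin n) κ →ₗ[κ] H} {U : Finset (Fin n →₀ ℕ)}

private theorem splca_sum {q : ℤ} (s : Finset (Fin n →₀ ℕ)) (f : (Fin n →₀ ℕ) → H)
    (h : ∀ u ∈ s, InW S br U q (f u)) : InW S br U q (∑ u ∈ s, f u) := by
  classical
  induction s using Finset.induction_on with
  | empty => rw [Finset.sum_empty]; exact InW_zero q
  | insert a s ha ih =>
    rw [Finset.sum_insert ha]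
    exact InW_add (h a (Finset.mem_insert_self _ _))
      (ih fun u hu => h u (Finset.mem_insert_of_mem hu))

private theorem splca_tower {F : Submodule (RatFunc κ) H} (p : Polynomial κ) {h : H}
    (hh : h ∈ F) : p • h ∈ F := by
  rw [← algebraMap_smul (RatFunc κ) p h]
  exact F.smul_mem _ hh

private theorem splca_kap {F : Submodule (RatFunc κ) H} (p : κ) {h : H}
    (hh : h ∈ F) : p • h ∈ F := Submodule.smul_of_tower_mem _ _ hh

private theorem splca_start (hG : IsGM S nab br)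
    (hgen : ∀ (P : MvPolynomial (Fin n) κ) (N : ℕ), (∀ e ∈ P.support, wt S.w e ≤ N) →
      ∃ a : (Fin n →₀ ℕ) → Polynomial κ, (∀ u, a u ≠ 0 → S.d * (a u).natDegree + wt S.w u ≤ N) ∧
        br P = ∑ u ∈ U, algebraMap (Polynomial κ) (RatFunc κ) (a u) • br (monomial u 1))
    (e : H →ₗ[RatFunc κ] H) : ∃ C : ℕ, ∀ (q : ℤ) (x : H), InW S br U q x →
      InW S br U (q + C) (e x) := by
  classical
  have h1 : ∃ C : ℕ, ∀ u ∈ U, InW S br U ((wtp S.w u : ℤ) - S.d + C) (e (br (monomial u 1))) := by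
    have h2 : ∀ u : Fin n →₀ ℕ, ∃ q : ℤ, InW S br U q (e (br (monomial u 1))) := fun u =>
      InW_exists (nab := nab) hgen hG _
    choose Q hQ using h2
    refine ⟨U.sup fun u => (Q u - ((wtp S.w u : ℤ) - S.d)).toNat, fun u hu => ?_⟩
    refine InW_mono ?_ (hQ u)
    have h3 : (Q u - ((wtp S.w u : ℤ) - S.d)).toNat ≤
        U.sup fun u => (Q u - ((wtp S.w u : ℤ) - S.d)).toNat :=
      Finset.le_sup (f := fun u => (Q u - ((wtp S.w u : ℤ) - S.d)).toNat) hu
    have h4 : Q u - ((wtp S.w u : ℤ) - S.d) ≤ ((Q u - ((wtp S.w u : ℤ) - S.d)).toNat : ℤ) :=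
      Int.self_le_toNat _
    have h5 : ((Q u - ((wtp S.w u : ℤ) - S.d)).toNat : ℤ) ≤
        ((U.sup fun u => (Q u - ((wtp S.w u : ℤ) - S.d)).toNat : ℕ) : ℤ) := by
      exact_mod_cast h3
    linarith
  obtain ⟨C, hC⟩ := h1
  refine ⟨C, fun q x hx => ?_⟩
  obtain ⟨a, ha, rfl⟩ := hx
  rw [map_sum]
  refine splca_sum _ _ fun u hu => ?_
  rw [map_smul]
  have h6 := InW_mul (ha u) (hC u hu)
  have e1 : (wtp S.w u : ℤ) - S.d + C + (q - ((wtp S.w u : ℤ) - S.d)) = q + C := by ring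
  rwa [e1] at h6

private theorem splca_step (hn : 0 < n) (hS : S.Ok) (hG : IsGM S nab br)
    (hgen : ∀ (P : MvPolynomial (Fin n) κ) (N : ℕ), (∀ e ∈ P.support, wt S.w e ≤ N) →
      ∃ a : (Fin n →₀ ℕ) → Polynomial κ, (∀ u, a u ≠ 0 → S.d * (a u).natDegree + wt S.w u ≤ N) ∧
        br P = ∑ u ∈ U, algebraMap (Polynomial κ) (RatFunc κ) (a u) • br (monomial u 1))
    (e : H →ₗ[RatFunc κ] H) (hcomm : ∀ x ∈ Hprim S nab br, nab (e x) = e (nab x)) (C : ℕ)
    (h : ∀ (q : ℤ) (x : H), x ∈ Hprim S nab br → InW S br U q x →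
      InW S br U (q + (C + 1 : ℕ)) (e x)) (q : ℤ) (x : H)
    (hx : x ∈ Hprim S nab br) (hxq : InW S br U q x) : InW S br U (q + C) (e x) := by
  have hd : (S.d : κ) ≠ 0 := by
    have := hS.d_pos
    exact_mod_cast this.ne'
  have hC : ((C : κ) + 1) ≠ 0 := by
    have : ((C + 1 : ℕ) : κ) ≠ 0 := by exact_mod_cast Nat.succ_ne_zero C
    push_cast at this
    exact this
  have h1 := InW_theta hgen hn hS hG q x hxq
  have h2 : (RatFunc.X : RatFunc κ) • nab x - ((q : κ) / S.d) • x ∈ Hprim S nab br :=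
    Submodule.sub_mem _ (Submodule.smul_mem _ _ (Hprim_nab hG x hx)) (splca_kap _ hx)
  have h3 := h (q - 1) _ h2 h1
  have e1 : q - 1 + ((C + 1 : ℕ) : ℤ) = q + C := by push_cast; ring
  have e2 : e ((RatFunc.X : RatFunc κ) • nab x - ((q : κ) / S.d) • x) =
      (RatFunc.X : RatFunc κ) • nab (e x) - ((q : κ) / S.d) • e x := by
    rw [map_sub, map_smul, hcomm x hx, LinearMap.map_smul_of_tower]
  rw [e1, e2] at h3
  have h4 := InW_theta hgen hn hS hG _ _ (h q x hx hxq)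
  have e3 : q + ((C + 1 : ℕ) : ℤ) - 1 = q + C := by push_cast; ring
  rw [e3] at h4
  have h5 := InW_sub h3 h4
  have e4 : (RatFunc.X : RatFunc κ) • nab (e x) - ((q : κ) / S.d) • e x -
      ((RatFunc.X : RatFunc κ) • nab (e x) - (((q + ((C + 1 : ℕ) : ℤ) : ℤ) : κ) / S.d) • e x) =
      (((C : κ) + 1) / S.d) • e x := by
    have e5 : (((q + ((C + 1 : ℕ) : ℤ) : ℤ) : κ) / S.d) = (q : κ) / S.d + ((C : κ) + 1) / S.d := by
      push_cast
      ring
    rw [e5, add_smul]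
    abel
  rw [e4] at h5
  have h6 := InW_smul ((S.d : κ) / ((C : κ) + 1)) h5
  rw [smul_smul] at h6
  have e6 : (S.d : κ) / ((C : κ) + 1) * (((C : κ) + 1) / S.d) = 1 := by
    field_simp
  rwa [e6, one_smul] at h6

theorem split_inf (hn : 0 < n) (hS : S.Ok) (hG : IsGM S nab br)
    (hgen : ∀ (P : MvPolynomial (Fin n) κ) (N : ℕ), (∀ e ∈ P.support, wt S.w e ≤ N) →
      ∃ a : (Fin n →₀ ℕ) → Polynomial κ, (∀ u, a u ≠ 0 → S.d * (a u).natDegree + wt S.w u ≤ N) ∧
        br P = ∑ u ∈ U, algebraMap (Polynomial κ) (RatFunc κ) (a u) • br (monomial u 1))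
    (e : H →ₗ[RatFunc κ] H) (he : ∀ x ∈ Hprim S nab br, e x ∈ Hprim S nab br)
    (hcomm : ∀ x ∈ Hprim S nab br, nab (e x) = e (nab x)) (q : ℤ) (x : H)
    (hx : x ∈ Hprim S nab br) (hxq : InW S br U q x) : InW S br U q (e x) := by
  obtain ⟨C, hC⟩ := splca_start (nab := nab) hG hgen e
  have key : ∀ C : ℕ, (∀ (q : ℤ) (x : H), x ∈ Hprim S nab br → InW S br U q x →
      InW S br U (q + C) (e x)) → ∀ (q : ℤ) (x : H), x ∈ Hprim S nab br → InW S br U q x →
      InW S br U q (e x) := by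
    intro C
    induction C with
    | zero =>
      intro h q x hx hxq
      have := h q x hx hxq
      rwa [Nat.cast_zero, add_zero] at this
    | succ C ih =>
      intro h
      exact ih (splca_step hn hS hG hgen e hcomm C h)
  exact key C (fun q x _ hxq => hC q x hxq) q x hx hxq

theorem stable_one (hn : 0 < n) (hS : S.Ok) (hG : IsGM S nab br) (hwd : ∑ i, S.w i < S.d) (k : ℕ)
    (H' : Submodule (RatFunc κ) H) (hle : H' ≤ Hprim S nab br) (hst : ∀ h ∈ H', nab h ∈ H')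
    (h1 : lv nab br (k + 1) (1 : MvPolynomial (Fin n) κ) ∈ H') : H' = Hprim S nab br := by
  refine no_lattice hn hS hG k H' hle hst (fun x hx hxH => ?_)
  obtain ⟨p, hp⟩ := EE_succ hS hG k (nab x) (EE_nab hG k x hx)
  refine ⟨_, hp, Submodule.sub_mem _ (Hprim_nab hG x hxH) (splca_tower p (lv_one_mem hwd (k + 1))), ?_⟩
  rw [sub_sub_cancel]
  exact splca_tower p h1

private theorem splcb_proj {K : Type*} [Field K] {M : Type*} [AddCommGroup M] [Module K M]
    (H1 H2 : Submodule K M) (hinf : H1 ⊓ H2 = ⊥) :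
    ∃ e : M →ₗ[K] M, (∀ x, e x ∈ H1) ∧ (∀ x ∈ H1, e x = x) ∧ ∀ x ∈ H2, e x = 0 := by
  obtain ⟨C, hC⟩ := Submodule.exists_isCompl (H1 ⊔ H2)
  have h : IsCompl H1 (H2 ⊔ C) :=
    Disjoint.isCompl_sup_right_of_isCompl_sup_left (disjoint_iff.2 hinf) hC
  refine ⟨H1.projection (H2 ⊔ C) h, fun x => Submodule.projection_apply_mem h x, fun x hx => ?_,
    fun x hx => ?_⟩
  · exact Submodule.projection_apply_of_mem_left h hx
  · exact (Submodule.projection_apply_eq_zero_iff h).2 (Submodule.mem_sup_left hx)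

private theorem splcb_lv (H' : Submodule (RatFunc κ) H) (hst : ∀ h ∈ H', nab h ∈ H')
    (h1 : br 1 ∈ H') (k : ℕ) : lv nab br k (1 : MvPolynomial (Fin n) κ) ∈ H' := by
  induction k with
  | zero =>
    rw [lv_zero]
    exact h1
  | succ k ih =>
    have h2 := hst _ ih
    rw [nab_lv] at h2
    have hk : ((k : κ) + 1) ≠ 0 := by exact_mod_cast Nat.succ_ne_zero k
    have h3 := Submodule.smul_of_tower_mem H' (((k : κ) + 1)⁻¹) h2
    rwa [smul_smul, inv_mul_cancel₀ hk, one_smul] at h3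

theorem no_split (hn : 0 < n) (hS : S.Ok) (hG : IsGM S nab br) (hwd : ∑ i, S.w i < S.d)
    (hgen : ∀ (P : MvPolynomial (Fin n) κ) (N : ℕ), (∀ e ∈ P.support, wt S.w e ≤ N) →
      ∃ a : (Fin n →₀ ℕ) → Polynomial κ, (∀ u, a u ≠ 0 → S.d * (a u).natDegree + wt S.w u ≤ N) ∧
        br P = ∑ u ∈ U, algebraMap (Polynomial κ) (RatFunc κ) (a u) • br (monomial u 1))
    (hli : ∀ a : (Fin n →₀ ℕ) → RatFunc κ, ∑ u ∈ U, a u • br (monomial u 1) = 0 →
      ∀ u ∈ U, a u = 0) (k : ℕ)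
    (hα : (n : κ) / 2 - 1 - k = 0 ∨ ∀ m : ℤ, (n : κ) / 2 - 1 - k ≠ m)
    (hAnn : ∀ a : Polynomial κ, a • lv nab br (k + 1) (1 : MvPolynomial (Fin n) κ) ∈
      EE nab br k → S.δ ∣ a) (H1 H2 : Submodule (RatFunc κ) H)
    (h1 : ∀ h ∈ H1, nab h ∈ H1) (h2 : ∀ h ∈ H2, nab h ∈ H2) (hinf : H1 ⊓ H2 = ⊥)
    (hsup : H1 ⊔ H2 = Hprim S nab br) : H1 = ⊥ ∨ H2 = ⊥ := by
  obtain ⟨e, he0, he1, he2⟩ := splcb_proj H1 H2 hinf
  have hle1 : H1 ≤ Hprim S nab br := by
    rw [← hsup]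
    exact le_sup_left
  have hle2 : H2 ≤ Hprim S nab br := by
    rw [← hsup]
    exact le_sup_right
  have he : ∀ x ∈ Hprim S nab br, e x ∈ Hprim S nab br := fun x _ => hle1 (he0 x)
  have hcomm : ∀ x ∈ Hprim S nab br, nab (e x) = e (nab x) := by
    intro x hx
    rw [← hsup] at hx
    obtain ⟨y, hy, z, hz, rfl⟩ := Submodule.mem_sup.1 hx
    rw [map_add, he1 y hy, he2 z hz, add_zero, map_add nab, map_add e, he1 _ (h1 y hy),
      he2 _ (h2 z hz), add_zero]
  have hfin : ∀ x ∈ EE nab br k, x ∈ Hprim S nab br → e x ∈ EE nab br k := fun x hx hx' =>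
    split_fin hn hS hG hwd k hα e he hcomm x hx hx'
  have hb0 : br 1 ∈ EE nab br 0 := by
    have h3 := EE_mem (nab := nab) (br := br) 0 0 le_rfl (1 : MvPolynomial (Fin n) κ)
    rwa [lv_zero] at h3
  have hbH : br 1 ∈ Hprim S nab br := by
    have h3 := lv_one_mem (nab := nab) (br := br) hwd 0
    rwa [lv_zero] at h3
  have hbW : InW S br U ((∑ i, S.w i : ℕ) - (S.d : ℤ)) (br 1) := by
    refine InW_br hgen 1 _ fun a ha => ?_
    have ha0 : a = 0 := by
      have h3 : (1 : MvPolynomial (Fin n) κ) = C 1 := rfl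
      rw [h3, mem_support_iff, coeff_C] at ha
      by_contra hc
      exact ha (if_neg fun h => hc h.symm)
    rw [ha0]
    have h3 : wtp S.w (0 : Fin n →₀ ℕ) = ∑ i, S.w i := by
      unfold wtp
      simp
    rw [h3]
  have hd := split_down hS hG k hAnn e he hcomm hfin (br 1) hb0 hbH
  have hi := split_inf hn hS hG hgen e he hcomm _ (br 1) hbH hbW
  obtain ⟨c, hc⟩ := InW_low hgen hS hG hli _ hd hi
  -- idempotent
  have hc2 : (c * c - c) • br 1 = 0 := by
    have h3 : e (e (br 1)) = e (br 1) := he1 _ (he0 _)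
    rw [hc, LinearMap.map_smul_of_tower, hc, smul_smul] at h3
    rw [sub_smul, h3, sub_self]
  have fin1 : br 1 ∈ H1 → H1 = ⊥ ∨ H2 = ⊥ := by
    intro hb
    right
    have h3 := stable_one hn hS hG hwd k H1 hle1 h1 (splcb_lv H1 h1 hb (k + 1))
    rw [eq_bot_iff, ← hinf]
    refine le_inf ?_ le_rfl
    rw [h3]
    exact hle2
  have fin2 : br 1 ∈ H2 → H1 = ⊥ ∨ H2 = ⊥ := by
    intro hb
    left
    have h3 := stable_one hn hS hG hwd k H2 hle2 h2 (splcb_lv H2 h2 hb (k + 1))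
    rw [eq_bot_iff, ← hinf]
    refine le_inf le_rfl ?_
    rw [h3]
    exact hle1
  by_cases hb : br 1 = 0
  · exact fin1 (by rw [hb]; exact Submodule.zero_mem _)
  by_cases hcc : c * c - c = 0
  · have h3 : c * (c - 1) = 0 := by linear_combination hcc
    rcases mul_eq_zero.1 h3 with h4 | h4
    · apply fin2
      rw [h4, zero_smul] at hc
      have h5 := hbH
      rw [← hsup] at h5
      obtain ⟨y, hy, z, hz, hyz⟩ := Submodule.mem_sup.1 h5
      rw [← hyz, map_add, he1 y hy, he2 z hz, add_zero] at hc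
      rw [← hyz, hc, zero_add]
      exact hz
    · apply fin1
      rw [sub_eq_zero.1 h4, one_smul] at hc
      rw [← hc]
      exact he0 _
  · exfalso
    apply hb
    have h3 := congrArg (fun y => (c * c - c)⁻¹ • y) hc2
    simp only [smul_zero] at h3
    rwa [smul_smul, inv_mul_cancel₀ hcc, one_smul] at h3

end MPadcHM
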