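import Pool.Agent.Lib.MP_adc574_ag_HM.GalA
import Pool.Agent.Lib.MP_adc574_ag_HM.GalB
import Pool.Agent.Lib.MP_adc574_ag_HM.GalC
import Pool.Agent.Lib.MP_adc574_ag_HM.SplC
import Pool.Agent.Lib.MP_adc574_ag_HM.MilC

/-!
# JOB GalD: irreducibility over an algebraically closed field if `δ` is irreducible over a subfield

`S = S₁.map (algebraMap k₁ M)`, `hS : S.Ok` (`map_ok`), `nab` any `IsGM` connection on `H = HH S.fK`; all module instances on `H` by `inferInstance`. `U` from `exists_MB` for `part w d S.φ` (`Hom`: the monomials of `part` have weight `d`; `hM := hS.jac`), `hgen` from `h_gen`, `hli` from `h_ind`. `k`, `hα` as in `asmc_alpha` (TheoremC.lean, private: copy it).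
`Hprim ≠ ⊥`: `br 1 = lv 0 1 ∈ Hprim` (`lv_one_mem`), `br 1 ≠ 0`: by `ind_forms` or: `0 ∈ U` or by `h_ind` and `h_gen`… (simplest: if `br 1 = 0` then by `ind_forms` as in TheoremC; or: `S.br 1 = mk 1`, `1 ∈ Zmod` contradicts `ind_forms` with `P = 1`, `wtp 0 = ∑ w < d`.)
For `σ : M ≃+* M` fixing `k₁`: `S.map σ = S`. `T` from `exists_act`: `T` maps `lv nab br j (monomial e 1)` to itself (`lv j P = (j!)⁻¹ nab^j (br P)`), so it maps `EE k` to `EE k` (`T (p • h) = (p.map σ) • T h` for `p ∈ κ[t]`) and `Hprim` to `Hprim`, `T u = u`. For a stable `H'` `T(H')` is a stable `K`-subspace (as a set; `K`-submodule since `s` is bijective), and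
`H' ↦ T(H')` preserves inclusions and strict inclusions (inverse `T.symm`).
* `hAnn`: `g` from `ann_gen`. Let `τ'` be a root of `δ`; `g` has a root `τ`, a root of `δ` as `g ∣ δ`; `σ τ = τ'` (`exists_aut` for `S₁.δ`: `δ = S₁.δ.map`, `IsRoot` is `aeval τ S₁.δ = 0`). `g • u ∈ EE k` implies `(g.map σ) • u = T (g • u) ∈ EE k`, so `g ∣ g.map σ`, both have the same degree, so `g.map σ = c g`, and `g(τ) = 0` gives `(g.map σ)(τ') = 0`, `g(τ') = 0`.
  So all roots of `δ` are roots of `g`: `δ ∣ g` (`δ` separable and split). Hence `a • u ∈ EE k → g ∣ a → δ ∣ a`.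
* Let `H₀ ≤ Hprim` be stable, `H₀ ≠ ⊥`, `H₀ ≠ Hprim` (to get a contradiction). `H` is finite dimensional (`H_finite`). Let `H1` be a minimal nonzero stable subspace contained in `H₀` (minimal `finrank`). Let `Y` be a stable subspace of `Hprim` with `Y ⊓ H1 = ⊥` of maximal `finrank`. `X = H1 ⊔ Y` is stable. If `X ≠ Hprim`: `τ'` from `sing_all` for `X`, `τ`, `x`, `p` from `sing_ne`
  for `H1`, `σ τ = τ'`. `T x ∈ EE k ∩ T(H1)`, `nab (T x) - (p.map σ) • u = T (nab x - p • u) ∈ EE k`, `(p.map σ)(τ') = σ (p(τ)) ≠ 0`. So `T(H1) ⊄ X`. `T(H1)` is also minimal (nonzero stable subspaces of `T(H1)` are `T` of those of `H1`), so `T(H1) ⊓ X = ⊥`. Then `Y' = Y ⊔ T(H1)` is stable, in `Hprim`,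
  `Y' ⊓ H1 = ⊥` (`y + z = h` ⇒ `z = h - y ∈ X ⊓ T(H1) = ⊥`), and `finrank Y' > finrank Y`: contradiction. So `X = Hprim`; `no_split` for `H1`, `Y` (`H1 ⊓ Y = ⊥`): `H1 = ⊥` (no) or `Y = ⊥`, so `H1 = Hprim`, `H₀ = Hprim`: contradiction.
-/

set_option autoImplicit false

namespace MPadcHM

open MvPolynomial

universe u

section core

variable {κ : Type u} [Field κ] {n : ℕ} {S : Dat κ n} {H : Type u} [AddCommGroup H]
  [Module (RatFunc κ) H] [Module κ H]
  {nab : H →ₗ[κ] H} {br : MvPolynomial (Fin n) κ →ₗ[κ] H} {σ : κ ≃+* κ}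

/-- The action of an automorphism of the constants. -/
private structure GaldAct (nab : H →ₗ[κ] H) (br : MvPolynomial (Fin n) κ →ₗ[κ] H)
    (σ : κ ≃+* κ) where
  s : RatFunc κ ≃+* RatFunc κ
  T : H ≃+ H
  hs : ∀ p : Polynomial κ, s (algebraMap (Polynomial κ) (RatFunc κ) p) =
    algebraMap (Polynomial κ) (RatFunc κ) (p.map (σ : κ →+* κ))
  hsmul : ∀ (a : RatFunc κ) (h : H), T (a • h) = s a • T h
  hnab : ∀ h, T (nab h) = nab (T h)
  hbr : ∀ P : MvPolynomial (Fin n) κ, T (br P) = br (P.map (σ : κ →+* κ))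

/-- The image of a subspace. -/
private def galdIm (A : GaldAct nab br σ) (F : Submodule (RatFunc κ) H) :
    Submodule (RatFunc κ) H where
  carrier := {y | A.T.symm y ∈ F}
  zero_mem' := by
    show A.T.symm 0 ∈ F
    rw [map_zero]
    exact F.zero_mem
  add_mem' := by
    intro x y hx hy
    show A.T.symm (x + y) ∈ F
    rw [map_add]
    exact F.add_mem hx hy
  smul_mem' := by
    intro a y hy
    show A.T.symm (a • y) ∈ F
    have h1 : A.T.symm (a • y) = A.s.symm a • A.T.symm y := by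
      rw [AddEquiv.symm_apply_eq, A.hsmul, RingEquiv.apply_symm_apply,
        AddEquiv.apply_symm_apply]
    rw [h1]
    exact F.smul_mem _ hy

/-- The preimage of a subspace. -/
private def galdPre (A : GaldAct nab br σ) (F : Submodule (RatFunc κ) H) :
    Submodule (RatFunc κ) H where
  carrier := {x | A.T x ∈ F}
  zero_mem' := by
    show A.T 0 ∈ F
    rw [map_zero]
    exact F.zero_mem
  add_mem' := by
    intro x y hx hy
    show A.T (x + y) ∈ F
    rw [map_add]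
    exact F.add_mem hx hy
  smul_mem' := by
    intro a y hy
    show A.T (a • y) ∈ F
    rw [A.hsmul]
    exact F.smul_mem _ hy

private theorem gald_im_mem (A : GaldAct nab br σ) {F : Submodule (RatFunc κ) H} {x : H}
    (hx : x ∈ F) : A.T x ∈ galdIm A F := by
  show A.T.symm (A.T x) ∈ F
  rw [AddEquiv.symm_apply_apply]
  exact hx

private theorem gald_im_st (A : GaldAct nab br σ) {F : Submodule (RatFunc κ) H}
    (hF : ∀ h ∈ F, nab h ∈ F) : ∀ h ∈ galdIm A F, nab h ∈ galdIm A F := by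
  intro y hy
  show A.T.symm (nab y) ∈ F
  have h1 : A.T.symm (nab y) = nab (A.T.symm y) := by
    rw [AddEquiv.symm_apply_eq, A.hnab, AddEquiv.apply_symm_apply]
  rw [h1]
  exact hF _ hy

private theorem gald_pre_st (A : GaldAct nab br σ) {F : Submodule (RatFunc κ) H}
    (hF : ∀ h ∈ F, nab h ∈ F) : ∀ h ∈ galdPre A F, nab h ∈ galdPre A F := by
  intro y hy
  show A.T (nab y) ∈ F
  rw [A.hnab]
  exact hF _ hy

private theorem gald_sup {F G : Submodule (RatFunc κ) H} (hF : ∀ h ∈ F, nab h ∈ F)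
    (hG : ∀ h ∈ G, nab h ∈ G) : ∀ h ∈ F ⊔ G, nab h ∈ F ⊔ G := by
  intro h hh
  obtain ⟨y, hy, z, hz, rfl⟩ := Submodule.mem_sup.1 hh
  rw [map_add]
  exact Submodule.add_mem _ (Submodule.mem_sup_left (hF y hy)) (Submodule.mem_sup_right (hG z hz))

private theorem gald_inf {F G : Submodule (RatFunc κ) H} (hF : ∀ h ∈ F, nab h ∈ F)
    (hG : ∀ h ∈ G, nab h ∈ G) : ∀ h ∈ F ⊓ G, nab h ∈ F ⊓ G :=
  fun h hh => ⟨hF h hh.1, hG h hh.2⟩

private theorem gald_pow (A : GaldAct nab br σ) (j : ℕ) (h : H) :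
    A.T ((nab ^ j) h) = (nab ^ j) (A.T h) := by
  induction j with
  | zero => rw [pow_zero]; rfl
  | succ j ih => rw [pow_succ', Module.End.mul_apply, Module.End.mul_apply, A.hnab, ih]

variable [Module (Polynomial κ) H] [IsScalarTower (Polynomial κ) (RatFunc κ) H]

private theorem gald_poly (A : GaldAct nab br σ) (p : Polynomial κ) (h : H) :
    A.T (p • h) = (p.map (σ : κ →+* κ)) • A.T h := by
  rw [← algebraMap_smul (RatFunc κ) p h, A.hsmul, A.hs, algebraMap_smul]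

variable [IsScalarTower κ (Polynomial κ) H]

private theorem gald_const (A : GaldAct nab br σ) (c : κ) (h : H) :
    A.T (c • h) = σ c • A.T h := by
  rw [← finab_C c h, gald_poly A, Polynomial.map_C]
  exact finab_C _ _

private theorem gald_lv (A : GaldAct nab br σ) (j : ℕ) (e : Fin n →₀ ℕ) :
    A.T (lv nab br j (monomial e 1)) = lv nab br j (monomial e 1) := by
  have h0 : ∀ P : MvPolynomial (Fin n) κ,
      lv nab br j P = ((j.factorial : κ)⁻¹) • (nab ^ j) (br P) := fun P => rfl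
  rw [h0, gald_const, gald_pow, A.hbr, map_monomial, map_inv₀, map_natCast, map_one]

private theorem gald_EE (A : GaldAct nab br σ) (k : ℕ) (x : H) (hx : x ∈ EE nab br k) :
    A.T x ∈ EE nab br k := by
  unfold EE at hx ⊢
  induction hx using Submodule.span_induction with
  | mem x hx =>
    obtain ⟨j, e, hj, rfl⟩ := hx
    rw [gald_lv]
    exact Submodule.subset_span ⟨j, e, hj, rfl⟩
  | zero => rw [map_zero]; exact Submodule.zero_mem _
  | add x y _ _ hx hy => rw [map_add]; exact Submodule.add_mem _ hx hy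
  | smul a x _ hx => rw [gald_poly]; exact Submodule.smul_mem _ _ hx

private theorem gald_Hprim (A : GaldAct nab br σ) (x : H) (hx : x ∈ Hprim S nab br) :
    A.T x ∈ Hprim S nab br := by
  unfold Hprim at hx ⊢
  induction hx using Submodule.span_induction with
  | mem x hx =>
    obtain ⟨j, e, hj, rfl⟩ := hx
    rw [gald_lv]
    exact Submodule.subset_span ⟨j, e, hj, rfl⟩
  | zero => rw [map_zero]; exact Submodule.zero_mem _
  | add x y _ _ hx hy => rw [map_add]; exact Submodule.add_mem _ hx hy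
  | smul a x _ hx => rw [A.hsmul]; exact Submodule.smul_mem _ _ hx

private theorem gald_im_prim (A : GaldAct nab br σ) {F : Submodule (RatFunc κ) H}
    (hF : F ≤ Hprim S nab br) : galdIm A F ≤ Hprim S nab br := by
  intro y hy
  have h1 := gald_Hprim A (A.T.symm y) (hF hy)
  rw [AddEquiv.apply_symm_apply] at h1
  exact h1

private theorem gald_alpha [CharZero κ] (hn : 2 ≤ n) :
    ∃ k : ℕ, ((n : κ) / 2 - 1 - k = 0 ∨ ∀ m : ℤ, (n : κ) / 2 - 1 - k ≠ m) := by
  rcases Nat.even_or_odd' n with ⟨m, hm | hm⟩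
  · refine ⟨m - 1, Or.inl ?_⟩
    have h1 : 1 ≤ m := by omega
    rw [hm]
    push_cast [Nat.cast_sub h1]
    ring
  · refine ⟨0, Or.inr fun z hz => ?_⟩
    rw [hm] at hz
    have h2 : (2 : κ) ≠ 0 := two_ne_zero
    have h3 : ((2 * (m : ℤ) + 1 : ℤ) : κ) = ((2 * (z + 1) : ℤ) : κ) := by
      push_cast at hz ⊢
      field_simp at hz
      linear_combination hz
    have h4 : (2 * (m : ℤ) + 1 : ℤ) = 2 * (z + 1) := by exact_mod_cast h3
    omega

private theorem gald_eval (σ : κ ≃+* κ) (p : Polynomial κ) (z : κ) :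
    (p.map (σ : κ →+* κ)).eval (σ z) = σ (p.eval z) := by
  rw [Polynomial.eval_map]
  exact Polynomial.eval₂_at_apply (σ : κ →+* κ) z

variable [IsScalarTower κ (RatFunc κ) H]

private theorem gald_ann [CharZero κ] [IsAlgClosed κ] (hn : 0 < n) (hS : S.Ok)
    (hG : IsGM S nab br) (hwd : ∑ i, S.w i < S.d) (hne : Hprim S nab br ≠ ⊥) (k : ℕ)
    (hact : ∀ τ τ' : κ, S.δ.IsRoot τ → S.δ.IsRoot τ' →
      ∃ σ : κ ≃+* κ, σ τ = τ' ∧ Nonempty (GaldAct nab br σ)) (a : Polynomial κ)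
    (ha : a • lv nab br (k + 1) (1 : MvPolynomial (Fin n) κ) ∈ EE nab br k) : S.δ ∣ a := by
  obtain ⟨g, hgu, hgδ, hg⟩ := ann_gen hn hS hG hwd hne k
  have hδ0 : S.δ ≠ 0 := hS.sep.ne_zero
  have hg0 : g ≠ 0 := by
    intro h
    rw [h] at hgδ
    exact hδ0 (zero_dvd_iff.1 hgδ)
  have hroot : ∀ q : Polynomial κ, ¬ IsUnit q → ∃ z, q.IsRoot z := by
    intro q hqu
    refine IsAlgClosed.exists_root q ?_
    intro hd
    exact hqu (Polynomial.isUnit_iff_degree_eq_zero.2 hd)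
  obtain ⟨τ, hτ⟩ := hroot g hgu
  have hall : ∀ τ', S.δ.IsRoot τ' → g.IsRoot τ' := by
    intro τ' hτ'
    obtain ⟨σ, hσ, ⟨A⟩⟩ := hact τ' τ hτ' (hτ.dvd hgδ)
    have h1 : (g.map (σ : κ →+* κ)) • lv nab br (k + 1) (1 : MvPolynomial (Fin n) κ) ∈
        EE nab br k := by
      have h2 := gald_EE A k _ ((hg g).2 (dvd_refl g))
      rw [gald_poly] at h2
      have h3 : A.T (lv nab br (k + 1) (1 : MvPolynomial (Fin n) κ)) =
          lv nab br (k + 1) (1 : MvPolynomial (Fin n) κ) := gald_lv A (k + 1) 0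
      rw [h3] at h2
      exact h2
    have h4 : (g.map (σ : κ →+* κ)).IsRoot τ := hτ.dvd ((hg _).1 h1)
    rw [Polynomial.IsRoot.def, ← hσ, gald_eval] at h4
    exact (map_eq_zero_iff σ σ.injective).1 h4
  have hδg : S.δ ∣ g := by
    obtain ⟨q, hq⟩ := hgδ
    by_cases hqu : IsUnit q
    · obtain ⟨v, hv⟩ := hqu.exists_right_inv
      exact ⟨v, by rw [hq, mul_assoc, hv, mul_one]⟩
    · exfalso
      obtain ⟨z, hz⟩ := hroot q hqu
      have hzδ : S.δ.IsRoot z := hz.dvd ⟨g, by rw [hq, mul_comm]⟩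
      have hzg := hall z hzδ
      have h6 : (Polynomial.X - Polynomial.C z) * (Polynomial.X - Polynomial.C z) ∣ S.δ := by
        rw [hq]
        exact mul_dvd_mul (Polynomial.dvd_iff_isRoot.2 hzg) (Polynomial.dvd_iff_isRoot.2 hz)
      exact Polynomial.not_isUnit_X_sub_C z (hS.sep.squarefree _ h6)
  exact hδg.trans ((hg a).1 ha)

private theorem gald_core [CharZero κ] [IsAlgClosed κ] (hn : 2 ≤ n) (hS : S.Ok)
    (hG : IsGM S nab br) (hwd : ∑ i, S.w i < S.d) {U : Finset (Fin n →₀ ℕ)}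
    (hgen : ∀ (P : MvPolynomial (Fin n) κ) (N : ℕ), (∀ e ∈ P.support, wt S.w e ≤ N) →
      ∃ a : (Fin n →₀ ℕ) → Polynomial κ, (∀ u, a u ≠ 0 → S.d * (a u).natDegree + wt S.w u ≤ N) ∧
        br P = ∑ u ∈ U, algebraMap (Polynomial κ) (RatFunc κ) (a u) • br (monomial u 1))
    (hli : ∀ a : (Fin n →₀ ℕ) → RatFunc κ, ∑ u ∈ U, a u • br (monomial u 1) = 0 →
      ∀ u ∈ U, a u = 0)
    (hact : ∀ τ τ' : κ, S.δ.IsRoot τ → S.δ.IsRoot τ' →
      ∃ σ : κ ≃+* κ, σ τ = τ' ∧ Nonempty (GaldAct nab br σ))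
    (H₀ : Submodule (RatFunc κ) H) (hle : H₀ ≤ Hprim S nab br) (hst : ∀ h ∈ H₀, nab h ∈ H₀) :
    H₀ = ⊥ ∨ H₀ = Hprim S nab br := by
  classical
  by_cases hne : Hprim S nab br = ⊥
  · left
    rw [hne] at hle
    exact le_bot_iff.1 hle
  by_cases h0 : H₀ = ⊥
  · exact Or.inl h0
  right
  obtain ⟨k, hα⟩ := gald_alpha (κ := κ) hn
  have hn0 : 0 < n := by omega
  have hfin : Module.Finite (RatFunc κ) H := H_finite hn0 hS hG
  have hTu : ∀ {σ : κ ≃+* κ} (A : GaldAct nab br σ),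
      A.T (lv nab br (k + 1) (1 : MvPolynomial (Fin n) κ)) =
        lv nab br (k + 1) (1 : MvPolynomial (Fin n) κ) := fun A => gald_lv A (k + 1) 0
  have hart : IsArtinian (RatFunc κ) H := inferInstance
  have hnoe : IsNoetherian (RatFunc κ) H := inferInstance
  obtain ⟨H1, ⟨hH1le, hH1st, hH1ne⟩, hH1min⟩ := IsArtinian.set_has_minimal
    {Z : Submodule (RatFunc κ) H | Z ≤ H₀ ∧ (∀ h ∈ Z, nab h ∈ Z) ∧ Z ≠ ⊥}
    ⟨H₀, le_refl _, hst, h0⟩
  have hmin : ∀ Z : Submodule (RatFunc κ) H, Z ≤ H1 → (∀ h ∈ Z, nab h ∈ Z) →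
      Z = ⊥ ∨ Z = H1 := by
    intro Z hZ hZst
    by_cases hZ0 : Z = ⊥
    · exact Or.inl hZ0
    · right
      by_contra hne'
      exact hH1min Z ⟨hZ.trans hH1le, hZst, hZ0⟩ (lt_of_le_of_ne hZ hne')
  have hH1P : H1 ≤ Hprim S nab br := hH1le.trans hle
  have hbot : ∀ h ∈ (⊥ : Submodule (RatFunc κ) H), nab h ∈ (⊥ : Submodule (RatFunc κ) H) := by
    intro h hh
    rw [Submodule.mem_bot] at hh
    rw [hh, map_zero]
    exact Submodule.zero_mem _
  obtain ⟨Y, ⟨hYP, hYst, hYinf⟩, hYmax⟩ := set_has_maximal_iff_noetherian.2 hnoe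
    {Z : Submodule (RatFunc κ) H | Z ≤ Hprim S nab br ∧ (∀ h ∈ Z, nab h ∈ Z) ∧ H1 ⊓ Z = ⊥}
    ⟨⊥, bot_le, hbot, inf_bot_eq _⟩
  have hXst : ∀ h ∈ H1 ⊔ Y, nab h ∈ H1 ⊔ Y := gald_sup hH1st hYst
  by_cases hX : H1 ⊔ Y = Hprim S nab br
  · rcases no_split hn0 hS hG hwd hgen hli k hα
      (gald_ann hn0 hS hG hwd hne k hact) H1 Y hH1st hYst hYinf hX with h | h
    · exact absurd h hH1ne
    · rw [h, sup_bot_eq] at hX
      refine le_antisymm hle ?_
      rw [← hX]
      exact hH1le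
  · exfalso
    obtain ⟨τ', hτ', hall⟩ := sing_all hn0 hS hG hwd k (H1 ⊔ Y) (sup_le hH1P hYP) hXst hX
    obtain ⟨τ, hτ, x, hxE, hxH, p, hp, hpe⟩ := sing_ne hn0 hS hG k H1 hH1P hH1st hH1ne
    obtain ⟨σ, hσ, ⟨A⟩⟩ := hact τ τ' hτ hτ'
    have hTx : A.T x ∉ H1 ⊔ Y := by
      intro hmem
      have h1 := hall (A.T x) (gald_EE A k x hxE) hmem (p.map (σ : κ →+* κ)) (by
        have h2 := gald_EE A k _ hp
        rw [map_sub, A.hnab, gald_poly, hTu A] at h2
        exact h2)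
      rw [← hσ, gald_eval] at h1
      exact hpe ((map_eq_zero_iff σ σ.injective).1 h1)
    have hIst : ∀ h ∈ galdIm A H1, nab h ∈ galdIm A H1 := gald_im_st A hH1st
    have hIP : galdIm A H1 ≤ Hprim S nab br := gald_im_prim A hH1P
    have hinf : galdIm A H1 ⊓ (H1 ⊔ Y) = ⊥ := by
      rcases hmin (galdPre A (galdIm A H1 ⊓ (H1 ⊔ Y))) (by
        intro z hz
        have h1 : A.T.symm (A.T z) ∈ H1 := hz.1
        rw [AddEquiv.symm_apply_apply] at h1
        exact h1) (gald_pre_st A (gald_inf hIst hXst)) with h1 | h1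
      · rw [eq_bot_iff]
        intro y hy
        have h2 : A.T.symm y ∈ galdPre A (galdIm A H1 ⊓ (H1 ⊔ Y)) := by
          show A.T (A.T.symm y) ∈ galdIm A H1 ⊓ (H1 ⊔ Y)
          rw [AddEquiv.apply_symm_apply]
          exact hy
        rw [h1, Submodule.mem_bot] at h2
        rw [Submodule.mem_bot, ← A.T.apply_symm_apply y, h2, map_zero]
      · exfalso
        have h2 : x ∈ galdPre A (galdIm A H1 ⊓ (H1 ⊔ Y)) := by
          rw [h1]
          exact hxH
        exact hTx h2.2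
    have hY' : Y < Y ⊔ galdIm A H1 := by
      refine lt_of_le_of_ne le_sup_left ?_
      intro he
      apply hTx
      have h1 : A.T x ∈ Y ⊔ galdIm A H1 := Submodule.mem_sup_right (gald_im_mem A hxH)
      rw [← he] at h1
      exact Submodule.mem_sup_right h1
    refine hYmax (Y ⊔ galdIm A H1) ⟨sup_le hYP hIP, gald_sup hYst hIst, ?_⟩ hY'
    rw [eq_bot_iff]
    rintro h ⟨hh1, hh2⟩
    obtain ⟨y, hy, z, hz, hyz⟩ := Submodule.mem_sup.1 hh2
    have hz0 : z ∈ galdIm A H1 ⊓ (H1 ⊔ Y) := by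
      refine ⟨hz, ?_⟩
      have h1 : z = h - y := by rw [← hyz]; abel
      rw [h1]
      exact Submodule.sub_mem _ (Submodule.mem_sup_left hh1) (Submodule.mem_sup_right hy)
    rw [hinf, Submodule.mem_bot] at hz0
    rw [hz0, add_zero] at hyz
    have h2 : h ∈ H1 ⊓ Y := ⟨hh1, by rw [← hyz]; exact hy⟩
    rw [hYinf] at h2
    exact h2

end core

private theorem gald_hom {κ : Type*} [Field κ] {n : ℕ} (w : Fin n → ℕ) (d : ℕ)
    (φ : MvPolynomial (Fin n) κ) : Hom w d (part w d φ) := by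
  classical
  intro e he
  by_contra h
  rw [mem_support_iff] at he
  apply he
  unfold part
  rw [coeff_weightedHomogeneousComponent, if_neg]
  intro h1
  apply h
  rw [← h1, Finsupp.weight_apply]
  refine Eq.symm ((Finsupp.sum_fintype e (fun i c => c • w i) (fun i => zero_smul ℕ (w i))).trans ?_)
  unfold wt
  refine Finset.sum_congr rfl fun i _ => ?_
  rw [smul_eq_mul, mul_comm]

private theorem gald_fix {k₁ M : Type u} [Field k₁] [Field M] [Algebra k₁ M] {n : ℕ}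
    (S₁ : Dat k₁ n) (σ : M ≃+* M) (hσ : ∀ x : k₁, σ (algebraMap k₁ M x) = algebraMap k₁ M x) :
    (S₁.map (algebraMap k₁ M)).map (σ : M →+* M) = S₁.map (algebraMap k₁ M) := by
  have h1 : (σ : M →+* M).comp (algebraMap k₁ M) = algebraMap k₁ M := RingHom.ext hσ
  unfold Dat.map
  simp only [MvPolynomial.map_map, Polynomial.map_map, h1]

theorem gen_irr {k₁ M : Type u} [Field k₁] [CharZero k₁] [Field M] [CharZero M] [Algebra k₁ M]
    [IsAlgClosed M] {n : ℕ} (hn : 2 ≤ n) (S₁ : Dat k₁ n) (hS₁ : S₁.Ok) (hirr : Irreducible S₁.δ)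
    (hwd : ∑ i, S₁.w i < S₁.d) : GMIrr (S₁.map (algebraMap k₁ M)) := by
  intro nab hG H' hle hst
  have hS := map_ok S₁ hS₁ (algebraMap k₁ M)
  have hfix := gald_fix (M := M) S₁
  have hroot : ∀ τ : M, (S₁.map (algebraMap k₁ M)).δ.IsRoot τ → Polynomial.aeval τ S₁.δ = 0 := by
    intro τ hτ
    rw [← Polynomial.eval_map_algebraMap]
    exact hτ
  have hwd' : ∑ i, (S₁.map (algebraMap k₁ M)).w i < (S₁.map (algebraMap k₁ M)).d := hwd
  generalize S₁.map (algebraMap k₁ M) = S at *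
  obtain ⟨U, hU⟩ := exists_MB S.w hS.w_pos S.d (part S.w S.d S.φ) (gald_hom S.w S.d S.φ) S.M hS.jac
  refine gald_core hn hS hG hwd' (fun P N hP => h_gen hn hS hG U hU P N hP)
    (fun a h => h_ind hn S hS U hU a h) ?_ H' hle hst
  intro τ τ' hτ hτ'
  obtain ⟨σ, hσ1, hσ2⟩ := exists_aut S₁.δ hirr τ τ' (hroot τ hτ) (hroot τ' hτ')
  obtain ⟨s, T, h1, h2, h3, h4⟩ := exists_act S hS σ (hfix σ hσ1) nab hG
  exact ⟨σ, hσ2, ⟨⟨s, T, h1, h2, h3, h4⟩⟩⟩

end MPadcHM
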