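import Pool.Agent.Lib.MP_adc574_ag_HM.IsoC
import Pool.Agent.Lib.MP_adc574_ag_HM.WA

/-!
# JOB IsoE: the determinant of a stable sublattice

`M` algebraically closed, `δ ∈ M[t]` monic separable, `G i j = ε_i p_j + δ E i j`, `w_i ∈ M[t]^ι` (`i : Fin g`) with `δ w_i' + G w_i = ∑_j γ j i w_j`, the values `w_i(τ)` are `M`-independent for all `τ ∈ M`. Let `T = ∑ γ i i`.
(1) `natDegree T < natDegree δ` (or `T = 0`) : the array `c = dform w : (Fin g → ι) → M[t]` is not 0 (the `w_i(0)` are independent, so some `g × g` minor of the matrix `(w_i(0))` is not 0; here `g ≥ 1` is not needed: for `g = 0` `T = 0`). By `dform_conn`-type formula multiplied by `δ`: `δ c' + act Gᵀ c = T c` (apply `dform_deriv'` over `K = M(t)` with `B = G / δ`,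
  `g = γ / δ`, or prove it directly: `conn D (G/δ) w_i = ∑ (γ j i / δ) w_j` in `K`). For an array `c ≠ 0` let `o(c) = max_J (d natDegree (c J) + ∑_k q (J k))` over `c J ≠ 0`. The entries of `δ c' + act Gᵀ c` have `d natDegree + ∑ q (J k) ≤ o(c) + d natDegree δ - d` (`hdeg`: `act Gᵀ c J = ∑_k ∑_v c (update J k v) * Gᵀ v (J k)`,
  `d natDegree (G (J k) v) + q (J k) ≤ q v + d natDegree δ - d`). For `J` attaining `o(c)`: `d natDegree (T * c J) + ∑ q = d natDegree T + o(c)`. So `natDegree T ≤ natDegree δ - 1` if `T ≠ 0` (`d > 0`; in particular `natDegree δ ≥ 1`).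
(2) For a root `τ` of `δ`: `T(τ) = 0` or `T(τ) = α δ'(τ)`. At `τ`: `G(τ) = ε(τ) p(τ)ᵀ`, so `(p(τ)·w_i(τ)) ε(τ) = ∑_j γ_ji(τ) w_j(τ)`. If all `p(τ)·w_i(τ) = 0` then `γ(τ) = 0` (independence), `T(τ) = 0`. If `ε(τ) = 0` the same. Otherwise `ε(τ) = ∑ b_j w_j(τ)`, `γ_ji(τ) = (p·w_i) b_j`, `T(τ) = ∑_i (p·w_i) b_i = p(τ)·ε(τ)`, and by `hα`
  `(∑ ε_i p_i - α δ')(τ) ε_l(τ) = 0` for all `l`, some `ε_l(τ) ≠ 0`: `T(τ) = α δ'(τ)`.
(3) `δ = ∏ (t - τ)` over the set `Z` of its roots (separable, split, monic). `δ₁ = ∏_{τ ∈ Z, T(τ) ≠ 0} (t - τ)`, `δ₂ = ∏_{τ ∈ Z, T(τ) = 0} (t - τ)`. `α δ₁' δ₂` has degree `< deg δ` and the same values as `T` at all roots: at a root of `δ₂` it is 0, at a root `τ` of `δ₁`: `α δ₁'(τ) δ₂(τ) = α δ'(τ) = T(τ)`. So `T = α δ₁' δ₂` (`Polynomial.eq_of_degree_sub_lt_of_eval_finset_eq` or similar).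
-/

set_option autoImplicit false

namespace MPadcHM

open MPadcLP

universe u

section isoe

variable {M : Type u} [Field M]

private def isoeB (d : ℕ) (N : ℤ) (p : Polynomial M) : Prop :=
  ∀ k : ℕ, p.coeff k ≠ 0 → (d : ℤ) * k ≤ N

private theorem isoeB_add {d : ℕ} {N : ℤ} {p q : Polynomial M} (hp : isoeB d N p)
    (hq : isoeB d N q) : isoeB d N (p + q) := by
  intro k hk
  by_cases h : p.coeff k = 0
  · refine hq k fun h' => hk ?_
    rw [Polynomial.coeff_add, h, h', add_zero]
  · exact hp k h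

private theorem isoeB_zero {d : ℕ} {N : ℤ} : isoeB d N (0 : Polynomial M) := fun k hk =>
  absurd (Polynomial.coeff_zero k) hk

private theorem isoeB_neg {d : ℕ} {N : ℤ} {p : Polynomial M} (hp : isoeB d N p) :
    isoeB d N (-p) := by
  intro k hk
  refine hp k fun h => hk ?_
  rw [Polynomial.coeff_neg, h, neg_zero]

private theorem isoeB_sum {d : ℕ} {N : ℤ} {α : Type*} (s : Finset α) (f : α → Polynomial M)
    (h : ∀ a ∈ s, isoeB d N (f a)) : isoeB d N (∑ a ∈ s, f a) := by
  classical
  induction s using Finset.induction_on with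
  | empty =>
    rw [Finset.sum_empty]
    exact isoeB_zero
  | insert a s ha ih =>
    rw [Finset.sum_insert ha]
    exact isoeB_add (h a (Finset.mem_insert_self a s))
      (ih fun b hb => h b (Finset.mem_insert_of_mem hb))

private theorem isoeB_mul {d : ℕ} {N N' : ℤ} {p q : Polynomial M} (hp : isoeB d N p)
    (hq : isoeB d N' q) : isoeB d (N + N') (p * q) := by
  intro k hk
  rw [Polynomial.coeff_mul] at hk
  obtain ⟨x, hx, h⟩ := Finset.exists_ne_zero_of_sum_ne_zero hk
  have h1 := Finset.HasAntidiagonal.mem_antidiagonal.1 hx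
  have h2 := hp x.1 (left_ne_zero_of_mul h)
  have h3 := hq x.2 (right_ne_zero_of_mul h)
  have h4 : (k : ℤ) = x.1 + x.2 := by
    rw [← h1]
    push_cast
    ring
  rw [h4, mul_add]
  exact add_le_add h2 h3

private theorem isoeB_nat {d : ℕ} {N : ℤ} {p : Polynomial M} (hp : isoeB d N p) (h : p ≠ 0) :
    (d : ℤ) * p.natDegree ≤ N :=
  hp p.natDegree (Polynomial.leadingCoeff_ne_zero.2 h)

private theorem isoeB_of {d : ℕ} {N : ℤ} {p : Polynomial M}
    (h : p ≠ 0 → (d : ℤ) * p.natDegree ≤ N) : isoeB d N p := by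
  intro k hk
  have h0 : p ≠ 0 := fun h' => hk (by rw [h', Polynomial.coeff_zero])
  have h1 : (k : ℤ) ≤ p.natDegree := by exact_mod_cast Polynomial.le_natDegree_of_ne_zero hk
  exact le_trans (mul_le_mul_of_nonneg_left h1 (Int.natCast_nonneg d)) (h h0)

private theorem isoeB_der {d : ℕ} {N : ℤ} {p : Polynomial M} (hp : isoeB d N p) :
    isoeB d (N - d) (Polynomial.derivative p) := by
  intro k hk
  rw [Polynomial.coeff_derivative] at hk
  have h1 := hp (k + 1) (left_ne_zero_of_mul hk)
  push_cast at h1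
  linarith

private theorem isoe_minor {ι : Type} [Fintype ι] {g : ℕ} (A : Fin g → ι → M)
    (h : LinearIndependent M A) : ∃ J : Fin g → ι, (Matrix.of fun v u => A v (J u)).det ≠ 0 := by
  classical
  set B : Matrix (Fin g) ι M := Matrix.of A with hB
  have hr : B.rank = g := by
    have h1 : LinearIndependent M B.row := h
    rw [h1.rank_matrix, Fintype.card_fin]
  rw [Matrix.rank_eq_finrank_span_cols] at hr
  obtain ⟨κ, a, ha, hs, hl⟩ := exists_linearIndependent' M B.col
  have : Finite κ := Finite.of_injective a ha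
  let : Fintype κ := Fintype.ofFinite κ
  have hc : Fintype.card κ = g := by
    have h2 := finrank_span_eq_card hl
    rw [hs, hr] at h2
    exact h2.symm
  let e : Fin g ≃ κ := (Fintype.equivFinOfCardEq hc).symm
  refine ⟨fun u => a (e u), ?_⟩
  have h3 : LinearIndependent M (Matrix.of fun v u => A v (a (e u))).col := by
    have h4 : (Matrix.of fun v u => A v (a (e u))).col = (B.col ∘ a) ∘ e := by
      funext u v
      rfl
    rw [h4]
    exact hl.comp e e.injective
  rw [Matrix.linearIndependent_cols_iff_isUnit, Matrix.isUnit_iff_isUnit_det] at h3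
  exact h3.ne_zero

private theorem isoe_eval_det {ι : Type} {g : ℕ} (w : Fin g → ι → Polynomial M) (τ : M)
    (J : Fin g → ι) : (dform w J).eval τ = (Matrix.of fun v u => (w v (J u)).eval τ).det := by
  have h1 : (dform w J).eval τ = Polynomial.evalRingHom τ (dform w J) := rfl
  rw [h1]
  unfold dform
  rw [RingHom.map_det]
  rfl

/-- Part (1). -/
private theorem isoe_deg {ι : Type} [Fintype ι] [DecidableEq ι] (d : ℕ) (hd : 0 < d)
    (q : ι → ℤ) (δ : Polynomial M) (G : Matrix ι ι (Polynomial M))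
    (hdeg : ∀ i j, G i j ≠ 0 → (d : ℤ) * (G i j).natDegree + q i ≤ q j + d * δ.natDegree - d)
    (g : ℕ) (w : Fin g → ι → Polynomial M) (γ : Matrix (Fin g) (Fin g) (Polynomial M))
    (hw : ∀ i u, δ * Polynomial.derivative (w i u) + ∑ v, G u v * w i v = ∑ j, γ j i * w j u)
    (hsat : LinearIndependent M (fun i => fun u => (w i u).eval 0))
    (hT : ∑ i, γ i i ≠ 0) : (∑ i, γ i i).natDegree + 1 ≤ δ.natDegree := by
  classical
  set T : Polynomial M := ∑ i, γ i i with hTdef
  have hc : ∀ J : Fin g → ι, δ * Polynomial.derivative (dform w J) =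
      act (Matrix.of fun i j => - G j i) (dform w) J + T * dform w J := by
    intro J
    have h1 := dform_deriv' (δ • dP M) (Matrix.of fun i j => - G j i) (Matrix.of fun v k => γ k v)
      w (fun v j => ?_) J
    · exact h1
    · have h2 : (δ • dP M) (w v j) = δ * Polynomial.derivative (w v j) := rfl
      have h3 := hw v j
      have h4 : ∑ i, w v i * (Matrix.of fun i j => - G j i) i j = - ∑ i, G j i * w v i := by
        rw [← Finset.sum_neg_distrib]
        refine Finset.sum_congr rfl fun i _ => ?_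
        rw [Matrix.of_apply]
        ring
      have h5 : ∑ k, (Matrix.of fun v k => γ k v) v k * w k j = ∑ k, γ k v * w k j := rfl
      rw [h2, h4, h5, ← h3]
      ring
  obtain ⟨J', hJ'⟩ := isoe_minor _ hsat
  have hJ'' : dform w J' ≠ 0 := by
    intro h
    apply hJ'
    rw [← isoe_eval_det w 0 J', h, Polynomial.eval_zero]
  obtain ⟨J0, hJ0m, hmax⟩ := Finset.exists_max_image
    (Finset.univ.filter fun J : Fin g → ι => dform w J ≠ 0)
    (fun J => (d : ℤ) * (dform w J).natDegree + ∑ k, q (J k))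
    ⟨J', by simpa using hJ''⟩
  have hJ0 : dform w J0 ≠ 0 := (Finset.mem_filter.1 hJ0m).2
  set O : ℤ := (d : ℤ) * (dform w J0).natDegree + ∑ k, q (J0 k) with hO
  have hb : ∀ J, isoeB d (O - ∑ k, q (J k)) (dform w J) := by
    intro J
    refine isoeB_of fun h => ?_
    have h1 := hmax J (Finset.mem_filter.2 ⟨Finset.mem_univ _, h⟩)
    linarith
  have h1 : T * dform w J0 = δ * Polynomial.derivative (dform w J0) +
      -(act (Matrix.of fun i j => - G j i) (dform w) J0) := by
    rw [hc J0]
    ring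
  have h2 : isoeB d (O - ∑ k, q (J0 k) + d * δ.natDegree - d) (T * dform w J0) := by
    rw [h1]
    refine isoeB_add ?_ (isoeB_neg ?_)
    · have h3 := isoeB_mul (isoeB_of (d := d) (N := (d : ℤ) * δ.natDegree) (p := δ)
        fun _ => le_refl _) (isoeB_der (hb J0))
      have h4 : (d : ℤ) * δ.natDegree + (O - ∑ k, q (J0 k) - d) =
        O - ∑ k, q (J0 k) + d * δ.natDegree - d := by ring
      rw [h4] at h3
      exact h3
    · refine isoeB_sum _ _ fun j _ => isoeB_sum _ _ fun i _ => ?_
      have h5 : isoeB d (q i + d * δ.natDegree - d - q (J0 j))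
          ((Matrix.of fun i j => - G j i) i (J0 j)) := by
        rw [Matrix.of_apply]
        refine isoeB_neg (isoeB_of fun h => ?_)
        have := hdeg _ _ h
        linarith
      have h6 := isoeB_mul (hb (Function.update J0 j i)) h5
      have h7 : ∑ k, q (Function.update J0 j i k) = ∑ k, q (J0 k) - q (J0 j) + q i := by
        have e1 : (fun k => q (Function.update J0 j i k)) =
            Function.update (fun k => q (J0 k)) j (q i) := by
          funext k
          by_cases hk : k = j
          · subst hk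
            rw [Function.update_self, Function.update_self]
          · rw [Function.update_of_ne hk, Function.update_of_ne hk]
        rw [e1, Finset.sum_update_of_mem (Finset.mem_univ j),
          ← Finset.sum_sdiff (Finset.subset_univ {j}), Finset.sum_singleton]
        ring
      have h8 : O - ∑ k, q (Function.update J0 j i k) + (q i + d * δ.natDegree - d - q (J0 j)) =
          O - ∑ k, q (J0 k) + d * δ.natDegree - d := by
        rw [h7]
        ring
      rw [h8] at h6
      exact h6
  have h3 := isoeB_nat h2 (mul_ne_zero hT hJ0)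
  rw [Polynomial.natDegree_mul hT hJ0] at h3
  have h4 : (d : ℤ) * (T.natDegree + 1) ≤ d * δ.natDegree := by
    push_cast at h3
    linarith
  have h5 : ((T.natDegree : ℤ) + 1) ≤ δ.natDegree :=
    le_of_mul_le_mul_left h4 (by exact_mod_cast hd)
  exact_mod_cast h5

/-- Part (2). -/
private theorem isoe_root {ι : Type} [Fintype ι] (δ : Polynomial M)
    (G E : Matrix ι ι (Polynomial M)) (ε p : ι → Polynomial M)
    (hG : ∀ i j, G i j = ε i * p j + δ * E i j) (α : M)
    (hα : ∀ l, δ ∣ (∑ i, ε i * p i - Polynomial.C α * Polynomial.derivative δ) * ε l)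
    (g : ℕ) (w : Fin g → ι → Polynomial M) (γ : Matrix (Fin g) (Fin g) (Polynomial M))
    (hw : ∀ i u, δ * Polynomial.derivative (w i u) + ∑ v, G u v * w i v = ∑ j, γ j i * w j u)
    (τ : M) (hsat : LinearIndependent M (fun i => fun u => (w i u).eval τ))
    (hτ : δ.eval τ = 0) : (∑ i, γ i i).eval τ = 0 ∨
      (∑ i, γ i i).eval τ = α * (Polynomial.derivative δ).eval τ := by
  classical
  set s : Fin g → M := fun i => ∑ v, (p v).eval τ * (w i v).eval τ with hs
  have h1 : ∀ i u, s i * (ε u).eval τ = ∑ j, (γ j i).eval τ * (w j u).eval τ := by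
    intro i u
    have h2 := congrArg (Polynomial.eval τ) (hw i u)
    simp only [Polynomial.eval_add, Polynomial.eval_mul, Polynomial.eval_finsetSum, hτ, zero_mul,
      zero_add, hG, add_zero] at h2
    rw [← h2, hs, Finset.sum_mul]
    refine Finset.sum_congr rfl fun v _ => ?_
    ring
  rw [Polynomial.eval_finsetSum]
  have hli := Fintype.linearIndependent_iff.1 hsat
  by_cases hall : ∀ i, s i = 0
  · left
    refine Finset.sum_eq_zero fun i _ => ?_
    refine hli (fun j => (γ j i).eval τ) ?_ i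
    funext u
    rw [Finset.sum_apply, Pi.zero_apply]
    show ∑ j, (γ j i).eval τ * (w j u).eval τ = 0
    rw [← h1, hall i, zero_mul]
  · obtain ⟨i0, hi0⟩ := not_forall.1 hall
    set b : Fin g → M := fun j => (γ j i0).eval τ / s i0 with hb
    have h3 : ∀ u, (ε u).eval τ = ∑ j, b j * (w j u).eval τ := by
      intro u
      have h4 := h1 i0 u
      have h5 : (ε u).eval τ = (∑ j, (γ j i0).eval τ * (w j u).eval τ) / s i0 := by
        rw [← h4, mul_div_cancel_left₀ _ hi0]
      rw [h5, Finset.sum_div]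
      refine Finset.sum_congr rfl fun j _ => ?_
      rw [hb]
      ring
    have h6 : ∀ i j, (γ j i).eval τ = s i * b j := by
      intro i j
      have h7 := hli (fun j => (γ j i).eval τ - s i * b j) ?_ j
      · exact sub_eq_zero.1 h7
      · funext u
        rw [Finset.sum_apply, Pi.zero_apply]
        show ∑ j, ((γ j i).eval τ - s i * b j) * (w j u).eval τ = 0
        simp only [sub_mul, Finset.sum_sub_distrib]
        rw [← h1, h3 u, Finset.mul_sum, sub_eq_zero]
        refine Finset.sum_congr rfl fun j _ => ?_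
        ring
    have h8 : ∑ i, (γ i i).eval τ = ∑ v, (ε v).eval τ * (p v).eval τ := by
      rw [Finset.sum_congr rfl fun i _ => h6 i i]
      simp only [hs, Finset.sum_mul, h3]
      rw [Finset.sum_comm]
      refine Finset.sum_congr rfl fun v _ => Finset.sum_congr rfl fun j _ => ?_
      ring
    by_cases hε : ∀ l, (ε l).eval τ = 0
    · left
      rw [h8]
      refine Finset.sum_eq_zero fun v _ => ?_
      rw [hε v, zero_mul]
    · right
      obtain ⟨l, hl⟩ := not_forall.1 hε
      obtain ⟨z, hz⟩ := hα l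
      have h9 := congrArg (Polynomial.eval τ) hz
      rw [Polynomial.eval_mul, Polynomial.eval_mul, hτ, zero_mul, Polynomial.eval_sub,
        Polynomial.eval_finsetSum, Polynomial.eval_mul, Polynomial.eval_C] at h9
      have h10 := (mul_eq_zero.1 h9).resolve_right hl
      rw [h8, ← sub_eq_zero, ← h10]
      simp only [Polynomial.eval_mul]

end isoe

theorem trace_form {M : Type u} [Field M] [CharZero M] [IsAlgClosed M] {ι : Type} [Fintype ι]
    [DecidableEq ι] (d : ℕ) (hd : 0 < d) (q : ι → ℤ) (δ : Polynomial M) (hδ : δ.Monic)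
    (hsep : δ.Separable) (G E : Matrix ι ι (Polynomial M)) (ε p : ι → Polynomial M)
    (hG : ∀ i j, G i j = ε i * p j + δ * E i j) (α : M)
    (hα : ∀ l, δ ∣ (∑ i, ε i * p i - Polynomial.C α * Polynomial.derivative δ) * ε l)
    (hdeg : ∀ i j, G i j ≠ 0 → (d : ℤ) * (G i j).natDegree + q i ≤ q j + d * δ.natDegree - d)
    (g : ℕ) (w : Fin g → ι → Polynomial M) (γ : Matrix (Fin g) (Fin g) (Polynomial M))
    (hw : ∀ i u, δ * Polynomial.derivative (w i u) + ∑ v, G u v * w i v = ∑ j, γ j i * w j u)
    (hsat : ∀ τ : M, LinearIndependent M (fun i => fun u => (w i u).eval τ)) :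
    ∃ δ₁ δ₂ : Polynomial M, δ₁.Monic ∧ δ₂.Monic ∧ δ = δ₁ * δ₂ ∧
      ∑ i, γ i i = Polynomial.C α * Polynomial.derivative δ₁ * δ₂ := by
  classical
  have hδ0 : δ ≠ 0 := hδ.ne_zero
  set T : Polynomial M := ∑ i, γ i i with hTdef
  have hprod : δ = ∏ τ ∈ δ.roots.toFinset, (Polynomial.X - Polynomial.C τ) := by
    have h1 := (IsAlgClosed.splits δ).eq_prod_roots_of_monic hδ
    have h2 : δ.roots.toFinset.val = δ.roots := by
      rw [Multiset.toFinset_val, Multiset.dedup_eq_self]
      exact Polynomial.nodup_roots hsep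
    rw [Finset.prod_eq_multiset_prod, h2]
    exact h1
  have hcard : δ.natDegree = δ.roots.toFinset.card := by
    conv_lhs => rw [hprod]
    rw [Polynomial.natDegree_prod_of_monic _ _ fun τ _ => Polynomial.monic_X_sub_C τ,
      Finset.sum_congr rfl fun τ _ => Polynomial.natDegree_X_sub_C τ, Finset.sum_const,
      smul_eq_mul, mul_one]
  set Z := δ.roots.toFinset with hZ
  set δ₁ : Polynomial M := ∏ τ ∈ Z.filter (fun τ => T.eval τ ≠ 0),
    (Polynomial.X - Polynomial.C τ) with hδ₁
  set δ₂ : Polynomial M := ∏ τ ∈ Z.filter (fun τ => ¬ T.eval τ ≠ 0),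
    (Polynomial.X - Polynomial.C τ) with hδ₂
  have hm₁ : δ₁.Monic := Polynomial.monic_prod_of_monic _ _ fun τ _ => Polynomial.monic_X_sub_C τ
  have hm₂ : δ₂.Monic := Polynomial.monic_prod_of_monic _ _ fun τ _ => Polynomial.monic_X_sub_C τ
  have hmul : δ = δ₁ * δ₂ := by
    rw [hδ₁, hδ₂, Finset.prod_filter_mul_prod_filter_not]
    exact hprod
  refine ⟨δ₁, δ₂, hm₁, hm₂, hmul, ?_⟩
  have hev : ∀ τ ∈ Z, δ.eval τ = 0 := by
    intro τ hτ
    exact (Polynomial.mem_roots hδ0).1 (Multiset.mem_toFinset.1 hτ)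
  have hTdeg : T.degree < (Z.card : WithBot ℕ) := by
    by_cases hT : T = 0
    · rw [hT, Polynomial.degree_zero]
      exact WithBot.bot_lt_coe _
    · have h1 := isoe_deg d hd q δ G hdeg g w γ hw (hsat 0) hT
      rw [Polynomial.degree_eq_natDegree hT, ← hcard]
      exact_mod_cast h1
  have hRdeg : (Polynomial.C α * Polynomial.derivative δ₁ * δ₂).degree < (Z.card : WithBot ℕ) := by
    by_cases h0 : Polynomial.C α * Polynomial.derivative δ₁ * δ₂ = 0
    · rw [h0, Polynomial.degree_zero]
      exact WithBot.bot_lt_coe _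
    · have h1 : Polynomial.derivative δ₁ ≠ 0 := by
        intro h
        apply h0
        rw [h, mul_zero, zero_mul]
      have h2 : Polynomial.C α ≠ 0 := by
        intro h
        apply h0
        rw [h, zero_mul, zero_mul]
      have h3 : (Polynomial.derivative δ₁).natDegree < δ₁.natDegree := by
        refine Polynomial.natDegree_derivative_lt fun h => h1 ?_
        exact Polynomial.derivative_of_natDegree_zero h
      rw [Polynomial.degree_eq_natDegree h0, Polynomial.natDegree_mul (mul_ne_zero h2 h1)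
        hm₂.ne_zero, Polynomial.natDegree_mul h2 h1, Polynomial.natDegree_C, zero_add, ← hcard,
        hmul, Polynomial.natDegree_mul hm₁.ne_zero hm₂.ne_zero]
      exact_mod_cast Nat.add_lt_add_right h3 _
  refine Polynomial.eq_of_degree_sub_lt_of_eval_finset_eq Z
    (lt_of_le_of_lt (Polynomial.degree_sub_le _ _) (max_lt hTdeg hRdeg)) fun τ hτ => ?_
  by_cases h : T.eval τ = 0
  · have h1 : δ₂.eval τ = 0 := by
      rw [hδ₂, Polynomial.eval_prod]
      refine Finset.prod_eq_zero (Finset.mem_filter.2 ⟨hτ, not_not.2 h⟩) ?_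
      simp
    rw [h, Polynomial.eval_mul, h1, mul_zero]
  · have h1 : δ₁.eval τ = 0 := by
      rw [hδ₁, Polynomial.eval_prod]
      refine Finset.prod_eq_zero (Finset.mem_filter.2 ⟨hτ, h⟩) ?_
      simp
    have h2 := (isoe_root δ G E ε p hG α hα g w γ hw τ (hsat τ) (hev τ hτ)).resolve_left h
    rw [← hTdef] at h2
    rw [h2, hmul, Polynomial.derivative_mul]
    simp only [Polynomial.eval_mul, Polynomial.eval_add, Polynomial.eval_C, h1, zero_mul, add_zero]
    ring

end MPadcHM
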