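import Pool.Agent.Lib.MP_adc574_ag_HM.IsoG

/-!
# JOB IsoH: the transported subspace over the fraction field of `M[[s]][t]`

`L` = fraction field of `A[t]`, `R = M(t)[[s]]`, `L' = FractionRing R`, `i : L → L'` the extension of `algebraMap ∘ jR` (injective: `jR_injective`, `IsFractionRing.lift`). `Ψ_i = algebraMap ∘ ψ i ∈ L'^ι`. They are `L'`-independent: for some `J0` `dform ψ J0` has constant coefficient `algebraMap (dform w J0) ≠ 0` (`hind`: the `w_i` are independent over `K`, so some `g × g` minor is
not 0: `Matrix` rank / `LinearIndependent` gives a nonzero minor; for `g = 0` `dform = 1`). Let `a_J` with `jR a_J = y * dform ψ J`, so `a_{J0} ≠ 0`. `W := span_L (x_k)`, `x_k u = a_{J0[k → u]} / a_{J0}`. `i (x_k u) = dform Ψ (J0[k → u]) / dform Ψ J0` (`y ≠ 0` cancels), so by `dform_reduced` the `i (x_k)` are a basis of `span_{L'} Ψ`, with `i (x_k (J0 l)) = δ_kl`, so `x_k (J0 l) = δ_kl`: the `x_k` are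
`L`-independent, `finrank W = g`.
* Membership criterion: for `x ∈ L^ι`: if `i x ∈ span_{L'} Ψ` then `i x = ∑_k (i x)(J0 k) i x_k = i (∑ x(J0 k) x_k)`, so `x = ∑ x (J0 k) x_k ∈ W`; conversely `x ∈ W` gives `i x ∈ span_{L'} Ψ`.
* stable: the derivation `dtR` of `R` extends to a derivation `D'` of `L'` (quotient rule; a derivation of a domain extends to its fraction field: e.g. as in `exists_DK`, `IsFractionRing`, Kaehler differentials of the localization, `Algebra.FormallyEtale.of_isLocalization`; or construct it by hand), `D' ∘ i = i ∘ DL` (on `A[t]`: `hDL`, `dtR_jR`; quotients). For `x ∈ W`: `i (conn DL B_L x) = conn D' B' (i x)`, `B' = i B_L = algebraMap BtR`, and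
  `span_{L'} Ψ` is stable under `conn D' B'` (`ht`: `conn dtR BtR (ψ i)` is a combination of the `ψ j`; Leibniz). So `conn DL B_L x ∈ W`.
* `Q`: let `ψ k ∈ span_R (range cx)` for all `k`. For `x ∈ W`: `i x ∈ span_{L'} Ψ ⊂ span_{L'} (algebraMap cx) = span_{L'} (i cl)` (`hcompat`: `algebraMap b * cl = algebraMap a` in `L`, `jR b * cx = jR a` in `R`, `b ≠ 0`, so `i (cl x u) = algebraMap (cx x u)`). A vector `x ∈ L^ι` with `i x` in the `L'`-span of `i`-images of vectors of `L^ι` is in their `L`-span (choose a finite family; a linear system over `L` which is solvable over `L'` is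
  solvable over `L`; e.g. a linear functional `f` on `L^ι` vanishing on the `L`-span and not at `x` would extend to `L'^ι`).
-/

set_option autoImplicit false

namespace MPadcHM

open MPadcLP PowerSeries

universe u

private theorem isoh_leib {B : Type u} [CommRing B] (D : Der B) (x y : B) :
    D (x * y) = x * D y + y * D x := by
  rw [Derivation.leibniz, smul_eq_mul, smul_eq_mul]

section IsoHAux

variable {γ ι : Type} [Fintype γ] [DecidableEq γ] [Fintype ι] [DecidableEq ι]

private theorem isoh_conn_zero {E : Type u} [CommRing E] (D : Der E) (B : Matrix ι ι E) :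
    conn D B 0 = 0 := by
  funext u
  show D ((0 : ι → E) u) + ∑ v, B u v * (0 : ι → E) v = (0 : ι → E) u
  simp

private theorem isoh_conn_add {E : Type u} [CommRing E] (D : Der E) (B : Matrix ι ι E)
    (x y : ι → E) : conn D B (x + y) = conn D B x + conn D B y := by
  funext u
  show D (x u + y u) + ∑ v, B u v * (x v + y v) =
    (D (x u) + ∑ v, B u v * x v) + (D (y u) + ∑ v, B u v * y v)
  rw [map_add]
  simp only [mul_add, Finset.sum_add_distrib]
  ring

private theorem isoh_conn_smul {E : Type u} [CommRing E] (D : Der E) (B : Matrix ι ι E) (r : E)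
    (x : ι → E) : conn D B (r • x) = D r • x + r • conn D B x := by
  funext u
  show D (r * x u) + ∑ v, B u v * (r * x v) = D r * x u + r * (D (x u) + ∑ v, B u v * x v)
  rw [isoh_leib, mul_add, Finset.mul_sum]
  have h1 : ∀ v, B u v * (r * x v) = r * (B u v * x v) := fun v => by ring
  rw [Finset.sum_congr rfl fun v _ => h1 v]
  ring

private theorem isoh_cramer {E : Type u} [CommRing E] (w : γ → ι → E) (J0 : γ → ι) (v : γ)
    (u : ι) : dform w (Function.update J0 v u) =
      ∑ k, (Matrix.of fun v u => w v (J0 u)).adjugate v k * w k u := by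
  have h1 : (Matrix.of fun v' u' => w v' (Function.update J0 v u u')) =
      (Matrix.of fun v u => w v (J0 u)).updateCol v (fun v' => w v' u) := by
    ext v' u'
    rw [Matrix.updateCol_apply]
    by_cases hu : u' = v
    · subst hu
      simp
    · simp [hu]
  unfold dform
  rw [h1, ← Matrix.cramer_apply, Matrix.cramer_eq_adjugate_mulVec]
  rfl

private theorem isoh_map {E E' : Type u} [CommRing E] [CommRing E'] (f : E →+* E')
    (c : γ → ι → E) (J : γ → ι) : f (dform c J) = dform (fun v u => f (c v u)) J := by
  unfold dform
  rw [RingHom.map_det]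
  rfl

private theorem isoh_minor {F : Type u} [Field F] (w : γ → ι → F) (hw : LinearIndependent F w) :
    ∃ J0 : γ → ι, dform w J0 ≠ 0 := by
  by_contra hcon
  push Not at hcon
  obtain ⟨φ, hφ⟩ := LinearMap.exists_leftInverse_of_injective (Fintype.linearCombination F w)
    (LinearMap.ker_eq_bot.2 hw.fintypeLinearCombination_injective)
  have h1 : ∀ v u, ∑ i, w v i * φ (Pi.single i 1) u = (1 : Matrix γ γ F) v u := by
    intro v u
    have h2 : φ (w v) = Pi.single v 1 := by
      have h3 := LinearMap.congr_fun hφ (Pi.single v 1)
      rw [LinearMap.comp_apply, LinearMap.id_apply, Fintype.linearCombination_apply_single,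
        one_smul] at h3
      exact h3
    have h4 : w v = ∑ i, w v i • (Pi.single i 1 : ι → F) := by
      funext j
      rw [Finset.sum_apply]
      simp [Pi.single_apply]
    have h5 : φ (w v) u = ∑ i, w v i * φ (Pi.single i 1) u := by
      conv_lhs => rw [h4]
      rw [map_sum, Finset.sum_apply]
      refine Finset.sum_congr rfl fun i _ => ?_
      rw [map_smul]
      rfl
    rw [← h5, h2, Matrix.one_apply, Pi.single_apply]
    by_cases hvu : v = u
    · rw [if_pos hvu, if_pos hvu.symm]
    · rw [if_neg hvu, if_neg (Ne.symm hvu)]
  have h6 := ev_dform w (fun u i => φ (Pi.single i 1) u)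
  have h7 : (Matrix.of fun v u => ∑ i, w v i * φ (Pi.single i 1) u) = (1 : Matrix γ γ F) := by
    ext v u
    exact h1 v u
  rw [h7, Matrix.det_one] at h6
  have h8 : ev (dform w) (fun u i => φ (Pi.single i 1) u) = 0 := by
    unfold ev
    refine Finset.sum_eq_zero fun σ _ => ?_
    rw [hcon σ, zero_mul]
  rw [h8] at h6
  exact zero_ne_one h6

omit [DecidableEq ι] in
private theorem isoh_span {E E' : Type u} [CommRing E] [CommRing E'] (f : E →+* E') {Y : Type}
    (c : Y → ι → E) (z : ι → E) (hz : z ∈ Submodule.span E (Set.range c)) :
    (fun u => f (z u)) ∈ Submodule.span E' (Set.range fun e u => f (c e u)) := by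
  induction hz using Submodule.span_induction with
  | mem z hz =>
    obtain ⟨e, rfl⟩ := hz
    exact Submodule.subset_span ⟨e, rfl⟩
  | zero =>
    have h1 : (fun u => f ((0 : ι → E) u)) = 0 := by
      funext u
      exact map_zero f
    rw [h1]
    exact Submodule.zero_mem _
  | add x y _ _ hx hy =>
    have h1 : (fun u => f ((x + y) u)) = (fun u => f (x u)) + fun u => f (y u) := by
      funext u
      exact map_add f _ _
    rw [h1]
    exact Submodule.add_mem _ hx hy
  | smul r x _ hx =>
    have h1 : (fun u => f ((r • x) u)) = f r • fun u => f (x u) := by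
      funext u
      exact map_mul f _ _
    rw [h1]
    exact Submodule.smul_mem _ _ hx

private theorem isoh_descent {F F' : Type u} [Field F] [Field F'] (f : F →+* F') {Y : Type}
    (c : Y → ι → F) (z : ι → F)
    (hz : (fun u => f (z u)) ∈ Submodule.span F' (Set.range fun e u => f (c e u))) :
    z ∈ Submodule.span F (Set.range c) := by
  by_contra hcon
  obtain ⟨φ, hφ1, hφ2⟩ := Submodule.exists_dual_map_eq_bot_of_notMem hcon inferInstance
  have hφ : ∀ t : ι → F, φ t = ∑ u, φ (Pi.single u 1) * t u := by
    intro t
    have h4 : t = ∑ i, t i • (Pi.single i 1 : ι → F) := by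
      funext j
      rw [Finset.sum_apply]
      simp [Pi.single_apply]
    conv_lhs => rw [h4]
    rw [map_sum]
    refine Finset.sum_congr rfl fun i _ => ?_
    rw [map_smul, smul_eq_mul, mul_comm]
  have hf : ∀ t : ι → F, f (φ t) = ∑ u, f (φ (Pi.single u 1)) * f (t u) := by
    intro t
    rw [hφ t, map_sum]
    exact Finset.sum_congr rfl fun u _ => map_mul f _ _
  have hzero : ∀ t ∈ Submodule.span F' (Set.range fun e u => f (c e u)),
      ∑ u, f (φ (Pi.single u 1)) * t u = 0 := by
    intro t ht
    induction ht using Submodule.span_induction with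
    | mem t ht =>
      obtain ⟨e, rfl⟩ := ht
      have h5 : φ (c e) = 0 := by
        have h6 : φ (c e) ∈ Submodule.map φ (Submodule.span F (Set.range c)) :=
          Submodule.mem_map_of_mem (Submodule.subset_span ⟨e, rfl⟩)
        rw [hφ2] at h6
        exact h6
      show ∑ u, f (φ (Pi.single u 1)) * f (c e u) = 0
      rw [← hf, h5, map_zero]
    | zero => simp
    | add x y _ _ hx hy =>
      have h5 : ∀ u, f (φ (Pi.single u 1)) * (x + y) u =
          f (φ (Pi.single u 1)) * x u + f (φ (Pi.single u 1)) * y u := fun u => mul_add _ _ _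
      rw [Finset.sum_congr rfl fun u _ => h5 u, Finset.sum_add_distrib, hx, hy, add_zero]
    | smul r x _ hx =>
      have h5 : ∀ u, f (φ (Pi.single u 1)) * (r • x) u = r * (f (φ (Pi.single u 1)) * x u) :=
        fun u => by
          show f (φ (Pi.single u 1)) * (r * x u) = _
          ring
      rw [Finset.sum_congr rfl fun u _ => h5 u, ← Finset.mul_sum, hx, mul_zero]
  have h7 := hzero _ hz
  rw [← hf] at h7
  exact hφ1 ((map_eq_zero f).1 h7)

end IsoHAux

theorem iso_descend {M : Type u} [Field M] [CharZero M] {ι : Type} [Fintype ι] [DecidableEq ι]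
    (D : IsoData M ι) (hD : D.Ok) (g : ℕ) (w : Fin g → ι → Polynomial M)
    (hind : LinearIndependent (RatFunc M)
      fun i => fun u => algebraMap (Polynomial M) (RatFunc M) (w i u))
    (ψ : Fin g → ι → PowerSeries (RatFunc M))
    (h0 : ∀ i u, constantCoeff (ψ i u) = algebraMap (Polynomial M) (RatFunc M) (w i u))
    (ht : ∀ i, ∃ c : Fin g → PowerSeries (RatFunc M),
      conn (dtR M) D.BtR (ψ i) = ∑ j, c j • ψ j)
    (y : PowerSeries (RatFunc M)) (hy : constantCoeff y = 1)
    (hJ : ∀ J : Fin g → ι, ∃ a : Polynomial (PowerSeries M), jR M a = y * dform ψ J)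
    {L : Type u} [Field L] [Algebra (Polynomial (PowerSeries M)) L]
    [IsFractionRing (Polynomial (PowerSeries M)) L] (DL : Der L)
    (hDL : ∀ a, DL (algebraMap (Polynomial (PowerSeries M)) L a) =
      algebraMap (Polynomial (PowerSeries M)) L (dtP (PowerSeries M) a)) :
    ∃ W : Submodule L (ι → L), Module.finrank L W = g ∧
      (∀ x ∈ W, conn DL (fun i j => algebraMap (Polynomial (PowerSeries M)) L (D.Gt i j) /
        algebraMap (Polynomial (PowerSeries M)) L D.δ) x ∈ W) ∧
      ∀ (Y : Type) (cl : Y → ι → L) (cx : Y → ι → PowerSeries (RatFunc M)),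
        (∀ e u, ∃ a b : Polynomial (PowerSeries M), b ≠ 0 ∧
          algebraMap (Polynomial (PowerSeries M)) L b * cl e u =
            algebraMap (Polynomial (PowerSeries M)) L a ∧ jR M b * cx e u = jR M a) →
        (∀ i, ψ i ∈ Submodule.span (PowerSeries (RatFunc M)) (Set.range cx)) →
        W ≤ Submodule.span L (Set.range cl) := by
  classical
  have hinj : Function.Injective
      ((algebraMap (PowerSeries (RatFunc M)) (FractionRing (PowerSeries (RatFunc M)))).comp
        (jR M)) := by
    rw [RingHom.coe_comp]
    exact (IsFractionRing.injective (PowerSeries (RatFunc M))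
      (FractionRing (PowerSeries (RatFunc M)))).comp jR_injective
  obtain ⟨i, hi⟩ : ∃ i : L →+* FractionRing (PowerSeries (RatFunc M)),
      ∀ a, i (algebraMap (Polynomial (PowerSeries M)) L a) =
        algebraMap (PowerSeries (RatFunc M)) (FractionRing (PowerSeries (RatFunc M)))
          (jR M a) :=
    ⟨IsFractionRing.lift hinj, fun a => IsFractionRing.lift_algebraMap hinj a⟩
  obtain ⟨aR, haR⟩ : ∃ aR : PowerSeries (RatFunc M) →+*
      FractionRing (PowerSeries (RatFunc M)), aR = algebraMap (PowerSeries (RatFunc M))
        (FractionRing (PowerSeries (RatFunc M))) := ⟨_, rfl⟩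
  have haRinj : Function.Injective aR := by
    rw [haR]
    exact IsFractionRing.injective (PowerSeries (RatFunc M))
      (FractionRing (PowerSeries (RatFunc M)))
  rw [← haR] at hi
  have hiinj : Function.Injective i := i.injective
  obtain ⟨J0, hJ0⟩ := isoh_minor _ hind
  choose a ha using hJ
  have hy0 : y ≠ 0 := by
    rintro rfl
    rw [map_zero] at hy
    exact zero_ne_one hy
  have hψ0 : dform ψ J0 ≠ 0 := by
    intro h
    have h1 := congrArg (constantCoeff (R := RatFunc M)) h
    rw [isoh_map, map_zero] at h1
    apply hJ0
    rw [← h1]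
    congr 1
    funext k u
    exact (h0 k u).symm
  have ha0 : a J0 ≠ 0 := by
    intro h
    have h1 := ha J0
    rw [h, map_zero] at h1
    exact mul_ne_zero hy0 hψ0 h1.symm
  have hΨ : ∀ J, dform (fun k u => aR (ψ k u)) J = aR (dform ψ J) := fun J =>
    (isoh_map aR ψ J).symm
  have hΨ0 : dform (fun k u => aR (ψ k u)) J0 ≠ 0 := by
    rw [hΨ]
    exact fun h => hψ0 (haRinj (h.trans (map_zero aR).symm))
  obtain ⟨x, hx⟩ : ∃ x : Fin g → ι → L, ∀ k u, x k u =
      algebraMap (Polynomial (PowerSeries M)) L (a (Function.update J0 k u)) /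
        algebraMap (Polynomial (PowerSeries M)) L (a J0) := ⟨_, fun _ _ => rfl⟩
  have hLa0 : algebraMap (Polynomial (PowerSeries M)) L (a J0) ≠ 0 := fun h =>
    ha0 (IsFractionRing.injective (Polynomial (PowerSeries M)) L (h.trans (map_zero _).symm))
  have hix : ∀ k u, i (x k u) = dform (fun k u => aR (ψ k u)) (Function.update J0 k u) /
      dform (fun k u => aR (ψ k u)) J0 := by
    intro k u
    rw [hx, map_div₀, hi, hi, ha, ha, map_mul, map_mul, hΨ, hΨ,
      mul_div_mul_left _ _ fun h => hy0 (haRinj (h.trans (map_zero aR).symm))]
  obtain ⟨hspan, hdelta⟩ := dform_reduced (fun k u => aR (ψ k u)) J0 hΨ0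
  have hfx : (fun (v : Fin g) (u : ι) => dform (fun k u => aR (ψ k u)) (Function.update J0 v u) /
      dform (fun k u => aR (ψ k u)) J0) = fun v u => i (x v u) := by
    funext v u
    exact (hix v u).symm
  rw [hfx] at hspan
  have hxd : ∀ k l, x k (J0 l) = if k = l then 1 else 0 := by
    intro k l
    apply hiinj
    rw [hix, hdelta]
    split_ifs
    · exact (map_one i).symm
    · exact (map_zero i).symm
  have hli : LinearIndependent L x := by
    rw [Fintype.linearIndependent_iff]
    intro c hc l
    have h1 := congrFun hc (J0 l)
    rw [Finset.sum_apply] at h1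
    have h2 : ∀ k, (c k • x k) (J0 l) = if k = l then c k else 0 := by
      intro k
      show c k * x k (J0 l) = _
      rw [hxd]
      split_ifs
      · exact mul_one _
      · exact mul_zero _
    rw [Finset.sum_congr rfl fun k _ => h2 k] at h1
    simpa using h1
  have hxmem : ∀ k, (fun u => i (x k u)) ∈
      Submodule.span (FractionRing (PowerSeries (RatFunc M)))
        (Set.range fun k u => aR (ψ k u)) := fun k => by
    rw [← hspan]
    exact Submodule.subset_span ⟨k, rfl⟩
  have hmem : ∀ z : ι → L, (fun u => i (z u)) ∈
      Submodule.span (FractionRing (PowerSeries (RatFunc M)))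
        (Set.range fun k u => aR (ψ k u)) → z ∈ Submodule.span L (Set.range x) := by
    intro z hz
    rw [← hspan] at hz
    exact isoh_descent i x z hz
  refine ⟨Submodule.span L (Set.range x), ?_, ?_, ?_⟩
  · rw [finrank_span_eq_card hli, Fintype.card_fin]
  · -- stability
    have hN : ∀ z ∈ Submodule.span (PowerSeries (RatFunc M)) (Set.range ψ),
        conn (dtR M) D.BtR z ∈ Submodule.span (PowerSeries (RatFunc M)) (Set.range ψ) := by
      intro z hz
      induction hz using Submodule.span_induction with
      | mem z hz =>
        obtain ⟨k, rfl⟩ := hz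
        obtain ⟨c, hc⟩ := ht k
        rw [hc]
        exact Submodule.sum_mem _ fun j _ => Submodule.smul_mem _ _
          (Submodule.subset_span ⟨j, rfl⟩)
      | zero =>
        rw [isoh_conn_zero]
        exact Submodule.zero_mem _
      | add x y _ _ hx hy =>
        rw [isoh_conn_add]
        exact Submodule.add_mem _ hx hy
      | smul r x hxm hx =>
        rw [isoh_conn_smul]
        exact Submodule.add_mem _ (Submodule.smul_mem _ _ hxm) (Submodule.smul_mem _ _ hx)
    have hA : ∀ k, (fun u => jR M (a (Function.update J0 k u))) ∈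
        Submodule.span (PowerSeries (RatFunc M)) (Set.range ψ) := by
      intro k
      have h1 : (fun u => jR M (a (Function.update J0 k u))) =
          ∑ l, (y * (Matrix.of fun v u => ψ v (J0 u)).adjugate k l) • ψ l := by
        funext u
        rw [Finset.sum_apply, ha, isoh_cramer, Finset.mul_sum]
        refine Finset.sum_congr rfl fun l _ => ?_
        show _ = y * (Matrix.of fun v u => ψ v (J0 u)).adjugate k l * ψ l u
        ring
      rw [h1]
      exact Submodule.sum_mem _ fun j _ => Submodule.smul_mem _ _
          (Submodule.subset_span ⟨j, rfl⟩)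
    have hδ : constantCoeff (jR M D.δ) ≠ 0 := by
      rw [jR_const]
      intro h
      have h1 := (map_eq_zero_iff _ (RatFunc.algebraMap_injective M)).1 h
      exact (hD.monic.map (constantCoeff (R := M))).ne_zero h1
    have hδL : algebraMap (Polynomial (PowerSeries M)) L D.δ ≠ 0 := fun h =>
      hD.monic.ne_zero
        (IsFractionRing.injective (Polynomial (PowerSeries M)) L (h.trans (map_zero _).symm))
    have hB : ∀ u v, i (algebraMap (Polynomial (PowerSeries M)) L (D.Gt u v) /
        algebraMap (Polynomial (PowerSeries M)) L D.δ) = aR (D.BtR u v) := by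
      intro u v
      have h1 : D.BtR u v * jR M D.δ = jR M (D.Gt u v) := by
        show jR M (D.Gt u v) * (jR M D.δ)⁻¹ * jR M D.δ = _
        rw [mul_assoc, PowerSeries.inv_mul_cancel _ hδ, mul_one]
      have h2 : aR (jR M D.δ) ≠ 0 := fun h => by
        have h3 : jR M D.δ = 0 := haRinj (h.trans (map_zero aR).symm)
        rw [h3, map_zero] at hδ
        exact hδ rfl
      rw [map_div₀, hi, hi, ← h1, map_mul, mul_div_assoc, div_self h2, mul_one]
    have hkey : ∀ k, conn DL (fun i j => algebraMap (Polynomial (PowerSeries M)) L (D.Gt i j) /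
        algebraMap (Polynomial (PowerSeries M)) L D.δ) (x k) ∈
          Submodule.span L (Set.range x) := by
      intro k
      apply hmem
      have h1 : (fun u => i (conn DL (fun i j =>
          algebraMap (Polynomial (PowerSeries M)) L (D.Gt i j) /
            algebraMap (Polynomial (PowerSeries M)) L D.δ) (x k) u)) =
          (aR (jR M (a J0)))⁻¹ • ((fun u => aR (conn (dtR M) D.BtR
            (fun u => jR M (a (Function.update J0 k u))) u)) -
              aR (jR M (dtP (PowerSeries M) (a J0))) • fun u => i (x k u)) := by
        funext u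
        have hne : aR (jR M (a J0)) ≠ 0 := by
          rw [← hi]
          exact fun h => hLa0 (hiinj (h.trans (map_zero i).symm))
        have h2 : ∀ v, x k v * algebraMap (Polynomial (PowerSeries M)) L (a J0) =
            algebraMap (Polynomial (PowerSeries M)) L (a (Function.update J0 k v)) := by
          intro v
          rw [hx, div_mul_cancel₀ _ hLa0]
        have h3 := congrArg DL (h2 u)
        rw [isoh_leib, hDL, hDL] at h3
        have h4 : aR (jR M (a J0)) * i (conn DL (fun i j =>
          algebraMap (Polynomial (PowerSeries M)) L (D.Gt i j) /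
            algebraMap (Polynomial (PowerSeries M)) L D.δ) (x k) u) =
            aR (conn (dtR M) D.BtR (fun u => jR M (a (Function.update J0 k u))) u) -
              aR (jR M (dtP (PowerSeries M) (a J0))) * i (x k u) := by
          have h5 : conn (dtR M) D.BtR (fun u => jR M (a (Function.update J0 k u))) u =
              jR M (dtP (PowerSeries M) (a (Function.update J0 k u))) +
                ∑ v, D.BtR u v * jR M (a (Function.update J0 k v)) := by
            show dtR M (jR M (a (Function.update J0 k u))) + _ = _
            rw [dtR_jR]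
          have h6 : algebraMap (Polynomial (PowerSeries M)) L (a J0) *
              conn DL (fun i j => algebraMap (Polynomial (PowerSeries M)) L (D.Gt i j) /
                algebraMap (Polynomial (PowerSeries M)) L D.δ) (x k) u =
              algebraMap (Polynomial (PowerSeries M)) L
                (dtP (PowerSeries M) (a (Function.update J0 k u))) +
              ∑ v, algebraMap (Polynomial (PowerSeries M)) L (D.Gt u v) /
                algebraMap (Polynomial (PowerSeries M)) L D.δ *
                  algebraMap (Polynomial (PowerSeries M)) L (a (Function.update J0 k v)) -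
              algebraMap (Polynomial (PowerSeries M)) L (dtP (PowerSeries M) (a J0)) * x k u := by
            show algebraMap (Polynomial (PowerSeries M)) L (a J0) * (DL (x k u) +
              ∑ v, algebraMap (Polynomial (PowerSeries M)) L (D.Gt u v) /
                algebraMap (Polynomial (PowerSeries M)) L D.δ * x k v) = _
            have h7 : ∑ v, algebraMap (Polynomial (PowerSeries M)) L (D.Gt u v) /
                algebraMap (Polynomial (PowerSeries M)) L D.δ *
                  algebraMap (Polynomial (PowerSeries M)) L (a (Function.update J0 k v)) =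
                algebraMap (Polynomial (PowerSeries M)) L (a J0) *
                ∑ v, algebraMap (Polynomial (PowerSeries M)) L (D.Gt u v) /
                algebraMap (Polynomial (PowerSeries M)) L D.δ * x k v := by
              rw [Finset.mul_sum]
              refine Finset.sum_congr rfl fun v _ => ?_
              rw [← h2 v]
              ring
            rw [h7, ← h3]
            ring
          rw [h5, ← hi, ← map_mul, h6, map_sub, map_add, map_sum, map_add, map_sum, map_mul, hi, hi]
          congr 2
          refine Finset.sum_congr rfl fun v _ => ?_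
          rw [map_mul, hB, hi, map_mul]
        show _ = (aR (jR M (a J0)))⁻¹ *
          (aR (conn (dtR M) D.BtR (fun u => jR M (a (Function.update J0 k u))) u) -
              aR (jR M (dtP (PowerSeries M) (a J0))) * i (x k u))
        rw [← h4, ← mul_assoc, inv_mul_cancel₀ hne, one_mul]
      rw [h1]
      exact Submodule.smul_mem _ _ (Submodule.sub_mem _ (isoh_span aR ψ _ (hN _ (hA k)))
        (Submodule.smul_mem _ _ (hxmem k)))
    intro z hz
    induction hz using Submodule.span_induction with
    | mem z hz =>
      obtain ⟨k, rfl⟩ := hz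
      exact hkey k
    | zero =>
      rw [isoh_conn_zero]
      exact Submodule.zero_mem _
    | add x y _ _ hx hy =>
      rw [isoh_conn_add]
      exact Submodule.add_mem _ hx hy
    | smul r x hxm hx =>
      rw [isoh_conn_smul]
      exact Submodule.add_mem _ (Submodule.smul_mem _ _ hxm) (Submodule.smul_mem _ _ hx)
  · intro Y cl cx hcomp hψ
    have hce : ∀ e u, aR (cx e u) = i (cl e u) := by
      intro e u
      obtain ⟨p, b, hb, h1, h2⟩ := hcomp e u
      have h3 : aR (jR M b) ≠ 0 := by
        rw [← hi]
        intro h
        exact hb (IsFractionRing.injective (Polynomial (PowerSeries M)) L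
          ((hiinj (h.trans (map_zero i).symm)).trans (map_zero _).symm))
      have h4 := congrArg i h1
      have h5 := congrArg aR h2
      rw [map_mul, hi, hi] at h4
      rw [map_mul, ← h4] at h5
      exact mul_left_cancel₀ h3 h5
    rw [Submodule.span_le]
    rintro _ ⟨k, rfl⟩
    refine isoh_descent i cl (x k) ?_
    have hle : Submodule.span (FractionRing (PowerSeries (RatFunc M)))
        (Set.range fun k u => aR (ψ k u)) ≤
        Submodule.span (FractionRing (PowerSeries (RatFunc M)))
          (Set.range fun e u => i (cl e u)) := by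
      rw [Submodule.span_le]
      rintro _ ⟨l, rfl⟩
      have h1 := isoh_span aR cx (ψ l) (hψ l)
      have h2 : (fun e u => aR (cx e u)) = fun e u => i (cl e u) := by
        funext e u
        exact hce e u
      rw [h2] at h1
      exact h1
    exact hle (hxmem k)

end MPadcHM
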