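import Pool.Agent.Lib.MP_adc574_ag_HM.FinA
import Pool.Agent.Lib.MP_adc574_ag_HM.FinB

/-!
# JOB FinC: the residue exponent `α_k = n/2 - 1 - k`

`q` from `trace_id`. `ε = δ • [1]_{k+1}`. `nab ε = δ' • [1]_{k+1} + (k+2) δ • [1]_{k+2}` (`leib`, `DK_poly`, `nab_lv`; `δ • h` for `δ ∈ κ[t]` is `algebraMap δ • h`).
`δ(t) [1]_{k+2}`: the polynomial `dd(φ,t) ∈ κ[x][t]` with `δ(φ) - δ(t) = (φ - t) dd`: for `p = T^m`: `[φ^m]_{k+2} - t^m [1]_{k+2} = ∑_{s<m} t^s [φ^(m-1-s)]_{k+1}` (`lv_mul`), and
`[φ^(m-1-s)]_{k+1} ≡ t^(m-1-s) [1]_{k+1} mod EE k` (`EE_lift` with `p = T^(m-1-s)`), so `[φ^m]_{k+2} - t^m [1]_{k+2} ≡ m t^(m-1) [1]_{k+1} mod EE k`. By linearity for all `p ∈ κ[T]`: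
`[p(φ)]_{k+2} - p(t) [1]_{k+2} ≡ p'(t) [1]_{k+1} mod EE k`. For `p = δ`: `[δ(φ)]_{k+2} = [∑ q_i φ_i]_{k+2} = (k+2)⁻¹ [dvg q]_{k+1}` (`lv_exa`), and `2 dvg q - n δ'(φ) ∈ Jac φ` gives by `EE_lift`
`[dvg q]_{k+1} ≡ (n/2) δ' • [1]_{k+1} mod EE k`. So `(k+2) δ [1]_{k+2} ≡ (n/2) δ' [1]_{k+1} - (k+2) δ' [1]_{k+1}` and `nab ε ≡ (1 + n/2 - k - 2) δ' • [1]_{k+1} mod EE k`.
-/

set_option autoImplicit false

namespace MPadcHM

open MvPolynomial

universe u

variable {κ : Type u} [Field κ] [CharZero κ] {n : ℕ} {S : Dat κ n} {H : Type u} [AddCommGroup H]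
  [Module (RatFunc κ) H] [Module κ H] [IsScalarTower κ (RatFunc κ) H] [Module (Polynomial κ) H]
  [IsScalarTower (Polynomial κ) (RatFunc κ) H] [IsScalarTower κ (Polynomial κ) H]
  {nab : H →ₗ[κ] H} {br : MvPolynomial (Fin n) κ →ₗ[κ] H}

omit [CharZero κ] [Module (RatFunc κ) H] [IsScalarTower κ (RatFunc κ) H]
  [IsScalarTower (Polynomial κ) (RatFunc κ) H] in
private theorem finC_smul (a : κ) (h : H) : a • h = (Polynomial.C a : Polynomial κ) • h := by
  rw [← Polynomial.algebraMap_eq, algebraMap_smul]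

private theorem finC_diff (hS : S.Ok) (hG : IsGM S nab br) (k : ℕ) (p : Polynomial κ) :
    lv nab br (k + 2) (Polynomial.aeval S.φ p) - p • lv nab br (k + 2) 1 -
      Polynomial.derivative p • lv nab br (k + 1) 1 ∈ EE nab br k := by
  induction p using Polynomial.induction_on with
  | C a =>
    have h1 : (Polynomial.aeval S.φ (Polynomial.C a) : MvPolynomial (Fin n) κ) = a • 1 := by
      rw [Polynomial.aeval_C, Algebra.algebraMap_eq_smul_one]
    rw [h1, map_smul, finC_smul, sub_self, Polynomial.derivative_C, zero_smul, sub_zero]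
    exact Submodule.zero_mem _
  | add p q hp hq =>
    have h1 := Submodule.add_mem _ hp hq
    have h2 : lv nab br (k + 2) (Polynomial.aeval S.φ (p + q)) - (p + q) • lv nab br (k + 2) 1 -
        Polynomial.derivative (p + q) • lv nab br (k + 1) 1 =
        (lv nab br (k + 2) (Polynomial.aeval S.φ p) - p • lv nab br (k + 2) 1 -
          Polynomial.derivative p • lv nab br (k + 1) 1) +
        (lv nab br (k + 2) (Polynomial.aeval S.φ q) - q • lv nab br (k + 2) 1 -
          Polynomial.derivative q • lv nab br (k + 1) 1) := by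
      rw [map_add, map_add, map_add]
      module
    rw [h2]
    exact h1
  | monomial m a hp =>
    set p : Polynomial κ := Polynomial.C a * Polynomial.X ^ m with hpdef
    have h1 : Polynomial.C a * Polynomial.X ^ (m + 1) = Polynomial.X * p := by
      rw [hpdef, pow_succ]
      ring
    have h2 : lv nab br (k + 1) (Polynomial.aeval S.φ p) - p • lv nab br (k + 1) 1 ∈
        EE nab br k := by
      refine EE_lift hS hG k _ _ ?_
      rw [sub_self]
      exact Ideal.zero_mem _
    have h3 : Polynomial.aeval S.φ (Polynomial.X * p) = S.φ * Polynomial.aeval S.φ p := by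
      rw [map_mul, Polynomial.aeval_X]
    have h4 : lv nab br (k + 2) (S.φ * Polynomial.aeval S.φ p) =
        (Polynomial.X : Polynomial κ) • lv nab br (k + 2) (Polynomial.aeval S.φ p) +
          lv nab br (k + 1) (Polynomial.aeval S.φ p) := by
      rw [lv_mul hG (k + 1), ← RatFunc.algebraMap_X, algebraMap_smul]
    have h5 := Submodule.add_mem _ (Submodule.smul_mem _ (Polynomial.X : Polynomial κ) hp) h2
    rw [h1, h3, h4, Polynomial.derivative_mul, Polynomial.derivative_X]
    have h6 : (Polynomial.X : Polynomial κ) • lv nab br (k + 2) (Polynomial.aeval S.φ p) +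
        lv nab br (k + 1) (Polynomial.aeval S.φ p) -
        (Polynomial.X * p) • lv nab br (k + 2) 1 -
        (1 * p + Polynomial.X * Polynomial.derivative p) • lv nab br (k + 1) 1 =
        (Polynomial.X : Polynomial κ) • (lv nab br (k + 2) (Polynomial.aeval S.φ p) -
          p • lv nab br (k + 2) 1 - Polynomial.derivative p • lv nab br (k + 1) 1) +
        (lv nab br (k + 1) (Polynomial.aeval S.φ p) - p • lv nab br (k + 1) 1) := by
      module
    rw [h6]
    exact h5

theorem residue_exp (hS : S.Ok) (hG : IsGM S nab br) (k : ℕ) :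
    nab (S.δ • lv nab br (k + 1) 1) -
      (Polynomial.C ((n : κ) / 2 - 1 - k) * Polynomial.derivative S.δ) • lv nab br (k + 1) 1 ∈
        EE nab br k := by
  obtain ⟨q, hq1, hq2⟩ := trace_id S hS
  set u1 : H := lv nab br (k + 1) 1 with hu1
  set u2 : H := lv nab br (k + 2) 1 with hu2
  set U : H := lv nab br (k + 2) (Polynomial.aeval S.φ S.δ) with hU
  set L : H := lv nab br (k + 1) (dvg q) with hL
  have hc : ((((k + 1 : ℕ) : κ)) + 1) = ((k : κ) + 2) := by
    push_cast
    ring
  have hCc : (Polynomial.C ((k : κ) + 2) : Polynomial κ) = (k : Polynomial κ) + 2 := by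
    rw [map_add, map_natCast, map_ofNat]
  have hLU : L = ((k : Polynomial κ) + 2) • U := by
    rw [← hCc, ← finC_smul, hL, hU, hq1, map_sum, Finset.smul_sum]
    unfold dvg
    rw [map_sum]
    refine Finset.sum_congr rfl fun i _ => ?_
    rw [lv_exa hG (k + 1) i (q i), hc]
  have h1 : nab (S.δ • u1) = Polynomial.derivative S.δ • u1 +
      (S.δ * ((k : Polynomial κ) + 2)) • u2 := by
    have h2 : S.δ • u1 = (algebraMap (Polynomial κ) (RatFunc κ) S.δ) • u1 :=
      (algebraMap_smul (RatFunc κ) S.δ u1).symm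
    rw [h2, hG.leib, DK_poly, algebraMap_smul, algebraMap_smul, hu1, nab_lv, hc, finC_smul, hCc,
      ← mul_smul]
  have h2 := finC_diff hS hG k S.δ
  have h3 : lv nab br (k + 1) (2 * dvg q) - ((n : Polynomial κ) * Polynomial.derivative S.δ) • u1 ∈
      EE nab br k := by
    refine EE_lift hS hG k _ _ ?_
    rw [map_mul, map_natCast]
    exact hq2
  have h4 : lv nab br (k + 1) (2 * dvg q) = L + L := by
    rw [two_mul, map_add]
  rw [h4] at h3
  have hhalf : (Polynomial.C (1 / 2 : κ) : Polynomial κ) + Polynomial.C (1 / 2 : κ) = 1 := by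
    rw [← map_add, add_halves, map_one]
  have h5 : (Polynomial.C ((n : κ) / 2 - 1 - k) : Polynomial κ) =
      (n : Polynomial κ) * Polynomial.C (1 / 2 : κ) - 1 - (k : Polynomial κ) := by
    rw [map_sub, map_sub, map_one, map_natCast, div_eq_mul_one_div, map_mul, map_natCast]
  have h6 := Submodule.sub_mem _ (Submodule.smul_mem _ (Polynomial.C (1 / 2 : κ)) h3)
    (Submodule.smul_mem _ ((k : Polynomial κ) + 2) h2)
  have h7 : Polynomial.C (1 / 2 : κ) • (L + L) = L := by
    rw [smul_add, ← add_smul, hhalf, one_smul]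
  rw [smul_sub, h7, hLU] at h6
  have h8 : nab (S.δ • u1) - (Polynomial.C ((n : κ) / 2 - 1 - k) * Polynomial.derivative S.δ) • u1 =
      ((k : Polynomial κ) + 2) • U - Polynomial.C (1 / 2 : κ) •
        ((n : Polynomial κ) * Polynomial.derivative S.δ) • u1 -
      ((k : Polynomial κ) + 2) • (U - S.δ • u2 - Polynomial.derivative S.δ • u1) := by
    rw [h1, h5]
    module
  rw [h8]
  exact h6

end MPadcHM
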