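import Pool.Agent.Lib.MP_adc574_ag_HM.IsoL
import Pool.Agent.Lib.MP_adc574_ag_HM.FinC

/-!
# JOB IsoLb: local data of the full module at level `0`

`u := lv nab br 1 1` (so `nab (br P) = lv nab br 1 P`: `nab_lv` with `k = 0`, `lv_zero`), `EE 0 = ` the `κ[t]`-span of the `br x^e`.
* `co_EE`: every `x ∈ EE nab br 0` has polynomial coordinates (span induction; `br P` has by `Rep_exists` (with `B = κ`), `co_rep`), and conversely an element with polynomial coordinates `a` is `∑ a_u • br x^u ∈ EE 0`.
* `local0`: `S.δ • u ∈ EE 0` (`EE_delta`), let `ε` be its coordinates. For `j ∈ U` let `x^j - p_j(φ) ∈ Jac φ` (`finab_ex`); `nab (br x^j) - p_j • u ∈ EE 0` (`EE_lift`, `k = 0`), with coordinates `E i j`. So `δ • nab (br x^j) = p_j • (δ • u) + δ • (..)`, and the coordinates of the left side are `G i j` by `co_nab` (`conn` of `Pi.single j 1`). So `G i j = ε_i p_j + δ E i j`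
  (`RatFunc.algebraMap_injective`).
  `residue_exp` (`k = 0`): `nab (δ • u) - (C (n/2 - 1 - 0) δ') • u ∈ EE 0`. And `nab (δ • u) = nab (∑ ε_i • br x^i) = ∑ ε_i' • br x^i + ∑ ε_i • nab (br x^i)`, so `nab (δ • u) - (∑ ε_i p_i) • u ∈ EE 0`. The difference: `(∑ ε_i p_i - C α δ') • u ∈ EE 0`; multiply by `δ` and take the `l`-th coordinate: `(∑ ε_i p_i - C α δ') ε_l = δ * polynomial`.
-/

set_option autoImplicit false

namespace MPadcHM

open MvPolynomial MPadcLP

universe u

private theorem isolba_weight {n : ℕ} (w : Fin n → ℕ) (e : Fin n →₀ ℕ) :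
    Finsupp.weight w e = wt w e := by
  rw [Finsupp.weight_apply, Finsupp.sum_fintype _ _ (fun i => by simp)]
  unfold wt
  exact Finset.sum_congr rfl fun i _ => by rw [smul_eq_mul, mul_comm]

private theorem isolba_coeff {κ : Type*} [Field κ] {n : ℕ} (w : Fin n → ℕ) (N : ℕ)
    (P : MvPolynomial (Fin n) κ) (e : Fin n →₀ ℕ) :
    coeff e (part w N P) = if wt w e = N then coeff e P else 0 := by
  rw [part, coeff_weightedHomogeneousComponent, isolba_weight]

private theorem isolba_hom {κ : Type u} [Field κ] {n : ℕ} (S : Dat κ n) :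
    Hom S.w S.d (part S.w S.d S.φ) := by
  intro e he
  rw [mem_support_iff, isolba_coeff] at he
  by_contra h
  exact he (if_neg h)

private theorem isolba_top {κ : Type u} [Field κ] {n : ℕ} {S : Dat κ n} (hS : S.Ok) :
    ∀ e ∈ (S.φ - (part S.w S.d S.φ).map (algebraMap κ κ)).support, wt S.w e < S.d := by
  intro e he
  rw [Algebra.algebraMap_self, MvPolynomial.map_id] at he
  rw [mem_support_iff, coeff_sub, isolba_coeff] at he
  by_cases h : wt S.w e = S.d
  · rw [if_pos h, sub_self] at he
    exact absurd rfl he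
  · rw [if_neg h, sub_zero] at he
    exact lt_of_le_of_ne (hS.deg e (mem_support_iff.2 he)) h

variable {κ : Type u} [Field κ] [CharZero κ] {n : ℕ} {S : Dat κ n} {H : Type u} [AddCommGroup H]
  [Module (RatFunc κ) H] [Module κ H] [IsScalarTower κ (RatFunc κ) H] [Module (Polynomial κ) H]
  [IsScalarTower (Polynomial κ) (RatFunc κ) H] [IsScalarTower κ (Polynomial κ) H]
  {nab : H →ₗ[κ] H} {br : MvPolynomial (Fin n) κ →ₗ[κ] H} {U : Finset (Fin n →₀ ℕ)}
  (hn : 2 ≤ n) (hS : S.Ok) (hU : IsMB S.w (part S.w S.d S.φ) U)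
  (hG : IsGM S nab br) (co : H ≃ₗ[RatFunc κ] (U → RatFunc κ))
  (hco : ∀ u : U, co (br (monomial (u : Fin n →₀ ℕ) 1)) = Pi.single u 1)

include hn hS hU hG hco in
theorem co_EE (x : H) : x ∈ EE nab br 0 ↔
    ∀ u, ∃ a : Polynomial κ, co x u = algebraMap (Polynomial κ) (RatFunc κ) a := by
  constructor
  · intro hx
    unfold EE at hx
    induction hx using Submodule.span_induction with
    | mem x h =>
      obtain ⟨j, e, hj, rfl⟩ := h
      obtain rfl : j = 0 := Nat.le_zero.1 hj
      obtain ⟨a, ha⟩ := Rep_exists hn S.w hS.w_pos S.d hS.d_pos (part S.w S.d S.φ) (isolba_hom S) U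
        hU S.φ (isolba_top hS) (monomial e 1)
      intro u
      exact ⟨a u, by rw [lv_zero]; exact co_rep hG co hco ha u⟩
    | zero =>
      intro u
      exact ⟨0, by rw [map_zero, map_zero]; rfl⟩
    | add x y _ _ hx hy =>
      intro u
      obtain ⟨a, ha⟩ := hx u
      obtain ⟨b, hb⟩ := hy u
      exact ⟨a + b, by rw [map_add, map_add, Pi.add_apply, ha, hb]⟩
    | smul p x _ hx =>
      intro u
      obtain ⟨a, ha⟩ := hx u
      refine ⟨p * a, ?_⟩
      rw [← algebraMap_smul (RatFunc κ) p x, map_smul, Pi.smul_apply, ha, smul_eq_mul, map_mul]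
  · intro h
    choose a ha using h
    have e : x = ∑ u : U, a u • br (monomial (u : Fin n →₀ ℕ) 1) := by
      apply co.injective
      rw [map_sum]
      funext v
      rw [Finset.sum_apply, Finset.sum_eq_single v]
      · rw [← algebraMap_smul (RatFunc κ) (a v), map_smul, hco, Pi.smul_apply, Pi.single_eq_same,
          smul_eq_mul, mul_one, ha]
      · intro w _ hw
        rw [← algebraMap_smul (RatFunc κ) (a w), map_smul, hco, Pi.smul_apply,
          Pi.single_eq_of_ne hw.symm, smul_zero]
      · intro hv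
        exact absurd (Finset.mem_univ v) hv
    rw [e]
    refine Submodule.sum_mem _ fun u _ => Submodule.smul_mem _ _ ?_
    exact Submodule.subset_span ⟨0, u, le_refl 0, (lv_zero _).symm⟩

include hn hS hU hG hco in
theorem local0 (q : Fin n → MvPolynomial (Fin n) κ)
    (hδ : Polynomial.aeval S.φ S.δ = ∑ i, q i * pderiv i S.φ) (G : Matrix U U (Polynomial κ))
    (h : ∀ u : U, Rep U S.φ ((dvg fun i => q i * monomial (u : Fin n →₀ ℕ) 1) -
      Polynomial.aeval S.φ (Polynomial.derivative S.δ) * monomial (u : Fin n →₀ ℕ) 1)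
        fun v => G v u) :
    ∃ (E : Matrix U U (Polynomial κ)) (ε p : U → Polynomial κ),
      (∀ i j, G i j = ε i * p j + S.δ * E i j) ∧
      ∀ l, S.δ ∣ (∑ i, ε i * p i - Polynomial.C ((n : κ) / 2 - 1) *
        Polynomial.derivative S.δ) * ε l := by
  classical
  have hδ0 : S.δ ≠ 0 := hS.sep.ne_zero
  have hinj : Function.Injective (algebraMap (Polynomial κ) (RatFunc κ)) :=
    RatFunc.algebraMap_injective κ
  have hAδ : algebraMap (Polynomial κ) (RatFunc κ) S.δ ≠ 0 := fun h0 =>
    hδ0 (hinj (by rw [h0, map_zero]))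
  have hsm : ∀ (p : Polynomial κ) (x : H), p • x = algebraMap (Polynomial κ) (RatFunc κ) p • x :=
    fun p x => (IsScalarTower.algebraMap_smul (RatFunc κ) p x).symm
  have hco' : ∀ (p : Polynomial κ) (x : H) (l : U), co (p • x) l =
      algebraMap (Polynomial κ) (RatFunc κ) p * co x l := by
    intro p x l
    rw [hsm, map_smul, Pi.smul_apply, smul_eq_mul]
  have hnl : ∀ P : MvPolynomial (Fin n) κ, nab (br P) = lv nab br (0 + 1) P := by
    intro P
    have h1 := nab_lv (nab := nab) (br := br) 0 P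
    rw [lv_zero, Nat.cast_zero, zero_add, one_smul] at h1
    exact h1
  have hε := EE_delta (nab := nab) (br := br) hS hG 0
  choose ε hε' using (co_EE hn hS hU hG co hco _).1 hε
  have hp : ∀ j : U, ∃ p : Polynomial κ, monomial (j : Fin n →₀ ℕ) (1 : κ) -
      Polynomial.aeval S.φ p ∈ Jac S.φ := fun j => finab_ex hS _
  choose p hp using hp
  have hE := fun j : U => EE_lift (nab := nab) (br := br) hS hG 0 _ (p j) (hp j)
  choose E hE' using fun j : U => (co_EE hn hS hU hG co hco _).1 (hE j)
  have hu : ∀ l : U, algebraMap (Polynomial κ) (RatFunc κ) S.δ * co (lv nab br (0 + 1) 1) l =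
      algebraMap (Polynomial κ) (RatFunc κ) (ε l) := by
    intro l
    rw [← hco']
    exact hε' l
  have hnb : ∀ j : U, nab (br (monomial (j : Fin n →₀ ℕ) 1)) =
      p j • lv nab br (0 + 1) 1 + (lv nab br (0 + 1) (monomial (j : Fin n →₀ ℕ) 1) -
        p j • lv nab br (0 + 1) 1) := by
    intro j
    rw [hnl, add_sub_cancel]
  refine ⟨fun i j => E j i, ε, p, fun i j => ?_, fun l => ?_⟩
  · apply hinj
    have h1 := co_nab_br hG co hco S.δ hδ0 q hδ (monomial (j : Fin n →₀ ℕ) 1) (h j) i
    rw [hnb j, map_add, Pi.add_apply, hco', hE' j i, eq_div_iff hAδ] at h1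
    rw [map_add, map_mul, map_mul, ← h1, ← hu i]
    ring
  · have hres := residue_exp (nab := nab) (br := br) hS hG 0
    have hsum : S.δ • lv nab br (0 + 1) 1 = ∑ i : U, algebraMap (Polynomial κ) (RatFunc κ) (ε i) •
        br (monomial (i : Fin n →₀ ℕ) 1) := by
      apply co.injective
      funext l
      rw [hε' l, map_sum, Finset.sum_apply]
      have h2 : ∀ i : U, co (algebraMap (Polynomial κ) (RatFunc κ) (ε i) •
          br (monomial (i : Fin n →₀ ℕ) 1)) l =
          if i = l then algebraMap (Polynomial κ) (RatFunc κ) (ε i) else 0 := by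
        intro i
        rw [map_smul, hco, Pi.smul_apply, Pi.single_apply, smul_eq_mul]
        by_cases hil : i = l
        · subst hil
          rw [if_pos rfl, if_pos rfl, mul_one]
        · rw [if_neg hil, if_neg (fun h3 => hil h3.symm), mul_zero]
      rw [Finset.sum_congr rfl fun i _ => h2 i, Finset.sum_ite_eq' Finset.univ l, if_pos (Finset.mem_univ l)]
    have hns : nab (S.δ • lv nab br (0 + 1) 1) = (∑ i : U, ε i * p i) • lv nab br (0 + 1) 1 +
        ∑ i : U, (Polynomial.derivative (ε i) • br (monomial (i : Fin n →₀ ℕ) 1) +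
          ε i • (lv nab br (0 + 1) (monomial (i : Fin n →₀ ℕ) 1) -
            p i • lv nab br (0 + 1) 1)) := by
      rw [hsum, map_sum, Finset.sum_smul, ← Finset.sum_add_distrib]
      refine Finset.sum_congr rfl fun i _ => ?_
      rw [hG.leib, DK_poly, ← hsm, ← hsm, hnb i, smul_add, mul_smul]
      abel
    have hin : ∑ i : U, (Polynomial.derivative (ε i) • br (monomial (i : Fin n →₀ ℕ) 1) +
          ε i • (lv nab br (0 + 1) (monomial (i : Fin n →₀ ℕ) 1) -
            p i • lv nab br (0 + 1) 1)) ∈ EE nab br 0 := by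
      refine Submodule.sum_mem _ fun i _ => Submodule.add_mem _ (Submodule.smul_mem _ _ ?_)
        (Submodule.smul_mem _ _ (hE i))
      have h3 := EE_mem (nab := nab) (br := br) 0 0 le_rfl (monomial (i : Fin n →₀ ℕ) (1 : κ))
      rw [lv_zero] at h3
      exact h3
    have hr : (∑ i : U, ε i * p i - Polynomial.C ((n : κ) / 2 - 1) *
        Polynomial.derivative S.δ) • lv nab br (0 + 1) 1 ∈ EE nab br 0 := by
      have h4 := Submodule.sub_mem _ hres hin
      rw [hns, Nat.cast_zero, sub_zero] at h4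
      have e : (∑ i : U, ε i * p i - Polynomial.C ((n : κ) / 2 - 1) *
          Polynomial.derivative S.δ) • lv nab br (0 + 1) 1 =
          (∑ i : U, ε i * p i) • lv nab br (0 + 1) 1 +
        ∑ i : U, (Polynomial.derivative (ε i) • br (monomial (i : Fin n →₀ ℕ) 1) +
          ε i • (lv nab br (0 + 1) (monomial (i : Fin n →₀ ℕ) 1) -
            p i • lv nab br (0 + 1) 1)) - (Polynomial.C ((n : κ) / 2 - 1) *
            Polynomial.derivative S.δ) • lv nab br (0 + 1) 1 -
          ∑ i : U, (Polynomial.derivative (ε i) • br (monomial (i : Fin n →₀ ℕ) 1) +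
          ε i • (lv nab br (0 + 1) (monomial (i : Fin n →₀ ℕ) 1) -
            p i • lv nab br (0 + 1) 1)) := by
        rw [sub_smul]
        abel
      rw [e]
      exact h4
    obtain ⟨g, hg⟩ := (co_EE hn hS hU hG co hco _).1 hr l
    refine ⟨g, hinj ?_⟩
    rw [map_mul, map_mul, ← hg, hco', ← hu l]
    ring

end MPadcHM
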