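import Pool.Agent.Lib.MP_adc574_ag_HM.IsoK

/-!
# JOB IsoO: linear algebra

* `exists_sat` (part a): `W₀ ⊂ K^ι`, `K = M(t)`. `Λ = {x ∈ M[t]^ι | algebraMap x ∈ W₀}` is a submodule of the finite free module `M[t]^ι` over the principal ideal domain `M[t]`, so it is finite free (`Submodule.basisOfPid`, or `Module.Free` + `Module.Finite` instances: torsion free), let `w_1, …, w_g` be a basis. Every `x ∈ W₀` has a denominator (`IsLocalization.exist_integer_multiples_of_finset`), so the
  `w_i` span `W₀` over `K`; they are `K`-independent (clear denominators of a relation). Values at `τ`: let `∑ c_i w_i(τ) = 0`, `c_i ∈ M`, then `∑ c_i w_i = (t - τ) y` with `y ∈ M[t]^ι` (`Polynomial.dvd_iff_isRoot`), and `y ∈ Λ`, so `y = ∑ b_i w_i`, `c_i = (t - τ) b_i` (basis), so `c_i = 0` (evaluate at `τ`).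
* `cmp_indep` (part b): `cl : Fin r → ι → N(t)`, `y : Fin r → ι → M(t)[[s]]`, entries related by `Cmp`. If the constant coefficients of the `y_i` are `M(t)`-independent then some `r × r` minor (`J : Fin r → ι`) of `constantCoeff (y i (J j))` is not 0 (independent rows: e.g. `Matrix.rank`, `LinearIndependent` / exterior powers; or choose `J` such that the vectors `(constantCoeff (y i (J j)))_i` form a basis of `K^r`:
  the columns of a matrix with independent rows span, `exists_linearIndependent`-type selection), so `det (y i (J j)) ≠ 0` (its constant coefficient is that minor, `RingHom.map_det`), so `det (cl i (J j)) ≠ 0` by `Cmp_det`, `Cmp_zero`, and the `cl i` are `N(t)`-independent (`Matrix.linearIndependent_rows_of_det_ne_zero` or similar, then `LinearIndependent.of_comp` with the projection to the coordinates `J`).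
-/

set_option autoImplicit false

namespace MPadcHM

open MPadcLP

universe u

theorem exists_sat {M : Type u} [Field M] {ι : Type} [Fintype ι] [DecidableEq ι]
    (W₀ : Submodule (RatFunc M) (ι → RatFunc M)) :
    ∃ (g : ℕ) (w : Fin g → ι → Polynomial M), Module.finrank (RatFunc M) W₀ = g ∧
      (LinearIndependent (RatFunc M)
        fun i => fun u => algebraMap (Polynomial M) (RatFunc M) (w i u)) ∧
      Submodule.span (RatFunc M) (Set.range fun i : Fin g => fun u : ι =>
        algebraMap (Polynomial M) (RatFunc M) (w i u)) = W₀ ∧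
      (∀ τ : M, LinearIndependent M fun i => fun u => (w i u).eval τ) ∧
      ∀ x : ι → Polynomial M, (fun u => algebraMap (Polynomial M) (RatFunc M) (x u)) ∈ W₀ →
        ∃ c : Fin g → Polynomial M, x = fun u => ∑ i, c i * w i u := by
  classical
  -- the map `φ`
  let φ : (ι → Polynomial M) →ₗ[Polynomial M] (ι → RatFunc M) :=
    { toFun := fun x u => algebraMap (Polynomial M) (RatFunc M) (x u)
      map_add' := fun x y => by
        funext u
        simp only [Pi.add_apply, map_add]
      map_smul' := fun a x => by
        funext u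
        simp only [Pi.smul_apply, smul_eq_mul, map_mul, RingHom.id_apply, Algebra.smul_def] }
  have hφ : ∀ (x : ι → Polynomial M) (u : ι),
      φ x u = algebraMap (Polynomial M) (RatFunc M) (x u) := fun _ _ => rfl
  have hinj : Function.Injective φ := by
    intro x y hxy
    funext u
    exact IsFractionRing.injective (Polynomial M) (RatFunc M) (congrFun hxy u)
  let Λ : Submodule (Polynomial M) (ι → Polynomial M) :=
    (W₀.restrictScalars (Polynomial M)).comap φ
  have hΛ : ∀ x, x ∈ Λ ↔ φ x ∈ W₀ := fun x => Iff.rfl
  obtain ⟨g, B⟩ := Submodule.basisOfPid (Pi.basisFun (Polynomial M) ι) Λ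
  let w : Fin g → ι → Polynomial M := fun i => (B i : ι → Polynomial M)
  have hwΛ : ∀ i, w i ∈ Λ := fun i => (B i).2
  -- coordinates
  have hco : ∀ x ∈ Λ, ∃ c : Fin g → Polynomial M, x = ∑ i, c i • w i := by
    intro x hx
    refine ⟨fun i => B.repr ⟨x, hx⟩ i, ?_⟩
    have h1 := congrArg (Submodule.subtype Λ) (B.sum_repr ⟨x, hx⟩)
    rw [map_sum] at h1
    simp only [map_smul, Submodule.subtype_apply] at h1
    exact h1.symm
  have hwind : LinearIndependent (Polynomial M) w := by
    have h1 := B.linearIndependent.map' (Submodule.subtype Λ) (Submodule.ker_subtype Λ)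
    exact h1
  have hφw : LinearIndependent (Polynomial M) fun i => φ (w i) :=
    hwind.map' φ (LinearMap.ker_eq_bot.2 hinj)
  have hK : LinearIndependent (RatFunc M) fun i => φ (w i) :=
    (LinearIndependent.iff_fractionRing (Polynomial M) (RatFunc M)).1 hφw
  have hspan : Submodule.span (RatFunc M) (Set.range fun i : Fin g => φ (w i)) = W₀ := by
    apply le_antisymm
    · rw [Submodule.span_le]
      rintro _ ⟨i, rfl⟩
      exact hwΛ i
    · intro x hx
      obtain ⟨b, hb⟩ := IsLocalization.exist_integer_multiples_of_finite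
        (nonZeroDivisors (Polynomial M)) (S := RatFunc M) x
      choose y hy using hb
      have hy' : φ y = (algebraMap (Polynomial M) (RatFunc M) b) • x := by
        funext u
        rw [hφ, hy u, Pi.smul_apply, Algebra.smul_def, smul_eq_mul]
      have hb0 : algebraMap (Polynomial M) (RatFunc M) b ≠ 0 := by
        intro h
        exact nonZeroDivisors.ne_zero b.2
          ((IsFractionRing.injective (Polynomial M) (RatFunc M)) (by rw [h, map_zero]))
      have hyΛ : y ∈ Λ := by
        rw [hΛ, hy']
        exact W₀.smul_mem _ hx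
      obtain ⟨c, hc⟩ := hco y hyΛ
      have hx' : x = (algebraMap (Polynomial M) (RatFunc M) b)⁻¹ • φ y := by
        rw [hy', smul_smul, inv_mul_cancel₀ hb0, one_smul]
      rw [hx']
      refine Submodule.smul_mem _ _ ?_
      rw [hc, map_sum]
      refine Submodule.sum_mem _ fun i _ => ?_
      rw [map_smul, ← IsScalarTower.algebraMap_smul (RatFunc M) (c i) (φ (w i))]
      exact Submodule.smul_mem _ _ (Submodule.subset_span ⟨i, rfl⟩)
  refine ⟨g, w, ?_, hK, hspan, ?_, ?_⟩
  · have h1 := finrank_span_eq_card hK
    rw [hspan, Fintype.card_fin] at h1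
    exact h1
  · intro τ
    rw [Fintype.linearIndependent_iff]
    intro c hc i
    -- `∑ c_i w_i = (t - τ) y`
    have hdvd : ∀ u, ∃ y : Polynomial M,
        ∑ i, Polynomial.C (c i) * w i u = (Polynomial.X - Polynomial.C τ) * y := by
      intro u
      have h1 : (Polynomial.X - Polynomial.C τ) ∣ ∑ i, Polynomial.C (c i) * w i u := by
        rw [Polynomial.dvd_iff_isRoot, Polynomial.IsRoot.def, Polynomial.eval_finsetSum]
        have h2 := congrFun hc u
        rw [Finset.sum_apply] at h2
        simp only [Pi.smul_apply, smul_eq_mul, Pi.zero_apply] at h2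
        simp only [Polynomial.eval_mul, Polynomial.eval_C]
        exact h2
      exact h1
    choose y hy using hdvd
    have hz : (∑ i, Polynomial.C (c i) • w i) = (Polynomial.X - Polynomial.C τ) • y := by
      funext u
      rw [Finset.sum_apply, Pi.smul_apply, smul_eq_mul, ← hy u]
      simp only [Pi.smul_apply, smul_eq_mul]
    have hzΛ : (∑ i, Polynomial.C (c i) • w i) ∈ Λ :=
      Submodule.sum_mem _ fun i _ => Submodule.smul_mem _ _ (hwΛ i)
    have hX0 : algebraMap (Polynomial M) (RatFunc M) (Polynomial.X - Polynomial.C τ) ≠ 0 := by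
      intro h
      exact Polynomial.X_sub_C_ne_zero τ
        ((IsFractionRing.injective (Polynomial M) (RatFunc M)) (by rw [h, map_zero]))
    have hyΛ : y ∈ Λ := by
      rw [hΛ]
      have h1 : φ y = (algebraMap (Polynomial M) (RatFunc M)
          (Polynomial.X - Polynomial.C τ))⁻¹ • φ (∑ i, Polynomial.C (c i) • w i) := by
        rw [hz, map_smul, ← IsScalarTower.algebraMap_smul (RatFunc M)
          (Polynomial.X - Polynomial.C τ) (φ y), smul_smul, inv_mul_cancel₀ hX0, one_smul]
      rw [h1]
      exact W₀.smul_mem _ ((hΛ _).1 hzΛ)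
    obtain ⟨b, hb⟩ := hco y hyΛ
    have hrel : ∑ i, (Polynomial.C (c i) - (Polynomial.X - Polynomial.C τ) * b i) • w i = 0 := by
      have h1 : ∀ i, (Polynomial.C (c i) - (Polynomial.X - Polynomial.C τ) * b i) • w i =
          Polynomial.C (c i) • w i - (Polynomial.X - Polynomial.C τ) • (b i • w i) := fun i => by
        rw [sub_smul, mul_smul]
      rw [Finset.sum_congr rfl fun i _ => h1 i, Finset.sum_sub_distrib, hz, ← Finset.smul_sum,
        ← hb, sub_self]
    have h0 := (Fintype.linearIndependent_iff.1 hwind) _ hrel i
    have h1 := congrArg (Polynomial.eval τ) h0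
    simp only [Polynomial.eval_sub, Polynomial.eval_C, Polynomial.eval_mul, Polynomial.eval_X,
      sub_self, zero_mul, sub_zero, Polynomial.eval_zero] at h1
    exact h1
  · intro x hx
    obtain ⟨c, hc⟩ := hco x hx
    refine ⟨c, ?_⟩
    funext u
    rw [hc, Finset.sum_apply]
    simp only [Pi.smul_apply, smul_eq_mul]

/-- Independent rows have a nonzero maximal minor. -/
theorem isoOb_minor {K : Type*} [Field K] {ι : Type} [Fintype ι] [DecidableEq ι] {r : ℕ}
    (v : Fin r → ι → K) (hv : LinearIndependent K v) :
    ∃ J : Fin r → ι, (Matrix.of fun i j => v i (J j)).det ≠ 0 := by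
  classical
  let A : Matrix (Fin r) ι K := Matrix.of v
  have hr : A.rank = r := by
    have h1 : LinearIndependent K A.row := hv
    rw [h1.rank_matrix, Fintype.card_fin]
  have htop : Submodule.span K (Set.range A.col) = ⊤ := by
    apply Submodule.eq_top_of_finrank_eq
    rw [← Matrix.rank_eq_finrank_span_cols, hr, Module.finrank_fin_fun]
  obtain ⟨b, hb1, hb2, hb3⟩ := exists_linearIndependent K (Set.range A.col)
  rw [htop] at hb2
  have hfin : b.Finite := (Set.finite_range A.col).subset hb1
  have : Fintype b := hfin.fintype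
  have hcard : Fintype.card b = r := by
    have h1 := finrank_span_eq_card hb3
    rw [Subtype.range_coe, hb2, finrank_top, Module.finrank_fin_fun] at h1
    exact h1.symm
  let e : Fin r ≃ b := (Fintype.equivFinOfCardEq hcard).symm
  have hJ : ∀ j : Fin r, ∃ u : ι, A.col u = (e j : Fin r → K) := fun j => hb1 (e j).2
  choose J hJ using hJ
  refine ⟨J, ?_⟩
  have hcol : LinearIndependent K fun j => A.col (J j) := by
    have h1 : LinearIndependent K fun j => ((e j : b) : Fin r → K) :=
      hb3.comp e e.injective
    have h2 : (fun j => A.col (J j)) = fun j => ((e j : b) : Fin r → K) := funext hJ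
    rw [h2]
    exact h1
  have hu : IsUnit (Matrix.of fun j i => v i (J j)) := by
    rw [← Matrix.linearIndependent_rows_iff_isUnit]
    exact hcol
  have h3 : (Matrix.of fun j i => v i (J j)).det ≠ 0 :=
    ((Matrix.isUnit_iff_isUnit_det _).1 hu).ne_zero
  have h4 : (Matrix.of fun i j => v i (J j)) = (Matrix.of fun j i => v i (J j)).transpose := rfl
  rw [h4, Matrix.det_transpose]
  exact h3

theorem cmp_indep {M N : Type u} [Field M] [Field N] [Algebra (PowerSeries M) N]
    [IsFractionRing (PowerSeries M) N] {ι : Type} [Fintype ι] [DecidableEq ι] {r : ℕ}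
    (cl : Fin r → ι → RatFunc N) (y : Fin r → ι → PowerSeries (RatFunc M))
    (h : ∀ i u, Cmp (cl i u) (y i u))
    (hi : LinearIndependent (RatFunc M) fun i => fun u => PowerSeries.constantCoeff (y i u)) :
    LinearIndependent (RatFunc N) cl := by
  classical
  obtain ⟨J, hJ⟩ := isoOb_minor _ hi
  let Y : Matrix (Fin r) (Fin r) (PowerSeries (RatFunc M)) := Matrix.of fun i j => y i (J j)
  let X : Matrix (Fin r) (Fin r) (RatFunc N) := Matrix.of fun i j => cl i (J j)
  have hY : Y.det ≠ 0 := by
    intro h0
    apply hJ
    have h1 : (Matrix.of fun i j => PowerSeries.constantCoeff (y i (J j))) =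
        (PowerSeries.constantCoeff (R := RatFunc M)).mapMatrix Y := rfl
    rw [h1, ← RingHom.map_det, h0, map_zero]
  have hX : X.det ≠ 0 := by
    intro h0
    have h1 : Cmp X.det Y.det := Cmp_det fun i j => h i (J j)
    rw [h0] at h1
    exact hY (Cmp_zero h1)
  have hrow : LinearIndependent (RatFunc N) fun i => X i :=
    Matrix.linearIndependent_rows_of_det_ne_zero hX
  refine LinearIndependent.of_comp (LinearMap.funLeft (RatFunc N) (RatFunc N) J) ?_
  exact hrow

end MPadcHM
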