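import Pool.Agent.Lib.MP_adc574_ag_HM.IsoN
import Pool.Agent.Lib.MP_adc574_ag_HM.IsoO
import Pool.Agent.Lib.MP_adc574_ag_HM.IsoH
import Pool.Agent.Lib.MP_adc574_ag_HM.IsoE
import Pool.Agent.Lib.MP_adc574_ag_HM.IsoLb

/-!
# JOB IsoP: irreducibility descends from `φ + s θ` to `φ`

Notation of IsoM.lean and IsoN.lean. `co` are the coordinates over `L = N(t)` (module `H`, datum `S'`), `co₀` those over `K = M(t)` (module `H₀`, datum `D.S`).
* `prim_rank` (part a): `finrank Hprim(D.S) ≤ finrank Hprim(S')`. `H₀ ≃ K^U` is finite dimensional. Choose a `K`-basis of `Hprim(D.S)` among the generators `[x^{e_l}]_{k_l}`, `wtp e_l < d (k_l + 1)`, `l : Fin r` (`exists_linearIndependent`, `Submodule.span`). `cl l = co (lv nab br k_l x^{e_l})`, `y l = cx I (a e_l) k_l` (`a` from `Rep_exists`, as in `exists_mats`): `cx_cmp`, and `constantCoeff (y l) = co₀ (..)` (`cx_const`) are independent.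
  `cmp_indep`: the `cl l` are `L`-independent, and they are coordinates of elements of `Hprim S'` (`hE.w`, `hE.d`).
* `iso_w0` (part b): let `W₀ = H₀'.map co₀`, `g`, `w` from `exists_sat`. For every `i` the vector `x u = δ₀ (w i u)' + ∑ v, G₀ u v * w i v` (`δ₀ = D.S.δ`, `G₀ u v = (I.Gt u v).map constantCoeff`) is `δ₀ • co₀ (nab₀ (co₀.symm w_i))` (`co_nab_0`), so it is in `W₀`: `x = ∑ j, γ j i * w j` (last property of `exists_sat`).
* `iso_tr` (part c): `local0` for `D.S` (with `q i = (D.q i).map constantCoeff`, `G = G₀`; hypotheses from `Rep_map` (along `constantCoeff`) of `hI.gt`, `hD.ann`, `phs_map`, `hD.red`, `dtP_apply`, `Polynomial.derivative_map`): `E`, `ε`, `p`. `trace_form` (`d = D.S.d`, `q u = wtp u - d`, `δ = D.S.δ`, `α = n/2 - 1`; `hdeg` from `mats_degt`: `natDegree ((I.Gt i j).map _) ≤ natDegree`,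
  if `G₀ i j ≠ 0` then `I.Gt i j ≠ 0`, `natDegree D.S.δ = natDegree I.δ` as `D.δ` is monic).
* `iso_Q` (part d): `Q := span_R (range fun p : Y => cx I (a p.2) p.1)`, `Y = {p : ℕ × (Fin n →₀ ℕ) // wtp D.S.w p.2 < D.S.d * (p.1 + 1)}`. Stable under `conn dsR BsR`: `cx_ns` on the generators (for `p ∈ Y` and `m ∈ θ.support`: `wtp (e + m) = wtp e + wt m < d (k + 2)` as `wt m < d`), Leibniz (`conn (r x) = dsR r x + r conn x`), `Submodule.span_induction`; `Ds` from `exists_dsL`. For `x ∈ Hprim D.S`: `x = ∑ b_l • [x^{e_l}]_{k_l}`,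
  `z = ∑ C b_l • cx I (a e_l) k_l ∈ Q` has the constant coefficients `co₀ x u` (`cx_const`); or span induction.
* `iso_W` (part e): `iso_w0`, `iso_tr`; `iso_psi` (for `I`; `I.Ok` by `mats_ok`; `D.S.δ = I.δ mod s` by `hD.red`, `hI.δ`): `ψ`; `iso_transport`: `y`; `iso_descend` with `L = RatFunc N`, `letI := (jL M N).toAlgebra` (`jL_frac`), `DL = DZ N` (`DZ_jL`): `W ≤ (ι → L)`, `finrank W = g`, stable under `conn (DZ N) (jL Gt / jL δ)`, so `H' := W.comap co` (or `W.map co.symm`) is stable under `nab`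
  (`co_nab_t`). `H' ≤ Hprim S'`: the last property of `iso_descend` with `Y` as above, `cl p = co (lv nab br p.1 x^p.2)`, `cx p = cx I (a p.2) p.1`; the relation is `cx_cmp` (unfold `Cmp`), and `ψ i ∈ Q` by the last property of `iso_psi` and `iso_Q` (`x = co₀.symm w_i ∈ H₀' ≤ Hprim`). The elements of `H'` are `L`-combinations of the `lv nab br p.1 x^p.2`, `p ∈ Y`, which are in `Hprim S'` (`hE.w`, `hE.d`).
* `iso_irr` (part f): `exists_defo` gives `D` with `D.S = ⟨S.w, S.d, S.φ, S.M, δ', S.ξ⟩`, so `D.S.fK = S.fK`, `D.S.br = S.br`, `Hprim D.S = Hprim S` and `GMIrr D.S` is `GMIrr S` by definition (`subst`/`rfl`; `GMIrr` does not depend on `δ`). Let `nab₀` be given, `H₀'` stable, `H₀' ≠ ⊥`, `H₀' ≠ Hprim`. `exists_mats`, `exists_co` (for `D.S` and for `S'`; for the latter `IsMB` over `N` by `IsMB_map` and `part` of `S'.φ` = image of `part` of `φ`), `exists_nab` for `S'`.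
  `iso_W` gives `H'`, `h : GMIrr S'` gives `H' = ⊥` (then `finrank H₀' = 0`, contradiction) or `H' = Hprim S'`, then `finrank H₀' = finrank Hprim S' ≥ finrank Hprim D.S` (`prim_rank`), so `H₀' = Hprim` (`Submodule.eq_of_le_of_finrank_le`).
-/

set_option autoImplicit false

namespace MPadcHM

open MvPolynomial MPadcLP

universe u

private theorem isopa_weight {n : ℕ} (w : Fin n → ℕ) (e : Fin n →₀ ℕ) :
    Finsupp.weight w e = wt w e := by
  rw [Finsupp.weight_apply, Finsupp.sum_fintype _ _ (fun i => by simp)]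
  unfold wt
  exact Finset.sum_congr rfl fun i _ => by rw [smul_eq_mul, mul_comm]

private theorem isopa_coeff {κ : Type*} [Field κ] {n : ℕ} (w : Fin n → ℕ) (N : ℕ)
    (P : MvPolynomial (Fin n) κ) (e : Fin n →₀ ℕ) :
    coeff e (part w N P) = if wt w e = N then coeff e P else 0 := by
  rw [part, coeff_weightedHomogeneousComponent, isopa_weight]

private theorem isopa_supp {M : Type u} [Field M] {n : ℕ} (D : Defo M n) (hD : D.Ok) :
    ∀ e ∈ (D.f - (part D.S.w D.S.d D.S.φ).map (algebraMap M (PowerSeries M))).support,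
      wt D.S.w e < D.S.d := by
  intro e he
  by_contra hc
  rw [not_lt] at hc
  rw [MvPolynomial.mem_support_iff] at he
  apply he
  have hθ : coeff e D.θ = 0 := by
    by_contra h
    exact absurd (hD.deg e (MvPolynomial.mem_support_iff.2 h)) (not_lt.2 hc)
  have halg : ∀ c : M, algebraMap M (PowerSeries M) c = PowerSeries.C c := fun c => by
    rw [PowerSeries.algebraMap_apply, Algebra.algebraMap_self, RingHom.id_apply]
  have h1 : coeff e D.f = PowerSeries.C (coeff e D.S.φ) := by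
    unfold Defo.f phs
    rw [coeff_add, coeff_C_mul, coeff_map, coeff_map, hθ, map_zero, mul_zero, add_zero]
  rw [coeff_sub, h1, coeff_map, halg, isopa_coeff]
  rcases hc.lt_or_eq with h | h
  · have hφ : coeff e D.S.φ = 0 := by
      by_contra h2
      exact absurd (hD.ok.deg e (MvPolynomial.mem_support_iff.2 h2)) (not_le.2 h)
    rw [if_neg h.ne', hφ, map_zero, sub_zero]
  · rw [if_pos h.symm, sub_self]

private theorem isopa_rep {M : Type u} [Field M] [CharZero M] {n : ℕ} (hn : 2 ≤ n)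
    (D : Defo M n) (hD : D.Ok) : ∃ a : (Fin n →₀ ℕ) → D.U → Polynomial (PowerSeries M),
      ∀ e, Rep D.U D.f (monomial e 1) (a e) := by
  have hg : Hom D.S.w D.S.d (part D.S.w D.S.d D.S.φ) := by
    intro e he
    rw [MvPolynomial.mem_support_iff, isopa_coeff] at he
    by_contra h
    rw [if_neg h] at he
    exact he rfl
  have key : ∀ P : MvPolynomial (Fin n) (PowerSeries M), ∃ a : D.U → Polynomial (PowerSeries M),
      Rep D.U D.f P a := fun P =>
    Rep_exists hn D.S.w hD.ok.w_pos D.S.d hD.ok.d_pos (part D.S.w D.S.d D.S.φ) hg D.U hD.mb D.f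
      (isopa_supp D hD) P
  choose a ha using fun e => key (monomial e 1)
  exact ⟨a, ha⟩

private theorem isopc_aeval {B B' : Type*} [CommRing B] [CommRing B'] {n : ℕ} (ψ : B →+* B')
    (φ : MvPolynomial (Fin n) B) (δ : Polynomial B) :
    (Polynomial.aeval φ δ).map ψ = Polynomial.aeval (φ.map ψ) (δ.map ψ) := by
  rw [Polynomial.aeval_def, Polynomial.aeval_def, Polynomial.eval₂_map, Polynomial.hom_eval₂]
  congr 1
  ext a : 1
  simp only [RingHom.comp_apply, algebraMap_eq, map_C]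

private theorem isopc_dvg {B B' : Type*} [CommRing B] [CommRing B'] {n : ℕ} (ψ : B →+* B')
    (q : Fin n → MvPolynomial (Fin n) B) :
    (dvg q).map ψ = dvg fun i => (q i).map ψ := by
  unfold dvg
  rw [map_sum]
  exact Finset.sum_congr rfl fun i _ => (pderiv_map).symm

private theorem isopd_conn_zero {E : Type u} [CommRing E] {ι : Type} [Fintype ι] (D : Der E)
    (B : Matrix ι ι E) : conn D B (0 : ι → E) = 0 := by
  funext u
  simp [conn]

private theorem isopd_conn_add {E : Type u} [CommRing E] {ι : Type} [Fintype ι] (D : Der E)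
    (B : Matrix ι ι E) (x y : ι → E) : conn D B (x + y) = conn D B x + conn D B y := by
  funext u
  simp only [conn, Pi.add_apply, map_add, mul_add, Finset.sum_add_distrib]
  ring

private theorem isopd_conn_smul {E : Type u} [CommRing E] {ι : Type} [Fintype ι] (D : Der E)
    (B : Matrix ι ι E) (r : E) (x : ι → E) :
    conn D B (r • x) = D r • x + r • conn D B x := by
  funext u
  simp only [conn, Pi.add_apply, Pi.smul_apply, smul_eq_mul, Derivation.leibniz, mul_add,
    Finset.mul_sum]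
  have h1 : ∑ v, B u v * (r * x v) = ∑ v, r * (B u v * x v) :=
    Finset.sum_congr rfl fun v _ => by ring
  rw [h1]
  ring

private theorem isopd_wtp_add {n : ℕ} (w : Fin n → ℕ) (e m : Fin n →₀ ℕ) :
    wtp w (e + m) = wtp w e + wt w m := by
  unfold wtp wt
  rw [← Finset.sum_add_distrib]
  refine Finset.sum_congr rfl fun i _ => ?_
  rw [Finsupp.add_apply]
  ring

section

variable {M : Type u} [Field M] [CharZero M] {n : ℕ} (hn : 2 ≤ n) {D : Defo M n} (hD : D.Ok)
  {I : IsoData M D.U} (hI : D.Mats I)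
  {N : Type u} [Field N] [CharZero N] [Algebra (PowerSeries M) N]
  [IsFractionRing (PowerSeries M) N] {S' : Dat N n} (hE : D.Ext S')
  {H : Type u} [AddCommGroup H] [Module (RatFunc N) H] [Module N H] [IsScalarTower N (RatFunc N) H]
  {nab : H →ₗ[N] H} {br : MvPolynomial (Fin n) N →ₗ[N] H}
  (hG : IsGM S' nab br) (co : H ≃ₗ[RatFunc N] (D.U → RatFunc N))
  (hco : ∀ u : D.U, co (br (monomial (u : Fin n →₀ ℕ) 1)) = Pi.single u 1)
  {H₀ : Type u} [AddCommGroup H₀] [Module (RatFunc M) H₀] [Module M H₀]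
  [IsScalarTower M (RatFunc M) H₀] {nab₀ : H₀ →ₗ[M] H₀} {br₀ : MvPolynomial (Fin n) M →ₗ[M] H₀}
  (hG₀ : IsGM D.S nab₀ br₀) (co₀ : H₀ ≃ₗ[RatFunc M] (D.U → RatFunc M))
  (hco₀ : ∀ u : D.U, co₀ (br₀ (monomial (u : Fin n →₀ ℕ) 1)) = Pi.single u 1)

include hn hD hI hE hG hco hG₀ hco₀ in
theorem prim_rank : Module.finrank (RatFunc M) (Hprim D.S nab₀ br₀) ≤
    Module.finrank (RatFunc N) (Hprim S' nab br) := by
  obtain ⟨a, ha⟩ := isopa_rep hn D hD
  have hf₀ : Module.Finite (RatFunc M) H₀ := Module.Finite.equiv co₀.symm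
  have hf : Module.Finite (RatFunc N) H := Module.Finite.equiv co.symm
  obtain ⟨f, hf1, hf2, hf3⟩ := Submodule.exists_fun_fin_finrank_span_eq (RatFunc M)
    {h | ∃ (k : ℕ) (e : Fin n →₀ ℕ), wtp D.S.w e < D.S.d * (k + 1) ∧
      h = lv nab₀ br₀ k (monomial e 1)}
  change LinearIndependent (RatFunc M) f at hf3
  choose k e hke hfe using hf1
  have hy : LinearIndependent (RatFunc M) fun l => fun u =>
      PowerSeries.constantCoeff (cx I (a (e l)) (k l) u) := by
    have h1 : (fun l => fun u => PowerSeries.constantCoeff (cx I (a (e l)) (k l) u)) =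
        (co₀ : H₀ →ₗ[RatFunc M] (D.U → RatFunc M)) ∘ f := by
      funext l u
      rw [cx_const hD hI hG₀ co₀ hco₀ a ha, ← hfe l]
      rfl
    rw [h1]
    exact hf3.map' _ (LinearMap.ker_eq_bot.2 co₀.injective)
  have hcl := cmp_indep (fun l => co (lv nab br (k l) (monomial (e l) 1)))
    (fun l => cx I (a (e l)) (k l)) (fun l u => cx_cmp hD hI hE hG co hco a ha (k l) (e l) u) hy
  have hmem : ∀ l, lv nab br (k l) (monomial (e l) 1) ∈ Hprim S' nab br := by
    intro l
    refine Submodule.subset_span ⟨k l, e l, ?_, rfl⟩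
    rw [hE.w, hE.d]
    exact hke l
  have hg : LinearIndependent (RatFunc N)
      (fun l => (⟨lv nab br (k l) (monomial (e l) 1), hmem l⟩ : Hprim S' nab br)) := by
    refine LinearIndependent.of_comp
      ((co : H →ₗ[RatFunc N] (D.U → RatFunc N)).comp (Submodule.subtype (Hprim S' nab br))) ?_
    exact hcl
  have h2 := hg.fintype_card_le_finrank
  rw [Fintype.card_fin] at h2
  exact h2

include hD hI hG₀ hco₀ in
theorem iso_w0 (H₀' : Submodule (RatFunc M) H₀) (hst : ∀ h ∈ H₀', nab₀ h ∈ H₀') :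
    ∃ (g : ℕ) (w : Fin g → D.U → Polynomial M) (γ : Matrix (Fin g) (Fin g) (Polynomial M)),
      Module.finrank (RatFunc M) H₀' = g ∧
      (LinearIndependent (RatFunc M)
        fun i => fun u => algebraMap (Polynomial M) (RatFunc M) (w i u)) ∧
      (∀ τ : M, LinearIndependent M fun i => fun u => (w i u).eval τ) ∧
      (∀ i, co₀.symm (fun u => algebraMap (Polynomial M) (RatFunc M) (w i u)) ∈ H₀') ∧
      ∀ i u, D.S.δ * Polynomial.derivative (w i u) +
        ∑ v, (I.Gt u v).map (PowerSeries.constantCoeff (R := M)) * w i v =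
          ∑ j, γ j i * w j u := by
  obtain ⟨g, w, hg, hind, hspan, hsat, hlat⟩ := exists_sat (H₀'.map (co₀ : H₀ →ₗ[RatFunc M] (D.U → RatFunc M)))
  have hδm : D.S.δ.Monic := by
    rw [hD.red]
    exact hD.monic.map _
  have hδ0 : algebraMap (Polynomial M) (RatFunc M) D.S.δ ≠ 0 := fun h =>
    hδm.ne_zero ((map_eq_zero_iff _ (RatFunc.algebraMap_injective M)).1 h)
  have hmem : ∀ i, co₀.symm (fun u => algebraMap (Polynomial M) (RatFunc M) (w i u)) ∈ H₀' := by
    intro i
    have h1 : (fun u => algebraMap (Polynomial M) (RatFunc M) (w i u)) ∈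
        H₀'.map (co₀ : H₀ →ₗ[RatFunc M] (D.U → RatFunc M)) := by
      rw [← hspan]
      exact Submodule.subset_span ⟨i, rfl⟩
    obtain ⟨h, hh, he⟩ := h1
    rw [← he]
    show co₀.symm (co₀ h) ∈ H₀'
    rw [co₀.symm_apply_apply]
    exact hh
  have hx : ∀ i, ∃ c : Fin g → Polynomial M, (fun u => D.S.δ * Polynomial.derivative (w i u) +
      ∑ v, (I.Gt u v).map (PowerSeries.constantCoeff (R := M)) * w i v) =
        fun u => ∑ j, c j * w j u := by
    intro i
    apply hlat
    have h1 : (fun u => algebraMap (Polynomial M) (RatFunc M)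
        (D.S.δ * Polynomial.derivative (w i u) +
          ∑ v, (I.Gt u v).map (PowerSeries.constantCoeff (R := M)) * w i v)) =
        algebraMap (Polynomial M) (RatFunc M) D.S.δ • co₀ (nab₀ (co₀.symm
          (fun u => algebraMap (Polynomial M) (RatFunc M) (w i u)))) := by
      rw [co_nab_0 hD hI hG₀ co₀ hco₀, co₀.apply_symm_apply]
      funext u
      show _ = algebraMap (Polynomial M) (RatFunc M) D.S.δ *
        (DZ M (algebraMap (Polynomial M) (RatFunc M) (w i u)) +
          ∑ v, algebraMap (Polynomial M) (RatFunc M)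
            ((I.Gt u v).map (PowerSeries.constantCoeff (R := M))) /
              algebraMap (Polynomial M) (RatFunc M) D.S.δ *
                algebraMap (Polynomial M) (RatFunc M) (w i v))
      rw [DZ_apply, DK_poly, map_add, map_mul, map_sum, mul_add, Finset.mul_sum]
      congr 1
      refine Finset.sum_congr rfl fun v _ => ?_
      rw [map_mul]
      field_simp
    rw [h1]
    exact Submodule.smul_mem _ _ ⟨_, hst _ (hmem i), rfl⟩
  choose c hc using hx
  refine ⟨g, w, fun j i => c i j, ?_, hind, hsat, hmem, fun i u => congrFun (hc i) u⟩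
  rw [← hg]
  exact (LinearEquiv.finrank_map_eq co₀ H₀').symm

include hn hD hI hE hG hco hG₀ hco₀ in
theorem iso_tr [IsAlgClosed M] [Module (Polynomial M) H₀]
    [IsScalarTower (Polynomial M) (RatFunc M) H₀] [IsScalarTower M (Polynomial M) H₀] (g : ℕ)
    (w : Fin g → D.U → Polynomial M) (γ : Matrix (Fin g) (Fin g) (Polynomial M))
    (hsat : ∀ τ : M, LinearIndependent M fun i => fun u => (w i u).eval τ)
    (hw : ∀ i u, D.S.δ * Polynomial.derivative (w i u) +
        ∑ v, (I.Gt u v).map (PowerSeries.constantCoeff (R := M)) * w i v =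
          ∑ j, γ j i * w j u) :
    ∃ δ₁ δ₂ : Polynomial M, δ₁.Monic ∧ δ₂.Monic ∧ D.S.δ = δ₁ * δ₂ ∧
      ∑ i, γ i i = Polynomial.C ((n : M) / 2 - 1) * Polynomial.derivative δ₁ * δ₂ := by
  have hφ : D.f.map (PowerSeries.constantCoeff (R := M)) = D.S.φ := phs_map D.S.φ D.θ
  have hδm : D.S.δ.Monic := by
    rw [hD.red]
    exact hD.monic.map _
  have hdeg0 : D.S.δ.natDegree = D.δ.natDegree := by
    rw [hD.red, hD.monic.natDegree_map]
  have hann : Polynomial.aeval D.S.φ D.S.δ =
      ∑ i, (D.q i).map (PowerSeries.constantCoeff (R := M)) * pderiv i D.S.φ := by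
    have h1 := congrArg (MvPolynomial.map (PowerSeries.constantCoeff (R := M))) hD.ann
    rw [isopc_aeval, hφ, ← hD.red, map_sum] at h1
    rw [h1]
    refine Finset.sum_congr rfl fun i _ => ?_
    rw [map_mul, ← pderiv_map, hφ]
  have hrep : ∀ u : D.U, Rep D.U D.S.φ ((dvg fun i =>
      (D.q i).map (PowerSeries.constantCoeff (R := M)) * monomial (u : Fin n →₀ ℕ) 1) -
      Polynomial.aeval D.S.φ (Polynomial.derivative D.S.δ) * monomial (u : Fin n →₀ ℕ) 1)
        fun v => (I.Gt v u).map (PowerSeries.constantCoeff (R := M)) := by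
    intro u
    have h1 := Rep_map (PowerSeries.constantCoeff (R := M)) (hI.gt u)
    have h2 : MvPolynomial.map (PowerSeries.constantCoeff (R := M))
        (monomial (u : Fin n →₀ ℕ) (1 : PowerSeries M)) = monomial (u : Fin n →₀ ℕ) 1 := by
      rw [map_monomial, RingHom.map_one]
    rw [map_sub, isopc_dvg, map_mul, isopc_aeval, hφ, dtP_apply, ← Polynomial.derivative_map,
      ← hD.red, h2] at h1
    simp only [map_mul, h2] at h1
    exact h1
  obtain ⟨E, ε, p, hGE, hα⟩ := local0 hn hD.ok hD.mb hG₀ co₀ hco₀ _ hann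
    (fun u v => (I.Gt u v).map (PowerSeries.constantCoeff (R := M))) hrep
  refine trace_form D.S.d hD.ok.d_pos (fun u : D.U => (wtp D.S.w u : ℤ) - D.S.d) D.S.δ hδm
    hD.ok.sep (fun u v => (I.Gt u v).map (PowerSeries.constantCoeff (R := M))) E ε p hGE
    ((n : M) / 2 - 1) hα ?_ g w γ hw hsat
  intro i j hij
  have hne : I.Gt i j ≠ 0 := by
    intro h
    apply hij
    show (I.Gt i j).map (PowerSeries.constantCoeff (R := M)) = 0
    rw [h, Polynomial.map_zero]
  have h1 := mats_degt hD hI hE hG co hco hn i j hne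
  rw [hI.q, hI.q, hI.d, hI.δ, ← hdeg0] at h1
  have h2 : ((I.Gt i j).map (PowerSeries.constantCoeff (R := M))).natDegree ≤
      (I.Gt i j).natDegree := Polynomial.natDegree_map_le
  have h3 : (D.S.d : ℤ) * (((I.Gt i j).map (PowerSeries.constantCoeff (R := M))).natDegree : ℤ) ≤
      (D.S.d : ℤ) * ((I.Gt i j).natDegree : ℤ) :=
    mul_le_mul_of_nonneg_left (by exact_mod_cast h2) (Int.natCast_nonneg _)
  linarith

include hn hD hI hE hG hco hG₀ hco₀ in
theorem iso_Q (a : (Fin n →₀ ℕ) → D.U → Polynomial (PowerSeries M))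
    (ha : ∀ e, Rep D.U D.f (monomial e 1) (a e))
    (Q : Submodule (PowerSeries (RatFunc M)) (D.U → PowerSeries (RatFunc M)))
    (hQ : Q = Submodule.span (PowerSeries (RatFunc M))
      (Set.range fun p : {p : ℕ × (Fin n →₀ ℕ) // wtp D.S.w p.2 < D.S.d * (p.1 + 1)} =>
        cx I (a p.1.2) p.1.1)) :
    (∀ x ∈ Q, conn (dsR (RatFunc M)) I.BsR x ∈ Q) ∧
      ∀ x ∈ Hprim D.S nab₀ br₀, ∃ z ∈ Q, ∀ u, PowerSeries.constantCoeff (z u) = co₀ x u := by
  obtain ⟨Ds, hDs, hDs2⟩ := exists_dsL (M := M) (N := N)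
  have hmem : ∀ (k : ℕ) (e : Fin n →₀ ℕ), wtp D.S.w e < D.S.d * (k + 1) → cx I (a e) k ∈ Q := by
    intro k e h
    rw [hQ]
    exact Submodule.subset_span ⟨⟨(k, e), h⟩, rfl⟩
  constructor
  · intro x hx
    rw [hQ] at hx
    refine Submodule.span_induction (p := fun x _ => conn (dsR (RatFunc M)) I.BsR x ∈ Q)
      ?_ ?_ ?_ ?_ hx
    · rintro _ ⟨⟨⟨k, e⟩, h⟩, rfl⟩
      show conn (dsR (RatFunc M)) I.BsR (cx I (a e) k) ∈ Q
      rw [cx_ns hD hI hE hG co hco Ds hDs hDs2 a ha hn k e]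
      refine Q.neg_mem (Q.smul_mem _ (Q.sum_mem fun m hm => Q.smul_mem _ (hmem _ _ ?_)))
      rw [isopd_wtp_add]
      have h1 : wtp D.S.w e < D.S.d * (k + 1) := h
      have h2 := hD.deg m hm
      calc wtp D.S.w e + wt D.S.w m < D.S.d * (k + 1) + D.S.d := add_lt_add h1 h2
        _ = D.S.d * (k + 1 + 1) := by ring
    · rw [isopd_conn_zero]
      exact Q.zero_mem
    · intro x y _ _ h1 h2
      rw [isopd_conn_add]
      exact Q.add_mem h1 h2
    · intro r x hx h1
      rw [isopd_conn_smul]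
      refine Q.add_mem (Q.smul_mem _ ?_) (Q.smul_mem _ h1)
      rw [hQ]
      exact hx
  · intro x hx
    refine Submodule.span_induction
      (p := fun x _ => ∃ z ∈ Q, ∀ u, PowerSeries.constantCoeff (z u) = co₀ x u) ?_ ?_ ?_ ?_ hx
    · rintro _ ⟨k, e, h, rfl⟩
      exact ⟨cx I (a e) k, hmem k e h, fun u => cx_const hD hI hG₀ co₀ hco₀ a ha k e u⟩
    · refine ⟨0, Q.zero_mem, fun u => ?_⟩
      rw [map_zero]
      exact map_zero _
    · rintro x y _ _ ⟨z, hz, h1⟩ ⟨z', hz', h2⟩
      refine ⟨z + z', Q.add_mem hz hz', fun u => ?_⟩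
      rw [Pi.add_apply, map_add, map_add, h1, h2]
      rfl
    · rintro c x _ ⟨z, hz, h1⟩
      refine ⟨(PowerSeries.C c : PowerSeries (RatFunc M)) • z, Q.smul_mem _ hz, fun u => ?_⟩
      rw [Pi.smul_apply, smul_eq_mul, map_mul, PowerSeries.constantCoeff_C, map_smul,
        Pi.smul_apply, smul_eq_mul, h1]

private theorem isope_weight {n : ℕ} (w : Fin n → ℕ) (e : Fin n →₀ ℕ) :
    Finsupp.weight w e = wt w e := by
  rw [Finsupp.weight_apply, Finsupp.sum_fintype]
  · unfold wt
    exact Finset.sum_congr rfl fun i _ => by rw [smul_eq_mul, mul_comm]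
  · intro i
    rw [zero_smul]

private theorem isope_part {κ : Type*} [Field κ] {n : ℕ} (w : Fin n → ℕ) (d : ℕ)
    (f : MvPolynomial (Fin n) κ) (e : Fin n →₀ ℕ) :
    coeff e (part w d f) = if wt w e = d then coeff e f else 0 := by
  classical
  unfold part
  rw [coeff_weightedHomogeneousComponent, isope_weight]

private theorem isope_hom {κ : Type*} [Field κ] {n : ℕ} (w : Fin n → ℕ) (d : ℕ)
    (f : MvPolynomial (Fin n) κ) : Hom w d (part w d f) := by
  intro e he
  by_contra h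
  rw [mem_support_iff, isope_part, if_neg h] at he
  exact he rfl

private theorem isope_supp {M : Type u} [Field M] {n : ℕ} {D : Defo M n} (hD : D.Ok) :
    ∀ e ∈ (D.f - (part D.S.w D.S.d D.S.φ).map (algebraMap M (PowerSeries M))).support,
      wt D.S.w e < D.S.d := by
  intro e he
  by_contra hlt
  rw [mem_support_iff] at he
  apply he
  have h1 : coeff e D.f = PowerSeries.C (coeff e D.S.φ) +
      PowerSeries.X * PowerSeries.C (coeff e D.θ) := by
    unfold Defo.f phs
    rw [coeff_add, coeff_C_mul, coeff_map, coeff_map]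
  have h2 : coeff e D.θ = 0 := by
    by_contra h
    exact hlt (hD.deg e (mem_support_iff.2 h))
  have h3 : coeff e (part D.S.w D.S.d D.S.φ) = coeff e D.S.φ := by
    rw [isope_part]
    by_cases h4 : wt D.S.w e = D.S.d
    · rw [if_pos h4]
    · rw [if_neg h4]
      by_contra h
      have h5 := hD.ok.deg e (mem_support_iff.2 (Ne.symm h))
      omega
  rw [coeff_sub, h1, h2, coeff_map, h3, PowerSeries.algebraMap_apply, map_zero, mul_zero, add_zero]
  exact sub_self _

include hn hD hI hE hG hco hG₀ hco₀ in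
theorem iso_W [IsAlgClosed M] [Module (Polynomial M) H₀]
    [IsScalarTower (Polynomial M) (RatFunc M) H₀] [IsScalarTower M (Polynomial M) H₀]
    (H₀' : Submodule (RatFunc M) H₀) (hle : H₀' ≤ Hprim D.S nab₀ br₀)
    (hst : ∀ h ∈ H₀', nab₀ h ∈ H₀') :
    ∃ H' : Submodule (RatFunc N) H, H' ≤ Hprim S' nab br ∧ (∀ h ∈ H', nab h ∈ H') ∧
      Module.finrank (RatFunc N) H' = Module.finrank (RatFunc M) H₀' := by
  have hIok : I.Ok := mats_ok hD hI hE hG co hco hn
  obtain ⟨g, w, γ, hg, hind, hsat, hwm, hw⟩ := iso_w0 hD hI hG₀ co₀ hco₀ H₀' hst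
  obtain ⟨δ₁, δ₂, h₁, h₂, h₁₂, hT⟩ :=
    iso_tr hn hD hI hE hG co hco hG₀ co₀ hco₀ g w γ hsat hw
  have hred : D.S.δ = I.δ.map (PowerSeries.constantCoeff (R := M)) := by
    rw [hI.δ]
    exact hD.red
  rw [hred] at hw h₁₂
  obtain ⟨ψ, hψ0, hψs, hψt, hψm, hψQ⟩ := iso_psi I hIok g w γ hw
  obtain ⟨y, hy, hyJ⟩ := iso_transport I hIok g w γ ψ hψ0 hψs hψt hψm ((n : M) / 2 - 1)
    δ₁ δ₂ h₁ h₂ h₁₂ hT
  -- the coordinates of the monomials
  have hrep : ∀ e : Fin n →₀ ℕ, ∃ a : D.U → Polynomial (PowerSeries M),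
      Rep D.U D.f (monomial e 1) a := fun e =>
    Rep_exists hn D.S.w hD.ok.w_pos D.S.d hD.ok.d_pos (part D.S.w D.S.d D.S.φ)
      (isope_hom _ _ _) D.U hD.mb D.f (isope_supp hD) (monomial e 1)
  choose a ha using hrep
  obtain ⟨hQ1, hQ2⟩ := iso_Q hn hD hI hE hG co hco hG₀ co₀ hco₀ a ha _ rfl
  have hψmem := hψQ _ hQ1 fun i => by
    obtain ⟨z, hz, hz'⟩ := hQ2 _ (hle (hwm i))
    refine ⟨z, hz, fun u => ?_⟩
    rw [hz' u, LinearEquiv.apply_symm_apply]
  -- the descent
  letI : Algebra (Polynomial (PowerSeries M)) (RatFunc N) := (jL M N).toAlgebra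
  haveI hfr : IsFractionRing (Polynomial (PowerSeries M)) (RatFunc N) := jL_frac
  obtain ⟨W, hWg, hWst, hWspan⟩ := iso_descend I hIok g w hind ψ hψ0
    (fun i => ⟨_, hψt i⟩) y hy hyJ (L := RatFunc N) (DZ N) (fun a => DZ_jL a)
  have hmem : ∀ h : H, h ∈ W.map (co.symm : (D.U → RatFunc N) →ₗ[RatFunc N] H) ↔ co h ∈ W := by
    intro h
    rw [Submodule.mem_map_equiv, LinearEquiv.symm_symm]
  refine ⟨W.map (co.symm : (D.U → RatFunc N) →ₗ[RatFunc N] H), ?_, ?_, ?_⟩
  · intro h hh
    rw [hmem] at hh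
    have h1 := hWspan {p : ℕ × (Fin n →₀ ℕ) // wtp D.S.w p.2 < D.S.d * (p.1 + 1)}
      (fun p => co (lv nab br p.1.1 (monomial p.1.2 1)))
      (fun p => cx I (a p.1.2) p.1.1)
      (fun p u => cx_cmp hD hI hE hG co hco a ha p.1.1 p.1.2 u) hψmem hh
    have h2 : Submodule.span (RatFunc N) (Set.range
        fun p : {p : ℕ × (Fin n →₀ ℕ) // wtp D.S.w p.2 < D.S.d * (p.1 + 1)} =>
          co (lv nab br p.1.1 (monomial p.1.2 1))) ≤
        (Hprim S' nab br).map (co : H →ₗ[RatFunc N] (D.U → RatFunc N)) := by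
      rw [Submodule.span_le]
      rintro _ ⟨p, rfl⟩
      refine ⟨lv nab br p.1.1 (monomial p.1.2 1), ?_, rfl⟩
      refine Submodule.subset_span ⟨p.1.1, p.1.2, ?_, rfl⟩
      rw [hE.w, hE.d]
      exact p.2
    obtain ⟨h', hh', he⟩ := h2 h1
    have h3 : h' = h := co.injective he
    rwa [← h3]
  · intro h hh
    rw [hmem] at hh ⊢
    rw [co_nab_t hD hI hE hG co hco]
    exact hWst _ hh
  · rw [LinearEquiv.finrank_map_eq, hWg, hg]

end

/-- `GMIrr` does not depend on `δ`. -/
private theorem isopf_cong {κ : Type u} [Field κ] {n : ℕ} (S : Dat κ n) (δ' : Polynomial κ)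
    (h : GMIrr (⟨S.w, S.d, S.φ, S.M, δ', S.ξ⟩ : Dat κ n)) : GMIrr S := by
  intro nab hG H' h1 h2
  exact h nab ⟨hG.leib, hG.mul, hG.exa, hG.lev, hG.span⟩ H' h1 h2

private theorem isopf_weight {n : ℕ} (w : Fin n → ℕ) (e : Fin n →₀ ℕ) :
    Finsupp.weight w e = wt w e := by
  rw [Finsupp.weight_apply, Finsupp.sum_fintype _ _ (fun i => by simp)]
  unfold wt
  exact Finset.sum_congr rfl fun i _ => by rw [smul_eq_mul, mul_comm]

private theorem isopf_coeff {κ : Type*} [Field κ] {n : ℕ} (w : Fin n → ℕ) (N : ℕ)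
    (P : MvPolynomial (Fin n) κ) (e : Fin n →₀ ℕ) :
    coeff e (part w N P) = if wt w e = N then coeff e P else 0 := by
  rw [part, coeff_weightedHomogeneousComponent, isopf_weight]

/-- the Milnor basis of the deformation -/
private theorem isopf_mb {M : Type u} [Field M] [CharZero M] {n : ℕ} (D : Defo M n) (hD : D.Ok)
    {N : Type u} [Field N] [CharZero N] [Algebra (PowerSeries M) N] (S' : Dat N n)
    (hE : D.Ext S') : IsMB S'.w (part S'.w S'.d S'.φ) D.U := by
  let _ : Algebra M N :=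
    ((algebraMap (PowerSeries M) N).comp (PowerSeries.C (R := M))).toAlgebra
  have h1 := IsMB_map (κ' := N) D.S.w (part D.S.w D.S.d D.S.φ) D.U hD.mb
  have h2 : part S'.w S'.d S'.φ = (part D.S.w D.S.d D.S.φ).map (algebraMap M N) := by
    ext1 e
    rw [isopf_coeff, coeff_map, isopf_coeff, hE.w, hE.d]
    by_cases he : wt D.S.w e = D.S.d
    · rw [if_pos he, if_pos he]
      have hθ : coeff e D.θ = 0 := by
        by_contra h
        exact absurd (hD.deg e (MvPolynomial.mem_support_iff.2 h)) (not_lt.2 he.ge)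
      have h3 : coeff e D.f = PowerSeries.C (coeff e D.S.φ) := by
        unfold Defo.f phs
        rw [coeff_add, coeff_C_mul, coeff_map, coeff_map, hθ, map_zero, mul_zero, add_zero]
      rw [hE.φ, coeff_map, h3]
      rfl
    · rw [if_neg he, if_neg he, map_zero]
  rw [h2, hE.w]
  exact h1

/-- irreducibility for the datum of the deformation -/
private theorem isopf_main {M : Type u} [Field M] [CharZero M] [IsAlgClosed M] {n : ℕ}
    (hn : 2 ≤ n) (D : Defo M n) (hD : D.Ok)
    {N : Type u} [Field N] [CharZero N] [Algebra (PowerSeries M) N]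
    [IsFractionRing (PowerSeries M) N] (S' : Dat N n) (hE : D.Ext S')
    (h : GMIrr S') : GMIrr D.S := by
  intro nab₀ hG₀ H₀' hle hst
  obtain ⟨I, hI⟩ := exists_mats hn D hD
  obtain ⟨co₀, hco₀⟩ := exists_co hn D.S hD.ok D.U hD.mb
  obtain ⟨co, hco⟩ := exists_co hn S' hE.ok D.U (isopf_mb D hD S' hE)
  obtain ⟨nab, hG, -⟩ := exists_nab S' hE.ok
  have _ : Module.Finite (RatFunc M) (HH D.S.fK) := Module.Finite.equiv co₀.symm
  obtain ⟨H', h1, h2, h3⟩ := iso_W hn hD hI hE hG co hco hG₀ co₀ hco₀ H₀' hle hst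
  rcases h nab hG H' h1 h2 with h4 | h4
  · left
    rw [h4, finrank_bot] at h3
    exact Submodule.finrank_eq_zero.1 h3.symm
  · right
    refine Submodule.eq_of_le_of_finrank_le hle ?_
    rw [← h3, h4]
    exact prim_rank hn hD hI hE hG co hco hG₀ co₀ hco₀

theorem iso_irr {M : Type u} [Field M] [CharZero M] [IsAlgClosed M] {n : ℕ} (hn : 2 ≤ n)
    (S : Dat M n) (hS : S.Ok) (θ : MvPolynomial (Fin n) M)
    (hθ : ∀ e ∈ θ.support, wt S.w e < S.d)
    {N : Type u} [Field N] [CharZero N] [Algebra (PowerSeries M) N]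
    [IsFractionRing (PowerSeries M) N] (S' : Dat N n) (hS' : S'.Ok) (hw : S'.w = S.w)
    (hd : S'.d = S.d) (hφ : S'.φ = (phs S.φ θ).map (algebraMap (PowerSeries M) N))
    (h : GMIrr S') : GMIrr S := by
  obtain ⟨D, δ', hD, hDθ, hDS⟩ := exists_defo S hS θ hθ
  have hE : D.Ext S' := by
    refine ⟨hS', ?_, ?_, ?_⟩
    · rw [hw, hDS]
    · rw [hd, hDS]
    · rw [hφ]
      unfold Defo.f
      rw [hDθ, hDS]
  have h1 := isopf_main hn D hD S' hE h
  rw [hDS] at h1
  exact isopf_cong S δ' h1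

end MPadcHM
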