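import Pool.Agent.Lib.MP_adc574_ag_GM.Ultra

/-!
# JOB UltAlg: `κ(t)` is algebraically closed in the ultraproduct of the `κ_i(t)`, `κ = Ult κ_i`

Proof. `c : Ult U κ → Ult U (RatFunc κ_i)` induced by the inclusions (`Ideal.Quotient.lift`), `c (ultMk x) = ultMk (C x_i)`;
`ev : (Ult U κ)[X] → Ult`, `eval₂RingHom c (ultMk (fun _ => RatFunc.X))`. For polynomials `P_i` of degree `≤ N`
with coefficients `a_l = (a_l,i)`: `ev (∑ ultMk(a_l) X^l) = ultMk (fun i => ∑_{l ≤ N} a_l,i X^l)`. Injective: if the class of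
`∑ a_l,i X^l` is 0 then for almost all `i` all `a_l,i = 0` (`RatFunc.algebraMap` injective). So `ev` extends to `j` on `RatFunc`
(`RatFunc.liftRingHom` or `IsFractionRing.lift`).
Algebraically closed: let `P ≠ 0`, `P(y) = 0`. Clear denominators: WLOG the coefficients of `P` are in `(Ult U κ)[X]`, leading coefficient `b`;
then `z = j(b) y` is integral: monic `Q` over `(Ult U κ)[X]` with `Q(z) = 0` (`scaleRoots`, or multiply by `b^(m-1)`). It is enough that
`z ∈ j.range`. Let `z = ultMk (z_i)`; all coefficients of `Q` have degree `≤ N`, `m = deg Q`. For almost all `i`: `z_i ^ m + ∑_{s<m} q_s,i z_i ^ s = 0`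
with `q_s,i ∈ κ_i[X]` of degree `≤ N`. `κ_i[X]` is integrally closed: `z_i` is a polynomial (`IsIntegrallyClosed`), and `deg z_i ≤ N`
(otherwise `z_i ^ m` has larger degree than all other terms; for `m = 0` impossible). So `z_i = ∑_{l ≤ N} z_l,i X^l` for almost all `i` and
`z = j(∑ ultMk (z_l) X^l)`.
-/

set_option autoImplicit false

namespace MPadcHM

open MPadcGM

universe u

open Polynomial in
/-- The homomorphism `κ → ` ultraproduct of the `κ_i(t)`. -/
noncomputable def ultalg_c {ι : Type} (U : Ultrafilter ι) (κ : ι → Type u) [∀ i, Field (κ i)] :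
    Ult U κ →+* Ult U (fun i => RatFunc (κ i)) :=
  Ideal.Quotient.lift (ultI U κ)
    ((ultMk U (fun i => RatFunc (κ i))).comp
      (RingHom.pi fun i => (algebraMap (κ i) (RatFunc (κ i))).comp (Pi.evalRingHom κ i)))
    (by
      intro a ha
      have ha' : ∀ᶠ i in (U : Filter ι), a i = 0 := ha
      rw [RingHom.comp_apply, ultMk_eq_zero]
      filter_upwards [ha'] with i hi
      change algebraMap (κ i) (RatFunc (κ i)) (a i) = 0
      rw [hi, map_zero])

theorem ultalg_c_mk {ι : Type} (U : Ultrafilter ι) (κ : ι → Type u) [∀ i, Field (κ i)] (x : ∀ i, κ i) :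
    ultalg_c U κ (ultMk U κ x) =
      ultMk U (fun i => RatFunc (κ i)) fun i => algebraMap (κ i) (RatFunc (κ i)) (x i) := rfl

open Polynomial in
/-- families of polynomials -/
noncomputable def ultalg_F {ι : Type} (U : Ultrafilter ι) (κ : ι → Type u) [∀ i, Field (κ i)] :
    (∀ i, (κ i)[X]) →+* Ult U (fun i => RatFunc (κ i)) :=
  (ultMk U (fun i => RatFunc (κ i))).comp
    (RingHom.pi fun i => (algebraMap (κ i)[X] (RatFunc (κ i))).comp
      (Pi.evalRingHom (fun i => (κ i)[X]) i))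

open Polynomial in
theorem ultalg_F_apply {ι : Type} (U : Ultrafilter ι) (κ : ι → Type u) [∀ i, Field (κ i)]
    (p : ∀ i, (κ i)[X]) :
    ultalg_F U κ p =
      ultMk U (fun i => RatFunc (κ i)) fun i => algebraMap (κ i)[X] (RatFunc (κ i)) (p i) := rfl

open Polynomial in
/-- the evaluation -/
noncomputable def ultalg_ev {ι : Type} (U : Ultrafilter ι) (κ : ι → Type u) [∀ i, Field (κ i)] :
    (Ult U κ)[X] →+* Ult U (fun i => RatFunc (κ i)) :=
  eval₂RingHom (ultalg_c U κ) (ultMk U (fun i => RatFunc (κ i)) (fun _ => RatFunc.X))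

open Polynomial in
theorem ultalg_ev_sum {ι : Type} (U : Ultrafilter ι) (κ : ι → Type u) [∀ i, Field (κ i)]
    (N : ℕ) (a : ℕ → ∀ i, κ i) :
    ultalg_ev U κ (∑ l ∈ Finset.range N, C (ultMk U κ (a l)) * X ^ l) =
      ultalg_F U κ (fun i => ∑ l ∈ Finset.range N, C (a l i) * X ^ l) := by
  have h1 : (fun i => ∑ l ∈ Finset.range N, C (a l i) * X ^ l : ∀ i, (κ i)[X]) =
      ∑ l ∈ Finset.range N, (fun i => C (a l i)) * (fun _ => X) ^ l := by
    funext i
    rw [Finset.sum_apply]
    rfl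
  rw [h1, map_sum, map_sum]
  apply Finset.sum_congr rfl
  intro l _
  rw [map_mul, map_mul, map_pow, map_pow]
  congr 1
  · rw [ultalg_ev, coe_eval₂RingHom, eval₂_C, ultalg_c_mk, ultalg_F_apply]
    congr 1
  · congr 1
    rw [ultalg_ev, coe_eval₂RingHom, eval₂_X, ultalg_F_apply]
    congr 1

open Polynomial in
theorem ultalg_rep {ι : Type} (U : Ultrafilter ι) (κ : ι → Type u) [∀ i, Field (κ i)]
    (P : (Ult U κ)[X]) (N : ℕ) (hN : P.natDegree < N) :
    ∃ a : ℕ → ∀ i, κ i, (∀ l, ultMk U κ (a l) = P.coeff l) ∧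
      P = ∑ l ∈ Finset.range N, C (ultMk U κ (a l)) * X ^ l := by
  refine ⟨fun l => Function.surjInv (ultMk_surjective U κ) (P.coeff l),
    fun l => Function.surjInv_eq (ultMk_surjective U κ) _, ?_⟩
  have h := P.as_sum_range' N hN
  rw [h]
  apply Finset.sum_congr rfl
  intro l _
  rw [← h]
  have e : ultMk U κ (Function.surjInv (ultMk_surjective U κ) (P.coeff l)) = P.coeff l :=
    Function.surjInv_eq (ultMk_surjective U κ) _
  rw [e, C_mul_X_pow_eq_monomial]

open Polynomial in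
theorem ultalg_F_eq_zero {ι : Type} (U : Ultrafilter ι) (κ : ι → Type u) [∀ i, Field (κ i)]
    (p : ∀ i, (κ i)[X]) : ultalg_F U κ p = 0 ↔ ∀ᶠ i in (U : Filter ι), p i = 0 := by
  rw [ultalg_F_apply, ultMk_eq_zero]
  constructor
  · intro h
    filter_upwards [h] with i hi
    exact (map_eq_zero_iff _ (RatFunc.algebraMap_injective (κ i))).1 hi
  · intro h
    filter_upwards [h] with i hi
    rw [hi, map_zero]

open Polynomial in
theorem ultalg_ev_inj {ι : Type} (U : Ultrafilter ι) (κ : ι → Type u) [∀ i, Field (κ i)] :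
    Function.Injective (ultalg_ev U κ) := by
  rw [injective_iff_map_eq_zero]
  intro P hP
  obtain ⟨a, ha, hPa⟩ := ultalg_rep U κ P (P.natDegree + 1) (Nat.lt_succ_self _)
  rw [hPa, ultalg_ev_sum, ultalg_F_eq_zero] at hP
  rw [hPa]
  apply Finset.sum_eq_zero
  intro l hl
  have h0 : ultMk U κ (a l) = 0 := by
    rw [ultMk_eq_zero]
    filter_upwards [hP] with i hi
    have h1 := congrArg (fun q : (κ i)[X] => q.coeff l) hi
    simp only [finsetSum_coeff, coeff_C_mul, coeff_X_pow, coeff_zero] at h1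
    rw [Finset.sum_eq_single l] at h1
    · simpa using h1
    · intro b _ hb
      rw [if_neg (Ne.symm hb), mul_zero]
    · intro h
      exact absurd hl h
  rw [h0, C_0, zero_mul]

open Polynomial in
theorem ultalg_deg {k : Type u} [Field k] (N m : ℕ) (q : ℕ → k[X]) (hq : ∀ s, (q s).natDegree ≤ N)
    (p : k[X]) (h : p ^ m + ∑ s ∈ Finset.range m, q s * p ^ s = 0) : p.natDegree ≤ N := by
  by_contra hp
  push Not at hp
  have hm : m ≠ 0 := by
    rintro rfl
    simp at h
  have h1 : p ^ m = -∑ s ∈ Finset.range m, q s * p ^ s := eq_neg_of_add_eq_zero_left h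
  have h2 : (p ^ m).natDegree ≤ N + (m - 1) * p.natDegree := by
    rw [h1, natDegree_neg]
    apply natDegree_sum_le_of_forall_le
    intro s hs
    have hs' : s ≤ m - 1 := by
      have := Finset.mem_range.1 hs
      omega
    apply natDegree_mul_le_of_le (hq s)
    rw [natDegree_pow]
    exact Nat.mul_le_mul_right _ hs'
  rw [natDegree_pow] at h2
  obtain ⟨n, rfl⟩ : ∃ n, m = n + 1 := ⟨m - 1, by omega⟩
  rw [Nat.add_sub_cancel, add_mul, one_mul] at h2
  omega

open Polynomial in
theorem ultalg_int {ι : Type} (U : Ultrafilter ι) (κ : ι → Type u) [∀ i, Field (κ i)]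
    (Q : (Ult U κ)[X][X]) (hQ : Q.Monic) (z : Ult U (fun i => RatFunc (κ i)))
    (hz : Q.eval₂ (ultalg_ev U κ) z = 0) : z ∈ (ultalg_ev U κ).range := by
  classical
  obtain ⟨w, rfl⟩ := ultMk_surjective U (fun i => RatFunc (κ i)) z
  obtain ⟨N, hN⟩ : ∃ N : ℕ, ∀ s ∈ Finset.range Q.natDegree, (Q.coeff s).natDegree < N := by
    refine ⟨(Finset.range Q.natDegree).sup (fun s => (Q.coeff s).natDegree) + 1, fun s hs => ?_⟩
    exact Nat.lt_succ_of_le (Finset.le_sup (f := fun s => (Q.coeff s).natDegree) hs)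
  have hrep : ∀ s, ∃ a : ℕ → ∀ i, κ i, s ∈ Finset.range Q.natDegree →
      ultalg_ev U κ (Q.coeff s) =
        ultalg_F U κ (fun i => ∑ l ∈ Finset.range N, C (a l i) * X ^ l) := by
    intro s
    by_cases hs : s ∈ Finset.range Q.natDegree
    · obtain ⟨a, _, ha2⟩ := ultalg_rep U κ (Q.coeff s) N (hN s hs)
      refine ⟨a, fun _ => ?_⟩
      rw [← ultalg_ev_sum, ← ha2]
    · exact ⟨fun _ _ => 0, fun h => absurd h hs⟩
  choose a ha using hrep
  let q : ℕ → ∀ i, (κ i)[X] := fun s i => ∑ l ∈ Finset.range N, C (a s l i) * X ^ l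
  have hqdeg : ∀ s i, (q s i).natDegree ≤ N := by
    intro s i
    apply natDegree_sum_le_of_forall_le
    intro l hl
    exact (natDegree_C_mul_X_pow_le _ _).trans (Finset.mem_range.1 hl).le
  have hmain : ultMk U (fun i => RatFunc (κ i)) (fun i => w i ^ Q.natDegree +
      ∑ s ∈ Finset.range Q.natDegree, algebraMap (κ i)[X] (RatFunc (κ i)) (q s i) * w i ^ s) = 0 := by
    rw [eval₂_eq_sum_range, Finset.sum_range_succ, hQ.coeff_natDegree, map_one, one_mul,
      add_comm] at hz
    rw [← hz]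
    have e : (fun i => w i ^ Q.natDegree +
        ∑ s ∈ Finset.range Q.natDegree, algebraMap (κ i)[X] (RatFunc (κ i)) (q s i) * w i ^ s) =
        w ^ Q.natDegree + ∑ s ∈ Finset.range Q.natDegree,
          (fun i => algebraMap (κ i)[X] (RatFunc (κ i)) (q s i)) * w ^ s := by
      funext i
      rw [Pi.add_apply, Finset.sum_apply]
      rfl
    rw [e, map_add, map_pow, map_sum]
    congr 1
    apply Finset.sum_congr rfl
    intro s hs
    rw [map_mul, map_pow, ha s hs, ultalg_F_apply]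
  rw [ultMk_eq_zero] at hmain
  have hex : ∀ᶠ i in (U : Filter ι), ∃ p : (κ i)[X], algebraMap (κ i)[X] (RatFunc (κ i)) p = w i ∧
      p.natDegree ≤ N := by
    filter_upwards [hmain] with i hi
    have hint : IsIntegral (κ i)[X] (w i) := by
      refine ⟨X ^ Q.natDegree + ∑ s ∈ Finset.range Q.natDegree, C (q s i) * X ^ s, ?_, ?_⟩
      · apply monic_X_pow_add
        apply lt_of_le_of_lt (degree_sum_le _ _)
        rw [Finset.sup_lt_iff (WithBot.bot_lt_coe _)]
        intro s hs
        apply lt_of_le_of_lt (degree_C_mul_X_pow_le _ _)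
        exact_mod_cast Finset.mem_range.1 hs
      · rw [eval₂_add, eval₂_pow, eval₂_X, eval₂_finsetSum]
        simp only [eval₂_mul, eval₂_C, eval₂_pow, eval₂_X]
        exact hi
    obtain ⟨p, hp⟩ := IsIntegrallyClosed.algebraMap_eq_of_integral hint
    refine ⟨p, hp, ?_⟩
    apply ultalg_deg N Q.natDegree (fun s => q s i) (fun s => hqdeg s i) p
    apply RatFunc.algebraMap_injective (κ i)
    rw [map_zero, map_add, map_pow, map_sum, hp]
    rw [← hi]
    congr 1
    apply Finset.sum_congr rfl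
    intro s _
    rw [map_mul, map_pow, hp]
  let p : ∀ i, (κ i)[X] := fun i =>
    if h : ∃ p : (κ i)[X], algebraMap (κ i)[X] (RatFunc (κ i)) p = w i ∧ p.natDegree ≤ N
    then h.choose else 0
  refine ⟨∑ l ∈ Finset.range (N + 1), C (ultMk U κ (fun i => (p i).coeff l)) * X ^ l, ?_⟩
  rw [ultalg_ev_sum, ultalg_F_apply, ultMk_eq]
  filter_upwards [hex] with i hi
  have hpi : p i = hi.choose := dif_pos hi
  obtain ⟨h1, h2⟩ := hi.choose_spec
  rw [← hpi] at h1 h2
  rw [← h1]
  congr 1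
  conv_rhs => rw [(p i).as_sum_range' (N + 1) (Nat.lt_succ_of_le h2)]
  apply Finset.sum_congr rfl
  intro l _
  rw [C_mul_X_pow_eq_monomial]

theorem exists_ultRat {ι : Type} (U : Ultrafilter ι) (κ : ι → Type u) [∀ i, Field (κ i)] :
    ∃ j : RatFunc (Ult U κ) →+* Ult U (fun i => RatFunc (κ i)),
      (∀ x : ∀ i, κ i, j (algebraMap (Ult U κ) (RatFunc (Ult U κ)) (ultMk U κ x)) =
        ultMk U (fun i => RatFunc (κ i)) fun i => algebraMap (κ i) (RatFunc (κ i)) (x i)) ∧
      j RatFunc.X = ultMk U (fun i => RatFunc (κ i)) (fun _ => RatFunc.X) ∧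
      ∀ (y : Ult U fun i => RatFunc (κ i)) (P : Polynomial (RatFunc (Ult U κ))), P ≠ 0 →
        P.eval₂ j y = 0 → y ∈ j.range := by
  let j : RatFunc (Ult U κ) →+* Ult U (fun i => RatFunc (κ i)) :=
    IsFractionRing.lift (ultalg_ev_inj U κ)
  have hj : ∀ P : Polynomial (Ult U κ), j (algebraMap _ _ P) = ultalg_ev U κ P :=
    fun P => IsFractionRing.lift_algebraMap (ultalg_ev_inj U κ) P
  refine ⟨j, ?_, ?_, ?_⟩
  · intro x
    rw [RatFunc.algebraMap_eq_C, ← RatFunc.algebraMap_C, hj, ultalg_ev,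
      Polynomial.coe_eval₂RingHom, Polynomial.eval₂_C, ultalg_c_mk]
  · rw [← RatFunc.algebraMap_X, hj, ultalg_ev, Polynomial.coe_eval₂RingHom, Polynomial.eval₂_X]
  · intro y P hP hy
    let a1 : Algebra (RatFunc (Ult U κ)) (Ult U fun i => RatFunc (κ i)) := j.toAlgebra
    let a2 : Algebra (Polynomial (Ult U κ)) (Ult U fun i => RatFunc (κ i)) :=
      (ultalg_ev U κ).toAlgebra
    have tw : @IsScalarTower (Polynomial (Ult U κ)) (RatFunc (Ult U κ))
        (Ult U fun i => RatFunc (κ i)) Algebra.toSMul a1.toSMul a2.toSMul :=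
      IsScalarTower.of_algebraMap_eq fun x => (hj x).symm
    have h1 : IsAlgebraic (RatFunc (Ult U κ)) y := ⟨P, hP, hy⟩
    have h2 : IsAlgebraic (Polynomial (Ult U κ)) y :=
      (IsFractionRing.isAlgebraic_iff (Polynomial (Ult U κ)) (RatFunc (Ult U κ)) _).2 h1
    obtain ⟨b, hb, Q, hQ, hQz⟩ := h2.exists_integral_multiple
    obtain ⟨p, hp⟩ := ultalg_int U κ Q hQ (b • y) hQz
    have hb' : ultalg_ev U κ b ≠ 0 := by
      intro h
      exact hb (ultalg_ev_inj U κ (by rw [h, map_zero]))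
    refine ⟨algebraMap _ _ p / algebraMap _ _ b, ?_⟩
    rw [map_div₀, hj, hj, hp, Algebra.smul_def]
    change ultalg_ev U κ b * y / ultalg_ev U κ b = y
    rw [mul_comm, mul_div_cancel_right₀ _ hb']

end MPadcHM
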