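import Pool.Agent.Lib.MP_adc574_ag_HM.Irr
import Pool.Agent.Lib.MP_adc574_ag_HM.CoreGen
import Pool.Agent.Lib.MP_adc574_ag_LP.Primes

/-!
# From Theorem C to reductions modulo `p` (ultraproduct)

`core`: everything is defined over a finitely generated domain `R` of characteristic 0. For every
`h ≠ 0` in `R[t]` and all large primes `p` there are a field `E` of characteristic `p` and
`ψ : R → E` with `h ^ ψ ≠ 0` such that the Hasse-Witt determinant of `Φ ^ ψ - t x_0 ^ d` over `E(t)` is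
not zero.
-/

set_option autoImplicit false

namespace MPadcHM

open MvPolynomial MPadcGM

universe u

section

variable (U : Ultrafilter ℕ) {R : Type u} [CommRing R] {n : ℕ} (w : Fin n → ℕ) (d : ℕ)
  (Φ : MvPolynomial (Fin (n + 1)) R) (M : ℕ) (δ : Polynomial R) (ξ : Fin n → Polynomial R)
  (p : ℕ → ℕ) (E : ℕ → Type u) [hE : ∀ i, Field (E i)] (ψ : ∀ i, R →+* E i)

/-- The pencil over the ultraproduct. -/
noncomputable def pdat : Dat (Ult U E) n :=
  ⟨w, d, (aff Φ).map (uphi U E ψ), M, δ.map (uphi U E ψ), fun j => (ξ j).map (uphi U E ψ)⟩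

theorem pdat_ok (hw : ∀ i, 0 < w i) (hd : 0 < d)
    (hΦ : Φ.IsWeightedHomogeneous (Fin.cons 1 w : Fin (n + 1) → ℕ) d)
    (hjac : ∀ e : Fin n →₀ ℕ, M ≤ wt w e → monomial e (1 : R) ∈ Jac (bdr Φ))
    (hξ : ∀ j, X j - Polynomial.aeval (aff Φ) (ξ j) ∈ Jac (aff Φ))
    (hδ : Polynomial.aeval (aff Φ) δ ∈ Jac (aff Φ))
    (hsep : δ.Separable) : (pdat U w d Φ M δ ξ E ψ).Ok where
  w_pos := hw
  d_pos := hd
  deg := by
    change DegLe w d ((aff Φ).map (uphi U E ψ))
    rw [← aff_map]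
    exact degLe_aff w d _ (isWeightedHomogeneous_map _ hΦ)
  jac := by
    intro e he
    change monomial e (1 : Ult U E) ∈ Jac (part w d ((aff Φ).map (uphi U E ψ)))
    rw [← aff_map, part_aff w d _ (isWeightedHomogeneous_map _ hΦ), bdr_map]
    have h1 := mem_Jac_map (uphi U E ψ) (hjac e he)
    rw [map_monomial, map_one] at h1
    exact h1
  sep := hsep.map
  ann := by
    change Polynomial.aeval ((aff Φ).map (uphi U E ψ)) (δ.map (uphi U E ψ)) ∈
      Jac ((aff Φ).map (uphi U E ψ))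
    rw [aeval_map_map]
    exact mem_Jac_map _ hδ
  gen := by
    intro j
    change X j - Polynomial.aeval ((aff Φ).map (uphi U E ψ)) ((ξ j).map (uphi U E ψ)) ∈
      Jac ((aff Φ).map (uphi U E ψ))
    rw [aeval_map_map]
    have h1 := mem_Jac_map (uphi U E ψ) (hξ j)
    rw [map_sub, map_X] at h1
    exact h1

end

/-- A sequence of reductions with prescribed large characteristics. -/
theorem exists_seq_of_primes {R : Type u} [CommRing R] [IsDomain R] [CharZero R]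
    [Algebra.FiniteType ℤ R] (B : ℕ → Prop) (hB : ∀ N : ℕ, ∃ p, p.Prime ∧ N < p ∧ B p) :
    ∃ (p : ℕ → ℕ) (E : ℕ → Type u) (_ : ∀ i, Field (E i)) (_ : ∀ i, CharP (E i) (p i))
      (ψ : ∀ i, R →+* E i), (∀ i, (p i).Prime ∧ i < p i ∧ B (p i)) ∧
        ∀ x : R, x ≠ 0 → ∃ m, ∀ i, m ≤ i → ψ i x ≠ 0 := by
  classical
  have hcount := countable_of_finiteType R
  obtain ⟨e, he⟩ := exists_surjective_nat R
  let s : ℕ → R := fun n => if e n = 0 then 1 else e n
  have hs : ∀ n, s n ≠ 0 := by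
    intro n
    by_cases h : e n = 0
    · simp only [s, if_pos h]
      exact one_ne_zero
    · simp only [s, if_neg h]
      exact h
  have hr : ∀ i, ∏ j ∈ Finset.range (i + 1), s j ≠ 0 := fun i =>
    Finset.prod_ne_zero_iff.2 fun j _ => hs j
  choose N hN using fun i : ℕ => MPadcLP.exists_bound _ (hr i)
  choose p hp hpl hpB using fun i : ℕ => hB (max (N i) i)
  choose P hP hPs hPp using fun i : ℕ => hN i (p i) (hp i) (lt_of_le_of_lt (le_max_left _ _) (hpl i))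
  have hchar : ∀ i, CharP (FractionRing (R ⧸ P i)) (p i) := by
    intro i
    have := hP i
    have hpf : Fact (p i).Prime := ⟨hp i⟩
    refine charP_of_cast_eq_zero (hp i) ?_
    have h1 : ((p i : ℕ) : FractionRing (R ⧸ P i)) =
        algebraMap (R ⧸ P i) (FractionRing (R ⧸ P i)) (Ideal.Quotient.mk (P i) (p i : R)) := by
      rw [map_natCast, map_natCast]
    rw [h1, Ideal.Quotient.eq_zero_iff_mem.2 (hPp i), map_zero]
  refine ⟨p, fun i => FractionRing (R ⧸ P i), fun i => by have := hP i; infer_instance, hchar,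
    fun i => (algebraMap (R ⧸ P i) (FractionRing (R ⧸ P i))).comp (Ideal.Quotient.mk (P i)),
    fun i => ⟨hp i, lt_of_le_of_lt (le_max_right _ _) (hpl i), hpB i⟩, ?_⟩
  intro x hx
  obtain ⟨m, hm⟩ := he x
  refine ⟨m, fun i hi h0 => hPs i ?_⟩
  have := hP i
  rw [RingHom.comp_apply, map_eq_zero_iff _ (IsFractionRing.injective (R ⧸ P i)
    (FractionRing (R ⧸ P i))), Ideal.Quotient.eq_zero_iff_mem] at h0
  have h1 : s m = x := by
    simp only [s, hm, if_neg hx]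
  rw [← h1] at h0
  exact Ideal.mem_of_dvd _ (Finset.dvd_prod_of_mem _ (Finset.mem_range.2 (by omega))) h0

theorem core {R : Type u} [CommRing R] [IsDomain R] [CharZero R] [Algebra.FiniteType ℤ R]
    {n : ℕ} (hn : 2 ≤ n) (w : Fin n → ℕ) (hw : ∀ i, 0 < w i) (d : ℕ) (hd : 0 < d)
    (Φ : MvPolynomial (Fin (n + 1)) R)
    (hΦ : Φ.IsWeightedHomogeneous (Fin.cons 1 w : Fin (n + 1) → ℕ) d) (M : ℕ)
    (hjac : ∀ e : Fin n →₀ ℕ, M ≤ wt w e → monomial e (1 : R) ∈ Jac (bdr Φ))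
    (ξ : Fin n → Polynomial R) (hξ : ∀ j, X j - Polynomial.aeval (aff Φ) (ξ j) ∈ Jac (aff Φ))
    (δ : Polynomial R) (hδ : Polynomial.aeval (aff Φ) δ ∈ Jac (aff Φ)) (hsep : δ.Separable)
    (h : Polynomial R) (hh : h ≠ 0) :
    ∃ p₀ : ℕ, ∀ p : ℕ, p.Prime → p₀ < p →
      ∃ (E : Type u) (_ : Field E) (_ : CharP E p) (ψ : R →+* E), h.map ψ ≠ 0 ∧
      (hasseWitt p (Fin.cons 1 w : Fin (n + 1) → ℕ) d
        ((Φ.map ψ).map (algebraMap E (RatFunc E)) - C RatFunc.X * X 0 ^ d)).det ≠ 0 := by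
  by_contra hcon
  push Not at hcon
  obtain ⟨p, E, hE, hchar, ψ, hp, hψ⟩ := exists_seq_of_primes (R := R)
    (fun p => ∀ (E : Type u) (_ : Field E) (_ : CharP E p) (ψ : R →+* E), h.map ψ ≠ 0 →
      (hasseWitt p (Fin.cons 1 w : Fin (n + 1) → ℕ) d
        ((Φ.map ψ).map (algebraMap E (RatFunc E)) - C RatFunc.X * X 0 ^ d)).det = 0)
    (fun N => by
      obtain ⟨p, h1, h2, h3⟩ := hcon N
      exact ⟨p, h1, h2, h3⟩)
  have hδ0 : δ ≠ 0 := fun h0 => by
    rw [h0] at hsep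
    exact Polynomial.not_separable_zero hsep
  obtain ⟨i, hi1, hi2⟩ := core_seq w hw d hd Φ hΦ M hjac δ hδ0 hδ p E ψ
    (fun i => ⟨(hp i).1, (hp i).2.1⟩) hψ (by
      intro U hcz _ L _ _ DL hD hcl V _ _ c hc hind u hu hud
      exact theoremC hn (pdat U w d Φ M δ ξ E ψ) (pdat_ok U w d Φ M δ ξ E ψ hw hd hΦ hjac hξ hδ hsep)
        (gm_irr hn _ (pdat_ok U w d Φ M δ ξ E ψ hw hd hΦ hjac hξ hδ hsep)) DL hD
        hcl c hc hind u hu hud) h hh
  exact hi2 ((hp i).2.2 (E i) (hE i) (hchar i) (ψ i) hi1)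

end MPadcHM
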