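import Pool.Agent.Lib.MP_adc574_ag_HM.KosF
import Pool.Agent.Lib.MP_adc574_ag_HM.GMDefs

/-!
# Milnor bases, base change of data: definitions
-/

set_option autoImplicit false

namespace MPadcHM

open MvPolynomial

universe u

/-- The monomials `x^u`, `u ∈ U`, are a basis of `κ[x] / (∂ g)` (`g` homogeneous). -/
structure IsMB {κ : Type*} [Field κ] {n : ℕ} (w : Fin n → ℕ) (g : MvPolynomial (Fin n) κ)
    (U : Finset (Fin n →₀ ℕ)) : Prop where
  span : ∀ e : Fin n →₀ ℕ, ∃ c : (Fin n →₀ ℕ) → κ, (∀ u, c u ≠ 0 → wt w u = wt w e) ∧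
    monomial e 1 - ∑ u ∈ U, monomial u (c u) ∈ Jac g
  ind : ∀ c : (Fin n →₀ ℕ) → κ, ∑ u ∈ U, monomial u (c u) ∈ Jac g → ∀ u ∈ U, c u = 0

/-- Base change of the data along a ring homomorphism of fields. -/
noncomputable def Dat.map {κ κ' : Type u} [Field κ] [Field κ'] {n : ℕ} (S : Dat κ n)
    (f : κ →+* κ') : Dat κ' n :=
  ⟨S.w, S.d, S.φ.map f, S.M, S.δ.map f, fun j => (S.ξ j).map f⟩

end MPadcHM
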