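import Pool.Agent.Lib.MP_adc574_ag_HM.FDefs

/-!
# Morse polynomials: the conditions (G), (D) and `δ` separable

Over the algebraic closure `k'` of `k₀`: `J = Jac φ`, `B = k'[x] / J` is finite dimensional (`X_i ^ M` in the ideal of the `∂_j` of the top part, so modulo
`J` every monomial of large weight is a combination of monomials of smaller weight). `V` = the finite set of critical points. For `x ∈ V` with maximal ideal `m_x` of `k'[x]`:
`m_x = m_x ^ 2 + J` since the Hessian at `x` is invertible (the linear parts of the `∂_i φ` at `x` span the linear forms). So the nilradical `N` of `B` (`= ⋂ m_x B = ∏ m_x B`) satisfies `N ^ 2 = N`, `N = 0`: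
`J` is the ideal of polynomials vanishing on `V`. Lagrange interpolation at the different values `φ(x)`, `x ∈ V`: `X_j - ξ'_j(φ) ∈ J`, and `δ' = ∏ (T - φ(x))` is separable, `δ'(φ) ∈ J`.
Descent: choose a `k₀`-linear `π : k' → k₀` with `π 1 = 1` and apply it to the coefficients: `X_j - (π ξ'_j)(φ) ∈ Jac φ` over `k₀`. Let `δ` generate the ideal of the `q ∈ k₀[T]` with `q(φ) ∈ Jac φ`; writing `δ'`
in a `k₀`-basis of `k'` one sees that `δ` divides `δ'` over `k'`, so `δ` is separable.
-/

set_option autoImplicit false

namespace MPadcHM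

open MvPolynomial

/-- All critical points of `φ` over the algebraic closure are nondegenerate and have different
critical values. -/
def IsMorse {k₀ : Type*} [Field k₀] {n : ℕ} (φ : MvPolynomial (Fin n) k₀) : Prop :=
  (∀ x : Fin n → AlgebraicClosure k₀, (∀ i, aeval x (pderiv i φ) = 0) →
    (Matrix.of fun i j => aeval x (pderiv i (pderiv j φ))).det ≠ 0) ∧
  ∀ x y : Fin n → AlgebraicClosure k₀, (∀ i, aeval x (pderiv i φ) = 0) →
    (∀ i, aeval y (pderiv i φ) = 0) → aeval x φ = aeval y φ → x = y

private theorem Morse_weight {n : ℕ} (w : Fin n → ℕ) (e : Fin n →₀ ℕ) : Finsupp.weight w e = wt w e := by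
  rw [Finsupp.weight_apply, Finsupp.sum_fintype]
  · unfold wt
    apply Finset.sum_congr rfl
    intro i _
    rw [smul_eq_mul, mul_comm]
  · intro i
    rw [zero_smul]

private theorem Morse_wt_add {n : ℕ} (w : Fin n → ℕ) (a b : Fin n →₀ ℕ) : wt w (a + b) = wt w a + wt w b := by
  unfold wt
  rw [← Finset.sum_add_distrib]
  apply Finset.sum_congr rfl
  intro i _
  rw [Finsupp.add_apply, mul_add]

private theorem Morse_wt_single {n : ℕ} (w : Fin n → ℕ) (j : Fin n) : wt w (Finsupp.single j 1) = w j := by
  unfold wt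
  rw [Finset.sum_eq_single j]
  · rw [Finsupp.single_eq_same, mul_one]
  · intro i _ hij
    rw [Finsupp.single_eq_of_ne hij, mul_zero]
  · intro h
    exact absurd (Finset.mem_univ j) h

/-- Modulo the Jacobian ideal every polynomial is a combination of finitely many monomials. -/
private theorem Morse_span {R : Type*} [CommRing R] {n : ℕ} (w : Fin n → ℕ) (hw : ∀ i, 0 < w i) (d : ℕ)
    (g : MvPolynomial (Fin n) R) (hg : DegLe w d g) (N : ℕ)
    (hN : ∀ i, (X i : MvPolynomial (Fin n) R) ^ N ∈ Jac (part w d g)) :
    ∃ s : Finset (Fin n →₀ ℕ), ∀ P : MvPolynomial (Fin n) R, ∃ c : (Fin n →₀ ℕ) → R,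
      P - ∑ e ∈ s, monomial e (c e) ∈ Jac g := by
  classical
  -- finiteness of the set of small exponents
  have hfin : ∀ M : ℕ, {e : Fin n →₀ ℕ | wt w e < M}.Finite := by
    intro M
    apply Set.Finite.subset (Set.finite_Iic (Finsupp.equivFunOnFinite.symm (fun _ : Fin n => M)))
    intro e he
    rw [Set.mem_Iic]
    intro i
    have h1 : w i * e i ≤ wt w e := Finset.single_le_sum (f := fun i => w i * e i) (fun _ _ => Nat.zero_le _) (Finset.mem_univ i)
    have h2 : e i ≤ w i * e i := Nat.le_mul_of_pos_left _ (hw i)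
    have h3 : wt w e < M := he
    show e i ≤ M
    omega
  set M : ℕ := N * ∑ i, w i + 1 with hM
  let s : Finset (Fin n →₀ ℕ) := (hfin M).toFinset
  have hs : ∀ e, e ∈ s ↔ wt w e < M := by
    intro e
    rw [Set.Finite.mem_toFinset]
    rfl
  refine ⟨s, ?_⟩
  -- parts
  set p := part w d g with hp
  have hpsupp : ∀ e ∈ p.support, wt w e = d := by
    intro e he
    rw [hp, mem_support_iff, part, coeff_weightedHomogeneousComponent] at he
    by_contra hne
    rw [Morse_weight, if_neg hne] at he
    exact he rfl
  have hrsupp : ∀ e ∈ (g - p).support, wt w e + 1 ≤ d := by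
    intro e he
    rw [mem_support_iff, coeff_sub, hp, part, coeff_weightedHomogeneousComponent, Morse_weight] at he
    by_cases h : wt w e = d
    · rw [if_pos h, sub_self] at he
      exact absurd rfl he
    · rw [if_neg h, sub_zero] at he
      have := hg e (mem_support_iff.mpr he)
      omega
  -- the division step
  have hdiv : ∀ e : Fin n →₀ ℕ, M ≤ wt w e → (monomial e 1 : MvPolynomial (Fin n) R) ∈ Jac p := by
    intro e he
    have hex : ∃ i, N ≤ e i := by
      by_contra hcon
      push Not at hcon
      have : wt w e ≤ N * ∑ i, w i := by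
        unfold wt
        rw [Finset.mul_sum]
        apply Finset.sum_le_sum
        intro i _
        rw [mul_comm N]
        exact Nat.mul_le_mul_left _ (hcon i).le
      omega
    obtain ⟨i, hi⟩ := hex
    have h0 : e - Finsupp.single i N + Finsupp.single i N = e := by
      ext j
      rw [Finsupp.add_apply, Finsupp.tsub_apply]
      by_cases hj : i = j
      · subst hj
        rw [Finsupp.single_eq_same]
        omega
      · rw [Finsupp.single_eq_of_ne' hj]
        omega
    have h1 : (monomial e 1 : MvPolynomial (Fin n) R) = monomial (e - Finsupp.single i N) 1 * X i ^ N := by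
      rw [X_pow_eq_monomial, monomial_mul, mul_one, h0]
    rw [h1]
    exact Ideal.mul_mem_left _ _ (hN i)
  -- homogeneous coefficients
  have hhom : ∀ e : Fin n →₀ ℕ, M ≤ wt w e → ∃ B : Fin n → MvPolynomial (Fin n) R,
      (monomial e 1 : MvPolynomial (Fin n) R) = ∑ j, B j * pderiv j p ∧
      ∀ j, ∀ a ∈ (B j).support, wt w a + d = wt w e + w j := by
    intro e he
    have h1 := hdiv e he
    rw [Jac, Ideal.mem_span_range_iff_exists_fun] at h1
    obtain ⟨A, hA⟩ := h1
    let B : Fin n → MvPolynomial (Fin n) R := fun j =>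
      if d ≤ wt w e + w j then weightedHomogeneousComponent w (wt w e + w j - d) (A j) else 0
    have hBs : ∀ j, ∀ a ∈ (B j).support, wt w a + d = wt w e + w j := by
      intro j a ha
      simp only [B] at ha
      split_ifs at ha with hc
      · rw [mem_support_iff, coeff_weightedHomogeneousComponent, Morse_weight] at ha
        by_contra hne
        rw [if_neg (by omega)] at ha
        exact ha rfl
      · rw [support_zero] at ha
        exact absurd ha (Finset.notMem_empty _)
    refine ⟨B, ?_, hBs⟩
    -- compare coefficients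
    have hd : ∀ j, ∀ b : Fin n →₀ ℕ, coeff b (pderiv j p) ≠ 0 → wt w b + w j = d := by
      intro j b hb
      have h2 : coeff b (pderiv j p) = coeff (b + Finsupp.single j 1) p * (b j + 1) := by
        rw [coeff_pderiv]
      rw [h2] at hb
      have h3 : b + Finsupp.single j 1 ∈ p.support := by
        rw [mem_support_iff]
        intro h0
        rw [h0, zero_mul] at hb
        exact hb rfl
      have h4 := hpsupp _ h3
      rw [Morse_wt_add, Morse_wt_single] at h4
      exact h4
    ext m
    have hA' : coeff m (monomial e 1 : MvPolynomial (Fin n) R) = ∑ j, coeff m (A j * pderiv j p) := by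
      rw [← hA, coeff_sum]
    have hterm : ∀ j, coeff m (B j * pderiv j p) = if wt w m = wt w e then coeff m (A j * pderiv j p) else 0 := by
      intro j
      rw [coeff_mul, coeff_mul]
      split_ifs with hme
      · apply Finset.sum_congr rfl
        intro ab hab
        rw [Finset.HasAntidiagonal.mem_antidiagonal] at hab
        by_cases hz : coeff ab.2 (pderiv j p) = 0
        · rw [hz, mul_zero, mul_zero]
        · have h5 := hd j ab.2 hz
          have h6 : wt w ab.1 + wt w ab.2 = wt w e := by
            rw [← Morse_wt_add, hab, hme]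
          have h7 : coeff ab.1 (B j) = coeff ab.1 (A j) := by
            simp only [B]
            rw [if_pos (by omega), coeff_weightedHomogeneousComponent, Morse_weight, if_pos (by omega)]
          rw [h7]
      · apply Finset.sum_eq_zero
        intro ab hab
        rw [Finset.HasAntidiagonal.mem_antidiagonal] at hab
        by_cases hz : coeff ab.2 (pderiv j p) = 0
        · rw [hz, mul_zero]
        · have h5 := hd j ab.2 hz
          have h6 : wt w ab.1 + wt w ab.2 = wt w m := by
            rw [← Morse_wt_add, hab]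
          have h7 : coeff ab.1 (B j) = 0 := by
            by_contra hne
            have := hBs j ab.1 (mem_support_iff.mpr hne)
            omega
          rw [h7, zero_mul]
    rw [coeff_sum]
    rw [Finset.sum_congr rfl (fun j _ => hterm j)]
    by_cases hme : wt w m = wt w e
    · simp only [if_pos hme]
      exact hA'
    · simp only [if_neg hme, Finset.sum_const_zero]
      rw [coeff_monomial, if_neg]
      intro h
      rw [h] at hme
      exact hme rfl
  -- strong induction
  have hlin : ∀ P : MvPolynomial (Fin n) R, (∀ a ∈ P.support, ∃ c : (Fin n →₀ ℕ) → R,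
      (monomial a 1 : MvPolynomial (Fin n) R) - ∑ e ∈ s, monomial e (c e) ∈ Jac g) →
      ∃ c : (Fin n →₀ ℕ) → R, P - ∑ e ∈ s, monomial e (c e) ∈ Jac g := by
    intro P h
    choose! c hc using h
    refine ⟨fun e' => ∑ a ∈ P.support, coeff a P * c a e', ?_⟩
    have h1 : P - ∑ e' ∈ s, monomial e' (∑ a ∈ P.support, coeff a P * c a e') =
        ∑ a ∈ P.support, C (coeff a P) * (monomial a 1 - ∑ e' ∈ s, monomial e' (c a e')) := by
      have h2 : ∑ e' ∈ s, (monomial e' (∑ a ∈ P.support, coeff a P * c a e') : MvPolynomial (Fin n) R) =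
          ∑ a ∈ P.support, C (coeff a P) * ∑ e' ∈ s, monomial e' (c a e') := by
        rw [Finset.sum_congr rfl (fun e' _ => map_sum (monomial e') _ _), Finset.sum_comm]
        refine Finset.sum_congr rfl fun a _ => ?_
        rw [Finset.mul_sum]
        refine Finset.sum_congr rfl fun e' _ => ?_
        rw [C_mul_monomial]
      rw [h2]
      have h3 : ∑ a ∈ P.support, C (coeff a P) * (monomial a 1 - ∑ e' ∈ s, monomial e' (c a e')) =
          (∑ a ∈ P.support, monomial a (coeff a P)) -
            ∑ a ∈ P.support, C (coeff a P) * ∑ e' ∈ s, monomial e' (c a e') := by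
        rw [← Finset.sum_sub_distrib]
        refine Finset.sum_congr rfl fun a _ => ?_
        rw [mul_sub, C_mul_monomial, mul_one]
      rw [h3, ← P.as_sum]
    rw [h1]
    exact Ideal.sum_mem _ fun a ha => Ideal.mul_mem_left _ _ (hc a ha)
  have main : ∀ T : ℕ, ∀ e : Fin n →₀ ℕ, wt w e = T → ∃ c : (Fin n →₀ ℕ) → R,
      (monomial e 1 : MvPolynomial (Fin n) R) - ∑ e' ∈ s, monomial e' (c e') ∈ Jac g := by
    intro T
    induction T using Nat.strong_induction_on with
    | _ T ih =>
      intro e heT
      by_cases hlt : wt w e < M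
      · refine ⟨fun e' => if e' = e then 1 else 0, ?_⟩
        rw [Finset.sum_eq_single e]
        · show (monomial e 1 : MvPolynomial (Fin n) R) - monomial e (if e = e then 1 else 0) ∈ Jac g
          rw [if_pos rfl, sub_self]
          exact Ideal.zero_mem _
        · intro b _ hb
          show (monomial b (if b = e then 1 else 0) : MvPolynomial (Fin n) R) = 0
          rw [if_neg hb, map_zero]
        · intro h
          exact absurd ((hs e).mpr hlt) h
      · obtain ⟨B, hB, hBs⟩ := hhom e (by omega)
        have hBr : ∃ c : (Fin n →₀ ℕ) → R,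
            (∑ j, B j * pderiv j (g - p)) - ∑ e ∈ s, monomial e (c e) ∈ Jac g := by
          apply hlin
          intro m hm
          have hm' := mem_support_iff.mp hm
          rw [coeff_sum] at hm'
          obtain ⟨j, _, hj⟩ := Finset.exists_ne_zero_of_sum_ne_zero hm'
          rw [coeff_mul] at hj
          obtain ⟨ab, hab, hne⟩ := Finset.exists_ne_zero_of_sum_ne_zero hj
          rw [Finset.HasAntidiagonal.mem_antidiagonal] at hab
          have ha : ab.1 ∈ (B j).support := by
            rw [mem_support_iff]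
            intro h0
            rw [h0, zero_mul] at hne
            exact hne rfl
          have hb : coeff ab.2 (pderiv j (g - p)) ≠ 0 := by
            intro h0
            rw [h0, mul_zero] at hne
            exact hne rfl
          rw [coeff_pderiv] at hb
          have hb' : ab.2 + Finsupp.single j 1 ∈ (g - p).support := by
            rw [mem_support_iff]
            intro h0
            rw [h0, zero_mul] at hb
            exact hb rfl
          have h3 := hrsupp _ hb'
          rw [Morse_wt_add, Morse_wt_single] at h3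
          have h1 := hBs j ab.1 ha
          have h2 : wt w m = wt w ab.1 + wt w ab.2 := by
            rw [← Morse_wt_add, hab]
          exact ih (wt w m) (by omega) m rfl
        obtain ⟨c, hc⟩ := hBr
        refine ⟨fun e' => - c e', ?_⟩
        have h1 : (monomial e 1 : MvPolynomial (Fin n) R) - ∑ e' ∈ s, monomial e' (- c e') =
            (∑ j, B j * pderiv j g) - ((∑ j, B j * pderiv j (g - p)) - ∑ e' ∈ s, monomial e' (c e')) := by
          rw [hB]
          have h2 : ∑ e' ∈ s, (monomial e' (- c e') : MvPolynomial (Fin n) R) = - ∑ e' ∈ s, monomial e' (c e') := by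
            rw [← Finset.sum_neg_distrib]
            exact Finset.sum_congr rfl fun e' _ => by rw [map_neg]
          have h3 : ∑ j, B j * pderiv j (g - p) = (∑ j, B j * pderiv j g) - ∑ j, B j * pderiv j p := by
            rw [← Finset.sum_sub_distrib]
            exact Finset.sum_congr rfl fun j _ => by rw [map_sub, mul_sub]
          rw [h2, h3]
          ring
        rw [h1]
        refine Ideal.sub_mem _ (Ideal.sum_mem _ fun j _ => Ideal.mul_mem_left _ _ ?_) hc
        exact Ideal.subset_span ⟨j, rfl⟩
  intro P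
  exact hlin P fun a _ => main (wt w a) a rfl

/-- An element is algebraic modulo the Jacobian ideal. -/
private theorem Morse_alg {κ : Type*} [Field κ] {n : ℕ} (w : Fin n → ℕ) (hw : ∀ i, 0 < w i) (d : ℕ)
    (g : MvPolynomial (Fin n) κ) (hg : DegLe w d g)
    (hT : ∀ i, (X i : MvPolynomial (Fin n) κ) ∈ (Jac (part w d g)).radical)
    (P : MvPolynomial (Fin n) κ) : ∃ q : Polynomial κ, q ≠ 0 ∧ Polynomial.aeval P q ∈ Jac g := by
  classical
  choose N hN using fun i => Ideal.mem_radical_iff.1 (hT i)
  obtain ⟨s, hs⟩ := Morse_span w hw d g hg (∑ i, N i) (fun i =>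
    Ideal.pow_mem_of_pow_mem _ (hN i) (Finset.single_le_sum (fun _ _ => Nat.zero_le _) (Finset.mem_univ i)))
  have hfin : Module.Finite κ (MvPolynomial (Fin n) κ ⧸ Jac g) := by
    refine ⟨⟨s.image fun e => Ideal.Quotient.mk (Jac g) (monomial e 1), ?_⟩⟩
    rw [eq_top_iff]
    rintro x -
    obtain ⟨Q, rfl⟩ := Ideal.Quotient.mk_surjective x
    obtain ⟨c, hc⟩ := hs Q
    rw [(Ideal.Quotient.mk_eq_mk_iff_sub_mem _ _).2 hc, map_sum]
    refine Submodule.sum_mem _ fun e he => ?_
    have h1 : (monomial e (c e) : MvPolynomial (Fin n) κ) = c e • monomial e 1 := by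
      rw [smul_monomial, smul_eq_mul, mul_one]
    rw [h1]
    have h2 : Ideal.Quotient.mk (Jac g) (c e • (monomial e 1 : MvPolynomial (Fin n) κ)) =
        c e • Ideal.Quotient.mk (Jac g) (monomial e 1) := rfl
    rw [h2]
    exact Submodule.smul_mem _ _ (Submodule.subset_span (Finset.mem_coe.2 (Finset.mem_image_of_mem _ he)))
  have hint : IsIntegral κ (Ideal.Quotient.mk (Jac g) P) := Algebra.IsIntegral.isIntegral _
  obtain ⟨q, hq, h0⟩ := hint
  refine ⟨q, hq.ne_zero, ?_⟩
  rw [← Ideal.Quotient.eq_zero_iff_mem]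
  have h1 : Ideal.Quotient.mk (Jac g) (Polynomial.aeval P q) =
      Polynomial.aeval (Ideal.Quotient.mk (Jac g) P) q :=
    (Polynomial.aeval_algHom_apply (Ideal.Quotient.mkₐ κ (Jac g)) P q).symm
  rw [h1, Polynomial.aeval_def]
  exact h0

/-- Taylor expansion of order one at a point. -/
private theorem Morse_taylor {K : Type*} [Field K] {n : ℕ} (x : Fin n → K) (m : Ideal (MvPolynomial (Fin n) K))
    (hm : ∀ i, (X i : MvPolynomial (Fin n) K) - C (x i) ∈ m) (P : MvPolynomial (Fin n) K) :
    P - C (eval x P) - ∑ i, C (eval x (pderiv i P)) * (X i - C (x i)) ∈ m * m := by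
  induction P using MvPolynomial.induction_on with
  | C a =>
    have h1 : (C a : MvPolynomial (Fin n) K) - C (eval x (C a)) -
        ∑ i, C (eval x (pderiv i (C a))) * (X i - C (x i)) = 0 := by
      rw [eval_C, sub_self, zero_sub, neg_eq_zero]
      exact Finset.sum_eq_zero fun i _ => by rw [pderiv_C, map_zero, map_zero, zero_mul]
    rw [h1]
    exact Ideal.zero_mem _
  | add P Q hP hQ =>
    have h1 : P + Q - C (eval x (P + Q)) - ∑ i, C (eval x (pderiv i (P + Q))) * (X i - C (x i)) =
        (P - C (eval x P) - ∑ i, C (eval x (pderiv i P)) * (X i - C (x i))) +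
          (Q - C (eval x Q) - ∑ i, C (eval x (pderiv i Q)) * (X i - C (x i))) := by
      have h2 : ∑ i, C (eval x (pderiv i (P + Q))) * (X i - C (x i)) =
          ∑ i, C (eval x (pderiv i P)) * (X i - C (x i)) + ∑ i, C (eval x (pderiv i Q)) * (X i - C (x i)) := by
        rw [← Finset.sum_add_distrib]
        exact Finset.sum_congr rfl fun i _ => by rw [map_add, map_add, map_add, add_mul]
      rw [h2, map_add, map_add]
      ring
    rw [h1]
    exact Ideal.add_mem _ hP hQ
  | mul_X P j hP =>
    have h2 : ∑ i, C (eval x (pderiv i (P * X j))) * (X i - C (x i)) =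
        (∑ i, C (eval x (pderiv i P)) * (X i - C (x i))) * C (x j) + C (eval x P) * (X j - C (x j)) := by
      have h3 : ∀ i, (C (eval x (pderiv i (P * X j))) : MvPolynomial (Fin n) K) * (X i - C (x i)) =
          C (eval x (pderiv i P)) * (X i - C (x i)) * C (x j) +
            (if i = j then C (eval x P) * (X j - C (x j)) else 0) := by
        intro i
        by_cases hij : i = j
        · subst hij
          rw [if_pos rfl, Derivation.leibniz, pderiv_X_self, smul_eq_mul, smul_eq_mul, mul_one, map_add, map_mul,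
            eval_X, map_add, map_mul]
          ring
        · rw [if_neg hij, Derivation.leibniz, pderiv_X_of_ne (Ne.symm hij), smul_eq_mul, smul_eq_mul, mul_zero, zero_add,
            map_mul, eval_X, map_mul]
          ring
      rw [Finset.sum_congr rfl fun i _ => h3 i, Finset.sum_add_distrib, ← Finset.sum_mul, Finset.sum_ite_eq',
        if_pos (Finset.mem_univ j)]
    have h1 : P * X j - C (eval x (P * X j)) - ∑ i, C (eval x (pderiv i (P * X j))) * (X i - C (x i)) =
        (P - C (eval x P) - ∑ i, C (eval x (pderiv i P)) * (X i - C (x i))) * X j +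
          (∑ i, C (eval x (pderiv i P)) * (X i - C (x i))) * (X j - C (x j)) := by
      rw [h2, map_mul, eval_X, map_mul]
      ring
    rw [h1]
    refine Ideal.add_mem _ (Ideal.mul_mem_right _ _ hP) (Ideal.mul_mem_mul ?_ (hm j))
    exact Ideal.sum_mem _ fun i _ => Ideal.mul_mem_left _ _ (hm i)

/-- If all critical points are nondegenerate, the Jacobian ideal contains all polynomials which
vanish at the critical points. -/
private theorem Morse_rad {K : Type*} [Field K] [IsAlgClosed K] {n : ℕ} (f : MvPolynomial (Fin n) K)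
    (hH : ∀ x : Fin n → K, (∀ i, eval x (pderiv i f) = 0) →
      (Matrix.of fun i j => eval x (pderiv i (pderiv j f))).det ≠ 0) (P : MvPolynomial (Fin n) K)
    (hP : ∀ x : Fin n → K, (∀ i, eval x (pderiv i f) = 0) → eval x P = 0) : P ∈ Jac f := by
  classical
  by_contra hPJ
  let I : Ideal (MvPolynomial (Fin n) K) := (Jac f).colon {P}
  have hI : ∀ Q, Q ∈ I ↔ Q * P ∈ Jac f := by
    intro Q
    rw [Submodule.mem_colon_singleton, smul_eq_mul]
  have hI1 : I ≠ ⊤ := by
    rw [Ne, Ideal.eq_top_iff_one, hI, one_mul]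
    exact hPJ
  obtain ⟨m, hm, hIm⟩ := Ideal.exists_le_maximal I hI1
  obtain ⟨x, hx⟩ := isMaximal_iff_eq_vanishingIdeal_singleton.1 hm
  have hmem : ∀ Q, Q ∈ m ↔ eval x Q = 0 := by
    intro Q
    rw [hx, mem_vanishingIdeal_singleton_iff, ← coe_aeval_eq_eval]
    rfl
  have hJm : Jac f ≤ m := fun Q hQ => hIm ((hI Q).2 (Ideal.mul_mem_right _ _ hQ))
  have hcrit : ∀ i, eval x (pderiv i f) = 0 := fun i => (hmem _).1 (hJm (Ideal.subset_span ⟨i, rfl⟩))
  have hXm : ∀ i, (X i : MvPolynomial (Fin n) K) - C (x i) ∈ m := by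
    intro i
    rw [hmem, map_sub, eval_X, eval_C, sub_self]
  have hdet := hH x hcrit
  set H : Matrix (Fin n) (Fin n) K := Matrix.of fun i j => eval x (pderiv i (pderiv j f)) with hHdef
  have hHinv : H * H⁻¹ = 1 := Matrix.mul_nonsing_inv _ (isUnit_iff_ne_zero.2 hdet)
  -- the linear parts
  have hlin : ∀ j, ∑ i, C (H i j) * ((X i : MvPolynomial (Fin n) K) - C (x i)) ∈ Jac f ⊔ m * m := by
    intro j
    have h1 := Morse_taylor x m hXm (pderiv j f)
    rw [hcrit j, map_zero, sub_zero] at h1
    have h2 : ∑ i, C (H i j) * ((X i : MvPolynomial (Fin n) K) - C (x i)) = pderiv j f -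
        (pderiv j f - ∑ i, C (eval x (pderiv i (pderiv j f))) * (X i - C (x i))) := by
      rw [sub_sub_cancel]
      rfl
    rw [h2]
    exact Ideal.sub_mem _ (Ideal.mem_sup_left (Ideal.subset_span ⟨j, rfl⟩)) (Ideal.mem_sup_right h1)
  have hXJ : ∀ k, (X k : MvPolynomial (Fin n) K) - C (x k) ∈ Jac f ⊔ m * m := by
    intro k
    have h1 : (X k : MvPolynomial (Fin n) K) - C (x k) =
        ∑ j, C (H⁻¹ j k) * ∑ i, C (H i j) * ((X i : MvPolynomial (Fin n) K) - C (x i)) := by
      have h2 : ∀ i, ∑ j, H i j * H⁻¹ j k = if i = k then 1 else 0 := by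
        intro i
        have h3 := congrFun (congrFun hHinv i) k
        rw [Matrix.mul_apply, Matrix.one_apply] at h3
        exact h3
      have h4 : ∑ j, C (H⁻¹ j k) * ∑ i, C (H i j) * ((X i : MvPolynomial (Fin n) K) - C (x i)) =
          ∑ i, C (∑ j, H i j * H⁻¹ j k) * ((X i : MvPolynomial (Fin n) K) - C (x i)) := by
        rw [Finset.sum_congr rfl fun j _ => Finset.mul_sum _ _ _, Finset.sum_comm]
        refine Finset.sum_congr rfl fun i _ => ?_
        rw [map_sum, Finset.sum_mul]
        refine Finset.sum_congr rfl fun j _ => ?_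
        rw [map_mul]
        ring
      rw [h4, Finset.sum_eq_single k]
      · rw [h2, if_pos rfl, map_one, one_mul]
      · intro i _ hik
        rw [h2, if_neg hik, map_zero, zero_mul]
      · intro h
        exact absurd (Finset.mem_univ k) h
    rw [h1]
    exact Ideal.sum_mem _ fun j _ => Ideal.mul_mem_left _ _ (hlin j)
  have hsup : m ≤ Jac f ⊔ m • m := by
    intro Q hQ
    have h1 := Morse_taylor x m hXm Q
    rw [(hmem Q).1 hQ, map_zero, sub_zero] at h1
    have h2 : Q = (Q - ∑ i, C (eval x (pderiv i Q)) * (X i - C (x i))) +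
        ∑ i, C (eval x (pderiv i Q)) * (X i - C (x i)) := by ring
    rw [h2, smul_eq_mul]
    exact Ideal.add_mem _ (Ideal.mem_sup_right h1) (Ideal.sum_mem _ fun i _ => Ideal.mul_mem_left _ _ (hXJ i))
  obtain ⟨r, hr1, hr2⟩ := Submodule.exists_sub_one_mem_and_smul_le_of_fg_of_le_sup (I := m) (N := Jac f)
    (N' := m) (P := m) (IsNoetherian.noetherian m) le_rfl hsup
  have h3 : r ∈ m := by
    apply hIm
    rw [hI]
    exact hr2 (Submodule.smul_mem_pointwise_smul P r m ((hmem P).2 (hP x hcrit)))
  have h4 : (1 : MvPolynomial (Fin n) K) ∈ m := by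
    have h5 := Ideal.sub_mem _ h3 hr1
    rwa [sub_sub_cancel] at h5
  exact hm.ne_top ((Ideal.eq_top_iff_one _).2 h4)

/-- A linear projection of the coefficients. -/
private noncomputable def Morse_pi {k K : Type*} [Field k] [Field K] [Algebra k K] {n : ℕ} (π : K →ₗ[k] k)
    (P : MvPolynomial (Fin n) K) : MvPolynomial (Fin n) k :=
  ∑ e ∈ P.support, monomial e (π (coeff e P))

private theorem Morse_pi_coeff {k K : Type*} [Field k] [Field K] [Algebra k K] {n : ℕ} (π : K →ₗ[k] k)
    (P : MvPolynomial (Fin n) K) (e : Fin n →₀ ℕ) : coeff e (Morse_pi π P) = π (coeff e P) := by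
  classical
  unfold Morse_pi
  rw [coeff_sum]
  by_cases h : e ∈ P.support
  · rw [Finset.sum_eq_single e]
    · rw [coeff_monomial, if_pos rfl]
    · intro b _ hb
      rw [coeff_monomial, if_neg hb]
    · intro h1
      exact absurd h h1
  · rw [notMem_support_iff.1 h, map_zero]
    refine Finset.sum_eq_zero fun b hb => ?_
    rw [coeff_monomial, if_neg]
    rintro rfl
    exact h hb

private theorem Morse_pi_add {k K : Type*} [Field k] [Field K] [Algebra k K] {n : ℕ} (π : K →ₗ[k] k)
    (P Q : MvPolynomial (Fin n) K) : Morse_pi π (P + Q) = Morse_pi π P + Morse_pi π Q := by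
  ext e
  rw [coeff_add, Morse_pi_coeff, Morse_pi_coeff, Morse_pi_coeff, coeff_add, map_add]

private theorem Morse_pi_sum {k K : Type*} [Field k] [Field K] [Algebra k K] {n : ℕ} (π : K →ₗ[k] k)
    {ι : Type*} (s : Finset ι) (P : ι → MvPolynomial (Fin n) K) :
    Morse_pi π (∑ i ∈ s, P i) = ∑ i ∈ s, Morse_pi π (P i) := by
  ext e
  rw [Morse_pi_coeff, coeff_sum, coeff_sum, map_sum]
  exact Finset.sum_congr rfl fun i _ => (Morse_pi_coeff π (P i) e).symm

private theorem Morse_pi_mul {k K : Type*} [Field k] [Field K] [Algebra k K] {n : ℕ} (π : K →ₗ[k] k)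
    (P : MvPolynomial (Fin n) K) (Q : MvPolynomial (Fin n) k) :
    Morse_pi π (P * Q.map (algebraMap k K)) = Morse_pi π P * Q := by
  classical
  ext e
  rw [Morse_pi_coeff, coeff_mul, coeff_mul, map_sum]
  refine Finset.sum_congr rfl fun ab _ => ?_
  rw [Morse_pi_coeff, coeff_map, mul_comm, ← Algebra.smul_def, map_smul, smul_eq_mul, mul_comm]

private theorem Morse_pi_C {k K : Type*} [Field k] [Field K] [Algebra k K] {n : ℕ} (π : K →ₗ[k] k)
    (c : K) : Morse_pi π (C c : MvPolynomial (Fin n) K) = C (π c) := by
  classical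
  ext e
  rw [Morse_pi_coeff, coeff_C, coeff_C]
  split_ifs
  · rfl
  · exact map_zero π

private theorem Morse_pi_jac {k K : Type*} [Field k] [Field K] [Algebra k K] {n : ℕ} (π : K →ₗ[k] k)
    (φ : MvPolynomial (Fin n) k) (P : MvPolynomial (Fin n) K) (hP : P ∈ Jac (φ.map (algebraMap k K))) :
    Morse_pi π P ∈ Jac φ := by
  rw [Jac, Ideal.mem_span_range_iff_exists_fun] at hP
  obtain ⟨B, rfl⟩ := hP
  rw [Morse_pi_sum]
  refine Ideal.sum_mem _ fun j _ => ?_
  rw [pderiv_map, Morse_pi_mul]
  exact Ideal.mul_mem_left _ _ (Ideal.subset_span ⟨j, rfl⟩)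

/-- A projection `K → k` with `π 1 = 1`. -/
private theorem Morse_exists_pi (k K : Type*) [Field k] [Field K] [Algebra k K] :
    ∃ π : K →ₗ[k] k, π 1 = 1 := by
  obtain ⟨π, hπ⟩ := Module.Projective.exists_dual_eq_one k (one_ne_zero (α := K))
  exact ⟨π, hπ⟩

theorem morse_data {k₀ : Type*} [Field k₀] [CharZero k₀] {n : ℕ} (w : Fin n → ℕ)
    (hw : ∀ i, 0 < w i) (d : ℕ) (hd : 0 < d) (φ : MvPolynomial (Fin n) k₀) (hφ : DegLe w d φ)
    (hT : ∀ i, (X i : MvPolynomial (Fin n) k₀) ∈ (Jac (part w d φ)).radical) (hM : IsMorse φ) :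
    (∀ j, ∃ ξ : Polynomial k₀, X j - Polynomial.aeval φ ξ ∈ Jac φ) ∧
      ∃ δ : Polynomial k₀, Polynomial.aeval φ δ ∈ Jac φ ∧ δ.Separable := by
  classical
  set K := AlgebraicClosure k₀ with hK
  set f : MvPolynomial (Fin n) K := φ.map (algebraMap k₀ K) with hf
  have hev : ∀ (x : Fin n → K) (Q : MvPolynomial (Fin n) k₀), eval x (Q.map (algebraMap k₀ K)) = aeval x Q := by
    intro x Q
    rw [eval_map, aeval_def]
  have hcr : ∀ x : Fin n → K, (∀ i, eval x (pderiv i f) = 0) ↔ ∀ i, aeval x (pderiv i φ) = 0 := by
    intro x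
    refine forall_congr' fun i => ?_
    rw [hf, pderiv_map, hev]
  have hH : ∀ x : Fin n → K, (∀ i, eval x (pderiv i f) = 0) →
      (Matrix.of fun i j => eval x (pderiv i (pderiv j f))).det ≠ 0 := by
    intro x hx
    have h1 : (Matrix.of fun i j => eval x (pderiv i (pderiv j f))) =
        Matrix.of fun i j => aeval x (pderiv i (pderiv j φ)) := by
      ext i j
      rw [Matrix.of_apply, Matrix.of_apply, hf, pderiv_map, pderiv_map, hev]
    rw [h1]
    exact hM.1 x ((hcr x).1 hx)
  obtain ⟨π, hπ⟩ := Morse_exists_pi k₀ K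
  -- membership descends
  have hdesc : ∀ P : MvPolynomial (Fin n) k₀, (∀ x : Fin n → K, (∀ i, aeval x (pderiv i φ) = 0) → aeval x P = 0) →
      P ∈ Jac φ := by
    intro P hP
    have h1 : P.map (algebraMap k₀ K) ∈ Jac f := Morse_rad f hH _ fun x hx => by
      rw [hev]
      exact hP x ((hcr x).1 hx)
    have h2 := Morse_pi_jac π φ _ h1
    have h3 : Morse_pi π (P.map (algebraMap k₀ K)) = P := by
      have h4 := Morse_pi_mul π (C 1 : MvPolynomial (Fin n) K) P
      rw [Morse_pi_C, hπ, C_1, C_1, one_mul, one_mul] at h4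
      exact h4
    rwa [h3] at h2
  -- the critical points are finite in number
  have hfin : {x : Fin n → K | ∀ i, aeval x (pderiv i φ) = 0}.Finite := by
    choose q hq0 hq using fun j => Morse_alg w hw d φ hφ hT (X j)
    refine Set.Finite.subset (Set.Finite.pi' (ι := Fin n) (κ := fun _ => K)
      (t := fun j => {y | y ∈ ((q j).map (algebraMap k₀ K)).roots}) fun j => ?_) ?_
    · exact Multiset.finite_toSet _
    · intro x hx j
      have hx' : ∀ i, aeval x (pderiv i φ) = 0 := hx
      have h1 : ∀ Q ∈ Jac φ, aeval x Q = 0 := by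
        intro Q hQ
        rw [Jac, Ideal.mem_span_range_iff_exists_fun] at hQ
        obtain ⟨B, rfl⟩ := hQ
        rw [map_sum]
        exact Finset.sum_eq_zero fun i _ => by rw [map_mul, hx' i, mul_zero]
      have h2 := h1 _ (hq j)
      have h3 : aeval x (Polynomial.aeval (X j : MvPolynomial (Fin n) k₀) (q j)) = Polynomial.aeval (x j) (q j) := by
        rw [← Polynomial.aeval_algHom_apply, aeval_X]
      rw [h3] at h2
      show x j ∈ ((q j).map (algebraMap k₀ K)).roots
      rw [Polynomial.mem_roots_map (hq0 j)]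
      rw [← Polynomial.aeval_def]
      exact h2
  set V := hfin.toFinset with hV
  have hVm : ∀ x, x ∈ V ↔ ∀ i, aeval x (pderiv i φ) = 0 := by
    intro x
    rw [hV, Set.Finite.mem_toFinset]
    rfl
  have hinj : Set.InjOn (fun x : Fin n → K => aeval x φ) V := by
    intro x hx y hy hxy
    exact hM.2 x y ((hVm x).1 hx) ((hVm y).1 hy) hxy
  refine ⟨fun j => ?_, ?_⟩
  · -- interpolation
    set ξ' : Polynomial K := Lagrange.interpolate V (fun x : Fin n → K => aeval x φ) (fun x => x j) with hξ'
    have h1 : X j - Polynomial.aeval f ξ' ∈ Jac f := by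
      refine Morse_rad f hH _ fun x hx => ?_
      have hxV : x ∈ V := (hVm x).2 ((hcr x).1 hx)
      have h2 := Lagrange.eval_interpolate_at_node (fun x : Fin n → K => x j) hinj hxV
      have h3 : eval x (Polynomial.aeval f ξ') = Polynomial.eval (aeval x φ) ξ' := by
        have h4 : eval x (Polynomial.aeval f ξ') = aeval x (Polynomial.aeval f ξ') := by
          rw [← coe_aeval_eq_eval]
          rfl
        rw [h4, ← Polynomial.aeval_algHom_apply]
        have h5 : aeval x f = aeval x φ := by
          have h6 : (aeval x f : K) = eval x f := by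
            rw [← coe_aeval_eq_eval]
            rfl
          rw [h6, hf, hev]
        rw [h5, Polynomial.coe_aeval_eq_eval]
      rw [map_sub, eval_X, h3, h2, sub_self]
    have h2 := Morse_pi_jac π φ _ h1
    refine ⟨∑ m ∈ ξ'.support, Polynomial.monomial m (π (ξ'.coeff m)), ?_⟩
    have h3 : Morse_pi π (X j - Polynomial.aeval f ξ') =
        X j - Polynomial.aeval φ (∑ m ∈ ξ'.support, Polynomial.monomial m (π (ξ'.coeff m))) := by
      have h4 : Morse_pi π (X j : MvPolynomial (Fin n) K) = X j := by
        have h5 := Morse_pi_mul π (C 1 : MvPolynomial (Fin n) K) (X j : MvPolynomial (Fin n) k₀)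
        rw [Morse_pi_C, hπ, C_1, C_1, one_mul, one_mul, map_X] at h5
        exact h5
      have h5 : Morse_pi π (Polynomial.aeval f ξ') =
          Polynomial.aeval φ (∑ m ∈ ξ'.support, Polynomial.monomial m (π (ξ'.coeff m))) := by
        conv_lhs => rw [ξ'.as_sum_support]
        rw [map_sum, map_sum, Morse_pi_sum]
        refine Finset.sum_congr rfl fun m _ => ?_
        rw [Polynomial.aeval_monomial, Polynomial.aeval_monomial, hf, ← map_pow]
        have h6 := Morse_pi_mul π (C (ξ'.coeff m) : MvPolynomial (Fin n) K) (φ ^ m)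
        rw [Morse_pi_C] at h6
        exact h6
      have h7 : Morse_pi π (X j - Polynomial.aeval f ξ') + Morse_pi π (Polynomial.aeval f ξ') =
          Morse_pi π (X j : MvPolynomial (Fin n) K) := by
        rw [← Morse_pi_add, sub_add_cancel]
      rw [← h4, ← h5, ← h7, add_sub_cancel_right]
    rwa [h3] at h2
  · obtain ⟨q, hq0, hq⟩ := Morse_alg w hw d φ hφ hT φ
    obtain ⟨N, hN⟩ := UniqueFactorizationMonoid.exists_dvd_radical_self_pow hq0
    refine ⟨UniqueFactorizationMonoid.radical q, ?_, ?_⟩
    · refine hdesc _ fun x hx => ?_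
      have h1 : ∀ Q ∈ Jac φ, aeval x Q = 0 := by
        intro Q hQ
        rw [Jac, Ideal.mem_span_range_iff_exists_fun] at hQ
        obtain ⟨B, rfl⟩ := hQ
        rw [map_sum]
        exact Finset.sum_eq_zero fun i _ => by rw [map_mul, hx i, mul_zero]
      have h2 := h1 _ hq
      rw [← Polynomial.aeval_algHom_apply] at h2 ⊢
      obtain ⟨c, hc⟩ := hN
      have h3 : Polynomial.aeval (aeval x φ : K) (UniqueFactorizationMonoid.radical q ^ N) = 0 := by
        rw [hc, map_mul, h2, zero_mul]
      rw [map_pow] at h3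
      exact eq_zero_of_pow_eq_zero h3
    · rw [PerfectField.separable_iff_squarefree]
      exact UniqueFactorizationMonoid.squarefree_radical

end MPadcHM
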