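import Pool.Agent.Lib.MP_adc574_ag_HM.PCoreA

/-!
# Descent of the data of a pencil to a finitely generated ring
-/

set_option autoImplicit false

namespace MPadcHM

open MvPolynomial MPadcGM

universe u

/-- If powers of all variables are in an ideal then so are all monomials of large degree. -/
theorem monomial_mem_of_pow {R : Type*} [CommRing R] {n : ℕ} (w : Fin n → ℕ)
    (I : Ideal (MvPolynomial (Fin n) R)) (m : Fin n → ℕ)
    (h : ∀ i, (X i : MvPolynomial (Fin n) R) ^ m i ∈ I) :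
    ∃ M, ∀ e : Fin n →₀ ℕ, M ≤ wt w e → monomial e (1 : R) ∈ I := by
  refine ⟨(∑ i, w i) * (∑ i, m i) + 1, fun e he => ?_⟩
  have hex : ∃ i, m i ≤ e i := by
    by_contra hc
    push Not at hc
    have h1 : wt w e ≤ ∑ i, w i * ∑ j, m j := by
      refine Finset.sum_le_sum fun i _ => Nat.mul_le_mul_left _ ?_
      exact (hc i).le.trans (Finset.single_le_sum (fun j _ => Nat.zero_le _) (Finset.mem_univ i))
    rw [← Finset.sum_mul] at h1
    omega
  obtain ⟨i, hi⟩ := hex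
  have h5 : (monomial e (1 : R)) =
      monomial (e - Finsupp.single i (m i)) 1 * (X i) ^ (m i) := by
    rw [X_pow_eq_monomial, monomial_mul, one_mul]
    congr 1
    rw [tsub_add_cancel_of_le]
    rw [Finsupp.single_le_iff]
    exact hi
  rw [h5]
  exact Ideal.mul_mem_left _ _ (h i)

section

variable {K : Type u} [Field K] (R : Subalgebra ℤ K)

theorem lift_mv {σ : Type*} (P : MvPolynomial σ K) (h : (P.coeffs : Set K) ⊆ R) :
    ∃ Q : MvPolynomial σ R, Q.map (algebraMap R K) = P := by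
  have h1 := (mem_range_map_iff_coeffs_subset (f := algebraMap R K) (x := P)).2 (by
    intro x hx
    exact ⟨⟨x, h hx⟩, rfl⟩)
  exact h1

theorem lift_poly (P : Polynomial K) (h : (P.coeffs : Set K) ⊆ R) :
    ∃ Q : Polynomial R, Q.map (algebraMap R K) = P := by
  have h1 := (Polynomial.lifts_iff_coeffs_subset_range (f := algebraMap R K) P).2 (by
    intro x hx
    exact ⟨⟨x, h hx⟩, rfl⟩)
  rw [Polynomial.mem_lifts] at h1
  exact h1

theorem mem_Jac_of_lift {n : ℕ} (Ψ P : MvPolynomial (Fin n) R)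
    (Q : Fin n → MvPolynomial (Fin n) R)
    (h : ∑ j, (Q j).map (algebraMap R K) * pderiv j (Ψ.map (algebraMap R K)) =
      P.map (algebraMap R K)) : P ∈ Jac Ψ := by
  have hinj : Function.Injective (MvPolynomial.map (σ := Fin n) (algebraMap R K)) :=
    MvPolynomial.map_injective _ (FaithfulSMul.algebraMap_injective R K)
  have h1 : P = ∑ j, Q j * pderiv j Ψ := by
    apply hinj
    rw [← h, map_sum]
    refine Finset.sum_congr rfl fun j _ => ?_
    rw [map_mul, pderiv_map]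
  rw [h1]
  exact Ideal.sum_mem _ fun j _ => Ideal.mul_mem_left _ _ (Ideal.subset_span ⟨j, rfl⟩)

end

theorem descend {K : Type u} [Field K] {n : ℕ} (w : Fin n → ℕ) (d : ℕ)
    (Φ : MvPolynomial (Fin (n + 1)) K)
    (hΦ : Φ.IsWeightedHomogeneous (Fin.cons 1 w : Fin (n + 1) → ℕ) d)
    (hT : ∀ i, (X i : MvPolynomial (Fin n) K) ∈ (Jac (bdr Φ)).radical)
    (ξ : Fin n → Polynomial K) (hξ : ∀ j, X j - Polynomial.aeval (aff Φ) (ξ j) ∈ Jac (aff Φ))
    (δ : Polynomial K) (hδ : Polynomial.aeval (aff Φ) δ ∈ Jac (aff Φ)) :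
    ∃ (R : Subalgebra ℤ K) (ΦR : MvPolynomial (Fin (n + 1)) R) (M : ℕ)
      (ξR : Fin n → Polynomial R) (δR : Polynomial R), R.FG ∧
      ΦR.map (algebraMap R K) = Φ ∧ δR.map (algebraMap R K) = δ ∧
      ΦR.IsWeightedHomogeneous (Fin.cons 1 w : Fin (n + 1) → ℕ) d ∧
      (∀ e : Fin n →₀ ℕ, M ≤ wt w e → monomial e (1 : R) ∈ Jac (bdr ΦR)) ∧
      (∀ j, X j - Polynomial.aeval (aff ΦR) (ξR j) ∈ Jac (aff ΦR)) ∧
      Polynomial.aeval (aff ΦR) δR ∈ Jac (aff ΦR) := by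
  classical
  choose m hm using hT
  simp only [Jac, Ideal.mem_span_range_iff_exists_fun] at hm hξ hδ
  choose Q1 hQ1 using hm
  choose Q2 hQ2 using hξ
  obtain ⟨Q3, hQ3⟩ := hδ
  let s : Set K := (Φ.coeffs : Set K) ∪ (δ.coeffs : Set K) ∪ (⋃ j, ((ξ j).coeffs : Set K)) ∪
    (⋃ i, ⋃ j, ((Q1 i j).coeffs : Set K)) ∪ (⋃ i, ⋃ j, ((Q2 i j).coeffs : Set K)) ∪
    (⋃ j, ((Q3 j).coeffs : Set K))
  have hs : s.Finite := by
    refine Set.Finite.union (Set.Finite.union (Set.Finite.union (Set.Finite.union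
      (Set.Finite.union ?_ ?_) ?_) ?_) ?_) ?_
    · exact Finset.finite_toSet _
    · exact Finset.finite_toSet _
    · exact Set.finite_iUnion fun j => Finset.finite_toSet _
    · exact Set.finite_iUnion fun i => Set.finite_iUnion fun j => Finset.finite_toSet _
    · exact Set.finite_iUnion fun i => Set.finite_iUnion fun j => Finset.finite_toSet _
    · exact Set.finite_iUnion fun j => Finset.finite_toSet _
  let R : Subalgebra ℤ K := Algebra.adjoin ℤ s
  have hsR : s ⊆ R := Algebra.subset_adjoin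
  have hR : R.FG := by
    refine ⟨hs.toFinset, ?_⟩
    rw [Set.Finite.coe_toFinset]
  obtain ⟨ΦR, hΦR⟩ := lift_mv R Φ fun x hx => hsR (by
    exact Or.inl (Or.inl (Or.inl (Or.inl (Or.inl hx)))))
  obtain ⟨δR, hδR⟩ := lift_poly R δ fun x hx => hsR (by
    exact Or.inl (Or.inl (Or.inl (Or.inl (Or.inr hx)))))
  choose ξR hξR using fun j => lift_poly R (ξ j) fun x hx => hsR (by
    exact Or.inl (Or.inl (Or.inl (Or.inr (Set.mem_iUnion.2 ⟨j, hx⟩)))))
  choose Q1R hQ1R using fun i j => lift_mv R (Q1 i j) fun x hx => hsR (by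
    exact Or.inl (Or.inl (Or.inr (Set.mem_iUnion.2 ⟨i, Set.mem_iUnion.2 ⟨j, hx⟩⟩))))
  choose Q2R hQ2R using fun i j => lift_mv R (Q2 i j) fun x hx => hsR (by
    exact Or.inl (Or.inr (Set.mem_iUnion.2 ⟨i, Set.mem_iUnion.2 ⟨j, hx⟩⟩)))
  choose Q3R hQ3R using fun j => lift_mv R (Q3 j) fun x hx => hsR (by
    exact Or.inr (Set.mem_iUnion.2 ⟨j, hx⟩))
  have hinjR := FaithfulSMul.algebraMap_injective R K
  have hjac1 : ∀ i, (X i : MvPolynomial (Fin n) R) ^ m i ∈ Jac (bdr ΦR) := by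
    intro i
    refine mem_Jac_of_lift R _ _ (Q1R i) ?_
    rw [← bdr_map, hΦR, map_pow, map_X, ← hQ1 i]
    exact Finset.sum_congr rfl fun j _ => by rw [hQ1R]
  obtain ⟨M, hM⟩ := monomial_mem_of_pow w _ m hjac1
  refine ⟨R, ΦR, M, ξR, δR, hR, hΦR, hδR, ?_, hM, ?_, ?_⟩
  · intro e he
    apply hΦ
    rw [← hΦR, coeff_map]
    intro h0
    exact he (hinjR (h0.trans (map_zero _).symm))
  · intro j
    refine mem_Jac_of_lift R _ _ (Q2R j) ?_
    rw [← aff_map, hΦR, map_sub, map_X, ← aeval_map_map, ← aff_map, hΦR, hξR, ← hQ2 j]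
    exact Finset.sum_congr rfl fun l _ => by rw [hQ2R]
  · refine mem_Jac_of_lift R _ _ Q3R ?_
    rw [← aff_map, hΦR, ← aeval_map_map, ← aff_map, hΦR, hδR, ← hQ3]
    exact Finset.sum_congr rfl fun l _ => by rw [hQ3R]

/-- The same with a separable `δ`. -/
theorem descend_sep {K : Type u} [Field K] {n : ℕ} (w : Fin n → ℕ) (d : ℕ)
    (Φ : MvPolynomial (Fin (n + 1)) K)
    (hΦ : Φ.IsWeightedHomogeneous (Fin.cons 1 w : Fin (n + 1) → ℕ) d)
    (hT : ∀ i, (X i : MvPolynomial (Fin n) K) ∈ (Jac (bdr Φ)).radical)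
    (ξ : Fin n → Polynomial K) (hξ : ∀ j, X j - Polynomial.aeval (aff Φ) (ξ j) ∈ Jac (aff Φ))
    (δ : Polynomial K) (hδ : Polynomial.aeval (aff Φ) δ ∈ Jac (aff Φ)) (hsep : δ.Separable) :
    ∃ (R : Subalgebra ℤ K) (ΦR : MvPolynomial (Fin (n + 1)) R) (M : ℕ)
      (ξR : Fin n → Polynomial R) (δR : Polynomial R), R.FG ∧
      ΦR.map (algebraMap R K) = Φ ∧ δR.Separable ∧
      ΦR.IsWeightedHomogeneous (Fin.cons 1 w : Fin (n + 1) → ℕ) d ∧
      (∀ e : Fin n →₀ ℕ, M ≤ wt w e → monomial e (1 : R) ∈ Jac (bdr ΦR)) ∧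
      (∀ j, X j - Polynomial.aeval (aff ΦR) (ξR j) ∈ Jac (aff ΦR)) ∧
      Polynomial.aeval (aff ΦR) δR ∈ Jac (aff ΦR) := by
  classical
  obtain ⟨R₀, Φ₀, M, ξ₀, δ₀, hR₀, hΦ₀, hδ₀, hhom, hM, hξ₀, hδJ⟩ := descend w d Φ hΦ hT ξ hξ δ hδ
  obtain ⟨a, b, hab⟩ := hsep
  let R : Subalgebra ℤ K := R₀ ⊔ Algebra.adjoin ℤ ((a.coeffs ∪ b.coeffs : Finset K) : Set K)
  have hR : R.FG := hR₀.sup ⟨_, rfl⟩
  have hle : R₀ ≤ R := le_sup_left
  have hs : ((a.coeffs ∪ b.coeffs : Finset K) : Set K) ⊆ R := fun x hx =>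
    (le_sup_right : Algebra.adjoin ℤ ((a.coeffs ∪ b.coeffs : Finset K) : Set K) ≤ R)
      (Algebra.subset_adjoin hx)
  obtain ⟨aR, haR⟩ := lift_poly R a fun x hx => hs (by
    rw [Finset.coe_union]
    exact Or.inl hx)
  obtain ⟨bR, hbR⟩ := lift_poly R b fun x hx => hs (by
    rw [Finset.coe_union]
    exact Or.inr hx)
  let ι : R₀ →+* R := (Subalgebra.inclusion hle).toRingHom
  have hι : (algebraMap R K).comp ι = algebraMap R₀ K := rfl
  have hinj : Function.Injective (algebraMap R K) := FaithfulSMul.algebraMap_injective R K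
  refine ⟨R, Φ₀.map ι, M, fun j => (ξ₀ j).map ι, δ₀.map ι, hR, ?_, ?_, ?_, ?_, ?_, ?_⟩
  · rw [map_map, hι, hΦ₀]
  · refine ⟨aR, bR, ?_⟩
    apply Polynomial.map_injective _ hinj
    rw [Polynomial.map_add, Polynomial.map_mul, Polynomial.map_mul, haR, hbR,
      ← Polynomial.derivative_map, Polynomial.map_map, hι, hδ₀, Polynomial.map_one]
    exact hab
  · exact isWeightedHomogeneous_map _ hhom
  · intro e he
    have h1 := mem_Jac_map ι (hM e he)
    rw [map_monomial, map_one] at h1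
    rwa [bdr_map]
  · intro j
    have h1 := mem_Jac_map ι (hξ₀ j)
    rw [map_sub, map_X, ← aeval_map_map, ← aff_map] at h1
    exact h1
  · have h1 := mem_Jac_map ι hδJ
    rw [← aeval_map_map, ← aff_map] at h1
    exact h1

end MPadcHM
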