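import Pool.Agent.Lib.MP_adc574_ag_HM.Core
import Pool.Agent.Lib.MP_adc574_ag_HM.PDesc
import Pool.Agent.Lib.MP_adc574_ag_HM.Morse
import Pool.Agent.Lib.MP_adc574_ag_GM.Red

/-!
# Pencils of hypersurfaces: ordinary reduction for all large primes

From `core`: take for `R` a finitely generated subring of `k₀` which contains the coefficients of `Φ`, `δ`, `ξ_j` and of the
polynomials which express the memberships in the Jacobian ideals; `R[t] → B = ` subring of `k` generated by `A`, `R`, `t`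
(injective, finite type), Chevalley (`exists_prime_lift`), a closed point above a prime.
-/

set_option autoImplicit false

namespace MPadcHM

open MvPolynomial MPadcGM

universe u

/-- The subring of `k` generated by two finitely generated subrings and an element. -/
theorem exists_big {k : Type u} [Field k] (A R : Subalgebra ℤ k) (hA : A.FG) (hR : R.FG) (t : k) :
    ∃ B : Subalgebra ℤ k, B.FG ∧ A ≤ B ∧ R ≤ B ∧ t ∈ B := by
  refine ⟨A ⊔ R ⊔ Algebra.adjoin ℤ {t}, ?_, le_sup_of_le_left le_sup_left,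
    le_sup_of_le_left le_sup_right, ?_⟩
  · exact (hA.sup hR).sup ⟨{t}, by simp⟩
  · have h1 : Algebra.adjoin ℤ {t} ≤ A ⊔ R ⊔ Algebra.adjoin ℤ {t} := le_sup_right
    exact h1 (Algebra.subset_adjoin rfl)

theorem isQuasiSmooth_of_monomials {κ : Type*} [Field κ] {m : ℕ} (w : Fin m → ℕ)
    (hw : ∀ i, 0 < w i) (M : ℕ) (I : Ideal (MvPolynomial (Fin m) κ))
    (h : ∀ e : Fin m →₀ ℕ, M ≤ ∑ i, w i * e i → monomial e (1 : κ) ∈ I) (i : Fin m) :
    (X i : MvPolynomial (Fin m) κ) ∈ I.radical := by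
  have h1 := h (Finsupp.single i M) (by
    rw [Finset.sum_eq_single i]
    · rw [Finsupp.single_eq_same]
      exact Nat.le_mul_of_pos_left M (hw i)
    · intro j _ hj
      rw [Finsupp.single_eq_of_ne hj, mul_zero]
    · intro h
      exact absurd (Finset.mem_univ i) h)
  refine ⟨M, ?_⟩
  rw [X_pow_eq_monomial]
  exact h1

theorem pencils {k : Type u} [Field k] [CharZero k] (k₀ : Subfield k) (t : k)
    (ht : Transcendental k₀ t) {n : ℕ} (hn : 2 ≤ n) (w : Fin n → ℕ) (hw : ∀ i, 0 < w i) (d : ℕ)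
    (hd : 0 < d) (Φ : MvPolynomial (Fin (n + 1)) k₀)
    (hΦ : Φ.IsWeightedHomogeneous (Fin.cons 1 w : Fin (n + 1) → ℕ) d)
    (hT : ∀ i, (X i : MvPolynomial (Fin n) k₀) ∈ (Jac (bdr Φ)).radical)
    (hG : ∀ j, ∃ ξ : Polynomial k₀, X j - Polynomial.aeval (aff Φ) ξ ∈ Jac (aff Φ))
    (δ : Polynomial k₀) (hδ : Polynomial.aeval (aff Φ) δ ∈ Jac (aff Φ)) (hsep : δ.Separable)
    (A : Subalgebra ℤ k) (hA : A.FG) (F : MvPolynomial (Fin (n + 1)) A)
    (hF : F.map (algebraMap A k) = Φ.map (algebraMap k₀ k) - C t * X 0 ^ d) :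
    OrdinaryReduction (Fin.cons 1 w : Fin (n + 1) → ℕ) d F 1 := by
  classical
  choose ξ hξ using hG
  obtain ⟨R, ΦR, M, ξR, δR, hR, hΦR, hsepR, hΦRh, hjac, hξR, hδRJ⟩ :=
    descend_sep w d Φ hΦ hT ξ hξ δ hδ hsep
  -- the image of `R` in `k`
  let R' : Subalgebra ℤ k := R.map (k₀.subtype.toIntAlgHom)
  have hR' : R'.FG := hR.map _
  obtain ⟨B, hB, hAB, hRB, htB⟩ := exists_big A R' hA hR' t
  let ιR : R →+* B := (k₀.subtype.comp R.val.toRingHom).codRestrict B.toSubring
    fun x => hRB ⟨x, x.2, rfl⟩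
  let ιA : A →+* B := (Subalgebra.inclusion hAB).toRingHom
  let ιB : B →+* k := B.val.toRingHom
  have hιB : Function.Injective ιB := Subtype.val_injective
  let θ : Polynomial R →+* B := Polynomial.eval₂RingHom ιR ⟨t, htB⟩
  have hιR : ιB.comp ιR = (algebraMap k₀ k).comp (algebraMap R k₀) := rfl
  have hθC : θ.comp Polynomial.C = ιR := by
    apply RingHom.ext
    intro r
    exact Polynomial.eval₂_C _ _
  have hθX : ιB (θ Polynomial.X) = t := by
    have h1 : θ Polynomial.X = ⟨t, htB⟩ := Polynomial.eval₂_X _ _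
    rw [h1]
    rfl
  have hθk : ∀ P : Polynomial R, ιB (θ P) =
      Polynomial.aeval t (P.map (algebraMap R k₀)) := by
    intro P
    have h1 : ιB (θ P) = ιB (Polynomial.eval₂ ιR ⟨t, htB⟩ P) := rfl
    rw [h1, Polynomial.hom_eval₂, hιR, Polynomial.aeval_def, Polynomial.eval₂_map]
    rfl
  have hθ : Function.Injective θ := by
    rw [injective_iff_map_eq_zero]
    intro P hP
    have h1 := hθk P
    rw [hP, map_zero] at h1
    have h2 : P.map (algebraMap R k₀) = 0 := by
      by_contra h3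
      exact ht ⟨_, h3, h1.symm⟩
    exact (Polynomial.map_eq_zero_iff (FaithfulSMul.algebraMap_injective R k₀)).1 h2
  have hftR : Algebra.FiniteType ℤ R := R.fg_iff_finiteType.1 hR
  have hftA : Algebra.FiniteType ℤ A := A.fg_iff_finiteType.1 hA
  have hftB : Algebra.FiniteType ℤ B := B.fg_iff_finiteType.1 hB
  have hθft : θ.FiniteType := by
    refine RingHom.FiniteType.of_comp_finiteType (f := algebraMap ℤ (Polynomial R)) ?_
    have h1 : θ.comp (algebraMap ℤ (Polynomial R)) = algebraMap ℤ B := Subsingleton.elim _ _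
    rw [h1, RingHom.finiteType_algebraMap]
    exact hftB
  have hnoeth : IsNoetherianRing R := Algebra.FiniteType.isNoetherianRing ℤ R
  have hczR : CharZero R := (ιB.comp ιR).charZero
  -- the equation over `B`
  have hFB : F.map ιA = (peq d ΦR).map θ := by
    apply MvPolynomial.map_injective ιB hιB
    rw [map_map, map_map, peq, map_sub, map_mul, map_C, map_pow, map_X, map_map]
    have h1 : ιB.comp ιA = algebraMap A k := rfl
    have h2 : (ιB.comp θ).comp Polynomial.C = (algebraMap k₀ k).comp (algebraMap R k₀) := by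
      rw [RingHom.comp_assoc, hθC, hιR]
    rw [h1, h2, hF, ← map_map, hΦR, RingHom.comp_apply, hθX]
  have hFk : F.map (algebraMap A k) = (peq d ΦR).map (ιB.comp θ) := by
    rw [← map_map, ← hFB, map_map]
    rfl
  have hW : ∀ i, 0 < (Fin.cons 1 w : Fin (n + 1) → ℕ) i := by
    intro i
    refine Fin.cases ?_ (fun j => ?_) i
    · exact Nat.one_pos
    · exact hw j
  have hδ0 : δR ≠ 0 := fun h0 => by
    rw [h0] at hsepR
    exact Polynomial.not_separable_zero hsepR
  -- quasi-smoothness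
  obtain ⟨a, M', ha, hJ⟩ := peq_jac w hw d hd ΦR hΦRh M hjac δR hδ0 hδRJ
  have hqs : ∀ i, (X i : MvPolynomial (Fin (n + 1)) k) ∈
      (Ideal.span (Set.range fun j => pderiv j (F.map (algebraMap A k)))).radical := by
    refine isQuasiSmooth_of_monomials _ hW M' _ ?_
    rw [hFk]
    refine hJ (ιB.comp θ) ?_
    rw [RingHom.comp_apply, Ne, map_eq_zero_iff _ hιB, map_eq_zero_iff _ hθ]
    exact ha
  obtain ⟨aA, MA, haA, hJA⟩ := exists_jac.{u, u, u} (A := A) (k := k)
    (FaithfulSMul.algebraMap_injective A k) _ hW F hqs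
  have := isJacobsonRing_int
  have hjacA : IsJacobsonRing A := isJacobsonRing_of_finiteType (A := ℤ)
  intro b hb
  have hιA : Function.Injective ιA := Subalgebra.inclusion_injective hAB
  obtain ⟨h, hh0, hlift⟩ := exists_prime_lift θ hθ hθft (ιA (b * aA)) (by
    rw [Ne, map_eq_zero_iff _ hιA]
    exact mul_ne_zero hb haA)
  obtain ⟨p₀, hp₀⟩ := core hn w hw d hd ΦR hΦRh M hjac ξR hξR δR hδRJ hsepR h hh0
  refine ⟨p₀, fun p hp hpp _ => ?_⟩
  obtain ⟨E, _, _, ψ, hhψ, hdet⟩ := hp₀ p hp hpp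
  have hpf : Fact p.Prime := ⟨hp⟩
  have hker : (RingHom.ker (pred ψ)).IsPrime := RingHom.ker_isPrime _
  have hhker : h ∉ RingHom.ker (pred ψ) := by
    rw [RingHom.mem_ker, pred, RingHom.comp_apply,
      map_eq_zero_iff _ (RatFunc.algebraMap_injective E)]
    exact hhψ
  obtain ⟨Q, hQ, hcQ, hQq⟩ := hlift _ hker hhker
  have hQmem : ∀ x, θ x ∈ Q ↔ pred ψ x = 0 := by
    intro x
    rw [← Ideal.mem_comap, hQq, RingHom.mem_ker]
  let P : Ideal A := Q.comap ιA
  have hP : P.IsPrime := Ideal.IsPrime.comap ιA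
  have hpP : (p : A) ∈ P := by
    rw [Ideal.mem_comap, map_natCast]
    have h1 : ((p : ℕ) : B) = θ (p : Polynomial R) := (map_natCast θ p).symm
    rw [h1, hQmem, map_natCast]
    have hcR : CharP (RatFunc E) p :=
      charP_of_injective_algebraMap (algebraMap E (RatFunc E)).injective p
    exact CharP.cast_eq_zero (RatFunc E) p
  have hD : (hasseWitt p (Fin.cons 1 w : Fin (n + 1) → ℕ) d F).det ∉ P := by
    rw [Ideal.mem_comap, RingHom.map_det, hasseWitt_map, hFB, ← hasseWitt_map, ← RingHom.map_det,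
      hQmem, RingHom.map_det, hasseWitt_map, peq_map]
    exact hdet
  have hcd : b * aA * (hasseWitt p (Fin.cons 1 w : Fin (n + 1) → ℕ) d F).det ∉ P := by
    intro h1
    rcases hP.mem_or_mem h1 with h2 | h2
    · exact hcQ h2
    · exact hD h2
  have hjac2 : P.jacobson = P := hjacA.out hP.isRadical
  rw [← hjac2, Ideal.jacobson, Ideal.mem_sInf] at hcd
  push Not at hcd
  obtain ⟨m, ⟨hPm, hm⟩, hmcd⟩ := hcd
  let : Field (A ⧸ m) := Ideal.Quotient.field m
  have hcharm : CharP (A ⧸ m) p := by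
    apply charP_of_cast_eq_zero hp
    rw [← map_natCast (Ideal.Quotient.mk m), Ideal.Quotient.eq_zero_iff_mem]
    exact hPm hpP
  have hdetm : (hasseWitt p (Fin.cons 1 w : Fin (n + 1) → ℕ) d
      (F.map (Ideal.Quotient.mk m))).det ≠ 0 := by
    intro h1
    rw [← hasseWitt_map, ← RingHom.map_det] at h1
    have h2 := Ideal.Quotient.eq_zero_iff_mem.1 h1
    exact hmcd (m.mul_mem_left _ h2)
  refine ⟨⟨m, hm.isPrime⟩, hm, ?_, hcharm, ?_, hdetm, ?_⟩
  · intro h1
    exact hmcd (m.mul_mem_right _ (m.mul_mem_right _ h1))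
  · have haQ : Ideal.Quotient.mk m aA ≠ 0 := by
      intro h1
      rw [Ideal.Quotient.eq_zero_iff_mem] at h1
      exact hmcd (m.mul_mem_right _ (m.mul_mem_left _ h1))
    exact isQuasiSmooth_of_monomials _ hW MA _ (hJA (Ideal.Quotient.mk m) haQ)
  · intro g h hg hex
    exact noex_of_det p _ d _ hdetm g h (fun u hu => (mem_expo hW).2 (hg u hu)) hex

/-- Every pencil `Φ - t x_0 ^ d` with quasi-smooth part at infinity whose affine part is a Morse
polynomial. -/
theorem morse_pencils {k : Type u} [Field k] [CharZero k] (k₀ : Subfield k) (t : k)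
    (ht : Transcendental k₀ t) {n : ℕ} (hn : 2 ≤ n) (w : Fin n → ℕ) (hw : ∀ i, 0 < w i) (d : ℕ)
    (hd : 0 < d) (Φ : MvPolynomial (Fin (n + 1)) k₀)
    (hΦ : Φ.IsWeightedHomogeneous (Fin.cons 1 w : Fin (n + 1) → ℕ) d)
    (hT : ∀ i, (X i : MvPolynomial (Fin n) k₀) ∈ (Jac (bdr Φ)).radical)
    (hM : IsMorse (aff Φ)) (A : Subalgebra ℤ k) (hA : A.FG) (F : MvPolynomial (Fin (n + 1)) A)
    (hF : F.map (algebraMap A k) = Φ.map (algebraMap k₀ k) - C t * X 0 ^ d) :
    OrdinaryReduction (Fin.cons 1 w : Fin (n + 1) → ℕ) d F 1 := by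
  obtain ⟨hG, δ, hδ, hsep⟩ := morse_data w hw d hd (aff Φ) (degLe_aff w d Φ hΦ)
    (by rw [part_aff w d Φ hΦ]; exact hT) hM
  exact pencils k₀ t ht hn w hw d hd Φ hΦ hT hG δ hδ hsep A hA F hF

end MPadcHM
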