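import Pool.Agent.Lib.MP_adc574_ag_HM.KosB
import Pool.Agent.Lib.MP_adc574_ag_HM.Defs

/-!
# JOB KosC: syzygies in the polynomial ring, homogeneous version

* `koszul_mv`: `R = K[x]`, `y k = X k ^ M`; `hM` gives `c` (`Ideal.mem_span_range_iff_exists_fun` or `Submodule.mem_span_range...`). Regularity: `span (y '' {k < j})`
  is generated by the monomials `X k ^ M`, `k < j`, so `P` is in it iff every `e ∈ P.support` has `M ≤ e k` for some `k < j`
  (`MvPolynomial.mem_ideal_span_monomial_image`, `X_pow_eq_monomial`); for `X j ^ M * P` the support is shifted by `M` in the variable `j ≠ k`.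
* `koszul_hom`: `h j` homogeneous: `wt e + w j = d` for `e ∈ (h j).support`; `Q j` homogeneous of level `N`: `wtp e = N + w j`. From `koszul_mv` take `A` and
  keep from `A i j` only the monomials `e` with `wtp e + d = N + w i + w j` (`A' i j = ∑ e ∈ (A i j).support.filter .., monomial e (coeff e (A i j))`); antisymmetry is
  preserved, and comparing in `Q i = ∑ j, A i j * h j` the monomials `e` with `wtp e = N + w i` (a monomial `e1` of `A i j` times `e2` of `h j` has
  `wtp (e1 + e2) + w j = wtp e1 + d`) gives `Q i = ∑ j, A' i j * h j`.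
-/

set_option autoImplicit false

namespace MPadcHM

open MvPolynomial

variable {K : Type*} [Field K] {n : ℕ}

private theorem kosc_image (M : ℕ) (j : Fin n) :
    ((fun k : Fin n => (X k : MvPolynomial (Fin n) K) ^ M) '' {k | k < j}) =
      (fun s => monomial s (1 : K)) '' ((fun k : Fin n => Finsupp.single k M) '' {k | k < j}) := by
  rw [Set.image_image]
  apply Set.image_congr
  intro k _
  exact X_pow_eq_monomial

theorem koszul_mv (h : Fin n → MvPolynomial (Fin n) K) (M : ℕ)
    (hM : ∀ i, (X i : MvPolynomial (Fin n) K) ^ M ∈ Ideal.span (Set.range h))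
    (Q : Fin n → MvPolynomial (Fin n) K) (hQ : ∑ j, Q j * h j = 0) :
    ∃ A : Fin n → Fin n → MvPolynomial (Fin n) K, Asym A ∧ ∀ i, Q i = ∑ j, A i j * h j := by
  have hc : ∀ i, ∃ c : Fin n → MvPolynomial (Fin n) K,
      (X i : MvPolynomial (Fin n) K) ^ M = ∑ j, c j * h j := by
    intro i
    obtain ⟨c, hc⟩ := Ideal.mem_span_range_iff_exists_fun.mp (hM i)
    exact ⟨c, hc.symm⟩
  choose c hc using hc
  have hreg : ∀ (j : Fin n) (x : MvPolynomial (Fin n) K),
      (X j : MvPolynomial (Fin n) K) ^ M * x ∈
        Ideal.span ((fun k : Fin n => (X k : MvPolynomial (Fin n) K) ^ M) '' {k | k < j}) →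
      x ∈ Ideal.span ((fun k : Fin n => (X k : MvPolynomial (Fin n) K) ^ M) '' {k | k < j}) := by
    intro j x hx
    rw [kosc_image, mem_ideal_span_monomial_image] at hx ⊢
    intro e he
    have h1 : coeff (Finsupp.single j M + e) ((X j : MvPolynomial (Fin n) K) ^ M * x) =
        coeff e x := by
      rw [X_pow_eq_monomial, coeff_monomial_mul, one_mul]
    have h2 : Finsupp.single j M + e ∈ ((X j : MvPolynomial (Fin n) K) ^ M * x).support := by
      rw [mem_support_iff, h1]
      exact mem_support_iff.mp he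
    obtain ⟨si, hsi, hle⟩ := hx _ h2
    refine ⟨si, hsi, ?_⟩
    obtain ⟨k, hk, rfl⟩ := hsi
    have hk' : k < j := hk
    have h3 : (Finsupp.single k M) k ≤ (Finsupp.single j M + e) k := hle k
    rw [Finsupp.add_apply, Finsupp.single_eq_same,
      Finsupp.single_apply, if_neg (ne_of_gt hk'), zero_add] at h3
    rw [Finsupp.single_le_iff]
    exact h3
  obtain ⟨A, h1, h2, h3⟩ := koszul_h1 h (fun k => (X k : MvPolynomial (Fin n) K) ^ M) c hc hreg Q hQ
  exact ⟨A, ⟨h1, h2⟩, h3⟩

open Classical in
private theorem kosc_restr (p : (Fin n →₀ ℕ) → Prop) (P : MvPolynomial (Fin n) K) :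
    ∃ P' : MvPolynomial (Fin n) K, ∀ e, coeff e P' = if p e then coeff e P else 0 := by
  refine ⟨∑ e ∈ P.support.filter p, monomial e (coeff e P), ?_⟩
  intro e
  rw [coeff_sum]
  simp only [coeff_monomial]
  rw [Finset.sum_ite_eq']
  by_cases hp : p e
  · rw [if_pos hp]
    by_cases he : coeff e P = 0
    · rw [he]
      split_ifs <;> rfl
    · rw [if_pos]
      rw [Finset.mem_filter]
      exact ⟨mem_support_iff.mpr he, hp⟩
  · rw [if_neg hp, if_neg]
    rw [Finset.mem_filter]
    exact fun hh => hp hh.2

private theorem kosc_wtp_add (w : Fin n → ℕ) (e f : Fin n →₀ ℕ) :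
    wtp w (e + f) = wtp w e + wt w f := by
  unfold wtp wt
  rw [← Finset.sum_add_distrib]
  apply Finset.sum_congr rfl
  intro i _
  rw [Finsupp.add_apply]
  ring

theorem koszul_hom (w : Fin n → ℕ) (d : ℕ) (h : Fin n → MvPolynomial (Fin n) K) (M : ℕ)
    (hM : ∀ i, (X i : MvPolynomial (Fin n) K) ^ M ∈ Ideal.span (Set.range h))
    (hh : ∀ j, ∀ e ∈ (h j).support, wt w e + w j = d)
    (N : ℕ) (Q : Fin n → MvPolynomial (Fin n) K)
    (hQN : ∀ j, ∀ e ∈ (Q j).support, wtp w e = N + w j) (hQ : ∑ j, Q j * h j = 0) :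
    ∃ A : Fin n → Fin n → MvPolynomial (Fin n) K, Asym A ∧
      (∀ i j, ∀ e ∈ (A i j).support, wtp w e + d = N + w i + w j) ∧
      ∀ i, Q i = ∑ j, A i j * h j := by
  classical
  obtain ⟨A, ⟨hA1, hA2⟩, hA3⟩ := koszul_mv h M hM Q hQ
  have hA' : ∀ i j, ∃ P' : MvPolynomial (Fin n) K, ∀ e, coeff e P' =
      if wtp w e + d = N + w i + w j then coeff e (A i j) else 0 := by
    intro i j
    obtain ⟨P', hP'⟩ := kosc_restr (fun e => wtp w e + d = N + w i + w j) (A i j)
    refine ⟨P', fun e => ?_⟩
    rw [hP' e]
    split_ifs <;> rfl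
  choose A' hA' using hA'
  refine ⟨A', ⟨?_, ?_⟩, ?_, ?_⟩
  · intro i
    ext e
    rw [hA', hA1 i]
    simp
  · intro i j
    ext e
    rw [coeff_neg, hA', hA', hA2 i j, coeff_neg]
    by_cases hp : wtp w e + d = N + w i + w j
    · rw [if_pos hp, if_pos (by omega)]
    · rw [if_neg hp, if_neg (by omega), neg_zero]
  · intro i j e he
    by_contra hp
    rw [mem_support_iff, hA', if_neg hp] at he
    exact he rfl
  · intro i
    ext e
    have key : ∀ j, coeff e (A' i j * h j) =
        if wtp w e = N + w i then coeff e (A i j * h j) else 0 := by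
      intro j
      rw [coeff_mul, coeff_mul]
      by_cases hp : wtp w e = N + w i
      · rw [if_pos hp]
        apply Finset.sum_congr rfl
        rintro ⟨a, b⟩ hab
        rw [Finset.HasAntidiagonal.mem_antidiagonal] at hab
        have hab' : a + b = e := hab
        show coeff a (A' i j) * coeff b (h j) = coeff a (A i j) * coeff b (h j)
        by_cases hb : coeff b (h j) = 0
        · rw [hb, mul_zero, mul_zero]
        · have h1 := hh j b (mem_support_iff.mpr hb)
          have h2 := kosc_wtp_add w a b
          rw [hab'] at h2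
          rw [hA', if_pos (by omega)]
      · rw [if_neg hp]
        apply Finset.sum_eq_zero
        rintro ⟨a, b⟩ hab
        rw [Finset.HasAntidiagonal.mem_antidiagonal] at hab
        have hab' : a + b = e := hab
        show coeff a (A' i j) * coeff b (h j) = 0
        by_cases hb : coeff b (h j) = 0
        · rw [hb, mul_zero]
        · have h1 := hh j b (mem_support_iff.mpr hb)
          have h2 := kosc_wtp_add w a b
          rw [hab'] at h2
          rw [hA', if_neg (by omega), zero_mul]
    rw [coeff_sum]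
    simp only [key]
    by_cases hp : wtp w e = N + w i
    · simp only [if_pos hp]
      rw [← coeff_sum, ← hA3 i]
    · simp only [if_neg hp, Finset.sum_const_zero]
      by_contra hne
      exact hp (hQN i e (mem_support_iff.mpr hne))

end MPadcHM
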