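import Pool.Agent.Lib.MP_adc574_ag_HM.PAff

/-!
# Quasi-smoothness of the members of a pencil
-/

set_option autoImplicit false

namespace MPadcHM

open MvPolynomial MPadcGM

section

variable {R : Type*} [CommRing R] {n : ℕ}

theorem aff_pderiv (F : MvPolynomial (Fin (n + 1)) R) (j : Fin n) :
    aff (pderiv j.succ F) = pderiv j (aff F) := by
  classical
  induction F using MvPolynomial.induction_on' with
  | monomial e a =>
    rw [pderiv_monomial, aff_monomial, aff_monomial, pderiv_monomial, Finsupp.tail_apply]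
    have h : (e - Finsupp.single j.succ 1).tail = e.tail - Finsupp.single j 1 := by
      ext i
      simp only [Finsupp.tail_apply, Finsupp.coe_tsub, Pi.sub_apply, Finsupp.single_apply,
        Fin.succ_inj]
    rw [h]
  | add P Q hP hQ => rw [map_add, aff_add, aff_add, map_add, hP, hQ]

theorem bdr_pderiv (F : MvPolynomial (Fin (n + 1)) R) (j : Fin n) :
    bdr (pderiv j.succ F) = pderiv j (bdr F) := by
  classical
  induction F using MvPolynomial.induction_on' with
  | monomial e a =>
    rw [pderiv_monomial, bdr_monomial, bdr_monomial]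
    have h0 : (e - Finsupp.single j.succ 1 : Fin (n + 1) →₀ ℕ) 0 = e 0 := by
      rw [Finsupp.coe_tsub, Pi.sub_apply, Finsupp.single_apply, if_neg (Fin.succ_ne_zero j),
        Nat.sub_zero]
    rw [h0]
    by_cases hz : e 0 = 0
    · rw [if_pos hz, if_pos hz, pderiv_monomial, Finsupp.tail_apply]
      have h : (e - Finsupp.single j.succ 1).tail = e.tail - Finsupp.single j 1 := by
        ext i
        simp only [Finsupp.tail_apply, Finsupp.coe_tsub, Pi.sub_apply, Finsupp.single_apply,
          Fin.succ_inj]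
      rw [h]
    · rw [if_neg hz, if_neg hz, map_zero]
  | add P Q hP hQ => rw [map_add, bdr_add, bdr_add, map_add, hP, hQ]

/-- Values of a weighted homogeneous polynomial in the chart `x_0 ≠ 0`. -/
theorem eval_chart {k Ω : Type*} [Field k] [Field Ω] [Algebra k Ω] (w : Fin n → ℕ)
    (x : Fin (n + 1) → Ω) (hx : x 0 ≠ 0) (N : ℕ) (G : MvPolynomial (Fin (n + 1)) k)
    (hG : G.IsWeightedHomogeneous (Fin.cons 1 w : Fin (n + 1) → ℕ) N) :
    aeval x G = x 0 ^ N * aeval (fun j : Fin n => x j.succ / x 0 ^ w j) (aff G) := by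
  classical
  have h1 : aff G = ∑ e ∈ G.support, monomial e.tail (coeff e G) := by
    conv_lhs => rw [G.as_sum]
    rw [aff_sum]
    exact Finset.sum_congr rfl fun e _ => aff_monomial e _
  rw [h1, map_sum, Finset.mul_sum]
  conv_lhs => rw [G.as_sum]
  rw [map_sum]
  refine Finset.sum_congr rfl fun e he => ?_
  have h2 := hG (mem_support_iff.1 he)
  rw [weight_cons] at h2
  rw [aeval_monomial, aeval_monomial, Finsupp.prod_fintype _ _ (fun i => pow_zero _),
    Finsupp.prod_fintype _ _ (fun i => pow_zero _), Fin.prod_univ_succ]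
  have h3 : ∏ i : Fin n, x i.succ ^ e i.succ =
      x 0 ^ wt w e.tail * ∏ i : Fin n, (x i.succ / x 0 ^ w i) ^ e.tail i := by
    rw [wt, ← Finset.prod_pow_eq_pow_sum, ← Finset.prod_mul_distrib]
    refine Finset.prod_congr rfl fun i _ => ?_
    rw [div_pow, ← pow_mul, Finsupp.tail_apply, mul_div_cancel₀]
    exact pow_ne_zero _ hx
  rw [h3, ← h2, pow_add]
  ring

theorem quasiSmooth_of {k : Type*} [Field k] [CharZero k] (w : Fin n → ℕ) (d : ℕ)
    (hd : 0 < d) (F : MvPolynomial (Fin (n + 1)) k)
    (hF : F.IsWeightedHomogeneous (Fin.cons 1 w : Fin (n + 1) → ℕ) d)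
    (ha : ∀ i, (X i : MvPolynomial (Fin n) k) ∈ (Jac (bdr F)).radical)
    (hb : (1 : MvPolynomial (Fin n) k) ∈ Jac (aff F) ⊔ Ideal.span {aff F}) (i : Fin (n + 1)) :
    (X i : MvPolynomial (Fin (n + 1)) k) ∈ (Jac F).radical := by
  classical
  rw [Ideal.radical_eq_sInf, Ideal.mem_sInf]
  rintro P ⟨hJP, hP⟩
  have hmem : ∀ j, pderiv j F ∈ P := fun j => hJP (Ideal.subset_span ⟨j, rfl⟩)
  have hFP : F ∈ P := by
    have h1 := hF.sum_weight_X_mul_pderiv
    have h2 : (d : ℕ) • F ∈ P := by
      rw [← h1]
      refine Ideal.sum_mem _ fun j _ => ?_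
      rw [nsmul_eq_mul]
      exact P.mul_mem_left _ (P.mul_mem_left _ (hmem j))
    have h3 : F = C ((d : k)⁻¹) * ((d : ℕ) • F) := by
      rw [nsmul_eq_mul, ← mul_assoc, ← map_natCast (C : k →+* MvPolynomial (Fin (n + 1)) k), ← C_mul,
        inv_mul_cancel₀ (Nat.cast_ne_zero.2 hd.ne'), C_1, one_mul]
    rw [h3]
    exact P.mul_mem_left _ h2
  -- `X 0 ∈ P`
  have h0 : (X 0 : MvPolynomial (Fin (n + 1)) k) ∈ P := by
    by_contra h0
    let Ω := FractionRing (MvPolynomial (Fin (n + 1)) k ⧸ P)
    let π : MvPolynomial (Fin (n + 1)) k →ₐ[k] Ω :=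
      (IsScalarTower.toAlgHom k (MvPolynomial (Fin (n + 1)) k ⧸ P) Ω).comp (Ideal.Quotient.mkₐ k P)
    have hπ : ∀ G, G ∈ P → π G = 0 := by
      intro G hG
      change algebraMap (MvPolynomial (Fin (n + 1)) k ⧸ P) Ω (Ideal.Quotient.mk P G) = 0
      rw [Ideal.Quotient.eq_zero_iff_mem.2 hG, map_zero]
    have hπ' : ∀ G, π G = 0 → G ∈ P := by
      intro G hG
      change algebraMap (MvPolynomial (Fin (n + 1)) k ⧸ P) Ω (Ideal.Quotient.mk P G) = 0 at hG
      rw [map_eq_zero_iff _ (IsFractionRing.injective _ _)] at hG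
      exact Ideal.Quotient.eq_zero_iff_mem.1 hG
    have hx0 : π (X 0) ≠ 0 := fun h => h0 (hπ' _ h)
    have haev : ∀ G, π G = aeval (fun i => π (X i)) G := by
      intro G
      exact DFunLike.congr_fun (aeval_unique π) G
    let y : Fin n → Ω := fun j => π (X j.succ) / π (X 0) ^ w j
    have hchart : ∀ (N : ℕ) (G : MvPolynomial (Fin (n + 1)) k),
        G.IsWeightedHomogeneous (Fin.cons 1 w : Fin (n + 1) → ℕ) N → G ∈ P →
        aeval y (aff G) = 0 := by
      intro N G hG hGP
      have h1 := eval_chart w (fun i => π (X i)) hx0 N G hG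
      rw [← haev, hπ G hGP] at h1
      rcases mul_eq_zero.1 h1.symm with h2 | h2
      · exact absurd h2 (pow_ne_zero _ hx0)
      · exact h2
    have hle : Jac (aff F) ⊔ Ideal.span {aff F} ≤ RingHom.ker (aeval y : _ →ₐ[k] Ω).toRingHom := by
      rw [sup_le_iff]
      constructor
      · rw [Jac, Ideal.span_le]
        rintro _ ⟨j, rfl⟩
        rw [SetLike.mem_coe, RingHom.mem_ker]
        change aeval y (pderiv j (aff F)) = 0
        rw [← aff_pderiv]
        by_cases hwd : w j ≤ d
        · refine hchart (d - w j) _ (hF.pderiv ?_) (hmem _)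
          rw [Fin.cons_succ]
          omega
        · have h2 : pderiv j.succ F = 0 := by
            rw [F.as_sum, map_sum]
            refine Finset.sum_eq_zero fun e he => ?_
            have h3 := hF (mem_support_iff.1 he)
            rw [weight_cons] at h3
            have h4 : e j.succ = 0 := by
              by_contra h5
              have h6 : w j * e.tail j ≤ wt w e.tail :=
                Finset.single_le_sum (f := fun i => w i * e.tail i) (fun i _ => Nat.zero_le _)
                  (Finset.mem_univ j)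
              have h7 : w j ≤ w j * e.tail j :=
                Nat.le_mul_of_pos_right _ (Nat.pos_of_ne_zero (by rwa [Finsupp.tail_apply]))
              omega
            rw [pderiv_monomial, h4, Nat.cast_zero, mul_zero, monomial_zero]
          rw [h2, aff, map_zero, map_zero]
      · rw [Ideal.span_le, Set.singleton_subset_iff, SetLike.mem_coe, RingHom.mem_ker]
        exact hchart d F hF hFP
    have h1 := hle hb
    rw [RingHom.mem_ker, map_one] at h1
    exact one_ne_zero h1
  refine Fin.cases h0 (fun j => ?_) i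
  -- the other coordinates
  let ρ : MvPolynomial (Fin n) k →ₐ[k] MvPolynomial (Fin (n + 1)) k := rename Fin.succ
  let P' : Ideal (MvPolynomial (Fin n) k) := P.comap ρ.toRingHom
  have hkey : ∀ G : MvPolynomial (Fin (n + 1)) k, G ∈ P → ρ (bdr G) ∈ P := by
    intro G hG
    have h1 : (Ideal.Quotient.mkₐ k P).comp (ρ.comp
        (aeval (Fin.cons 0 X : Fin (n + 1) → MvPolynomial (Fin n) k))) =
        Ideal.Quotient.mkₐ k P := by
      apply MvPolynomial.algHom_ext
      intro i
      refine Fin.cases ?_ (fun j => ?_) i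
      · change Ideal.Quotient.mk P (ρ (aeval (Fin.cons 0 X : Fin (n + 1) → MvPolynomial (Fin n) k)
          (X 0))) = Ideal.Quotient.mk P (X 0)
        rw [aeval_X, Fin.cons_zero, map_zero, map_zero]
        exact (Ideal.Quotient.eq_zero_iff_mem.2 h0).symm
      · change Ideal.Quotient.mk P (ρ (aeval (Fin.cons 0 X : Fin (n + 1) → MvPolynomial (Fin n) k)
          (X j.succ))) = Ideal.Quotient.mk P (X j.succ)
        rw [aeval_X, Fin.cons_succ]
        change Ideal.Quotient.mk P (rename Fin.succ (X j)) = _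
        rw [rename_X]
    have h2 := DFunLike.congr_fun h1 G
    change Ideal.Quotient.mk P (ρ (bdr G)) = Ideal.Quotient.mk P G at h2
    rw [Ideal.Quotient.eq_zero_iff_mem.2 hG] at h2
    exact Ideal.Quotient.eq_zero_iff_mem.1 h2
  have hJ' : Jac (bdr F) ≤ P' := by
    rw [Jac, Ideal.span_le]
    rintro _ ⟨l, rfl⟩
    change ρ (pderiv l (bdr F)) ∈ P
    rw [← bdr_pderiv]
    exact hkey _ (hmem _)
  have hP' : P'.IsPrime := Ideal.IsPrime.comap _
  have h1 : (X j : MvPolynomial (Fin n) k) ∈ P' := (Ideal.IsPrime.radical_le_iff hP').2 hJ' (ha j)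
  change ρ (X j) ∈ P at h1
  change rename Fin.succ (X j) ∈ P at h1
  rw [rename_X] at h1
  exact h1

/-- The constant `δ(t)` lies in the ideal of `φ - t` and its partial derivatives. -/
theorem unit_mem (φ₀ : MvPolynomial (Fin n) R) (δ : Polynomial R)
    (hδ : Polynomial.aeval φ₀ δ ∈ Jac φ₀) :
    (C δ : MvPolynomial (Fin n) (Polynomial R)) ∈
      Jac (φ₀.map Polynomial.C - C Polynomial.X) ⊔
        Ideal.span {φ₀.map Polynomial.C - C Polynomial.X} := by
  have hJ : (Jac φ₀).map (MvPolynomial.map (Polynomial.C : R →+* Polynomial R)) =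
      Jac (φ₀.map Polynomial.C - C Polynomial.X) := by
    rw [Jac, Jac, Ideal.map_span, ← Set.range_comp]
    congr 1
    apply congrArg
    funext j
    simp only [Function.comp_apply, map_sub, pderiv_map, pderiv_C, sub_zero]
  have h1 : MvPolynomial.map (Polynomial.C : R →+* Polynomial R) (Polynomial.aeval φ₀ δ) ∈
      Jac (φ₀.map Polynomial.C - C Polynomial.X) := by
    rw [← hJ]
    exact Ideal.mem_map_of_mem _ hδ
  have h2 := Polynomial.sub_dvd_eval_sub (φ₀.map Polynomial.C)
    (C Polynomial.X : MvPolynomial (Fin n) (Polynomial R))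
    (δ.map ((C : Polynomial R →+* MvPolynomial (Fin n) (Polynomial R)).comp Polynomial.C))
  have h3 : (δ.map ((C : Polynomial R →+* MvPolynomial (Fin n) (Polynomial R)).comp
      Polynomial.C)).eval (φ₀.map Polynomial.C) =
      MvPolynomial.map (Polynomial.C : R →+* Polynomial R) (Polynomial.aeval φ₀ δ) := by
    rw [Polynomial.eval_map, Polynomial.aeval_def, Polynomial.hom_eval₂]
    congr 1
    ext a : 1
    simp only [RingHom.comp_apply, algebraMap_eq, map_C]
  have h4 : (δ.map ((C : Polynomial R →+* MvPolynomial (Fin n) (Polynomial R)).comp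
      Polynomial.C)).eval (C Polynomial.X : MvPolynomial (Fin n) (Polynomial R)) = C δ := by
    rw [Polynomial.eval_map, ← Polynomial.hom_eval₂, Polynomial.eval₂_C_X]
  rw [h3, h4] at h2
  have h5 : C δ = MvPolynomial.map (Polynomial.C : R →+* Polynomial R) (Polynomial.aeval φ₀ δ) -
      (MvPolynomial.map (Polynomial.C : R →+* Polynomial R) (Polynomial.aeval φ₀ δ) - C δ) := by
    ring
  rw [h5]
  refine Ideal.sub_mem _ (Ideal.mem_sup_left h1) (Ideal.mem_sup_right ?_)
  exact Ideal.mem_span_singleton.2 h2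

end

end MPadcHM
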