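import Pool.Agent.Lib.MP_adc574_ag_HM.LocC
import Pool.Agent.Lib.MP_adc574_ag_LP.Place

/-!
# JOB LocE: from polynomials to power series, and to `κ(t)`

`F ⊃ κ`, `τ ∈ F` a simple zero of `δ`, `pl κ τ : κ[X] → F⟦X⟧`, `t ↦ τ + X` (`MPadcLP.pl`, `pl_derivative`, `constantCoeff_pl`).
`pl δ * Γ = X * pl G`. Since `δ(τ) = 0`, `δ'(τ) ≠ 0`: `pl δ = X v` with `v` a unit (its constant coefficient is `δ'(τ)`, from
`pl_derivative`), so `pl G = v Γ` (cancel `X`).

* `theta_poly`: for `c` over `κ[X]`, `pl (nabT D δ G c) = v Θ (pl c)` (`nabT D δ G c σ = δ D(c σ) - act G c σ`, `act_map`, `act_smul_left`). Let `W` be the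
  `F⟦X⟧`-span of the arrays `pl ((nabT D δ G)^[j] c)`. `Θ (s z) = X s' z + s Θ z`, so `Θ W ⊂ W`, and `pl μ . z = 0` for `z ∈ W` (by the
  hypothesis, `map_sum`). So `pl μ . Θ^k (pl c) = 0`.
* `loc_final`: let `c`, `μ` be over `K = κ(t)`, choose `q ≠ 0` in `κ[X]` such that `q c`, `q μ` have polynomial coordinates `c'`, `μ'` (common denominator:
  `IsLocalization.exist_integer_multiples_of_finset`). Over `K`: `nabT (DZ) δ G_K = δ nabT (DZ) 1 Γ_K` on arrays (`δ Γ_K = G`), so
  `(nabT D δ G)^[k] (q c)` is a `K`-linear combination of the `(nabT DZ 1 Γ_K)^[j] c`, `j ≤ k` (induction with the Leibniz rule), and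
  `μ' . (nabT D δ G)^[k] c' = 0` (injectivity of `κ[X] → K`). `D = Polynomial.derivative` as a `Der κ[X]` (`dP`), `DZ (algebraMap p) = algebraMap p'`
  (`DZ_poly`). By `theta_poly` and `jordan_zero`/`jordan_int`
  `pl μ' . act N (pl c') = 0`; map to `E` by `jE` and divide by `q²` (`jE (pl q) = algebraMap q ≠ 0`).
-/

set_option autoImplicit false

namespace MPadcHM

open MPadcLP

universe u

/-- An additive map satisfying the Leibniz rule as a derivation. -/
def toDer {R : Type*} [CommRing R] (D : R →+ R) (h : ∀ a b, D (a * b) = a * D b + b * D a) :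
    Der R :=
  Derivation.mk' D.toIntLinearMap (by
    intro a b
    simpa [smul_eq_mul] using h a b)

/-- `d / dt` on `κ[t]`. -/
noncomputable def dP (κ : Type u) [Field κ] : Der (Polynomial κ) :=
  toDer (Polynomial.derivative (R := κ)).toAddMonoidHom (by
    intro a b
    simp [Polynomial.derivative_mul]
    ring)

/-- `d / dt` on `κ(t)`. -/
noncomputable def DZ (κ : Type u) [Field κ] : Der (RatFunc κ) :=
  toDer (DK κ : RatFunc κ →ₗ[κ] RatFunc κ).toAddMonoidHom (by
    intro a b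
    change DK κ (a * b) = a * DK κ b + b * DK κ a
    rw [Derivation.leibniz, smul_eq_mul, smul_eq_mul])

theorem DZ_apply (κ : Type u) [Field κ] (x : RatFunc κ) : DZ κ x = DK κ x := rfl

theorem dP_apply (κ : Type u) [Field κ] (x : Polynomial κ) :
    dP κ x = Polynomial.derivative x := rfl

variable {ι : Type} [Fintype ι] [DecidableEq ι]

open PowerSeries in
private theorem locea_unit {κ F : Type*} [Field κ] [Field F] [Algebra κ F]
    (τ : F) (δ : Polynomial κ) (hδ : Polynomial.aeval τ δ = 0)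
    (hδ' : Polynomial.aeval τ (Polynomial.derivative δ) ≠ 0) :
    ∃ v : F⟦X⟧, IsUnit v ∧ pl κ τ δ = X * v := by
  have h1 : (X : F⟦X⟧) ∣ pl κ τ δ := by
    rw [PowerSeries.X_dvd_iff, constantCoeff_pl, hδ]
  obtain ⟨v, hv⟩ := h1
  refine ⟨v, ?_, hv⟩
  rw [PowerSeries.isUnit_iff_constantCoeff, isUnit_iff_ne_zero]
  have h2 := pl_derivative (k := κ) τ δ
  rw [hv, Derivation.leibniz, smul_eq_mul, smul_eq_mul, derivative_X, mul_one] at h2
  have h3 := congrArg (constantCoeff (R := F)) h2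
  rw [constantCoeff_pl, map_add, map_mul, constantCoeff_X, zero_mul, zero_add] at h3
  rw [h3]
  exact hδ'

open PowerSeries in
private theorem locea_step {κ F : Type*} [Field κ] [CharZero κ] [Field F] [Algebra κ F] {γ : Type}
    [Fintype γ] [DecidableEq γ] (τ : F) (δ : Polynomial κ) (v : F⟦X⟧) (hv : pl κ τ δ = X * v)
    (G : Matrix ι ι (Polynomial κ)) (Γ : Matrix ι ι F⟦X⟧)
    (hΓ : ∀ i j, pl κ τ δ * Γ i j = X * pl κ τ (G i j)) (c : (γ → ι) → Polynomial κ) :
    (fun σ => pl κ τ (nabT (dP κ) δ G c σ)) =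
      v • (Theta Γ : Module.End F ((γ → ι) → F⟦X⟧)) (fun σ => pl κ τ (c σ)) := by
  have hG : G.map (pl κ τ) = v • Γ := by
    ext1 i j
    rw [Matrix.map_apply, Matrix.smul_apply, smul_eq_mul]
    have h := hΓ i j
    rw [hv, mul_assoc] at h
    exact (mul_left_cancel₀ PowerSeries.X_ne_zero h).symm
  funext σ
  have ha := congrFun (act_map (pl κ τ) G c) σ
  rw [hG, act_smul_left] at ha
  have h1 : pl κ τ (nabT (dP κ) δ G c σ) =
      pl κ τ δ * pl κ τ (Polynomial.derivative (c σ)) - pl κ τ (act G c σ) := by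
    show pl κ τ (δ * dP κ (c σ) - act G c σ) = _
    rw [map_sub, map_mul, dP_apply]
  rw [h1, ha, hv, ← pl_derivative]
  show _ = v * (X * derivative F (pl κ τ (c σ)) - act Γ (fun σ => pl κ τ (c σ)) σ)
  rw [Pi.smul_apply, smul_eq_mul]
  ring

open PowerSeries in
private theorem locea_smul {F : Type*} [Field F] {γ : Type}
    [Fintype γ] [DecidableEq γ] (Γ : Matrix ι ι F⟦X⟧) (s : F⟦X⟧) (z : (γ → ι) → F⟦X⟧) :
    (Theta Γ : Module.End F ((γ → ι) → F⟦X⟧)) (s • z) =
      (X * derivative F s) • z + s • (Theta Γ : Module.End F ((γ → ι) → F⟦X⟧)) z := by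
  funext σ
  show X * derivative F ((s • z) σ) - act Γ (s • z) σ =
    (X * derivative F s) * z σ + s * (X * derivative F (z σ) - act Γ z σ)
  rw [act_smul, Pi.smul_apply, Pi.smul_apply, smul_eq_mul, smul_eq_mul, Derivation.leibniz,
    smul_eq_mul, smul_eq_mul]
  ring

open PowerSeries in
theorem theta_poly {κ F : Type*} [Field κ] [CharZero κ] [Field F] [Algebra κ F] {γ : Type}
    [Fintype γ] [DecidableEq γ] (τ : F) (δ : Polynomial κ) (hδ : Polynomial.aeval τ δ = 0)
    (hδ' : Polynomial.aeval τ (Polynomial.derivative δ) ≠ 0)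
    (G : Matrix ι ι (Polynomial κ)) (Γ : Matrix ι ι F⟦X⟧)
    (hΓ : ∀ i j, pl κ τ δ * Γ i j = X * pl κ τ (G i j)) (c μ : (γ → ι) → Polynomial κ)
    (h : ∀ k : ℕ, μ ⬝ᵥ ((nabT (dP κ) δ G)^[k] c) = 0) (k : ℕ) :
    (fun σ => pl κ τ (μ σ)) ⬝ᵥ
      (((Theta Γ : Module.End F ((γ → ι) → F⟦X⟧)) ^ k) fun σ => pl κ τ (c σ)) = 0 := by
  obtain ⟨v, hvu, hv⟩ := locea_unit τ δ hδ hδ'
  obtain ⟨v', hv'⟩ := hvu.exists_left_inv
  set g : ℕ → ((γ → ι) → F⟦X⟧) := fun j σ => pl κ τ ((nabT (dP κ) δ G)^[j] c σ) with hg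
  have hgs : ∀ j, g (j + 1) = v • (Theta Γ : Module.End F ((γ → ι) → F⟦X⟧)) (g j) := by
    intro j
    have h1 := locea_step τ δ v hv G Γ hΓ ((nabT (dP κ) δ G)^[j] c)
    simp only [hg]
    rw [Function.iterate_succ_apply']
    exact h1
  have hgs' : ∀ j, (Theta Γ : Module.End F ((γ → ι) → F⟦X⟧)) (g j) = v' • g (j + 1) := by
    intro j
    rw [hgs, smul_smul, hv', one_smul]
  set W : Submodule F⟦X⟧ ((γ → ι) → F⟦X⟧) := Submodule.span F⟦X⟧ (Set.range g) with hW
  have hWT : ∀ z ∈ W, (Theta Γ : Module.End F ((γ → ι) → F⟦X⟧)) z ∈ W := by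
    intro z hz
    refine Submodule.span_induction (p := fun z _ =>
      (Theta Γ : Module.End F ((γ → ι) → F⟦X⟧)) z ∈ W) ?_ ?_ ?_ ?_ hz
    · rintro _ ⟨j, rfl⟩
      rw [hgs']
      exact W.smul_mem _ (Submodule.subset_span ⟨j + 1, rfl⟩)
    · rw [map_zero]; exact W.zero_mem
    · intro x y _ _ hx hy
      rw [map_add]
      exact W.add_mem hx hy
    · intro a x hxW hx
      rw [locea_smul]
      exact W.add_mem (W.smul_mem _ hxW) (W.smul_mem _ hx)
  have hW0 : ∀ z ∈ W, (fun σ => pl κ τ (μ σ)) ⬝ᵥ z = 0 := by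
    intro z hz
    refine Submodule.span_induction (p := fun z _ => (fun σ => pl κ τ (μ σ)) ⬝ᵥ z = 0)
      ?_ ?_ ?_ ?_ hz
    · rintro _ ⟨j, rfl⟩
      have h1 := congrArg (pl κ τ) (h j)
      rw [map_zero] at h1
      rw [← h1]
      simp only [dotProduct, hg, map_sum, map_mul]
    · exact dotProduct_zero _
    · intro x y _ _ hx hy
      rw [dotProduct_add, hx, hy, add_zero]
    · intro a x _ hx
      rw [dotProduct_smul, hx, smul_zero]
  have hk : ∀ k : ℕ, (((Theta Γ : Module.End F ((γ → ι) → F⟦X⟧)) ^ k)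
      fun σ => pl κ τ (c σ)) ∈ W := by
    intro k
    induction k with
    | zero =>
      rw [pow_zero, Module.End.one_apply]
      exact Submodule.subset_span ⟨0, rfl⟩
    | succ n ih =>
      rw [pow_succ', Module.End.mul_apply]
      exact hWT _ ih
  exact hW0 _ (hk k)

private theorem locEb_nabT_add {K : Type*} [CommRing K] {γ : Type} [Fintype γ] [DecidableEq γ]
    (D : Derivation ℤ K K) (s : K) (Γ : Matrix ι ι K)
    (x y : (γ → ι) → K) : nabT D s Γ (x + y) = nabT D s Γ x + nabT D s Γ y := by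
  funext σ
  simp only [nabT, Pi.add_apply, map_add, act_add]
  ring

private theorem locEb_nabT_smul {K : Type*} [CommRing K] {γ : Type} [Fintype γ] [DecidableEq γ]
    (D : Derivation ℤ K K) (Γ : Matrix ι ι K)
    (s : K) (y : (γ → ι) → K) : nabT D 1 Γ (s • y) = D s • y + s • nabT D 1 Γ y := by
  funext σ
  simp only [nabT, Pi.add_apply, Pi.smul_apply, act_smul, smul_eq_mul, Derivation.leibniz]
  ring

private theorem locEb_stable {K : Type*} [CommRing K] {γ : Type} [Fintype γ] [DecidableEq γ]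
    (D : Derivation ℤ K K) (Γ : Matrix ι ι K) (c : (γ → ι) → K)
    (w : (γ → ι) → K)
    (hw : w ∈ Submodule.span K (Set.range fun j : ℕ => (nabT D 1 Γ)^[j] c)) :
    nabT D 1 Γ w ∈ Submodule.span K (Set.range fun j : ℕ => (nabT D 1 Γ)^[j] c) := by
  induction hw using Submodule.span_induction with
  | mem x hx =>
    obtain ⟨j, rfl⟩ := hx
    refine Submodule.subset_span ⟨j + 1, ?_⟩
    exact Function.iterate_succ_apply' (nabT D 1 Γ) j c
  | zero =>
    have h0 : nabT D 1 Γ (0 : (γ → ι) → K) = 0 := by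
      have h := locEb_nabT_smul D Γ (0 : K) (0 : (γ → ι) → K)
      simpa using h
    rw [h0]
    exact Submodule.zero_mem _
  | add x y _ _ hx hy =>
    rw [locEb_nabT_add]
    exact Submodule.add_mem _ hx hy
  | smul s x hx0 hx =>
    rw [locEb_nabT_smul]
    exact Submodule.add_mem _ (Submodule.smul_mem _ _ hx0) (Submodule.smul_mem _ _ hx)

private theorem locEb_mem {K : Type*} [CommRing K] {γ : Type} [Fintype γ] [DecidableEq γ]
    (D : Derivation ℤ K K) (Γ : Matrix ι ι K) (c : (γ → ι) → K) (s q : K) (k : ℕ) :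
    (nabT D s (s • Γ))^[k] (q • c) ∈
      Submodule.span K (Set.range fun j : ℕ => (nabT D 1 Γ)^[j] c) := by
  induction k with
  | zero =>
    refine Submodule.smul_mem _ _ (Submodule.subset_span ⟨0, rfl⟩)
  | succ k ih =>
    rw [Function.iterate_succ_apply']
    have h1 : ∀ y : (γ → ι) → K, nabT D s (s • Γ) y = s • nabT D 1 Γ y := by
      intro y
      funext σ
      simp only [nabT, act_smul_left, Pi.smul_apply, smul_eq_mul]
      ring
    rw [h1]
    exact Submodule.smul_mem _ _ (locEb_stable D Γ c _ ih)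

private theorem locEb_dot {K : Type*} [CommRing K] {γ : Type} [Fintype γ] [DecidableEq γ]
    (D : Derivation ℤ K K) (Γ : Matrix ι ι K) (c μ : (γ → ι) → K)
    (h : ∀ k : ℕ, μ ⬝ᵥ ((nabT D 1 Γ)^[k] c) = 0) (s q : K) (k : ℕ) :
    μ ⬝ᵥ ((nabT D s (s • Γ))^[k] (q • c)) = 0 := by
  have hm := locEb_mem D Γ c s q k
  generalize (nabT D s (s • Γ))^[k] (q • c) = w at hm
  induction hm using Submodule.span_induction with
  | mem x hx =>
    obtain ⟨j, rfl⟩ := hx
    exact h j
  | zero => exact dotProduct_zero _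
  | add x y _ _ hx hy => rw [dotProduct_add, hx, hy, add_zero]
  | smul t x _ hx => rw [dotProduct_smul, hx, smul_zero]

private theorem locEb_map {κ : Type u} [Field κ] {γ : Type} [Fintype γ] [DecidableEq γ]
    (δ : Polynomial κ) (G : Matrix ι ι (Polynomial κ))
    (x : (γ → ι) → Polynomial κ) (k : ℕ) :
    (fun σ => algebraMap (Polynomial κ) (RatFunc κ) ((nabT (dP κ) δ G)^[k] x σ)) =
      (nabT (DZ κ) (algebraMap (Polynomial κ) (RatFunc κ) δ)
        (G.map (algebraMap (Polynomial κ) (RatFunc κ))))^[k]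
        (fun σ => algebraMap (Polynomial κ) (RatFunc κ) (x σ)) := by
  induction k with
  | zero => rfl
  | succ k ih =>
    rw [Function.iterate_succ_apply', Function.iterate_succ_apply', ← ih]
    funext σ
    have h2 := congrFun (act_map (algebraMap (Polynomial κ) (RatFunc κ)) G
      ((nabT (dP κ) δ G)^[k] x)) σ
    simp only [nabT, map_sub, map_mul, dP_apply, DZ_apply, DK_poly]
    rw [← h2]

private theorem locEb_poly {κ : Type u} [Field κ] {γ : Type} [Fintype γ] [DecidableEq γ]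
    (δ : Polynomial κ) (G : Matrix ι ι (Polynomial κ)) (ΓK : Matrix ι ι (RatFunc κ))
    (hΓK : ∀ i j, algebraMap (Polynomial κ) (RatFunc κ) δ * ΓK i j =
      algebraMap (Polynomial κ) (RatFunc κ) (G i j))
    (c μ : (γ → ι) → RatFunc κ)
    (h : ∀ k : ℕ, μ ⬝ᵥ ((nabT (DZ κ) 1 ΓK)^[k] c) = 0) (q : Polynomial κ)
    (c' μ' : (γ → ι) → Polynomial κ)
    (hc : ∀ σ, algebraMap (Polynomial κ) (RatFunc κ) (c' σ) =
      algebraMap (Polynomial κ) (RatFunc κ) q * c σ)
    (hμ : ∀ σ, algebraMap (Polynomial κ) (RatFunc κ) (μ' σ) =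
      algebraMap (Polynomial κ) (RatFunc κ) q * μ σ) (k : ℕ) :
    μ' ⬝ᵥ ((nabT (dP κ) δ G)^[k] c') = 0 := by
  have hG : G.map (algebraMap (Polynomial κ) (RatFunc κ)) =
      algebraMap (Polynomial κ) (RatFunc κ) δ • ΓK := by
    ext i j
    rw [Matrix.map_apply, Matrix.smul_apply, smul_eq_mul, hΓK]
  apply IsFractionRing.injective (Polynomial κ) (RatFunc κ)
  rw [map_zero]
  have h1 : algebraMap (Polynomial κ) (RatFunc κ) (μ' ⬝ᵥ ((nabT (dP κ) δ G)^[k] c')) =
      (fun σ => algebraMap (Polynomial κ) (RatFunc κ) (μ' σ)) ⬝ᵥ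
        (fun σ => algebraMap (Polynomial κ) (RatFunc κ) ((nabT (dP κ) δ G)^[k] c' σ)) := by
    simp only [dotProduct, map_sum, map_mul]
  have h2 : (fun σ => algebraMap (Polynomial κ) (RatFunc κ) (c' σ)) =
      algebraMap (Polynomial κ) (RatFunc κ) q • c := funext hc
  have h3 : (fun σ => algebraMap (Polynomial κ) (RatFunc κ) (μ' σ)) =
      algebraMap (Polynomial κ) (RatFunc κ) q • μ := funext hμ
  rw [h1, locEb_map, hG, h2, h3, smul_dotProduct, locEb_dot (DZ κ) ΓK c μ h, smul_zero]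

omit [DecidableEq ι] in
private theorem locEb_denom {κ : Type u} [Field κ] {γ : Type} [Fintype γ] [DecidableEq γ]
    (c μ : (γ → ι) → RatFunc κ) :
    ∃ (q : Polynomial κ) (c' μ' : (γ → ι) → Polynomial κ), q ≠ 0 ∧
      (∀ σ, algebraMap (Polynomial κ) (RatFunc κ) (c' σ) =
        algebraMap (Polynomial κ) (RatFunc κ) q * c σ) ∧
      (∀ σ, algebraMap (Polynomial κ) (RatFunc κ) (μ' σ) =
        algebraMap (Polynomial κ) (RatFunc κ) q * μ σ) := by
  obtain ⟨b, hb⟩ := IsLocalization.exist_integer_multiples_of_finite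
    (nonZeroDivisors (Polynomial κ)) (Sum.elim c μ)
  choose f hf using hb
  refine ⟨(b : Polynomial κ), fun σ => f (Sum.inl σ), fun σ => f (Sum.inr σ),
    nonZeroDivisors.ne_zero b.2, ?_, ?_⟩
  · intro σ
    have h := hf (Sum.inl σ)
    rw [Sum.elim_inl, Algebra.smul_def] at h
    exact h
  · intro σ
    have h := hf (Sum.inr σ)
    rw [Sum.elim_inr, Algebra.smul_def] at h
    exact h

open PowerSeries in
theorem loc_final {κ F E : Type u} [Field κ] [CharZero κ] [Field F] [Algebra κ F] [Field E]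
    [Algebra (RatFunc κ) E] (τ : F) (δ : Polynomial κ) (hδ : Polynomial.aeval τ δ = 0)
    (hδ' : Polynomial.aeval τ (Polynomial.derivative δ) ≠ 0)
    (G : Matrix ι ι (Polynomial κ)) (Γ : Matrix ι ι F⟦X⟧)
    (hΓ : ∀ i j, pl κ τ δ * Γ i j = X * pl κ τ (G i j)) (α : F) (hα : α = 0 ∨ ∀ m : ℤ, α ≠ m)
    (a l : ι → F⟦X⟧) (ha : ∀ i, X * derivative F (a i) = -(Γ.mulVec a i) + C α * a i)
    (hl : ∀ j, X * derivative F (l j) = (∑ i, Γ i j * l i) - C α * l j)
    (hla : ∑ i, l i * a i = C α)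
    (h0 : ∀ i j, constantCoeff (Γ i j) = constantCoeff (a i) * constantCoeff (l j))
    (jE : F⟦X⟧ →+* E) (hjE : ∀ p : Polynomial κ, jE (pl κ τ p) =
      algebraMap (RatFunc κ) E (algebraMap (Polynomial κ) (RatFunc κ) p))
    (ΓK : Matrix ι ι (RatFunc κ))
    (hΓK : ∀ i j, algebraMap (Polynomial κ) (RatFunc κ) δ * ΓK i j =
      algebraMap (Polynomial κ) (RatFunc κ) (G i j))
    (g : ℕ) (c : (Fin g → ι) → RatFunc κ) (hc : Alt c) (μ : (Fin g → ι) → RatFunc κ)
    (h : ∀ k : ℕ, μ ⬝ᵥ ((nabT (DZ κ) 1 ΓK)^[k] c) = 0) :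
    (fun J => algebraMap (RatFunc κ) E (μ J)) ⬝ᵥ
      act (Matrix.vecMulVec (fun i => jE (a i)) (fun i => jE (l i)))
        (fun J => algebraMap (RatFunc κ) E (c J)) = 0 := by
  classical
  have hchar : CharZero F := charZero_of_injective_algebraMap (algebraMap κ F).injective
  obtain ⟨q, c', μ', hq, hc', hμ'⟩ := locEb_denom c μ
  have hinj := IsFractionRing.injective (Polynomial κ) (RatFunc κ)
  have hk := locEb_poly δ G ΓK hΓK c μ h q c' μ' hc' hμ'
  have hth := theta_poly τ δ hδ hδ' G Γ hΓ c' μ' hk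
  -- alternation
  have halt : Alt c' := by
    refine ⟨?_, ?_⟩
    · intro σ j k hjk
      apply hinj
      rw [map_neg, hc', hc', hc.1 σ j k hjk, mul_neg]
    · intro σ j k hjk hσ
      apply hinj
      rw [map_zero, hc', hc.2 σ j k hjk hσ, mul_zero]
  have halt' : Alt (fun σ => pl κ τ (c' σ)) := by
    refine ⟨?_, ?_⟩
    · intro σ j k hjk
      change pl κ τ (c' (σ ∘ Equiv.swap j k)) = -pl κ τ (c' σ)
      rw [halt.1 σ j k hjk, map_neg]
    · intro σ j k hjk hσ
      change pl κ τ (c' σ) = 0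
      rw [halt.2 σ j k hjk hσ, map_zero]
  have key : (fun σ => pl κ τ (μ' σ)) ⬝ᵥ act (Matrix.vecMulVec a l) (fun σ => pl κ τ (c' σ)) = 0 := by
    rcases hα with h00 | hint
    · subst h00
      have ha' : ∀ i, X * derivative F (a i) = -(Γ.mulVec a i) := by
        intro i
        rw [ha i, map_zero, zero_mul, add_zero]
      have hl' : ∀ j, X * derivative F (l j) = ∑ i, Γ i j * l i := by
        intro j
        rw [hl j, map_zero, zero_mul, sub_zero]
      have hla' : ∑ i, l i * a i = 0 := by rw [hla, map_zero]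
      exact jordan_zero Γ a l ha' hl' hla' h0 _ _ hth
    · exact jordan_int Γ α hint a l ha hl hla h0 _ _ halt' hth
  have key2 := congrArg jE key
  rw [map_zero] at key2
  have e1 : jE ((fun σ => pl κ τ (μ' σ)) ⬝ᵥ act (Matrix.vecMulVec a l) (fun σ => pl κ τ (c' σ))) =
      (fun σ => jE (pl κ τ (μ' σ))) ⬝ᵥ
        (fun σ => jE (act (Matrix.vecMulVec a l) (fun σ => pl κ τ (c' σ)) σ)) := by
    simp only [dotProduct, map_sum, map_mul]
  rw [e1, act_map] at key2
  have e2 : (Matrix.vecMulVec a l).map jE =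
      Matrix.vecMulVec (fun i => jE (a i)) (fun i => jE (l i)) := by
    ext i j
    simp only [Matrix.map_apply, Matrix.vecMulVec_apply, map_mul]
  set Q : E := algebraMap (RatFunc κ) E (algebraMap (Polynomial κ) (RatFunc κ) q) with hQ
  have hQ0 : Q ≠ 0 := by
    rw [hQ]
    refine (map_ne_zero_iff _ (algebraMap (RatFunc κ) E).injective).mpr ?_
    exact (map_ne_zero_iff _ hinj).mpr hq
  have e3 : (fun σ => jE (pl κ τ (c' σ))) = Q • (fun J => algebraMap (RatFunc κ) E (c J)) := by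
    funext σ
    rw [Pi.smul_apply, smul_eq_mul, hjE, hc', map_mul]
  have e4 : (fun σ => jE (pl κ τ (μ' σ))) = Q • (fun J => algebraMap (RatFunc κ) E (μ J)) := by
    funext σ
    rw [Pi.smul_apply, smul_eq_mul, hjE, hμ', map_mul]
  rw [e2, e3, e4, act_smul, smul_dotProduct, dotProduct_smul, smul_eq_mul, smul_eq_mul] at key2
  rcases mul_eq_zero.mp key2 with h5 | h5
  · exact absurd h5 hQ0
  · rcases mul_eq_zero.mp h5 with h6 | h6
    · exact absurd h6 hQ0
    · exact h6

end MPadcHM
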