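import Pool.Agent.Lib.MP_adc574_ag_HM.LocA
import Pool.Agent.Lib.MP_adc574_ag_HM.LocG

/-!
# JOB AsmA: the local package

`F := AdjoinRoot δ` (a field: `Fact (Irreducible δ)`), `τ := AdjoinRoot.root δ`, `aeval τ δ = 0`, `aeval τ δ' ≠ 0` (`δ` is separable in characteristic 0: `Irreducible.separable`; `IsCoprime δ δ'`), `aeval τ q = 0 ↔ δ ∣ q`
(`AdjoinRoot.aeval_eq`, `AdjoinRoot.mk_eq_zero`). `CharZero F`. `P := pl κ τ : κ[X] → F⟦X⟧` (`pl_injective`, `pl_derivative`, `constantCoeff_pl`).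
`P δ = X * v` (constant coefficient 0: `PowerSeries.X_dvd_iff`), `constantCoeff v = aeval τ δ'` (derive: `P δ' = v + X v'`), `v` is a unit. `Γ i j := v⁻¹ * P (G i j)` (`PowerSeries` inverse, or `IsUnit.unit`), so `P δ * Γ i j = X * P (G i j)`, and
`constantCoeff (Γ i j) = aeval τ (G i j) / aeval τ δ' = a0 i * l0 j`, `a0 i = aeval τ (ε i)`, `l0 j = aeval τ (p j) / aeval τ δ'` (`hG`). `∑ l0 i * a0 i = algebraMap α` by `hα` (`aeval τ δ = 0`). `algebraMap κ F α = 0 ∨ ∀ m : ℤ, algebraMap κ F α ≠ m`.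
`a`, `l` from `exists_series_a`, `exists_series_l`, `series_pair`. `E := FractionRing F⟦X⟧`, `jE := algebraMap F⟦X⟧ E` (injective), `Algebra (RatFunc κ) E` from the extension of `jE ∘ P : κ[X] → E` (injective) to `RatFunc κ` (`RatFunc.liftRingHom` or
`IsFractionRing.lift`, `RingHom.toAlgebra`). Then `indep_a`, `indep_l`, `loc_final`.
-/

set_option autoImplicit false

namespace MPadcHM

open MPadcLP

universe u

open PowerSeries in
private theorem asmA_unit {κ F : Type u} [Field κ] [Field F] [Algebra κ F] (τ : F)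
    (δ : Polynomial κ) (hδ : Polynomial.aeval τ δ = 0) :
    ∃ v : F⟦X⟧, pl κ τ δ = X * v ∧
      constantCoeff v = Polynomial.aeval τ (Polynomial.derivative δ) := by
  have h1 : (X : F⟦X⟧) ∣ pl κ τ δ := by
    rw [PowerSeries.X_dvd_iff, constantCoeff_pl, hδ]
  obtain ⟨v, hv⟩ := h1
  refine ⟨v, hv, ?_⟩
  have h2 := congrArg (fun f => constantCoeff (PowerSeries.derivative F f)) hv
  simp only [pl_derivative, Derivation.leibniz, smul_eq_mul, map_add, map_mul,
    constantCoeff_X, zero_mul, zero_add, PowerSeries.derivative_X, mul_one,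
    constantCoeff_pl] at h2
  exact h2.symm

open PowerSeries in
private theorem asmA_main {κ F : Type u} [Field κ] [CharZero κ] [Field F] [Algebra κ F] (τ : F)
    (δ : Polynomial κ) (hδ0 : δ ≠ 0) (hδ : Polynomial.aeval τ δ = 0)
    (hδ' : Polynomial.aeval τ (Polynomial.derivative δ) ≠ 0) {r : ℕ}
    (G Em : Matrix (Fin r) (Fin r) (Polynomial κ))
    (ε p : Fin r → Polynomial κ) (hG : ∀ i j, G i j = ε i * p j + δ * Em i j) (α : κ)
    (hα : Polynomial.aeval τ (∑ i, ε i * p i) =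
      algebraMap κ F α * Polynomial.aeval τ (Polynomial.derivative δ))
    (hα' : α = 0 ∨ ∀ m : ℤ, α ≠ m) (hε : ∃ i, Polynomial.aeval τ (ε i) ≠ 0)
    (hp : ∃ j, Polynomial.aeval τ (p j) ≠ 0)
    (ΓK : Matrix (Fin r) (Fin r) (RatFunc κ))
    (hΓK : ∀ i j, algebraMap (Polynomial κ) (RatFunc κ) δ * ΓK i j =
      algebraMap (Polynomial κ) (RatFunc κ) (G i j))
    (hirr : ∀ W : Submodule (RatFunc κ) (Fin r → RatFunc κ),
      (∀ w ∈ W, (fun i => DZ κ (w i) + ΓK.mulVec w i) ∈ W) → W = ⊥ ∨ W = ⊤) :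
    ∃ (E : Type u) (_ : Field E) (_ : Algebra (RatFunc κ) E) (a l : Fin r → E),
      LinearIndependent (RatFunc κ) a ∧ LinearIndependent (RatFunc κ) l ∧
      ∀ (g : ℕ) (c : (Fin g → Fin r) → RatFunc κ), Alt c →
        ∀ μ : (Fin g → Fin r) → RatFunc κ,
        (∀ k : ℕ, μ ⬝ᵥ ((nabT (DZ κ) 1 ΓK)^[k] c) = 0) →
        (fun J => algebraMap (RatFunc κ) E (μ J)) ⬝ᵥ
          act (Matrix.vecMulVec a l) (fun J => algebraMap (RatFunc κ) E (c J)) = 0 := by
  have hchar : CharZero F := charZero_of_injective_algebraMap (algebraMap κ F).injective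
  obtain ⟨v, hv, hv0⟩ := asmA_unit τ δ hδ
  have hvne : constantCoeff v ≠ 0 := by
    rw [hv0]
    exact hδ'
  -- the connection matrix
  set Γ : Matrix (Fin r) (Fin r) F⟦X⟧ := Matrix.of fun i j => v⁻¹ * pl κ τ (G i j) with hΓdef
  have hΓ : ∀ i j, pl κ τ δ * Γ i j = X * pl κ τ (G i j) := by
    intro i j
    change pl κ τ δ * (v⁻¹ * pl κ τ (G i j)) = X * pl κ τ (G i j)
    have h1 := PowerSeries.mul_inv_cancel v hvne
    calc pl κ τ δ * (v⁻¹ * pl κ τ (G i j)) = X * (v * v⁻¹) * pl κ τ (G i j) := by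
          rw [hv]
          ring
      _ = X * pl κ τ (G i j) := by rw [h1, mul_one]
  set a0 : Fin r → F := fun i => Polynomial.aeval τ (ε i) with ha0
  set l0 : Fin r → F := fun j =>
    (Polynomial.aeval τ (Polynomial.derivative δ))⁻¹ * Polynomial.aeval τ (p j) with hl0
  have hΓ0 : ∀ i j, constantCoeff (Γ i j) = a0 i * l0 j := by
    intro i j
    change constantCoeff (v⁻¹ * pl κ τ (G i j)) = Polynomial.aeval τ (ε i) *
      ((Polynomial.aeval τ (Polynomial.derivative δ))⁻¹ * Polynomial.aeval τ (p j))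
    rw [map_mul, PowerSeries.constantCoeff_inv, hv0, constantCoeff_pl, hG, map_add, map_mul,
      map_mul, hδ, zero_mul, add_zero]
    ring
  have hsum : ∑ i, l0 i * a0 i = algebraMap κ F α := by
    have h1 := hα
    rw [map_sum] at h1
    have h2 : ∑ i, l0 i * a0 i = (Polynomial.aeval τ (Polynomial.derivative δ))⁻¹ *
        ∑ i, Polynomial.aeval τ (ε i * p i) := by
      rw [Finset.mul_sum]
      refine Finset.sum_congr rfl fun i _ => ?_
      rw [map_mul]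
      change (Polynomial.aeval τ (Polynomial.derivative δ))⁻¹ * Polynomial.aeval τ (p i) *
        Polynomial.aeval τ (ε i) = _
      ring
    rw [h2, h1, mul_comm, mul_assoc, mul_inv_cancel₀ hδ', mul_one]
  have hα2 : algebraMap κ F α = 0 ∨ ∀ m : ℤ, algebraMap κ F α ≠ m := by
    rcases hα' with h | h
    · left
      rw [h, map_zero]
    · right
      intro m hm
      apply h m
      apply (algebraMap κ F).injective
      rw [hm, map_intCast]
  obtain ⟨a, haa, ha⟩ := exists_series_a Γ a0 l0 (algebraMap κ F α) hΓ0 hsum hα2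
  obtain ⟨l, hll, hl⟩ := exists_series_l Γ a0 l0 (algebraMap κ F α) hΓ0 hsum hα2
  have hla : ∑ i, l i * a i = C (algebraMap κ F α) := by
    refine series_pair Γ (algebraMap κ F α) a l ha hl ?_
    rw [← hsum]
    refine Finset.sum_congr rfl fun i _ => ?_
    rw [haa, hll]
  have h00 : ∀ i j, constantCoeff (Γ i j) = constantCoeff (a i) * constantCoeff (l j) := by
    intro i j
    rw [hΓ0, haa, hll]
  -- the field
  have hjEinj : Function.Injective (algebraMap F⟦X⟧ (FractionRing F⟦X⟧)) :=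
    IsFractionRing.injective F⟦X⟧ (FractionRing F⟦X⟧)
  have hPinj : Function.Injective ((algebraMap F⟦X⟧ (FractionRing F⟦X⟧)).comp (pl κ τ)) := by
    intro x y hxy
    exact pl_injective τ (hjEinj hxy)
  let ψ : RatFunc κ →+* FractionRing F⟦X⟧ := IsFractionRing.lift hPinj
  let algE : Algebra (RatFunc κ) (FractionRing F⟦X⟧) := ψ.toAlgebra
  have hjE : ∀ q : Polynomial κ, algebraMap F⟦X⟧ (FractionRing F⟦X⟧) (pl κ τ q) =
      algebraMap (RatFunc κ) (FractionRing F⟦X⟧) (algebraMap (Polynomial κ) (RatFunc κ) q) := by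
    intro q
    exact (IsFractionRing.lift_algebraMap hPinj q).symm
  have hl0ne : ∃ i, constantCoeff (l i) ≠ 0 := by
    obtain ⟨j, hj⟩ := hp
    refine ⟨j, ?_⟩
    rw [hll]
    exact mul_ne_zero (inv_ne_zero hδ') hj
  have ha0ne : ∃ i, constantCoeff (a i) ≠ 0 := by
    obtain ⟨j, hj⟩ := hε
    refine ⟨j, ?_⟩
    rw [haa]
    exact hj
  refine ⟨FractionRing F⟦X⟧, inferInstance, algE,
    fun i => algebraMap F⟦X⟧ (FractionRing F⟦X⟧) (a i),
    fun i => algebraMap F⟦X⟧ (FractionRing F⟦X⟧) (l i), ?_, ?_, ?_⟩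
  · exact indep_a τ δ hδ0 G Γ hΓ (algebraMap κ F α) a ha ha0ne
      (algebraMap F⟦X⟧ (FractionRing F⟦X⟧)) hjEinj hjE ΓK hΓK hirr
  · exact indep_l τ δ hδ0 G Γ hΓ (algebraMap κ F α) l hl hl0ne
      (algebraMap F⟦X⟧ (FractionRing F⟦X⟧)) hjEinj hjE ΓK hΓK hirr
  · intro g c hc μ hμ
    exact loc_final τ δ hδ hδ' G Γ hΓ (algebraMap κ F α) hα2 a l ha hl hla h00
      (algebraMap F⟦X⟧ (FractionRing F⟦X⟧)) hjE ΓK hΓK g c hc μ hμ

theorem local_package {κ : Type u} [Field κ] [CharZero κ] (δ δ₁ : Polynomial κ)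
    (hδ : δ.Separable) (hδ₁ : Irreducible δ₁) (hd : δ₁ ∣ δ) {r : ℕ}
    (G Em : Matrix (Fin r) (Fin r) (Polynomial κ))
    (ε p : Fin r → Polynomial κ) (hG : ∀ i j, G i j = ε i * p j + δ * Em i j) (α : κ)
    (hα : ∃ c : Polynomial κ, ∑ i, ε i * p i =
      Polynomial.C α * Polynomial.derivative δ + δ₁ * c)
    (hα' : α = 0 ∨ ∀ m : ℤ, α ≠ m) (hε : ∃ i, ¬ δ₁ ∣ ε i) (hp : ∃ j, ¬ δ₁ ∣ p j)
    (ΓK : Matrix (Fin r) (Fin r) (RatFunc κ))
    (hΓK : ∀ i j, algebraMap (Polynomial κ) (RatFunc κ) δ * ΓK i j =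
      algebraMap (Polynomial κ) (RatFunc κ) (G i j))
    (hirr : ∀ W : Submodule (RatFunc κ) (Fin r → RatFunc κ),
      (∀ w ∈ W, (fun i => DZ κ (w i) + ΓK.mulVec w i) ∈ W) → W = ⊥ ∨ W = ⊤) :
    ∃ (E : Type u) (_ : Field E) (_ : Algebra (RatFunc κ) E) (a l : Fin r → E),
      LinearIndependent (RatFunc κ) a ∧ LinearIndependent (RatFunc κ) l ∧
      ∀ (g : ℕ) (c : (Fin g → Fin r) → RatFunc κ), Alt c →
        ∀ μ : (Fin g → Fin r) → RatFunc κ,
        (∀ k : ℕ, μ ⬝ᵥ ((nabT (DZ κ) 1 ΓK)^[k] c) = 0) →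
        (fun J => algebraMap (RatFunc κ) E (μ J)) ⬝ᵥ
          act (Matrix.vecMulVec a l) (fun J => algebraMap (RatFunc κ) E (c J)) = 0 := by
  have : Fact (Irreducible δ₁) := ⟨hδ₁⟩
  have hroot₁ : Polynomial.aeval (AdjoinRoot.root δ₁) δ₁ = 0 := by
    rw [AdjoinRoot.aeval_eq, AdjoinRoot.mk_self]
  have hiff : ∀ q : Polynomial κ, Polynomial.aeval (AdjoinRoot.root δ₁) q = 0 ↔ δ₁ ∣ q := by
    intro q
    rw [AdjoinRoot.aeval_eq, AdjoinRoot.mk_eq_zero]
  have hroot : Polynomial.aeval (AdjoinRoot.root δ₁) δ = 0 := (hiff δ).2 hd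
  have hδ' : Polynomial.aeval (AdjoinRoot.root δ₁) (Polynomial.derivative δ) ≠ 0 := by
    intro h
    obtain ⟨u, w, huw⟩ := hδ
    have h2 := congrArg (Polynomial.aeval (AdjoinRoot.root δ₁)) huw
    rw [map_add, map_mul, map_mul, hroot, h, mul_zero, mul_zero, add_zero, map_one] at h2
    exact zero_ne_one h2
  refine asmA_main (AdjoinRoot.root δ₁) δ hδ.ne_zero hroot hδ' G Em ε p hG α ?_ hα' ?_ ?_ ΓK hΓK hirr
  · obtain ⟨c, hc⟩ := hα
    rw [hc, map_add, map_mul, map_mul, hroot₁, zero_mul, add_zero, Polynomial.aeval_C]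
  · obtain ⟨i, hi⟩ := hε
    exact ⟨i, fun h => hi ((hiff _).mp h)⟩
  · obtain ⟨j, hj⟩ := hp
    exact ⟨j, fun h => hj ((hiff _).mp h)⟩

end MPadcHM
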