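import Pool.Agent.Lib.MP_adc574_ag_HM.IrrB
import Pool.Agent.Lib.MP_adc574_ag_HM.LocE

/-!
# JOB AsmB: irreducibility in coordinates

`K = RatFunc κ`, `ΓK i j = G i j / δ`, so `nab (b j) = ∑ i, ΓK i j • b i`. For `w ∈ K^r` let `Φ w = ∑ w_i b_i ∈ Hprim`: a linear isomorphism `K^r → Hprim` (`hb`, `hspan`), and
`nab (Φ w) = Φ (w' + ΓK w)` (`hG.leib`, `DZ_apply`). Let `W ⊂ K^r` be stable. `H' = W.map Φ` is a `nab`-stable subspace of `Hprim`, so `⊥` or `Hprim` (`irr`), and `W = ⊥` or `⊤` by injectivity of `Φ`.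
-/

set_option autoImplicit false

namespace MPadcHM

open MvPolynomial

universe u

variable {κ : Type u} [Field κ] [CharZero κ] {n : ℕ} {S : Dat κ n} {H : Type u} [AddCommGroup H]
  [Module (RatFunc κ) H] [Module κ H] [IsScalarTower κ (RatFunc κ) H] [Module (Polynomial κ) H]
  [IsScalarTower (Polynomial κ) (RatFunc κ) H] [IsScalarTower κ (Polynomial κ) H]
  {nab : H →ₗ[κ] H} {br : MvPolynomial (Fin n) κ →ₗ[κ] H}

theorem nab_coord (hS : S.Ok) (hG : IsGM S nab br) {r : ℕ} (b : Fin r → H)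
    (G : Matrix (Fin r) (Fin r) (Polynomial κ)) (hGb : ∀ j, S.δ • nab (b j) = ∑ i, G i j • b i)
    (ΓK : Matrix (Fin r) (Fin r) (RatFunc κ))
    (hΓK : ∀ i j, algebraMap (Polynomial κ) (RatFunc κ) S.δ * ΓK i j =
      algebraMap (Polynomial κ) (RatFunc κ) (G i j)) (w : Fin r → RatFunc κ) :
    nab (∑ i, w i • b i) = ∑ i, (DZ κ (w i) + ΓK.mulVec w i) • b i := by
  have hδ : algebraMap (Polynomial κ) (RatFunc κ) S.δ ≠ 0 := by
    intro h
    exact hS.sep.ne_zero ((map_eq_zero_iff _ (IsFractionRing.injective (Polynomial κ) (RatFunc κ))).mp h)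
  have hb : ∀ j, nab (b j) = ∑ i, ΓK i j • b i := by
    intro j
    have h1 : algebraMap (Polynomial κ) (RatFunc κ) S.δ • nab (b j) =
        algebraMap (Polynomial κ) (RatFunc κ) S.δ • ∑ i, ΓK i j • b i := by
      rw [algebraMap_smul, hGb j, Finset.smul_sum]
      refine Finset.sum_congr rfl fun i _ => ?_
      rw [smul_smul, hΓK i j, algebraMap_smul]
    exact smul_right_injective H hδ h1
  rw [map_sum]
  have h2 : ∀ i, nab (w i • b i) = DZ κ (w i) • b i + ∑ j, (w i * ΓK j i) • b j := by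
    intro i
    rw [hG.leib, DZ_apply, hb i, Finset.smul_sum]
    congr 1
    refine Finset.sum_congr rfl fun j _ => ?_
    rw [smul_smul]
  rw [Finset.sum_congr rfl fun i _ => h2 i, Finset.sum_add_distrib, Finset.sum_comm, ← Finset.sum_add_distrib]
  refine Finset.sum_congr rfl fun i _ => ?_
  rw [add_smul, Matrix.mulVec, dotProduct, Finset.sum_smul]
  congr 1
  refine Finset.sum_congr rfl fun j _ => ?_
  rw [mul_comm]

theorem irr_coord (hS : S.Ok) (hG : IsGM S nab br)
    (hirr : ∀ H' : Submodule (RatFunc κ) H, H' ≤ Hprim S nab br → (∀ h ∈ H', nab h ∈ H') →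
      H' = ⊥ ∨ H' = Hprim S nab br)
    {r : ℕ} (b : Fin r → H) (hb : LinearIndependent (RatFunc κ) b)
    (hspan : Submodule.span (RatFunc κ) (Set.range b) = Hprim S nab br)
    (G : Matrix (Fin r) (Fin r) (Polynomial κ)) (hGb : ∀ j, S.δ • nab (b j) = ∑ i, G i j • b i)
    (ΓK : Matrix (Fin r) (Fin r) (RatFunc κ))
    (hΓK : ∀ i j, algebraMap (Polynomial κ) (RatFunc κ) S.δ * ΓK i j =
      algebraMap (Polynomial κ) (RatFunc κ) (G i j))
    (W : Submodule (RatFunc κ) (Fin r → RatFunc κ))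
    (hW : ∀ w ∈ W, (fun i => DZ κ (w i) + ΓK.mulVec w i) ∈ W) : W = ⊥ ∨ W = ⊤ := by
  have hinj : Function.Injective (Fintype.linearCombination (RatFunc κ) b) :=
    hb.fintypeLinearCombination_injective
  have hrange : LinearMap.range (Fintype.linearCombination (RatFunc κ) b) = Hprim S nab br := by
    rw [Fintype.range_linearCombination, hspan]
  have hle : W.map (Fintype.linearCombination (RatFunc κ) b) ≤ Hprim S nab br := by
    rw [← hrange]
    exact LinearMap.map_le_range
  have hst : ∀ h ∈ W.map (Fintype.linearCombination (RatFunc κ) b),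
      nab h ∈ W.map (Fintype.linearCombination (RatFunc κ) b) := by
    rintro h ⟨w, hw, rfl⟩
    refine ⟨_, hW w hw, ?_⟩
    rw [Fintype.linearCombination_apply, Fintype.linearCombination_apply,
      nab_coord hS hG b G hGb ΓK hΓK w]
  rcases hirr _ hle hst with h | h
  · left
    rw [eq_bot_iff]
    intro w hw
    have h1 : Fintype.linearCombination (RatFunc κ) b w ∈ W.map (Fintype.linearCombination (RatFunc κ) b) :=
      ⟨w, hw, rfl⟩
    rw [h, Submodule.mem_bot] at h1
    rw [Submodule.mem_bot]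
    exact hinj (by rw [h1, map_zero])
  · right
    rw [eq_top_iff]
    intro w _
    have h1 : Fintype.linearCombination (RatFunc κ) b w ∈ Hprim S nab br := by
      rw [← hrange]
      exact ⟨w, rfl⟩
    rw [← h] at h1
    obtain ⟨w', hw', hww⟩ := h1
    rw [← hinj hww]
    exact hw'

end MPadcHM
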