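import Pool.Agent.Lib.MP_adc574_ag_HM.Defs

/-!
# JOB KeyC: from all `θ` to the tensor product

* `tensor_zero`: let `B` be a `K`-basis of `L` (`Module.Basis.ofVectorSpace`). For each coordinate `θ = B.coord p`, the `K`-linear map
  `θ ⊗ id : L ⊗ E → K ⊗ E = E` maps `∑ r_J ⊗ β_J` to `∑ θ(r_J) • β_J = 0`. An element of `L ⊗ E` all of whose images are 0 is 0
  (`Module.Basis.baseChange`/`Algebra.TensorProduct.basis`, or expand `r_J = ∑ θ_p(r_J) • B_p` over the finite set of the `p` which occur: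
  `∑_J r_J ⊗ β_J = ∑_p B_p ⊗ (∑_J θ_p(r_J) • β_J) = 0`).
* `tensor_act`: `μ . act N (θ ∘ r) = ∑_J' (θ (r J')) β_J'` with `β_J' = ∑ over (J, j) with update ... ` coefficients in `E` which do not depend on
  `r`: (`act` is linear in `c`, write `c = ∑_J' c_J' e_J'`, `β_J' = μ . act N e_J'`, `e_J' = Pi.single J' 1`). Apply `tensor_zero` and the same
  expansion over `L ⊗ E`.
-/

set_option autoImplicit false

namespace MPadcHM

open MPadcLP
open scoped TensorProduct

variable {γ ι : Type} [Fintype γ] [DecidableEq γ] [Fintype ι] [DecidableEq ι]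

theorem tensor_zero {K L E : Type*} [Field K] [Field L] [Field E] [Algebra K L] [Algebra K E]
    {T : Type*} [Fintype T] (r : T → L) (β : T → E)
    (h : ∀ θ : L →ₗ[K] K, ∑ J, algebraMap K E (θ (r J)) * β J = 0) :
    ∑ J, r J ⊗ₜ[K] β J = 0 := by
  classical
  set B := Module.Basis.ofVectorSpace K L with hB
  apply (TensorProduct.equivFinsuppOfBasisLeft (N := E) B).injective
  rw [map_zero, map_sum]
  ext p
  rw [Finsupp.finsetSum_apply, Finsupp.zero_apply]
  have h1 := h (B.coord p)
  rw [← h1]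
  refine Finset.sum_congr rfl fun J _ => ?_
  rw [TensorProduct.equivFinsuppOfBasisLeft_apply_tmul_apply, Algebra.smul_def]
  rfl

theorem tensor_act {K L E : Type*} [Field K] [Field L] [Field E] [Algebra K L] [Algebra K E]
    (N : Matrix ι ι E) (r : (γ → ι) → L) (μ : (γ → ι) → K)
    (h : ∀ θ : L →ₗ[K] K, (fun J => algebraMap K E (μ J)) ⬝ᵥ
      act N (fun J => algebraMap K E (θ (r J))) = 0) :
    (fun J => algebraMap K (L ⊗[K] E) (μ J)) ⬝ᵥ
      act (N.map fun x => (1 : L) ⊗ₜ[K] x) (fun J => r J ⊗ₜ[K] (1 : E)) = 0 := by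
  classical
  set B := Module.Basis.ofVectorSpace K L with hB
  apply (TensorProduct.equivFinsuppOfBasisLeft (N := E) B).injective
  ext p
  rw [map_zero, Finsupp.zero_apply]
  have h1 := h (B.coord p)
  rw [← h1]
  simp only [dotProduct, act]
  rw [map_sum, Finsupp.finsetSum_apply]
  refine Finset.sum_congr rfl fun J _ => ?_
  rw [Finset.mul_sum, Finset.mul_sum, map_sum, Finsupp.finsetSum_apply]
  refine Finset.sum_congr rfl fun j _ => ?_
  rw [Finset.mul_sum, Finset.mul_sum, map_sum, Finsupp.finsetSum_apply]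
  refine Finset.sum_congr rfl fun i _ => ?_
  rw [Matrix.map_apply, Algebra.TensorProduct.tmul_mul_tmul, mul_one, one_mul,
    ← Algebra.smul_def, TensorProduct.smul_tmul',
    TensorProduct.equivFinsuppOfBasisLeft_apply_tmul_apply, map_smul, Finsupp.smul_apply,
    Algebra.smul_def, smul_eq_mul, map_mul, mul_assoc]
  rfl

end MPadcHM
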