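import Mathlib

/-!
# JOB RegA: over an algebraically closed field tensor products of domains are domains

Proof. `A ⊗ B` is nontrivial (`A → A ⊗ B` is injective, `B` is free over `k`). Let `β` be a `k`-basis of `B`
(`Module.Basis.ofVectorSpace`); `Algebra.TensorProduct.basis A β : Module.Basis _ A (A ⊗[k] B)` (elements `1 ⊗ β_i`). Let `x y = 0`,
`x = ∑ x_i (1 ⊗ β_i)`, `y = ∑ y_i (1 ⊗ β_i)`, and suppose `x, y ≠ 0`: choose `i`, `j` with `x_i ≠ 0`, `y_j ≠ 0`. Let
`A₀ = Algebra.adjoin k (all coordinates of x and y)` (a finite set), a finitely generated `k`-algebra and a domain, and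
`s = x_i y_j ≠ 0` in `A₀`. Nullstellensatz: there is a `k`-algebra homomorphism `π : A₀ → k` with `π s ≠ 0`
(`Localization.Away s` is a nonzero finitely generated `k`-algebra; for a maximal ideal the quotient is finite over `k`
(`finite_of_finite_type_of_isJacobsonRing` or `Ideal.algebraMap_quotient_isIntegral...`), hence equal to `k`
(`IsAlgClosed.algebraMap_bijective_of_isIntegral`)). Let `x₀ = ∑ x_i ⊗ β_i`, `y₀` in `A₀ ⊗ B`; `A₀ ⊗ B → A ⊗ B` is injective
(`B` flat, `Module.Flat`), so `x₀ y₀ = 0`. Apply the ring homomorphism `A₀ ⊗ B → B`, `a ⊗ b ↦ π(a) b`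
(`Algebra.TensorProduct.lift`): `(∑ π(x_i) β_i)(∑ π(y_j) β_j) = 0` in the domain `B`, but both factors are nonzero since `β` is linearly independent
and `π(x_i) ≠ 0`, `π(y_j) ≠ 0`.
-/

set_option autoImplicit false

namespace MPadcHM

open scoped TensorProduct

private theorem regA_null {k A : Type*} [Field k] [IsAlgClosed k] [CommRing A] [IsDomain A]
    [Algebra k A] [Algebra.FiniteType k A] (s : A) (hs : s ≠ 0) :
    ∃ π : A →ₐ[k] k, π s ≠ 0 := by
  classical
  have hnt : Nontrivial (Localization.Away s) := by
    have hle : Submonoid.powers s ≤ nonZeroDivisors A := by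
      rintro _ ⟨n, rfl⟩
      exact mem_nonZeroDivisors_of_ne_zero (pow_ne_zero n hs)
    exact (IsLocalization.injective (Localization.Away s) hle).nontrivial
  have hft : Algebra.FiniteType A (Localization.Away s) :=
    IsLocalization.finiteType_of_monoid_fg (Submonoid.powers s) (Localization.Away s)
  have hft2 : Algebra.FiniteType k (Localization.Away s) :=
    Algebra.FiniteType.trans (S := A) inferInstance hft
  obtain ⟨m, hm⟩ := Ideal.exists_maximal (Localization.Away s)
  letI := Ideal.Quotient.field m
  haveI : Algebra.FiniteType k (Localization.Away s ⧸ m) :=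
    Algebra.FiniteType.of_surjective (Ideal.Quotient.mkₐ k m) (Ideal.Quotient.mkₐ_surjective k m)
  haveI : Module.Finite k (Localization.Away s ⧸ m) :=
    finite_of_finite_type_of_isJacobsonRing k (Localization.Away s ⧸ m)
  haveI : Algebra.IsIntegral k (Localization.Away s ⧸ m) := Algebra.IsIntegral.of_finite k _
  have hbij := IsAlgClosed.algebraMap_bijective_of_isIntegral (k := k) (K := Localization.Away s ⧸ m)
  let e : k ≃ₐ[k] (Localization.Away s ⧸ m) :=
    AlgEquiv.ofBijective (Algebra.ofId k (Localization.Away s ⧸ m)) hbij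
  let π : A →ₐ[k] k := (e.symm : (Localization.Away s ⧸ m) →ₐ[k] k).comp
    ((Ideal.Quotient.mkₐ k m).comp (IsScalarTower.toAlgHom k A (Localization.Away s)))
  refine ⟨π, ?_⟩
  have hu : IsUnit (algebraMap A (Localization.Away s) s) := IsLocalization.Away.algebraMap_isUnit s
  have hu2 : IsUnit (π s) := by
    have := (hu.map (Ideal.Quotient.mkₐ k m)).map (e.symm : (Localization.Away s ⧸ m) →ₐ[k] k)
    exact this
  exact hu2.ne_zero

theorem tensor_isDomain_of_isAlgClosed {k A B : Type*} [Field k] [IsAlgClosed k] [CommRing A]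
    [IsDomain A] [Algebra k A] [CommRing B] [IsDomain B] [Algebra k B] :
    IsDomain (A ⊗[k] B) := by
  classical
  have hinjA : Function.Injective (algebraMap A (A ⊗[k] B)) := by
    have : Module.Free A (A ⊗[k] B) := inferInstance
    haveI : Nontrivial B := inferInstance
    exact Algebra.TensorProduct.includeLeft_injective (S := k) (FaithfulSMul.algebraMap_injective k B)
  haveI : Nontrivial (A ⊗[k] B) := hinjA.nontrivial
  haveI : NoZeroDivisors (A ⊗[k] B) := by
    constructor
    intro x y hxy
    by_contra hcon
    push Not at hcon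
    obtain ⟨hx, hy⟩ := hcon
    let β := Module.Basis.ofVectorSpace k B
    let bA := Algebra.TensorProduct.basis A β
    have hbA : ∀ i, bA i = (1 : A) ⊗ₜ[k] β i := fun i => Algebra.TensorProduct.basis_apply β i
    obtain ⟨i, hi⟩ : ∃ i, bA.repr x i ≠ 0 := by
      by_contra h
      push Not at h
      apply hx
      apply bA.repr.injective
      ext j
      simp [h j]
    obtain ⟨j, hj⟩ : ∃ j, bA.repr y j ≠ 0 := by
      by_contra h
      push Not at h
      apply hy
      apply bA.repr.injective
      ext j
      simp [h j]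
    let S : Finset A := (bA.repr x).support.image (fun i => bA.repr x i) ∪
      (bA.repr y).support.image (fun i => bA.repr y i)
    let A0 : Subalgebra k A := Algebra.adjoin k (S : Set A)
    haveI : Algebra.FiniteType k A0 := by
      have : A0.FG := ⟨S, rfl⟩
      exact (Subalgebra.fg_iff_finiteType A0).1 this
    have hxm : ∀ i, bA.repr x i ∈ A0 := by
      intro i
      by_cases h : bA.repr x i = 0
      · rw [h]; exact A0.zero_mem
      · refine Algebra.subset_adjoin ?_
        simp only [S, Finset.coe_union, Finset.coe_image]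
        left
        exact ⟨i, by simpa using h, rfl⟩
    have hym : ∀ i, bA.repr y i ∈ A0 := by
      intro i
      by_cases h : bA.repr y i = 0
      · rw [h]; exact A0.zero_mem
      · refine Algebra.subset_adjoin ?_
        simp only [S, Finset.coe_union, Finset.coe_image]
        right
        exact ⟨i, by simpa using h, rfl⟩
    let x0 : A0 ⊗[k] B := ∑ i ∈ (bA.repr x).support, (⟨bA.repr x i, hxm i⟩ : A0) ⊗ₜ[k] β i
    let y0 : A0 ⊗[k] B := ∑ i ∈ (bA.repr y).support, (⟨bA.repr y i, hym i⟩ : A0) ⊗ₜ[k] β i
    let ι : A0 ⊗[k] B →ₐ[k] A ⊗[k] B := Algebra.TensorProduct.map A0.val (AlgHom.id k B)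
    have hι : Function.Injective ι := by
      have h := Module.Flat.rTensor_preserves_injective_linearMap (M := B) (A0.val.toLinearMap)
        Subtype.val_injective
      exact h
    have hx0 : ι x0 = x := by
      have h1 : x = ∑ i ∈ (bA.repr x).support, bA.repr x i • bA i := by
        conv_lhs => rw [← bA.linearCombination_repr x]
        rfl
      rw [h1]
      simp only [x0, ι, map_sum, Algebra.TensorProduct.map_tmul, hbA]
      refine Finset.sum_congr rfl ?_
      intro i _
      rw [TensorProduct.smul_tmul', smul_eq_mul, mul_one]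
      rfl
    have hy0 : ι y0 = y := by
      have h1 : y = ∑ i ∈ (bA.repr y).support, bA.repr y i • bA i := by
        conv_lhs => rw [← bA.linearCombination_repr y]
        rfl
      rw [h1]
      simp only [y0, ι, map_sum, Algebra.TensorProduct.map_tmul, hbA]
      refine Finset.sum_congr rfl ?_
      intro i _
      rw [TensorProduct.smul_tmul', smul_eq_mul, mul_one]
      rfl
    have h0 : x0 * y0 = 0 := by
      apply hι
      rw [map_mul, hx0, hy0, hxy, map_zero]
    have hs : (⟨bA.repr x i, hxm i⟩ : A0) * ⟨bA.repr y j, hym j⟩ ≠ 0 := by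
      intro h
      have h2 := congrArg Subtype.val h
      have h3 : bA.repr x i * bA.repr y j = 0 := h2
      rcases mul_eq_zero.1 h3 with h4 | h4
      · exact hi h4
      · exact hj h4
    obtain ⟨π, hπ⟩ := regA_null (k := k) _ hs
    rw [map_mul] at hπ
    have hπx := left_ne_zero_of_mul hπ
    have hπy := right_ne_zero_of_mul hπ
    let φ : A0 ⊗[k] B →ₐ[k] B := Algebra.TensorProduct.lift ((Algebra.ofId k B).comp π) (AlgHom.id k B)
      (fun _ _ => mul_comm _ _)
    have hφ : ∀ (a : A0) (b : B), φ (a ⊗ₜ b) = π a • b := by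
      intro a b
      simp only [φ]
      rw [Algebra.smul_def]
      rfl
    have hxi : β.repr (φ x0) i = π ⟨bA.repr x i, hxm i⟩ := by
      simp only [x0, map_sum, hφ, map_smul, Module.Basis.repr_self, Finsupp.coe_finsetSum,
        Finset.sum_apply, Finsupp.smul_apply, Finsupp.single_apply, smul_eq_mul, mul_ite, mul_one,
        mul_zero]
      rw [Finset.sum_ite_eq' (bA.repr x).support i]
      rw [if_pos (by simpa using hi)]
    have hyj : β.repr (φ y0) j = π ⟨bA.repr y j, hym j⟩ := by
      simp only [y0, map_sum, hφ, map_smul, Module.Basis.repr_self, Finsupp.coe_finsetSum,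
        Finset.sum_apply, Finsupp.smul_apply, Finsupp.single_apply, smul_eq_mul, mul_ite, mul_one,
        mul_zero]
      rw [Finset.sum_ite_eq' (bA.repr y).support j]
      rw [if_pos (by simpa using hj)]
    have h1 : φ x0 * φ y0 = 0 := by rw [← map_mul, h0, map_zero]
    rcases mul_eq_zero.1 h1 with h2 | h2
    · rw [h2] at hxi
      apply hπx
      rw [← hxi]; simp
    · rw [h2] at hyj
      apply hπy
      rw [← hyj]; simp
  exact NoZeroDivisors.to_isDomain _

end MPadcHM
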