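import Pool.Agent.Lib.MP_adc574_ag_HM.Defs

/-!
# JOB LocA: the horizontal rank one endomorphism `a lᵀ`

`Γ` is a matrix of power series with `Γ(0) = A0 = a0 l0ᵀ`, `l0 . a0 = α`, so `A0² = α A0`.
Write `a = ∑ a_m X^m`. The equation `X a' = - Γ a + α a` says, for every `m`: `m a_m = - ∑_{i+j=m} Γ_i a_j + α a_m`, i.e.
`(m - α + A0) a_m = - ∑_{i=1}^m Γ_i a_{m-i}`. `m = 0`: `A0 a0 = α a0` holds. For `m ≥ 1` define recursively
`a_m = (m - α)⁻¹ (1 - A0 / m) RHS` (`m - α ≠ 0` by `hα'`; `(m - α + A0)(1 - A0/m) = m - α` because `A0² = α A0`).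
Similarly `X l' = Γᵀ l - α l`: `(m + α - A0ᵀ) l_m = ∑_{i=1}^m Γ_iᵀ l_{m-i}`, `l_m = (m + α)⁻¹ (1 + A0ᵀ / m) RHS`.
Finally `X (l . a)' = (Γᵀ l - α l) . a + l . (- Γ a + α a) = 0`, so `l . a` is a constant (characteristic 0), namely `l0 . a0 = α`.
(Recursive definition: `Nat.strongRec`, or `PowerSeries.mk` of a strongly recursive function `ℕ → (ι → F)`; compare
`exists_horizontal` in `Pool/Agent/Lib/MP_adc574_ag_LP/Residue.lean`, which is the case `α = 0` of the first equation.)
-/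

set_option autoImplicit false

namespace MPadcHM

open PowerSeries

variable {ι : Type} [Fintype ι] [DecidableEq ι]

/-- the recursion -/
private def LocA_c {F : Type*} [Field F] (G : ℕ → Matrix ι ι F) (inv : ℕ → Matrix ι ι F) (h0 : ι → F) : ℕ → ι → F
  | 0 => h0
  | (m + 1) => (inv (m + 1)).mulVec
      (∑ b : Fin (m + 1), (G (m + 1 - b.1)).mulVec (LocA_c G inv h0 b.1))

private theorem LocA_gen {F : Type*} [Field F] (G : Matrix ι ι F⟦X⟧) (G0 : Matrix ι ι F)
    (hG : ∀ i j, constantCoeff (G i j) = G0 i j) (h0 : ι → F) (hh0 : G0.mulVec h0 = 0)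
    (inv : ℕ → Matrix ι ι F) (hinv : ∀ m : ℕ, 1 ≤ m → ((m : F) • (1 : Matrix ι ι F) - G0) * inv m = 1) :
    ∃ h : ι → F⟦X⟧, (∀ i, constantCoeff (h i) = h0 i) ∧
      ∀ i, X * derivative F (h i) = G.mulVec h i := by
  set Gc : ℕ → Matrix ι ι F := fun a => Matrix.of fun i j => coeff a (G i j) with hGc
  have hG0 : Gc 0 = G0 := by
    ext a b
    simp only [hGc, Matrix.of_apply]
    rw [coeff_zero_eq_constantCoeff_apply, hG]
  have hc0 : LocA_c Gc inv h0 0 = h0 := by rw [LocA_c]
  have hrec : ∀ m : ℕ, ((m + 1 : ℕ) : F) • LocA_c Gc inv h0 (m + 1) - G0.mulVec (LocA_c Gc inv h0 (m + 1)) =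
      ∑ b ∈ Finset.range (m + 1), (Gc (m + 1 - b)).mulVec (LocA_c Gc inv h0 b) := by
    intro m
    have h1 : LocA_c Gc inv h0 (m + 1) = (inv (m + 1)).mulVec
        (∑ b ∈ Finset.range (m + 1), (Gc (m + 1 - b)).mulVec (LocA_c Gc inv h0 b)) := by
      rw [LocA_c, Finset.sum_range]
    have h2 := hinv (m + 1) (by omega)
    generalize (∑ b ∈ Finset.range (m + 1), (Gc (m + 1 - b)).mulVec (LocA_c Gc inv h0 b)) = w at h1
    rw [h1]
    have h3 : ((m + 1 : ℕ) : F) • (inv (m + 1)).mulVec w - G0.mulVec ((inv (m + 1)).mulVec w) =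
        (((m + 1 : ℕ) : F) • (1 : Matrix ι ι F) - G0).mulVec ((inv (m + 1)).mulVec w) := by
      rw [Matrix.sub_mulVec, Matrix.smul_mulVec, Matrix.one_mulVec]
    rw [h3, Matrix.mulVec_mulVec, h2, Matrix.one_mulVec]
  refine ⟨fun i => PowerSeries.mk fun k => LocA_c Gc inv h0 k i, ?_, ?_⟩
  · intro i
    rw [← coeff_zero_eq_constantCoeff_apply, coeff_mk, hc0]
  · intro i
    ext k
    have hmul : coeff k (G.mulVec (fun i => PowerSeries.mk fun k => LocA_c Gc inv h0 k i) i)
        = ∑ b ∈ Finset.range (k + 1), (Gc (k - b)).mulVec (LocA_c Gc inv h0 b) i := by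
      simp only [Matrix.mulVec, dotProduct]
      rw [map_sum, Finset.sum_comm]
      refine Finset.sum_congr rfl fun j _ => ?_
      rw [mul_comm, coeff_mul, Finset.Nat.sum_antidiagonal_eq_sum_range_succ_mk]
      refine Finset.sum_congr rfl fun b _ => ?_
      simp only [coeff_mk, hGc, Matrix.of_apply]
      rw [mul_comm]
    rw [hmul, Finset.sum_range_succ, Nat.sub_self, hG0]
    cases k with
    | zero =>
      rw [coeff_zero_X_mul, Finset.sum_range_zero, hc0, hh0]
      simp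
    | succ k =>
      have h1 := congrFun (hrec k) i
      rw [coeff_succ_X_mul, coeff_derivative, coeff_mk]
      rw [Pi.sub_apply, Pi.smul_apply, smul_eq_mul, Finset.sum_apply] at h1
      push_cast at h1 ⊢
      linear_combination h1

private theorem LocA_sq {F : Type*} [Field F] (a0 l0 : ι → F) (α : F) (hα : ∑ i, l0 i * a0 i = α) :
    (Matrix.of fun i j => a0 i * l0 j) * (Matrix.of fun i j => a0 i * l0 j) =
      α • (Matrix.of fun i j => a0 i * l0 j) := by
  ext i j
  rw [Matrix.mul_apply, Matrix.smul_apply, smul_eq_mul, ← hα, Finset.sum_mul]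
  simp only [Matrix.of_apply]
  refine Finset.sum_congr rfl fun k _ => ?_
  ring

private theorem LocA_sqT {F : Type*} [Field F] (a0 l0 : ι → F) (α : F) (hα : ∑ i, l0 i * a0 i = α) :
    (Matrix.of fun i j => a0 j * l0 i) * (Matrix.of fun i j => a0 j * l0 i) =
      α • (Matrix.of fun i j => a0 j * l0 i) := by
  ext i j
  rw [Matrix.mul_apply, Matrix.smul_apply, smul_eq_mul, ← hα, Finset.sum_mul]
  simp only [Matrix.of_apply]
  refine Finset.sum_congr rfl fun k _ => ?_
  ring

private theorem LocA_inv {F : Type*} [Field F] {N : Matrix ι ι F} {α m : F} (hN : N * N = α • N)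
    (hm : m ≠ 0) (hmα : m - α ≠ 0) :
    (m • (1 : Matrix ι ι F) - (α • (1 : Matrix ι ι F) - N)) * ((m - α)⁻¹ • (1 - m⁻¹ • N)) = 1 := by
  have h1 : m • (1 : Matrix ι ι F) - (α • (1 : Matrix ι ι F) - N) = (m - α) • (1 : Matrix ι ι F) + N := by
    rw [sub_smul]
    abel
  have h2 : ((m - α) • (1 : Matrix ι ι F) + N) * (1 - m⁻¹ • N) = (m - α) • (1 : Matrix ι ι F) := by
    rw [mul_sub, mul_one, add_mul, Matrix.smul_mul, one_mul, Matrix.mul_smul, hN, smul_smul, smul_smul]
    have h3 : ((m - α) * m⁻¹) • N + (m⁻¹ * α) • N = N := by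
      rw [← add_smul]
      have h4 : (m - α) * m⁻¹ + m⁻¹ * α = 1 := by
        field_simp
        ring
      rw [h4, one_smul]
    rw [h3]
    abel
  rw [h1, Matrix.mul_smul, h2, smul_smul, inv_mul_cancel₀ hmα, one_smul]

theorem exists_series_a {F : Type*} [Field F] [CharZero F] (Γ : Matrix ι ι F⟦X⟧) (a0 l0 : ι → F)
    (α : F) (hΓ : ∀ i j, constantCoeff (Γ i j) = a0 i * l0 j) (hα : ∑ i, l0 i * a0 i = α)
    (hα' : α = 0 ∨ ∀ m : ℤ, α ≠ m) :
    ∃ a : ι → F⟦X⟧, (∀ i, constantCoeff (a i) = a0 i) ∧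
      ∀ i, X * derivative F (a i) = -(Γ.mulVec a i) + C α * a i := by
  obtain ⟨N, hN⟩ : ∃ N : Matrix ι ι F, N = Matrix.of fun i j => a0 i * l0 j := ⟨_, rfl⟩
  have hNN : N * N = α • N := by
    rw [hN]
    exact LocA_sq a0 l0 α hα
  have hNa : N.mulVec a0 = α • a0 := by
    funext i
    rw [hN, Matrix.mulVec, dotProduct, Pi.smul_apply, smul_eq_mul, ← hα, Finset.sum_mul]
    simp only [Matrix.of_apply]
    refine Finset.sum_congr rfl fun k _ => ?_
    ring
  obtain ⟨h, h1, h2⟩ := LocA_gen (-Γ + (C α : F⟦X⟧) • (1 : Matrix ι ι F⟦X⟧)) (α • (1 : Matrix ι ι F) - N)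
    (by
      intro i j
      rw [Matrix.add_apply, Matrix.neg_apply, map_add, map_neg, hΓ, Matrix.sub_apply, Matrix.smul_apply,
        Matrix.smul_apply, hN, smul_eq_mul, smul_eq_mul, map_mul, constantCoeff_C, Matrix.of_apply]
      by_cases hij : i = j
      · subst hij
        rw [Matrix.one_apply_eq, Matrix.one_apply_eq, map_one]
        ring
      · rw [Matrix.one_apply_ne hij, Matrix.one_apply_ne hij, map_zero]
        ring)
    a0 (by rw [Matrix.sub_mulVec, Matrix.smul_mulVec, Matrix.one_mulVec, hNa, sub_self])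
    (fun m => ((m : F) - α)⁻¹ • (1 - (m : F)⁻¹ • N))
    (by
      intro m hm
      refine LocA_inv hNN (by exact_mod_cast (by omega : m ≠ 0)) ?_
      rcases hα' with h | h
      · rw [h, sub_zero]
        exact_mod_cast (by omega : m ≠ 0)
      · intro h2
        apply h (m : ℤ)
        push_cast
        linear_combination -h2)
  refine ⟨h, h1, fun i => ?_⟩
  rw [h2 i, Matrix.add_mulVec, Matrix.neg_mulVec, Matrix.smul_mulVec, Matrix.one_mulVec]
  rfl

theorem exists_series_l {F : Type*} [Field F] [CharZero F] (Γ : Matrix ι ι F⟦X⟧) (a0 l0 : ι → F)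
    (α : F) (hΓ : ∀ i j, constantCoeff (Γ i j) = a0 i * l0 j) (hα : ∑ i, l0 i * a0 i = α)
    (hα' : α = 0 ∨ ∀ m : ℤ, α ≠ m) :
    ∃ l : ι → F⟦X⟧, (∀ i, constantCoeff (l i) = l0 i) ∧
      ∀ j, X * derivative F (l j) = (∑ i, Γ i j * l i) - C α * l j := by
  obtain ⟨N, hN⟩ : ∃ N : Matrix ι ι F, N = Matrix.of fun i j => a0 j * l0 i := ⟨_, rfl⟩
  have hNN : N * N = α • N := by
    rw [hN]
    exact LocA_sqT a0 l0 α hα
  have hNN' : (-N) * (-N) = (-α) • (-N) := by
    rw [neg_mul_neg, hNN, neg_smul_neg]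
  have hNl : N.mulVec l0 = α • l0 := by
    funext i
    rw [hN, Matrix.mulVec, dotProduct, Pi.smul_apply, smul_eq_mul, ← hα, Finset.sum_mul]
    simp only [Matrix.of_apply]
    refine Finset.sum_congr rfl fun k _ => ?_
    ring
  obtain ⟨h, h1, h2⟩ := LocA_gen (Γ.transpose - (C α : F⟦X⟧) • (1 : Matrix ι ι F⟦X⟧))
    ((-α) • (1 : Matrix ι ι F) - (-N))
    (by
      intro i j
      rw [Matrix.sub_apply, Matrix.transpose_apply, map_sub, hΓ, Matrix.sub_apply, Matrix.smul_apply,
        Matrix.smul_apply, Matrix.neg_apply, hN, smul_eq_mul, smul_eq_mul, map_mul, constantCoeff_C,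
        Matrix.of_apply]
      by_cases hij : i = j
      · subst hij
        rw [Matrix.one_apply_eq, Matrix.one_apply_eq, map_one]
        ring
      · rw [Matrix.one_apply_ne hij, Matrix.one_apply_ne hij, map_zero]
        ring)
    l0 (by
      rw [Matrix.sub_mulVec, Matrix.smul_mulVec, Matrix.one_mulVec, Matrix.neg_mulVec, hNl, neg_smul,
        sub_neg_eq_add, neg_add_cancel])
    (fun m => ((m : F) - (-α))⁻¹ • (1 - (m : F)⁻¹ • (-N)))
    (by
      intro m hm
      refine LocA_inv hNN' (by exact_mod_cast (by omega : m ≠ 0)) ?_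
      rcases hα' with h | h
      · rw [h, neg_zero, sub_zero]
        exact_mod_cast (by omega : m ≠ 0)
      · intro h2
        apply h (-(m : ℤ))
        push_cast
        linear_combination h2)
  refine ⟨h, h1, fun j => ?_⟩
  rw [h2 j, Matrix.sub_mulVec, Matrix.smul_mulVec, Matrix.one_mulVec]
  rfl

theorem series_pair {F : Type*} [Field F] [CharZero F] (Γ : Matrix ι ι F⟦X⟧) (α : F)
    (a l : ι → F⟦X⟧) (ha : ∀ i, X * derivative F (a i) = -(Γ.mulVec a i) + C α * a i)
    (hl : ∀ j, X * derivative F (l j) = (∑ i, Γ i j * l i) - C α * l j)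
    (h0 : ∑ i, constantCoeff (l i) * constantCoeff (a i) = α) :
    ∑ i, l i * a i = C α := by
  have hX : X * derivative F (∑ i, l i * a i) = 0 := by
    rw [map_sum, Finset.mul_sum]
    have h1 : ∀ i, X * derivative F (l i * a i) =
        ((∑ k, Γ k i * l k) * a i) - l i * Γ.mulVec a i := by
      intro i
      rw [Derivation.leibniz, smul_eq_mul, smul_eq_mul]
      linear_combination l i * ha i + a i * hl i
    rw [Finset.sum_congr rfl fun i _ => h1 i, Finset.sum_sub_distrib, sub_eq_zero]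
    simp only [Matrix.mulVec, dotProduct, Finset.sum_mul, Finset.mul_sum]
    rw [Finset.sum_comm]
    refine Finset.sum_congr rfl fun i _ => Finset.sum_congr rfl fun j _ => ?_
    ring
  have hX' : derivative F (∑ i, l i * a i) = 0 := by
    rcases mul_eq_zero.1 hX with h | h
    · exact absurd h X_ne_zero
    · exact h
  refine derivative.ext ?_ ?_
  · rw [hX', derivative_C]
  · rw [map_sum, constantCoeff_C, ← h0]
    refine Finset.sum_congr rfl fun i _ => ?_
    rw [map_mul]

end MPadcHM
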