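import Pool.Agent.Lib.MP_adc574_ag_HM.Defs

/-!
# Definitions for the final statement
-/

set_option autoImplicit false

namespace MPadcHM

open MvPolynomial

universe u

/-- The affine part `Φ(1, x_1, …, x_n)`. -/
noncomputable def aff {R : Type*} [CommRing R] {n : ℕ} (Φ : MvPolynomial (Fin (n + 1)) R) :
    MvPolynomial (Fin n) R :=
  aeval (Fin.cons 1 X : Fin (n + 1) → MvPolynomial (Fin n) R) Φ

/-- The part at infinity `Φ(0, x_1, …, x_n)`. -/
noncomputable def bdr {R : Type*} [CommRing R] {n : ℕ} (Φ : MvPolynomial (Fin (n + 1)) R) :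
    MvPolynomial (Fin n) R :=
  aeval (Fin.cons 0 X : Fin (n + 1) → MvPolynomial (Fin n) R) Φ

/-- `δ` stays irreducible modulo infinitely many primes: for every finitely generated subring `R`
of `k₀` which contains the coefficients of `δ` and every `r ≠ 0` in `R` there are arbitrarily large
primes `p` and homomorphisms `ψ` from `R` to fields of characteristic `p` with `ψ r ≠ 0` such that
the image of `δ` under `ψ` is irreducible. -/
def IrrModP {k₀ : Type u} [Field k₀] (δ : Polynomial k₀) : Prop :=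
  ∀ R : Subalgebra ℤ k₀, R.FG → ∀ δR : Polynomial R, δR.map (algebraMap R k₀) = δ →
    ∀ r : R, r ≠ 0 → ∀ p₀ : ℕ, ∃ p : ℕ, p.Prime ∧ p₀ < p ∧
      ∃ (E : Type u) (_ : Field E) (_ : CharP E p) (ψ : R →+* E), ψ r ≠ 0 ∧
        Irreducible (δR.map ψ)

end MPadcHM
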