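import Pool.Agent.Lib.MP_adc574_ag_HM.FamDefs

/-!
# Chain rule and naturality

`th_pderiv`: induction on `c` (`MvPolynomial.induction_on`): constants: both sides `0` (`pderiv_C`); sums: linear; `c * X j`: Leibniz rule on both sides
(`pderiv_mul`, `pderiv_X`, `Pi.single_apply`), the new term is `th g c * pderiv l (- pderiv j g) = - th g c * hess`.
`ez_pderiv`: induction on `q` (`Polynomial.induction_on'`: sums and monomials `c T ^ k`): `pderiv l (th g c * z ^ k) = pderiv l (th g c) * z ^ k + th g c * k z ^ (k-1) * pderiv l z`
(`Derivation.leibniz_pow`), `pb i (monomial k c) = monomial k (pderiv i c)`, `Polynomial.derivative_monomial`. First prove that `pb i` is additive (`Polynomial.sum_add_index`).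
Naturality: `pderiv_map : pderiv i (map f p) = map f (pderiv i p)`; ring homomorphisms which agree on constants and variables (`MvPolynomial.induction_on` or `ringHom_ext`, `Polynomial.ringHom_ext`).
-/

set_option autoImplicit false

namespace MPadcHM

open MvPolynomial

section

variable {R R' : Type*} [CommRing R] [CommRing R'] {n : ℕ} (f : R →+* R')

theorem th_C (g : MvPolynomial (Fin n) R) (a : R) : th g (C a) = C a := by
  rw [th, aeval_C]
  rfl

theorem th_X (g : MvPolynomial (Fin n) R) (i : Fin n) : th g (X i) = - pderiv i g := by
  rw [th, aeval_X]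

theorem ez_C (g z : MvPolynomial (Fin n) R) (c : MvPolynomial (Fin n) R) : ez g z (Polynomial.C c) = th g c := by
  rw [ez, Polynomial.coe_eval₂RingHom, Polynomial.eval₂_C]
  rfl

theorem ez_X (g z : MvPolynomial (Fin n) R) : ez g z Polynomial.X = z := by
  rw [ez, Polynomial.coe_eval₂RingHom, Polynomial.eval₂_X]

theorem pb_add (i : Fin n) (p q : Polynomial (MvPolynomial (Fin n) R)) : pb i (p + q) = pb i p + pb i q := by
  unfold pb
  apply Polynomial.sum_add_index
  · intro k
    rw [map_zero, Polynomial.monomial_zero_right]
  · intro k a b
    rw [map_add, map_add]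

theorem pb_monomial (i : Fin n) (k : ℕ) (c : MvPolynomial (Fin n) R) :
    pb i (Polynomial.monomial k c) = Polynomial.monomial k (pderiv i c) := by
  unfold pb
  apply Polynomial.sum_monomial_index
  rw [map_zero, Polynomial.monomial_zero_right]

theorem th_pderiv (g c : MvPolynomial (Fin n) R) (l : Fin n) :
    pderiv l (th g c) = - ∑ i, th g (pderiv i c) * pderiv l (pderiv i g) := by
  induction c using MvPolynomial.induction_on with
  | C a =>
    rw [th_C, pderiv_C]
    simp
  | add p q hp hq =>
    rw [map_add, map_add, hp, hq, ← neg_add, ← Finset.sum_add_distrib]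
    congr 1
    apply Finset.sum_congr rfl
    intro i _
    rw [map_add, map_add, add_mul]
  | mul_X p j hp =>
    rw [map_mul, th_X, pderiv_mul, hp, map_neg]
    have key : ∀ i : Fin n, th g (pderiv i (p * X j)) * pderiv l (pderiv i g) =
        (th g (pderiv i p) * pderiv l (pderiv i g)) * (- pderiv j g) +
        (if i = j then th g p * pderiv l (pderiv i g) else 0) := by
      intro i
      rw [pderiv_mul, map_add, map_mul, th_X, pderiv_X, map_mul]
      by_cases h : i = j
      · subst h
        rw [Pi.single_eq_same, map_one, if_pos rfl]
        ring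
      · rw [Pi.single_eq_of_ne' h, map_zero, if_neg h]
        ring
    rw [Finset.sum_congr rfl (fun i _ => key i), Finset.sum_add_distrib, ← Finset.sum_mul,
      Finset.sum_ite_eq' Finset.univ j]
    simp only [Finset.mem_univ, if_true]
    ring

private theorem FamA_ez_monomial (g z : MvPolynomial (Fin n) R) (k : ℕ) (c : MvPolynomial (Fin n) R) :
    ez g z (Polynomial.monomial k c) = th g c * z ^ k := by
  rw [ez, Polynomial.coe_eval₂RingHom, Polynomial.eval₂_monomial]
  rfl

theorem ez_pderiv (g z : MvPolynomial (Fin n) R) (q : Polynomial (MvPolynomial (Fin n) R)) (l : Fin n) :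
    pderiv l (ez g z q) = - ∑ i, ez g z (pb i q) * pderiv l (pderiv i g) +
      ez g z (Polynomial.derivative q) * pderiv l z := by
  induction q using Polynomial.induction_on' with
  | add p q hp hq =>
    rw [map_add, map_add, hp, hq, Polynomial.derivative_add, map_add, add_mul]
    have : ∑ i, ez g z (pb i (p + q)) * pderiv l (pderiv i g) =
        ∑ i, ez g z (pb i p) * pderiv l (pderiv i g) + ∑ i, ez g z (pb i q) * pderiv l (pderiv i g) := by
      rw [← Finset.sum_add_distrib]
      apply Finset.sum_congr rfl
      intro i _
      rw [pb_add, map_add, add_mul]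
    rw [this]
    ring
  | monomial k c =>
    rw [Polynomial.derivative_monomial, FamA_ez_monomial, FamA_ez_monomial, pderiv_mul, th_pderiv]
    have h1 : pderiv l (z ^ k) = (k : MvPolynomial (Fin n) R) * z ^ (k - 1) * pderiv l z := by
      rw [Derivation.leibniz_pow, nsmul_eq_mul, smul_eq_mul, mul_assoc]
    have h2 : ∑ i, ez g z (pb i (Polynomial.monomial k c)) * pderiv l (pderiv i g) =
        (∑ i, th g (pderiv i c) * pderiv l (pderiv i g)) * z ^ k := by
      rw [Finset.sum_mul]
      apply Finset.sum_congr rfl
      intro i _
      rw [pb_monomial, FamA_ez_monomial]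
      ring
    rw [h1, h2, map_mul, map_natCast]
    ring

theorem th_map (g c : MvPolynomial (Fin n) R) : map f (th g c) = th (map f g) (map f c) := by
  induction c using MvPolynomial.induction_on with
  | C a => rw [th_C, map_C, th_C]
  | add p q hp hq => rw [map_add, map_add, hp, hq, map_add, map_add]
  | mul_X p j hp => rw [map_mul, map_mul, hp, th_X, map_mul, map_X, map_mul, th_X, map_neg, pderiv_map]

theorem ez_map (g z : MvPolynomial (Fin n) R) (q : Polynomial (MvPolynomial (Fin n) R)) :
    map f (ez g z q) = ez (map f g) (map f z) (q.map (map f)) := by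
  induction q using Polynomial.induction_on' with
  | add p q hp hq => rw [map_add, map_add, hp, hq, Polynomial.map_add, map_add]
  | monomial k c =>
    rw [FamA_ez_monomial, Polynomial.map_monomial, FamA_ez_monomial, map_mul, map_pow, th_map]

theorem vv_map (g : MvPolynomial (Fin n) R) : map f (vv g) = vv (map f g) := by
  unfold vv
  rw [map_sub, map_sum]
  congr 1
  apply Finset.sum_congr rfl
  intro l _
  rw [map_mul, map_X, pderiv_map]

theorem pb_map (i : Fin n) (q : Polynomial (MvPolynomial (Fin n) R)) : (pb i q).map (map f) = pb i (q.map (map f)) := by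
  induction q using Polynomial.induction_on' with
  | add p q hp hq => rw [pb_add, Polynomial.map_add, hp, hq, Polynomial.map_add, pb_add]
  | monomial k c =>
    rw [pb_monomial, Polynomial.map_monomial, Polynomial.map_monomial, pb_monomial, pderiv_map]

end

end MPadcHM
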