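import Pool.Agent.Lib.MP_adc574_ag_HM.FamA

/-!
# `th g` is injective over a field

Let `x i = - pderiv i g`. `B = MvPolynomial (Fin n) κ` is spanned over `S' = Algebra.adjoin κ (Set.range x)` by finitely many monomials (`Spn`; `th g c = aeval x c ∈ S'`,
`Algebra.adjoin_range_eq_range_aeval`), so it is a finite `S'`-module, integral, algebraic (`Module.Finite`, `Algebra.IsIntegral.of_finite`, `Algebra.IsIntegral.isAlgebraic`). `MvPolynomial.trdeg_of_isDomain` and
`isTranscendenceBasis_of_le_trdeg_of_finite` (Mathlib.RingTheory.AlgebraicIndependent.TranscendenceBasis) give `AlgebraicIndependent κ x`, which is the injectivity of `aeval x` (`AlgebraicIndependent` unfolds to `Injective (aeval x)`;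
`algebraicIndependent_iff_injective_aeval`).
-/

set_option autoImplicit false

namespace MPadcHM

open MvPolynomial

theorem th_injective {κ : Type*} [Field κ] {n : ℕ} {g : MvPolynomial (Fin n) κ} {s : Finset (Fin n →₀ ℕ)} (h : Spn g s) :
    Function.Injective (th g) := by
  classical
  let x : Fin n → MvPolynomial (Fin n) κ := fun i => - pderiv i g
  have hfin : Module.Finite (Algebra.adjoin κ (Set.range x)) (MvPolynomial (Fin n) κ) := by
    refine ⟨⟨s.image (fun e => (monomial e (1 : κ) : MvPolynomial (Fin n) κ)), ?_⟩⟩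
    rw [eq_top_iff]
    intro P _
    obtain ⟨c, hc⟩ := h P
    rw [hc]
    refine Submodule.sum_mem _ ?_
    intro e he
    have hmem : th g (c e) ∈ Algebra.adjoin κ (Set.range x) := by
      rw [Algebra.adjoin_range_eq_range_aeval]
      exact ⟨c e, rfl⟩
    have h1 : th g (c e) * monomial e (1 : κ) =
        (⟨th g (c e), hmem⟩ : Algebra.adjoin κ (Set.range x)) • (monomial e (1 : κ) : MvPolynomial (Fin n) κ) := rfl
    rw [h1]
    refine Submodule.smul_mem _ _ (Submodule.subset_span ?_)
    rw [Finset.coe_image]
    exact ⟨e, he, rfl⟩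
  have hint : Algebra.IsIntegral (Algebra.adjoin κ (Set.range x)) (MvPolynomial (Fin n) κ) :=
    Algebra.IsIntegral.of_finite _ _
  have halg : Algebra.IsAlgebraic (Algebra.adjoin κ (Set.range x)) (MvPolynomial (Fin n) κ) :=
    Algebra.IsIntegral.isAlgebraic
  have hb : IsTranscendenceBasis κ x := by
    refine Algebra.IsAlgebraic.isTranscendenceBasis_of_lift_le_trdeg_of_finite κ x ?_
    rw [MvPolynomial.trdeg_of_isDomain]
    simp
  exact (algebraicIndependent_iff_injective_aeval.mp hb.1)

end MPadcHM
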