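import Pool.Agent.Lib.MP_adc574_ag_HM.FamC

/-!
# Equations of minimal degree

`exists_isMin`: there is a monic `q` with `ez g z q = 0`: Cayley-Hamilton: `z * monomial e 1 = ∑ e' ∈ s, th g (c e e') * monomial e' 1`; or: with the module structure of `B` over `S` given by `th g` (`RingHom.toModule`,
a finite module by `Spn`) the ring homomorphism `th g` is finite, hence integral (`RingHom.Finite.to_isIntegral`), `RingHom.IsIntegralElem` gives a monic `q` with `eval₂ (th g) z q = 0`.
Then take `q ≠ 0` with `ez g z q = 0` of minimal `natDegree` (`Nat.find` / well-founded minimum).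
`natDegree_pos`: if `m.natDegree = 0` then `m = C c`, `ez g z m = th g c = 0`, `c = 0`, `m = 0`. `deriv_ne`: `Polynomial.derivative m ≠ 0` has smaller degree (`Polynomial.natDegree_derivative_lt`,
`Polynomial.natDegree_eq_zero_of_derivative_eq_zero` in characteristic zero: `MvPolynomial (Fin n) κ` has characteristic zero and no zero divisors), minimality.
`irreducible`: `m.map` has positive degree (`Polynomial.natDegree_map_eq_of_injective`, `IsFractionRing.injective`), so it is not a unit and not zero. If `m.map = α * β` in `K[T]` with `α`, `β` not units, then both have degree `≥ 1`, so both have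
degree `< deg m`. Clear denominators: `IsLocalization.integerNormalization` (or `IsLocalization.exist_integer_multiples..`, `Polynomial`: `∃ a ∈ nonZeroDivisors, ∃ α', α'.map = C (algebraMap a) * α`), so `α'.map * β'.map = (C (a b) * m).map`,
`α' * β' = C (a b) * m` (injective), `ez g z α' * ez g z β' = 0` in the domain `B`, so `α'` or `β'` is a nonzero equation of smaller degree than `m`: contradiction.
`of_le`: trivial.
-/

set_option autoImplicit false

namespace MPadcHM

open MvPolynomial

private theorem FamD_fin {A B : Type*} [CommRing A] [CommRing B] (f : A →+* B) {ι : Type*}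
    (s : Finset ι) (b : ι → B) (h : ∀ P : B, ∃ c : ι → A, P = ∑ e ∈ s, f (c e) * b e) : f.Finite := by
  classical
  let _ := f.toAlgebra
  have h1 : Module.Finite A B := by
    refine ⟨⟨s.image b, ?_⟩⟩
    rw [eq_top_iff]
    rintro P -
    obtain ⟨c, hc⟩ := h P
    rw [hc]
    refine Submodule.sum_mem _ fun e he => ?_
    have h2 : f (c e) * b e = c e • b e := (Algebra.smul_def _ _).symm
    rw [h2]
    exact Submodule.smul_mem _ _ (Submodule.subset_span (Finset.mem_coe.2 (Finset.mem_image_of_mem b he)))
  exact h1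

private theorem FamD_norm {S K : Type*} [CommRing S] [IsDomain S] [Field K] [Algebra S K] [IsFractionRing S K]
    (α : Polynomial K) : ∃ (a : S) (α' : Polynomial S), a ≠ 0 ∧
      α'.map (algebraMap S K) = Polynomial.C (algebraMap S K a) * α := by
  obtain ⟨b, hb0, hb⟩ := IsLocalization.integerNormalization_spec (nonZeroDivisors S) α
  refine ⟨b, IsLocalization.integerNormalization (nonZeroDivisors S) α, nonZeroDivisors.ne_zero hb0, ?_⟩
  rw [hb]
  ext j
  rw [Polynomial.coeff_smul, Polynomial.coeff_C_mul, Algebra.smul_def]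

section

variable {κ : Type*} [Field κ] {n : ℕ} {g z : MvPolynomial (Fin n) κ} {m : Polynomial (MvPolynomial (Fin n) κ)}

theorem exists_isMin {s : Finset (Fin n →₀ ℕ)} (h : Spn g s) (z : MvPolynomial (Fin n) κ) : ∃ m, IsMin g z m := by
  have hf : (th g : MvPolynomial (Fin n) κ →+* MvPolynomial (Fin n) κ).Finite :=
    FamD_fin _ s (fun e => monomial e 1) h
  obtain ⟨q, hq1, hq2⟩ := hf.to_isIntegral z
  obtain ⟨m, hm, hmin⟩ := WellFounded.has_min (InvImage.wf (fun p : Polynomial (MvPolynomial (Fin n) κ) => p.natDegree)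
    Nat.lt_wfRel.wf) {p : Polynomial (MvPolynomial (Fin n) κ) | p ≠ 0 ∧ ez g z p = 0} ⟨q, hq1.ne_zero, hq2⟩
  exact ⟨m, hm.1, hm.2, fun p h1 h2 => not_lt.1 (hmin p ⟨h1, h2⟩)⟩

theorem IsMin.natDegree_pos (hinj : Function.Injective (th g)) (hm : IsMin g z m) : 0 < m.natDegree := by
  rw [Nat.pos_iff_ne_zero]
  intro h0
  have h1 := Polynomial.eq_C_of_natDegree_eq_zero h0
  have h2 := hm.2.1
  rw [h1, ez_C] at h2
  have h3 : m.coeff 0 = 0 := hinj (h2.trans (map_zero _).symm)
  exact hm.1 (by rw [h1, h3, Polynomial.C_0])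

theorem IsMin.deriv_ne [CharZero κ] (hinj : Function.Injective (th g)) (hm : IsMin g z m) :
    ez g z (Polynomial.derivative m) ≠ 0 := by
  intro h
  have hp := hm.natDegree_pos hinj
  have hne : Polynomial.derivative m ≠ 0 := by
    intro h0
    have := Polynomial.derivative_eq_zero.1 h0
    omega
  have h1 := hm.2.2 _ hne h
  have h2 := Polynomial.natDegree_derivative_lt hp.ne'
  omega

theorem IsMin.of_le (hm : IsMin g z m) {q : Polynomial (MvPolynomial (Fin n) κ)} (hq : q ≠ 0) (h0 : ez g z q = 0)
    (hd : q.natDegree ≤ m.natDegree) : IsMin g z q := by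
  exact ⟨hq, h0, fun q' h1 h2 => hd.trans (hm.2.2 q' h1 h2)⟩

theorem IsMin.irreducible (hinj : Function.Injective (th g)) (hm : IsMin g z m) (K : Type*) [Field K]
    [Algebra (MvPolynomial (Fin n) κ) K] [IsFractionRing (MvPolynomial (Fin n) κ) K] :
    Irreducible (m.map (algebraMap (MvPolynomial (Fin n) κ) K)) := by
  have hφ : Function.Injective (algebraMap (MvPolynomial (Fin n) κ) K) := IsFractionRing.injective _ K
  have hpos := hm.natDegree_pos hinj
  have hnd : ∀ q : Polynomial (MvPolynomial (Fin n) κ),
      (q.map (algebraMap (MvPolynomial (Fin n) κ) K)).natDegree = q.natDegree := fun q =>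
    Polynomial.natDegree_map_eq_of_injective hφ q
  have hM : (m.map (algebraMap (MvPolynomial (Fin n) κ) K)) ≠ 0 := by
    intro h0
    have h1 := hnd m
    rw [h0, Polynomial.natDegree_zero] at h1
    omega
  have key : ∀ (a : MvPolynomial (Fin n) κ) (α' : Polynomial (MvPolynomial (Fin n) κ)) (α : Polynomial K),
      a ≠ 0 → α ≠ 0 → α'.map (algebraMap (MvPolynomial (Fin n) κ) K) =
        Polynomial.C (algebraMap (MvPolynomial (Fin n) κ) K a) * α → ez g z α' = 0 →
      m.natDegree ≤ α.natDegree := by
    intro a α' α ha hα he h0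
    have ha' : algebraMap (MvPolynomial (Fin n) κ) K a ≠ 0 := fun h =>
      ha (hφ (h.trans (map_zero _).symm))
    have h1 : α' ≠ 0 := by
      intro h
      rw [h, Polynomial.map_zero] at he
      exact mul_ne_zero (Polynomial.C_ne_zero.2 ha') hα he.symm
    have h2 := hm.2.2 α' h1 h0
    rw [← hnd α', he, Polynomial.natDegree_C_mul ha'] at h2
    exact h2
  refine ⟨fun hu => ?_, fun α β hαβ => ?_⟩
  · have h1 := Polynomial.natDegree_eq_zero_of_isUnit hu
    rw [hnd m] at h1
    omega
  · by_contra hcon
    rw [not_or] at hcon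
    have hα0 : α ≠ 0 := by
      rintro rfl
      exact hM (by rw [hαβ, zero_mul])
    have hβ0 : β ≠ 0 := by
      rintro rfl
      exact hM (by rw [hαβ, mul_zero])
    have hα1 : 0 < α.natDegree := by
      rw [Nat.pos_iff_ne_zero]
      intro h
      refine hcon.1 ?_
      rw [Polynomial.isUnit_iff_degree_eq_zero, Polynomial.degree_eq_natDegree hα0, h]
      rfl
    have hβ1 : 0 < β.natDegree := by
      rw [Nat.pos_iff_ne_zero]
      intro h
      refine hcon.2 ?_
      rw [Polynomial.isUnit_iff_degree_eq_zero, Polynomial.degree_eq_natDegree hβ0, h]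
      rfl
    have hsum : α.natDegree + β.natDegree = m.natDegree := by
      rw [← hnd m, hαβ, Polynomial.natDegree_mul hα0 hβ0]
    obtain ⟨a, α', ha, hα'⟩ := FamD_norm (S := MvPolynomial (Fin n) κ) α
    obtain ⟨b, β', hb, hβ'⟩ := FamD_norm (S := MvPolynomial (Fin n) κ) β
    have hprod : α' * β' = Polynomial.C (a * b) * m := by
      refine Polynomial.map_injective _ hφ ?_
      rw [Polynomial.map_mul, Polynomial.map_mul, hα', hβ', Polynomial.map_C, map_mul,
        Polynomial.C_mul, hαβ]
      ring
    have h0 : ez g z α' * ez g z β' = 0 := by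
      rw [← map_mul, hprod, map_mul, hm.2.1, mul_zero]
    rcases mul_eq_zero.1 h0 with h1 | h1
    · have := key a α' α ha hα0 hα' h1
      omega
    · have := key b β' β hb hβ0 hβ' h1
      omega

end

end MPadcHM
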