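import Mathlib

/-!
# The family `φ = g + ∑ b_i x_i`: definitions

`S = R[b_1, …, b_n]` and `B = R[y_1, …, y_n]` are both `MvPolynomial (Fin n) R`. `th g : S → B`, `b_i ↦ - ∂_i g`;
`ez g z q` is the value at `z ∈ B` of a polynomial `q ∈ S[T]`; `pb i q` is the derivative of the coefficients by `b_i`;
`vv g = g - ∑ y_l ∂_l g` is the value of `φ` at its critical point `y`.
-/

set_option autoImplicit false

namespace MPadcHM

open MvPolynomial

section

variable {R : Type*} [CommRing R] {n : ℕ}

/-- `b_i ↦ - ∂_i g` -/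
noncomputable def th (g : MvPolynomial (Fin n) R) : MvPolynomial (Fin n) R →ₐ[R] MvPolynomial (Fin n) R :=
  aeval fun i => - pderiv i g

/-- the value at `z` of a polynomial with coefficients in `R[b]` -/
noncomputable def ez (g z : MvPolynomial (Fin n) R) : Polynomial (MvPolynomial (Fin n) R) →+* MvPolynomial (Fin n) R :=
  Polynomial.eval₂RingHom ((th g : MvPolynomial (Fin n) R →+* MvPolynomial (Fin n) R)) z

/-- the derivative of the coefficients by `b_i` -/
noncomputable def pb (i : Fin n) (q : Polynomial (MvPolynomial (Fin n) R)) : Polynomial (MvPolynomial (Fin n) R) :=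
  q.sum fun k c => Polynomial.monomial k (pderiv i c)

/-- the critical value -/
noncomputable def vv (g : MvPolynomial (Fin n) R) : MvPolynomial (Fin n) R := g - ∑ l, X l * pderiv l g

/-- the Hessian matrix -/
noncomputable def hess (g : MvPolynomial (Fin n) R) : Matrix (Fin n) (Fin n) (MvPolynomial (Fin n) R) :=
  Matrix.of fun i l => pderiv l (pderiv i g)

/-- `B` is spanned over `S` by the monomials with exponents in `s` -/
def Spn (g : MvPolynomial (Fin n) R) (s : Finset (Fin n →₀ ℕ)) : Prop :=
  ∀ P : MvPolynomial (Fin n) R, ∃ c : (Fin n →₀ ℕ) → MvPolynomial (Fin n) R, P = ∑ e ∈ s, th g (c e) * monomial e 1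

/-- `m` is an equation of minimal degree for `z` -/
def IsMin (g z : MvPolynomial (Fin n) R) (m : Polynomial (MvPolynomial (Fin n) R)) : Prop :=
  m ≠ 0 ∧ ez g z m = 0 ∧ ∀ q, q ≠ 0 → ez g z q = 0 → m.natDegree ≤ q.natDegree

end

end MPadcHM
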