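import Pool.Agent.Lib.MP_adc574_ag_HM.FamA
import Pool.Agent.Lib.MP_adc574_ag_HM.Defs

/-!
# Congruences modulo the Jacobian ideal of `φ = g + ∑ b_i x_i`

`pderiv j φ = map g_j + C (b j)`, so modulo `Jac φ` the constant `b j` is `- map (pderiv j g)`. Hence for `c ∈ κ₀[b]`: `C (aeval b c) - map (algebraMap κ₀ k₀) (th g c) ∈ Jac φ` (`th_congr`: induction on `c`, or two ring homomorphisms to the quotient), and
`φ - map (algebraMap κ₀ k₀) (vv g) ∈ Jac φ` (`φ = map g + ∑ C (b l) * X l`, `vv g = g - ∑ X l * pderiv l g`). `ker_lemma`: induction on `q` (`Polynomial.induction_on'`; powers: `Ideal.Quotient.eq`, ring homomorphisms to the quotient ring: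
both `q ↦ mk (aeval φ (q.map ..))` and `q ↦ mk (map (ez g (vv g) q))` are ring homomorphisms `S[T] → k₀[x]/Jac φ` which agree on `C c` and on `T`: `Polynomial.ringHom_ext`).
-/

set_option autoImplicit false

namespace MPadcHM

open MvPolynomial

theorem FamG_pderiv {κ₀ k₀ : Type*} [Field κ₀] [Field k₀] [Algebra κ₀ k₀] {n : ℕ} (b : Fin n → k₀)
    (g : MvPolynomial (Fin n) κ₀) (φ : MvPolynomial (Fin n) k₀)
    (hφ : φ = map (algebraMap κ₀ k₀) g + ∑ i, C (b i) * X i) (j : Fin n) :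
    map (algebraMap κ₀ k₀) (pderiv j g) + C (b j) ∈ Jac φ := by
  have h : pderiv j φ = map (algebraMap κ₀ k₀) (pderiv j g) + C (b j) := by
    rw [hφ, map_add, pderiv_map, map_sum]
    congr 1
    rw [Finset.sum_eq_single j]
    · rw [pderiv_C_mul, pderiv_X_self, mul_one]
    · intro i _ hi
      rw [pderiv_C_mul, pderiv_X_of_ne hi, mul_zero]
    · intro h
      exact absurd (Finset.mem_univ j) h
  rw [← h]
  exact Ideal.subset_span ⟨j, rfl⟩

theorem th_congr {κ₀ k₀ : Type*} [Field κ₀] [Field k₀] [Algebra κ₀ k₀] {n : ℕ} (b : Fin n → k₀)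
    (g : MvPolynomial (Fin n) κ₀) (φ : MvPolynomial (Fin n) k₀)
    (hφ : φ = map (algebraMap κ₀ k₀) g + ∑ i, C (b i) * X i) (c : MvPolynomial (Fin n) κ₀) :
    C (aeval b c) - map (algebraMap κ₀ k₀) (th g c) ∈ Jac φ := by
  rw [← Ideal.Quotient.eq]
  let h1 : MvPolynomial (Fin n) κ₀ →+* MvPolynomial (Fin n) k₀ ⧸ Jac φ :=
    (Ideal.Quotient.mk (Jac φ)).comp (C.comp (aeval b : MvPolynomial (Fin n) κ₀ →ₐ[κ₀] k₀).toRingHom)
  let h2 : MvPolynomial (Fin n) κ₀ →+* MvPolynomial (Fin n) k₀ ⧸ Jac φ :=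
    (Ideal.Quotient.mk (Jac φ)).comp ((map (algebraMap κ₀ k₀)).comp (th g).toRingHom)
  have h : h1 = h2 := by
    apply MvPolynomial.ringHom_ext
    · intro r
      change Ideal.Quotient.mk (Jac φ) (C (aeval b (C r))) =
        Ideal.Quotient.mk (Jac φ) (map (algebraMap κ₀ k₀) (th g (C r)))
      rw [th_C, map_C, aeval_C]
    · intro j
      change Ideal.Quotient.mk (Jac φ) (C (aeval b (X j))) =
        Ideal.Quotient.mk (Jac φ) (map (algebraMap κ₀ k₀) (th g (X j)))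
      rw [th_X, aeval_X, Ideal.Quotient.eq, map_neg, sub_neg_eq_add, add_comm]
      exact FamG_pderiv b g φ hφ j
  exact congrArg (fun f : MvPolynomial (Fin n) κ₀ →+* MvPolynomial (Fin n) k₀ ⧸ Jac φ => f c) h

theorem ker_lemma {κ₀ k₀ : Type*} [Field κ₀] [Field k₀] [Algebra κ₀ k₀] {n : ℕ} (b : Fin n → k₀)
    (g : MvPolynomial (Fin n) κ₀) (φ : MvPolynomial (Fin n) k₀)
    (hφ : φ = map (algebraMap κ₀ k₀) g + ∑ i, C (b i) * X i) (q : Polynomial (MvPolynomial (Fin n) κ₀)) :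
    Polynomial.aeval φ (q.map (aeval b : MvPolynomial (Fin n) κ₀ →ₐ[κ₀] k₀).toRingHom) -
      map (algebraMap κ₀ k₀) (ez g (vv g) q) ∈ Jac φ := by
  rw [← Ideal.Quotient.eq]
  let h1 : Polynomial (MvPolynomial (Fin n) κ₀) →+* MvPolynomial (Fin n) k₀ ⧸ Jac φ :=
    (Ideal.Quotient.mk (Jac φ)).comp ((Polynomial.aeval (R := k₀) φ).toRingHom.comp
      (Polynomial.mapRingHom (aeval b : MvPolynomial (Fin n) κ₀ →ₐ[κ₀] k₀).toRingHom))
  let h2 : Polynomial (MvPolynomial (Fin n) κ₀) →+* MvPolynomial (Fin n) k₀ ⧸ Jac φ :=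
    (Ideal.Quotient.mk (Jac φ)).comp ((map (algebraMap κ₀ k₀)).comp (ez g (vv g)))
  have h : h1 = h2 := by
    apply Polynomial.ringHom_ext
    · intro c
      change Ideal.Quotient.mk (Jac φ) (Polynomial.aeval φ
        ((Polynomial.C c).map (aeval b : MvPolynomial (Fin n) κ₀ →ₐ[κ₀] k₀).toRingHom)) =
        Ideal.Quotient.mk (Jac φ) (map (algebraMap κ₀ k₀) (ez g (vv g) (Polynomial.C c)))
      rw [ez_C, Polynomial.map_C, Polynomial.aeval_C, Ideal.Quotient.eq]
      exact th_congr b g φ hφ c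
    · change Ideal.Quotient.mk (Jac φ) (Polynomial.aeval φ
        ((Polynomial.X).map (aeval b : MvPolynomial (Fin n) κ₀ →ₐ[κ₀] k₀).toRingHom)) =
        Ideal.Quotient.mk (Jac φ) (map (algebraMap κ₀ k₀) (ez g (vv g) Polynomial.X))
      rw [ez_X, Polynomial.map_X, Polynomial.aeval_X, Ideal.Quotient.eq]
      have e : φ - map (algebraMap κ₀ k₀) (vv g) =
          ∑ l, X l * (map (algebraMap κ₀ k₀) (pderiv l g) + C (b l)) := by
        rw [vv, map_sub, map_sum]
        simp only [map_mul, map_X, mul_add, Finset.sum_add_distrib]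
        rw [hφ]
        have e2 : ∑ l, X l * C (b l) = ∑ l, C (b l) * (X l : MvPolynomial (Fin n) k₀) :=
          Finset.sum_congr rfl fun l _ => mul_comm _ _
        rw [e2]
        ring
      rw [e]
      exact Ideal.sum_mem _ fun l _ => Ideal.mul_mem_left _ _ (FamG_pderiv b g φ hφ l)
  exact congrArg (fun f : Polynomial (MvPolynomial (Fin n) κ₀) →+*
    MvPolynomial (Fin n) k₀ ⧸ Jac φ => f q) h

end MPadcHM
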