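import Pool.Agent.Lib.MP_adc574_ag_HM.FamB
import Pool.Agent.Lib.MP_adc574_ag_HM.FamH
import Pool.Agent.Lib.MP_adc574_ag_HM.FamR

/-!
# Reduction of an equation of minimal degree

Over `F`: `Spn (map f g) s` (`Spn.map`), `th (map f g)` is injective (`th_injective`), let `mp` be minimal for `vv (map f g)` (`exists_isMin`). `rep` with `q = (derivative m).map ..`, `r i = - (pb i m).map ..` (`ez_map`, `pb_map`, `vv_map`, `hd` reduced, `hder`),
then `semicont` with `z = vv g`, `N = mp.natDegree`: a nonzero `m₁` over `R` with `ez g (vv g) m₁ = 0`, `m₁.natDegree ≤ mp.natDegree`. Apply `ι` (injective: `MvPolynomial.map_injective`, `Polynomial.map_injective`): `m₁.map (map ι)` is a nonzero equation, so by minimality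
`m.natDegree = (m.map (map ι)).natDegree ≤ m₁.natDegree ≤ mp.natDegree`. `m.map (map f) ≠ 0` (`hlead`), it is an equation (`ez_map` and `ez g (vv g) m = 0`, which follows from the one over `κ` by injectivity) and has degree `≤ m.natDegree ≤ mp.natDegree`: `IsMin.of_le`.
-/

set_option autoImplicit false

namespace MPadcHM

open MvPolynomial

theorem isMin_red {R κ F : Type*} [CommRing R] [Field κ] [Field F] {n : ℕ} (ι : R →+* κ) (hι : Function.Injective ι)
    (f : R →+* F) (hf : Function.Surjective f) (g : MvPolynomial (Fin n) R) (s : Finset (Fin n →₀ ℕ)) (hs : Spn g s)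
    (m : Polynomial (MvPolynomial (Fin n) R)) (hm : IsMin (map ι g) (vv (map ι g)) (m.map (map ι)))
    (hd : ∀ i, ez g (vv g) (pb i m) + ez g (vv g) (Polynomial.derivative m) * X i = 0)
    (hlead : map f m.leadingCoeff ≠ 0) (hder : map f (ez g (vv g) (Polynomial.derivative m)) ≠ 0) :
    IsMin (map f g) (vv (map f g)) (m.map (map f)) := by
  have hsF : Spn (map f g) s := hs.map hf
  have hinj : Function.Injective (th (map f g)) := th_injective hsF
  obtain ⟨mp, hmp⟩ := exists_isMin hsF (vv (map f g))
  have eV : map f (vv g) = vv (map f g) := vv_map f g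
  have hq : ez (map f g) (vv (map f g)) ((Polynomial.derivative m).map (map f)) ≠ 0 := by
    rw [← eV, ← ez_map]
    exact hder
  have hr : ∀ i, ez (map f g) (vv (map f g)) ((Polynomial.derivative m).map (map f)) * X i =
      ez (map f g) (vv (map f g)) (-((pb i m).map (map f))) := by
    intro i
    have h1 := congrArg (map f) (hd i)
    rw [map_add, map_mul, map_X, map_zero, ez_map, ez_map, eV] at h1
    rw [map_neg]
    linear_combination h1
  obtain ⟨c₀, hc₀, Q, hQ1, hQ2⟩ := rep hinj hmp _ _ hq hr s
  rw [← eV] at hQ2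
  obtain ⟨m₁, hm₁, hdeg, hez⟩ := semicont f hf g (vv g) s hs mp.natDegree c₀ hc₀ Q hQ1 hQ2
  have hιm : Function.Injective (map ι : MvPolynomial (Fin n) R →+* MvPolynomial (Fin n) κ) :=
    MvPolynomial.map_injective ι hι
  have h1 : m₁.map (map ι) ≠ 0 := by
    rw [Ne, Polynomial.map_eq_zero_iff hιm]
    exact hm₁
  have h2 : ez (map ι g) (vv (map ι g)) (m₁.map (map ι)) = 0 := by
    rw [← vv_map, ← ez_map, hez, map_zero]
  have h3 := hm.2.2 _ h1 h2
  rw [Polynomial.natDegree_map_eq_of_injective hιm,
    Polynomial.natDegree_map_eq_of_injective hιm] at h3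
  have h4 : m.map (map f) ≠ 0 := by
    intro h0
    apply hlead
    have h5 := congrArg (fun q => Polynomial.coeff q m.natDegree) h0
    simp only [Polynomial.coeff_map, Polynomial.coeff_zero] at h5
    exact h5
  have h6 : ez g (vv g) m = 0 := by
    apply hιm
    rw [ez_map, vv_map, hm.2.1, map_zero]
  have h7 : ez (map f g) (vv (map f g)) (m.map (map f)) = 0 := by
    rw [← eV, ← ez_map, h6, map_zero]
  exact hmp.of_le h4 h7 (Polynomial.natDegree_map_le.trans (h3.trans hdeg))

end MPadcHM
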