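import Pool.Agent.Lib.MP_adc574_ag_HM.FamDefs
import Pool.Agent.Lib.MP_adc574_ag_HM.Defs

/-!
# A model over a finitely generated ring

`exists_ring`: `R' = Algebra.adjoin ℤ` of the finite set of all coefficients of the polynomials of the finite set; a polynomial with coefficients in `R'` lifts (`∑ e ∈ support, monomial e ⟨coeff, _⟩`; there may be a lemma
`MvPolynomial.mem_range_map_iff_coeffs_subset`).
`exists_model`: `hgT` gives `N` with `X i ^ N ∈ Jac (part w d g)` for all `i` (`Ideal.mem_radical_iff`, maximum of the exponents), `X i ^ N = ∑ j, h i j * pderiv j (part w d g)` (`Ideal.mem_span_range_iff_exists_fun`). Apply `exists_ring` to the union of `PP`, `{g}`, all `h i j` and all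
coefficients `m.coeff k`, `k ∈ m.support`. Lift; `part` commutes with `map` (`weightedHomogeneousComponent`: compare coefficients, `coeff_weightedHomogeneousComponent`, `coeff_map`), `pderiv_map`, `MvPolynomial.map_injective` for the injective map `R' → κ₀` gives the identities over `R'`.
`DegLe` descends since the support of the lift is the same. `m'`: `∑ k ∈ m.support, Polynomial.monomial k (lift of m.coeff k)`.
-/

set_option autoImplicit false

namespace MPadcHM

open MvPolynomial

private theorem FamJ_lift {κ₀ : Type*} [Field κ₀] {n : ℕ} (A : Subalgebra ℤ κ₀) (P : MvPolynomial (Fin n) κ₀)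
    (h : ∀ e, coeff e P ∈ A) : ∃ P' : MvPolynomial (Fin n) A, map (algebraMap A κ₀) P' = P := by
  refine ⟨∑ e ∈ P.support, monomial e (⟨coeff e P, h e⟩ : A), ?_⟩
  rw [map_sum]
  conv_rhs => rw [← P.support_sum_monomial_coeff]
  refine Finset.sum_congr rfl fun e _ => ?_
  rw [map_monomial]
  rfl

theorem exists_ring {κ₀ : Type*} [Field κ₀] {n : ℕ} (PP : Finset (MvPolynomial (Fin n) κ₀)) :
    ∃ R' : Subalgebra ℤ κ₀, R'.FG ∧ ∀ P ∈ PP, ∃ P' : MvPolynomial (Fin n) R', map (algebraMap R' κ₀) P' = P := by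
  classical
  let s : Finset κ₀ := PP.biUnion fun P => P.support.image fun e => coeff e P
  refine ⟨Algebra.adjoin ℤ (s : Set κ₀), ⟨s, rfl⟩, fun P hP => FamJ_lift _ P fun e => ?_⟩
  by_cases he : e ∈ P.support
  · apply Algebra.subset_adjoin
    rw [Finset.mem_coe, Finset.mem_biUnion]
    exact ⟨P, hP, Finset.mem_image_of_mem _ he⟩
  · rw [notMem_support_iff.1 he]
    exact Subalgebra.zero_mem _

private theorem FamJ_part {κ₀ : Type*} [Field κ₀] {n : ℕ} (A : Subalgebra ℤ κ₀) (w : Fin n → ℕ) (d : ℕ)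
    (P : MvPolynomial (Fin n) A) :
    map (algebraMap A κ₀) (part w d P) = part w d (map (algebraMap A κ₀) P) := by
  classical
  ext e
  unfold part
  rw [coeff_map, coeff_weightedHomogeneousComponent, coeff_weightedHomogeneousComponent, coeff_map]
  split_ifs
  · rfl
  · exact map_zero _

theorem exists_model {κ₀ : Type*} [Field κ₀] {n : ℕ} (w : Fin n → ℕ) (d : ℕ) (g : MvPolynomial (Fin n) κ₀)
    (hg : DegLe w d g) (hgT : ∀ i, (X i : MvPolynomial (Fin n) κ₀) ∈ (Jac (part w d g)).radical)
    (m : Polynomial (MvPolynomial (Fin n) κ₀)) (PP : Finset (MvPolynomial (Fin n) κ₀)) :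
    ∃ R' : Subalgebra ℤ κ₀, R'.FG ∧
      (∀ P ∈ PP, ∃ P' : MvPolynomial (Fin n) R', map (algebraMap R' κ₀) P' = P) ∧
      ∃ g' : MvPolynomial (Fin n) R', map (algebraMap R' κ₀) g' = g ∧ DegLe w d g' ∧
        (∃ N : ℕ, ∀ i, (X i : MvPolynomial (Fin n) R') ^ N ∈ Jac (part w d g')) ∧
        ∃ m' : Polynomial (MvPolynomial (Fin n) R'), m'.map (map (algebraMap R' κ₀)) = m := by
  classical
  have h1 : ∀ i, ∃ k : ℕ, (X i : MvPolynomial (Fin n) κ₀) ^ k ∈ Jac (part w d g) := fun i =>
    Ideal.mem_radical_iff.1 (hgT i)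
  choose k hk using h1
  set N := ∑ i, k i with hN
  have h2 : ∀ i, (X i : MvPolynomial (Fin n) κ₀) ^ N ∈ Jac (part w d g) := by
    intro i
    have : k i ≤ N := Finset.single_le_sum (fun _ _ => Nat.zero_le _) (Finset.mem_univ i)
    rw [← Nat.sub_add_cancel this, pow_add]
    exact Ideal.mul_mem_left _ _ (hk i)
  have h3 : ∀ i, ∃ h : Fin n → MvPolynomial (Fin n) κ₀, ∑ j, h j * pderiv j (part w d g) = X i ^ N := by
    intro i
    exact Ideal.mem_span_range_iff_exists_fun.1 (h2 i)
  choose h hh using h3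
  obtain ⟨R', hR', hP⟩ := exists_ring (PP ∪ {g} ∪ (Finset.univ.image fun p : Fin n × Fin n => h p.1 p.2) ∪
    (m.support.image fun l => m.coeff l))
  obtain ⟨g', hg'⟩ := hP g (by simp)
  have h4 : ∀ i j, ∃ P' : MvPolynomial (Fin n) R', map (algebraMap R' κ₀) P' = h i j := by
    intro i j
    apply hP
    rw [Finset.mem_union, Finset.mem_union]
    exact Or.inl (Or.inr (Finset.mem_image.2 ⟨(i, j), Finset.mem_univ _, rfl⟩))
  choose h' hh' using h4
  have h5 : ∀ l, ∃ P' : MvPolynomial (Fin n) R', map (algebraMap R' κ₀) P' = m.coeff l := by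
    intro l
    by_cases hl : l ∈ m.support
    · apply hP
      rw [Finset.mem_union]
      exact Or.inr (Finset.mem_image.2 ⟨l, hl, rfl⟩)
    · exact ⟨0, by rw [map_zero, Polynomial.notMem_support_iff.1 hl]⟩
  choose c hc using h5
  have hinj : Function.Injective (algebraMap R' κ₀) := Subtype.val_injective
  have hinj2 : Function.Injective (map (algebraMap R' κ₀) : MvPolynomial (Fin n) R' →+* MvPolynomial (Fin n) κ₀) :=
    map_injective _ hinj
  refine ⟨R', hR', fun P hPP => hP P (by simp [hPP]), g', hg', ?_, ⟨N, fun i => ?_⟩, ?_⟩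
  · intro e he
    apply hg
    rw [← hg', mem_support_iff, coeff_map]
    rw [mem_support_iff] at he
    intro h0
    apply he
    apply hinj
    rw [h0, map_zero]
  · refine Ideal.mem_span_range_iff_exists_fun.2 ⟨h' i, ?_⟩
    apply hinj2
    rw [map_sum, map_pow, map_X, ← hh i]
    refine Finset.sum_congr rfl fun j _ => ?_
    rw [map_mul, hh', ← pderiv_map, FamJ_part, hg']
  · refine ⟨∑ l ∈ m.support, Polynomial.monomial l (c l), ?_⟩
    rw [Polynomial.map_sum]
    conv_rhs => rw [m.as_sum_support]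
    refine Finset.sum_congr rfl fun l _ => ?_
    rw [Polynomial.map_monomial, hc]

end MPadcHM
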