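import Pool.Agent.Lib.MP_adc574_ag_LP.Primes

/-!
# Maximal ideals of large residue characteristic

`MPadcLP.exists_bound` (file LP/Primes; check the name of the namespace) for the domain `R'` (finitely generated over `ℤ`, `Subalgebra.fg_iff_finiteType`) and `a`: `N` such that for all primes `p > N` there is a prime ideal `P` with `a ∉ P`, `p ∈ P`. Take a prime `p > max N p₀`. `R'` is a Jacobson ring
(`isJacobsonRing_of_finiteType`; `ℤ` is Jacobson: see the private lemma `Primes_jac` in LP/Primes, copy it), so `P` is the intersection of the maximal ideals containing it (`IsJacobsonRing.out`, `Ideal.jacobson`), one of them does not contain `a`. Characteristic of the quotient: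
a field in which `p = 0` (see `charP_of_natCast_eq_zero` in MP_adc574_ag_M/Lift, copy it).
-/

set_option autoImplicit false

namespace MPadcHM

private theorem FamK_jac : IsJacobsonRing ℤ := by
  rw [isJacobsonRing_iff_prime_eq]
  intro P hP
  by_cases h : P = ⊥
  · subst h
    rw [eq_bot_iff]
    intro x hx
    rw [Ideal.mem_bot]
    by_contra hx0
    obtain ⟨p, hpx, hp⟩ := Nat.exists_infinite_primes (x.natAbs + 1)
    have hmax : (Ideal.span {(p : ℤ)}).IsMaximal := by
      apply PrincipalIdealRing.isMaximal_of_irreducible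
      exact (Nat.prime_iff_prime_int.1 hp).irreducible
    rw [Ideal.jacobson, Ideal.mem_sInf] at hx
    have h1 := hx ⟨bot_le, hmax⟩
    rw [Ideal.mem_span_singleton] at h1
    have h2 := Nat.le_of_dvd (Int.natAbs_pos.2 hx0) (Int.natCast_dvd.1 h1)
    omega
  · have hmax : P.IsMaximal := hP.isMaximal h
    exact Ideal.jacobson_eq_self_of_isMaximal

private theorem FamK_char {k : Type*} [CommRing k] [Nontrivial k] {p : ℕ} (hp : p.Prime)
    (h : (p : k) = 0) : CharP k p := by
  obtain ⟨q, hq⟩ := CharP.exists k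
  have h1 : q ∣ p := (CharP.cast_eq_zero_iff k q p).1 h
  rcases (Nat.dvd_prime hp).1 h1 with h2 | h2
  · subst h2
    exact absurd (CharP.char_ne_one k 1) (by simp)
  · rwa [← h2]

theorem exists_max {K : Type*} [Field K] [CharZero K] (R' : Subalgebra ℤ K) (hR : R'.FG) (a : R') (ha : a ≠ 0) (p₀ : ℕ) :
    ∃ p : ℕ, p.Prime ∧ p₀ < p ∧ ∃ I : Ideal R', I.IsMaximal ∧ a ∉ I ∧ CharP (R' ⧸ I) p := by
  have hft : Algebra.FiniteType ℤ R' := R'.fg_iff_finiteType.1 hR
  obtain ⟨N, hN⟩ := MPadcLP.exists_bound a ha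
  obtain ⟨p, hpN, hp⟩ := Nat.exists_infinite_primes (max N p₀ + 1)
  obtain ⟨P, hP, haP, hpP⟩ := hN p hp (by omega)
  have hj : IsJacobsonRing ℤ := FamK_jac
  have hj' : IsJacobsonRing R' := isJacobsonRing_of_finiteType (A := ℤ)
  have hjac : P.jacobson = P := hj'.out hP.isRadical
  have h1 : a ∉ P.jacobson := by rwa [hjac]
  rw [Ideal.jacobson, Ideal.mem_sInf] at h1
  push Not at h1
  obtain ⟨I, ⟨hPI, hI⟩, haI⟩ := h1
  refine ⟨p, hp, by omega, I, hI, haI, ?_⟩
  have hnt : Nontrivial (R' ⧸ I) := Ideal.Quotient.nontrivial_iff.2 hI.ne_top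
  refine FamK_char hp ?_
  have h2 : (Ideal.Quotient.mk I) (p : R') = 0 := Ideal.Quotient.eq_zero_iff_mem.2 (hPI hpP)
  rwa [map_natCast] at h2

end MPadcHM
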