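import Pool.Agent.Lib.MP_adc574_ag_HM.FDefs
import Pool.Agent.Lib.MP_adc574_ag_HM.FamE
import Pool.Agent.Lib.MP_adc574_ag_HM.FamG
import Pool.Agent.Lib.MP_adc574_ag_HM.FamI
import Pool.Agent.Lib.MP_adc574_ag_HM.FamJ
import Pool.Agent.Lib.MP_adc574_ag_HM.FamK
import Pool.Agent.Lib.MP_adc574_ag_HM.FamL

/-!
# The family `φ = g + ∑ b_i x_i` with independent `b_i` satisfies all conditions

`k₀ = κ₀(b_1, …, b_n)`, `g` over `κ₀` of weighted degree `≤ d` with quasi-smooth part of degree `d`, `w i < d`. `m` is an equation of minimal degree over `κ₀[b]` of the critical value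
`vv g ∈ κ₀[y]`, `δ` is its image over `k₀`. (G): `dual_identity`, `ker_lemma` and the separability of `δ`. Irreducibility modulo `p`: `isMin_red`.
-/

set_option autoImplicit false

namespace MPadcHM

open MvPolynomial

universe u

/-- a common exponent -/
private theorem Family_N {R : Type*} [CommRing R] {n : ℕ} (I : Ideal (MvPolynomial (Fin n) R))
    (h : ∀ i, (X i : MvPolynomial (Fin n) R) ∈ I.radical) : ∃ N : ℕ, ∀ i, (X i : MvPolynomial (Fin n) R) ^ N ∈ I := by
  choose N hN using fun i => Ideal.mem_radical_iff.1 (h i)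
  refine ⟨∑ i, N i, fun i => ?_⟩
  have h1 : N i ≤ ∑ i, N i := Finset.single_le_sum (fun _ _ => Nat.zero_le _) (Finset.mem_univ i)
  exact Ideal.pow_mem_of_pow_mem I (hN i) h1

/-- a fraction field structure -/
private theorem Family_frac {κ₀ k₀ : Type u} [Field κ₀] [Field k₀] [Algebra κ₀ k₀] {n : ℕ} (b : Fin n → k₀)
    (htop : IntermediateField.adjoin κ₀ (Set.range b) = ⊤) (x : k₀) :
    ∃ a c : MvPolynomial (Fin n) κ₀, x = aeval b a / aeval b c := by
  have h1 : x ∈ IntermediateField.adjoin κ₀ (Set.range b) := by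
    rw [htop]
    exact IntermediateField.mem_top
  exact (IntermediateField.mem_adjoin_range_iff κ₀ b x).1 h1

/-- (G) and (D) -/
private theorem Family_G {κ₀ k₀ : Type u} [Field κ₀] [Field k₀] [Algebra κ₀ k₀] [CharZero κ₀] {n : ℕ}
    (b : Fin n → k₀) (hb : AlgebraicIndependent κ₀ b) (htop : IntermediateField.adjoin κ₀ (Set.range b) = ⊤)
    (g : MvPolynomial (Fin n) κ₀) {s : Finset (Fin n →₀ ℕ)} (hs : Spn g s) (φ : MvPolynomial (Fin n) k₀)
    (hφ : φ = map (algebraMap κ₀ k₀) g + ∑ i, C (b i) * X i) {m : Polynomial (MvPolynomial (Fin n) κ₀)}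
    (hm : IsMin g (vv g) m) (j : Fin n) :
    ∃ ξ : Polynomial k₀, X j - Polynomial.aeval φ ξ ∈ Jac φ := by
  have hinj : Function.Injective (th g) := th_injective hs
  have hbi : Function.Injective (aeval b : MvPolynomial (Fin n) κ₀ →ₐ[κ₀] k₀) := hb
  have hirr : Irreducible (m.map (aeval b : MvPolynomial (Fin n) κ₀ →ₐ[κ₀] k₀).toRingHom) := by
    let _ : Algebra (MvPolynomial (Fin n) κ₀) k₀ := (aeval b : MvPolynomial (Fin n) κ₀ →ₐ[κ₀] k₀).toRingHom.toAlgebra
    have : FaithfulSMul (MvPolynomial (Fin n) κ₀) k₀ := (faithfulSMul_iff_algebraMap_injective _ _).2 hbi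
    have : IsFractionRing (MvPolynomial (Fin n) κ₀) k₀ := IsFractionRing.of_field _ _ (Family_frac b htop)
    exact hm.irreducible hinj k₀
  have : CharZero k₀ := charZero_of_injective_algebraMap (algebraMap κ₀ k₀).injective
  obtain ⟨u, v, huv⟩ := Polynomial.separable_def _ |>.1 hirr.separable
  set be := (aeval b : MvPolynomial (Fin n) κ₀ →ₐ[κ₀] k₀).toRingHom with hbe
  refine ⟨-(v * (pb j m).map be), ?_⟩
  have h1 := ker_lemma b g φ hφ m
  have h2 := ker_lemma b g φ hφ (Polynomial.derivative m)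
  have h3 := ker_lemma b g φ hφ (pb j m)
  rw [← hbe, hm.2.1, map_zero, sub_zero] at h1
  rw [← hbe] at h2 h3
  have h4 := congrArg (map (algebraMap κ₀ k₀)) (dual_identity hs hm j)
  rw [map_add, map_mul, map_X, map_zero] at h4
  have h5 := congrArg (Polynomial.aeval φ) huv
  rw [map_add, map_mul, map_mul, map_one, Polynomial.derivative_map] at h5
  rw [map_neg, map_mul, sub_neg_eq_add]
  set a1 := Polynomial.aeval φ (m.map be)
  set a2 := Polynomial.aeval φ ((Polynomial.derivative m).map be)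
  set a3 := Polynomial.aeval φ ((pb j m).map be)
  set e2 := map (algebraMap κ₀ k₀) (ez g (vv g) (Polynomial.derivative m))
  set e3 := map (algebraMap κ₀ k₀) (ez g (vv g) (pb j m))
  have e : X j + Polynomial.aeval φ v * a3 = (Polynomial.aeval φ u * X j) * a1 +
      (Polynomial.aeval φ v * X j) * (a2 - e2) + Polynomial.aeval φ v * (a3 - e3) := by
    linear_combination (-X j) * h5 + Polynomial.aeval φ v * h4
  rw [e]
  exact Ideal.add_mem _ (Ideal.add_mem _ (Ideal.mul_mem_left _ _ h1) (Ideal.mul_mem_left _ _ h2))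
    (Ideal.mul_mem_left _ _ h3)

/-- the extension of a specialization -/
private theorem Family_ext {A K E : Type*} [CommRing A] [Field K] [Field E] (ι : A →+* K)
    (hι : Function.Injective ι) (π : A →+* E) (R : Subalgebra ℤ K) (G : Set K) (hG : Algebra.adjoin ℤ G = R)
    (hGf : ∀ x ∈ G, ∃ a c, π c ≠ 0 ∧ x * ι c = ι a) (r : R) (a c : A) (ha : π a ≠ 0) (hc : π c ≠ 0)
    (hac : (r : K) * ι c = ι a) (δR : Polynomial R) (m : Polynomial A)
    (hm : δR.map (algebraMap R K) = m.map ι) (hirr : Irreducible (m.map π)) :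
    ∃ ψ : R →+* E, ψ r ≠ 0 ∧ Irreducible (δR.map ψ) := by
  have hRfr : ∀ x ∈ R, ∃ a c, π c ≠ 0 ∧ x * ι c = ι a := by
    rw [← hG]
    exact frac_adjoin ι π G hGf
  obtain ⟨ψ, hψ⟩ := ext_hom ι hι π R hRfr
  refine ⟨ψ, ?_, ?_⟩
  · rw [hψ r a c hc hac]
    exact div_ne_zero ha hc
  · have e1 : δR.map ψ = m.map π := by
      apply Polynomial.ext
      intro k
      rw [Polynomial.coeff_map, Polynomial.coeff_map]
      have h1 := congrArg (fun P => Polynomial.coeff P k) hm
      simp only [Polynomial.coeff_map] at h1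
      have h2 := hψ (δR.coeff k) (m.coeff k) 1 (by rw [map_one]; exact one_ne_zero) (by
        rw [map_one, mul_one]
        exact h1)
      rw [h2, map_one, div_one]
    rw [e1]
    exact hirr

private theorem Family_fin {A K B E : Type*} [CommRing A] [Field K] [CommRing B] [Field E] [Algebra B E]
    [IsFractionRing B E] (ι : A →+* K)
    (hι : Function.Injective ι) (f : A →+* B) (R : Subalgebra ℤ K) (G : Set K) (hG : Algebra.adjoin ℤ G = R)
    (hGf : ∀ x ∈ G, ∃ a c, f c ≠ 0 ∧ x * ι c = ι a) (r : R) (a c : A) (ha : f a ≠ 0) (hc : f c ≠ 0)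
    (hac : (r : K) * ι c = ι a) (δR : Polynomial R) (m : Polynomial A)
    (hm : δR.map (algebraMap R K) = m.map ι) (hirr : Irreducible ((m.map f).map (algebraMap B E))) :
    ∃ ψ : R →+* E, ψ r ≠ 0 ∧ Irreducible (δR.map ψ) := by
  have h0 : ∀ P, f P ≠ 0 → ((algebraMap B E).comp f) P ≠ 0 := by
    intro P hP h
    rw [RingHom.comp_apply] at h
    exact hP ((map_eq_zero_iff _ (IsFractionRing.injective _ _)).1 h)
  rw [Polynomial.map_map] at hirr
  exact Family_ext ι hι ((algebraMap B E).comp f) R G hG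
    (fun x hx => by
      obtain ⟨a, c, h1, h2⟩ := hGf x hx
      exact ⟨a, c, h0 c h1, h2⟩) r a c (h0 a ha) (h0 c hc) hac δR m hm hirr

/-- irreducibility modulo `p` -/
private theorem Family_I {κ₀ k₀ : Type u} [Field κ₀] [Field k₀] [Algebra κ₀ k₀] [CharZero κ₀] {n : ℕ}
    (b : Fin n → k₀) (hb : AlgebraicIndependent κ₀ b) (htop : IntermediateField.adjoin κ₀ (Set.range b) = ⊤)
    (w : Fin n → ℕ) (hw : ∀ i, 0 < w i)
    (d : ℕ) (hwd : ∀ i, w i < d) (g : MvPolynomial (Fin n) κ₀) (hg : DegLe w d g)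
    (hgT : ∀ i, (X i : MvPolynomial (Fin n) κ₀) ∈ (Jac (part w d g)).radical)
    {s : Finset (Fin n →₀ ℕ)} (hs : Spn g s) {m : Polynomial (MvPolynomial (Fin n) κ₀)} (hm : IsMin g (vv g) m) :
    IrrModP (m.map (aeval b : MvPolynomial (Fin n) κ₀ →ₐ[κ₀] k₀).toRingHom) := by
  classical
  intro R hR δR hδR r hr p₀
  have hbi : Function.Injective (aeval b : MvPolynomial (Fin n) κ₀ →ₐ[κ₀] k₀) := hb
  set be := (aeval b : MvPolynomial (Fin n) κ₀ →ₐ[κ₀] k₀).toRingHom with hbe
  have hbi' : Function.Injective be := hbi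
  obtain ⟨G, hG⟩ := hR
  -- fractions
  have hfr : ∀ x : k₀, ∃ a c : MvPolynomial (Fin n) κ₀, c ≠ 0 ∧ x * be c = be a := by
    intro x
    obtain ⟨a, c, h⟩ := Family_frac b htop x
    by_cases hc : c = 0
    · refine ⟨0, 1, one_ne_zero, ?_⟩
      rw [h, hc, map_zero, div_zero, zero_mul, map_zero]
    · refine ⟨a, c, hc, ?_⟩
      have hc' : (aeval b c : k₀) ≠ 0 := (map_ne_zero_iff _ hbi).2 hc
      rw [h]
      exact div_mul_cancel₀ _ hc'
  choose a c hc hac using hfr
  -- the model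
  obtain ⟨R', hR'FG, hPP, g', hg', hg'D, ⟨N, hN⟩, m', hm'⟩ := exists_model w d g hg hgT m
    ((insert (r : k₀) G).image a ∪ (insert (r : k₀) G).image c)
  obtain ⟨s', hs'⟩ := spn_of_jac w hw d hwd g' hg'D N hN
  set ι : R' →+* κ₀ := algebraMap R' κ₀ with hι
  have hιi : Function.Injective ι := Subtype.val_injective
  have hιm : Function.Injective (map ι : MvPolynomial (Fin n) R' →+* MvPolynomial (Fin n) κ₀) := map_injective ι hιi
  have hLa : ∀ x ∈ insert (r : k₀) G, ∃ P' : MvPolynomial (Fin n) R', map ι P' = a x := fun x hx =>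
    hPP _ (Finset.mem_union_left _ (Finset.mem_image_of_mem _ hx))
  have hLc : ∀ x ∈ insert (r : k₀) G, ∃ P' : MvPolynomial (Fin n) R', map ι P' = c x := fun x hx =>
    hPP _ (Finset.mem_union_right _ (Finset.mem_image_of_mem _ hx))
  choose! A' hA' using hLa
  choose! C' hC' using hLc
  have hr' : (r : k₀) ≠ 0 := fun h => hr (Subtype.ext h)
  have hC0 : ∀ x ∈ insert (r : k₀) G, C' x ≠ 0 := by
    intro x hx h
    have := hC' x hx
    rw [h, map_zero] at this
    exact hc x this.symm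
  have hA0 : A' r ≠ 0 := by
    intro h
    have h1 := hA' r (Finset.mem_insert_self _ _)
    rw [h, map_zero] at h1
    have h2 := hac r
    rw [← h1, map_zero] at h2
    rcases mul_eq_zero.1 h2 with h3 | h3
    · exact hr' h3
    · exact hc r ((map_eq_zero_iff _ hbi').1 h3)
  have hm'0 : m' ≠ 0 := by
    intro h
    rw [h, Polynomial.map_zero] at hm'
    exact hm.1 hm'.symm
  have hinj : Function.Injective (th g) := th_injective hs
  have hvv : map ι (vv g') = vv g := by rw [vv_map, hg']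
  have hder0 : ez g' (vv g') (Polynomial.derivative m') ≠ 0 := by
    intro h
    have h1 := congrArg (map ι) h
    rw [ez_map, hvv, hg', map_zero, ← Polynomial.derivative_map, hm'] at h1
    exact hm.deriv_ne hinj h1
  -- one nonzero coefficient
  set T0 : MvPolynomial (Fin n) R' := (∏ x ∈ insert (r : k₀) G, C' x) * A' r * m'.leadingCoeff *
    ez g' (vv g') (Polynomial.derivative m') with hT
  have hT0 : T0 ≠ 0 := by
    rw [hT]
    refine mul_ne_zero (mul_ne_zero (mul_ne_zero ?_ hA0) (Polynomial.leadingCoeff_ne_zero.2 hm'0)) hder0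
    exact Finset.prod_ne_zero_iff.2 hC0
  obtain ⟨e₀, he₀⟩ := MvPolynomial.ne_zero_iff.1 hT0
  obtain ⟨p, hp, hpp, I, hI, haI, hcI⟩ := exists_max R' hR'FG (coeff e₀ T0) he₀ p₀
  let _ : Field (R' ⧸ I) := Ideal.Quotient.field I
  set f : R' →+* (R' ⧸ I) := Ideal.Quotient.mk I with hf
  have hfs : Function.Surjective f := Ideal.Quotient.mk_surjective
  have hTf : map f T0 ≠ 0 := by
    intro h
    have h1 := congrArg (coeff e₀) h
    rw [coeff_map, coeff_zero] at h1
    exact haI (Ideal.Quotient.eq_zero_iff_mem.1 h1)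
  rw [hT, map_mul, map_mul, map_mul, map_prod] at hTf
  have hT1 := left_ne_zero_of_mul hTf
  have hT2 := left_ne_zero_of_mul hT1
  have hCf : ∀ x ∈ insert (r : k₀) G, map f (C' x) ≠ 0 := Finset.prod_ne_zero_iff.1 (left_ne_zero_of_mul hT2)
  have hAf : map f (A' r) ≠ 0 := right_ne_zero_of_mul hT2
  have hlead : map f m'.leadingCoeff ≠ 0 := right_ne_zero_of_mul hT1
  have hder : map f (ez g' (vv g') (Polynomial.derivative m')) ≠ 0 := right_ne_zero_of_mul hTf
  -- the minimal equation modulo p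
  have hm2 : IsMin (map ι g') (vv (map ι g')) (m'.map (map ι)) := by
    rw [hg', hm']
    exact hm
  have hd : ∀ i, ez g' (vv g') (pb i m') + ez g' (vv g') (Polynomial.derivative m') * X i = 0 := by
    intro i
    apply hιm
    rw [map_add, map_mul, ez_map, ez_map, hvv, hg', pb_map, ← Polynomial.derivative_map, hm', map_X, map_zero]
    exact dual_identity hs hm i
  have hred := isMin_red ι hιi f hfs g' s' hs' m' hm2 hd hlead hder
  have hinjF : Function.Injective (th (map f g')) := th_injective (hs'.map hfs)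
  have hirr := hred.irreducible hinjF (FractionRing (MvPolynomial (Fin n) (R' ⧸ I)))
  have : CharP (R' ⧸ I) p := hcI
  have hchar : CharP (FractionRing (MvPolynomial (Fin n) (R' ⧸ I))) p :=
    charP_of_injective_algebraMap (IsFractionRing.injective (MvPolynomial (Fin n) (R' ⧸ I)) _) p
  -- the extension
  have hιAi : Function.Injective (be.comp (map ι : MvPolynomial (Fin n) R' →+* MvPolynomial (Fin n) κ₀)) := by
    rw [RingHom.coe_comp]
    exact hbi'.comp hιm
  have hfr2 : ∀ x ∈ insert (r : k₀) G, x * (be.comp (map ι : MvPolynomial (Fin n) R' →+* MvPolynomial (Fin n) κ₀)) (C' x) =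
      (be.comp (map ι : MvPolynomial (Fin n) R' →+* MvPolynomial (Fin n) κ₀)) (A' x) := by
    intro x hx
    rw [RingHom.comp_apply, RingHom.comp_apply, hC' x hx, hA' x hx]
    exact hac x
  have hfin := Family_fin (be.comp (map ι : MvPolynomial (Fin n) R' →+* MvPolynomial (Fin n) κ₀)) hιAi (map f) R G hG
    (fun x hx => ⟨A' x, C' x, hCf x (Finset.mem_insert_of_mem hx), hfr2 x (Finset.mem_insert_of_mem hx)⟩) r (A' r) (C' r) hAf
    (hCf _ (Finset.mem_insert_self _ _)) (hfr2 _ (Finset.mem_insert_self _ _)) δR m' (by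
      rw [← Polynomial.map_map, hm']
      exact hδR) hirr
  exact ⟨p, hp, hpp, FractionRing (MvPolynomial (Fin n) (R' ⧸ I)), inferInstance, hchar, hfin⟩

theorem family {κ₀ k₀ : Type u} [Field κ₀] [Field k₀] [Algebra κ₀ k₀] [CharZero κ₀] {n : ℕ}
    (_hn : 0 < n) (b : Fin n → k₀) (hb : AlgebraicIndependent κ₀ b)
    (htop : IntermediateField.adjoin κ₀ (Set.range b) = ⊤) (w : Fin n → ℕ) (hw : ∀ i, 0 < w i)
    (d : ℕ) (hwd : ∀ i, w i < d) (g : MvPolynomial (Fin n) κ₀) (hg : DegLe w d g)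
    (hgT : ∀ i, (X i : MvPolynomial (Fin n) κ₀) ∈ (Jac (part w d g)).radical)
    (φ : MvPolynomial (Fin n) k₀)
    (hφ : φ = g.map (algebraMap κ₀ k₀) + ∑ i, C (b i) * X i) :
    (∀ j, ∃ ξ : Polynomial k₀, X j - Polynomial.aeval φ ξ ∈ Jac φ) ∧
      ∃ δ : Polynomial k₀, Polynomial.aeval φ δ ∈ Jac φ ∧ IrrModP δ := by
  obtain ⟨N, hN⟩ := Family_N _ hgT
  obtain ⟨s, hs⟩ := spn_of_jac w hw d hwd g hg N hN
  obtain ⟨m, hm⟩ := exists_isMin hs (vv g)
  refine ⟨Family_G b hb htop g hs φ hφ hm, m.map (aeval b : MvPolynomial (Fin n) κ₀ →ₐ[κ₀] k₀).toRingHom, ?_,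
    Family_I b hb htop w hw d hwd g hg hgT hs hm⟩
  have h1 := ker_lemma b g φ hφ m
  rw [hm.2.1, map_zero, sub_zero] at h1
  exact h1

end MPadcHM
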