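import Pool.Agent.Lib.MP_adc574_ag_HM.GMDefs
import Pool.Agent.Lib.MP_adc574_ag_HM.KosD

/-!
# JOB GMA: the unit relation and the map `P ↦ [P dx / f²]`

* `unit_rel`: from `hS.ann`: `aeval φ δ = ∑ q_j ∂_j φ` over `κ`. Map to `K = κ(t)` (write `f = S.fK = φ - t`, `∂_j f` is the image of `∂_j φ`). `T ↦ δ(T)`:
  `aeval φ δ - C (δ(t)) = (φ - t) * dd` in `K[x]` (`Polynomial.sub_dvd_eval_sub` applied to the polynomial `δ` mapped to `MvPolynomial (Fin n) K`, at `φ` and
  `C t`), `δ(t) = algebraMap δ ≠ 0` in `K` (`RatFunc`, `hS.sep.ne_zero`). So `C (δ(t)) = ∑ q_j ∂_j f - dd * f`; divide by `δ(t)`.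
* `exists_lam`: `P = ∑ (P c_j) ∂_j f + (P c0) f`. Define `lam P = mk (dvg (fun j => P * c j) + P * c0)` (`K`-linear in `P`: `pderiv`, `mkQ` are). To show: if
  `∑ B_j ∂_j f + C1 f = P` then `lam P = mk (dvg B + C1)`. The differences `Q_j = P c_j - B_j`, `Q_0 = P c0 - C1` satisfy `∑ Q_j f_j + Q_0 f = 0`
  (`f_j = ∂_j f`). With `1 = ∑ c_j f_j + c0 f`: `Q_j = ∑_i (c_i Q_j - c_j Q_i) f_i + (c0 Q_j - c_j Q_0) f` and `Q_0 = ∑_i (c_i Q_0 - c0 Q_i) f_i`. So with
  `A i j = c_i Q_j - c_j Q_i` (antisymmetric), `g_j = c0 Q_j - c_j Q_0`: `Q_j = ∑_i A i j f_i + g_j f`, `Q_0 = - ∑_i g_i f_i`. Then `dvg Q + Q_0 = dvg (∑_i A i j f_i) +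
  (dvg g) f + ∑ g_j f_j - ∑ g_j f_j = - z(A) + (dvg g) f ∈ Zmod f` (`dvg_asym`; its proof needs no characteristic 0, but here `[CharZero K]` is available).
-/

set_option autoImplicit false

namespace MPadcHM

open MvPolynomial

universe u

theorem unit_rel {κ : Type u} [Field κ] {n : ℕ} (S : Dat κ n) (hS : S.Ok) :
    ∃ (c : Fin n → MvPolynomial (Fin n) (RatFunc κ)) (c0 : MvPolynomial (Fin n) (RatFunc κ)),
      ∑ j, c j * pderiv j S.fK + c0 * S.fK = 1 := by
  obtain ⟨q, hq⟩ := Ideal.mem_span_range_iff_exists_fun.mp hS.ann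
  set a : κ →+* RatFunc κ := algebraMap κ (RatFunc κ) with ha
  set δt : RatFunc κ := algebraMap (Polynomial κ) (RatFunc κ) S.δ with hδt
  have hδ0 : δt ≠ 0 := by
    intro h
    exact hS.sep.ne_zero ((map_eq_zero_iff _ (RatFunc.algebraMap_injective κ)).mp h)
  set P : Polynomial (MvPolynomial (Fin n) (RatFunc κ)) := S.δ.map ((C : RatFunc κ →+* _).comp a) with hP
  have e1 : P.eval (map a S.φ) = map a (Polynomial.aeval S.φ S.δ) := by
    rw [hP, Polynomial.eval_map, Polynomial.aeval_def, Polynomial.hom_eval₂]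
    congr 1
    ext x
    simp [MvPolynomial.algebraMap_eq]
  have e2 : P.eval (C RatFunc.X) = C δt := by
    have h1 : P.eval (C (RatFunc.X : RatFunc κ)) = C (S.δ.eval₂ a RatFunc.X) := by
      rw [hP, Polynomial.eval_map, Polynomial.hom_eval₂]
    have h2 : S.δ.eval₂ a RatFunc.X = δt := by
      rw [hδt, ha, ← Polynomial.aeval_def, ← RatFunc.algebraMap_X, Polynomial.aeval_algebraMap_apply,
        Polynomial.aeval_X_left_apply]
    rw [h1, h2]
  obtain ⟨dd, hdd⟩ := Polynomial.sub_dvd_eval_sub (map a S.φ) (C RatFunc.X) P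
  have e3 : ∀ j, pderiv j S.fK = map a (pderiv j S.φ) := by
    intro j
    unfold Dat.fK
    rw [map_sub, pderiv_C, sub_zero, pderiv_map]
  have e4 : map a (Polynomial.aeval S.φ S.δ) = ∑ j, map a (q j) * pderiv j S.fK := by
    rw [← hq, map_sum]
    refine Finset.sum_congr rfl fun j _ => ?_
    rw [map_mul, e3]
  rw [e1, e2, e4] at hdd
  have hf : map a S.φ - C RatFunc.X = S.fK := rfl
  rw [hf] at hdd
  have hC : C δt⁻¹ * C δt = (1 : MvPolynomial (Fin n) (RatFunc κ)) := by
    rw [← C_mul, inv_mul_cancel₀ hδ0, C_1]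
  refine ⟨fun j => C δt⁻¹ * map a (q j), -(C δt⁻¹ * dd), ?_⟩
  have e5 : ∑ j, C δt⁻¹ * map a (q j) * pderiv j S.fK = C δt⁻¹ * ∑ j, map a (q j) * pderiv j S.fK := by
    rw [Finset.mul_sum]
    exact Finset.sum_congr rfl fun j _ => by ring
  rw [e5]
  have e6 : ∑ j, map a (q j) * pderiv j S.fK = S.fK * dd + C δt := by
    rw [← hdd]
    ring
  rw [e6]
  linear_combination hC

theorem exists_lam {K : Type u} [Field K] [CharZero K] {n : ℕ} (f : MvPolynomial (Fin n) K)
    (c : Fin n → MvPolynomial (Fin n) K) (c0 : MvPolynomial (Fin n) K)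
    (hc : ∑ j, c j * pderiv j f + c0 * f = 1) :
    ∃ lam : MvPolynomial (Fin n) K →ₗ[K] HH f, ∀ (B : Fin n → MvPolynomial (Fin n) K)
      (C1 : MvPolynomial (Fin n) K),
      lam (∑ j, B j * pderiv j f + C1 * f) = (Zmod f).mkQ (dvg B + C1) := by
  classical
  let L0 : MvPolynomial (Fin n) K →ₗ[K] MvPolynomial (Fin n) K :=
    { toFun := fun P => dvg (fun j => P * c j) + P * c0
      map_add' := by
        intro P Q
        simp only [dvg, add_mul, map_add, Finset.sum_add_distrib]
        ring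
      map_smul' := by
        intro a P
        simp only [dvg, smul_mul_assoc, Derivation.map_smul, RingHom.id_apply, smul_add,
          Finset.smul_sum] }
  refine ⟨(Zmod f).mkQ.comp L0, ?_⟩
  intro B C1
  set P : MvPolynomial (Fin n) K := ∑ j, B j * pderiv j f + C1 * f with hP
  have hL0 : L0 P = dvg (fun j => P * c j) + P * c0 := rfl
  rw [LinearMap.comp_apply, Submodule.mkQ_apply, Submodule.mkQ_apply, Submodule.Quotient.eq, hL0]
  let Q : Fin n → MvPolynomial (Fin n) K := fun j => P * c j - B j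
  let Q0 : MvPolynomial (Fin n) K := P * c0 - C1
  let A : Fin n → Fin n → MvPolynomial (Fin n) K := fun i j => c i * Q j - c j * Q i
  let g : Fin n → MvPolynomial (Fin n) K := fun j => c0 * Q j - c j * Q0
  have hA : Asym A := by
    refine ⟨fun i => ?_, fun i j => ?_⟩
    · simp [A]
    · simp [A]
  have hrel : ∑ j, Q j * pderiv j f + Q0 * f = 0 := by
    have h1 : ∑ j, Q j * pderiv j f = P * ∑ j, c j * pderiv j f - ∑ j, B j * pderiv j f := by
      rw [Finset.mul_sum, ← Finset.sum_sub_distrib]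
      refine Finset.sum_congr rfl fun j _ => ?_
      simp only [Q]
      ring
    have h2 : P * (∑ j, c j * pderiv j f + c0 * f) = P := by rw [hc, mul_one]
    rw [h1]
    simp only [Q0]
    linear_combination h2 + hP
  have hQ : ∀ j, Q j = ∑ i, A i j * pderiv i f + g j * f := by
    intro j
    have h1 : ∑ i, A i j * pderiv i f
        = Q j * ∑ i, c i * pderiv i f - c j * ∑ i, Q i * pderiv i f := by
      rw [Finset.mul_sum, Finset.mul_sum, ← Finset.sum_sub_distrib]
      refine Finset.sum_congr rfl fun i _ => ?_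
      simp only [A]
      ring
    rw [h1]
    simp only [g]
    linear_combination (- Q j) * hc + c j * hrel
  have hQ0 : Q0 = - ∑ i, g i * pderiv i f := by
    have h1 : ∑ i, g i * pderiv i f
        = c0 * ∑ i, Q i * pderiv i f - Q0 * ∑ i, c i * pderiv i f := by
      rw [Finset.mul_sum, Finset.mul_sum, ← Finset.sum_sub_distrib]
      refine Finset.sum_congr rfl fun i _ => ?_
      simp only [g]
      ring
    rw [h1]
    linear_combination (- Q0) * hc + c0 * hrel
  have hdQ : dvg Q = - zz A (fun j => pderiv j f) + dvg g * f + ∑ i, g i * pderiv i f := by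
    have h1 : dvg Q = dvg (fun j => ∑ i, A i j * pderiv i f) + dvg (fun j => g j * f) := by
      simp only [dvg, ← Finset.sum_add_distrib, ← map_add]
      refine Finset.sum_congr rfl fun j _ => ?_
      rw [← hQ j]
    rw [h1, dvg_asym f A hA]
    have h2 : dvg (fun j => g j * f) = dvg g * f + ∑ i, g i * pderiv i f := by
      simp only [dvg, Finset.sum_mul, ← Finset.sum_add_distrib]
      refine Finset.sum_congr rfl fun j _ => ?_
      rw [Derivation.leibniz]
      simp only [smul_eq_mul]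
      ring
    rw [h2]
    ring
  have hd : (dvg (fun j => P * c j) + P * c0) - (dvg B + C1) = dvg Q + Q0 := by
    have h1 : dvg Q = dvg (fun j => P * c j) - dvg B := by
      simp only [dvg, ← Finset.sum_sub_distrib, ← map_sub]
      rfl
    rw [h1]
    simp only [Q0]
    ring
  have hz : zz (fun i j => - A i j) (fun j => pderiv j f) = - zz A (fun j => pderiv j f) := by
    simp only [zz, map_neg, Finset.sum_neg_distrib, neg_mul]
  rw [hd]
  refine ⟨fun i j => - A i j, dvg g, ⟨fun i => ?_, fun i j => ?_⟩, ?_⟩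
  · simp [hA.1 i]
  · show - A i j = - (- A j i)
    rw [hA.2 i j]
  · rw [hz, hdQ, hQ0]
    ring

end MPadcHM
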