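import Mathlib

/-!
# JOB GalA: automorphisms of algebraically closed fields

`k₁ ⊂ M`, `M` algebraically closed of characteristic 0 (not necessarily algebraic over `k₁`), `τ, τ'` roots of an irreducible `δ ∈ k₁[T]`: there is an automorphism of `M` over `k₁` with `τ ↦ τ'`.
Proof. Let `ι → M` be a transcendence basis `v` of `M` over `k₁` (`exists_isTranscendenceBasis'` or similar). `M` is an algebraic closure of `k₂ = k₁(v) = IntermediateField.adjoin k₁ (Set.range v)`. `δ` stays irreducible over `k₂`: `k₂` is the fraction field of `A = k₁[v]`, isomorphic to the polynomial ring `MvPolynomial ι k₁`; the minimal polynomial of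
`τ` over `k₂` has the same degree as over `k₁`: `1, τ, …, τ^(m-1)`, `m = deg δ`, are linearly independent over `k₁` in the algebraic closure, and `v` is also algebraically independent over the algebraic extension `k₁(τ)` (a transcendence basis over `k₁` is one over the algebraic extension `k₁(τ)`), so a `k₁(τ)`-basis argument shows that they are linearly
independent over `k₂`. ALTERNATIVE (perhaps simpler): put `E = k₁(τ)`, `E' = k₁(τ')` and the isomorphism `E ≃ E'` over `k₁` (`AdjoinRoot`, `IntermediateField.adjoinRootEquivAdjoin` / `minpoly` are equal). `v` is a transcendence basis of `M` over `E` and over `E'` (algebraic over `k₁`: `IsTranscendenceBasis` for algebraic extensions of the base: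
`AlgebraicIndependent.extendScalars`, …). So `E[v] ≃ MvPolynomial ι E ≃ MvPolynomial ι E' ≃ E'[v]`, `M` is an algebraic closure of the fraction field of `E[v]` and of `E'[v]`; extend: `IsAlgClosure.equivOfEquiv` (as in the construction `IsAlgClosed.equivOfTranscendenceBasis` in Mathlib/FieldTheory/IsAlgClosed/Classification.lean: `isAlgClosure_of_transcendence_basis`,
`IsAlgClosure.equivOfEquiv K L e` with `IsAlgClosure.equivOfEquiv_algebraMap`), which is compatible with `E ≃ E'`.
-/

set_option autoImplicit false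

namespace MPadcHM

universe u

private theorem gala_ext {R K L ι : Type u} [Field R] [Field K] [Field L] [Algebra R K] [Algebra R L]
    [IsAlgClosed K] [IsAlgClosed L] (v : ι → K) (w : ι → L) (hv : IsTranscendenceBasis R v)
    (hw : IsTranscendenceBasis R w) :
    ∃ σ : K ≃+* L, ∀ r : R, σ (algebraMap R K r) = algebraMap R L r := by
  letI := IsAlgClosed.isAlgClosure_of_transcendence_basis v hv
  letI := IsAlgClosed.isAlgClosure_of_transcendence_basis w hw
  let e : Algebra.adjoin R (Set.range v) ≃ₐ[R] Algebra.adjoin R (Set.range w) :=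
    hv.1.aevalEquiv.symm.trans hw.1.aevalEquiv
  refine ⟨IsAlgClosure.equivOfEquiv K L e.toRingEquiv, fun r => ?_⟩
  have h := IsAlgClosure.equivOfEquiv_algebraMap K L e.toRingEquiv
    (algebraMap R (Algebra.adjoin R (Set.range v)) r)
  have h2 : e.toRingEquiv (algebraMap R (Algebra.adjoin R (Set.range v)) r) =
      algebraMap R (Algebra.adjoin R (Set.range w)) r := e.commutes r
  rw [h2] at h
  exact h

private theorem gala_basis {k₁ M ι : Type u} [Field k₁] [Field M] [Algebra k₁ M]
    (δ : Polynomial k₁) [Fact (Irreducible δ)] (τ : M)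
    (hτ : Polynomial.eval₂ (algebraMap k₁ M) τ δ = 0) (v : ι → M) (hv : IsTranscendenceBasis k₁ v) :
    letI : Algebra (AdjoinRoot δ) M := (AdjoinRoot.lift (algebraMap k₁ M) τ hτ).toAlgebra
    IsTranscendenceBasis (AdjoinRoot δ) v := by
  letI : Algebra (AdjoinRoot δ) M := (AdjoinRoot.lift (algebraMap k₁ M) τ hτ).toAlgebra
  haveI : IsScalarTower k₁ (AdjoinRoot δ) M := IsScalarTower.of_algebraMap_eq fun x =>
    (AdjoinRoot.lift_of (f := δ) hτ).symm
  haveI : Module.Finite k₁ (AdjoinRoot δ) :=
    (AdjoinRoot.powerBasis (Fact.out : Irreducible δ).ne_zero).finite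
  haveI : Algebra.IsAlgebraic k₁ (AdjoinRoot δ) := Algebra.IsAlgebraic.of_finite _ _
  exact (Algebra.IsAlgebraic.isTranscendenceBasis_iff k₁ (AdjoinRoot δ)).1 hv

theorem exists_aut {k₁ M : Type u} [Field k₁] [Field M] [Algebra k₁ M] [CharZero k₁]
    [IsAlgClosed M] (δ : Polynomial k₁) (hδ : Irreducible δ) (τ τ' : M)
    (hτ : Polynomial.aeval τ δ = 0) (hτ' : Polynomial.aeval τ' δ = 0) :
    ∃ σ : M ≃+* M, (∀ x : k₁, σ (algebraMap k₁ M x) = algebraMap k₁ M x) ∧ σ τ = τ' := by
  haveI : Fact (Irreducible δ) := ⟨hδ⟩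
  obtain ⟨ι, v, hv⟩ := exists_isTranscendenceBasis' k₁ M
  have h1 : Polynomial.eval₂ (algebraMap k₁ M) τ δ = 0 := hτ
  have h2 : Polynomial.eval₂ (algebraMap k₁ M) τ' δ = 0 := hτ'
  have b1 := gala_basis δ τ h1 v hv
  have b2 := gala_basis δ τ' h2 v hv
  obtain ⟨σ, hσ⟩ := @gala_ext (AdjoinRoot δ) M M ι _ _ _ (AdjoinRoot.lift (algebraMap k₁ M) τ h1).toAlgebra
    (AdjoinRoot.lift (algebraMap k₁ M) τ' h2).toAlgebra _ _ v v b1 b2
  have e1 : ∀ r : AdjoinRoot δ, σ (AdjoinRoot.lift (algebraMap k₁ M) τ h1 r) =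
      AdjoinRoot.lift (algebraMap k₁ M) τ' h2 r := hσ
  refine ⟨σ, fun x => ?_, ?_⟩
  · have h := e1 (AdjoinRoot.of δ x)
    rw [AdjoinRoot.lift_of, AdjoinRoot.lift_of] at h
    exact h
  · have h := e1 (AdjoinRoot.root δ)
    rw [AdjoinRoot.lift_root, AdjoinRoot.lift_root] at h
    exact h

end MPadcHM
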