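import Pool.Agent.Lib.MP_adc574_ag_HM.IrrA
import Pool.Agent.Lib.MP_adc574_ag_HM.FinC

/-!
# JOB IrrB: the local data

Let `𝓔 = EE k ∩ Hprim` (a `κ[t]`-submodule of `H`; `Hprim` restricted to `κ[t]`: `Submodule.restrictScalars`). It is finitely generated (`κ[X]` is Noetherian, `EE_fg`), torsion free (`H` is a `K`-vector space), so free
over the PID `κ[X]`: a basis `b : Fin r → 𝓔` (`Submodule.basisOfPid`, `Module.free_of_finite_type_torsion_free'`, `Module.Free.chooseBasis` reindexed by `Fin r`). `b` is linearly independent over `K` (clear denominators) and spans `Hprim`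
(`EE_span`).
`ε := δ • [1]_{k+1} ∈ 𝓔` (`EE_delta`, `lv_one_mem`): `ε = ∑ ε_i b_i`. `nab b_j - p_j • [1]_{k+1} ∈ 𝓔` (`EE_nab`, `EE_succ`, `Hprim_nab`) `= ∑_i E i j • b_i`. So `δ • nab b_j = ∑_i (ε_i p_j + δ E i j) • b_i`, `G i j := ε i * p j + δ * E i j`.
`[1]_{k+1} ∉ EE k`: otherwise `EE (k+1) ⊂ EE k` (`EE_succ`), `EE k ∩ Hprim` is `nab`-stable and `no_lattice` with `H' = ⊥` gives `Hprim = ⊥`, against `hne`. So the ideal `{a : a • [1]_{k+1} ∈ EE k}` of `κ[X]` contains the irreducible `δ` and not `1`: it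
is `(δ)` (`P`): `a • [1]_{k+1} ∈ EE k → δ ∣ a`.
* `∑ ε_i p_i`: `nab ε = ∑ ε_i' b_i + ∑ ε_i nab b_i ≡ (∑ ε_i p_i) • [1]_{k+1} mod EE k`, and `residue_exp`: `nab ε ≡ α δ' • [1]_{k+1}`. By (P) `δ ∣ ∑ ε_i p_i - α δ'`.
* if `δ ∣ ε i` for all `i`, then `δ • [1]_{k+1} = δ • e`, `e ∈ 𝓔`, so `[1]_{k+1} = e ∈ EE k`: contradiction. If `δ ∣ p j` for all `j`, then `nab b_j ∈ EE k` (`EE_delta`) for all `j`, so `𝓔` is `nab`-stable (`nab (a b_j) = a' b_j + a nab b_j`), `Hprim = ⊥` by `no_lattice`: contradiction.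
-/

set_option autoImplicit false

namespace MPadcHM

open MvPolynomial

universe u

variable {κ : Type u} [Field κ] [CharZero κ] {n : ℕ} {S : Dat κ n} {H : Type u} [AddCommGroup H]
  [Module (RatFunc κ) H] [Module κ H] [IsScalarTower κ (RatFunc κ) H] [Module (Polynomial κ) H]
  [IsScalarTower (Polynomial κ) (RatFunc κ) H] [IsScalarTower κ (Polynomial κ) H]
  {nab : H →ₗ[κ] H} {br : MvPolynomial (Fin n) κ →ₗ[κ] H}

omit [CharZero κ] [IsScalarTower κ (RatFunc κ) H] [IsScalarTower κ (Polynomial κ) H] in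
private theorem irrB_nab (hG : IsGM S nab br) (q : Polynomial κ) (h : H) :
    nab (q • h) = Polynomial.derivative q • h + q • nab h := by
  have h1 := hG.leib (algebraMap (Polynomial κ) (RatFunc κ) q) h
  rw [DK_poly] at h1
  simp only [algebraMap_smul] at h1
  exact h1

private theorem irrB_stable (hn : 0 < n) (hS : S.Ok) (hG : IsGM S nab br)
    (hne : Hprim S nab br ≠ ⊥) (k : ℕ)
    (h : ∀ x ∈ EE nab br k, x ∈ Hprim S nab br → nab x ∈ EE nab br k) : False := by
  have h1 := no_lattice hn hS hG k ⊥ bot_le (fun h hh => by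
    rw [Submodule.mem_bot] at hh
    rw [hh, map_zero]
    exact Submodule.zero_mem _) (fun x hx hx' => ⟨nab x, h x hx hx', Hprim_nab hG x hx', by
      rw [sub_self]
      exact Submodule.zero_mem _⟩)
  exact hne h1.symm

theorem local_data (hn : 0 < n) (hS : S.Ok) (hG : IsGM S nab br) (hwd : ∑ i, S.w i < S.d)
    (hne : Hprim S nab br ≠ ⊥) (k : ℕ) :
    ∃ (r : ℕ) (b : Fin r → H) (G E : Matrix (Fin r) (Fin r) (Polynomial κ))
      (ε p : Fin r → Polynomial κ), LinearIndependent (RatFunc κ) b ∧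
      Submodule.span (RatFunc κ) (Set.range b) = Hprim S nab br ∧
      (∀ j, S.δ • nab (b j) = ∑ i, G i j • b i) ∧
      (∀ i j, G i j = ε i * p j + S.δ * E i j) ∧
      ∃ δ₁ : Polynomial κ, Irreducible δ₁ ∧ δ₁ ∣ S.δ ∧
      (∃ c : Polynomial κ, ∑ i, ε i * p i =
        Polynomial.C ((n : κ) / 2 - 1 - k) * Polynomial.derivative S.δ + δ₁ * c) ∧
      (∃ i, ¬ δ₁ ∣ ε i) ∧ ∃ j, ¬ δ₁ ∣ p j := by
  classical
  obtain ⟨u, hu⟩ : ∃ u : H, u = lv nab br (k + 1) 1 := ⟨_, rfl⟩
  have hu_mem : u ∈ Hprim S nab br := by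
    rw [hu]
    exact lv_one_mem hwd (k + 1)
  have hδu : S.δ • u ∈ EE nab br k := by
    rw [hu]
    exact EE_delta hS hG k
  have hPsmul : ∀ (q : Polynomial κ) (x : H), x ∈ Hprim S nab br → q • x ∈ Hprim S nab br := by
    intro q x hx
    rw [← algebraMap_smul (RatFunc κ) q x]
    exact Submodule.smul_mem _ _ hx
  have htf : ∀ (q : Polynomial κ) (x : H), q • x = 0 → q = 0 ∨ x = 0 := by
    intro q x hqx
    rw [← algebraMap_smul (RatFunc κ) q x] at hqx
    rcases smul_eq_zero.1 hqx with h | h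
    · left
      exact (map_eq_zero_iff _ (FaithfulSMul.algebraMap_injective (Polynomial κ) (RatFunc κ))).1 h
    · right
      exact h
  -- the lattice
  obtain ⟨F, hF⟩ : ∃ F : Submodule (Polynomial κ) H,
      ∀ x, x ∈ F ↔ x ∈ EE nab br k ∧ x ∈ Hprim S nab br :=
    ⟨EE nab br k ⊓ (Hprim S nab br).restrictScalars (Polynomial κ), fun x => Iff.rfl⟩
  have hFfg : F.FG := by
    have hN : IsNoetherian (Polynomial κ) (EE nab br k) :=
      isNoetherian_of_fg_of_noetherian _ (EE_fg hn hS hG k)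
    exact isNoetherian_submodule.1 hN F (fun x hx => ((hF x).1 hx).1)
  have : Module.Finite (Polynomial κ) F := Module.Finite.iff_fg.2 hFfg
  have : Module.IsTorsionFree (Polynomial κ) F := by
    rw [Module.isTorsionFree_iff_smul_eq_zero]
    intro q x hqx
    have h1 : q • (x : H) = 0 := by
      rw [← Submodule.coe_smul, hqx]
      rfl
    rcases htf q x h1 with h | h
    · left
      exact h
    · right
      exact Subtype.ext h
  obtain ⟨r, B⟩ : Σ r : ℕ, Module.Basis (Fin r) (Polynomial κ) F :=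
    Module.basisOfFiniteTypeTorsionFree'
  obtain ⟨b, hb⟩ : ∃ b : Fin r → H, b = fun i => ((B i : F) : H) := ⟨_, rfl⟩
  have hbF : ∀ i, b i ∈ F := by
    intro i
    rw [hb]
    exact (B i).2
  have hrepr : ∀ x ∈ F, ∃ a : Fin r → Polynomial κ, x = ∑ i, a i • b i := by
    intro x hx
    refine ⟨fun i => B.repr ⟨x, hx⟩ i, ?_⟩
    have h1 := congrArg (fun z : F => (z : H)) (B.sum_repr ⟨x, hx⟩)
    simp only [AddSubmonoidClass.coe_finsetSum, Submodule.coe_smul] at h1
    rw [hb]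
    exact h1.symm
  have hliR : LinearIndependent (Polynomial κ) b := by
    have h1 := B.linearIndependent.map' F.subtype (Submodule.ker_subtype F)
    rw [hb]
    exact h1
  have hliK : LinearIndependent (RatFunc κ) b :=
    (LinearIndependent.iff_fractionRing (Polynomial κ) (RatFunc κ)).1 hliR
  have hspan : Submodule.span (RatFunc κ) (Set.range b) = Hprim S nab br := by
    apply le_antisymm
    · rw [Submodule.span_le]
      rintro x ⟨i, rfl⟩
      exact ((hF _).1 (hbF i)).2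
    · intro x hx
      obtain ⟨q, hq, hqx⟩ := EE_span hG k x
      obtain ⟨a, ha⟩ := hrepr (q • x) ((hF _).2 ⟨hqx, hPsmul q x hx⟩)
      have hq' : algebraMap (Polynomial κ) (RatFunc κ) q ≠ 0 := by
        intro h
        exact hq ((map_eq_zero_iff _
          (FaithfulSMul.algebraMap_injective (Polynomial κ) (RatFunc κ))).1 h)
      have h1 : x = (algebraMap (Polynomial κ) (RatFunc κ) q)⁻¹ • (q • x) := by
        rw [← algebraMap_smul (RatFunc κ) q x, smul_smul, inv_mul_cancel₀ hq', one_smul]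
      rw [h1, ha]
      refine Submodule.smul_mem _ _ (Submodule.sum_mem _ fun i _ => ?_)
      rw [← algebraMap_smul (RatFunc κ) (a i) (b i)]
      exact Submodule.smul_mem _ _ (Submodule.subset_span ⟨i, rfl⟩)
  -- the class
  have hu_not : u ∉ EE nab br k := by
    intro hcon
    refine irrB_stable hn hS hG hne k fun x hx _ => ?_
    obtain ⟨p, hp⟩ := EE_succ hS hG k (nab x) (EE_nab hG k x hx)
    rw [← hu] at hp
    have h1 := Submodule.add_mem _ hp (Submodule.smul_mem _ p hcon)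
    rwa [sub_add_cancel] at h1
  obtain ⟨I, hI⟩ : ∃ I : Ideal (Polynomial κ), ∀ a, a ∈ I ↔ a • u ∈ EE nab br k :=
    ⟨(EE nab br k).comap (LinearMap.toSpanSingleton (Polynomial κ) H u), fun a => by
      rw [Submodule.mem_comap, LinearMap.toSpanSingleton_apply]⟩
  obtain ⟨g, hg⟩ : ∃ g : Polynomial κ, ∀ a, a • u ∈ EE nab br k ↔ g ∣ a := by
    obtain ⟨g, hg⟩ := (IsPrincipalIdealRing.principal I).principal
    refine ⟨g, fun a => ?_⟩
    rw [← hI, hg]
    exact Ideal.mem_span_singleton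
  have hgδ : g ∣ S.δ := (hg _).1 hδu
  have hgu : ¬ IsUnit g := by
    intro h
    apply hu_not
    have h1 := (hg 1).2 h.dvd
    rwa [one_smul] at h1
  have hsq : Squarefree S.δ := hS.sep.squarefree
  obtain ⟨ε, hε⟩ := hrepr (S.δ • u) ((hF _).2 ⟨hδu, hPsmul _ _ hu_mem⟩)
  have hpE : ∀ j, ∃ pE : Polynomial κ × (Fin r → Polynomial κ),
      nab (b j) - pE.1 • u = ∑ i, pE.2 i • b i := by
    intro j
    obtain ⟨p, hp⟩ := EE_succ hS hG k (nab (b j)) (EE_nab hG k _ ((hF _).1 (hbF j)).1)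
    rw [← hu] at hp
    obtain ⟨a, ha⟩ := hrepr (nab (b j) - p • u) ((hF _).2 ⟨hp, Submodule.sub_mem _
      (Hprim_nab hG _ ((hF _).1 (hbF j)).2) (hPsmul _ _ hu_mem)⟩)
    exact ⟨(p, a), ha⟩
  choose pE hpE using hpE
  have hEmem : ∀ j, nab (b j) - (pE j).1 • u ∈ EE nab br k := by
    intro j
    rw [hpE j]
    exact Submodule.sum_mem _ fun i _ => Submodule.smul_mem _ _ ((hF _).1 (hbF i)).1
  -- the factor
  obtain ⟨j0, hj0⟩ : ∃ j, ¬ g ∣ (pE j).1 := by
    by_contra hcon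
    push Not at hcon
    have hnb : ∀ j, nab (b j) ∈ EE nab br k := by
      intro j
      have h1 := Submodule.add_mem _ (hEmem j) ((hg _).2 (hcon j))
      rwa [sub_add_cancel] at h1
    refine irrB_stable hn hS hG hne k fun x hx hx' => ?_
    obtain ⟨a, ha⟩ := hrepr x ((hF x).2 ⟨hx, hx'⟩)
    rw [ha, map_sum]
    refine Submodule.sum_mem _ fun i _ => ?_
    rw [irrB_nab hG]
    exact Submodule.add_mem _ (Submodule.smul_mem _ _ ((hF _).1 (hbF i)).1)
      (Submodule.smul_mem _ _ (hnb i))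
  obtain ⟨δ₁, hδ₁, hδ₁g, hδ₁p⟩ : ∃ δ₁ : Polynomial κ, Irreducible δ₁ ∧ δ₁ ∣ g ∧ ¬ δ₁ ∣ (pE j0).1 := by
    obtain ⟨g', hg'⟩ : EuclideanDomain.gcd g (pE j0).1 ∣ g := EuclideanDomain.gcd_dvd_left _ _
    have hg'u : ¬ IsUnit g' := by
      intro h
      apply hj0
      have h1 : g ∣ EuclideanDomain.gcd g (pE j0).1 := by
        obtain ⟨v, hv⟩ := h.exists_right_inv
        refine ⟨v, ?_⟩
        conv_rhs => rw [hg', mul_assoc, hv, mul_one]
      exact h1.trans (EuclideanDomain.gcd_dvd_right _ _)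
    have hg'0 : g' ≠ 0 := by
      intro h
      rw [h, mul_zero] at hg'
      exact hS.sep.ne_zero (zero_dvd_iff.1 (hg' ▸ hgδ))
    obtain ⟨δ₁, hδ₁, hd1⟩ := WfDvdMonoid.exists_irreducible_factor hg'u hg'0
    refine ⟨δ₁, hδ₁, hd1.trans ⟨_, by rw [mul_comm]; exact hg'⟩, fun hd2 => ?_⟩
    have h2 : δ₁ ∣ g := hd1.trans ⟨_, by rw [mul_comm]; exact hg'⟩
    have h3 : δ₁ ∣ EuclideanDomain.gcd g (pE j0).1 := EuclideanDomain.dvd_gcd h2 hd2
    have h4 : δ₁ * δ₁ ∣ g := by
      rw [hg']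
      exact mul_dvd_mul h3 hd1
    exact hδ₁.not_isUnit (hsq _ (h4.trans hgδ))
  refine ⟨r, b, Matrix.of fun i j => ε i * (pE j).1 + S.δ * (pE j).2 i,
    Matrix.of fun i j => (pE j).2 i, ε, fun j => (pE j).1, hliK, hspan, ?_, ?_, δ₁, hδ₁,
    hδ₁g.trans hgδ, ?_, ?_, ⟨j0, hδ₁p⟩⟩
  · intro j
    have h1 : nab (b j) = (pE j).1 • u + ∑ i, (pE j).2 i • b i := by
      rw [← hpE j, add_sub_cancel]
    rw [h1, smul_add, smul_comm, hε, Finset.smul_sum, Finset.smul_sum, ← Finset.sum_add_distrib]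
    refine Finset.sum_congr rfl fun i _ => ?_
    rw [Matrix.of_apply, smul_smul, smul_smul, ← add_smul, mul_comm (pE j).1]
  · intro i j
    rfl
  · have h1 := residue_exp hS hG k
    rw [← hu] at h1
    have h2 : nab (S.δ • u) - (∑ i, ε i * (pE i).1) • u ∈ EE nab br k := by
      have h3 : nab (S.δ • u) - (∑ i, ε i * (pE i).1) • u =
          ∑ i, (Polynomial.derivative (ε i) • b i + ε i • (nab (b i) - (pE i).1 • u)) := by
        rw [hε, map_sum, Finset.sum_smul, ← Finset.sum_sub_distrib]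
        refine Finset.sum_congr rfl fun i _ => ?_
        rw [irrB_nab hG, smul_sub, smul_smul, add_sub_assoc]
      rw [h3]
      exact Submodule.sum_mem _ fun i _ => Submodule.add_mem _
        (Submodule.smul_mem _ _ ((hF _).1 (hbF i)).1) (Submodule.smul_mem _ _ (hEmem i))
    have h4 := Submodule.sub_mem _ h1 h2
    have h5 : nab (S.δ • u) -
        (Polynomial.C ((n : κ) / 2 - 1 - k) * Polynomial.derivative S.δ) • u -
        (nab (S.δ • u) - (∑ i, ε i * (pE i).1) • u) =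
        ((∑ i, ε i * (pE i).1) -
          Polynomial.C ((n : κ) / 2 - 1 - k) * Polynomial.derivative S.δ) • u := by
      rw [sub_smul]
      abel
    rw [h5] at h4
    obtain ⟨c, hc⟩ := hδ₁g.trans ((hg _).1 h4)
    refine ⟨c, ?_⟩
    rw [← hc]
    ring
  · by_contra hcon
    push Not at hcon
    choose e he using hcon
    obtain ⟨δ₂, hδ₂⟩ := hδ₁g.trans hgδ
    have h1 : δ₁ • (δ₂ • u - ∑ i, e i • b i) = 0 := by
      rw [smul_sub, smul_smul, ← hδ₂, Finset.smul_sum, hε, sub_eq_zero]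
      refine Finset.sum_congr rfl fun i _ => ?_
      rw [smul_smul, ← he i]
    rcases htf _ _ h1 with h2 | h2
    · exact absurd h2 hδ₁.ne_zero
    · rw [sub_eq_zero] at h2
      have h3 : g ∣ δ₂ := by
        rw [← hg, h2]
        exact Submodule.sum_mem _ fun i _ => Submodule.smul_mem _ _ ((hF _).1 (hbF i)).1
      have h4 : δ₁ * δ₁ ∣ S.δ := by
        rw [hδ₂]
        exact mul_dvd_mul_left _ (hδ₁g.trans h3)
      exact hδ₁.not_isUnit (hsq _ h4)

end MPadcHM
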