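import Pool.Agent.Lib.MP_adc574_ag_HM.IsoDefs

/-!
# JOB IsoA: horizontal lifts

`R = K[[s]]`, `∂` a derivation of `R` with `∂ s = 1`, `P` an additive operator on `R^I` with `P (r x) = ∂ r x + r P x`.
* `lift_exists` (part a): `y = ∑_m (-s)^m / m! P^m x`. Coefficientwise: `coeff k (y i) = ∑_{m ≤ k} (-1)^m / m! coeff (k - m) ((P^[m] x) i)`. So for every `N` `y = y_N + s^N z`, `y_N = ∑_{m < N} (-1)^m / m! s^m P^m x` (for `k < N` the coefficients agree; `PowerSeries.X_pow_dvd_iff`).
  `∂ (C c) = 0`? Not assumed: the constants `c = (-1)^m / m!` are rational numbers, `∂ (C c) = 0` for rational `c` (a derivation over `ℤ` of a `ℚ`-algebra kills rational constants: `m! ∂ (C (m!)⁻¹) + (m!)⁻¹ ∂ (m!) = 0`). `∂ (s^m) = m s^(m-1)`. So `P y_N = ∑_{m<N} [(-1)^m / m! m s^(m-1) P^m x + (-1)^m / m! s^m P^(m+1) x]`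
  telescopes to `(-1)^(N-1) / (N-1)! s^(N-1) P^N x`, and `P (s^N z) = N s^(N-1) z + s^N P z`: all coefficients of `P y` of index `< N - 1` vanish, for all `N`: `P y = 0`.
* `lift_unique` (part a): `P y = 0`, all `constantCoeff (y i) = 0`. If `y ≠ 0`, let `m ≥ 1` be maximal with `y = s^m z` (minimal order of the `y i`), so not all `constantCoeff (z i)` are 0. `0 = P y = m s^(m-1) z + s^m P z`, so `m z + s P z = 0`, and the constant coefficients give `m constantCoeff (z i) = 0`.
  Or: prove by induction on `m` that `y ∈ s^m R^I`.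
* `lift_lattice` (part b): `L i ⊂ K` `M`-subspaces (`M ⊂ K`, characteristic 0). If `P` preserves `{z | ∀ i k, coeff k (z i) ∈ L i}` and `x` is in it then the horizontal lift `y` of `x` is: by `lift_unique` `y` is the `y` of `lift_exists`; its coefficients of index `< N` are those of `y_N`, `M`-combinations of coefficients of the `P^m x`.
* `closed_fg` (part b): a submodule `Q` of the finite free module `R^I` is closed for the `s`-adic topology: `R` is a discrete valuation ring (Noetherian local, `PowerSeries` over a field), `R^I / Q` is a finite module, Krull: `⋂ s^N (R^I / Q) = 0` (`Ideal.iInf_pow_smul_eq_bot_of_isLocalRing` for the maximal ideal, or the ideal `(X) ≠ ⊤`).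
* `lift_sub` (part b): if `P Q ⊂ Q`, `x ∈ Q` then `y ∈ Q`: `y = y_N + s^N z`, `y_N ∈ Q`; `closed_fg`.
-/

set_option autoImplicit false

namespace MPadcHM

open MPadcLP PowerSeries

universe u

variable {K : Type u} [Field K] [CharZero K] {I : Type} [Fintype I]

private theorem isoaa_mul {R : Type*} [CommRing R] (D : Der R) (a b : R) :
    D (a * b) = a * D b + b * D a := by
  rw [Derivation.leibniz, smul_eq_mul, smul_eq_mul]

private theorem isoaa_nat {R : Type*} [CommRing R] (D : Der R) (n : ℕ) : D (n : R) = 0 :=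
  Derivation.map_natCast D n

private theorem isoaa_int {R : Type*} [CommRing R] (D : Der R) (n : ℤ) : D (n : R) = 0 :=
  Derivation.map_intCast D n

private theorem isoaa_one {R : Type*} [CommRing R] (D : Der R) : D (1 : R) = 0 :=
  Derivation.map_one_eq_zero D

private theorem isoaa_powR {R : Type*} [CommRing R] (D : Der R) (x : R) (hD : D x = 1) (m : ℕ) :
    D (x ^ (m + 1)) = ((m + 1 : ℕ) : R) * x ^ m := by
  rw [Derivation.leibniz_pow, hD, Nat.add_sub_cancel, smul_eq_mul, mul_one, nsmul_eq_mul]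

private theorem isoaa_zero {K : Type*} [Field K] {r : PowerSeries K}
    (h : ∀ N : ℕ, (X ^ N : PowerSeries K) ∣ r) : r = 0 := by
  ext k
  rw [map_zero]
  exact (X_pow_dvd_iff.1 (h (k + 1))) k (Nat.lt_succ_self k)

private theorem isoaa_const (D : Der (PowerSeries K)) (m : ℕ) :
    D (C ((-1) ^ m * (m.factorial : K)⁻¹)) = 0 := by
  have hf : (m.factorial : K) ≠ 0 := Nat.cast_ne_zero.2 (Nat.factorial_ne_zero m)
  have h1 : ((m.factorial : ℕ) : PowerSeries K) = C ((m.factorial : ℕ) : K) := (map_natCast C _).symm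
  have e : (C ((-1) ^ m * (m.factorial : K)⁻¹) : PowerSeries K) * ((m.factorial : ℕ) : PowerSeries K) =
      (((-1) ^ m : ℤ) : PowerSeries K) := by
    rw [h1, ← map_mul, mul_assoc, inv_mul_cancel₀ hf, mul_one]
    push_cast
    rw [map_pow, map_neg, map_one]
  have h2 := congrArg D e
  rw [isoaa_mul, isoaa_nat, isoaa_int, mul_zero, zero_add] at h2
  have hf2 : ((m.factorial : ℕ) : PowerSeries K) ≠ 0 := by
    rw [h1]
    intro h3
    exact hf (C_injective (h3.trans (map_zero C).symm))
  exact (mul_eq_zero.1 h2).resolve_left hf2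

private theorem isoaa_pow {K : Type*} [Field K] (D : Der (PowerSeries K)) (hD : D X = 1) (m : ℕ) :
    D ((X : PowerSeries K) ^ (m + 1)) = ((m + 1 : ℕ) : PowerSeries K) * X ^ m :=
  isoaa_powR D X hD m

private theorem isoaa_coef (m : ℕ) :
    (C ((-1) ^ (m + 1) * ((m + 1).factorial : K)⁻¹) : PowerSeries K) * ((m + 1 : ℕ) : PowerSeries K) =
      - C ((-1) ^ m * (m.factorial : K)⁻¹) := by
  have h1 : ((m + 1 : ℕ) : PowerSeries K) = C ((m + 1 : ℕ) : K) := (map_natCast C _).symm
  have hf : (m.factorial : K) ≠ 0 := Nat.cast_ne_zero.2 (Nat.factorial_ne_zero m)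
  have hm : ((m + 1 : ℕ) : K) ≠ 0 := Nat.cast_ne_zero.2 (Nat.succ_ne_zero m)
  rw [h1, ← map_mul, ← map_neg]
  congr 1
  rw [Nat.factorial_succ, Nat.cast_mul, pow_succ]
  field_simp

private theorem isoaa_tel (D : Der (PowerSeries K)) (hD : D X = 1)
    (P : (I → PowerSeries K) →+ (I → PowerSeries K))
    (hP : ∀ (r : PowerSeries K) (x : I → PowerSeries K), P (r • x) = D r • x + r • P x)
    (x : I → PowerSeries K) (n : ℕ) :
    P (∑ m ∈ Finset.range (n + 1),
      (C ((-1) ^ m * (m.factorial : K)⁻¹) * X ^ m : PowerSeries K) • P^[m] x) =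
      (C ((-1) ^ n * (n.factorial : K)⁻¹) * X ^ n : PowerSeries K) • P^[n + 1] x := by
  induction n with
  | zero =>
    have e0 : D (C ((-1) ^ 0 * ((Nat.factorial 0 : ℕ) : K)⁻¹) * X ^ 0 : PowerSeries K) = 0 := by
      rw [isoaa_mul, isoaa_const, mul_zero, add_zero, pow_zero (X : PowerSeries K), isoaa_one, mul_zero]
    rw [zero_add, Finset.sum_range_one, hP, e0, zero_smul, zero_add]
    rfl
  | succ n ih =>
    have e1 : D (C ((-1) ^ (n + 1) * ((n + 1).factorial : K)⁻¹) * X ^ (n + 1) : PowerSeries K) =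
        - (C ((-1) ^ n * (n.factorial : K)⁻¹) * X ^ n) := by
      rw [isoaa_mul, isoaa_const, mul_zero, add_zero, isoaa_pow D hD, ← mul_assoc, isoaa_coef,
        neg_mul]
    rw [Finset.sum_range_succ, map_add, ih, hP, e1, neg_smul,
      ← add_assoc, add_neg_cancel, zero_add, Function.iterate_succ_apply' P (n + 1)]

theorem lift_exists (D : Der (PowerSeries K)) (hD : D X = 1)
    (P : (I → PowerSeries K) →+ (I → PowerSeries K))
    (hP : ∀ (r : PowerSeries K) (x : I → PowerSeries K), P (r • x) = D r • x + r • P x)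
    (x : I → PowerSeries K) :
    ∃ y : I → PowerSeries K, P y = 0 ∧ (∀ i, constantCoeff (y i) = constantCoeff (x i)) ∧
      ∀ N : ℕ, ∃ z : I → PowerSeries K,
        y = ∑ m ∈ Finset.range N,
          (C ((-1) ^ m * (m.factorial : K)⁻¹) * X ^ m : PowerSeries K) • P^[m] x +
            (X ^ N : PowerSeries K) • z := by
  classical
  let y : I → PowerSeries K := fun i => PowerSeries.mk fun k =>
    ∑ m ∈ Finset.range (k + 1), ((-1) ^ m * (m.factorial : K)⁻¹) * coeff (k - m) ((P^[m] x) i)
  have hy : ∀ N : ℕ, ∃ z : I → PowerSeries K,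
      y = ∑ m ∈ Finset.range N,
          (C ((-1) ^ m * (m.factorial : K)⁻¹) * X ^ m : PowerSeries K) • P^[m] x +
            (X ^ N : PowerSeries K) • z := by
    intro N
    have hdvd : ∀ i, (X ^ N : PowerSeries K) ∣ y i - (∑ m ∈ Finset.range N,
        (C ((-1) ^ m * (m.factorial : K)⁻¹) * X ^ m : PowerSeries K) • P^[m] x) i := by
      intro i
      rw [X_pow_dvd_iff]
      intro k hk
      rw [map_sub, Finset.sum_apply, map_sum, sub_eq_zero]
      have h1 : coeff k (y i) = ∑ m ∈ Finset.range (k + 1),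
          ((-1) ^ m * (m.factorial : K)⁻¹) * coeff (k - m) ((P^[m] x) i) := coeff_mk _ _
      rw [h1]
      have h2 : ∀ m ∈ Finset.range N, coeff k
          (((C ((-1) ^ m * (m.factorial : K)⁻¹) * X ^ m : PowerSeries K) • P^[m] x) i) =
          if m ≤ k then ((-1) ^ m * (m.factorial : K)⁻¹) * coeff (k - m) ((P^[m] x) i) else 0 := by
        intro m _
        rw [Pi.smul_apply, smul_eq_mul, mul_assoc, coeff_C_mul, coeff_X_pow_mul']
        split_ifs <;> simp
      rw [Finset.sum_congr rfl h2, ← Finset.sum_filter]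
      refine Finset.sum_congr ?_ fun _ _ => rfl
      ext m
      rw [Finset.mem_filter, Finset.mem_range, Finset.mem_range]
      omega
    choose z hz using hdvd
    refine ⟨z, funext fun i => ?_⟩
    have h3 := hz i
    rw [Pi.add_apply, Pi.smul_apply, smul_eq_mul, ← h3]
    ring
  refine ⟨y, ?_, fun i => ?_, hy⟩
  · funext i
    refine isoaa_zero fun N => ?_
    obtain ⟨z, hz⟩ := hy (N + 1)
    have h1 : P y = (C ((-1) ^ N * (N.factorial : K)⁻¹) * X ^ N : PowerSeries K) • P^[N + 1] x +
        ((((N + 1 : ℕ) : PowerSeries K) * X ^ N) • z + (X ^ (N + 1) : PowerSeries K) • P z) := by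
      rw [hz, map_add, isoaa_tel D hD P hP, hP, isoaa_pow D hD]
    rw [h1]
    refine ⟨C ((-1) ^ N * (N.factorial : K)⁻¹) * (P^[N + 1] x) i +
      (((N + 1 : ℕ) : PowerSeries K) * z i + X * P z i), ?_⟩
    simp only [Pi.add_apply, Pi.smul_apply, smul_eq_mul]
    rw [pow_succ]
    ring
  · rw [← coeff_zero_eq_constantCoeff_apply, ← coeff_zero_eq_constantCoeff_apply]
    show coeff 0 (PowerSeries.mk _) = _
    rw [coeff_mk]
    simp

theorem lift_unique (D : Der (PowerSeries K)) (hD : D X = 1)
    (P : (I → PowerSeries K) →+ (I → PowerSeries K))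
    (hP : ∀ (r : PowerSeries K) (x : I → PowerSeries K), P (r • x) = D r • x + r • P x)
    (y : I → PowerSeries K) (hy : P y = 0) (h0 : ∀ i, constantCoeff (y i) = 0) : y = 0 := by
  have key : ∀ m : ℕ, ∃ z : I → PowerSeries K, y = (X ^ m : PowerSeries K) • z := by
    intro m
    induction m with
    | zero => exact ⟨y, by rw [pow_zero, one_smul]⟩
    | succ m ih =>
      obtain ⟨z, hz⟩ := ih
      have hcc : ∀ i, constantCoeff (z i) = 0 := by
        intro i
        rcases Nat.eq_zero_or_pos m with hm | hm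
        · rw [hm, pow_zero, one_smul] at hz
          rw [← hz]
          exact h0 i
        · obtain ⟨k, rfl⟩ : ∃ k, m = k + 1 := ⟨m - 1, by omega⟩
          have h1 : P y = (((k + 1 : ℕ) : PowerSeries K) * X ^ k) • z +
              (X ^ (k + 1) : PowerSeries K) • P z := by
            rw [hz, hP, isoaa_pow D hD]
          rw [hy] at h1
          have h2 := congrFun h1 i
          simp only [Pi.add_apply, Pi.smul_apply, smul_eq_mul, Pi.zero_apply] at h2
          have h3 : (X ^ k : PowerSeries K) * (((k + 1 : ℕ) : PowerSeries K) * z i + X * P z i) = 0 := by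
            rw [h2, pow_succ]
            ring
          have h4 := (mul_eq_zero.1 h3).resolve_left (pow_ne_zero k X_ne_zero)
          have h5 := congrArg constantCoeff h4
          rw [map_add, map_mul, map_mul, constantCoeff_X, zero_mul, add_zero, map_natCast,
            map_zero] at h5
          exact (mul_eq_zero.1 h5).resolve_left (Nat.cast_ne_zero.2 (Nat.succ_ne_zero k))
      have hd : ∀ i, ∃ w : PowerSeries K, z i = X * w := fun i => X_dvd_iff.2 (hcc i)
      choose w hw using hd
      refine ⟨w, ?_⟩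
      rw [hz]
      funext i
      rw [Pi.smul_apply, Pi.smul_apply, smul_eq_mul, smul_eq_mul, hw i, pow_succ, mul_assoc]
  funext i
  refine isoaa_zero fun N => ?_
  obtain ⟨z, hz⟩ := key N
  rw [hz]
  exact ⟨z i, rfl⟩

private theorem isoab_eq (D : Der (PowerSeries K)) (hD : D X = 1)
    (P : (I → PowerSeries K) →+ (I → PowerSeries K))
    (hP : ∀ (r : PowerSeries K) (x : I → PowerSeries K), P (r • x) = D r • x + r • P x)
    (x y : I → PowerSeries K) (hy : P y = 0)
    (hxy : ∀ i, constantCoeff (y i) = constantCoeff (x i)) (N : ℕ) :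
    ∃ z : I → PowerSeries K,
        y = ∑ m ∈ Finset.range N,
          (C ((-1) ^ m * (m.factorial : K)⁻¹) * X ^ m : PowerSeries K) • P^[m] x +
            (X ^ N : PowerSeries K) • z := by
  obtain ⟨y', h1, h2, h3⟩ := lift_exists D hD P hP x
  have h4 : y - y' = 0 := by
    refine lift_unique D hD P hP (y - y') (by rw [map_sub, hy, h1, sub_zero]) ?_
    intro i
    rw [Pi.sub_apply, map_sub, hxy i, h2 i, sub_self]
  rw [sub_eq_zero] at h4
  rw [h4]
  exact h3 N

theorem lift_lattice {M : Type u} [Field M] [CharZero M] [Algebra M K] (L : I → Submodule M K)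
    (D : Der (PowerSeries K)) (hD : D X = 1)
    (P : (I → PowerSeries K) →+ (I → PowerSeries K))
    (hP : ∀ (r : PowerSeries K) (x : I → PowerSeries K), P (r • x) = D r • x + r • P x)
    (hL : ∀ x : I → PowerSeries K, (∀ i k, coeff k (x i) ∈ L i) → ∀ i k, coeff k (P x i) ∈ L i)
    (x y : I → PowerSeries K) (hx : ∀ i k, coeff k (x i) ∈ L i) (hy : P y = 0)
    (hxy : ∀ i, constantCoeff (y i) = constantCoeff (x i)) : ∀ i k, coeff k (y i) ∈ L i := by
  intro i k
  have hit : ∀ m : ℕ, ∀ i k, coeff k ((P^[m] x) i) ∈ L i := by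
    intro m
    induction m with
    | zero => exact hx
    | succ n ih =>
      rw [Function.iterate_succ_apply']
      exact hL _ ih
  obtain ⟨z, hz⟩ := isoab_eq D hD P hP x y hy hxy (k + 1)
  rw [hz]
  have h1 : (∑ m ∈ Finset.range (k + 1),
          (C ((-1) ^ m * (m.factorial : K)⁻¹) * X ^ m : PowerSeries K) • P^[m] x +
            (X ^ (k + 1) : PowerSeries K) • z) i =
      ∑ m ∈ Finset.range (k + 1),
          (C ((-1) ^ m * (m.factorial : K)⁻¹) * X ^ m : PowerSeries K) * (P^[m] x) i +
            (X ^ (k + 1) : PowerSeries K) * z i := by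
    rw [Pi.add_apply, Finset.sum_apply]
    rfl
  rw [h1, map_add, map_sum]
  refine (L i).add_mem ((L i).sum_mem ?_) ?_
  · intro m hm
    rw [mul_assoc, coeff_C_mul, coeff_X_pow_mul']
    split_ifs with h
    · have h2 : ((-1) ^ m * (m.factorial : K)⁻¹) =
          algebraMap M K ((-1) ^ m * (m.factorial : M)⁻¹) := by
        simp only [map_mul, map_pow, map_neg, map_one, map_inv₀, map_natCast]
      rw [h2, ← Algebra.smul_def]
      exact (L i).smul_mem _ (hit m i _)
    · rw [mul_zero]
      exact (L i).zero_mem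
  · rw [coeff_X_pow_mul', if_neg (by omega)]
    exact (L i).zero_mem

theorem closed_fg (Q : Submodule (PowerSeries K) (I → PowerSeries K)) (y : I → PowerSeries K)
    (h : ∀ N : ℕ, ∃ q ∈ Q, ∃ z : I → PowerSeries K, y = q + (X ^ N : PowerSeries K) • z) :
    y ∈ Q := by
  have hX : (Ideal.span {(X : PowerSeries K)} : Ideal (PowerSeries K)) ≠ ⊤ := by
    intro h
    rw [Ideal.span_singleton_eq_top] at h
    exact X_prime.not_unit h
  have hK := Ideal.iInf_pow_smul_eq_bot_of_isLocalRing
    (M := (I → PowerSeries K) ⧸ Q) (Ideal.span {(X : PowerSeries K)}) hX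
  have h1 : (Submodule.Quotient.mk y : (I → PowerSeries K) ⧸ Q) = 0 := by
    rw [← Submodule.mem_bot (PowerSeries K), ← hK, Submodule.mem_iInf]
    intro N
    obtain ⟨q, hq, z, hz⟩ := h N
    have h2 : (Submodule.Quotient.mk y : (I → PowerSeries K) ⧸ Q) =
        (X ^ N : PowerSeries K) • Submodule.Quotient.mk z := by
      rw [hz, Submodule.Quotient.mk_add, (Submodule.Quotient.mk_eq_zero Q).2 hq, zero_add]
      rfl
    rw [h2]
    exact Submodule.smul_mem_smul (Ideal.pow_mem_pow (Ideal.mem_span_singleton_self _) N)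
      Submodule.mem_top
  exact (Submodule.Quotient.mk_eq_zero Q).1 h1

theorem lift_sub (D : Der (PowerSeries K)) (hD : D X = 1)
    (P : (I → PowerSeries K) →+ (I → PowerSeries K))
    (hP : ∀ (r : PowerSeries K) (x : I → PowerSeries K), P (r • x) = D r • x + r • P x)
    (Q : Submodule (PowerSeries K) (I → PowerSeries K)) (hQ : ∀ x ∈ Q, P x ∈ Q)
    (x y : I → PowerSeries K) (hx : x ∈ Q) (hy : P y = 0)
    (hxy : ∀ i, constantCoeff (y i) = constantCoeff (x i)) : y ∈ Q := by
  have hit : ∀ m : ℕ, P^[m] x ∈ Q := by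
    intro m
    induction m with
    | zero => exact hx
    | succ n ih =>
      rw [Function.iterate_succ_apply']
      exact hQ _ ih
  apply closed_fg
  intro N
  obtain ⟨z, hz⟩ := isoab_eq D hD P hP x y hy hxy N
  exact ⟨_, Q.sum_mem (fun m _ => Q.smul_mem _ (hit m)), z, hz⟩

end MPadcHM
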