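import Pool.Agent.Lib.MP_adc574_ag_HM.IsoDefs
import Pool.Agent.Lib.MP_adc574_ag_HM.WA

/-!
# JOB IsoB: `jR : M[[s]][t] → M(t)[[s]]` and degrees in `t`

* `jR_coeff`: `coeff k (jR a) = algebraMap p`, `p = ∑ i, (coeff k (a_i)) t^i` (`jR a = ∑ i, map (a_i) * C X^i`; `PowerSeries.coeff_map`, `algebraMap κ K x * X^i = algebraMap (monomial i x)`).
* `jR_injective` from it. `jR_const`: `k = 0`: `constantCoeff (jR a) = algebraMap (a.map constantCoeff)`.
* `jR_range`: if all coefficients of `r` are polynomials of degree `≤ D` then `r = jR a`: `a = ∑_{i ≤ D} t^i (∑_k (coefficient of t^i in coeff k r) s^k)`.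
* `dsR_jR`, `dtR_jR`: coefficientwise (`coeff_dsR`, `coeff_dtR`, `coeff_dsP`-like `coeff_polyDer`, `DK_poly`), or by induction on polynomials.
* `dsR_dtR`: the two derivations commute (coefficientwise: `DK (c * (k+1)) = DK c * (k+1)`).
* `DegR d m r`: all coefficients of `r` satisfy `Bd d m`. `DegR_mul`: `coeff k (a b) = ∑ ..`, `Bd_mul`, sums. `DegR_inv`: let `a0 = constantCoeff a ≠ 0` with `intDegree a0 = μ`, `DegR d (d μ) a`. Then `DegR d (- d μ) a⁻¹`: `coeff 0 (a⁻¹) = a0⁻¹` has degree `-μ`, and `coeff k (a⁻¹) = - a0⁻¹ ∑_{i+j=k, j<k} coeff i a * coeff j (a⁻¹)` (`PowerSeries.coeff_inv`):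
  strong induction, degrees `- d μ + d μ + (- d μ)`.
* `DegR_jR`: `DegR d (d natDegree a) (jR a)`.
-/

set_option autoImplicit false

namespace MPadcHM

open MPadcLP PowerSeries

universe u

variable {M : Type u} [Field M]

theorem jR_coeff (a : Polynomial (PowerSeries M)) (k : ℕ) :
    ∃ p : Polynomial M, coeff k (jR M a) = algebraMap (Polynomial M) (RatFunc M) p ∧
      p.natDegree ≤ a.natDegree ∧ ∀ i, p.coeff i = coeff k (a.coeff i) := by
  classical
  have hc : ∀ i, (∑ j ∈ Finset.range (a.natDegree + 1),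
      Polynomial.monomial j (coeff k (a.coeff j))).coeff i = coeff k (a.coeff i) := by
    intro i
    rw [Polynomial.finsetSum_coeff]
    simp only [Polynomial.coeff_monomial, Finset.sum_ite_eq', Finset.mem_range]
    split_ifs with h
    · rfl
    · rw [Polynomial.coeff_eq_zero_of_natDegree_lt (by omega), map_zero]
  refine ⟨∑ j ∈ Finset.range (a.natDegree + 1), Polynomial.monomial j (coeff k (a.coeff j)),
    ?_, ?_, hc⟩
  · have h1 : jR M a = ∑ i ∈ Finset.range (a.natDegree + 1),
        PowerSeries.map (algebraMap M (RatFunc M)) (a.coeff i) *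
          (PowerSeries.C (RatFunc.X : RatFunc M)) ^ i := by
      show Polynomial.eval₂ _ _ a = _
      rw [Polynomial.eval₂_eq_sum_range]
    rw [h1, map_sum, map_sum]
    refine Finset.sum_congr rfl fun i _ => ?_
    rw [← map_pow, PowerSeries.coeff_mul_C, PowerSeries.coeff_map,
      ← Polynomial.C_mul_X_pow_eq_monomial, map_mul, map_pow, RatFunc.algebraMap_X,
      RatFunc.algebraMap_C, RatFunc.algebraMap_eq_C]
  · rw [Polynomial.natDegree_le_iff_coeff_eq_zero]
    intro i hi
    rw [hc, Polynomial.coeff_eq_zero_of_natDegree_lt hi, map_zero]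

private theorem isob_inj {p q : Polynomial M}
    (h : algebraMap (Polynomial M) (RatFunc M) p = algebraMap (Polynomial M) (RatFunc M) q) :
    p = q := IsFractionRing.injective (Polynomial M) (RatFunc M) h

private theorem isob_cast (k : ℕ) : ((k : PowerSeries M) + 1) = PowerSeries.C ((k : M) + 1) := by
  rw [map_add, map_natCast, map_one]

theorem jR_injective : Function.Injective (jR M) := by
  rw [injective_iff_map_eq_zero]
  intro a ha
  refine Polynomial.ext fun i => PowerSeries.ext fun k => ?_
  obtain ⟨p, h1, -, h3⟩ := jR_coeff a k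
  rw [ha, map_zero] at h1
  have h2 : p = 0 := isob_inj (by rw [← h1, map_zero])
  rw [← h3, h2, Polynomial.coeff_zero, Polynomial.coeff_zero, map_zero]

theorem jR_const (a : Polynomial (PowerSeries M)) :
    constantCoeff (jR M a) =
      algebraMap (Polynomial M) (RatFunc M) (a.map (constantCoeff (R := M))) := by
  obtain ⟨p, h1, -, h3⟩ := jR_coeff a 0
  rw [PowerSeries.coeff_zero_eq_constantCoeff] at h1
  have h2 : p = a.map (constantCoeff (R := M)) := by
    refine Polynomial.ext fun i => ?_
    rw [h3, Polynomial.coeff_map, PowerSeries.coeff_zero_eq_constantCoeff]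
  rw [← h2]
  exact h1

theorem jR_range (r : PowerSeries (RatFunc M)) (D : ℕ)
    (h : ∀ k, ∃ p : Polynomial M, coeff k r = algebraMap (Polynomial M) (RatFunc M) p ∧
      p.natDegree ≤ D) : ∃ a : Polynomial (PowerSeries M), jR M a = r := by
  classical
  choose P hP hD using h
  have hc : ∀ i, (∑ j ∈ Finset.range (D + 1),
      Polynomial.monomial j (PowerSeries.mk fun k => (P k).coeff j)).coeff i =
      PowerSeries.mk fun k => (P k).coeff i := by
    intro i
    rw [Polynomial.finsetSum_coeff]
    simp only [Polynomial.coeff_monomial, Finset.sum_ite_eq', Finset.mem_range]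
    split_ifs with h
    · rfl
    · refine PowerSeries.ext fun k => ?_
      rw [map_zero, PowerSeries.coeff_mk,
        Polynomial.coeff_eq_zero_of_natDegree_lt (lt_of_le_of_lt (hD k) (by omega))]
  refine ⟨∑ j ∈ Finset.range (D + 1),
    Polynomial.monomial j (PowerSeries.mk fun k => (P k).coeff j), PowerSeries.ext fun k => ?_⟩
  obtain ⟨p, h1, -, h3⟩ := jR_coeff (∑ j ∈ Finset.range (D + 1),
    Polynomial.monomial j (PowerSeries.mk fun k => (P k).coeff j)) k
  have h2 : p = P k := by
    refine Polynomial.ext fun i => ?_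
    rw [h3, hc, PowerSeries.coeff_mk]
  rw [h1, h2, hP]

theorem dsR_jR (a : Polynomial (PowerSeries M)) : dsR (RatFunc M) (jR M a) = jR M (dsP M a) := by
  refine PowerSeries.ext fun k => ?_
  rw [coeff_dsR]
  obtain ⟨p, h1, -, h3⟩ := jR_coeff a (k + 1)
  obtain ⟨q, g1, -, g3⟩ := jR_coeff (dsP M a) k
  have h2 : q = p * Polynomial.C ((k : M) + 1) := by
    refine Polynomial.ext fun i => ?_
    rw [g3, Polynomial.coeff_mul_C, h3]
    unfold dsP
    rw [coeff_polyDer, coeff_dsR]
  rw [h1, g1, h2, map_mul, map_add, map_natCast, map_one, map_add, map_natCast, map_one]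

theorem dtR_jR (a : Polynomial (PowerSeries M)) :
    dtR M (jR M a) = jR M (dtP (PowerSeries M) a) := by
  refine PowerSeries.ext fun k => ?_
  rw [coeff_dtR]
  obtain ⟨p, h1, -, h3⟩ := jR_coeff a k
  obtain ⟨q, g1, -, g3⟩ := jR_coeff (dtP (PowerSeries M) a) k
  have h2 : q = Polynomial.derivative p := by
    refine Polynomial.ext fun i => ?_
    rw [g3, Polynomial.coeff_derivative, h3, dtP_apply, Polynomial.coeff_derivative, isob_cast,
      PowerSeries.coeff_mul_C]
  rw [h1, g1, h2, DK_poly]

theorem dsR_dtR (r : PowerSeries (RatFunc M)) :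
    dsR (RatFunc M) (dtR M r) = dtR M (dsR (RatFunc M) r) := by
  refine PowerSeries.ext fun k => ?_
  rw [coeff_dsR, coeff_dtR, coeff_dtR, coeff_dsR, Derivation.leibniz, map_add,
    Derivation.map_natCast, Derivation.map_one_eq_zero, add_zero, smul_zero, zero_add,
    smul_eq_mul, mul_comm]

/-- All coefficients have degree at most `m / d` in `t`. -/
def DegR (d : ℕ) (m : ℤ) (r : PowerSeries (RatFunc M)) : Prop := ∀ k, Bd d m (coeff k r)

private theorem isobb_zero {d : ℕ} {m : ℤ} : Bd d m (0 : RatFunc M) := Or.inl rfl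

private theorem isobb_sum {d : ℕ} {m : ℤ} {ι : Type*} (s : Finset ι) (f : ι → RatFunc M)
    (h : ∀ i ∈ s, Bd d m (f i)) : Bd d m (∑ i ∈ s, f i) := by
  classical
  induction s using Finset.induction_on with
  | empty =>
    rw [Finset.sum_empty]
    exact isobb_zero
  | insert a s ha ih =>
    rw [Finset.sum_insert ha]
    exact Bd_add (h a (Finset.mem_insert_self _ _))
      (ih fun i hi => h i (Finset.mem_insert_of_mem hi))

theorem DegR_mul {d : ℕ} {m m' : ℤ} {a b : PowerSeries (RatFunc M)} (ha : DegR d m a)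
    (hb : DegR d m' b) : DegR d (m + m') (a * b) := by
  intro k
  rw [PowerSeries.coeff_mul]
  exact isobb_sum _ _ fun x _ => Bd_mul (ha x.1) (hb x.2)

theorem DegR_inv {d : ℕ} {μ : ℤ} {a : PowerSeries (RatFunc M)} (h0 : constantCoeff a ≠ 0)
    (hμ : (constantCoeff a).intDegree = μ) (ha : DegR d (d * μ) a) :
    DegR d (- (d * μ)) a⁻¹ := by
  intro k
  have hinv : Bd d (-((d : ℤ) * μ)) (constantCoeff a)⁻¹ := by
    right
    rw [RatFunc.intDegree_inv, hμ, mul_neg]
  induction k using Nat.strong_induction_on with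
  | _ k ih =>
    rw [PowerSeries.coeff_inv]
    by_cases hk : k = 0
    · rw [if_pos hk]
      exact hinv
    · rw [if_neg hk]
      have h1 : Bd d ((d : ℤ) * μ + -((d : ℤ) * μ))
          (∑ x ∈ Finset.HasAntidiagonal.antidiagonal k,
            if x.2 < k then coeff x.1 a * coeff x.2 a⁻¹ else 0) := by
        refine isobb_sum _ _ fun x _ => ?_
        by_cases hx : x.2 < k
        · rw [if_pos hx]
          exact Bd_mul (ha x.1) (ih x.2 hx)
        · rw [if_neg hx]
          exact isobb_zero
      have hneg : Bd d (-((d : ℤ) * μ)) (-(constantCoeff a)⁻¹) := by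
        rcases hinv with h2 | h2
        · left
          rw [h2, neg_zero]
        · right
          rw [RatFunc.intDegree_neg]
          exact h2
      have h3 := Bd_mul hneg h1
      rw [add_neg_cancel, add_zero] at h3
      exact h3

theorem DegR_jR {d : ℕ} (a : Polynomial (PowerSeries M)) :
    DegR d ((d : ℤ) * a.natDegree) (jR M a) := by
  intro k
  obtain ⟨p, hp, hd, _⟩ := jR_coeff a k
  rw [hp]
  refine Bd_mono (Bd_poly p) ?_
  exact mul_le_mul_of_nonneg_left (by exact_mod_cast hd) (Int.natCast_nonneg d)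

end MPadcHM
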