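import Pool.Agent.Lib.MP_adc574_ag_HM.IsoDefs

/-!
# JOB IsoC: determinants of solutions with a twist

`dform_deriv'`: as `dform_deriv` (KeyA.lean, read its proof; `dform c J = det (c_v(J_u))`) with an additional term: the derivative of the row `v` of the matrix `(c_v(J_u))_{v,u}` is `(∑_i c_v(i) Γ i (J_u))_u + ∑_k γ v k (row k)`. By multilinearity in the rows the second terms
contribute `∑_v ∑_k γ v k det (row v replaced by row k) = ∑_v γ v v det` (two equal rows otherwise). To separate the two: write `D (c v j) = ∑ i, c v i * Γ i j + (γ * c) v j`; `D (det m) = ∑_v det (m with row v replaced by its derivative)` (Leibniz for the determinant; one can also use `Matrix.det_apply'` as in KeyA).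
`dform_conn`: `conn D B (w v) = ∑ k, γ k v • w k` (i.e. `D (w v u) + ∑ B u i w v i = ∑ k, γ k v w k u`): apply `dform_deriv'` with `Γ i j = - B j i`: `D (dform w J) = - act Bᵀ (dform w) J + (∑ γ v v) dform w J`.
`act_add'`-type facts: see EvAct.lean (`act_add`, `act_smul`, `act_add_left`, `act_smul_left`).
-/

set_option autoImplicit false

namespace MPadcHM

open MPadcLP

universe u

variable {γ ι : Type} [Fintype γ] [DecidableEq γ] [Fintype ι] [DecidableEq ι]
  {E : Type u} [CommRing E]

private theorem isoca_leibniz (D : Der E) (s : Finset γ) (f : γ → E) :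
    D (∏ j ∈ s, f j) = ∑ j ∈ s, D (f j) * ∏ k ∈ s.erase j, f k := by
  induction s using Finset.induction_on with
  | empty => rw [Finset.prod_empty, Finset.sum_empty, Derivation.map_one_eq_zero]
  | insert a s ha ih =>
    rw [Finset.prod_insert ha, Derivation.leibniz, ih, Finset.sum_insert ha,
      Finset.erase_insert ha, smul_eq_mul, smul_eq_mul, Finset.mul_sum, add_comm,
      mul_comm (∏ j ∈ s, f j)]
    congr 1
    refine Finset.sum_congr rfl fun j hj => ?_
    have hja : j ≠ a := fun h => ha (h ▸ hj)
    rw [Finset.erase_insert_of_ne hja.symm, Finset.prod_insert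
      (fun h => ha (Finset.mem_of_mem_erase h))]
    ring

private theorem isoca_col (m : Matrix γ γ E) (u : γ) (x : γ → E) :
    (m.updateCol u x).det = ∑ p : Equiv.Perm γ, (((Equiv.Perm.sign p : ℤˣ) : ℤ) : E) *
      (x (p u) * ∏ k ∈ Finset.univ.erase u, m (p k) k) := by
  rw [Matrix.det_apply']
  refine Finset.sum_congr rfl fun p _ => ?_
  congr 1
  rw [← Finset.mul_prod_erase Finset.univ _ (Finset.mem_univ u), Matrix.updateCol_self]
  congr 1
  refine Finset.prod_congr rfl fun k hk => ?_
  rw [Matrix.updateCol_ne (Finset.ne_of_mem_erase hk)]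

private theorem isoca_det (D : Der E) (m : Matrix γ γ E) :
    D m.det = ∑ u, (m.updateCol u fun v => D (m v u)).det := by
  rw [Matrix.det_apply', map_sum]
  have h0 : ∀ p : Equiv.Perm γ, D ((((Equiv.Perm.sign p : ℤˣ) : ℤ) : E) * ∏ u, m (p u) u) =
      ∑ u, (((Equiv.Perm.sign p : ℤˣ) : ℤ) : E) *
        (D (m (p u) u) * ∏ k ∈ Finset.univ.erase u, m (p k) k) := by
    intro p
    rw [Derivation.leibniz, isoca_leibniz, Derivation.map_intCast, smul_zero, add_zero, smul_eq_mul,
      Finset.mul_sum]
  rw [Finset.sum_congr rfl fun p _ => h0 p, Finset.sum_comm]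
  refine Finset.sum_congr rfl fun u _ => ?_
  rw [isoca_col]

private theorem isoca_trace (m g : Matrix γ γ E) :
    ∑ u, (m.updateCol u fun v => (g * m) v u).det = (∑ v, g v v) * m.det := by
  have h1 : ∀ u, (m.updateCol u fun v => (g * m) v u).det = (m.adjugate * (g * m)) u u := by
    intro u
    rw [← Matrix.cramer_apply, Matrix.cramer_eq_adjugate_mulVec, Matrix.mul_apply]
    rfl
  rw [Finset.sum_congr rfl fun u _ => h1 u]
  have h2 : ∑ u, (m.adjugate * (g * m)) u u = Matrix.trace (m.adjugate * (g * m)) := rfl
  rw [h2, Matrix.trace_mul_comm, Matrix.mul_assoc, Matrix.mul_adjugate, Matrix.mul_smul, Matrix.mul_one,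
    Matrix.trace_smul, smul_eq_mul, mul_comm]
  rfl

theorem dform_deriv' (D : Der E) (Γ : Matrix ι ι E) (g : Matrix γ γ E) (c : γ → ι → E)
    (hc : ∀ v j, D (c v j) = ∑ i, c v i * Γ i j + ∑ k, g v k * c k j) (J : γ → ι) :
    D (dform c J) = act Γ (dform c) J + (∑ v, g v v) * dform c J := by
  obtain ⟨m, hm⟩ : ∃ m : Matrix γ γ E, m = Matrix.of fun v u => c v (J u) := ⟨_, rfl⟩
  have hd : dform c J = m.det := by
    rw [hm]
    rfl
  have hmv : ∀ v u, m v u = c v (J u) := by
    intro v u
    rw [hm]
    rfl
  rw [hd, isoca_det D m]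
  have h1 : ∀ u, (m.updateCol u fun v => D (m v u)).det =
      (∑ i, dform c (Function.update J u i) * Γ i (J u)) + (m.updateCol u fun v => (g * m) v u).det := by
    intro u
    have h2 : (fun v => D (m v u)) = (fun v => ∑ i, c v i * Γ i (J u)) + fun v => (g * m) v u := by
      funext v
      show D (m v u) = (∑ i, c v i * Γ i (J u)) + (g * m) v u
      rw [hmv, hc, Matrix.mul_apply]
      congr 1
      exact Finset.sum_congr rfl fun k _ => by rw [hmv]
    rw [h2, Matrix.det_updateCol_add]
    congr 1
    rw [isoca_col]
    have h3 : ∀ i, dform c (Function.update J u i) = ∑ p : Equiv.Perm γ,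
        (((Equiv.Perm.sign p : ℤˣ) : ℤ) : E) * (c (p u) i * ∏ k ∈ Finset.univ.erase u, m (p k) k) := by
      intro i
      have h4 : (Matrix.of fun v k => c v (Function.update J u i k)) = m.updateCol u fun v => c v i := by
        ext v k
        by_cases hk : k = u
        · subst hk
          rw [Matrix.updateCol_self]
          show c v (Function.update J k i k) = c v i
          rw [Function.update_self]
        · rw [Matrix.updateCol_ne hk, hmv]
          show c v (Function.update J u i k) = c v (J k)
          rw [Function.update_of_ne hk]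
      show (Matrix.of fun v k => c v (Function.update J u i k)).det = _
      rw [h4, isoca_col]
    have h5 : ∑ i, dform c (Function.update J u i) * Γ i (J u) = ∑ i, ∑ p : Equiv.Perm γ,
        ((((Equiv.Perm.sign p : ℤˣ) : ℤ) : E) * (c (p u) i * ∏ k ∈ Finset.univ.erase u, m (p k) k)) * Γ i (J u) :=
      Finset.sum_congr rfl fun i _ => by rw [h3 i, Finset.sum_mul]
    rw [h5, Finset.sum_comm]
    refine Finset.sum_congr rfl fun p _ => ?_
    rw [Finset.sum_mul, Finset.mul_sum]
    refine Finset.sum_congr rfl fun i _ => ?_
    ring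
  rw [Finset.sum_congr rfl fun u _ => h1 u, Finset.sum_add_distrib, isoca_trace]
  rfl

theorem dform_conn (D : Der E) (B : Matrix ι ι E) (g : Matrix γ γ E) (w : γ → ι → E)
    (hw : ∀ v, conn D B (w v) = ∑ k, g k v • w k) (J : γ → ι) :
    D (dform w J) + act B.transpose (dform w) J = (∑ v, g v v) * dform w J := by
  have h1 : ∀ v j, D (w v j) = ∑ i, w v i * (-B.transpose) i j + ∑ k, g.transpose v k * w k j := by
    intro v j
    have h2 := congrFun (hw v) j
    rw [Finset.sum_apply] at h2
    have h3 : D (w v j) + ∑ i, B j i * w v i = ∑ k, g k v * w k j := h2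
    have h4 : ∑ i, w v i * (-B.transpose) i j = -∑ i, B j i * w v i := by
      rw [← Finset.sum_neg_distrib]
      refine Finset.sum_congr rfl fun i _ => ?_
      show w v i * (-B j i) = -(B j i * w v i)
      ring
    have h5 : ∑ k, g.transpose v k * w k j = ∑ k, g k v * w k j := rfl
    rw [h4, h5, ← h3]
    ring
  have h2 := dform_deriv' D (-B.transpose) g.transpose w h1 J
  have h3 : act (-B.transpose) (dform w) J = -act B.transpose (dform w) J := by
    unfold act
    rw [← Finset.sum_neg_distrib]
    refine Finset.sum_congr rfl fun j _ => ?_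
    rw [← Finset.sum_neg_distrib]
    refine Finset.sum_congr rfl fun i _ => ?_
    rw [Matrix.neg_apply]
    ring
  have h4 : ∑ v, g.transpose v v = ∑ v, g v v := rfl
  rw [h2, h3, h4]
  ring

private theorem isocb_cramer {E : Type u} [CommRing E] (w : γ → ι → E) (J0 : γ → ι) (v : γ)
    (u : ι) : dform w (Function.update J0 v u) =
      ∑ k, (Matrix.of fun v u => w v (J0 u)).adjugate v k * w k u := by
  have h1 : (Matrix.of fun v' u' => w v' (Function.update J0 v u u')) =
      (Matrix.of fun v u => w v (J0 u)).updateCol v (fun v' => w v' u) := by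
    ext v' u'
    rw [Matrix.updateCol_apply]
    by_cases hu : u' = v
    · subst hu
      simp
    · simp [hu]
  unfold dform
  rw [h1, ← Matrix.cramer_apply, Matrix.cramer_eq_adjugate_mulVec]
  rfl

/-- Plücker coordinates determine the reduced basis: if `det (w_v (J0_u)) ≠ 0` (over a field), then
`x_v := (dform w (J0 with the v-th entry replaced by u) / dform w J0)_u` is the basis of the span of
the `w_v` with `x_v (J0_u) = δ_{uv}`. (Cramer's rule: let `m = (w_v (J0_u))_{v,u}`, the vectors `∑ k, (m⁻¹) v k w_k` are reduced, and `dform` is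
multiplied by `det` under a change of basis.) -/
theorem dform_reduced {F : Type u} [Field F] (w : γ → ι → F) (J0 : γ → ι)
    (h : dform w J0 ≠ 0) :
    Submodule.span F (Set.range fun v : γ => fun u : ι =>
        dform w (Function.update J0 v u) / dform w J0) = Submodule.span F (Set.range w) ∧
      ∀ (v k : γ), dform w (Function.update J0 v (J0 k)) / dform w J0 = if v = k then 1 else 0 := by
  classical
  set m : Matrix γ γ F := Matrix.of fun v u => w v (J0 u) with hm
  have hdet : m.det = dform w J0 := rfl
  have hx : ∀ (v : γ) (u : ι), dform w (Function.update J0 v u) / dform w J0 =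
      ∑ k, (m.adjugate v k / dform w J0) * w k u := by
    intro v u
    rw [isocb_cramer, Finset.sum_div]
    exact Finset.sum_congr rfl fun k _ => by ring
  refine ⟨le_antisymm (Submodule.span_le.2 ?_) (Submodule.span_le.2 ?_), fun v k => ?_⟩
  · rintro _ ⟨v, rfl⟩
    have h1 : (fun u : ι => dform w (Function.update J0 v u) / dform w J0) =
        ∑ k, (m.adjugate v k / dform w J0) • w k := by
      funext u
      rw [hx, Finset.sum_apply]
      rfl
    show (fun u : ι => dform w (Function.update J0 v u) / dform w J0) ∈ _
    rw [h1]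
    exact Submodule.sum_mem _ fun k _ => Submodule.smul_mem _ _
      (Submodule.subset_span (Set.mem_range_self k))
  · rintro _ ⟨v, rfl⟩
    have h1 : w v = ∑ l, m v l • fun u : ι =>
        dform w (Function.update J0 l u) / dform w J0 := by
      funext u
      rw [Finset.sum_apply]
      have h2 : ∀ l, (m v l • fun u : ι => dform w (Function.update J0 l u) / dform w J0) u =
          ∑ k, (m v l * m.adjugate l k) * (w k u / dform w J0) := by
        intro l
        show m v l * (dform w (Function.update J0 l u) / dform w J0) = _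
        rw [hx, Finset.mul_sum]
        exact Finset.sum_congr rfl fun k _ => by ring
      rw [Finset.sum_congr rfl fun l _ => h2 l, Finset.sum_comm]
      have h3 : ∀ k, ∑ l, (m v l * m.adjugate l k) * (w k u / dform w J0) =
          (if v = k then dform w J0 else 0) * (w k u / dform w J0) := by
        intro k
        rw [← Finset.sum_mul, ← Matrix.mul_apply, Matrix.mul_adjugate, Matrix.smul_apply,
          Matrix.one_apply, hdet, smul_eq_mul]
        split_ifs <;> ring
      rw [Finset.sum_congr rfl fun k _ => h3 k]
      simp only [ite_mul, zero_mul, Finset.sum_ite_eq, Finset.mem_univ, if_true]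
      field_simp
    show w v ∈ _
    rw [h1]
    exact Submodule.sum_mem _ fun k _ => Submodule.smul_mem _ _
      (Submodule.subset_span (Set.mem_range_self k))
  · rw [hx]
    have h1 : ∑ l, m.adjugate v l / dform w J0 * w l (J0 k) = (m.adjugate * m) v k / dform w J0 := by
      rw [Matrix.mul_apply, Finset.sum_div]
      exact Finset.sum_congr rfl fun l _ => by
        show m.adjugate v l / dform w J0 * w l (J0 k) = m.adjugate v l * w l (J0 k) / dform w J0
        ring
    rw [h1, Matrix.adjugate_mul, Matrix.smul_apply, Matrix.one_apply, hdet, smul_eq_mul]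
    split_ifs
    · rw [mul_one, div_self h]
    · rw [mul_zero, zero_div]

end MPadcHM
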