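import Pool.Agent.Lib.MP_adc574_ag_HM.IsoA
import Pool.Agent.Lib.MP_adc574_ag_HM.IsoB

/-!
# JOB IsoD: the scalar `y = (δ₁(s) / δ₁(0)) ^ α`

`R = M(t)[[s]]`, `∂s = dsR`, `∂t = dtR`, `D1 = jR δ₁` (its constant coefficient is `algebraMap (δ₁.map constantCoeff) ≠ 0`, `δ₁` is monic, so `D1` is invertible in `R`: `PowerSeries.mul_inv_cancel`), `c = algebraMap (δ₁.map constantCoeff) ∈ K`, `a = C (algebraMap M K α)`.
`ν = a * jR (dsP δ₁) * D1⁻¹`. `P y = ∂s y - ν y` on `R` (`I = Unit`) has `P (r y) = ∂s r y + r P y`, `∂s s = 1`: let `y` be the lift of `1` (`lift_exists`).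
* `∂s y = ν y`.
* `DegR d 0 y` (`lift_lattice` with `L = {x | Bd d 0 x}`, an `M`-subspace of `K`; `P` preserves it: `∂s` does (coefficients are multiplied by integers: `Bd_smul`), and `ν` has `DegR d 0`: `DegR d (d deg δ₁) (jR (dsP δ₁))` (`natDegree (dsP δ₁) ≤ natDegree δ₁`), `DegR_inv` for `D1`: `intDegree c = natDegree δ₁` as `δ₁` is monic (`RatFunc.intDegree_polynomial`).
* Let `κ = a * (jR (dtP δ₁) * D1⁻¹ - C (c' / c))`, `c' = algebraMap (derivative (δ₁.map constantCoeff)) = DK c`. `∂s κ = ∂t ν`: both are `a` times `(∂s∂t D1 * D1 - ∂s D1 ∂t D1) / D1²` (`dsR_jR`, `dtR_jR`, `dsR_dtR`; `C (c'/c)` is constant in `s`; `∂t a = 0`). `η = ∂t y - κ y`: `∂s η = ∂t (ν y) - (∂s κ) y - κ ν y = ν (∂t y - κ y) + (∂t ν - ∂s κ) y = ν η`, and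
  `constantCoeff η = ∂t 1 - 0 = 0` (`constantCoeff κ = 0`: `constantCoeff (jR (dtP δ₁)) = c'`). `lift_unique` (for `P`): `η = 0`.
-/

set_option autoImplicit false

namespace MPadcHM

open MPadcLP PowerSeries

universe u

private theorem isod_dsX (K : Type u) [Field K] : dsR K X = 1 := by
  ext k
  rw [coeff_dsR]
  rcases Nat.eq_zero_or_pos k with h | h
  · subst h
    rw [coeff_X, if_pos rfl, coeff_one, if_pos rfl]
    simp
  · rw [coeff_X, if_neg (by omega), coeff_one, if_neg (by omega), zero_mul]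

private theorem isod_dsC (K : Type u) [Field K] (x : K) : dsR K (C x) = 0 := by
  ext k
  rw [coeff_dsR, coeff_C, if_neg (Nat.succ_ne_zero k), zero_mul, map_zero]

private theorem isod_dtC (M : Type u) [Field M] (x : M) :
    dtR M (C (algebraMap M (RatFunc M) x)) = 0 := by
  ext k
  rw [coeff_dtR, coeff_C, map_zero]
  split_ifs
  · exact DK_C M x
  · exact map_zero _

private theorem isod_leib {R : Type u} [CommRing R] (D : Der R) (a b : R) :
    D (a * b) = a * D b + b * D a := by
  rw [Derivation.leibniz, smul_eq_mul, smul_eq_mul]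

private theorem isod_inv {R : Type u} [CommRing R] (D : Der R) {a b : R} (h : a * b = 1) :
    D b = -(b * b * D a) := by
  have h1 := congrArg D h
  rw [isod_leib, Derivation.map_one_eq_zero] at h1
  have h2 : D b = (a * b) * D b := by rw [h, one_mul]
  rw [h2]
  linear_combination b * h1

private theorem isod_natDegree {M : Type u} [Field M] (a : Polynomial (PowerSeries M)) :
    (dsP M a).natDegree ≤ a.natDegree := by
  rw [Polynomial.natDegree_le_iff_coeff_eq_zero]
  intro k hk
  change (polyDer (dsR M) a).coeff k = 0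
  rw [coeff_polyDer, Polynomial.coeff_eq_zero_of_natDegree_lt hk, map_zero]

private theorem isod_degC {M : Type u} [Field M] {d : ℕ} {m : ℤ} (α : M)
    {r : PowerSeries (RatFunc M)} (h : DegR d m r) :
    DegR d m (C (algebraMap M (RatFunc M) α) * r) := by
  intro k
  rw [coeff_C_mul, ← Algebra.smul_def]
  exact Bd_smul α (h k)

private theorem isod_sub {M : Type u} [Field M] {d : ℕ} {m : ℤ}
    {r s : PowerSeries (RatFunc M)} (hr : DegR d m r) (hs : DegR d m s) : DegR d m (r - s) := by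
  intro k
  rw [map_sub, sub_eq_add_neg]
  refine Bd_add (hr k) ?_
  have h := Bd_smul (-1 : M) (hs k)
  rwa [neg_one_smul] at h

private theorem isod_ds {M : Type u} [Field M] {d : ℕ} {m : ℤ}
    {r : PowerSeries (RatFunc M)} (hr : DegR d m r) : DegR d m (dsR (RatFunc M) r) := by
  intro k
  rw [coeff_dsR]
  have h := Bd_smul ((k : M) + 1) (hr (k + 1))
  have e : ((k : M) + 1) • coeff (k + 1) r = coeff (k + 1) r * ((k : RatFunc M) + 1) := by
    rw [Algebra.smul_def, map_add, map_natCast, map_one, mul_comm]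
  rwa [e] at h

private theorem isod_one {M : Type u} [Field M] {d : ℕ} :
    DegR d 0 (1 : PowerSeries (RatFunc M)) := by
  intro k
  rw [coeff_one]
  split_ifs
  · right
    rw [RatFunc.intDegree_one, mul_zero]
  · left
    rfl

theorem exists_y {M : Type u} [Field M] [CharZero M] (d : ℕ) (α : M)
    (δ₁ : Polynomial (PowerSeries M)) (hδ₁ : δ₁.Monic) :
    ∃ y : PowerSeries (RatFunc M), constantCoeff y = 1 ∧ DegR d 0 y ∧
      dsR (RatFunc M) y =
        C (algebraMap M (RatFunc M) α) * jR M (dsP M δ₁) * (jR M δ₁)⁻¹ * y ∧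
      dtR M y = C (algebraMap M (RatFunc M) α) * (jR M (dtP (PowerSeries M) δ₁) * (jR M δ₁)⁻¹ -
        C (algebraMap (Polynomial M) (RatFunc M)
            (Polynomial.derivative (δ₁.map (constantCoeff (R := M)))) /
          algebraMap (Polynomial M) (RatFunc M) (δ₁.map (constantCoeff (R := M))))) * y := by
  obtain ⟨c, hc⟩ : ∃ c : RatFunc M, c = algebraMap (Polynomial M) (RatFunc M)
    (δ₁.map (constantCoeff (R := M))) := ⟨_, rfl⟩
  obtain ⟨c', hc'⟩ : ∃ c' : RatFunc M, c' = algebraMap (Polynomial M) (RatFunc M)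
    (Polynomial.derivative (δ₁.map (constantCoeff (R := M)))) := ⟨_, rfl⟩
  have hmon : (δ₁.map (constantCoeff (R := M))).Monic := hδ₁.map _
  have hc0 : c ≠ 0 := by
    rw [hc]
    exact (map_ne_zero_iff _ (RatFunc.algebraMap_injective M)).2 hmon.ne_zero
  obtain ⟨A, hA⟩ : ∃ A : PowerSeries (RatFunc M), A = jR M δ₁ := ⟨_, rfl⟩
  obtain ⟨B, hB⟩ : ∃ B : PowerSeries (RatFunc M), B = (jR M δ₁)⁻¹ := ⟨_, rfl⟩
  obtain ⟨As, hAs⟩ : ∃ As : PowerSeries (RatFunc M), As = jR M (dsP M δ₁) := ⟨_, rfl⟩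
  obtain ⟨At, hAt⟩ : ∃ At : PowerSeries (RatFunc M), At = jR M (dtP (PowerSeries M) δ₁) := ⟨_, rfl⟩
  obtain ⟨a, ha⟩ : ∃ a : PowerSeries (RatFunc M), a = C (algebraMap M (RatFunc M) α) := ⟨_, rfl⟩
  rw [← hAs, ← hB, ← hAt, ← hc, ← hc', ← ha]
  have hcA : constantCoeff A = c := by rw [hA, jR_const, hc]
  have hcB : constantCoeff B = c⁻¹ := by rw [hB, constantCoeff_inv, ← hA, hcA]
  have hcAt : constantCoeff At = c' := by
    rw [hAt, jR_const, hc', dtP_apply, Polynomial.derivative_map]
  have hAB : A * B = 1 := by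
    rw [hA, hB]
    refine PowerSeries.mul_inv_cancel _ ?_
    rw [← hA, hcA]
    exact hc0
  have hdsA : dsR (RatFunc M) A = As := by rw [hA, dsR_jR, hAs]
  have hdtA : dtR M A = At := by rw [hA, dtR_jR, hAt]
  have hdsB : dsR (RatFunc M) B = -(B * B * As) := by rw [isod_inv _ hAB, hdsA]
  have hdtB : dtR M B = -(B * B * At) := by rw [isod_inv _ hAB, hdtA]
  have hdsa : dsR (RatFunc M) a = 0 := by rw [ha, isod_dsC]
  have hdta : dtR M a = 0 := by rw [ha, isod_dtC]
  have hst : dsR (RatFunc M) At = dtR M As := by rw [← hdtA, dsR_dtR, hdsA]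
  -- the degrees
  have hμ : (constantCoeff A).intDegree = (δ₁.natDegree : ℤ) := by
    rw [hcA, hc, RatFunc.intDegree_polynomial, hδ₁.natDegree_map]
  have hdB : DegR d (-(d * (δ₁.natDegree : ℤ))) B := by
    rw [hB, ← hA]
    refine DegR_inv (by rw [hcA]; exact hc0) hμ ?_
    rw [hA]
    exact DegR_jR δ₁
  have hdAs : DegR d (d * (δ₁.natDegree : ℤ)) As := by
    intro k
    rw [hAs]
    refine Bd_mono (DegR_jR (d := d) (dsP M δ₁) k) ?_
    exact mul_le_mul_of_nonneg_left (by exact_mod_cast isod_natDegree δ₁) (by positivity)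
  have hdν : DegR d 0 (a * As * B) := by
    have h1 := DegR_mul hdAs hdB
    rw [add_neg_cancel] at h1
    rw [mul_assoc, ha]
    exact isod_degC α h1
  -- the operator
  obtain ⟨ν, hν⟩ : ∃ ν : PowerSeries (RatFunc M), ν = a * As * B := ⟨_, rfl⟩
  obtain ⟨κ, hκ⟩ : ∃ κ : PowerSeries (RatFunc M), κ = a * (At * B - C (c' / c)) := ⟨_, rfl⟩
  rw [← hν] at hdν
  have hdsκ : dsR (RatFunc M) κ = dtR M ν := by
    rw [hκ, hν, isod_leib, map_sub, isod_dsC, isod_leib, isod_leib (dtR M), isod_leib (dtR M),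
      hdsB, hdtB, hdsa, hdta, hst]
    ring
  let P : (Unit → PowerSeries (RatFunc M)) →+ (Unit → PowerSeries (RatFunc M)) :=
    { toFun := fun y i => dsR (RatFunc M) (y i) - ν * y i
      map_zero' := by
        funext i
        rw [Pi.zero_apply, map_zero, mul_zero, sub_zero]
      map_add' := by
        intro y z
        funext i
        rw [Pi.add_apply, Pi.add_apply, map_add]
        ring }
  have hPa : ∀ y i, P y i = dsR (RatFunc M) (y i) - ν * y i := fun y i => rfl
  have hP : ∀ (r : PowerSeries (RatFunc M)) (x : Unit → PowerSeries (RatFunc M)),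
      P (r • x) = dsR (RatFunc M) r • x + r • P x := by
    intro r x
    funext i
    rw [Pi.add_apply, Pi.smul_apply, Pi.smul_apply, hPa, hPa, Pi.smul_apply, smul_eq_mul,
      smul_eq_mul, smul_eq_mul, isod_leib]
    ring
  obtain ⟨y, hy, hy1, -⟩ := lift_exists (dsR (RatFunc M)) (isod_dsX _) P hP (fun _ => 1)
  have hyi : dsR (RatFunc M) (y ()) = ν * y () := by
    have h1 := congrFun hy ()
    rw [hPa] at h1
    exact sub_eq_zero.1 h1
  have hy1' : constantCoeff (y ()) = 1 := by rw [hy1, map_one]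
  refine ⟨y (), hy1', ?_, ?_, ?_⟩
  · let L : Unit → Submodule M (RatFunc M) := fun _ =>
      { carrier := {x | Bd d 0 x}
        zero_mem' := Or.inl rfl
        add_mem' := fun hx hy => Bd_add hx hy
        smul_mem' := fun α x hx => Bd_smul α hx }
    have h1 := lift_lattice L (dsR (RatFunc M)) (isod_dsX _) P hP
      (fun x hx i k => by
        have hxi : DegR d 0 (x i) := fun k => hx i k
        have h2 : DegR d 0 (ν * x i) := by
          have h3 := DegR_mul hdν hxi
          rwa [add_zero] at h3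
        exact isod_sub (isod_ds hxi) h2 k)
      (fun _ => 1) y (fun i k => isod_one (d := d) k) hy hy1
    exact fun k => h1 () k
  · rw [hyi, hν]
  · rw [← hκ]
    have h2 : (fun i => dtR M (y i) - κ * y i : Unit → PowerSeries (RatFunc M)) = 0 := by
      refine lift_unique (dsR (RatFunc M)) (isod_dsX _) P hP _ ?_ ?_
      · funext i
        rw [hPa, Pi.zero_apply]
        change dsR (RatFunc M) (dtR M (y ()) - κ * y ()) - ν * (dtR M (y ()) - κ * y ()) = 0
        rw [map_sub, dsR_dtR, hyi, isod_leib (dtR M), isod_leib (dsR (RatFunc M)), hyi, hdsκ]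
        ring
      · intro i
        change constantCoeff (dtR M (y ()) - κ * y ()) = 0
        have h3 : constantCoeff (dtR M (y ())) = 0 := by
          have h4 := coeff_dtR (y ()) 0
          rw [coeff_zero_eq_constantCoeff_apply, coeff_zero_eq_constantCoeff_apply, hy1'] at h4
          rw [h4]
          exact (DK M).map_one_eq_zero
        rw [map_sub, h3, map_mul, hy1', hκ, map_mul, map_sub, map_mul, hcAt, hcB, constantCoeff_C,
          div_eq_mul_inv, sub_self, mul_zero, zero_mul, sub_zero]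
    exact sub_eq_zero.1 (congrFun h2 ())

end MPadcHM
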