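import Pool.Agent.Lib.MP_adc574_ag_HM.Defs

/-!
# JOB KeyA: the multilinear form `det (c_v(w_u))`

`dform c J = det (c_v(J_u))` are the coordinates of the form `(w_u) ↦ det (c_v . w_u)`.

* `dform_alt`: composing `σ` with a transposition permutes two columns (`Matrix.det_permute'`, sign `-1`); two equal columns:
  `Matrix.det_zero_of_column_eq`.
* `dform_deriv`: Leibniz rule for the determinant, column by column: `D (det m) = ∑ u, det (m with column u replaced by its
  derivative)` (from `Matrix.det_apply'` and the Leibniz rule for products); the derivative of the column `c_v(J_u)` is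
  `∑ i, c_v(i) Γ i (J_u)`, and by multilinearity the `u`-th term is `∑ i, dform c (update J u i) * Γ i (J u)`.
  Compare `MPadcLP.act`.
* `ev_dform`: as `MPadcLP.ev_l0` (expand the determinant of the sums).
-/

set_option autoImplicit false

namespace MPadcHM

open MPadcLP

variable {γ ι : Type} [Fintype γ] [DecidableEq γ] [Fintype ι] [DecidableEq ι]

/-- The coordinates of the form `(w_u) ↦ det (c_v . w_u)`. -/
noncomputable def dform {L : Type*} [CommRing L] (c : γ → ι → L) : (γ → ι) → L :=
  fun J => (Matrix.of fun v u => c v (J u)).det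

theorem dform_alt {L : Type*} [CommRing L] (c : γ → ι → L) : Alt (dform c) := by
  refine ⟨fun σ j k hjk => ?_, fun σ j k hjk h => ?_⟩
  · have h1 : (Matrix.of fun v u => c v ((σ ∘ Equiv.swap j k) u)) =
        (Matrix.of fun v u => c v (σ u)).submatrix id (Equiv.swap j k) := rfl
    unfold dform
    rw [h1, Matrix.det_permute', Equiv.Perm.sign_swap hjk]
    simp only [Units.val_neg, Units.val_one, Int.cast_neg, Int.cast_one, neg_mul, one_mul]
  · unfold dform
    refine Matrix.det_zero_of_column_eq hjk fun v => ?_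
    show c v (σ j) = c v (σ k)
    rw [h]

private theorem keya_leibniz {L : Type*} [CommRing L] (D : Der L) (s : Finset γ) (f : γ → L) :
    D (∏ j ∈ s, f j) = ∑ j ∈ s, D (f j) * ∏ k ∈ s.erase j, f k := by
  induction s using Finset.induction_on with
  | empty => rw [Finset.prod_empty, Finset.sum_empty, Derivation.map_one_eq_zero]
  | insert a s ha ih =>
    rw [Finset.prod_insert ha, Derivation.leibniz, ih, Finset.sum_insert ha,
      Finset.erase_insert ha, smul_eq_mul, smul_eq_mul, Finset.mul_sum, add_comm,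
      mul_comm (∏ j ∈ s, f j)]
    congr 1
    refine Finset.sum_congr rfl fun j hj => ?_
    have hja : j ≠ a := fun h => ha (h ▸ hj)
    rw [Finset.erase_insert_of_ne hja.symm, Finset.prod_insert
      (fun h => ha (Finset.mem_of_mem_erase h))]
    ring

theorem dform_deriv {L : Type*} [CommRing L] (D : Der L) (Γ : Matrix ι ι L) (c : γ → ι → L)
    (hc : ∀ v j, D (c v j) = ∑ i, c v i * Γ i j) (J : γ → ι) :
    D (dform c J) = act Γ (dform c) J := by
  unfold act dform
  rw [Matrix.det_apply', map_sum]
  have h0 : ∀ p : Equiv.Perm γ, D ((((Equiv.Perm.sign p : ℤˣ) : ℤ) : L) *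
      ∏ u, (Matrix.of fun v u => c v (J u)) (p u) u) =
      ∑ u, ∑ i, (((Equiv.Perm.sign p : ℤˣ) : ℤ) : L) *
        (c (p u) i * ∏ k ∈ Finset.univ.erase u, c (p k) (J k)) * Γ i (J u) := by
    intro p
    have h1 : ∏ u, (Matrix.of fun v u => c v (J u)) (p u) u = ∏ u, c (p u) (J u) := rfl
    rw [h1, Derivation.leibniz, keya_leibniz, Derivation.map_intCast, smul_zero, add_zero, smul_eq_mul,
      Finset.mul_sum]
    refine Finset.sum_congr rfl fun u _ => ?_
    rw [hc, Finset.sum_mul, Finset.mul_sum]
    refine Finset.sum_congr rfl fun i _ => ?_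
    ring
  rw [Finset.sum_congr rfl fun p _ => h0 p, Finset.sum_comm]
  refine Finset.sum_congr rfl fun u _ => ?_
  rw [Finset.sum_comm]
  refine Finset.sum_congr rfl fun i _ => ?_
  rw [Matrix.det_apply', Finset.sum_mul]
  refine Finset.sum_congr rfl fun p _ => ?_
  have h2 : ∏ k, (Matrix.of fun v k => c v (Function.update J u i k)) (p k) k =
      c (p u) i * ∏ k ∈ Finset.univ.erase u, c (p k) (J k) := by
    show ∏ k, c (p k) (Function.update J u i k) = _
    rw [← Finset.mul_prod_erase Finset.univ _ (Finset.mem_univ u), Function.update_self]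
    congr 1
    refine Finset.prod_congr rfl fun k hk => ?_
    rw [Function.update_of_ne (Finset.ne_of_mem_erase hk)]
  rw [h2]

theorem ev_dform {L : Type*} [CommRing L] (c f : γ → ι → L) :
    ev (dform c) f = (Matrix.of fun v u => ∑ i, c v i * f u i).det := by
  unfold ev dform
  rw [Matrix.det_apply' (Matrix.of fun v u => ∑ i, c v i * f u i)]
  have h0 : ∀ p : Equiv.Perm γ, (((Equiv.Perm.sign p : ℤˣ) : ℤ) : L) *
      (∏ j, (Matrix.of fun v u => ∑ i, c v i * f u i) (p j) j) =
      ∑ σ : γ → ι, (((Equiv.Perm.sign p : ℤˣ) : ℤ) : L) *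
        ∏ j, (c (p j) (σ j) * f j (σ j)) := by
    intro p
    have h1 : ∀ j, (Matrix.of fun v u => ∑ i, c v i * f u i) (p j) j =
        ∑ k, c (p j) k * f j k := fun j => rfl
    rw [Finset.prod_congr rfl fun j _ => h1 j, Fintype.prod_sum, Finset.mul_sum]
  have h2 : ∀ σ : γ → ι, (Matrix.of fun v u => c v (σ u)).det * ∏ j, f j (σ j) =
      ∑ p : Equiv.Perm γ, (((Equiv.Perm.sign p : ℤˣ) : ℤ) : L) *
        ∏ j, (c (p j) (σ j) * f j (σ j)) := by
    intro σ
    rw [Matrix.det_apply', Finset.sum_mul]
    refine Finset.sum_congr rfl fun p _ => ?_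
    rw [Finset.prod_mul_distrib, mul_assoc]
    rfl
  refine (Finset.sum_congr rfl fun σ _ => h2 σ).trans ?_
  rw [Finset.sum_comm]
  exact (Finset.sum_congr rfl fun p _ => h0 p).symm

end MPadcHM
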