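import Pool.Agent.Lib.MP_adc574_ag_HM.Defs
import Pool.Agent.Lib.MP_adc574_ag_HM.KeyA
import Pool.Agent.Lib.MP_adc574_ag_HM.LocE

/-!
# Isomonodromic transport: definitions

`M` a field of characteristic 0, `A = M[[s]]` (`PowerSeries M`, `s = X`), `A[t]` (`Polynomial (PowerSeries M)`), `K = M(t)` (`RatFunc M`), `R = K[[s]]`
(`PowerSeries (RatFunc M)`). `jR : A[t] → R`.
-/

set_option autoImplicit false

namespace MPadcHM

open MPadcLP

universe u

/-- `M[[s]][t] → M(t)[[s]]`. -/
noncomputable def jR (M : Type u) [Field M] :
    Polynomial (PowerSeries M) →+* PowerSeries (RatFunc M) :=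
  Polynomial.eval₂RingHom (PowerSeries.map (algebraMap M (RatFunc M)))
    (PowerSeries.C (RatFunc.X : RatFunc M))

/-- `d / ds` on power series. -/
noncomputable def dsR (K : Type u) [Field K] : Der (PowerSeries K) :=
  toDer ⟨⟨fun r => PowerSeries.derivative K r, map_zero _⟩, fun a b => map_add _ a b⟩
    fun a b => by
      show PowerSeries.derivative K (a * b) = a * PowerSeries.derivative K b +
        b * PowerSeries.derivative K a
      rw [Derivation.leibniz, smul_eq_mul, smul_eq_mul]

theorem coeff_dsR {K : Type u} [Field K] (r : PowerSeries K) (k : ℕ) :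
    PowerSeries.coeff k (dsR K r) = PowerSeries.coeff (k + 1) r * (k + 1) := by
  show PowerSeries.coeff k (PowerSeries.derivative K r) = _
  rw [PowerSeries.coeff_derivative]

/-- `d / dt` on `M(t)[[s]]`, coefficientwise. -/
noncomputable def dtR (M : Type u) [Field M] :
    Der (PowerSeries (RatFunc M)) :=
  toDer ⟨⟨fun r => PowerSeries.mk fun k => DK M (PowerSeries.coeff k r), by
    ext k
    simp⟩, fun a b => by
    ext k
    simp⟩ fun a b => by
    ext k
    show PowerSeries.coeff k (PowerSeries.mk fun k => DK M (PowerSeries.coeff k (a * b))) =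
      PowerSeries.coeff k (a * (PowerSeries.mk fun k => DK M (PowerSeries.coeff k b)) +
        b * (PowerSeries.mk fun k => DK M (PowerSeries.coeff k a)))
    have h1 : b * (PowerSeries.mk fun k => DK M (PowerSeries.coeff k a)) =
      (PowerSeries.mk fun k => DK M (PowerSeries.coeff k a)) * b := mul_comm _ _
    rw [PowerSeries.coeff_mk, map_add, h1, PowerSeries.coeff_mul, map_sum, PowerSeries.coeff_mul,
      PowerSeries.coeff_mul, ← Finset.sum_add_distrib]
    refine Finset.sum_congr rfl fun x _ => ?_
    rw [Derivation.leibniz, PowerSeries.coeff_mk, PowerSeries.coeff_mk, smul_eq_mul, smul_eq_mul,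
      mul_comm (PowerSeries.coeff x.2 b)]

theorem coeff_dtR {M : Type u} [Field M] (r : PowerSeries (RatFunc M)) (k : ℕ) :
    PowerSeries.coeff k (dtR M r) = DK M (PowerSeries.coeff k r) := by
  show PowerSeries.coeff k (PowerSeries.mk fun k => DK M (PowerSeries.coeff k r)) = _
  rw [PowerSeries.coeff_mk]

private theorem polyDer_coeff {B : Type u} [CommRing B] (D : Der B) (p : Polynomial B)
    (k : ℕ) : (p.sum fun k c => Polynomial.monomial k (D c)).coeff k = D (p.coeff k) := by
  classical
  simp only [Polynomial.sum_def, Polynomial.finsetSum_coeff, Polynomial.coeff_monomial,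
    Finset.sum_ite_eq', Polynomial.mem_support_iff]
  split_ifs with h
  · rfl
  · rw [not_not.1 h, map_zero]

/-- The coefficientwise derivation of `B[t]`. -/
noncomputable def polyDer {B : Type u} [CommRing B] (D : Der B) :
    Der (Polynomial B) :=
  toDer ⟨⟨fun a => a.sum fun k c => Polynomial.monomial k (D c), by
    ext k
    rw [polyDer_coeff, Polynomial.coeff_zero, map_zero]⟩, fun a b => by
    ext k
    show ((a + b).sum fun k c => Polynomial.monomial k (D c)).coeff k = _
    rw [polyDer_coeff, Polynomial.coeff_add, map_add, Polynomial.coeff_add]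
    show _ = (a.sum fun k c => Polynomial.monomial k (D c)).coeff k +
      (b.sum fun k c => Polynomial.monomial k (D c)).coeff k
    rw [polyDer_coeff, polyDer_coeff]⟩ fun a b => by
    ext k
    show ((a * b).sum fun k c => Polynomial.monomial k (D c)).coeff k =
      (a * (b.sum fun k c => Polynomial.monomial k (D c)) +
        b * (a.sum fun k c => Polynomial.monomial k (D c))).coeff k
    have h1 : b * (a.sum fun k c => Polynomial.monomial k (D c)) =
      (a.sum fun k c => Polynomial.monomial k (D c)) * b := mul_comm _ _
    rw [polyDer_coeff, Polynomial.coeff_add, h1, Polynomial.coeff_mul, map_sum,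
      Polynomial.coeff_mul, Polynomial.coeff_mul, ← Finset.sum_add_distrib]
    refine Finset.sum_congr rfl fun x _ => ?_
    rw [Derivation.leibniz, polyDer_coeff, polyDer_coeff, smul_eq_mul, smul_eq_mul,
      mul_comm (b.coeff x.2)]

theorem coeff_polyDer {B : Type u} [CommRing B] (D : Der B) (p : Polynomial B) (k : ℕ) :
    (polyDer D p).coeff k = D (p.coeff k) := polyDer_coeff D p k

/-- `d / ds` on `M[[s]][t]`, coefficientwise. -/
noncomputable def dsP (M : Type u) [Field M] :
    Der (Polynomial (PowerSeries M)) :=
  polyDer (dsR M)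

/-- `d / dt` on `B[t]`. -/
noncomputable def dtP (B : Type u) [CommRing B] : Der (Polynomial B) :=
  toDer ⟨⟨fun a => Polynomial.derivative a, map_zero _⟩, fun a b => map_add _ a b⟩ fun a b => by
    show Polynomial.derivative (a * b) = a * Polynomial.derivative b + b * Polynomial.derivative a
    rw [Polynomial.derivative_mul]
    ring

theorem dtP_apply {B : Type u} [CommRing B] (a : Polynomial B) :
    dtP B a = Polynomial.derivative a := rfl

/-- The connection `D + B` on column vectors. -/
def conn {E : Type u} [CommRing E] {ι : Type} [Fintype ι] (D : Der E)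
    (B : Matrix ι ι E) (x : ι → E) : ι → E :=
  fun u => D (x u) + ∑ v, B u v * x v

end MPadcHM
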