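import Pool.Agent.Lib.MP_adc574_ag_HM.IsoDefs

/-!
# JOB IsoF: lifting the factorization of `δ` to `M[[s]]`

`M` algebraically closed, `A = M[[s]]` (a Henselian local ring: complete; `IsAdicComplete`/`HenselianLocalRing` instance for power series, or construct roots recursively), `δs ∈ A[t]` monic with separable reduction `δ = δ₁ δ₂`.
* `hensel_factor`: `δ = ∏ (t - τ)` over its different roots; each simple root `τ` lifts to a root `τ(s) ∈ A` of `δs` (`HenselianLocalRing.is_henselian`: `δs` monic, `δs(C τ)` in the maximal ideal, `δs'(C τ)` a unit). The lifts have different constant coefficients, so differences are units, and the product of the `t - τ(s)` divides `δs` and is monic of the same degree, so it is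
  `δs`. Take `δ₁s = ∏ (t - τ(s))` over the roots `τ` of `δ₁`, `δ₂s` over those of `δ₂` (disjoint, as `δ` is separable).
* `rho`: from `δs ∣ dsP δs + v * dtP δs`, `δs = δ₁s δ₂s`: `δ₁s ∣ δ₂s (dsP δ₁s + v * dtP δ₁s)` (Leibniz). `δ₁s`, `δ₂s` are coprime in `A[t]`: their reductions are coprime; direct: for a product of different linear factors with unit differences: `(t - τ(s)) ∣ δ₂s x` implies `(t - τ(s)) ∣ x` since `δ₂s(τ(s))` is a unit of `A`; then the product of the pairwise coprime factors `t - τ(s)` divides.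
-/

set_option autoImplicit false

namespace MPadcHM

open MPadcLP PowerSeries

universe u

private theorem isof_mem {M : Type u} [Field M] (x : PowerSeries M) (n : ℕ) :
    x ∈ ((Ideal.span {(X : PowerSeries M)}) ^ n • ⊤ : Submodule (PowerSeries M) (PowerSeries M)) ↔
      ∀ k < n, coeff k x = 0 := by
  rw [smul_eq_mul, Ideal.mul_top, Ideal.span_singleton_pow, Ideal.mem_span_singleton,
    PowerSeries.X_pow_dvd_iff]

private theorem isof_complete (M : Type u) [Field M] :
    IsAdicComplete (Ideal.span {(X : PowerSeries M)}) (PowerSeries M) where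
  haus' := fun x hx => by
    ext k
    have h := hx (k + 1)
    rw [SModEq.zero, isof_mem] at h
    rw [h k (Nat.lt_succ_self k), map_zero]
  prec' := fun f hf => by
    refine ⟨PowerSeries.mk fun k => coeff k (f (k + 1)), fun n => ?_⟩
    rw [SModEq.sub_mem, isof_mem]
    intro k hk
    rw [map_sub, coeff_mk]
    have h := hf (m := k + 1) (n := n) hk
    rw [SModEq.sub_mem, isof_mem] at h
    have h1 := h k (Nat.lt_succ_self k)
    rw [map_sub] at h1
    linear_combination -h1

private theorem isof_root {M : Type u} [Field M] (P : Polynomial (PowerSeries M)) (hP : P.Monic)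
    (τ : M) (h0 : (P.map (constantCoeff (R := M))).eval τ = 0)
    (h1 : (Polynomial.derivative (P.map (constantCoeff (R := M)))).eval τ ≠ 0) :
    ∃ a : PowerSeries M, P.IsRoot a ∧ constantCoeff a = τ := by
  have := isof_complete M
  have hc : ∀ Q : Polynomial (PowerSeries M),
      constantCoeff (Q.eval (C τ)) = (Q.map (constantCoeff (R := M))).eval τ := by
    intro Q
    have h2 : constantCoeff (C τ : PowerSeries M) = τ := constantCoeff_C τ
    have h3 := Polynomial.eval₂_at_apply (p := Q) (constantCoeff (R := M)) (C τ)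
    rw [h2] at h3
    rw [Polynomial.eval_map, h3]
  obtain ⟨a, ha, ha'⟩ := HenselianRing.is_henselian (I := Ideal.span {(X : PowerSeries M)}) P hP
    (C τ) (by
      rw [Ideal.mem_span_singleton, PowerSeries.X_dvd_iff, hc]
      exact h0) (by
      refine IsUnit.map _ ?_
      rw [isUnit_iff_constantCoeff, hc, ← Polynomial.derivative_map]
      exact isUnit_iff_ne_zero.2 h1)
  refine ⟨a, ha, ?_⟩
  rw [Ideal.mem_span_singleton, PowerSeries.X_dvd_iff, map_sub, constantCoeff_C, sub_eq_zero] at ha'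
  exact ha'

private theorem isof_prod {M : Type u} [Field M] [IsAlgClosed M] [DecidableEq M]
    (q : Polynomial M) (hq : q.Monic) (hs : q.Separable) :
    q = ∏ τ ∈ q.roots.toFinset, (Polynomial.X - Polynomial.C τ) := by
  show q = (Multiset.map _ q.roots.toFinset.val).prod
  rw [Multiset.toFinset_val, (Polynomial.nodup_roots hs).dedup]
  exact (IsAlgClosed.splits q).eq_prod_roots_of_monic hq

private theorem isof_leib {B : Type u} [CommRing B] (D : Der B) (x y : B) :
    D (x * y) = x * D y + y * D x := by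
  rw [Derivation.leibniz, smul_eq_mul, smul_eq_mul]

theorem hensel_factor {M : Type u} [Field M] [CharZero M] [IsAlgClosed M]
    (δs : Polynomial (PowerSeries M)) (hδs : δs.Monic)
    (hsep : (δs.map (constantCoeff (R := M))).Separable) (δ₁ δ₂ : Polynomial M) (h₁ : δ₁.Monic)
    (h₂ : δ₂.Monic) (h : δs.map (constantCoeff (R := M)) = δ₁ * δ₂)
    (v : Polynomial (PowerSeries M))
    (hv : δs ∣ dsP M δs + v * dtP (PowerSeries M) δs) :
    ∃ δ₁s δ₂s : Polynomial (PowerSeries M), δ₁s.Monic ∧ δ₂s.Monic ∧ δs = δ₁s * δ₂s ∧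
      δ₁s.map (constantCoeff (R := M)) = δ₁ ∧ δ₂s.map (constantCoeff (R := M)) = δ₂ ∧
      δ₁s ∣ dsP M δ₁s + v * dtP (PowerSeries M) δ₁s := by
  classical
  have hms : (δ₁ * δ₂).Separable := h ▸ hsep
  have hs1 : δ₁.Separable := hms.of_mul_left
  have hs2 : δ₂.Separable := hms.of_mul_right
  have hcop : IsCoprime δ₁ δ₂ := hms.isCoprime
  have hroot : ∀ τ : M, ∃ a : PowerSeries M, (δ₁ * δ₂).IsRoot τ →
      δs.IsRoot a ∧ constantCoeff a = τ := by
    intro τ
    by_cases hτ : (δ₁ * δ₂).IsRoot τ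
    · obtain ⟨a, ha⟩ := isof_root δs hδs τ (by rw [h]; exact hτ) (by
        rw [h]
        intro h0
        exact Polynomial.Separable.eval₂_derivative_ne_zero (RingHom.id M) hms (x := τ)
          (by rw [Polynomial.eval₂_id]; exact hτ) (by rw [Polynomial.eval₂_id]; exact h0))
      exact ⟨a, fun _ => ha⟩
    · exact ⟨0, fun h' => absurd h' hτ⟩
  choose r hr using hroot
  have hne1 : δ₁ ≠ 0 := h₁.ne_zero
  have hne2 : δ₂ ≠ 0 := h₂.ne_zero
  have hS1 : ∀ τ ∈ δ₁.roots.toFinset, (δ₁ * δ₂).IsRoot τ := fun τ hτ => by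
    rw [Multiset.mem_toFinset, Polynomial.mem_roots hne1] at hτ
    show Polynomial.eval τ (δ₁ * δ₂) = 0
    rw [Polynomial.eval_mul, show Polynomial.eval τ δ₁ = 0 from hτ, zero_mul]
  have hS2 : ∀ τ ∈ δ₂.roots.toFinset, (δ₁ * δ₂).IsRoot τ := fun τ hτ => by
    rw [Multiset.mem_toFinset, Polynomial.mem_roots hne2] at hτ
    show Polynomial.eval τ (δ₁ * δ₂) = 0
    rw [Polynomial.eval_mul, show Polynomial.eval τ δ₂ = 0 from hτ, mul_zero]
  have hdisj : Disjoint δ₁.roots.toFinset δ₂.roots.toFinset := by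
    rw [Finset.disjoint_left]
    intro τ hτ1 hτ2
    rw [Multiset.mem_toFinset, Polynomial.mem_roots hne1] at hτ1
    rw [Multiset.mem_toFinset, Polynomial.mem_roots hne2] at hτ2
    obtain ⟨a, b, hab⟩ := hcop
    have h3 := congrArg (Polynomial.eval τ) hab
    rw [Polynomial.eval_add, Polynomial.eval_mul, Polynomial.eval_mul,
      show Polynomial.eval τ δ₁ = 0 from hτ1, show Polynomial.eval τ δ₂ = 0 from hτ2,
      Polynomial.eval_one, mul_zero, mul_zero, add_zero] at h3
    exact zero_ne_one h3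
  have hco : ∀ τ τ' : M, (δ₁ * δ₂).IsRoot τ → (δ₁ * δ₂).IsRoot τ' → τ ≠ τ' →
      IsCoprime (Polynomial.X - Polynomial.C (r τ)) (Polynomial.X - Polynomial.C (r τ')) := by
    intro τ τ' hτ hτ' hne
    refine Polynomial.isCoprime_X_sub_C_of_isUnit_sub ?_
    rw [isUnit_iff_constantCoeff, map_sub, (hr τ hτ).2, (hr τ' hτ').2]
    exact isUnit_iff_ne_zero.2 (sub_ne_zero.2 hne)
  have hmonic : ∀ S : Finset M, (∏ τ ∈ S, (Polynomial.X - Polynomial.C (r τ))).Monic := fun S =>
    Polynomial.monic_prod_of_monic _ _ fun τ _ => Polynomial.monic_X_sub_C _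
  have hmap : ∀ S : Finset M, (∀ τ ∈ S, (δ₁ * δ₂).IsRoot τ) →
      (∏ τ ∈ S, (Polynomial.X - Polynomial.C (r τ))).map (constantCoeff (R := M)) =
        ∏ τ ∈ S, (Polynomial.X - Polynomial.C τ) := by
    intro S hS
    rw [Polynomial.map_prod]
    refine Finset.prod_congr rfl fun τ hτ => ?_
    rw [Polynomial.map_sub, Polynomial.map_X, Polynomial.map_C, (hr τ (hS τ hτ)).2]
  have hcop12 : IsCoprime (∏ τ ∈ δ₁.roots.toFinset, (Polynomial.X - Polynomial.C (r τ)))
      (∏ τ ∈ δ₂.roots.toFinset, (Polynomial.X - Polynomial.C (r τ))) := by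
    refine IsCoprime.prod_left fun τ hτ => IsCoprime.prod_right fun τ' hτ' => ?_
    refine hco τ τ' (hS1 τ hτ) (hS2 τ' hτ') ?_
    rintro rfl
    exact Finset.disjoint_left.1 hdisj hτ hτ'
  have hprod : (∏ τ ∈ δ₁.roots.toFinset, (Polynomial.X - Polynomial.C (r τ))) *
      (∏ τ ∈ δ₂.roots.toFinset, (Polynomial.X - Polynomial.C (r τ))) = δs := by
    have hd1 : (∏ τ ∈ δ₁.roots.toFinset, (Polynomial.X - Polynomial.C (r τ))) ∣ δs := by
      refine Finset.prod_dvd_of_coprime (fun τ hτ τ' hτ' hne => ?_) fun τ hτ => ?_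
      · exact hco τ τ' (hS1 τ hτ) (hS1 τ' hτ') hne
      · exact Polynomial.dvd_iff_isRoot.2 (hr τ (hS1 τ hτ)).1
    have hd2 : (∏ τ ∈ δ₂.roots.toFinset, (Polynomial.X - Polynomial.C (r τ))) ∣ δs := by
      refine Finset.prod_dvd_of_coprime (fun τ hτ τ' hτ' hne => ?_) fun τ hτ => ?_
      · exact hco τ τ' (hS2 τ hτ) (hS2 τ' hτ') hne
      · exact Polynomial.dvd_iff_isRoot.2 (hr τ (hS2 τ hτ)).1
    have hdeg : δs.natDegree ≤ ((∏ τ ∈ δ₁.roots.toFinset, (Polynomial.X - Polynomial.C (r τ))) *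
      (∏ τ ∈ δ₂.roots.toFinset, (Polynomial.X - Polynomial.C (r τ)))).natDegree := by
      have h4 : δs.natDegree = (δ₁ * δ₂).natDegree := by
        rw [← h, hδs.natDegree_map]
      have h5 := ((hmonic δ₁.roots.toFinset).mul (hmonic δ₂.roots.toFinset)).natDegree_map
        (constantCoeff (R := M))
      rw [Polynomial.map_mul, hmap _ hS1, hmap _ hS2, ← isof_prod δ₁ h₁ hs1,
        ← isof_prod δ₂ h₂ hs2] at h5
      rw [h4, h5]
    exact (Polynomial.eq_of_monic_of_dvd_of_natDegree_le
      ((hmonic _).mul (hmonic _)) hδs (hcop12.mul_dvd hd1 hd2) hdeg).symm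
  refine ⟨∏ τ ∈ δ₁.roots.toFinset, (Polynomial.X - Polynomial.C (r τ)),
    ∏ τ ∈ δ₂.roots.toFinset, (Polynomial.X - Polynomial.C (r τ)), hmonic _, hmonic _,
    hprod.symm, ?_, ?_, ?_⟩
  · rw [hmap _ hS1, ← isof_prod δ₁ h₁ hs1]
  · rw [hmap _ hS2, ← isof_prod δ₂ h₂ hs2]
  · generalize (∏ τ ∈ δ₁.roots.toFinset, (Polynomial.X - Polynomial.C (r τ))) = a at *
    generalize (∏ τ ∈ δ₂.roots.toFinset, (Polynomial.X - Polynomial.C (r τ))) = b at *
    rw [← hprod, isof_leib (dsP M) a b, isof_leib (dtP (PowerSeries M)) a b] at hv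
    have h6 : a ∣ b * (dsP M a + v * dtP (PowerSeries M) a) := by
      have h7 : a ∣ a * dsP M b + b * dsP M a +
          v * (a * dtP (PowerSeries M) b + b * dtP (PowerSeries M) a) :=
        (Dvd.intro b rfl).trans hv
      have h8 : b * (dsP M a + v * dtP (PowerSeries M) a) =
          (a * dsP M b + b * dsP M a +
          v * (a * dtP (PowerSeries M) b + b * dtP (PowerSeries M) a)) -
            a * (dsP M b + v * dtP (PowerSeries M) b) := by ring
      rw [h8]
      exact dvd_sub h7 (Dvd.intro _ rfl)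
    exact hcop12.dvd_of_dvd_mul_left h6

end MPadcHM
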