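import Pool.Agent.Lib.MP_adc574_ag_HM.IsoC
import Pool.Agent.Lib.MP_adc574_ag_HM.IsoD
import Pool.Agent.Lib.MP_adc574_ag_HM.IsoF

/-!
# JOB IsoG: the transport

`R = M(t)[[s]]`, `∇_t = conn dtR BtR`, `∇_s = conn dsR BsR` on `R^ι`, `BtR = jR Gt / jR δ`, `BsR = jR Gs / jR δ` (`jR δ` is invertible: `δ` is monic, `constantCoeff (jR δ) = algebraMap (δ mod s) ≠ 0`).
* `iso_comm` (part a): `∇_s ∇_t = ∇_t ∇_s`: `∇_s ∇_t x - ∇_t ∇_s x = (∂_s B - ∂_t C + C B - B C) x` (`dsR_dtR`), and `(jR δ)² (∂_s B - ∂_t C + C B - B C) = jR (flat)` (`dsR_jR`, `dtR_jR`), `jR δ ≠ 0`.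
* `iso_psi` (part a): `ψ i` = the `∇_s`-horizontal lift of `w_i` (`lift_exists` for `P = ∇_s` (`P (r x) = ∂_s r x + r P x`, `dsR X = 1`), `x u = C (algebraMap (w i u))`). `∇_t (ψ i) - ∑_j C (γ j i / δ₀) • ψ j` is `∇_s`-horizontal (`iso_comm`; `∂_s (C a) = 0`) and its constant coefficient is 0:
  `constantCoeff (∇_t x u) = DK (constantCoeff (x u)) + ∑_v algebraMap (Gt u v mod s) / algebraMap δ₀ * constantCoeff (x v)` (`coeff_dtR`, `jR_const`, `constantCoeff` of the inverse) and the hypothesis `hw` divided by `δ₀`; so it is 0 by `lift_unique`.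
  Degrees: let `L u = {x | Bd d (m - q u) x}`: `∇_s` preserves `{z | ∀ u k, coeff k (z u) ∈ L u}` for every `m`: `∂_s` does, and `DegR d (q v - q u) (BsR u v)` (`degs`, `DegR_jR`, `DegR_inv` for `jR δ` with `μ = natDegree δ`). With `m` large enough for all `w i u` (finitely many) `lift_lattice` gives `DegR d (m - q u) (ψ i u)`; then a common bound `m'`.
  `Q`: `lift_sub` and `lift_unique`.
* `iso_transport` (part b): `δ₁s`, `δ₂s` from `hensel_factor` (for `D.δ`, `D.v`, `D.vec`); `dsP δ₁s + v dtP δ₁s = δ₁s r`, `ρ = jR r * C α` (`α ∈ M ⊂ K`). `y` from `exists_y` for `δ₁s`. `c J = y * dform ψ J`. By `dform_conn` (for `dsR`, `BsR`, `g = 0`; for `dtR`, `BtR`, `g j i = C (γ j i / δ₀)`) and the equations of `y`: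
  `∂_s c + act BsRᵀ c = ν c`, `ν = C α * jR (dsP δ₁s) / jR δ₁s`; `∂_t c + act BtRᵀ c = (C (T / δ₀) + C α (jR (dtP δ₁s) / jR δ₁s - C (δ₁' / δ₁))) c`, where `T = ∑ γ i i = α δ₁' δ₂`, `δ₀ = δ₁ δ₂`, so `T / δ₀ = α δ₁' / δ₁` and the factor is `C α * jR (dtP δ₁s) / jR δ₁s`. So for `P c = ∂_s c + jR v ∂_t c + act (jR Dm)ᵀ c - ρ c` (`BsR + jR v BtR = jR Dm` by `comb`; `act` is
  linear in the matrix): `P c = 0`, as `C α (jR (dsP δ₁s) + jR v jR (dtP δ₁s)) / jR δ₁s = ρ`. `P (r c) = (dsR r + jR v * dtR r) c + r P c`, the derivation `dsR + jR v • dtR` has value 1 at `s` (`dtR X = 0`). Apply `lift_lattice` with index set `Fin g → ι`, `L J =` the image of `M[t]` in `K` (an `M`-subspace): `P` preserves it: `∂_s`, `∂_t` (`DK_poly`), multiplication with `jR a` (`jR_coeff`: all coefficients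
  are polynomials), and `x J = C (algebraMap (dform w J))` is in it, with the same constant coefficients as `c` (`constantCoeff y = 1`; `constantCoeff (det) = det (constantCoeff)`). So all coefficients of `c J` are polynomials in `t`; their degrees are bounded: `DegR d m'' (c J)` (`DegR_mul`; `dform` is a determinant = sum of products of `g` entries), `d > 0`. `jR_range`.
-/

set_option autoImplicit false

namespace MPadcHM

open MPadcLP PowerSeries

universe u

/-- The integrable connection over `M[[s]][t]` (poles along `δ`). -/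
structure IsoData (M : Type u) [Field M] (ι : Type) where
  d : ℕ
  q : ι → ℤ
  δ : Polynomial (PowerSeries M)
  v : Polynomial (PowerSeries M)
  Gt : Matrix ι ι (Polynomial (PowerSeries M))
  Gs : Matrix ι ι (Polynomial (PowerSeries M))
  Dm : Matrix ι ι (Polynomial (PowerSeries M))

variable {M : Type u} [Field M] {ι : Type} [Fintype ι] [DecidableEq ι]

structure IsoData.Ok (D : IsoData M ι) : Prop where
  d_pos : 0 < D.d
  monic : D.δ.Monic
  sep : (D.δ.map (constantCoeff (R := M))).Separable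
  flat : ∀ i j, D.δ * (dsP M (D.Gt i j) - dtP (PowerSeries M) (D.Gs i j)) -
    dsP M D.δ * D.Gt i j + dtP (PowerSeries M) D.δ * D.Gs i j +
      (D.Gs * D.Gt - D.Gt * D.Gs) i j = 0
  comb : ∀ i j, D.Gs i j + D.v * D.Gt i j = D.δ * D.Dm i j
  vec : D.δ ∣ dsP M D.δ + D.v * dtP (PowerSeries M) D.δ
  degt : ∀ i j, D.Gt i j ≠ 0 →
    (D.d : ℤ) * (D.Gt i j).natDegree + D.q i ≤ D.q j + D.d * D.δ.natDegree - D.d
  degs : ∀ i j, D.Gs i j ≠ 0 →
    (D.d : ℤ) * (D.Gs i j).natDegree + D.q i ≤ D.q j + D.d * D.δ.natDegree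

/-- The matrix of `∇_t` over `M(t)[[s]]`. -/
noncomputable def IsoData.BtR (D : IsoData M ι) : Matrix ι ι (PowerSeries (RatFunc M)) :=
  fun i j => jR M (D.Gt i j) * (jR M D.δ)⁻¹

/-- The matrix of `∇_s` over `M(t)[[s]]`. -/
noncomputable def IsoData.BsR (D : IsoData M ι) : Matrix ι ι (PowerSeries (RatFunc M)) :=
  fun i j => jR M (D.Gs i j) * (jR M D.δ)⁻¹

private theorem isoga_ne (D : IsoData M ι) (hD : D.Ok) :
    constantCoeff (jR M D.δ) ≠ 0 := by
  rw [jR_const]
  intro h
  have h1 : (D.δ.map (constantCoeff (R := M))) = 0 := by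
    apply IsFractionRing.injective (Polynomial M) (RatFunc M)
    rw [h, map_zero]
  exact (hD.monic.map _).ne_zero h1

private theorem isoga_inv (D : IsoData M ι) (hD : D.Ok) :
    jR M D.δ * (jR M D.δ)⁻¹ = 1 :=
  PowerSeries.mul_inv_cancel _ (isoga_ne D hD)

private theorem isoga_mul {E : Type u} [CommRing E] (D : Der E) (a b : E) :
    D (a * b) = a * D b + b * D a := by
  rw [Derivation.leibniz, smul_eq_mul, smul_eq_mul]

private theorem isoga_dinv {E : Type u} [CommRing E] (D : Der E) (a b : E) (h : a * b = 1) :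
    D b = - (b * b * D a) := by
  have h1 : D (a * b) = 0 := by rw [h, Derivation.map_one_eq_zero]
  rw [Derivation.leibniz, smul_eq_mul, smul_eq_mul] at h1
  calc D b = (a * b) * D b := by rw [h, one_mul]
    _ = b * (a * D b + b * D a) - b * b * D a := by ring
    _ = - (b * b * D a) := by rw [h1]; ring

private theorem isoga_flat (D : IsoData M ι) (hD : D.Ok) (u v : ι) :
    dsR (RatFunc M) (D.BtR u v) + (D.BsR * D.BtR) u v =
      dtR M (D.BsR u v) + (D.BtR * D.BsR) u v := by
  have he := isoga_inv D hD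
  have h1 : ∀ u v, D.BtR u v = jR M (D.Gt u v) * (jR M D.δ)⁻¹ := fun _ _ => rfl
  have h2 : ∀ u v, D.BsR u v = jR M (D.Gs u v) * (jR M D.δ)⁻¹ := fun _ _ => rfl
  have h3 := isoga_dinv (dsR (RatFunc M)) _ _ he
  have h4 := isoga_dinv (dtR M) _ _ he
  have h5 := congrArg (jR M) (hD.flat u v)
  rw [Matrix.mul_apply, Matrix.mul_apply]
  rw [map_zero, map_add, Matrix.sub_apply, Matrix.mul_apply, Matrix.mul_apply, map_add, map_sub,
    map_mul, map_mul, map_mul, map_sub, map_sub, map_sum, map_sum, ← dsR_jR, ← dtR_jR, ← dsR_jR,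
    ← dtR_jR] at h5
  have h6 : ∑ w, D.BsR u w * D.BtR w v =
      (∑ w, jR M (D.Gs u w * D.Gt w v)) * ((jR M D.δ)⁻¹ * (jR M D.δ)⁻¹) := by
    rw [Finset.sum_mul]
    refine Finset.sum_congr rfl fun w _ => ?_
    rw [h1, h2, map_mul]
    ring
  have h7 : ∑ w, D.BtR u w * D.BsR w v =
      (∑ w, jR M (D.Gt u w * D.Gs w v)) * ((jR M D.δ)⁻¹ * (jR M D.δ)⁻¹) := by
    rw [Finset.sum_mul]
    refine Finset.sum_congr rfl fun w _ => ?_
    rw [h1, h2, map_mul]
    ring
  rw [h6, h7, h1, h2, isoga_mul, isoga_mul, h3, h4]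
  generalize (jR M D.δ)⁻¹ = e at *
  generalize jR M D.δ = a at *
  generalize (∑ w, jR M (D.Gs u w * D.Gt w v)) = S1 at *
  generalize (∑ w, jR M (D.Gt u w * D.Gs w v)) = S2 at *
  generalize dsR (RatFunc M) (jR M (D.Gt u v)) = X1 at *
  generalize dtR M (jR M (D.Gs u v)) = X2 at *
  generalize jR M (D.Gt u v) = Y1 at *
  generalize jR M (D.Gs u v) = Y2 at *
  generalize dsR (RatFunc M) a = Z1 at *
  generalize dtR M a = Z2 at *
  have h8 : e * X1 = e * e * (a * X1) := by
    calc e * X1 = (a * e) * (e * X1) := by rw [he, one_mul]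
      _ = _ := by ring
  have h9 : e * X2 = e * e * (a * X2) := by
    calc e * X2 = (a * e) * (e * X2) := by rw [he, one_mul]
      _ = _ := by ring
  rw [h8, h9]
  linear_combination (e * e) * h5

theorem iso_comm (D : IsoData M ι) (hD : D.Ok) (x : ι → PowerSeries (RatFunc M)) :
    conn (dsR (RatFunc M)) D.BsR (conn (dtR M) D.BtR x) =
      conn (dtR M) D.BtR (conn (dsR (RatFunc M)) D.BsR x) := by
  funext u
  unfold conn
  have hf := isoga_flat D hD u
  rw [map_add, map_add, map_sum, map_sum, dsR_dtR]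
  have h1 : ∑ v, dsR (RatFunc M) (D.BtR u v * x v) =
      ∑ v, D.BtR u v * dsR (RatFunc M) (x v) + ∑ v, dsR (RatFunc M) (D.BtR u v) * x v := by
    rw [← Finset.sum_add_distrib]
    refine Finset.sum_congr rfl fun v _ => ?_
    rw [isoga_mul, mul_comm (x v)]
  have h2 : ∑ v, dtR M (D.BsR u v * x v) =
      ∑ v, D.BsR u v * dtR M (x v) + ∑ v, dtR M (D.BsR u v) * x v := by
    rw [← Finset.sum_add_distrib]
    refine Finset.sum_congr rfl fun v _ => ?_
    rw [isoga_mul, mul_comm (x v)]
  have h3 : ∀ A B : Matrix ι ι (PowerSeries (RatFunc M)),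
      ∑ v, A u v * ∑ w, B v w * x w = ∑ w, (A * B) u w * x w := by
    intro A B
    simp only [Matrix.mul_apply, Finset.mul_sum, Finset.sum_mul]
    rw [Finset.sum_comm]
    refine Finset.sum_congr rfl fun v _ => Finset.sum_congr rfl fun w _ => ?_
    ring
  have h4 : ∑ v, D.BsR u v * (dtR M (x v) + ∑ w, D.BtR v w * x w) =
      ∑ v, D.BsR u v * dtR M (x v) + ∑ w, (D.BsR * D.BtR) u w * x w := by
    rw [← h3, ← Finset.sum_add_distrib]
    exact Finset.sum_congr rfl fun v _ => mul_add _ _ _
  have h5 : ∑ v, D.BtR u v * (dsR (RatFunc M) (x v) + ∑ w, D.BsR v w * x w) =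
      ∑ v, D.BtR u v * dsR (RatFunc M) (x v) + ∑ w, (D.BtR * D.BsR) u w * x w := by
    rw [← h3, ← Finset.sum_add_distrib]
    exact Finset.sum_congr rfl fun v _ => mul_add _ _ _
  have h6 : ∑ v, dsR (RatFunc M) (D.BtR u v) * x v + ∑ v, (D.BsR * D.BtR) u v * x v =
      ∑ v, dtR M (D.BsR u v) * x v + ∑ v, (D.BtR * D.BsR) u v * x v := by
    rw [← Finset.sum_add_distrib, ← Finset.sum_add_distrib]
    refine Finset.sum_congr rfl fun v _ => ?_
    rw [← add_mul, ← add_mul, hf v]
  rw [h1, h2, h4, h5]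
  linear_combination h6

private noncomputable def isoga_hom {E : Type u} [CommRing E] (D : Der E) (B : Matrix ι ι E) :
    (ι → E) →+ (ι → E) where
  toFun := conn D B
  map_zero' := by
    funext u
    simp [conn]
  map_add' x y := by
    funext u
    simp only [conn, Pi.add_apply, map_add, mul_add, Finset.sum_add_distrib]
    ring

private theorem isoga_leib {E : Type u} [CommRing E] (D : Der E) (B : Matrix ι ι E) (r : E)
    (x : ι → E) : conn D B (r • x) = D r • x + r • conn D B x := by
  funext u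
  simp only [conn, Pi.add_apply, Pi.smul_apply, smul_eq_mul, Derivation.leibniz, mul_add,
    Finset.mul_sum]
  have h : ∑ v, B u v * (r * x v) = ∑ v, r * (B u v * x v) :=
    Finset.sum_congr rfl fun v _ => by ring
  rw [h]
  ring

private theorem isoga_dsC (a : RatFunc M) : dsR (RatFunc M) (C a) = 0 := by
  ext k
  rw [coeff_dsR, PowerSeries.coeff_C, if_neg (Nat.succ_ne_zero k), zero_mul, map_zero]

private theorem isoga_dsX : dsR (RatFunc M) X = 1 := by
  show PowerSeries.derivative (RatFunc M) X = 1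
  rw [PowerSeries.derivative_X]

private theorem isoga_ct (x : PowerSeries (RatFunc M)) :
    constantCoeff (dtR M x) = DK M (constantCoeff x) := by
  have h := coeff_dtR x 0
  rwa [coeff_zero_eq_constantCoeff_apply, coeff_zero_eq_constantCoeff_apply] at h

private theorem isoga_degsum {α : Type*} {d : ℕ} {m : ℤ} (s : Finset α)
    (f : α → RatFunc M) (h : ∀ i ∈ s, Bd d m (f i)) : Bd d m (∑ i ∈ s, f i) := by
  classical
  induction s using Finset.induction_on with
  | empty => exact Or.inl Finset.sum_empty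
  | insert a s ha ih =>
    rw [Finset.sum_insert ha]
    exact Bd_add (h a (Finset.mem_insert_self a s))
      (ih fun i hi => h i (Finset.mem_insert_of_mem hi))

private noncomputable def isoga_L (d : ℕ) (m : ℤ) : Submodule M (RatFunc M) where
  carrier := {x | Bd d m x}
  zero_mem' := Or.inl rfl
  add_mem' hx hy := Bd_add hx hy
  smul_mem' a _ hx := Bd_smul a hx

private theorem isoga_Bs (D : IsoData M ι) (hD : D.Ok) (u v : ι) :
    DegR D.d (D.q v - D.q u) (D.BsR u v) := by
  by_cases h0 : D.Gs u v = 0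
  · intro k
    left
    show coeff k (jR M (D.Gs u v) * (jR M D.δ)⁻¹) = 0
    rw [h0, map_zero, zero_mul, map_zero]
  · have h1 : (constantCoeff (jR M D.δ)).intDegree = (D.δ.natDegree : ℤ) := by
      rw [jR_const, RatFunc.intDegree_polynomial, hD.monic.natDegree_map]
    have h2 := DegR_inv (isoga_ne D hD) h1 (DegR_jR (d := D.d) D.δ)
    have h3 := DegR_mul (DegR_jR (d := D.d) (D.Gs u v)) h2
    have h4 := hD.degs u v h0
    intro k
    exact Bd_mono (h3 k) (by linarith)

theorem iso_psi [CharZero M] (D : IsoData M ι) (hD : D.Ok) (g : ℕ) (w : Fin g → ι → Polynomial M)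
    (γ : Matrix (Fin g) (Fin g) (Polynomial M))
    (hw : ∀ i u, D.δ.map (constantCoeff (R := M)) * Polynomial.derivative (w i u) +
      ∑ v, (D.Gt u v).map (constantCoeff (R := M)) * w i v = ∑ j, γ j i * w j u) :
    ∃ ψ : Fin g → ι → PowerSeries (RatFunc M),
      (∀ i u, constantCoeff (ψ i u) = algebraMap (Polynomial M) (RatFunc M) (w i u)) ∧
      (∀ i, conn (dsR (RatFunc M)) D.BsR (ψ i) = 0) ∧
      (∀ i, conn (dtR M) D.BtR (ψ i) = ∑ j,
        (C (algebraMap (Polynomial M) (RatFunc M) (γ j i) /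
          algebraMap (Polynomial M) (RatFunc M) (D.δ.map (constantCoeff (R := M)))) :
            PowerSeries (RatFunc M)) • ψ j) ∧
      (∃ m : ℤ, ∀ i u, DegR D.d m (ψ i u)) ∧
      ∀ Q : Submodule (PowerSeries (RatFunc M)) (ι → PowerSeries (RatFunc M)),
        (∀ x ∈ Q, conn (dsR (RatFunc M)) D.BsR x ∈ Q) →
        (∀ i, ∃ x ∈ Q, ∀ u, constantCoeff (x u) =
          algebraMap (Polynomial M) (RatFunc M) (w i u)) → ∀ i, ψ i ∈ Q := by
  have hP : ∀ (r : PowerSeries (RatFunc M)) (x : ι → PowerSeries (RatFunc M)),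
      isoga_hom (dsR (RatFunc M)) D.BsR (r • x) =
        dsR (RatFunc M) r • x + r • isoga_hom (dsR (RatFunc M)) D.BsR x :=
    fun r x => isoga_leib _ _ r x
  have hx : ∀ i, ∃ y : ι → PowerSeries (RatFunc M),
      isoga_hom (dsR (RatFunc M)) D.BsR y = 0 ∧
      ∀ u, constantCoeff (y u) = algebraMap (Polynomial M) (RatFunc M) (w i u) := by
    intro i
    obtain ⟨y, h1, h2, -⟩ := lift_exists (dsR (RatFunc M)) isoga_dsX
      (isoga_hom (dsR (RatFunc M)) D.BsR) hP
      (fun u => C (algebraMap (Polynomial M) (RatFunc M) (w i u)))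
    exact ⟨y, h1, fun u => by rw [h2 u, constantCoeff_C]⟩
  choose ψ hψ h0 using hx
  refine ⟨ψ, h0, hψ, fun i => ?_, ?_, fun Q hQ hxQ i => ?_⟩
  · rw [← sub_eq_zero]
    refine lift_unique (dsR (RatFunc M)) isoga_dsX (isoga_hom (dsR (RatFunc M)) D.BsR) hP _ ?_
      fun u => ?_
    · rw [map_sub, map_sum, sub_eq_zero]
      have h1 : isoga_hom (dsR (RatFunc M)) D.BsR (conn (dtR M) D.BtR (ψ i)) = 0 := by
        have h2 : conn (dsR (RatFunc M)) D.BsR (ψ i) = 0 := hψ i
        have h3 := iso_comm D hD (ψ i)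
        rw [h2] at h3
        exact h3.trans (map_zero (isoga_hom (dtR M) D.BtR))
      rw [h1]
      refine (Finset.sum_eq_zero fun j _ => ?_).symm
      rw [hP, isoga_dsC, hψ j, zero_smul, smul_zero, add_zero]
    · have hne : algebraMap (Polynomial M) (RatFunc M)
          (D.δ.map (constantCoeff (R := M))) ≠ 0 := by
        have h1 := isoga_ne D hD
        rwa [jR_const] at h1
      have h1 : (conn (dtR M) D.BtR (ψ i) - ∑ j,
          (C (algebraMap (Polynomial M) (RatFunc M) (γ j i) /
            algebraMap (Polynomial M) (RatFunc M) (D.δ.map (constantCoeff (R := M)))) :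
              PowerSeries (RatFunc M)) • ψ j) u =
          dtR M (ψ i u) + ∑ v, jR M (D.Gt u v) * (jR M D.δ)⁻¹ * ψ i v - ∑ j,
          (C (algebraMap (Polynomial M) (RatFunc M) (γ j i) /
            algebraMap (Polynomial M) (RatFunc M) (D.δ.map (constantCoeff (R := M)))) :
              PowerSeries (RatFunc M)) * ψ j u := by
        rw [Pi.sub_apply, Finset.sum_apply]
        rfl
      rw [h1, map_sub, map_add, isoga_ct, h0, DK_poly, map_sum, map_sum]
      simp only [map_mul, constantCoeff_inv, constantCoeff_C, jR_const, h0]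
      have h2 := congrArg (algebraMap (Polynomial M) (RatFunc M)) (hw i u)
      rw [map_add, map_mul, map_sum, map_sum] at h2
      simp only [map_mul] at h2
      generalize algebraMap (Polynomial M) (RatFunc M)
        (D.δ.map (constantCoeff (R := M))) = e at *
      have h3 : ∑ v, algebraMap (Polynomial M) (RatFunc M)
          ((D.Gt u v).map (constantCoeff (R := M))) * e⁻¹ *
            algebraMap (Polynomial M) (RatFunc M) (w i v) =
          e⁻¹ * ∑ v, algebraMap (Polynomial M) (RatFunc M)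
            ((D.Gt u v).map (constantCoeff (R := M))) *
              algebraMap (Polynomial M) (RatFunc M) (w i v) := by
        rw [Finset.mul_sum]
        exact Finset.sum_congr rfl fun v _ => by ring
      have h4 : ∑ j, algebraMap (Polynomial M) (RatFunc M) (γ j i) / e *
            algebraMap (Polynomial M) (RatFunc M) (w j u) =
          e⁻¹ * ∑ j, algebraMap (Polynomial M) (RatFunc M) (γ j i) *
            algebraMap (Polynomial M) (RatFunc M) (w j u) := by
        rw [Finset.mul_sum]
        refine Finset.sum_congr rfl fun v _ => ?_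
        rw [div_eq_mul_inv]
        ring
      rw [h3, h4, ← h2]
      field_simp
      ring
  · classical
    obtain ⟨m₀, hm₀⟩ : ∃ m₀ : ℤ, ∀ i u, (D.d : ℤ) * (w i u).natDegree + D.q u ≤ m₀ := by
      refine ⟨∑ i, ∑ u, |(D.d : ℤ) * (w i u).natDegree + D.q u|, fun i u => ?_⟩
      refine (le_abs_self _).trans ?_
      refine (Finset.single_le_sum
        (f := fun u => |(D.d : ℤ) * (w i u).natDegree + D.q u|)
        (fun _ _ => abs_nonneg _) (Finset.mem_univ u)).trans ?_
      exact Finset.single_le_sum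
        (f := fun i => ∑ u, |(D.d : ℤ) * (w i u).natDegree + D.q u|)
        (fun _ _ => Finset.sum_nonneg fun _ _ => abs_nonneg _) (Finset.mem_univ i)
    obtain ⟨m₁, hm₁⟩ : ∃ m₁ : ℤ, ∀ u, - D.q u ≤ m₁ := by
      refine ⟨∑ u, |- D.q u|, fun u => (le_abs_self _).trans ?_⟩
      exact Finset.single_le_sum (f := fun u => |- D.q u|)
        (fun _ _ => abs_nonneg _) (Finset.mem_univ u)
    have h1 : ∀ i, ∀ u k, coeff k (ψ i u) ∈ isoga_L (M := M) D.d (m₀ - D.q u) := by
      intro i
      refine lift_lattice (fun u => isoga_L (M := M) D.d (m₀ - D.q u)) (dsR (RatFunc M))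
        isoga_dsX (isoga_hom (dsR (RatFunc M)) D.BsR) hP ?_
        (fun u => C (algebraMap (Polynomial M) (RatFunc M) (w i u))) (ψ i) ?_ (hψ i) ?_
      · intro x hx u k
        show Bd D.d (m₀ - D.q u)
          (coeff k (dsR (RatFunc M) (x u) + ∑ v, D.BsR u v * x v))
        rw [map_add, map_sum, coeff_dsR]
        refine Bd_add ?_ (isoga_degsum _ _ fun v _ => ?_)
        · have h2 := Bd_smul ((k : M) + 1) (hx u (k + 1))
          rw [Algebra.smul_def, map_add, map_natCast, map_one, mul_comm] at h2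
          exact h2
        · have h2 : DegR D.d (m₀ - D.q v) (x v) := fun k => hx v k
          have h3 := DegR_mul (isoga_Bs D hD u v) h2 k
          exact Bd_mono h3 (by linarith)
      · intro u k
        show Bd D.d (m₀ - D.q u) (coeff k (C (algebraMap (Polynomial M) (RatFunc M) (w i u))))
        rw [PowerSeries.coeff_C]
        split_ifs
        · exact Bd_mono (Bd_poly _) (by linarith [hm₀ i u])
        · exact Or.inl rfl
      · intro u
        rw [constantCoeff_C]
        exact h0 i u
    exact ⟨m₀ + m₁, fun i u k => Bd_mono (h1 i u k) (by linarith [hm₁ u])⟩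
  · obtain ⟨x, hxq, hx0⟩ := hxQ i
    exact lift_sub (dsR (RatFunc M)) isoga_dsX (isoga_hom (dsR (RatFunc M)) D.BsR) hP Q hQ x
      (ψ i) hxq (hψ i) fun u => by rw [hx0 u, h0 i u]

private theorem isogb_leib {E : Type*} [CommRing E] (D : Der E) (a b : E) :
    D (a * b) = a * D b + b * D a := by
  rw [Derivation.leibniz, smul_eq_mul, smul_eq_mul]

private noncomputable def isogb_S (M : Type u) [Field M] : Subring (PowerSeries (RatFunc M)) :=
  (PowerSeries.map (algebraMap (Polynomial M) (RatFunc M))).range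

private theorem isogb_mem {M : Type u} [Field M] (r : PowerSeries (RatFunc M)) :
    r ∈ isogb_S M ↔ ∀ k, ∃ p : Polynomial M,
      coeff k r = algebraMap (Polynomial M) (RatFunc M) p := by
  constructor
  · rintro ⟨f, rfl⟩ k
    exact ⟨coeff k f, PowerSeries.coeff_map _ _ _⟩
  · intro h
    choose p hp using h
    refine ⟨PowerSeries.mk p, ?_⟩
    ext k
    rw [PowerSeries.coeff_map, PowerSeries.coeff_mk, hp]

private theorem isogb_ds {M : Type u} [Field M] {r : PowerSeries (RatFunc M)}
    (hr : r ∈ isogb_S M) : dsR (RatFunc M) r ∈ isogb_S M := by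
  rw [isogb_mem] at hr ⊢
  intro k
  obtain ⟨p, hp⟩ := hr (k + 1)
  refine ⟨p * ((k : Polynomial M) + 1), ?_⟩
  rw [coeff_dsR, hp, map_mul, map_add, map_natCast, map_one]

private theorem isogb_dt {M : Type u} [Field M] {r : PowerSeries (RatFunc M)}
    (hr : r ∈ isogb_S M) : dtR M r ∈ isogb_S M := by
  rw [isogb_mem] at hr ⊢
  intro k
  obtain ⟨p, hp⟩ := hr k
  exact ⟨Polynomial.derivative p, by rw [coeff_dtR, hp, DK_poly]⟩

private theorem isogb_jR {M : Type u} [Field M] (a : Polynomial (PowerSeries M)) :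
    jR M a ∈ isogb_S M := by
  rw [isogb_mem]
  intro k
  obtain ⟨p, hp, -⟩ := jR_coeff a k
  exact ⟨p, hp⟩

private theorem isogb_alg {M : Type u} [Field M] (α : M) :
    algebraMap (Polynomial M) (RatFunc M) (Polynomial.C α) = algebraMap M (RatFunc M) α := by
  rw [RatFunc.algebraMap_C, RatFunc.algebraMap_eq_C]

private theorem isogb_C {M : Type u} [Field M] (α : M) :
    (C (algebraMap M (RatFunc M) α) : PowerSeries (RatFunc M)) ∈ isogb_S M := by
  refine ⟨C (Polynomial.C α), ?_⟩
  rw [PowerSeries.map_C, isogb_alg]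

private theorem isogb_act {M : Type u} [Field M] {ι : Type} [Fintype ι] [DecidableEq ι] {g : ℕ}
    (B : Matrix ι ι (PowerSeries (RatFunc M))) (hB : ∀ i j, B i j ∈ isogb_S M)
    (c : (Fin g → ι) → PowerSeries (RatFunc M)) (hc : ∀ J, c J ∈ isogb_S M) (J : Fin g → ι) :
    act B c J ∈ isogb_S M := by
  unfold act
  exact Subring.sum_mem _ fun j _ => Subring.sum_mem _ fun i _ =>
    Subring.mul_mem _ (hc _) (hB _ _)

private noncomputable def isogb_P {M : Type u} [Field M] {ι : Type} [Fintype ι] [DecidableEq ι]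
    {g : ℕ} (V ρ : PowerSeries (RatFunc M)) (B : Matrix ι ι (PowerSeries (RatFunc M))) :
    ((Fin g → ι) → PowerSeries (RatFunc M)) →+ ((Fin g → ι) → PowerSeries (RatFunc M)) where
  toFun c := fun J => dsR (RatFunc M) (c J) + V * dtR M (c J) + act B c J - ρ * c J
  map_zero' := by
    funext J
    show dsR (RatFunc M) 0 + V * dtR M 0 +
      act B (0 : (Fin g → ι) → PowerSeries (RatFunc M)) J - ρ * 0 = 0
    have h : act B (0 : (Fin g → ι) → PowerSeries (RatFunc M)) J = 0 := by
      unfold act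
      refine Finset.sum_eq_zero fun j _ => Finset.sum_eq_zero fun i _ => ?_
      show (0 : PowerSeries (RatFunc M)) * _ = 0
      rw [zero_mul]
    rw [map_zero, map_zero, h]
    ring
  map_add' a b := by
    funext J
    show dsR (RatFunc M) (a J + b J) + V * dtR M (a J + b J) + act B (a + b) J -
        ρ * (a J + b J) =
      (dsR (RatFunc M) (a J) + V * dtR M (a J) + act B a J - ρ * a J) +
        (dsR (RatFunc M) (b J) + V * dtR M (b J) + act B b J - ρ * b J)
    have h : act B (a + b) J = act B a J + act B b J := by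
      rw [act_add]
      rfl
    rw [map_add, map_add, h]
    ring

private theorem isogb_P_apply {M : Type u} [Field M] {ι : Type} [Fintype ι] [DecidableEq ι]
    {g : ℕ} (V ρ : PowerSeries (RatFunc M)) (B : Matrix ι ι (PowerSeries (RatFunc M)))
    (c : (Fin g → ι) → PowerSeries (RatFunc M)) (J : Fin g → ι) :
    isogb_P V ρ B c J =
      dsR (RatFunc M) (c J) + V * dtR M (c J) + act B c J - ρ * c J := rfl

private theorem isogb_P_smul {M : Type u} [Field M] {ι : Type} [Fintype ι] [DecidableEq ι]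
    {g : ℕ} (V ρ : PowerSeries (RatFunc M)) (B : Matrix ι ι (PowerSeries (RatFunc M)))
    (r : PowerSeries (RatFunc M)) (c : (Fin g → ι) → PowerSeries (RatFunc M)) :
    isogb_P V ρ B (r • c) =
      (dsR (RatFunc M) + V • dtR M) r • c + r • isogb_P V ρ B c := by
  funext J
  show dsR (RatFunc M) (r * c J) + V * dtR M (r * c J) + act B (r • c) J - ρ * (r * c J) =
    (dsR (RatFunc M) r + V * dtR M r) * c J +
      r * (dsR (RatFunc M) (c J) + V * dtR M (c J) + act B c J - ρ * c J)
  have h : act B (r • c) J = r * act B c J := by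
    rw [act_smul]
    rfl
  rw [h, isogb_leib, isogb_leib]
  ring

private theorem isogb_DX {M : Type u} [Field M] (V : PowerSeries (RatFunc M)) :
    (dsR (RatFunc M) + V • dtR M) (X : PowerSeries (RatFunc M)) = 1 := by
  show dsR (RatFunc M) X + V * dtR M X = 1
  have h1 : dsR (RatFunc M) X = 1 := by
    ext k
    rw [coeff_dsR, PowerSeries.coeff_X, PowerSeries.coeff_one]
    by_cases hk : k = 0
    · subst hk
      simp
    · rw [if_neg (by omega), if_neg hk, zero_mul]
  have h2 : dtR M X = 0 := by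
    ext k
    rw [coeff_dtR, PowerSeries.coeff_X, map_zero]
    split_ifs
    · exact Derivation.map_one_eq_zero _
    · exact map_zero _
  rw [h1, h2, mul_zero, add_zero]

private theorem isogb_neg {M : Type u} [Field M] {d : ℕ} {m : ℤ} {a : PowerSeries (RatFunc M)}
    (ha : DegR d m a) : DegR d m (-a) := by
  intro k
  have h := Bd_smul (-1 : M) (ha k)
  rwa [neg_one_smul, ← map_neg] at h

private theorem isogb_sum {M : Type u} [Field M] {d : ℕ} {m : ℤ} {T : Type*} (s : Finset T)
    (f : T → PowerSeries (RatFunc M)) (h : ∀ i ∈ s, DegR d m (f i)) :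
    DegR d m (∑ i ∈ s, f i) := by
  classical
  induction s using Finset.induction_on with
  | empty =>
    intro k
    rw [Finset.sum_empty, map_zero]
    exact Or.inl rfl
  | insert a s ha ih =>
    rw [Finset.sum_insert ha]
    intro k
    rw [map_add]
    exact Bd_add (h a (Finset.mem_insert_self _ _) k)
      (ih (fun i hi => h i (Finset.mem_insert_of_mem hi)) k)

private theorem isogb_prod {M : Type u} [Field M] {d : ℕ} {m : ℤ} {T : Type*} (s : Finset T)
    (f : T → PowerSeries (RatFunc M)) (h : ∀ i ∈ s, DegR d m (f i)) :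
    DegR d ((s.card : ℤ) * m) (∏ i ∈ s, f i) := by
  classical
  induction s using Finset.induction_on with
  | empty =>
    intro k
    rw [Finset.prod_empty, PowerSeries.coeff_one, Finset.card_empty]
    split_ifs
    · right
      rw [RatFunc.intDegree_one]
      simp
    · exact Or.inl rfl
  | insert a s ha ih =>
    rw [Finset.prod_insert ha, Finset.card_insert_of_notMem ha]
    have h1 := DegR_mul (h a (Finset.mem_insert_self _ _))
      (ih (fun i hi => h i (Finset.mem_insert_of_mem hi)))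
    have h2 : m + (s.card : ℤ) * m = ((s.card + 1 : ℕ) : ℤ) * m := by
      push_cast
      ring
    rwa [h2] at h1

private theorem isogb_deg {M : Type u} [Field M] {ι : Type} {g d : ℕ} {m : ℤ}
    (ψ : Fin g → ι → PowerSeries (RatFunc M)) (h : ∀ i u, DegR d m (ψ i u)) (J : Fin g → ι) :
    DegR d ((g : ℤ) * m) (dform ψ J) := by
  unfold dform
  rw [Matrix.det_apply']
  refine isogb_sum _ _ fun σ _ => ?_
  have h1 : DegR d ((g : ℤ) * m) (∏ i, (Matrix.of fun v u => ψ v (J u)) (σ i) i) := by
    have h2 := isogb_prod (d := d) (m := m) Finset.univ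
      (fun i : Fin g => (Matrix.of fun v u => ψ v (J u)) (σ i) i) fun i _ => h _ _
    rwa [Finset.card_univ, Fintype.card_fin] at h2
  rcases Int.units_eq_one_or (Equiv.Perm.sign σ) with h2 | h2
  · rw [h2, Units.val_one, Int.cast_one, one_mul]
    exact h1
  · rw [h2, Units.val_neg, Units.val_one, Int.cast_neg, Int.cast_one, neg_one_mul]
    exact isogb_neg h1

private noncomputable def isogb_L (M : Type u) [Field M] : Submodule M (RatFunc M) :=
  LinearMap.range ((Algebra.linearMap (Polynomial M) (RatFunc M)).restrictScalars M)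

private theorem isogb_L_mem {M : Type u} [Field M] (x : RatFunc M) :
    x ∈ isogb_L M ↔ ∃ p : Polynomial M, x = algebraMap (Polynomial M) (RatFunc M) p := by
  constructor
  · rintro ⟨p, hp⟩
    exact ⟨p, hp.symm⟩
  · rintro ⟨p, hp⟩
    exact ⟨p, hp.symm⟩

private theorem isogb_SL {M : Type u} [Field M] (r : PowerSeries (RatFunc M)) :
    r ∈ isogb_S M ↔ ∀ k, coeff k r ∈ isogb_L M := by
  rw [isogb_mem]
  exact forall_congr' fun k => (isogb_L_mem _).symm

theorem iso_transport [CharZero M] [IsAlgClosed M] (D : IsoData M ι) (hD : D.Ok) (g : ℕ)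
    (w : Fin g → ι → Polynomial M) (γ : Matrix (Fin g) (Fin g) (Polynomial M))
    (ψ : Fin g → ι → PowerSeries (RatFunc M))
    (h0 : ∀ i u, constantCoeff (ψ i u) = algebraMap (Polynomial M) (RatFunc M) (w i u))
    (hs : ∀ i, conn (dsR (RatFunc M)) D.BsR (ψ i) = 0)
    (ht : ∀ i, conn (dtR M) D.BtR (ψ i) = ∑ j,
        (C (algebraMap (Polynomial M) (RatFunc M) (γ j i) /
          algebraMap (Polynomial M) (RatFunc M) (D.δ.map (constantCoeff (R := M)))) :
            PowerSeries (RatFunc M)) • ψ j)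
    (hm : ∃ m : ℤ, ∀ i u, DegR D.d m (ψ i u)) (α : M) (δ₁ δ₂ : Polynomial M) (h₁ : δ₁.Monic)
    (h₂ : δ₂.Monic) (h₁₂ : D.δ.map (constantCoeff (R := M)) = δ₁ * δ₂)
    (hT : ∑ i, γ i i = Polynomial.C α * Polynomial.derivative δ₁ * δ₂) :
    ∃ y : PowerSeries (RatFunc M), constantCoeff y = 1 ∧
      ∀ J : Fin g → ι, ∃ a : Polynomial (PowerSeries M), jR M a = y * dform ψ J := by
  obtain ⟨δ₁s, δ₂s, hm1, hm2, hfac, hred1, hred2, r, hr⟩ :=
    hensel_factor D.δ hD.monic hD.sep δ₁ δ₂ h₁ h₂ h₁₂ D.v hD.vec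
  obtain ⟨y, hy0, hyd, hys, hyt⟩ := exists_y D.d α δ₁s hm1
  rw [hred1] at hyt
  obtain ⟨m, hm⟩ := hm
  have hinj : Function.Injective (algebraMap (Polynomial M) (RatFunc M)) :=
    IsFractionRing.injective (Polynomial M) (RatFunc M)
  have hne : ∀ p : Polynomial M, p ≠ 0 → algebraMap (Polynomial M) (RatFunc M) p ≠ 0 :=
    fun p hp h => hp (hinj (h.trans (map_zero _).symm))
  have hj1 : jR M δ₁s * (jR M δ₁s)⁻¹ = 1 := by
    refine PowerSeries.mul_inv_cancel _ ?_
    rw [jR_const, hred1]
    exact hne _ h₁.ne_zero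
  have hj : jR M D.δ * (jR M D.δ)⁻¹ = 1 := by
    refine PowerSeries.mul_inv_cancel _ ?_
    rw [jR_const]
    exact hne _ (hD.monic.map _).ne_zero
  have hV : ∀ i j, D.BsR i j + jR M D.v * D.BtR i j = jR M (D.Dm i j) := by
    intro i j
    show jR M (D.Gs i j) * (jR M D.δ)⁻¹ + jR M D.v * (jR M (D.Gt i j) * (jR M D.δ)⁻¹) = _
    have h := congrArg (jR M) (hD.comb i j)
    rw [map_add, map_mul, map_mul] at h
    linear_combination (jR M D.δ)⁻¹ * h + jR M (D.Dm i j) * hj
  have e1 : ∀ J, dsR (RatFunc M) (dform ψ J) + act D.BsR.transpose (dform ψ) J = 0 := by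
    intro J
    have h := dform_conn (dsR (RatFunc M)) D.BsR (0 : Matrix (Fin g) (Fin g) _) ψ
      (fun v => by
        rw [hs v]
        symm
        exact Finset.sum_eq_zero fun k _ => by rw [Matrix.zero_apply, zero_smul]) J
    rw [h, Finset.sum_eq_zero fun k _ => Matrix.zero_apply k k, zero_mul]
  have e2 := dform_conn (dtR M) D.BtR
    (fun j i => (C (algebraMap (Polynomial M) (RatFunc M) (γ j i) /
      algebraMap (Polynomial M) (RatFunc M) (D.δ.map (constantCoeff (R := M)))) :
        PowerSeries (RatFunc M))) ψ ht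
  have hT' : ∑ v, (C (algebraMap (Polynomial M) (RatFunc M) (γ v v) /
      algebraMap (Polynomial M) (RatFunc M) (D.δ.map (constantCoeff (R := M)))) :
        PowerSeries (RatFunc M)) = C (algebraMap M (RatFunc M) α) *
      C (algebraMap (Polynomial M) (RatFunc M) (Polynomial.derivative δ₁) /
        algebraMap (Polynomial M) (RatFunc M) δ₁) := by
    rw [← map_sum, ← Finset.sum_div, ← map_sum, hT, h₁₂, ← map_mul]
    congr 1
    have n1 := hne _ h₁.ne_zero
    have n2 := hne _ h₂.ne_zero
    rw [map_mul, map_mul, map_mul, isogb_alg]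
    field_simp
  have hr' : jR M (dsP M δ₁s) + jR M D.v * jR M (dtP (PowerSeries M) δ₁s) =
      jR M δ₁s * jR M r := by
    rw [← map_mul, ← map_mul, ← map_add, hr]
  have hact : ∀ J, act (Matrix.transpose fun i j => jR M (D.Dm i j))
      (fun J => y * dform ψ J) J = y * (act D.BsR.transpose (dform ψ) J +
        jR M D.v * act D.BtR.transpose (dform ψ) J) := by
    intro J
    have h1 : (Matrix.transpose fun i j => jR M (D.Dm i j)) =
        D.BsR.transpose + jR M D.v • D.BtR.transpose :=
      Matrix.ext fun i j => (hV j i).symm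
    have h2 : act (Matrix.transpose fun i j => jR M (D.Dm i j))
        (y • dform ψ) = y • (act D.BsR.transpose (dform ψ) +
          jR M D.v • act D.BtR.transpose (dform ψ)) := by
      rw [act_smul, h1, act_add_left, act_smul_left]
    exact congrFun h2 J
  have hP0 : isogb_P (g := g) (jR M D.v) (C (algebraMap M (RatFunc M) α) * jR M r)
      (Matrix.transpose fun i j => jR M (D.Dm i j)) (fun J => y * dform ψ J) = 0 := by
    funext J
    rw [isogb_P_apply, hact J, isogb_leib, isogb_leib]
    show _ = (0 : PowerSeries (RatFunc M))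
    have e1' := e1 J
    have e2' := e2 J
    rw [hT'] at e2'
    linear_combination y * e1' + jR M D.v * y * e2' + dform ψ J * hys +
      jR M D.v * dform ψ J * hyt +
      dform ψ J * y * C (algebraMap M (RatFunc M) α) * (jR M δ₁s)⁻¹ * hr' +
      dform ψ J * y * C (algebraMap M (RatFunc M) α) * jR M r * hj1
  have hL : ∀ x : (Fin g → ι) → PowerSeries (RatFunc M),
      (∀ i k, coeff k (x i) ∈ isogb_L M) → ∀ i k, coeff k (isogb_P (g := g) (jR M D.v)
        (C (algebraMap M (RatFunc M) α) * jR M r)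
        (Matrix.transpose fun i j => jR M (D.Dm i j)) x i) ∈ isogb_L M := by
    intro x hx J
    have hx' : ∀ J, x J ∈ isogb_S M := fun J => (isogb_SL _).2 (hx J)
    refine (isogb_SL _).1 ?_
    rw [isogb_P_apply]
    exact Subring.sub_mem _ (Subring.add_mem _ (Subring.add_mem _ (isogb_ds (hx' J))
      (Subring.mul_mem _ (isogb_jR _) (isogb_dt (hx' J))))
      (isogb_act _ (fun i j => isogb_jR _) x hx' J))
      (Subring.mul_mem _ (Subring.mul_mem _ (isogb_C α) (isogb_jR _)) (hx' J))
  have hall := lift_lattice (M := M) (fun _ : Fin g → ι => isogb_L M)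
    (dsR (RatFunc M) + jR M D.v • dtR M) (isogb_DX _) _ (isogb_P_smul (g := g) (jR M D.v)
      (C (algebraMap M (RatFunc M) α) * jR M r)
      (Matrix.transpose fun i j => jR M (D.Dm i j))) hL
    (fun J => C (algebraMap (Polynomial M) (RatFunc M) (dform w J)))
    (fun J => y * dform ψ J) ?_ hP0 ?_
  · refine ⟨y, hy0, fun J => jR_range _ ((g : ℤ) * m).toNat fun k => ?_⟩
    obtain ⟨p, hp⟩ := (isogb_L_mem _).1 (hall J k)
    refine ⟨p, hp, ?_⟩
    have h1 := DegR_mul hyd (isogb_deg ψ hm J) k
    rw [zero_add] at h1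
    have hp' : coeff k (y * dform ψ J) = algebraMap (Polynomial M) (RatFunc M) p := hp
    rw [hp'] at h1
    rcases h1 with h1 | h1
    · have h2 : p = 0 := by
        by_contra h
        exact hne p h h1
      rw [h2, Polynomial.natDegree_zero]
      exact Nat.zero_le _
    · rw [RatFunc.intDegree_polynomial] at h1
      have h2 : (p.natDegree : ℤ) ≤ (D.d : ℤ) * p.natDegree :=
        le_mul_of_one_le_left (Int.natCast_nonneg _) (by exact_mod_cast hD.d_pos)
      have h3 := Int.toNat_le_toNat (h2.trans h1)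
      rwa [Int.toNat_natCast] at h3
  · intro J
    refine (isogb_SL _).1 ?_
    refine ⟨C (dform w J), ?_⟩
    rw [PowerSeries.map_C]
  · intro J
    show constantCoeff (y * dform ψ J) = constantCoeff (C (algebraMap _ _ (dform w J)))
    rw [map_mul, hy0, one_mul, PowerSeries.constantCoeff_C]
    unfold dform
    rw [RingHom.map_det, RingHom.map_det]
    congr 1
    ext v u
    exact h0 v (J u)

end MPadcHM
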