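import Pool.Agent.Lib.MP_adc574_ag_HM.MilDefs

/-!
# JOB MilA: the Milnor basis, generation

`exists_MB` (part a): `g` homogeneous of weight `d`. All monomials of weight `≥ M` are in `Jac g` and `w i > 0`, so the finite set `E = {e | wt e < M}` of monomials spans `κ[x] / Jac g`. Take `U ⊂ E` maximal (for inclusion, or cardinality) with
`∀ c, ∑ u ∈ U, monomial u (c u) ∈ Jac g → ∀ u ∈ U, c u = 0`. For `e ∈ E`, `e ∉ U` the maximality for `insert e U` gives a relation with nonzero coefficient at `e`, hence `monomial e 1 - ∑ c_u x^u ∈ Jac g`. `Jac g` is homogeneous: if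
`P ∈ Jac g` then `part w N P ∈ Jac g` (`P = ∑ Q_j ∂_j g`, `∂_j g` is homogeneous of weight `d - w j` (or 0 if `w j > d`): `part N P = ∑ (part (N + w j - d) Q_j) ∂_j g`, only the `j` with `N + w j ≥ d`). So one can drop all `u` with `wt u ≠ wt e`. For
`e ∉ E` take `c = 0`; for `e ∈ U` take `c = Pi.single e 1`.

`mb_gen` (part b): `B` a commutative `κ`-algebra, `φ ∈ B[x]` with `φ - g` of weight `< d`. Strong induction on `wt e`. Let `c`, `monomial e 1 = ∑ c_u x^u + ∑ B_j ∂_j g` (over `κ`), where we may assume that all monomials `e'` of `B_j` satisfy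
`wt e' + d = wt e + w j` (take homogeneous parts; `x^e - ∑ c_u x^u` is homogeneous of weight `wt e`).
If `wt e + ∑ w ≤ d` then all `B_j = 0` (`wt e' + d = wt e + w j < wt e + ∑ w` as `n ≥ 2`, `w > 0`). Otherwise let `m = wt e + ∑ w - d > 0` and over `B` (write `B_j` for its image) `A i j = w_i x_i B_j - w_j x_j B_i` (`Asym`). Then
`∑ i, ∂_i A i j = m B_j - w_j x_j dvg B` (`∑ i, ∂_i (w_i x_i x^{e'}) = wtp(e') x^{e'}`, `wtp(e') + d = wt e + w j + ∑ w`, so `wtp(e') - w_j = m`), so `m ∑ B_j φ_j = zz A (∂φ) + (∑ w_j x_j φ_j) dvg B`, `φ_j = ∂_j φ`, and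
`∑ w_j x_j φ_j = d φ - ψ`, `ψ = ∑_e' (d - wt e') φ_{e'} x^{e'}` of weight `< d`. So modulo the `zz A (∂φ)`:
`x^e = ∑ c_u x^u + m⁻¹ (d φ dvg B - ψ dvg B) - ∑ B_j ∂_j (φ - g)`; `dvg B` has weight `wt e - d` (`= 0` if `wt e < d`), `ψ dvg B` weight `< wt e`, `B_j ∂_j (φ - g)` weight `< wt e`. Apply the induction hypothesis to their monomials (coefficients in `B`): for the term `φ dvg B`
multiply the expansion of `dvg B` by `φ`, i.e. the `a u` by `T` (`φ * zz A (∂φ) = zz (φ A) (∂φ)`: `∑ ij φ_i A_ij φ_j = 0`, `2` is invertible in `B`; or directly from `Asym`).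
It is convenient to prove first the version for polynomials `P ∈ B[x]` all of whose monomials have weight `≤ N`.
-/

set_option autoImplicit false

namespace MPadcHM

open MvPolynomial

universe u

open Classical in
/-- the monomials with a property -/
private theorem milAa_flt {κ : Type*} [CommRing κ] {n : ℕ} (p : (Fin n →₀ ℕ) → Prop)
    (P : MvPolynomial (Fin n) κ) :
    ∃ P' : MvPolynomial (Fin n) κ, ∀ e, coeff e P' = if p e then coeff e P else 0 := by
  refine ⟨∑ e ∈ P.support.filter p, monomial e (coeff e P), ?_⟩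
  intro e
  rw [coeff_sum]
  simp only [coeff_monomial]
  rw [Finset.sum_ite_eq']
  by_cases hp : p e
  · rw [if_pos hp]
    by_cases he : coeff e P = 0
    · rw [he, ite_self]
    · rw [if_pos (Finset.mem_filter.2 ⟨mem_support_iff.2 he, hp⟩)]
  · rw [if_neg hp, if_neg (fun h => hp (Finset.mem_filter.1 h).2)]

private theorem milAa_wt_add {n : ℕ} (w : Fin n → ℕ) (a b : Fin n →₀ ℕ) :
    wt w (a + b) = wt w a + wt w b := by
  unfold wt
  rw [← Finset.sum_add_distrib]
  exact Finset.sum_congr rfl fun i _ => by rw [Finsupp.add_apply, mul_add]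

private theorem milAa_wt_single {n : ℕ} (w : Fin n → ℕ) (j : Fin n) :
    wt w (Finsupp.single j 1) = w j := by
  unfold wt
  rw [Finset.sum_eq_single j]
  · rw [Finsupp.single_eq_same, mul_one]
  · intro i _ hij
    rw [Finsupp.single_eq_of_ne hij, mul_zero]
  · intro h
    exact absurd (Finset.mem_univ j) h

private theorem milAa_pd {κ : Type*} [Field κ] {n : ℕ} (w : Fin n → ℕ) (d : ℕ)
    (g : MvPolynomial (Fin n) κ) (hg : Hom w d g) (j : Fin n) (b : Fin n →₀ ℕ)
    (hb : coeff b (pderiv j g) ≠ 0) : wt w b + w j = d := by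
  rw [coeff_pderiv] at hb
  have h1 : coeff (b + Finsupp.single j 1) g ≠ 0 := by
    intro h
    rw [h, zero_mul] at hb
    exact hb rfl
  have h2 := hg _ (mem_support_iff.2 h1)
  rw [milAa_wt_add, milAa_wt_single] at h2
  exact h2

/-- the Jacobian ideal is homogeneous -/
private theorem milAa_hom {κ : Type*} [Field κ] {n : ℕ} (w : Fin n → ℕ) (d : ℕ)
    (g : MvPolynomial (Fin n) κ) (hg : Hom w d g) (P : MvPolynomial (Fin n) κ) (hP : P ∈ Jac g)
    (N : ℕ) : ∃ P' ∈ Jac g, ∀ e, coeff e P' = if wt w e = N then coeff e P else 0 := by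
  obtain ⟨Q, hQ⟩ := Ideal.mem_span_range_iff_exists_fun.1 hP
  choose Q' hQ' using fun j : Fin n => milAa_flt (fun a => wt w a + d = N + w j) (Q j)
  refine ⟨∑ j, Q' j * pderiv j g, Ideal.mem_span_range_iff_exists_fun.2 ⟨Q', rfl⟩, ?_⟩
  intro m
  rw [coeff_sum]
  by_cases hm : wt w m = N
  · rw [if_pos hm, ← hQ, coeff_sum]
    refine Finset.sum_congr rfl fun j _ => ?_
    rw [coeff_mul, coeff_mul]
    refine Finset.sum_congr rfl fun x hx => ?_
    by_cases h0 : coeff x.2 (pderiv j g) = 0
    · rw [h0, mul_zero, mul_zero]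
    · have h1 := milAa_pd w d g hg j x.2 h0
      have h2 : wt w x.1 + wt w x.2 = wt w m := by
        rw [← milAa_wt_add, Finset.HasAntidiagonal.mem_antidiagonal.1 hx]
      rw [hQ', if_pos (by omega)]
  · rw [if_neg hm]
    refine Finset.sum_eq_zero fun j _ => ?_
    rw [coeff_mul]
    refine Finset.sum_eq_zero fun x hx => ?_
    by_cases h0 : coeff x.2 (pderiv j g) = 0
    · rw [h0, mul_zero]
    · have h1 := milAa_pd w d g hg j x.2 h0
      have h2 : wt w x.1 + wt w x.2 = wt w m := by
        rw [← milAa_wt_add, Finset.HasAntidiagonal.mem_antidiagonal.1 hx]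
      rw [hQ', if_neg (by omega), zero_mul]

theorem exists_MB {κ : Type*} [Field κ] {n : ℕ} (w : Fin n → ℕ) (hw : ∀ i, 0 < w i) (d : ℕ)
    (g : MvPolynomial (Fin n) κ) (hg : Hom w d g) (M : ℕ)
    (hM : ∀ e : Fin n →₀ ℕ, M ≤ wt w e → monomial e (1 : κ) ∈ Jac g) :
    ∃ U : Finset (Fin n →₀ ℕ), IsMB w g U := by
  classical
  have hfin : {e : Fin n →₀ ℕ | wt w e < M}.Finite := by
    refine Set.Finite.subset (Set.finite_Iic (Finsupp.equivFunOnFinite.symm fun _ : Fin n => M)) ?_
    intro e he
    rw [Set.mem_Iic]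
    intro i
    have h1 : e i ≤ w i * e i := Nat.le_mul_of_pos_left _ (hw i)
    have h2 : w i * e i ≤ wt w e :=
      Finset.single_le_sum (f := fun i => w i * e i) (fun _ _ => Nat.zero_le _)
        (Finset.mem_univ i)
    have h3 : wt w e < M := he
    have h4 : (Finsupp.equivFunOnFinite.symm fun _ : Fin n => M) i = M := rfl
    rw [h4]
    omega
  let E : Finset (Fin n →₀ ℕ) := hfin.toFinset
  let p : Finset (Fin n →₀ ℕ) → Prop := fun U =>
    ∀ c : (Fin n →₀ ℕ) → κ, ∑ u ∈ U, monomial u (c u) ∈ Jac g → ∀ u ∈ U, c u = 0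
  have hne : (E.powerset.filter p).Nonempty := by
    refine ⟨∅, Finset.mem_filter.2 ⟨Finset.empty_mem_powerset E, ?_⟩⟩
    intro c _ u hu
    exact absurd hu (Finset.notMem_empty u)
  obtain ⟨U, hU, hmax⟩ := Finset.exists_max_image (E.powerset.filter p) Finset.card hne
  obtain ⟨hUE, hUp⟩ := Finset.mem_filter.1 hU
  have hUE' : U ⊆ E := Finset.mem_powerset.1 hUE
  refine ⟨U, ?_, hUp⟩
  intro e
  by_cases heM : M ≤ wt w e
  · refine ⟨fun _ => 0, fun u hu => absurd rfl hu, ?_⟩
    have h1 : ∑ u ∈ U, monomial u (0 : κ) = 0 :=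
      Finset.sum_eq_zero fun u _ => monomial_zero
    rw [h1, sub_zero]
    exact hM e heM
  have heE : e ∈ E := by
    rw [Set.Finite.mem_toFinset]
    exact not_le.1 heM
  by_cases heU : e ∈ U
  · refine ⟨Pi.single e 1, ?_, ?_⟩
    · intro u hu
      by_cases hue : u = e
      · rw [hue]
      · exact absurd (Pi.single_eq_of_ne hue 1) hu
    · have h1 : ∑ u ∈ U, monomial u ((Pi.single e 1 : (Fin n →₀ ℕ) → κ) u) = monomial e 1 := by
        rw [Finset.sum_eq_single e]
        · rw [Pi.single_eq_same]
        · intro u _ hue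
          rw [Pi.single_eq_of_ne hue, monomial_zero]
        · intro h
          exact absurd heU h
      rw [h1, sub_self]
      exact Ideal.zero_mem _
  · have hnp : ¬ p (insert e U) := by
      intro hp
      have h1 : insert e U ∈ E.powerset.filter p := by
        refine Finset.mem_filter.2 ⟨Finset.mem_powerset.2 ?_, hp⟩
        exact Finset.insert_subset heE hUE'
      have h2 := hmax _ h1
      rw [Finset.card_insert_of_notMem heU] at h2
      omega
    have hnp' : ∃ c : (Fin n →₀ ℕ) → κ, ∑ u ∈ insert e U, monomial u (c u) ∈ Jac g ∧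
        ∃ u ∈ insert e U, c u ≠ 0 := by
      by_contra hcon
      apply hnp
      intro c hc u hu
      by_contra h0
      exact hcon ⟨c, hc, u, hu, h0⟩
    obtain ⟨c, hc, v, hv, hcv⟩ := hnp'
    rw [Finset.sum_insert heU] at hc
    have hce : c e ≠ 0 := by
      intro h0
      rw [h0, monomial_zero, zero_add] at hc
      rcases Finset.mem_insert.1 hv with h1 | h1
      · exact hcv (by rw [h1, h0])
      · exact hcv (hUp c hc v h1)
    obtain ⟨P', hP', hP'c⟩ := milAa_hom w d g hg _ hc (wt w e)
    have hPe : P' = monomial e (c e) + ∑ u ∈ U, monomial u (if wt w u = wt w e then c u else 0) := by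
      refine MvPolynomial.ext _ _ fun m => ?_
      rw [hP'c m, coeff_add, coeff_add, coeff_sum, coeff_sum]
      simp only [coeff_monomial]
      rw [Finset.sum_ite_eq', Finset.sum_ite_eq']
      by_cases hm : wt w m = wt w e
      · rw [if_pos hm, if_pos hm]
      · rw [if_neg hm, if_neg hm, if_neg (fun h => hm (by rw [h])), ite_self, add_zero]
    refine ⟨fun u => if wt w u = wt w e then - (c u * (c e)⁻¹) else 0, ?_, ?_⟩
    · intro u hu
      by_contra h0
      exact hu (if_neg h0)
    · have h1 : monomial e (1 : κ) - ∑ u ∈ U, monomial u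
          (if wt w u = wt w e then - (c u * (c e)⁻¹) else 0) = C (c e)⁻¹ * P' := by
        rw [hPe, mul_add, Finset.mul_sum, C_mul_monomial, inv_mul_cancel₀ hce, sub_eq_add_neg,
          ← Finset.sum_neg_distrib]
        congr 1
        refine Finset.sum_congr rfl fun u _ => ?_
        rw [C_mul_monomial, ← map_neg]
        congr 1
        by_cases hu : wt w u = wt w e
        · rw [if_pos hu, if_pos hu, neg_neg, mul_comm]
        · rw [if_neg hu, if_neg hu, neg_zero, mul_zero]
      rw [h1]
      exact Ideal.mul_mem_left _ _ hP'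

/-- `φ * zz A (∂ φ) = zz (φ A) (∂ φ)` over any commutative ring. -/
theorem zz_mul' {B : Type*} [CommRing B] {n : ℕ} (φ : MvPolynomial (Fin n) B)
    (A : Fin n → Fin n → MvPolynomial (Fin n) B) (hA : Asym A) :
    zz (fun i j => φ * A i j) (fun j => pderiv j φ) = φ * zz A (fun j => pderiv j φ) := by
  have h0 : ∑ j, ∑ i, A i j * (pderiv i φ * pderiv j φ) = 0 := by
    rw [← Finset.sum_product']
    refine Finset.sum_involution (fun x _ => (x.2, x.1)) ?_ ?_ ?_ ?_
    · intro x _
      change A x.2 x.1 * (pderiv x.2 φ * pderiv x.1 φ) +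
        A x.1 x.2 * (pderiv x.1 φ * pderiv x.2 φ) = 0
      rw [hA.2 x.2 x.1]
      ring
    · intro x _ hx hc
      apply hx
      have h1 : x.2 = x.1 := congrArg Prod.fst hc
      change A x.2 x.1 * (pderiv x.2 φ * pderiv x.1 φ) = 0
      rw [h1, hA.1, zero_mul]
    · intro x _
      exact Finset.mem_product.2 ⟨Finset.mem_univ _, Finset.mem_univ _⟩
    · intro x _
      rfl
  unfold zz
  have h1 : ∀ j ∈ (Finset.univ : Finset (Fin n)),
      (∑ i, pderiv i (φ * A i j)) * pderiv j φ =
      (∑ i, A i j * (pderiv i φ * pderiv j φ)) + φ * ((∑ i, pderiv i (A i j)) * pderiv j φ) := by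
    intro j _
    have h2 : ∀ i ∈ (Finset.univ : Finset (Fin n)), pderiv i (φ * A i j) =
        A i j * pderiv i φ + φ * pderiv i (A i j) := by
      intro i _
      rw [pderiv_mul]
      ring
    rw [Finset.sum_congr rfl h2, Finset.sum_add_distrib, add_mul, Finset.sum_mul,
      ← Finset.mul_sum, mul_assoc]
    congr 1
    refine Finset.sum_congr rfl fun i _ => ?_
    ring
  rw [Finset.sum_congr rfl h1, Finset.sum_add_distrib, ← Finset.mul_sum, h0, zero_add]

private theorem milab_wt_add {n : ℕ} (w : Fin n → ℕ) (e f : Fin n →₀ ℕ) :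
    wt w (e + f) = wt w e + wt w f := by
  unfold wt
  rw [← Finset.sum_add_distrib]
  exact Finset.sum_congr rfl fun i _ => by rw [Finsupp.add_apply]; ring

private theorem milab_wt_single {n : ℕ} (w : Fin n → ℕ) (i : Fin n) :
    wt w (Finsupp.single i 1) = w i := by
  unfold wt
  have h : ∀ k ∈ (Finset.univ : Finset (Fin n)), w k * (Finsupp.single i 1 : Fin n →₀ ℕ) k =
      if k = i then w k else 0 := by
    intro k _
    rw [Finsupp.single_apply]
    by_cases hk : k = i
    · rw [if_pos hk.symm, if_pos hk, mul_one]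
    · rw [if_neg (fun h => hk h.symm), if_neg hk, mul_zero]
  rw [Finset.sum_congr rfl h, Finset.sum_ite_eq' Finset.univ i w, if_pos (Finset.mem_univ i)]

section

variable {R : Type*} [CommRing R] {n : ℕ}

private theorem milab_mul_supp {P Q : MvPolynomial (Fin n) R} {e : Fin n →₀ ℕ}
    (he : e ∈ (P * Q).support) : ∃ f ∈ P.support, ∃ g ∈ Q.support, f + g = e := by
  classical
  have h := support_mul P Q he
  obtain ⟨f, hf, g, hg, h⟩ := Finset.mem_add.1 h
  exact ⟨f, hf, g, hg, h⟩

private theorem milab_pd_supp {P : MvPolynomial (Fin n) R} {i : Fin n} {e : Fin n →₀ ℕ}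
    (he : e ∈ (pderiv i P).support) : e + Finsupp.single i 1 ∈ P.support := by
  rw [mem_support_iff, coeff_pderiv] at he
  rw [mem_support_iff]
  exact left_ne_zero_of_mul he

private theorem milab_restr (p : (Fin n →₀ ℕ) → Prop) (P : MvPolynomial (Fin n) R) :
    ∃ P' : MvPolynomial (Fin n) R,
      (∀ e, p e → coeff e P' = coeff e P) ∧ ∀ e, ¬ p e → coeff e P' = 0 := by
  classical
  have key : ∀ e, coeff e (∑ f ∈ P.support.filter p, monomial f (coeff f P)) =
      if e ∈ P.support.filter p then coeff e P else 0 := by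
    intro e
    rw [coeff_sum]
    simp only [coeff_monomial]
    rw [Finset.sum_ite_eq' (P.support.filter p) e (fun x => coeff x P)]
  refine ⟨∑ f ∈ P.support.filter p, monomial f (coeff f P), fun e he => ?_, fun e he => ?_⟩
  · rw [key]
    by_cases h : e ∈ P.support.filter p
    · rw [if_pos h]
    · rw [if_neg h]
      by_contra hne
      exact h (Finset.mem_filter.2 ⟨mem_support_iff.2 (Ne.symm hne), he⟩)
  · rw [key, if_neg]
    exact fun h => he (Finset.mem_filter.1 h).2

private theorem milab_X_coeff (e : Fin n →₀ ℕ) (i : Fin n) (P : MvPolynomial (Fin n) R) :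
    coeff e (X i * pderiv i P) = (e i : R) * coeff e P := by
  induction P using MvPolynomial.induction_on' with
  | monomial u a =>
    classical
    rw [X_mul_pderiv_monomial, coeff_smul, coeff_monomial]
    split_ifs with h
    · rw [h, nsmul_eq_mul]
    · rw [smul_zero, mul_zero]
  | add p q hp hq =>
    rw [map_add, mul_add, coeff_add, coeff_add, hp, hq, mul_add]

/-- Euler. -/
private theorem milab_euler (w : Fin n → ℕ) (e : Fin n →₀ ℕ) (P : MvPolynomial (Fin n) R) :
    coeff e (∑ i, C ((w i : ℕ) : R) * (X i * pderiv i P)) = (wt w e : R) * coeff e P := by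
  rw [coeff_sum]
  unfold wt
  rw [Nat.cast_sum, Finset.sum_mul]
  refine Finset.sum_congr rfl fun i _ => ?_
  rw [coeff_C_mul, milab_X_coeff, Nat.cast_mul, mul_assoc]

private theorem milab_div1 (w : Fin n → ℕ) (e : Fin n →₀ ℕ) (P : MvPolynomial (Fin n) R) :
    coeff e (∑ i, C ((w i : ℕ) : R) * pderiv i (X i * P)) =
      ((wt w e + ∑ i, w i : ℕ) : R) * coeff e P := by
  have h1 : ∀ i ∈ (Finset.univ : Finset (Fin n)), C ((w i : ℕ) : R) * pderiv i (X i * P) =
      C ((w i : ℕ) : R) * P + C ((w i : ℕ) : R) * (X i * pderiv i P) := by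
    intro i _
    rw [pderiv_mul, pderiv_X_self, one_mul]
    ring
  rw [Finset.sum_congr rfl h1, Finset.sum_add_distrib, coeff_add, milab_euler, ← Finset.sum_mul,
    ← map_sum, coeff_C_mul, Nat.cast_add, Nat.cast_sum]
  ring

/-- The divergence identity. -/
private theorem milab_div (w : Fin n → ℕ) (Q : Fin n → MvPolynomial (Fin n) R) (m : ℕ)
    (hQ : ∀ j, ∀ e ∈ (Q j).support, wt w e + ∑ i, w i = m + w j) (j : Fin n) :
    ∑ i, pderiv i (C ((w i : ℕ) : R) * (X i * Q j) - C ((w j : ℕ) : R) * (X j * Q i)) =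
      C ((m : ℕ) : R) * Q j - C ((w j : ℕ) : R) * (X j * dvg Q) := by
  have h1 : ∀ i ∈ (Finset.univ : Finset (Fin n)),
      pderiv i (C ((w i : ℕ) : R) * (X i * Q j) - C ((w j : ℕ) : R) * (X j * Q i)) =
      C ((w i : ℕ) : R) * pderiv i (X i * Q j) -
        C ((w j : ℕ) : R) * ((if i = j then Q i else 0) + X j * pderiv i (Q i)) := by
    intro i _
    rw [map_sub, pderiv_C_mul, pderiv_C_mul]
    congr 2
    rw [pderiv_mul]
    by_cases hij : i = j
    · subst hij
      rw [pderiv_X_self, one_mul, if_pos rfl]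
    · rw [pderiv_X_of_ne (fun h => hij h.symm), zero_mul, if_neg hij]
  have h2 : ∑ i, C ((w i : ℕ) : R) * pderiv i (X i * Q j) = C ((m + w j : ℕ) : R) * Q j := by
    ext e
    rw [milab_div1, coeff_C_mul]
    by_cases he : coeff e (Q j) = 0
    · rw [he, mul_zero, mul_zero]
    · rw [hQ j e (mem_support_iff.2 he)]
  rw [Finset.sum_congr rfl h1, Finset.sum_sub_distrib, ← Finset.mul_sum,
    Finset.sum_add_distrib, ← Finset.mul_sum, h2, Finset.sum_ite_eq' Finset.univ j Q,
    if_pos (Finset.mem_univ j), Nat.cast_add, C_add]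
  unfold dvg
  ring

/-- The identity of `zz`. -/
private theorem milab_zz (w : Fin n → ℕ) (Q : Fin n → MvPolynomial (Fin n) R) (m : ℕ)
    (hQ : ∀ j, ∀ e ∈ (Q j).support, wt w e + ∑ i, w i = m + w j)
    (h : Fin n → MvPolynomial (Fin n) R) :
    zz (fun i j => C ((w i : ℕ) : R) * (X i * Q j) - C ((w j : ℕ) : R) * (X j * Q i)) h =
      C ((m : ℕ) : R) * ∑ j, Q j * h j - dvg Q * ∑ j, C ((w j : ℕ) : R) * (X j * h j) := by
  unfold zz
  rw [Finset.mul_sum, Finset.mul_sum, ← Finset.sum_sub_distrib]
  refine Finset.sum_congr rfl fun j _ => ?_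
  rw [milab_div w Q m hQ j]
  ring

private theorem milab_asym (w : Fin n → ℕ) (Q : Fin n → MvPolynomial (Fin n) R) :
    Asym (fun i j => C ((w i : ℕ) : R) * (X i * Q j) - C ((w j : ℕ) : R) * (X j * Q i)) :=
  ⟨fun _ => sub_self _, fun _ _ => by ring⟩

end

/-- The homogeneous part of a representation. -/
private theorem milab_hom {κ : Type*} [Field κ] {n : ℕ} (w : Fin n → ℕ) (d : ℕ)
    (g : MvPolynomial (Fin n) κ) (hg : Hom w d g) (N : ℕ) (R : MvPolynomial (Fin n) κ)
    (hR : Hom w N R) (hJ : R ∈ Jac g) :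
    ∃ Q : Fin n → MvPolynomial (Fin n) κ,
      (∀ j, ∀ e ∈ (Q j).support, wt w e + d = N + w j) ∧ R = ∑ j, Q j * pderiv j g := by
  classical
  obtain ⟨Q0, hQ0⟩ := Ideal.mem_span_range_iff_exists_fun.mp hJ
  have hex : ∀ j, ∃ P' : MvPolynomial (Fin n) κ,
      (∀ e, wt w e + d = N + w j → coeff e P' = coeff e (Q0 j)) ∧
        ∀ e, ¬ (wt w e + d = N + w j) → coeff e P' = 0 := fun j =>
    milab_restr (fun e => wt w e + d = N + w j) (Q0 j)
  choose Q hQ1 hQ2 using hex
  have hpd : ∀ j e, coeff e (pderiv j g) ≠ 0 → wt w e + w j = d := by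
    intro j e he
    have h1 := hg _ (milab_pd_supp (mem_support_iff.2 he))
    rw [milab_wt_add, milab_wt_single] at h1
    exact h1
  refine ⟨Q, fun j e he => ?_, ?_⟩
  · by_contra h
    exact (mem_support_iff.1 he) (hQ2 j e h)
  · ext f
    rw [coeff_sum]
    by_cases hf : wt w f = N
    · rw [← hQ0, coeff_sum]
      refine Finset.sum_congr rfl fun j _ => ?_
      rw [coeff_mul, coeff_mul]
      refine Finset.sum_congr rfl fun p hp => ?_
      have hp' := Finset.HasAntidiagonal.mem_antidiagonal.1 hp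
      by_cases h0 : coeff p.2 (pderiv j g) = 0
      · rw [h0, mul_zero, mul_zero]
      · have h1 := hpd j p.2 h0
        rw [← hp', milab_wt_add] at hf
        rw [hQ1 j p.1 (by omega)]
    · have h0 : coeff f R = 0 := by
        by_contra h
        exact hf (hR f (mem_support_iff.2 h))
      rw [h0]
      symm
      refine Finset.sum_eq_zero fun j _ => ?_
      rw [coeff_mul]
      refine Finset.sum_eq_zero fun p hp => ?_
      have hp' := Finset.HasAntidiagonal.mem_antidiagonal.1 hp
      by_cases h0 : coeff p.2 (pderiv j g) = 0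
      · rw [h0, mul_zero]
      · have h1 := hpd j p.2 h0
        rw [← hp', milab_wt_add] at hf
        rw [hQ2 j p.1 (by omega), zero_mul]

section

variable {B : Type*} [CommRing B] {n : ℕ}

private def MilabGood (w : Fin n → ℕ) (d : ℕ)
    (U : Finset (Fin n →₀ ℕ)) (φ : MvPolynomial (Fin n) B) (N : ℕ)
    (P : MvPolynomial (Fin n) B) : Prop :=
  ∃ (a : (Fin n →₀ ℕ) → Polynomial B) (A : Fin n → Fin n → MvPolynomial (Fin n) B), Asym A ∧
    (∀ u k, (a u).coeff k ≠ 0 → d * k + wt w u ≤ N) ∧
    P = ∑ u ∈ U, Polynomial.aeval φ (a u) * monomial u 1 + zz A (fun j => pderiv j φ)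

variable {w : Fin n → ℕ} {d : ℕ} {U : Finset (Fin n →₀ ℕ)} {φ : MvPolynomial (Fin n) B}

private theorem milab_zero (N : ℕ) : MilabGood w d U φ N 0 := by
  refine ⟨fun _ => 0, fun _ _ => 0, ⟨fun _ => rfl, fun _ _ => by rw [neg_zero]⟩,
    fun u k h => absurd (Polynomial.coeff_zero k) h, ?_⟩
  simp [zz]

private theorem milab_add {N : ℕ} {P Q : MvPolynomial (Fin n) B} (hP : MilabGood w d U φ N P)
    (hQ : MilabGood w d U φ N Q) : MilabGood w d U φ N (P + Q) := by
  obtain ⟨a, A, hA, ha, rfl⟩ := hP
  obtain ⟨a', A', hA', ha', rfl⟩ := hQ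
  refine ⟨fun u => a u + a' u, fun i j => A i j + A' i j, ⟨fun i => ?_, fun i j => ?_⟩, ?_, ?_⟩
  · show A i i + A' i i = 0
    rw [hA.1 i, hA'.1 i, add_zero]
  · show A i j + A' i j = - (A j i + A' j i)
    rw [hA.2 i j, hA'.2 i j, neg_add]
  · intro u k hk
    rw [Polynomial.coeff_add] at hk
    by_cases h1 : (a u).coeff k = 0
    · refine ha' u k fun h2 => hk ?_
      rw [h1, h2, add_zero]
    · exact ha u k h1
  · have e1 : ∑ u ∈ U, Polynomial.aeval φ (a u + a' u) * monomial u (1 : B) =
        ∑ u ∈ U, Polynomial.aeval φ (a u) * monomial u 1 +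
          ∑ u ∈ U, Polynomial.aeval φ (a' u) * monomial u 1 := by
      rw [← Finset.sum_add_distrib]
      exact Finset.sum_congr rfl fun u _ => by rw [map_add, add_mul]
    have e2 : zz (fun i j => A i j + A' i j) (fun j => pderiv j φ) =
        zz A (fun j => pderiv j φ) + zz A' (fun j => pderiv j φ) := by
      unfold zz
      rw [← Finset.sum_add_distrib]
      refine Finset.sum_congr rfl fun j _ => ?_
      rw [← add_mul, ← Finset.sum_add_distrib]
      refine congrArg (fun z => z * pderiv j φ) (Finset.sum_congr rfl fun i _ => ?_)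
      rw [map_add]
    rw [e1, e2]
    ring

private theorem milab_C_mul {N : ℕ} {P : MvPolynomial (Fin n) B} (b : B)
    (hP : MilabGood w d U φ N P) : MilabGood w d U φ N (C b * P) := by
  obtain ⟨a, A, hA, ha, rfl⟩ := hP
  refine ⟨fun u => Polynomial.C b * a u, fun i j => C b * A i j,
    ⟨fun i => ?_, fun i j => ?_⟩, ?_, ?_⟩
  · show C b * A i i = 0
    rw [hA.1 i, mul_zero]
  · show C b * A i j = - (C b * A j i)
    rw [hA.2 i j, mul_neg]
  · intro u k hk
    rw [Polynomial.coeff_C_mul] at hk
    exact ha u k (right_ne_zero_of_mul hk)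
  · have e1 : ∑ u ∈ U, Polynomial.aeval φ (Polynomial.C b * a u) * monomial u (1 : B) =
        C b * ∑ u ∈ U, Polynomial.aeval φ (a u) * monomial u 1 := by
      rw [Finset.mul_sum]
      refine Finset.sum_congr rfl fun u _ => ?_
      rw [map_mul, Polynomial.aeval_C, MvPolynomial.algebraMap_eq, mul_assoc]
    have e2 : zz (fun i j => C b * A i j) (fun j => pderiv j φ) =
        C b * zz A (fun j => pderiv j φ) := by
      unfold zz
      rw [Finset.mul_sum]
      refine Finset.sum_congr rfl fun j _ => ?_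
      rw [← mul_assoc, Finset.mul_sum]
      refine congrArg (fun z => z * pderiv j φ) (Finset.sum_congr rfl fun i _ => ?_)
      rw [pderiv_C_mul]
    rw [e1, e2]
    ring

private theorem milab_phi {N : ℕ} {P : MvPolynomial (Fin n) B}
    (hP : MilabGood w d U φ N P) : MilabGood w d U φ (N + d) (φ * P) := by
  obtain ⟨a, A, hA, ha, rfl⟩ := hP
  refine ⟨fun u => Polynomial.X * a u, fun i j => φ * A i j,
    ⟨fun i => ?_, fun i j => ?_⟩, ?_, ?_⟩
  · show φ * A i i = 0
    rw [hA.1 i, mul_zero]
  · show φ * A i j = - (φ * A j i)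
    rw [hA.2 i j, mul_neg]
  · intro u k hk
    rcases Nat.eq_zero_or_pos k with h | h
    · subst h
      exact absurd (Polynomial.coeff_X_mul_zero (a u)) hk
    · obtain ⟨k', rfl⟩ : ∃ k', k = k' + 1 := ⟨k - 1, by omega⟩
      rw [Polynomial.coeff_X_mul] at hk
      have := ha u k' hk
      calc d * (k' + 1) + wt w u = d * k' + wt w u + d := by ring
        _ ≤ N + d := by omega
  · have e1 : ∑ u ∈ U, Polynomial.aeval φ (Polynomial.X * a u) * monomial u (1 : B) =
        φ * ∑ u ∈ U, Polynomial.aeval φ (a u) * monomial u 1 := by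
      rw [Finset.mul_sum]
      refine Finset.sum_congr rfl fun u _ => ?_
      rw [map_mul, Polynomial.aeval_X, mul_assoc]
    rw [e1, zz_mul' φ A hA]
    ring

private theorem milab_mono {N N' : ℕ} (h : N ≤ N') {P : MvPolynomial (Fin n) B}
    (hP : MilabGood w d U φ N P) : MilabGood w d U φ N' P := by
  obtain ⟨a, A, hA, ha, hP⟩ := hP
  exact ⟨a, A, hA, fun u k hk => (ha u k hk).trans h, hP⟩

private theorem milab_sum {N : ℕ} {ι : Type*} (s : Finset ι) (F : ι → MvPolynomial (Fin n) B)
    (h : ∀ i ∈ s, MilabGood w d U φ N (F i)) : MilabGood w d U φ N (∑ i ∈ s, F i) := by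
  classical
  induction s using Finset.induction_on with
  | empty =>
    rw [Finset.sum_empty]
    exact milab_zero N
  | insert a s ha ih =>
    rw [Finset.sum_insert ha]
    exact milab_add (h a (Finset.mem_insert_self a s))
      (ih fun i hi => h i (Finset.mem_insert_of_mem hi))

private theorem milab_poly {N : ℕ} (P : MvPolynomial (Fin n) B)
    (h : ∀ e ∈ P.support, MilabGood w d U φ N (monomial e 1)) : MilabGood w d U φ N P := by
  rw [P.as_sum]
  refine milab_sum _ _ fun e he => ?_
  have h1 := milab_C_mul (coeff e P) (h e he)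
  rw [C_mul_monomial, mul_one] at h1
  exact h1

private theorem milab_zzC {N : ℕ} (A : Fin n → Fin n → MvPolynomial (Fin n) B) (hA : Asym A) :
    MilabGood w d U φ N (zz A (fun j => pderiv j φ)) := by
  refine ⟨fun _ => 0, A, hA, fun u k h => absurd (Polynomial.coeff_zero k) h, ?_⟩
  simp

end

theorem mb_gen {κ : Type*} [Field κ] [CharZero κ] {n : ℕ} (hn : 2 ≤ n) (w : Fin n → ℕ)
    (hw : ∀ i, 0 < w i) (d : ℕ) (hd : 0 < d) (g : MvPolynomial (Fin n) κ) (hg : Hom w d g)
    (U : Finset (Fin n →₀ ℕ)) (hU : IsMB w g U) {B : Type*} [CommRing B] [Algebra κ B]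
    (φ : MvPolynomial (Fin n) B)
    (hφ : ∀ e ∈ (φ - g.map (algebraMap κ B)).support, wt w e < d)
    (P : MvPolynomial (Fin n) B) (N : ℕ) (hP : ∀ e ∈ P.support, wt w e ≤ N) :
    ∃ (a : (Fin n →₀ ℕ) → Polynomial B) (A : Fin n → Fin n → MvPolynomial (Fin n) B), Asym A ∧
      (∀ u, a u ≠ 0 → d * (a u).natDegree + wt w u ≤ N) ∧
      P = ∑ u ∈ U, Polynomial.aeval φ (a u) * monomial u 1 + zz A (fun j => pderiv j φ) := by
  classical
  -- the monomials
  have key : ∀ N : ℕ, ∀ e : Fin n →₀ ℕ, wt w e = N →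
      MilabGood w d U φ N (monomial e (1 : B)) := by
    intro N
    induction N using Nat.strong_induction_on with
    | _ N ih =>
    intro e he
    have hlow : ∀ P : MvPolynomial (Fin n) B, (∀ f ∈ P.support, wt w f < N) →
        MilabGood w d U φ N P := by
      intro P hP
      exact milab_poly P fun f hf =>
        milab_mono (hP f hf).le (ih (wt w f) (hP f hf) f rfl)
    obtain ⟨c, hc1, hc2⟩ := hU.span e
    have hRh : Hom w N (monomial e 1 - ∑ u ∈ U, monomial u (c u)) := by
      intro f hf
      by_contra hne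
      rw [mem_support_iff, coeff_sub, coeff_sum] at hf
      apply hf
      have h1 : coeff f (monomial e (1 : κ)) = 0 := by
        rw [coeff_monomial, if_neg]
        intro h
        exact hne (h ▸ he)
      have h2 : ∑ u ∈ U, coeff f (monomial u (c u)) = 0 := by
        refine Finset.sum_eq_zero fun u _ => ?_
        rw [coeff_monomial]
        split_ifs with h
        · by_contra hcu
          exact hne (by rw [← h, hc1 u hcu, he])
        · rfl
      rw [h1, h2, sub_zero]
    obtain ⟨Q, hQ1, hQ2⟩ := milab_hom w d g hg N _ hRh hc2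
    -- over the ring
    have hmon : (monomial e (1 : B)) = ∑ u ∈ U, monomial u (algebraMap κ B (c u)) +
        ∑ j, (Q j).map (algebraMap κ B) * pderiv j (g.map (algebraMap κ B)) := by
      have h1 := congrArg (MvPolynomial.map (algebraMap κ B)) hQ2
      rw [map_sub, map_sum, map_monomial, map_one, map_sum] at h1
      have h2 : ∀ u ∈ U, MvPolynomial.map (algebraMap κ B) (monomial u (c u)) =
          monomial u (algebraMap κ B (c u)) := fun u _ => map_monomial _ _ _
      have h3 : ∀ j ∈ (Finset.univ : Finset (Fin n)),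
          MvPolynomial.map (algebraMap κ B) (Q j * pderiv j g) =
          (Q j).map (algebraMap κ B) * pderiv j (g.map (algebraMap κ B)) := by
        intro j _
        rw [map_mul, pderiv_map]
      rw [Finset.sum_congr rfl h2, Finset.sum_congr rfl h3] at h1
      rw [← h1]
      ring
    have hU0 : MilabGood w d U φ N (∑ u ∈ U, monomial u (algebraMap κ B (c u))) := by
      refine ⟨fun u => Polynomial.C (algebraMap κ B (c u)), fun _ _ => 0,
        ⟨fun _ => rfl, fun _ _ => by rw [neg_zero]⟩, ?_, ?_⟩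
      · intro u k hk
        rw [Polynomial.coeff_C] at hk
        split_ifs at hk with h
        · subst h
          have h1 : c u ≠ 0 := by
            intro h0
            rw [h0, map_zero] at hk
            exact hk rfl
          rw [hc1 u h1, he, mul_zero, zero_add]
        · exact absurd rfl hk
      · have h1 : ∀ u ∈ U, Polynomial.aeval φ (Polynomial.C (algebraMap κ B (c u))) *
            monomial u (1 : B) = monomial u (algebraMap κ B (c u)) := by
          intro u _
          rw [Polynomial.aeval_C, MvPolynomial.algebraMap_eq, C_mul_monomial, mul_one]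
        rw [Finset.sum_congr rfl h1]
        simp [zz]
    rw [hmon]
    refine milab_add hU0 ?_
    by_cases hsmall : N + ∑ i, w i ≤ d
    · -- all `Q j` vanish
      have hwj : ∀ j, w j < ∑ i, w i := by
        intro j
        obtain ⟨i, hi⟩ : ∃ i : Fin n, i ≠ j := by
          have : Nontrivial (Fin n) := Fin.nontrivial_iff_two_le.2 hn
          exact exists_ne j
        have h1 : w i + w j ≤ ∑ i, w i :=
          Finset.add_le_sum (s := Finset.univ) (f := fun i => w i)
            (fun _ _ => Nat.zero_le _) (Finset.mem_univ i) (Finset.mem_univ j) hi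
        have := hw i
        omega
      have hQ0 : ∀ j, Q j = 0 := by
        intro j
        rw [← support_eq_empty, Finset.eq_empty_iff_forall_notMem]
        intro f hf
        have h1 := hQ1 j f hf
        have h2 := hwj j
        omega
      have h3 : ∑ j, (Q j).map (algebraMap κ B) * pderiv j (g.map (algebraMap κ B)) = 0 := by
        refine Finset.sum_eq_zero fun j _ => ?_
        rw [hQ0 j, map_zero, zero_mul]
      rw [h3]
      exact milab_zero N
    · obtain ⟨m, hm⟩ : ∃ m : ℕ, m + d = N + ∑ i, w i := ⟨N + ∑ i, w i - d, by omega⟩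
      have hm0 : 0 < m := by omega
      obtain ⟨Q', hQ'⟩ : ∃ Q' : Fin n → MvPolynomial (Fin n) B,
          Q' = fun j => (Q j).map (algebraMap κ B) := ⟨_, rfl⟩
      have hQs : ∀ j, ∀ f ∈ (Q' j).support, wt w f + d = N + w j := by
        intro j f hf
        rw [hQ'] at hf
        exact hQ1 j f (support_map_subset _ _ hf)
      have hQm : ∀ j, ∀ f ∈ (Q' j).support, wt w f + ∑ i, w i = m + w j := by
        intro j f hf
        have := hQs j f hf
        omega
      have hQg : ∑ j, (Q j).map (algebraMap κ B) * pderiv j (g.map (algebraMap κ B)) =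
          ∑ j, Q' j * pderiv j φ - ∑ j, Q' j * pderiv j (φ - g.map (algebraMap κ B)) := by
        rw [hQ', ← Finset.sum_sub_distrib]
        refine Finset.sum_congr rfl fun j _ => ?_
        rw [map_sub]
        ring
      -- the Euler field
      obtain ⟨ψ, hψ⟩ : ∃ ψ : MvPolynomial (Fin n) B, ψ = C ((d : ℕ) : B) * φ -
          ∑ j, C ((w j : ℕ) : B) * (X j * pderiv j φ) := ⟨_, rfl⟩
      have hψs : ∀ f ∈ ψ.support, wt w f < d := by
        intro f hf
        rw [hψ, mem_support_iff, coeff_sub, coeff_C_mul, milab_euler] at hf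
        by_contra hge
        apply hf
        have h1 : coeff f φ = coeff f (g.map (algebraMap κ B)) := by
          have h2 : coeff f (φ - g.map (algebraMap κ B)) = 0 := by
            by_contra h3
            exact hge (hφ f (mem_support_iff.2 h3))
          rw [coeff_sub] at h2
          exact sub_eq_zero.1 h2
        by_cases h4 : coeff f (g.map (algebraMap κ B)) = 0
        · rw [h1, h4, mul_zero, mul_zero, sub_zero]
        · have h5 : wt w f = d := hg f (support_map_subset _ _ (mem_support_iff.2 h4))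
          rw [h5, sub_self]
      have hzz := milab_zz w Q' m hQm (fun j => pderiv j φ)
      have hsum : ∑ j, C ((w j : ℕ) : B) * (X j * pderiv j φ) = C ((d : ℕ) : B) * φ - ψ := by
        rw [hψ]
        ring
      rw [hsum] at hzz
      have hmi : C (algebraMap κ B ((m : κ)⁻¹)) * C ((m : ℕ) : B) =
          (1 : MvPolynomial (Fin n) B) := by
        rw [← C_mul, ← map_natCast (algebraMap κ B) m, ← map_mul,
          inv_mul_cancel₀ (Nat.cast_ne_zero.2 hm0.ne'), map_one, C_1]
      have hmain : ∑ j, Q' j * pderiv j φ = C (algebraMap κ B ((m : κ)⁻¹)) *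
          (zz (fun i j => C ((w i : ℕ) : B) * (X i * Q' j) - C ((w j : ℕ) : B) * (X j * Q' i))
            (fun j => pderiv j φ) + (C ((d : ℕ) : B) * (φ * dvg Q') + C (-1) * (ψ * dvg Q'))) := by
        rw [hzz]
        have h1 : ∑ j, Q' j * pderiv j φ = (C (algebraMap κ B ((m : κ)⁻¹)) * C ((m : ℕ) : B)) *
            ∑ j, Q' j * pderiv j φ := by
          rw [hmi, one_mul]
        rw [C_neg, C_1]
        calc ∑ j, Q' j * pderiv j φ = (C (algebraMap κ B ((m : κ)⁻¹)) * C ((m : ℕ) : B)) *
            ∑ j, Q' j * pderiv j φ := h1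
          _ = _ := by ring
      have hdv : ∀ f ∈ (dvg Q').support, wt w f + d = N := by
        intro f hf
        unfold dvg at hf
        rw [mem_support_iff, coeff_sum] at hf
        obtain ⟨i, _, hi⟩ := Finset.exists_ne_zero_of_sum_ne_zero hf
        have h1 := hQs i _ (milab_pd_supp (mem_support_iff.2 hi))
        rw [milab_wt_add, milab_wt_single] at h1
        omega
      have hdg : MilabGood w d U φ N (φ * dvg Q') := by
        by_cases hNd : d ≤ N
        · have h1 : MilabGood w d U φ (N - d) (dvg Q') := by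
            refine milab_poly _ fun f hf => ?_
            have h2 := hdv f hf
            exact ih (N - d) (by omega) f (by omega)
          have h3 := milab_phi h1
          rwa [Nat.sub_add_cancel hNd] at h3
        · have h1 : dvg Q' = 0 := by
            rw [← support_eq_empty, Finset.eq_empty_iff_forall_notMem]
            intro f hf
            have := hdv f hf
            omega
          rw [h1, mul_zero]
          exact milab_zero N
      have hpg : MilabGood w d U φ N (ψ * dvg Q') := by
        refine hlow _ fun f hf => ?_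
        obtain ⟨f1, hf1, f2, hf2, rfl⟩ := milab_mul_supp hf
        have h1 := hψs f1 hf1
        have h2 := hdv f2 hf2
        rw [milab_wt_add]
        omega
      have hrg : MilabGood w d U φ N (∑ j, Q' j * pderiv j (φ - g.map (algebraMap κ B))) := by
        refine milab_sum _ _ fun j _ => hlow _ fun f hf => ?_
        obtain ⟨f1, hf1, f2, hf2, rfl⟩ := milab_mul_supp hf
        have h1 := hQs j f1 hf1
        have h2 := hφ _ (milab_pd_supp hf2)
        rw [milab_wt_add, milab_wt_single] at h2
        rw [milab_wt_add]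
        omega
      rw [hQg, hmain, sub_eq_add_neg, ← one_mul (∑ j, Q' j * pderiv j (φ - _)), ← C_1, ← neg_mul,
        ← C_neg]
      refine milab_add (milab_C_mul _ (milab_add (milab_zzC _ (milab_asym w Q')) (milab_add
        (milab_C_mul _ hdg) (milab_C_mul _ hpg)))) (milab_C_mul _ hrg)
  obtain ⟨a, A, hA, ha, hP'⟩ : MilabGood w d U φ N P :=
    milab_poly P fun e he => milab_mono (hP e he) (key (wt w e) e rfl)
  refine ⟨a, A, hA, fun u hu => ?_, hP'⟩
  refine ha u (a u).natDegree ?_
  rw [Polynomial.coeff_natDegree]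
  exact Polynomial.leadingCoeff_ne_zero.2 hu

end MPadcHM
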