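import Pool.Agent.Lib.MP_adc574_ag_HM.IsoKDefs
import Pool.Agent.Lib.MP_adc574_ag_HM.KosC
import Pool.Agent.Lib.MP_adc574_ag_HM.MilA

/-!
# JOB IsoJ: the Jacobian algebra in a Milnor basis

* `jac_gen` (part a): `B` a commutative `κ`-algebra, `φ ∈ B[x]` with top part `g` (all monomials of `φ - g` have weight `< d`). Every `P ∈ B[x]` is `∑ c_u x^u` modulo `Jac φ`. Induction on the maximal weight of the monomials of `P`; it is enough to treat `P = x^e` (multiply by constants, add). By `hU.span`
  `x^e - ∑ c_u x^u = ∑ j, b_j ∂_j g` over `κ` with `wt u = wt e` when `c_u ≠ 0`. The left side and `∂_j g` are homogeneous (`∂_j g` of weight `d - w_j`, if it is not 0), so one may replace `b_j` by its part of weight `wt e - d + w_j` (take the homogeneous part of weight `wt e` of the identity; see the private lemmas `milAa_hom` / `milab_hom` of MilA.lean, which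
  you may copy). Then `x^e = ∑ c_u x^u + ∑ b_j ∂_j φ - ∑ b_j ∂_j (φ - g)` and the monomials of the last sum have weight `< wt e`.
* `jac_ind` (part b): over a field `F`. Claim by induction on `L`: if `∑ u ∈ U, c_u x^u = ∑ j, b_j ∂_j φ` with `wtp e ≤ L + w_j` for all monomials `e` of `b_j`, then all `c_u = 0`. Compare the parts with `wtp = L + d` (`∂_j φ` has weights `≤ d - w_j`, its part of weight `d - w_j` is `∂_j φ_d`): `∑_{wtp u = L + d} c_u x^u = ∑ b_j' ∂_j φ_d`,
  `b_j'` the part of `b_j` with `wtp e = L + w_j`. By `hU.ind` (applied to `c` restricted to the `u` with `wtp u = L + d`) these `c_u` are 0, so `∑ b_j' ∂_j φ_d = 0`. `koszul_hom` (with `h_j = ∂_j φ_d`, `N = L`): `b_i' = ∑_j A_ij h_j`, `A` antisymmetric, `wtp e + d = L + w_i + w_j` for the monomials of `A_ij`. Replace `b_i` by `b_i - ∑_j A_ij ∂_j φ`: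
  the sum `∑ b_i ∂_i φ` does not change (antisymmetry) and now `wtp e < L + w_i` for the monomials of `b_i` (`A_ij ∂_j φ` has `wtp ≤ L + w_i` with top part `A_ij h_j`). For `L = 0` after this step `b_i = 0` since `wtp e ≥ ∑ w ≥ w_i`; so `∑ c_u x^u = 0` and `c_u = 0`. For `L + 1` use the induction hypothesis for `L`.
* `pow_ind` (part c): `B = κ[x] / Jac φ` has the basis `x^u`, `u ∈ U` (`jac_gen` with `B = κ`, `jac_ind`), so its dimension is `U.card`. `κ[T] → B`, `T ↦ φ`, is surjective (`finab_ex` in FinA.lean; or `hS.gen`), its kernel is generated by some `m ≠ 0` (it contains `S.δ ≠ 0`), so `B ≅ κ[T] / (m)` and `natDegree m = U.card` (`finrank_quotient_span_eq_natDegree`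
  or `AdjoinRoot.powerBasis`). If `aeval φ a ∈ Jac φ` then `m ∣ a`, and `a = 0` if `a.degree < U.card`.
-/

set_option autoImplicit false

namespace MPadcHM

open MvPolynomial MPadcLP

universe u

private theorem isoja_wt_add {n : ℕ} (w : Fin n → ℕ) (e f : Fin n →₀ ℕ) :
    wt w (e + f) = wt w e + wt w f := by
  unfold wt
  rw [← Finset.sum_add_distrib]
  refine Finset.sum_congr rfl fun i _ => by rw [Finsupp.add_apply]; ring

private theorem isoja_wt_single {n : ℕ} (w : Fin n → ℕ) (i : Fin n) :
    wt w (Finsupp.single i 1) = w i := by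
  unfold wt
  rw [Finset.sum_eq_single i]
  · rw [Finsupp.single_eq_same, mul_one]
  · intro j _ hj
    rw [Finsupp.single_apply, if_neg (Ne.symm hj), mul_zero]
  · intro h
    exact absurd (Finset.mem_univ i) h

private theorem isoja_mul_supp {R : Type*} [CommRing R] {n : ℕ} {P Q : MvPolynomial (Fin n) R}
    {e : Fin n →₀ ℕ} (he : e ∈ (P * Q).support) :
    ∃ f ∈ P.support, ∃ g ∈ Q.support, f + g = e := by
  classical
  have h := support_mul P Q he
  obtain ⟨f, hf, g, hg, h⟩ := Finset.mem_add.1 h
  exact ⟨f, hf, g, hg, h⟩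

private theorem isoja_pd_supp {R : Type*} [CommRing R] {n : ℕ} {P : MvPolynomial (Fin n) R}
    {i : Fin n} {e : Fin n →₀ ℕ} (he : e ∈ (pderiv i P).support) :
    e + Finsupp.single i 1 ∈ P.support := by
  rw [mem_support_iff, coeff_pderiv] at he
  rw [mem_support_iff]
  exact left_ne_zero_of_mul he

open Classical in
private theorem isoja_restr {R : Type*} [CommRing R] {n : ℕ} (p : (Fin n →₀ ℕ) → Prop)
    (P : MvPolynomial (Fin n) R) :
    ∃ P' : MvPolynomial (Fin n) R, ∀ e, coeff e P' = if p e then coeff e P else 0 := by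
  refine ⟨∑ e ∈ P.support.filter p, monomial e (coeff e P), ?_⟩
  intro e
  rw [coeff_sum]
  simp only [coeff_monomial]
  rw [Finset.sum_ite_eq']
  by_cases hp : p e
  · rw [if_pos hp]
    by_cases he : coeff e P = 0
    · rw [he]
      split_ifs <;> rfl
    · rw [if_pos]
      rw [Finset.mem_filter]
      exact ⟨mem_support_iff.mpr he, hp⟩
  · rw [if_neg hp, if_neg]
    rw [Finset.mem_filter]
    exact fun hh => hp hh.2

/-- The homogeneous part of a representation. -/
private theorem isoja_hom {κ : Type*} [Field κ] {n : ℕ} (w : Fin n → ℕ) (d : ℕ)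
    (g : MvPolynomial (Fin n) κ) (hg : Hom w d g) (N : ℕ) (R : MvPolynomial (Fin n) κ)
    (hR : Hom w N R) (hJ : R ∈ Jac g) :
    ∃ Q : Fin n → MvPolynomial (Fin n) κ,
      (∀ j, ∀ e ∈ (Q j).support, wt w e + d = N + w j) ∧ R = ∑ j, Q j * pderiv j g := by
  classical
  obtain ⟨Q0, hQ0⟩ := Ideal.mem_span_range_iff_exists_fun.mp hJ
  have hex : ∀ j, ∃ P' : MvPolynomial (Fin n) κ,
      ∀ e, coeff e P' = if wt w e + d = N + w j then coeff e (Q0 j) else 0 := by
    intro j
    obtain ⟨P', hP'⟩ := isoja_restr (fun e => wt w e + d = N + w j) (Q0 j)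
    refine ⟨P', fun e => ?_⟩
    rw [hP' e]
    split_ifs <;> rfl
  choose Q hQ using hex
  have hpd : ∀ j e, coeff e (pderiv j g) ≠ 0 → wt w e + w j = d := by
    intro j e he
    have h1 := hg _ (isoja_pd_supp (mem_support_iff.2 he))
    rw [isoja_wt_add, isoja_wt_single] at h1
    exact h1
  refine ⟨Q, fun j e he => ?_, ?_⟩
  · by_contra h
    refine (mem_support_iff.1 he) ?_
    rw [hQ, if_neg h]
  · ext f
    rw [coeff_sum]
    by_cases hf : wt w f = N
    · rw [← hQ0, coeff_sum]
      refine Finset.sum_congr rfl fun j _ => ?_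
      rw [coeff_mul, coeff_mul]
      refine Finset.sum_congr rfl fun p hp => ?_
      have hp' := Finset.HasAntidiagonal.mem_antidiagonal.1 hp
      by_cases h0 : coeff p.2 (pderiv j g) = 0
      · rw [h0, mul_zero, mul_zero]
      · have h1 := hpd j p.2 h0
        rw [← hp', isoja_wt_add] at hf
        rw [hQ, if_pos (by omega)]
    · have h0 : coeff f R = 0 := by
        by_contra h
        exact hf (hR f (mem_support_iff.2 h))
      rw [h0]
      symm
      refine Finset.sum_eq_zero fun j _ => ?_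
      rw [coeff_mul]
      refine Finset.sum_eq_zero fun p hp => ?_
      have hp' := Finset.HasAntidiagonal.mem_antidiagonal.1 hp
      by_cases h0 : coeff p.2 (pderiv j g) = 0
      · rw [h0, mul_zero]
      · have h1 := hpd j p.2 h0
        rw [← hp', isoja_wt_add] at hf
        rw [hQ, if_neg (by omega), zero_mul]

private def IsojaGood {B : Type*} [CommRing B] {n : ℕ} (U : Finset (Fin n →₀ ℕ))
    (φ P : MvPolynomial (Fin n) B) : Prop :=
  ∃ c : (Fin n →₀ ℕ) → B, P - ∑ u ∈ U, monomial u (c u) ∈ Jac φ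

private theorem isoja_zero {B : Type*} [CommRing B] {n : ℕ} (U : Finset (Fin n →₀ ℕ))
    {φ P : MvPolynomial (Fin n) B} (h : P ∈ Jac φ) : IsojaGood U φ P := by
  refine ⟨fun _ => 0, ?_⟩
  have h1 : ∑ u ∈ U, monomial u (0 : B) = 0 := Finset.sum_eq_zero fun u _ => monomial_zero
  rw [h1, sub_zero]
  exact h

private theorem isoja_add {B : Type*} [CommRing B] {n : ℕ} {U : Finset (Fin n →₀ ℕ)}
    {φ P Q : MvPolynomial (Fin n) B} (hP : IsojaGood U φ P) (hQ : IsojaGood U φ Q) :
    IsojaGood U φ (P + Q) := by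
  obtain ⟨c, hc⟩ := hP
  obtain ⟨c', hc'⟩ := hQ
  refine ⟨fun u => c u + c' u, ?_⟩
  have e : P + Q - ∑ u ∈ U, monomial u (c u + c' u) =
      (P - ∑ u ∈ U, monomial u (c u)) + (Q - ∑ u ∈ U, monomial u (c' u)) := by
    simp only [map_add, Finset.sum_add_distrib]
    ring
  rw [e]
  exact Ideal.add_mem _ hc hc'

private theorem isoja_C_mul {B : Type*} [CommRing B] {n : ℕ} {U : Finset (Fin n →₀ ℕ)}
    {φ P : MvPolynomial (Fin n) B} (b : B) (hP : IsojaGood U φ P) :
    IsojaGood U φ (C b * P) := by
  obtain ⟨c, hc⟩ := hP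
  refine ⟨fun u => b * c u, ?_⟩
  have e : C b * P - ∑ u ∈ U, monomial u (b * c u) =
      C b * (P - ∑ u ∈ U, monomial u (c u)) := by
    rw [mul_sub, Finset.mul_sum]
    congr 1
    refine Finset.sum_congr rfl fun u _ => ?_
    rw [C_mul_monomial]
  rw [e]
  exact Ideal.mul_mem_left _ _ hc

private theorem isoja_sum {B : Type*} [CommRing B] {n : ℕ} {U : Finset (Fin n →₀ ℕ)}
    {φ : MvPolynomial (Fin n) B} {ι : Type*} (s : Finset ι) (F : ι → MvPolynomial (Fin n) B)
    (h : ∀ i ∈ s, IsojaGood U φ (F i)) : IsojaGood U φ (∑ i ∈ s, F i) := by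
  classical
  induction s using Finset.induction_on with
  | empty =>
    rw [Finset.sum_empty]
    exact isoja_zero U (Ideal.zero_mem _)
  | insert a s ha ih =>
    rw [Finset.sum_insert ha]
    exact isoja_add (h a (Finset.mem_insert_self a s))
      (ih fun i hi => h i (Finset.mem_insert_of_mem hi))

private theorem isoja_poly {B : Type*} [CommRing B] {n : ℕ} {U : Finset (Fin n →₀ ℕ)}
    {φ : MvPolynomial (Fin n) B} (P : MvPolynomial (Fin n) B)
    (h : ∀ e ∈ P.support, IsojaGood U φ (monomial e 1)) : IsojaGood U φ P := by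
  rw [P.as_sum]
  refine isoja_sum _ _ fun e he => ?_
  have h1 := isoja_C_mul (coeff e P) (h e he)
  rw [C_mul_monomial, mul_one] at h1
  exact h1

theorem jac_gen {κ B : Type*} [Field κ] {n : ℕ} (w : Fin n → ℕ) (hw : ∀ i, 0 < w i) (d : ℕ)
    (hd : 0 < d) (g : MvPolynomial (Fin n) κ) (hg : Hom w d g) (U : Finset (Fin n →₀ ℕ))
    (hU : IsMB w g U) [CommRing B] [Algebra κ B] (φ : MvPolynomial (Fin n) B)
    (hφ : ∀ e ∈ (φ - g.map (algebraMap κ B)).support, wt w e < d)
    (P : MvPolynomial (Fin n) B) :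
    ∃ c : (Fin n →₀ ℕ) → B, P - ∑ u ∈ U, monomial u (c u) ∈ Jac φ := by
  classical
  have key : ∀ N : ℕ, ∀ e : Fin n →₀ ℕ, wt w e = N → IsojaGood U φ (monomial e (1 : B)) := by
    intro N
    induction N using Nat.strong_induction_on with
    | _ N ih =>
    intro e he
    obtain ⟨c, hc1, hc2⟩ := hU.span e
    have hRh : Hom w N (monomial e 1 - ∑ u ∈ U, monomial u (c u)) := by
      intro f hf
      by_contra hne
      rw [mem_support_iff, coeff_sub, coeff_sum] at hf
      apply hf
      have h1 : coeff f (monomial e (1 : κ)) = 0 := by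
        rw [coeff_monomial, if_neg]
        intro h
        exact hne (h ▸ he)
      have h2 : ∑ u ∈ U, coeff f (monomial u (c u)) = 0 := by
        refine Finset.sum_eq_zero fun u _ => ?_
        rw [coeff_monomial]
        split_ifs with h
        · by_contra hcu
          exact hne (by rw [← h, hc1 u hcu, he])
        · rfl
      rw [h1, h2, sub_zero]
    obtain ⟨Q, hQ1, hQ2⟩ := isoja_hom w d g hg N _ hRh hc2
    have hmon : (monomial e (1 : B)) = ∑ u ∈ U, monomial u (algebraMap κ B (c u)) +
        ∑ j, (Q j).map (algebraMap κ B) * pderiv j (g.map (algebraMap κ B)) := by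
      have h1 := congrArg (MvPolynomial.map (algebraMap κ B)) hQ2
      rw [map_sub, map_sum, map_monomial, map_one, map_sum] at h1
      have h2 : ∀ u ∈ U, MvPolynomial.map (algebraMap κ B) (monomial u (c u)) =
          monomial u (algebraMap κ B (c u)) := fun u _ => map_monomial _ _ _
      have h3 : ∀ j ∈ (Finset.univ : Finset (Fin n)),
          MvPolynomial.map (algebraMap κ B) (Q j * pderiv j g) =
          (Q j).map (algebraMap κ B) * pderiv j (g.map (algebraMap κ B)) := by
        intro j _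
        rw [map_mul, pderiv_map]
      rw [Finset.sum_congr rfl h2, Finset.sum_congr rfl h3] at h1
      rw [← h1]
      ring
    have hsplit : ∑ j, (Q j).map (algebraMap κ B) * pderiv j (g.map (algebraMap κ B)) =
        ∑ j, (Q j).map (algebraMap κ B) * pderiv j φ +
          C (-1) * ∑ j, (Q j).map (algebraMap κ B) * pderiv j (φ - g.map (algebraMap κ B)) := by
      rw [Finset.mul_sum, ← Finset.sum_add_distrib]
      refine Finset.sum_congr rfl fun j _ => ?_
      rw [map_sub, C_neg, C_1]
      ring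
    rw [hmon, hsplit]
    refine isoja_add ⟨fun u => algebraMap κ B (c u), ?_⟩ (isoja_add (isoja_zero U ?_)
      (isoja_C_mul _ (isoja_poly _ fun f hf => ?_)))
    · rw [sub_self]
      exact Ideal.zero_mem _
    · exact Ideal.mem_span_range_iff_exists_fun.2 ⟨_, rfl⟩
    · rw [mem_support_iff, coeff_sum] at hf
      obtain ⟨j, _, hj⟩ := Finset.exists_ne_zero_of_sum_ne_zero hf
      obtain ⟨f1, hf1, f2, hf2, rfl⟩ := isoja_mul_supp (mem_support_iff.2 hj)
      have h1 := hQ1 j f1 (support_map_subset _ _ hf1)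
      have h2 := hφ _ (isoja_pd_supp hf2)
      rw [isoja_wt_add, isoja_wt_single] at h2
      refine ih (wt w (f1 + f2)) ?_ _ rfl
      rw [isoja_wt_add]
      omega
  exact isoja_poly P fun e _ => key (wt w e) e rfl

private theorem isojx_wtp_add {n : ℕ} (w : Fin n → ℕ) (e f : Fin n →₀ ℕ) :
    wtp w (e + f) = wtp w e + wt w f := by
  unfold wtp wt
  rw [← Finset.sum_add_distrib]
  refine Finset.sum_congr rfl fun i _ => ?_
  rw [Finsupp.add_apply]
  ring

private theorem isojx_wtp_ge {n : ℕ} (w : Fin n → ℕ) (e : Fin n →₀ ℕ) (i : Fin n) :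
    w i ≤ wtp w e := by
  unfold wtp
  refine le_trans ?_ (Finset.single_le_sum (f := fun i => w i * (e i + 1))
    (fun _ _ => Nat.zero_le _) (Finset.mem_univ i))
  exact Nat.le_mul_of_pos_right _ (Nat.succ_pos _)

private theorem isojx_part {R : Type*} [CommRing R] {n : ℕ} (w : Fin n → ℕ) (d : ℕ)
    (f : MvPolynomial (Fin n) R) (e : Fin n →₀ ℕ) :
    coeff e (part w d f) = if wt w e = d then coeff e f else 0 := by
  classical
  unfold part
  rw [coeff_weightedHomogeneousComponent]
  have h : Finsupp.weight w e = wt w e := by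
    rw [Finsupp.weight_apply, Finsupp.sum_fintype]
    · unfold wt
      exact Finset.sum_congr rfl fun i _ => by rw [smul_eq_mul, mul_comm]
    · intro i
      rw [zero_smul]
  rw [h]

private theorem isojx_step {F : Type*} [Field F] {n : ℕ} (w : Fin n → ℕ) (d : ℕ)
    (φ : MvPolynomial (Fin n) F) (hφ : DegLe w d φ) (M : ℕ)
    (hJ : ∀ i, (X i : MvPolynomial (Fin n) F) ^ M ∈ Jac (part w d φ)) (U : Finset (Fin n →₀ ℕ))
    (hU : IsMB w (part w d φ) U) (c : (Fin n →₀ ℕ) → F) (L : ℕ)
    (b : Fin n → MvPolynomial (Fin n) F) (hb : ∀ j, ∀ e ∈ (b j).support, wtp w e ≤ L + w j)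
    (h : ∑ u ∈ U, monomial u (c u) = ∑ j, b j * pderiv j φ) :
    ∃ b' : Fin n → MvPolynomial (Fin n) F, (∀ j, ∀ e ∈ (b' j).support, wtp w e < L + w j) ∧
      ∑ u ∈ U, monomial u (c u) = ∑ j, b' j * pderiv j φ := by
  classical
  -- coefficients of the derivatives
  have hd1 : ∀ j e, coeff e (pderiv j φ) ≠ 0 → wt w e + w j ≤ d := by
    intro j e he
    have h1 := hφ _ (isoja_pd_supp (mem_support_iff.2 he))
    rw [isoja_wt_add, isoja_wt_single] at h1
    exact h1
  have hd2 : ∀ j e, coeff e (pderiv j (part w d φ)) =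
      if wt w e + w j = d then coeff e (pderiv j φ) else 0 := by
    intro j e
    rw [coeff_pderiv, coeff_pderiv, isojx_part, isoja_wt_add, isoja_wt_single]
    split_ifs
    · rfl
    · rw [zero_mul]
  -- the top parts
  have hex : ∀ j, ∃ P' : MvPolynomial (Fin n) F,
      ∀ e, coeff e P' = if wtp w e = L + w j then coeff e (b j) else 0 := by
    intro j
    obtain ⟨P', hP'⟩ := isoja_restr (fun e => wtp w e = L + w j) (b j)
    refine ⟨P', fun e => ?_⟩
    rw [hP' e]
    split_ifs <;> rfl
  choose t ht using hex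
  have hsum : ∀ e, wtp w e = L + d →
      coeff e (∑ j, t j * pderiv j (part w d φ)) = coeff e (∑ j, b j * pderiv j φ) := by
    intro e he
    rw [coeff_sum, coeff_sum]
    refine Finset.sum_congr rfl fun j _ => ?_
    rw [coeff_mul, coeff_mul]
    refine Finset.sum_congr rfl fun x hx => ?_
    have hx' := Finset.HasAntidiagonal.mem_antidiagonal.1 hx
    rw [ht, hd2]
    by_cases h1 : coeff x.1 (b j) = 0
    · rw [h1, ite_self, zero_mul, zero_mul]
    by_cases h2 : coeff x.2 (pderiv j φ) = 0
    · rw [h2, ite_self, mul_zero, mul_zero]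
    have h3 := hb j _ (mem_support_iff.2 h1)
    have h4 := hd1 j _ h2
    rw [← hx', isojx_wtp_add] at he
    rw [if_pos (by omega), if_pos (by omega)]
  have hsum0 : ∀ e, wtp w e ≠ L + d → coeff e (∑ j, t j * pderiv j (part w d φ)) = 0 := by
    intro e he
    rw [coeff_sum]
    refine Finset.sum_eq_zero fun j _ => ?_
    rw [coeff_mul]
    refine Finset.sum_eq_zero fun x hx => ?_
    have hx' := Finset.HasAntidiagonal.mem_antidiagonal.1 hx
    rw [ht, hd2]
    by_cases h1 : wtp w x.1 = L + w j
    · by_cases h2 : wt w x.2 + w j = d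
      · exfalso
        apply he
        rw [← hx', isojx_wtp_add]
        omega
      · rw [if_neg h2, mul_zero]
    · rw [if_neg h1, zero_mul]
  have hcU : ∀ e, coeff e (∑ u ∈ U, monomial u (c u)) = if e ∈ U then c e else 0 := by
    intro e
    rw [coeff_sum]
    simp only [coeff_monomial]
    rw [Finset.sum_ite_eq']
  have hrel : ∑ u ∈ U, monomial u (if wtp w u = L + d then c u else 0) =
      ∑ j, t j * pderiv j (part w d φ) := by
    ext e
    rw [coeff_sum]
    simp only [coeff_monomial]
    rw [Finset.sum_ite_eq']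
    by_cases he : wtp w e = L + d
    · rw [hsum e he, ← h, hcU, if_pos he]
    · rw [hsum0 e he, if_neg he, ite_self]
  have hz := hU.ind (fun u => if wtp w u = L + d then c u else 0) (by
    rw [hrel]
    exact Ideal.mem_span_range_iff_exists_fun.2 ⟨_, rfl⟩)
  have hQ : ∑ j, t j * pderiv j (part w d φ) = 0 := by
    rw [← hrel]
    refine Finset.sum_eq_zero fun u hu => ?_
    have h1 := hz u hu
    rw [h1, monomial_zero]
  obtain ⟨A, hA, hA1, hA2⟩ := koszul_hom w d (fun j => pderiv j (part w d φ)) M hJ (by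
    intro j e he
    rw [mem_support_iff, hd2] at he
    by_contra h1
    rw [if_neg h1] at he
    exact he rfl) L t (by
    intro j e he
    rw [mem_support_iff, ht] at he
    by_contra h1
    rw [if_neg h1] at he
    exact he rfl) hQ
  refine ⟨fun i => b i - ∑ j, A i j * pderiv j φ, ?_, ?_⟩
  · intro i e he
    by_contra hge
    rw [mem_support_iff] at he
    apply he
    rw [coeff_sub, coeff_sum]
    rcases Nat.lt_or_ge (L + w i) (wtp w e) with hlt | hle
    · have h1 : coeff e (b i) = 0 := by
        by_contra h2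
        have := hb i e (mem_support_iff.2 h2)
        omega
      have h2 : ∑ j, coeff e (A i j * pderiv j φ) = 0 := by
        refine Finset.sum_eq_zero fun j _ => ?_
        rw [coeff_mul]
        refine Finset.sum_eq_zero fun x hx => ?_
        have hx' := Finset.HasAntidiagonal.mem_antidiagonal.1 hx
        by_cases h3 : coeff x.1 (A i j) = 0
        · rw [h3, zero_mul]
        by_cases h4 : coeff x.2 (pderiv j φ) = 0
        · rw [h4, mul_zero]
        exfalso
        have h5 := hA1 i j _ (mem_support_iff.2 h3)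
        have h6 := hd1 j _ h4
        rw [← hx', isojx_wtp_add] at hlt
        omega
      rw [h1, h2, sub_zero]
    · have heq : wtp w e = L + w i := by omega
      have h1 : coeff e (b i) = coeff e (t i) := by
        rw [ht, if_pos heq]
      rw [h1, hA2 i, coeff_sum, sub_eq_zero]
      refine Finset.sum_congr rfl fun j _ => ?_
      rw [coeff_mul, coeff_mul]
      refine Finset.sum_congr rfl fun x hx => ?_
      have hx' := Finset.HasAntidiagonal.mem_antidiagonal.1 hx
      by_cases h3 : coeff x.1 (A i j) = 0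
      · rw [h3, zero_mul, zero_mul]
      have h5 := hA1 i j _ (mem_support_iff.2 h3)
      rw [← hx', isojx_wtp_add] at heq
      rw [hd2, if_pos (by omega)]
  · have h0 : ∑ i, (∑ j, A i j * pderiv j φ) * pderiv i φ = 0 := by
      have h1 : ∑ i, (∑ j, A i j * pderiv j φ) * pderiv i φ =
          ∑ i, ∑ j, A i j * (pderiv j φ * pderiv i φ) := by
        refine Finset.sum_congr rfl fun i _ => ?_
        rw [Finset.sum_mul]
        refine Finset.sum_congr rfl fun j _ => ?_
        ring
      rw [h1, ← Finset.sum_product']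
      refine Finset.sum_involution (fun x _ => (x.2, x.1)) ?_ ?_ ?_ ?_
      · intro x _
        show A x.1 x.2 * (pderiv x.2 φ * pderiv x.1 φ) +
          A x.2 x.1 * (pderiv x.1 φ * pderiv x.2 φ) = 0
        rw [hA.2 x.1 x.2]
        ring
      · intro x _ hx hc
        apply hx
        have h2 : x.2 = x.1 := congrArg Prod.fst hc
        show A x.1 x.2 * (pderiv x.2 φ * pderiv x.1 φ) = 0
        rw [h2, hA.1, zero_mul]
      · intro x _
        exact Finset.mem_product.2 ⟨Finset.mem_univ _, Finset.mem_univ _⟩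
      · intro x _
        rfl
    rw [h]
    simp only [sub_mul]
    rw [Finset.sum_sub_distrib, h0, sub_zero]

theorem jac_ind {F : Type*} [Field F] {n : ℕ} (w : Fin n → ℕ) (hw : ∀ i, 0 < w i) (d : ℕ)
    (hd : 0 < d) (φ : MvPolynomial (Fin n) F) (hφ : DegLe w d φ) (M : ℕ)
    (hJ : ∀ i, (X i : MvPolynomial (Fin n) F) ^ M ∈ Jac (part w d φ)) (U : Finset (Fin n →₀ ℕ))
    (hU : IsMB w (part w d φ) U) (c : (Fin n →₀ ℕ) → F)
    (h : ∑ u ∈ U, monomial u (c u) ∈ Jac φ) : ∀ u ∈ U, c u = 0 := by
  classical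
  have hcU : ∀ e, coeff e (∑ u ∈ U, monomial u (c u)) = if e ∈ U then c e else 0 := by
    intro e
    rw [coeff_sum]
    simp only [coeff_monomial]
    rw [Finset.sum_ite_eq']
  have key : ∀ L : ℕ, ∀ b : Fin n → MvPolynomial (Fin n) F,
      (∀ j, ∀ e ∈ (b j).support, wtp w e ≤ L + w j) →
      ∑ u ∈ U, monomial u (c u) = ∑ j, b j * pderiv j φ → ∀ u ∈ U, c u = 0 := by
    intro L
    induction L with
    | zero =>
      intro b hb h1 u hu
      obtain ⟨b', hb', h2⟩ := isojx_step w d φ hφ M hJ U hU c 0 b hb h1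
      have h3 : ∀ j, b' j = 0 := by
        intro j
        rw [← support_eq_empty, Finset.eq_empty_iff_forall_notMem]
        intro e he
        have h4 := hb' j e he
        have h5 := isojx_wtp_ge w e j
        omega
      have h4 := hcU u
      rw [h2, if_pos hu] at h4
      rw [← h4]
      have h5 : ∑ j, b' j * pderiv j φ = 0 := by
        refine Finset.sum_eq_zero fun j _ => ?_
        rw [h3 j, zero_mul]
      rw [h5, coeff_zero]
    | succ L ih =>
      intro b hb h1
      obtain ⟨b', hb', h2⟩ := isojx_step w d φ hφ M hJ U hU c (L + 1) b hb h1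
      refine ih b' (fun j e he => ?_) h2
      have := hb' j e he
      omega
  obtain ⟨b, hb⟩ := Ideal.mem_span_range_iff_exists_fun.1 h
  refine key (∑ j, ∑ e ∈ (b j).support, wtp w e) b ?_ hb.symm
  intro j e he
  have h1 : wtp w e ≤ ∑ e ∈ (b j).support, wtp w e :=
    Finset.single_le_sum (f := fun e => wtp w e) (fun _ _ => Nat.zero_le _) he
  have h2 : ∑ e ∈ (b j).support, wtp w e ≤ ∑ j, ∑ e ∈ (b j).support, wtp w e :=
    Finset.single_le_sum (f := fun j => ∑ e ∈ (b j).support, wtp w e)
      (fun _ _ => Nat.zero_le _) (Finset.mem_univ j)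
  omega

private theorem isojp_ex {κ : Type*} [Field κ] {n : ℕ} {S : Dat κ n} (hS : S.Ok)
    (P : MvPolynomial (Fin n) κ) :
    ∃ p : Polynomial κ, P - Polynomial.aeval S.φ p ∈ Jac S.φ := by
  induction P using MvPolynomial.induction_on with
  | C a =>
    refine ⟨Polynomial.C a, ?_⟩
    rw [Polynomial.aeval_C, MvPolynomial.algebraMap_eq, sub_self]
    exact Ideal.zero_mem _
  | add P Q hP hQ =>
    obtain ⟨p, hp⟩ := hP
    obtain ⟨q, hq⟩ := hQ
    refine ⟨p + q, ?_⟩
    have e : P + Q - Polynomial.aeval S.φ (p + q) =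
        (P - Polynomial.aeval S.φ p) + (Q - Polynomial.aeval S.φ q) := by
      rw [map_add]
      ring
    rw [e]
    exact Ideal.add_mem _ hp hq
  | mul_X P i hP =>
    obtain ⟨p, hp⟩ := hP
    refine ⟨p * S.ξ i, ?_⟩
    have e : P * X i - Polynomial.aeval S.φ (p * S.ξ i) =
        X i * (P - Polynomial.aeval S.φ p) +
          Polynomial.aeval S.φ p * (X i - Polynomial.aeval S.φ (S.ξ i)) := by
      rw [map_mul]
      ring
    rw [e]
    exact Ideal.add_mem _ (Ideal.mul_mem_left _ _ hp) (Ideal.mul_mem_left _ _ (hS.gen i))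

private theorem isojp_pow {κ : Type*} [Field κ] {n : ℕ} {S : Dat κ n} (hS : S.Ok) (i : Fin n) :
    (X i : MvPolynomial (Fin n) κ) ^ S.M ∈ Jac (part S.w S.d S.φ) := by
  rw [X_pow_eq_monomial]
  refine hS.jac _ ?_
  have h1 : wt S.w (Finsupp.single i S.M) = S.w i * S.M := by
    unfold wt
    rw [Finset.sum_eq_single i]
    · rw [Finsupp.single_eq_same]
    · intro j _ hj
      rw [Finsupp.single_apply, if_neg (Ne.symm hj), mul_zero]
    · intro h
      exact absurd (Finset.mem_univ i) h
  rw [h1]
  exact Nat.le_mul_of_pos_left _ (hS.w_pos i)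

theorem pow_ind {κ : Type*} [Field κ] [CharZero κ] {n : ℕ} (S : Dat κ n) (hS : S.Ok)
    (U : Finset (Fin n →₀ ℕ)) (hU : IsMB S.w (part S.w S.d S.φ) U) (a : Polynomial κ)
    (ha : a.degree < U.card) (h : Polynomial.aeval S.φ a ∈ Jac S.φ) : a = 0 := by
  classical
  by_contra h0
  obtain ⟨q, hq⟩ : ∃ q : MvPolynomial (Fin n) κ →ₐ[κ] (MvPolynomial (Fin n) κ ⧸ Jac S.φ),
      q = Ideal.Quotient.mkₐ κ (Jac S.φ) := ⟨_, rfl⟩
  have hq0 : ∀ P, q P = 0 ↔ P ∈ Jac S.φ := by
    intro P
    rw [hq]
    exact Ideal.Quotient.eq_zero_iff_mem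
  have hqs : ∀ b, ∃ P, q P = b := by
    intro b
    rw [hq]
    exact Ideal.Quotient.mkₐ_surjective κ (Jac S.φ) b
  -- linear independence
  have hli : LinearIndependent κ fun u : U => q (monomial (u : Fin n →₀ ℕ) 1) := by
    rw [Fintype.linearIndependent_iff]
    intro g hg
    have h1 : ∑ u ∈ U, monomial u (if hu : u ∈ U then g ⟨u, hu⟩ else 0) ∈ Jac S.φ := by
      rw [← hq0, ← Finset.sum_coe_sort U, map_sum, ← hg]
      refine Finset.sum_congr rfl fun u _ => ?_
      rw [dif_pos u.2, ← map_smul, smul_monomial, smul_eq_mul, mul_one]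
    have h2 := jac_ind S.w hS.w_pos S.d hS.d_pos S.φ hS.deg S.M (isojp_pow hS) U hU _ h1
    intro u
    have h3 := h2 u u.2
    rw [dif_pos u.2] at h3
    exact h3
  -- spanning
  have hsp : Submodule.span κ (((Finset.range a.natDegree).image fun i => q S.φ ^ i : Finset _) :
      Set (MvPolynomial (Fin n) κ ⧸ Jac S.φ)) = ⊤ := by
    rw [eq_top_iff]
    intro b _
    obtain ⟨P, rfl⟩ := hqs b
    obtain ⟨p, hp⟩ := isojp_ex hS P
    have h1 : q P = q (Polynomial.aeval S.φ (p % a)) := by
      rw [← sub_eq_zero, ← map_sub, hq0]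
      have h2 : Polynomial.aeval S.φ p = Polynomial.aeval S.φ a * Polynomial.aeval S.φ (p / a) +
          Polynomial.aeval S.φ (p % a) := by
        rw [← map_mul, ← map_add, EuclideanDomain.div_add_mod]
      have h3 : P - Polynomial.aeval S.φ (p % a) = (P - Polynomial.aeval S.φ p) +
          Polynomial.aeval S.φ (p / a) * Polynomial.aeval S.φ a := by
        rw [h2]
        ring
      rw [h3]
      exact Ideal.add_mem _ hp (Ideal.mul_mem_left _ _ h)
    rw [h1, ← Polynomial.aeval_algHom_apply, Polynomial.aeval_def, Polynomial.eval₂_eq_sum,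
      Polynomial.sum_def]
    refine Submodule.sum_mem _ fun i hi => ?_
    rw [← Algebra.smul_def]
    refine Submodule.smul_mem _ _ (Submodule.subset_span ?_)
    rw [Finset.mem_coe, Finset.mem_image]
    refine ⟨i, ?_, rfl⟩
    rw [Finset.mem_range]
    by_contra hc
    have h4 : (p % a).degree < i := by
      refine lt_of_lt_of_le (Polynomial.degree_mod_lt p h0) ?_
      rw [Polynomial.degree_eq_natDegree h0]
      exact_mod_cast not_lt.1 hc
    exact (Polynomial.mem_support_iff.1 hi) (Polynomial.coeff_eq_zero_of_degree_lt h4)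
  have h5 := linearIndependent_le_span_finset _ hli _ hsp
  rw [Cardinal.mk_coe_finset] at h5
  have h6 : U.card ≤ ((Finset.range a.natDegree).image fun i => q S.φ ^ i).card := by
    exact_mod_cast h5
  have h7 := Finset.card_image_le (s := Finset.range a.natDegree) (f := fun i => q S.φ ^ i)
  rw [Finset.card_range] at h7
  rw [Polynomial.degree_eq_natDegree h0] at ha
  have h8 : a.natDegree < U.card := by exact_mod_cast ha
  omega

end MPadcHM
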