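import Pool.Agent.Lib.MP_adc574_ag_HM.IsoJ
import Pool.Agent.Lib.MP_adc574_ag_HM.BC

/-!
# JOB IsoJb: the Jacobian algebra of `φ + s θ` over `A = M[[s]]`

`F = phs φ θ = φ + s θ ∈ A[x]` (`PowerSeries.C`, `s = PowerSeries.X`), `algebraMap M A = PowerSeries.C` (`PowerSeries.algebraMap_eq`). Its top part is the one of `φ` as `θ` has weights `< d`: all monomials of `F - (part d φ).map C` have weight `< d` (`DegLe`: the monomials of `φ - part d φ` have weight `< d`).
* `F0`: `F.map constantCoeff = φ`.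
* Let `μ = U.card`. `jac_gen` (with `κ = M`, `B = A`): `F^i - ∑_u m_iu x^u ∈ Jac F`, `i < μ`. Reduction mod `s` (the ring homomorphism `MvPolynomial.map constantCoeff` maps `Jac F` into `Jac φ`): `φ^i - ∑_u m_iu(0) x^u ∈ Jac φ`. The `μ × μ` matrix `m(0)` (index the rows by `Fin μ` or via a bijection `U ≃ Fin μ`) has independent rows: if `∑_i a_i m_iu(0) = 0` for all `u`
  then `∑ a_i φ^i ∈ Jac φ` and `a = 0` by `pow_ind`. So `det m(0) ≠ 0`, `det m` is a unit of `A` (`PowerSeries.isUnit_iff_constantCoeff`), `m` is invertible.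
* `isoj_gen`: `P ≡ ∑ c_u x^u` (`jac_gen`), `x^u ≡ ∑_i (m⁻¹)_ui F^i`.
* `isoj_ind`: `a = ∑_{i<μ} a_i T^i`, `a(F) ∈ Jac F`: `∑_u (∑_i a_i m_iu) x^u ∈ Jac F`. Apply the injective `A → N'`, `N' = FractionRing A` (a field): `F' = F.map` has `DegLe`, `part d F' = (part d φ).map`, `IsMB` (`IsMB_map` with `κ = M`, `κ' = N'`, tower algebra), `X_i^M ∈ Jac (part ..)` (from `hS.jac` mapped: `X_i ^ M = monomial`, weight `M w_i ≥ M`). `jac_ind`:
  `∑_i a_i m_iu = 0` for all `u`, and `a = 0` since `m` is invertible.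
* `isoj_delta`: `P = F^μ` in `isoj_gen`: `δ = T^μ - p` is monic of degree `μ`, `δ(F) ∈ Jac F`. If `a(F) ∈ Jac F`: `a = δ q + r`, `deg r < μ` (`Polynomial.modByMonic`), `r(F) ∈ Jac F`, `r = 0`.
  The reduction `δ(0)` divides `S.δ`: over `M`: `S.δ = δ(0) q + r`, `deg r < μ`, `r(φ) ∈ Jac φ`, so `r = 0` by `pow_ind`. So `δ(0)` is separable (`Polynomial.Separable.of_dvd`).
-/

set_option autoImplicit false

namespace MPadcHM

open MvPolynomial MPadcLP

universe u

private theorem isojba_part {R : Type*} [CommRing R] {n : ℕ} (w : Fin n → ℕ) (d : ℕ)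
    (f : MvPolynomial (Fin n) R) (e : Fin n →₀ ℕ) :
    coeff e (part w d f) = if wt w e = d then coeff e f else 0 := by
  classical
  unfold part
  rw [coeff_weightedHomogeneousComponent]
  have h : Finsupp.weight w e = wt w e := by
    rw [Finsupp.weight_apply, Finsupp.sum_fintype]
    · unfold wt
      exact Finset.sum_congr rfl fun i _ => by rw [smul_eq_mul, mul_comm]
    · intro i
      rw [zero_smul]
  rw [h]

private theorem isojba_map_jac {R R' : Type*} [CommRing R] [CommRing R'] {n : ℕ} (f : R →+* R')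
    {φ P : MvPolynomial (Fin n) R} (h : P ∈ Jac φ) : P.map f ∈ Jac (φ.map f) := by
  unfold Jac at h ⊢
  rw [Ideal.mem_span_range_iff_exists_fun] at h ⊢
  obtain ⟨c, hc⟩ := h
  refine ⟨fun j => (c j).map f, ?_⟩
  rw [← hc, map_sum]
  refine Finset.sum_congr rfl fun j _ => ?_
  rw [pderiv_map, map_mul]

private theorem isojba_top {M : Type u} [Field M] {n : ℕ} (S : Dat M n) (hS : S.Ok)
    (θ : MvPolynomial (Fin n) M) (hθ : ∀ e ∈ θ.support, wt S.w e < S.d) :
    ∀ e ∈ (phs S.φ θ - (part S.w S.d S.φ).map (algebraMap M (PowerSeries M))).support,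
      wt S.w e < S.d := by
  intro e he
  by_contra hne
  rw [not_lt] at hne
  rw [mem_support_iff] at he
  apply he
  have h1 : coeff e θ = 0 := by
    by_contra h
    exact absurd (hθ e (mem_support_iff.2 h)) (not_lt.2 hne)
  unfold phs
  rw [coeff_sub, coeff_add, coeff_C_mul, coeff_map, coeff_map, coeff_map, h1, map_zero, mul_zero,
    add_zero, isojba_part, PowerSeries.algebraMap_eq]
  rcases hne.eq_or_lt with h | h
  · rw [if_pos h.symm, sub_self]
  · have h2 : coeff e S.φ = 0 := by
      by_contra h3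
      exact absurd (hS.deg e (mem_support_iff.2 h3)) (not_le.2 h)
    rw [if_neg h.ne', h2, map_zero, sub_self]

private theorem isojba_hom {M : Type u} [Field M] {n : ℕ} (S : Dat M n) :
    Hom S.w S.d (part S.w S.d S.φ) := by
  intro e he
  rw [mem_support_iff, isojba_part] at he
  by_contra h
  rw [if_neg h] at he
  exact he rfl

private theorem isojba_pow {κ : Type*} [Field κ] {n : ℕ} {S : Dat κ n} (hS : S.Ok) (i : Fin n) :
    (X i : MvPolynomial (Fin n) κ) ^ S.M ∈ Jac (part S.w S.d S.φ) := by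
  rw [X_pow_eq_monomial]
  refine hS.jac _ ?_
  have h1 : wt S.w (Finsupp.single i S.M) = S.w i * S.M := by
    unfold wt
    rw [Finset.sum_eq_single i]
    · rw [Finsupp.single_eq_same]
    · intro j _ hj
      rw [Finsupp.single_apply, if_neg (Ne.symm hj), mul_zero]
    · intro h
      exact absurd (Finset.mem_univ i) h
  rw [h1]
  exact Nat.le_mul_of_pos_left _ (hS.w_pos i)

/-- the polynomial with given coefficients -/
private noncomputable def isojba_pol {R : Type*} [CommRing R] {μ : ℕ} (a : Fin μ → R) :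
    Polynomial R := ∑ i : Fin μ, Polynomial.C (a i) * Polynomial.X ^ (i : ℕ)

private theorem isojba_pol_deg {R : Type*} [CommRing R] {μ : ℕ} (a : Fin μ → R) :
    (isojba_pol a).degree < μ := Polynomial.degree_sum_fin_lt a

private theorem isojba_pol_coeff {R : Type*} [CommRing R] {μ : ℕ} (a : Fin μ → R) (i : Fin μ) :
    (isojba_pol a).coeff i = a i := by
  unfold isojba_pol
  rw [Polynomial.finsetSum_coeff, Finset.sum_eq_single i]
  · rw [Polynomial.coeff_C_mul, Polynomial.coeff_X_pow, if_pos rfl, mul_one]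
  · intro j _ hj
    rw [Polynomial.coeff_C_mul, Polynomial.coeff_X_pow, if_neg, mul_zero]
    exact fun h => hj (Fin.ext h.symm)
  · intro h
    exact absurd (Finset.mem_univ i) h

private theorem isojba_pol_eq {R : Type*} [CommRing R] {μ : ℕ} (p : Polynomial R)
    (hp : p.degree < μ) : p = isojba_pol fun i : Fin μ => p.coeff i := by
  ext k
  by_cases hk : k < μ
  · exact (isojba_pol_coeff (fun i : Fin μ => p.coeff i) ⟨k, hk⟩).symm
  · rw [not_lt] at hk
    have h1 : (μ : WithBot ℕ) ≤ (k : WithBot ℕ) := by exact_mod_cast hk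
    rw [Polynomial.coeff_eq_zero_of_degree_lt (hp.trans_le h1),
      Polynomial.coeff_eq_zero_of_degree_lt ((isojba_pol_deg _).trans_le h1)]

private theorem isojba_pol_aeval {R : Type*} [CommRing R] {n μ : ℕ} (F : MvPolynomial (Fin n) R)
    (a : Fin μ → R) : Polynomial.aeval F (isojba_pol a) = ∑ i : Fin μ, C (a i) * F ^ (i : ℕ) := by
  unfold isojba_pol
  rw [map_sum]
  refine Finset.sum_congr rfl fun i _ => ?_
  rw [map_mul, map_pow, Polynomial.aeval_C, Polynomial.aeval_X]
  rfl

private theorem isojba_comb {R : Type*} [CommRing R] {n μ : ℕ} {F : MvPolynomial (Fin n) R}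
    {U : Finset (Fin n →₀ ℕ)} {c : ℕ → (Fin n →₀ ℕ) → R}
    (hc : ∀ i, F ^ i - ∑ u ∈ U, monomial u (c i u) ∈ Jac F) (a : Fin μ → R) :
    Polynomial.aeval F (isojba_pol a) - ∑ u ∈ U, monomial u (∑ i : Fin μ, a i * c i u) ∈
      Jac F := by
  have e : Polynomial.aeval F (isojba_pol a) -
      ∑ u ∈ U, monomial u (∑ i : Fin μ, a i * c i u) =
      ∑ i : Fin μ, C (a i) * (F ^ (i : ℕ) - ∑ u ∈ U, monomial u (c i u)) := by
    rw [isojba_pol_aeval]
    simp only [mul_sub, Finset.sum_sub_distrib]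
    congr 1
    simp only [map_sum, Finset.mul_sum, C_mul_monomial]
    exact Finset.sum_comm
  rw [e]
  exact Ideal.sum_mem _ fun i _ => Ideal.mul_mem_left _ _ (hc i)

variable {M : Type u} [Field M] [CharZero M] {n : ℕ} (S : Dat M n) (hS : S.Ok)
  (θ : MvPolynomial (Fin n) M) (hθ : ∀ e ∈ θ.support, wt S.w e < S.d)
  (U : Finset (Fin n →₀ ℕ)) (hU : IsMB S.w (part S.w S.d S.φ) U)

theorem phs_map (φ θ : MvPolynomial (Fin n) M) :
    (phs φ θ).map (PowerSeries.constantCoeff (R := M)) = φ := by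
  unfold phs
  rw [map_add, map_mul, map_C, PowerSeries.constantCoeff_X, C_0, zero_mul, add_zero, map_map]
  have h : (PowerSeries.constantCoeff (R := M)).comp PowerSeries.C = RingHom.id M := by
    ext x
    simp
  rw [h, map_id]

include hS hθ hU in
/-- The matrix of the powers of `F` in the Milnor basis. -/
private theorem isojba_mat : ∃ c : ℕ → (Fin n →₀ ℕ) → PowerSeries M,
    (∀ i, phs S.φ θ ^ i - ∑ u ∈ U, monomial u (c i u) ∈ Jac (phs S.φ θ)) ∧
    IsUnit (Matrix.of fun (i j : Fin U.card) =>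
      c i ((U.equivFin.symm j : U) : Fin n →₀ ℕ)).det := by
  classical
  have h0 : ∀ i : ℕ, ∃ c : (Fin n →₀ ℕ) → PowerSeries M,
      phs S.φ θ ^ i - ∑ u ∈ U, monomial u (c u) ∈ Jac (phs S.φ θ) := fun i =>
    jac_gen S.w hS.w_pos S.d hS.d_pos (part S.w S.d S.φ) (isojba_hom S) U hU (phs S.φ θ)
      (isojba_top S hS θ hθ) (phs S.φ θ ^ i)
  choose c hc using h0
  refine ⟨c, hc, ?_⟩
  rw [PowerSeries.isUnit_iff_constantCoeff, isUnit_iff_ne_zero, RingHom.map_det]
  intro hdet
  obtain ⟨v, hv, hv0⟩ := Matrix.exists_vecMul_eq_zero_iff.2 hdet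
  apply hv
  have hc0 : ∀ i : ℕ, S.φ ^ i -
      ∑ u ∈ U, monomial u (PowerSeries.constantCoeff (R := M) (c i u)) ∈ Jac S.φ := by
    intro i
    have h1 := isojba_map_jac (PowerSeries.constantCoeff (R := M)) (hc i)
    rw [phs_map, map_sub, map_pow, phs_map, map_sum] at h1
    simpa only [map_monomial] using h1
  have h1 := isojba_comb hc0 v
  have h2 : ∑ u ∈ U, monomial u (∑ i : Fin U.card, v i *
      PowerSeries.constantCoeff (R := M) (c i u)) = 0 := by
    refine Finset.sum_eq_zero fun u hu => ?_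
    have h3 := congrFun hv0 (U.equivFin ⟨u, hu⟩)
    rw [Matrix.vecMul, dotProduct] at h3
    simp only [RingHom.mapMatrix_apply, Matrix.map_apply, Matrix.of_apply,
      Equiv.symm_apply_apply, Pi.zero_apply] at h3
    rw [h3, monomial_zero]
  rw [h2, sub_zero] at h1
  have h3 := pow_ind S hS U hU (isojba_pol v) (isojba_pol_deg v) h1
  funext i
  have h4 := isojba_pol_coeff v i
  rw [h3, Polynomial.coeff_zero] at h4
  exact h4.symm

include hS hθ hU in
theorem isoj_gen (P : MvPolynomial (Fin n) (PowerSeries M)) :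
    ∃ p : Polynomial (PowerSeries M), p.degree < U.card ∧
      P - Polynomial.aeval (phs S.φ θ) p ∈ Jac (phs S.φ θ) := by
  classical
  obtain ⟨c, hc, hu⟩ := isojba_mat S hS θ hθ U hU
  obtain ⟨b, hb⟩ := jac_gen S.w hS.w_pos S.d hS.d_pos (part S.w S.d S.φ) (isojba_hom S) U hU
    (phs S.φ θ) (isojba_top S hS θ hθ) P
  obtain ⟨m, hm⟩ : ∃ m : Matrix (Fin U.card) (Fin U.card) (PowerSeries M),
      m = Matrix.of fun (i j : Fin U.card) => c i ((U.equivFin.symm j : U) : Fin n →₀ ℕ) :=
    ⟨_, rfl⟩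
  rw [← hm] at hu
  obtain ⟨a, ha⟩ : ∃ a : Fin U.card → PowerSeries M,
      a = Matrix.vecMul (fun j => b ((U.equivFin.symm j : U) : Fin n →₀ ℕ)) m⁻¹ := ⟨_, rfl⟩
  have ha' : Matrix.vecMul a m = fun j => b ((U.equivFin.symm j : U) : Fin n →₀ ℕ) := by
    rw [ha, Matrix.vecMul_vecMul, Matrix.nonsing_inv_mul _ hu, Matrix.vecMul_one]
  refine ⟨isojba_pol a, isojba_pol_deg a, ?_⟩
  have h1 := isojba_comb hc a
  have h2 : ∑ u ∈ U, monomial u (∑ i : Fin U.card, a i * c i u) =
      ∑ u ∈ U, monomial u (b u) := by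
    refine Finset.sum_congr rfl fun u hu' => ?_
    have h3 := congrFun ha' (U.equivFin ⟨u, hu'⟩)
    rw [Matrix.vecMul, dotProduct, hm] at h3
    simp only [Matrix.of_apply, Equiv.symm_apply_apply] at h3
    rw [h3]
  rw [h2] at h1
  have e : P - Polynomial.aeval (phs S.φ θ) (isojba_pol a) =
      (P - ∑ u ∈ U, monomial u (b u)) -
        (Polynomial.aeval (phs S.φ θ) (isojba_pol a) - ∑ u ∈ U, monomial u (b u)) := by
    ring
  rw [e]
  exact Ideal.sub_mem _ hb h1

include hS hθ hU in
theorem isoj_ind (a : Polynomial (PowerSeries M)) (ha : a.degree < U.card)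
    (h : Polynomial.aeval (phs S.φ θ) a ∈ Jac (phs S.φ θ)) : a = 0 := by
  classical
  obtain ⟨c, hc, hu⟩ := isojba_mat S hS θ hθ U hU
  have e0 := isojba_pol_eq a ha
  obtain ⟨v, hv⟩ : ∃ v : Fin U.card → PowerSeries M, v = fun i : Fin U.card => a.coeff i :=
    ⟨_, rfl⟩
  rw [← hv] at e0
  rw [e0] at h
  have h1 := Ideal.sub_mem _ h (isojba_comb hc v)
  rw [sub_sub_cancel] at h1
  -- go to the fraction field
  have h2 := isojba_map_jac (algebraMap (PowerSeries M) (FractionRing (PowerSeries M))) h1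
  rw [map_sum] at h2
  simp only [map_monomial] at h2
  obtain ⟨F', hF'⟩ : ∃ F' : MvPolynomial (Fin n) (FractionRing (PowerSeries M)),
      F' = (phs S.φ θ).map (algebraMap (PowerSeries M) (FractionRing (PowerSeries M))) :=
    ⟨_, rfl⟩
  rw [← hF'] at h2
  have htop := isojba_top S hS θ hθ
  have hco : ∀ e, S.d ≤ wt S.w e → coeff e F' =
      coeff e ((part S.w S.d S.φ).map (algebraMap M (FractionRing (PowerSeries M)))) := by
    intro e he
    have h3 : coeff e (phs S.φ θ - (part S.w S.d S.φ).map (algebraMap M (PowerSeries M))) = 0 := by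
      by_contra h4
      exact absurd (htop e (mem_support_iff.2 h4)) (not_lt.2 he)
    rw [coeff_sub, sub_eq_zero] at h3
    rw [hF', coeff_map, h3, coeff_map, coeff_map,
      IsScalarTower.algebraMap_apply M (PowerSeries M) (FractionRing (PowerSeries M))]
  have hpart : part S.w S.d F' =
      (part S.w S.d S.φ).map (algebraMap M (FractionRing (PowerSeries M))) := by
    ext e
    rw [isojba_part]
    by_cases he : wt S.w e = S.d
    · rw [if_pos he, hco e he.ge]
    · rw [if_neg he, coeff_map, isojba_part, if_neg he, map_zero]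
  have hdeg : DegLe S.w S.d F' := by
    intro e he
    by_contra h3
    rw [not_le] at h3
    rw [mem_support_iff, hco e h3.le, coeff_map, isojba_part, if_neg h3.ne', map_zero] at he
    exact he rfl
  have hMB : IsMB S.w (part S.w S.d F') U := by
    rw [hpart]
    exact IsMB_map S.w (part S.w S.d S.φ) U hU
  have hJ : ∀ i, (X i : MvPolynomial (Fin n) (FractionRing (PowerSeries M))) ^ S.M ∈
      Jac (part S.w S.d F') := by
    intro i
    rw [hpart]
    have h3 := isojba_map_jac (algebraMap M (FractionRing (PowerSeries M))) (isojba_pow hS i)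
    rwa [map_pow, map_X] at h3
  have h3 := jac_ind S.w hS.w_pos S.d hS.d_pos F' hdeg S.M hJ U hMB _ h2
  have h4 : Matrix.vecMul v (Matrix.of fun (i j : Fin U.card) =>
      c i ((U.equivFin.symm j : U) : Fin n →₀ ℕ)) = 0 := by
    funext j
    have h5 := h3 ((U.equivFin.symm j : U) : Fin n →₀ ℕ) (U.equivFin.symm j).2
    have h6 := (map_eq_zero_iff _
      (IsFractionRing.injective (PowerSeries M) (FractionRing (PowerSeries M)))).1 h5
    rw [Matrix.vecMul, dotProduct]
    simp only [Matrix.of_apply, Pi.zero_apply]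
    exact h6
  have h5 := Matrix.eq_zero_of_vecMul_eq_zero hu.ne_zero h4
  rw [e0, h5]
  unfold isojba_pol
  refine Finset.sum_eq_zero fun i _ => ?_
  rw [Pi.zero_apply, map_zero, zero_mul]

omit [CharZero M] in
private theorem isojbb_jac (φ θ : MvPolynomial (Fin n) M)
    (hm : (phs φ θ).map (PowerSeries.constantCoeff (R := M)) = φ)
    (P : MvPolynomial (Fin n) (PowerSeries M)) (hP : P ∈ Jac (phs φ θ)) :
    P.map (PowerSeries.constantCoeff (R := M)) ∈ Jac φ := by
  obtain ⟨c, hc⟩ := Ideal.mem_span_range_iff_exists_fun.1 hP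
  refine Ideal.mem_span_range_iff_exists_fun.2
    ⟨fun j => (c j).map (PowerSeries.constantCoeff (R := M)), ?_⟩
  rw [← hc, map_sum]
  refine Finset.sum_congr rfl fun j _ => ?_
  rw [map_mul, ← MvPolynomial.pderiv_map, hm]

omit [CharZero M] in
private theorem isojbb_aeval (F : MvPolynomial (Fin n) (PowerSeries M))
    (a : Polynomial (PowerSeries M)) :
    (Polynomial.aeval F a).map (PowerSeries.constantCoeff (R := M)) =
      Polynomial.aeval (F.map (PowerSeries.constantCoeff (R := M)))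
        (a.map (PowerSeries.constantCoeff (R := M))) := by
  rw [Polynomial.aeval_def, Polynomial.aeval_def, Polynomial.hom_eval₂, Polynomial.eval₂_map]
  congr 1
  refine RingHom.ext fun x => ?_
  rw [RingHom.comp_apply, RingHom.comp_apply, MvPolynomial.algebraMap_eq,
    MvPolynomial.algebraMap_eq, MvPolynomial.map_C]

include hS hθ hU in
theorem isoj_delta : ∃ δ : Polynomial (PowerSeries M), δ.Monic ∧
    Polynomial.aeval (phs S.φ θ) δ ∈ Jac (phs S.φ θ) ∧
    (δ.map (PowerSeries.constantCoeff (R := M))).Separable ∧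
    ∀ a : Polynomial (PowerSeries M), Polynomial.aeval (phs S.φ θ) a ∈ Jac (phs S.φ θ) →
      δ ∣ a := by
  obtain ⟨p, hp, hpJ⟩ := isoj_gen S hS θ hθ U hU ((phs S.φ θ) ^ U.card)
  have hdX : (Polynomial.X ^ U.card : Polynomial (PowerSeries M)).degree =
      (U.card : WithBot ℕ) :=
    Polynomial.degree_X_pow _
  have hlt : p.degree < (Polynomial.X ^ U.card : Polynomial (PowerSeries M)).degree := by
    rw [hdX]
    exact hp
  have hmon : (Polynomial.X ^ U.card - p).Monic :=
    (Polynomial.monic_X_pow U.card).sub_of_left hlt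
  have hdeg : (Polynomial.X ^ U.card - p : Polynomial (PowerSeries M)).degree =
      (U.card : WithBot ℕ) := by
    rw [Polynomial.degree_sub_eq_left_of_degree_lt hlt, hdX]
  have hmem : Polynomial.aeval (phs S.φ θ) (Polynomial.X ^ U.card - p) ∈ Jac (phs S.φ θ) := by
    rw [map_sub, map_pow, Polynomial.aeval_X]
    exact hpJ
  refine ⟨Polynomial.X ^ U.card - p, hmon, hmem, ?_, ?_⟩
  · obtain ⟨δ, hδ⟩ : ∃ δ : Polynomial (PowerSeries M), δ = Polynomial.X ^ U.card - p :=
      ⟨_, rfl⟩
    rw [← hδ] at hmon hdeg hmem ⊢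
    have hm := phs_map S.φ θ
    have h1 : Polynomial.aeval S.φ (δ.map (PowerSeries.constantCoeff (R := M))) ∈ Jac S.φ := by
      have h2 := isojbb_jac S.φ θ hm _ hmem
      rw [isojbb_aeval, hm] at h2
      exact h2
    have hmon0 : (δ.map (PowerSeries.constantCoeff (R := M))).Monic := hmon.map _
    have hdeg0 : (δ.map (PowerSeries.constantCoeff (R := M))).degree =
        (U.card : WithBot ℕ) := by
      rw [hmon.degree_map, hdeg]
    have h3 : S.δ %ₘ (δ.map (PowerSeries.constantCoeff (R := M))) = 0 := by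
      refine pow_ind S hS U hU _ ?_ ?_
      · have h4 := Polynomial.degree_modByMonic_lt S.δ hmon0
        rw [hdeg0] at h4
        exact h4
      · have h4 := Polynomial.modByMonic_add_div S.δ (δ.map (PowerSeries.constantCoeff (R := M)))
        have h5 : S.δ %ₘ (δ.map (PowerSeries.constantCoeff (R := M))) =
            S.δ - (δ.map (PowerSeries.constantCoeff (R := M))) *
              (S.δ /ₘ (δ.map (PowerSeries.constantCoeff (R := M)))) :=
          eq_sub_of_add_eq h4
        rw [h5, map_sub, map_mul]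
        exact Ideal.sub_mem _ hS.ann (Ideal.mul_mem_right _ _ h1)
    exact hS.sep.of_dvd ((Polynomial.modByMonic_eq_zero_iff_dvd hmon0).1 h3)
  · intro a ha
    obtain ⟨δ, hδ⟩ : ∃ δ : Polynomial (PowerSeries M), δ = Polynomial.X ^ U.card - p :=
      ⟨_, rfl⟩
    rw [← hδ] at hmon hdeg hmem ⊢
    have h3 : a %ₘ δ = 0 := by
      refine isoj_ind S hS θ hθ U hU _ ?_ ?_
      · have h4 := Polynomial.degree_modByMonic_lt a hmon
        rw [hdeg] at h4
        exact h4
      · have h4 := Polynomial.modByMonic_add_div a δ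
        have h5 : a %ₘ δ = a - δ * (a /ₘ δ) := eq_sub_of_add_eq h4
        rw [h5, map_sub, map_mul]
        exact Ideal.sub_mem _ ha (Ideal.mul_mem_right _ _ hmem)
    exact (Polynomial.modByMonic_eq_zero_iff_dvd hmon).1 h3

end MPadcHM
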