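import Pool.Agent.Lib.MP_adc574_ag_HM.IsoJb

/-!
# JOB IsoJc: the vector field `∂_s + v ∂_t`

`F = phs φ θ`, `J = Jac F`, `Θ = θ.map C`, `∂_s = mD n (dsR M)` (coefficientwise; commutes with `pderiv i`, is 0 on the `X i` and `∂_s (C b) = C (dsR M b)`, `dsR M (C c) = 0`, `dsR M X = 1`).
* `mD_pderiv`, `mD_C`, `mD_monomial`: `ext`, `coeff_mD`, `coeff_pderiv`, `Derivation.leibniz`, `Derivation.map_natCast`.
* `mD_phs`: `∂_s F = Θ`. `mD_aeval`: `∂_s (a(F)) = (dsP a)(F) + (dtP a)(F) Θ` (induction on polynomials, `coeff_polyDer`, `dtP_apply`); `pderiv_aeval'`: `∂_i (a(F)) = (dtP a)(F) ∂_i F`.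
* `isoj_vec`: let `X_j - ξ_j(F) = ∑_k c_jk ∂_k F` (`isoj_gen`). Apply `∂_i`: `∑_k c_jk h_ki ≡ δ_ij mod J`, `h_ki = ∂_i ∂_k F` (symmetric). So `c h = 1` in matrices over `A[x] / J`, and `h c = 1` (`mul_eq_one_comm`). `δ(F) = ∑ b_j ∂_j F`; apply `∂_i`: `∑_j b_j h_ji ≡ 0 mod J`, so `b = b h c ≡ 0`: all `b_j ∈ J`.
  Apply `∂_s`: `(dsP δ)(F) + (dtP δ)(F) Θ = ∑ ∂_s b_j ∂_j F + ∑ b_j ∂_j Θ ∈ J`. With `v(F) - Θ ∈ J`: `(dsP δ + v dtP δ)(F) ∈ J`, so `δ ∣ dsP δ + v dtP δ` by the last property of `isoj_delta`.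
* `exists_defo`: `δ` from `isoj_delta`, `v` from `isoj_gen` for `Θ`, `D.S = ⟨S.w, S.d, S.φ, S.M, δ(0), S.ξ⟩`; `D.S.Ok`: `δ(0)` separable, `δ(0)(φ) ∈ Jac φ` (reduce `δ(F) ∈ Jac F` mod `s`; `phs_map`). `U` from `exists_MB` (`Hom` of `part`: homogeneous; `hS.jac`). `Ideal.mem_span_range_iff_exists_fun` gives `q`, `r`.
-/

set_option autoImplicit false

namespace MPadcHM

open MvPolynomial MPadcLP

universe u

private theorem isojca_leib {E : Type*} [CommRing E] (D : Der E) (a b : E) :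
    D (a * b) = a * D b + b * D a := by
  rw [Derivation.leibniz, smul_eq_mul, smul_eq_mul]

private theorem isojca_pow {E : Type*} [CommRing E] (D : Der E) (a : E) (k : ℕ) :
    D (a ^ k) = (k : E) * (a ^ (k - 1) * D a) := by
  rw [Derivation.leibniz_pow, smul_eq_mul, nsmul_eq_mul]

theorem mD_pderiv {B : Type*} [CommRing B] {n : ℕ} (D : Der B) (i : Fin n)
    (P : MvPolynomial (Fin n) B) : mD n D (pderiv i P) = pderiv i (mD n D P) := by
  ext m
  rw [coeff_mD, coeff_pderiv, coeff_pderiv, coeff_mD, Derivation.leibniz]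
  have h1 : D ((m i : B) + 1) = 0 := by
    rw [map_add, Derivation.map_natCast, Derivation.map_one_eq_zero, add_zero]
  rw [h1, smul_zero, zero_add, smul_eq_mul, mul_comm]

theorem mD_monomial {B : Type*} [CommRing B] {n : ℕ} (D : Der B) (e : Fin n →₀ ℕ) (b : B) :
    mD n D (monomial e b) = monomial e (D b) := by
  classical
  ext m
  rw [coeff_mD, coeff_monomial, coeff_monomial]
  split_ifs with h
  · rfl
  · exact map_zero D

theorem mD_C {B : Type*} [CommRing B] {n : ℕ} (D : Der B) (b : B) :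
    mD n D (C b) = C (D b) := mD_monomial D 0 b

theorem mD_phs {M : Type u} [Field M] {n : ℕ} (φ θ : MvPolynomial (Fin n) M) :
    mD n (dsR M) (phs φ θ) = θ.map PowerSeries.C := by
  ext1 m
  rw [coeff_mD, coeff_map]
  have h1 : coeff m (phs φ θ) = PowerSeries.C (coeff m φ) +
      PowerSeries.X * PowerSeries.C (coeff m θ) := by
    unfold phs
    rw [coeff_add, coeff_C_mul, coeff_map, coeff_map]
  have h2 : ∀ c : M, dsR M (PowerSeries.C c) = 0 := by
    intro c
    ext k
    rw [coeff_dsR, PowerSeries.coeff_C, if_neg (Nat.succ_ne_zero k), zero_mul, map_zero]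
  have h3 : dsR M (PowerSeries.X : PowerSeries M) = 1 := by
    ext k
    rw [coeff_dsR, PowerSeries.coeff_X, PowerSeries.coeff_one]
    by_cases hk : k = 0
    · subst hk
      simp
    · rw [if_neg (by omega), if_neg hk, zero_mul]
  rw [h1, map_add, h2, zero_add, isojca_leib, h2, h3, mul_zero, zero_add, mul_one]

theorem mD_aeval {M : Type u} [Field M] {n : ℕ} (φ θ : MvPolynomial (Fin n) M)
    (a : Polynomial (PowerSeries M)) :
    mD n (dsR M) (Polynomial.aeval (phs φ θ) a) = Polynomial.aeval (phs φ θ) (dsP M a) +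
      Polynomial.aeval (phs φ θ) (dtP (PowerSeries M) a) * θ.map PowerSeries.C := by
  induction a using Polynomial.induction_on' with
  | add p q hp hq =>
    rw [map_add, map_add, hp, hq, map_add, map_add, map_add, map_add]
    ring
  | monomial k c =>
    have h1 : dsP M (Polynomial.monomial k c) = Polynomial.monomial k (dsR M c) := by
      ext1 j
      show (polyDer (dsR M) (Polynomial.monomial k c)).coeff j = _
      rw [coeff_polyDer, Polynomial.coeff_monomial, Polynomial.coeff_monomial]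
      split_ifs with h
      · rfl
      · exact map_zero _
    have h2 : mD n (dsR M) (algebraMap (PowerSeries M) (MvPolynomial (Fin n) (PowerSeries M)) c) =
        algebraMap (PowerSeries M) (MvPolynomial (Fin n) (PowerSeries M)) (dsR M c) :=
      mD_C (dsR M) c
    rw [h1, dtP_apply, Polynomial.derivative_monomial, Polynomial.aeval_monomial,
      Polynomial.aeval_monomial, Polynomial.aeval_monomial, isojca_leib,
      isojca_pow, mD_phs, h2, map_mul, map_natCast]
    ring

theorem pderiv_aeval' {B : Type u} [CommRing B] {n : ℕ} (F : MvPolynomial (Fin n) B)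
    (a : Polynomial B) (i : Fin n) :
    pderiv i (Polynomial.aeval F a) = Polynomial.aeval F (dtP B a) * pderiv i F := by
  rw [dtP_apply]
  induction a using Polynomial.induction_on' with
  | add p q hp hq =>
    rw [map_add, map_add, hp, hq, Polynomial.derivative_add, map_add]
    ring
  | monomial k c =>
    have h2 : pderiv i (algebraMap B (MvPolynomial (Fin n) B) c) = 0 := pderiv_C
    rw [Polynomial.derivative_monomial, Polynomial.aeval_monomial,
      Polynomial.aeval_monomial, Derivation.leibniz, Derivation.leibniz_pow, h2, map_mul,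
      map_natCast]
    simp only [smul_eq_mul, nsmul_eq_mul]
    ring

private theorem isojcb_mul {R : Type*} [CommRing R] (D : Der R) (a b : R) :
    D (a * b) = a * D b + b * D a := by
  rw [Derivation.leibniz, smul_eq_mul, smul_eq_mul]

private theorem isojcb_sum {R ι : Type*} [CommRing R] (D : Der R) (s : Finset ι) (f : ι → R) :
    D (∑ i ∈ s, f i) = ∑ i ∈ s, D (f i) := map_sum D f s

private theorem isojcb_mem {B : Type*} [CommRing B] {n : ℕ} (F : MvPolynomial (Fin n) B)
    (i : Fin n) : pderiv i F ∈ Jac F := Ideal.subset_span ⟨i, rfl⟩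

/-- the coefficients of an element of the Jacobian ideal, after one derivative -/
private theorem isojcb_q {B : Type u} [CommRing B] {n : ℕ} (F : MvPolynomial (Fin n) B)
    (c : Fin n → MvPolynomial (Fin n) B) (i : Fin n) :
    Ideal.Quotient.mk (Jac F) (pderiv i (∑ k, c k * pderiv k F)) =
      ∑ k, Ideal.Quotient.mk (Jac F) (c k) * Ideal.Quotient.mk (Jac F) (pderiv i (pderiv k F)) := by
  rw [map_sum, map_sum]
  refine Finset.sum_congr rfl fun k _ => ?_
  rw [pderiv_mul, map_add, map_mul, map_mul,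
    Ideal.Quotient.eq_zero_iff_mem.2 (isojcb_mem F k), mul_zero, zero_add]

theorem isoj_vec {M : Type u} [Field M] [CharZero M] {n : ℕ} (S : Dat M n) (hS : S.Ok)
    (θ : MvPolynomial (Fin n) M) (hθ : ∀ e ∈ θ.support, wt S.w e < S.d)
    (U : Finset (Fin n →₀ ℕ)) (hU : IsMB S.w (part S.w S.d S.φ) U)
    (δ v : Polynomial (PowerSeries M))
    (h1 : Polynomial.aeval (phs S.φ θ) δ ∈ Jac (phs S.φ θ))
    (h2 : Polynomial.aeval (phs S.φ θ) v - θ.map PowerSeries.C ∈ Jac (phs S.φ θ))
    (h3 : ∀ a : Polynomial (PowerSeries M), Polynomial.aeval (phs S.φ θ) a ∈ Jac (phs S.φ θ) →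
      δ ∣ a) : δ ∣ dsP M δ + v * dtP (PowerSeries M) δ := by
  classical
  have hgen : ∀ j : Fin n, ∃ (p : Polynomial (PowerSeries M))
      (c : Fin n → MvPolynomial (Fin n) (PowerSeries M)),
      X j = Polynomial.aeval (phs S.φ θ) p + ∑ k, c k * pderiv k (phs S.φ θ) := by
    intro j
    obtain ⟨p, _, hp⟩ := isoj_gen S hS θ hθ U hU (X j)
    obtain ⟨c, hc⟩ := Ideal.mem_span_range_iff_exists_fun.1 hp
    exact ⟨p, c, by rw [hc]; ring⟩
  choose p c hc using hgen
  obtain ⟨b, hb⟩ := Ideal.mem_span_range_iff_exists_fun.1 h1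
  have hds := mD_aeval S.φ θ δ
  have hphs := mD_phs S.φ θ
  generalize phs S.φ θ = F at h1 h2 h3 hc hb hds hphs
  have hF : ∀ i, Ideal.Quotient.mk (Jac F) (pderiv i F) = 0 := fun i =>
    Ideal.Quotient.eq_zero_iff_mem.2 (isojcb_mem F i)
  have hCH : (Matrix.of fun j k => Ideal.Quotient.mk (Jac F) (c j k)) *
      (Matrix.of fun k i => Ideal.Quotient.mk (Jac F) (pderiv i (pderiv k F))) = 1 := by
    ext j i
    rw [Matrix.mul_apply, Matrix.one_apply]
    simp only [Matrix.of_apply]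
    rw [← isojcb_q]
    have h4 : ∑ k, c j k * pderiv k F = X j - Polynomial.aeval F (p j) := by
      rw [eq_sub_iff_add_eq, add_comm]
      exact (hc j).symm
    rw [h4, map_sub, pderiv_aeval', map_sub, map_mul, hF, mul_zero, sub_zero]
    by_cases hij : j = i
    · rw [if_pos hij, hij, pderiv_X_self, map_one]
    · rw [if_neg hij, pderiv_X_of_ne hij, map_zero]
  have hHC := mul_eq_one_comm.1 hCH
  have hbH : Matrix.vecMul (fun j => Ideal.Quotient.mk (Jac F) (b j))
      (Matrix.of fun k i => Ideal.Quotient.mk (Jac F) (pderiv i (pderiv k F))) = 0 := by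
    funext i
    show ∑ k, Ideal.Quotient.mk (Jac F) (b k) *
      Ideal.Quotient.mk (Jac F) (pderiv i (pderiv k F)) = 0
    rw [← isojcb_q, hb, pderiv_aeval', map_mul, hF, mul_zero]
  have hb0 : (fun j => Ideal.Quotient.mk (Jac F) (b j)) = 0 := by
    have h4 : Matrix.vecMul (Matrix.vecMul (fun j => Ideal.Quotient.mk (Jac F) (b j))
      (Matrix.of fun k i => Ideal.Quotient.mk (Jac F) (pderiv i (pderiv k F))))
      (Matrix.of fun j k => Ideal.Quotient.mk (Jac F) (c j k)) = 0 := by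
      rw [hbH, Matrix.zero_vecMul]
    rw [Matrix.vecMul_vecMul, hHC, Matrix.vecMul_one] at h4
    exact h4
  have hbJ : ∀ j, b j ∈ Jac F := fun j => Ideal.Quotient.eq_zero_iff_mem.1 (congrFun hb0 j)
  have hmem : Polynomial.aeval F (dsP M δ) +
      Polynomial.aeval F (dtP (PowerSeries M) δ) * θ.map PowerSeries.C ∈ Jac F := by
    rw [← hds, ← hb, isojcb_sum]
    refine Ideal.sum_mem _ fun j _ => ?_
    rw [isojcb_mul]
    exact Ideal.add_mem _ (Ideal.mul_mem_right _ _ (hbJ j))
      (Ideal.mul_mem_right _ _ (isojcb_mem F j))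
  refine h3 _ ?_
  have e : Polynomial.aeval F (dsP M δ + v * dtP (PowerSeries M) δ) =
      (Polynomial.aeval F (dsP M δ) +
        Polynomial.aeval F (dtP (PowerSeries M) δ) * θ.map PowerSeries.C) +
      (Polynomial.aeval F v - θ.map PowerSeries.C) * Polynomial.aeval F (dtP (PowerSeries M) δ) := by
    rw [map_add, map_mul]
    ring
  rw [e]
  exact Ideal.add_mem _ hmem (Ideal.mul_mem_right _ _ h2)

private theorem isojcc_hom {κ : Type*} [Field κ] {n : ℕ} (w : Fin n → ℕ) (d : ℕ)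
    (φ : MvPolynomial (Fin n) κ) : Hom w d (part w d φ) := by
  classical
  intro e he
  by_contra h
  rw [mem_support_iff] at he
  apply he
  unfold part
  rw [coeff_weightedHomogeneousComponent, if_neg]
  intro h1
  apply h
  rw [← h1, Finsupp.weight_apply]
  refine Eq.symm ((Finsupp.sum_fintype e (fun i c => c • w i) (fun i => zero_smul ℕ (w i))).trans ?_)
  unfold wt
  refine Finset.sum_congr rfl fun i _ => ?_
  rw [smul_eq_mul, mul_comm]

private theorem isojcc_map {R S : Type*} [CommRing R] [CommRing S] {n : ℕ} (ψ : R →+* S)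
    {φ P : MvPolynomial (Fin n) R}
    (h : P ∈ Jac φ) : P.map ψ ∈ Jac (φ.map ψ) := by
  have hJ : (Jac φ).map (MvPolynomial.map ψ) = Jac (φ.map ψ) := by
    rw [Jac, Jac, Ideal.map_span, ← Set.range_comp]
    apply congrArg
    apply congrArg
    funext j
    simp only [Function.comp_apply, pderiv_map]
  rw [← hJ]
  exact Ideal.mem_map_of_mem _ h

private theorem isojcc_aeval {R S : Type*} [CommRing R] [CommRing S] {n : ℕ} (ψ : R →+* S)
    (φ : MvPolynomial (Fin n) R) (δ : Polynomial R) :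
    Polynomial.aeval (φ.map ψ) (δ.map ψ) = (Polynomial.aeval φ δ).map ψ := by
  rw [Polynomial.aeval_def, Polynomial.eval₂_map, Polynomial.aeval_def, Polynomial.hom_eval₂]
  congr 1
  ext a : 1
  simp only [RingHom.comp_apply, algebraMap_eq, map_C]

theorem exists_defo {M : Type u} [Field M] [CharZero M] {n : ℕ} (S : Dat M n) (hS : S.Ok)
    (θ : MvPolynomial (Fin n) M) (hθ : ∀ e ∈ θ.support, wt S.w e < S.d) :
    ∃ (D : Defo M n) (δ' : Polynomial M), D.Ok ∧ D.θ = θ ∧
      D.S = ⟨S.w, S.d, S.φ, S.M, δ', S.ξ⟩ := by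
  classical
  obtain ⟨U, hU⟩ := exists_MB S.w hS.w_pos S.d (part S.w S.d S.φ) (isojcc_hom S.w S.d S.φ) S.M
    hS.jac
  obtain ⟨δ, hδm, hδ1, hδ2, hδ3⟩ := isoj_delta S hS θ hθ U hU
  obtain ⟨p, -, hp⟩ := isoj_gen S hS θ hθ U hU (θ.map PowerSeries.C)
  have hp' : Polynomial.aeval (phs S.φ θ) p - θ.map PowerSeries.C ∈ Jac (phs S.φ θ) := by
    rw [← neg_sub]
    exact neg_mem hp
  obtain ⟨q, hq⟩ := Ideal.mem_span_range_iff_exists_fun.1 hδ1
  obtain ⟨r, hr⟩ := Ideal.mem_span_range_iff_exists_fun.1 hp'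
  refine ⟨⟨⟨S.w, S.d, S.φ, S.M, δ.map (PowerSeries.constantCoeff (R := M)), S.ξ⟩, θ, U, δ, p, q, r⟩,
    δ.map (PowerSeries.constantCoeff (R := M)), ?_, rfl, rfl⟩
  refine ⟨⟨hS.w_pos, hS.d_pos, hS.deg, hS.jac, hδ2, ?_, hS.gen⟩, hθ, hU, hδm, rfl, hq.symm,
    hr.symm, isoj_vec S hS θ hθ U hU δ p hδ1 hp' hδ3⟩
  have h1 := isojcc_map (PowerSeries.constantCoeff (R := M)) hδ1
  rw [← isojcc_aeval, phs_map] at h1
  exact h1

end MPadcHM
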