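import Pool.Agent.Lib.MP_adc574_ag_HM.IsoKDefs
import Pool.Agent.Lib.MP_adc574_ag_HM.IsoB

/-!
# JOB IsoK: the field `N(t)`, and elements related to `M(t)[[s]]`

`jL : A[t] → N(t)` is injective (`Polynomial.map_injective`, `IsFractionRing.injective`, `RatFunc.algebraMap_injective`), and every `x ∈ N(t)` is `jL a / jL b` (`x = p / q` with `p, q ∈ N[t]`; multiply by a common denominator of all coefficients: `IsLocalization.integerNormalization` or `IsLocalization.exist_integer_multiples_of_finset`).
* `jL_frac`: from these (`IsLocalization` / `IsFractionRing` constructors: `map_units`, `surj`, `exists_of_eq`).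
* `DZ_jL`: `DK_poly`, `Polynomial.derivative_map`.
* `der_ext`: a derivation of a domain `B` extends to its field of fractions: `D'(a / b) = (D a b - a D b) / b²` (well defined), or as in `exists_DK` (DK.lean: Kaehler differentials; use `j.toAlgebra`, which makes `L` a fraction ring of `B`).
* `exists_dsL`: `der_ext` for `dsP M`. `D ∘ DZ - DZ ∘ D` is a derivation of `N(t)` vanishing on all `jL a` (`dsP (dtP a) = dtP (dsP a)`, coefficientwise), so it is 0 (on quotients).
* `Cmp x y`: `jL b * x = jL a`, `jR b * y = jR a`, `b ≠ 0`. Sums: `b = b₁ b₂`, `a = a₁ b₂ + a₂ b₁`; products; `Cmp_der`: from `b x = a`: `b D x = D a - (D b) x`, so `b² (D x) = b D a - (D b) a`, and the same in `R = M(t)[[s]]` (`dsR_jR`, `dtR_jR`). `Cmp_zero`: `Cmp 0 y` implies `y = 0` (`jR a = 0` as `a = 0` by injectivity, `jR b ≠ 0` by `jR_injective`, `R` is a domain).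
* `Cmp_div`: `b ≠ 0`, `constantCoeff (jR b) ≠ 0`: `jR b * (jR a * (jR b)⁻¹) = jR a` (`PowerSeries.mul_inv_cancel`).
-/

set_option autoImplicit false

namespace MPadcHM

open MvPolynomial MPadcLP

universe u

variable {M N : Type u} [Field M] [Field N] [Algebra (PowerSeries M) N]
  [IsFractionRing (PowerSeries M) N]

omit [IsFractionRing (PowerSeries M) N] in
private theorem isoka_apply (a : Polynomial (PowerSeries M)) :
    jL M N a = algebraMap (Polynomial N) (RatFunc N)
      (a.map (algebraMap (PowerSeries M) N)) := rfl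

theorem jL_injective : Function.Injective (jL M N) := by
  intro a b h
  rw [isoka_apply, isoka_apply] at h
  exact Polynomial.map_injective _ (IsFractionRing.injective (PowerSeries M) N)
    (RatFunc.algebraMap_injective N h)

private theorem isoka_int (p : Polynomial N) : ∃ (P : Polynomial (PowerSeries M))
    (b : PowerSeries M), b ≠ 0 ∧ (p ≠ 0 → P ≠ 0) ∧
      P.map (algebraMap (PowerSeries M) N) = Polynomial.C (algebraMap (PowerSeries M) N b) * p := by
  obtain ⟨b, hb, h⟩ := IsLocalization.integerNormalization_spec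
    (nonZeroDivisors (PowerSeries M)) p
  refine ⟨IsLocalization.integerNormalization (nonZeroDivisors (PowerSeries M)) p, b,
    nonZeroDivisors.ne_zero hb, fun hp h0 => hp ?_, ?_⟩
  · exact (IsLocalization.integerNormalization_eq_zero_iff le_rfl p).1 h0
  · rw [h, Algebra.smul_def]
    rfl

theorem jL_surj (x : RatFunc N) : ∃ a b : Polynomial (PowerSeries M), b ≠ 0 ∧
    jL M N b * x = jL M N a := by
  obtain ⟨p, q, hq, hx⟩ := IsFractionRing.div_surjective (Polynomial N) x
  have hq0 : q ≠ 0 := nonZeroDivisors.ne_zero hq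
  obtain ⟨P, b, hb, -, hP⟩ := isoka_int (M := M) p
  obtain ⟨Q, c, hc, hQ0, hQ⟩ := isoka_int (M := M) q
  refine ⟨Polynomial.C c * P, Polynomial.C b * Q,
    mul_ne_zero (fun h => hb (Polynomial.C_eq_zero.1 h)) (hQ0 hq0), ?_⟩
  have hq1 : algebraMap (Polynomial N) (RatFunc N) q ≠ 0 := fun h =>
    hq0 (RatFunc.algebraMap_injective N (by rw [h, map_zero]))
  rw [isoka_apply, isoka_apply, Polynomial.map_mul, Polynomial.map_mul, hP, hQ,
    Polynomial.map_C, Polynomial.map_C, map_mul, map_mul, map_mul, map_mul, ← hx]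
  field_simp

theorem jL_frac : @IsFractionRing (Polynomial (PowerSeries M)) _ (RatFunc N) _
    (jL M N).toAlgebra := by
  let _ : Algebra (Polynomial (PowerSeries M)) (RatFunc N) := (jL M N).toAlgebra
  have hne : ∀ b : Polynomial (PowerSeries M), b ≠ 0 → jL M N b ≠ 0 := fun b hb h =>
    hb (jL_injective (N := N) (by rw [h, map_zero]))
  refine ⟨fun y => ?_, fun z => ?_, fun {a b} h => ⟨1, ?_⟩⟩
  · exact (hne _ (nonZeroDivisors.ne_zero y.2)).isUnit
  · obtain ⟨a, b, hb, h⟩ := jL_surj (M := M) z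
    refine ⟨(a, ⟨b, mem_nonZeroDivisors_of_ne_zero hb⟩), ?_⟩
    show z * jL M N b = jL M N a
    rw [mul_comm]
    exact h
  · rw [jL_injective (N := N) h]

theorem DZ_jL (a : Polynomial (PowerSeries M)) :
    DZ N (jL M N a) = jL M N (dtP (PowerSeries M) a) := by
  rw [isoka_apply, isoka_apply, dtP_apply, ← Polynomial.derivative_map, DZ_apply, DK_poly]

private theorem isokb_nat {B : Type*} [CommRing B] (D : Der B) (c : B) (k : ℕ) :
    D (c * ((k : B) + 1)) = D c * ((k : B) + 1) := by
  rw [Derivation.leibniz, smul_eq_mul, smul_eq_mul, map_add, Derivation.map_natCast,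
    Derivation.map_one_eq_zero, add_zero, mul_zero, zero_add, mul_comm]

private theorem isokb_wd {B L : Type*} [CommRing B] [Field L] (j : B →+* L)
    (hj : Function.Injective j) (D : Der B) (x : L) (a b c e : B) (hb : b ≠ 0) (he : e ≠ 0)
    (h1 : j b * x = j a) (h2 : j e * x = j c) :
    (j (D a) - j (D b) * x) / j b = (j (D c) - j (D e) * x) / j e := by
  have hb' : j b ≠ 0 := by
    rw [Ne, ← map_zero j]
    exact fun h => hb (hj h)
  have he' : j e ≠ 0 := by
    rw [Ne, ← map_zero j]
    exact fun h => he (hj h)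
  have h3 : a * e = c * b := by
    apply hj
    rw [map_mul, map_mul, ← h1, ← h2]
    ring
  have h4 := congrArg (fun z => j (D z)) h3
  simp only [Derivation.leibniz, smul_eq_mul, map_add, map_mul] at h4
  rw [div_eq_div_iff hb' he']
  rw [← h1, ← h2] at h4
  linear_combination h4

theorem der_ext {B L : Type*} [CommRing B] [IsDomain B] [Field L] (j : B →+* L)
    (hj : Function.Injective j) (hs : ∀ x : L, ∃ a b, b ≠ 0 ∧ j b * x = j a) (D : Der B) :
    ∃ D' : Der L, ∀ a, D' (j a) = j (D a) := by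
  classical
  have h0 : ∀ b : B, b ≠ 0 → j b ≠ 0 := fun b hb h => hb (hj (by rw [h, map_zero]))
  choose A B' hB hAB using hs
  set d : L → L := fun x => (j (D (A x)) - j (D (B' x)) * x) / j (B' x) with hd
  have key : ∀ (x : L) (a b : B), b ≠ 0 → j b * x = j a →
      j b * d x = j (D a) - j (D b) * x := by
    intro x a b hb h
    have h1 := isokb_wd j hj D x a b (A x) (B' x) hb (hB x) h (hAB x)
    simp only [hd]
    rw [← h1, mul_div_cancel₀ _ (h0 b hb)]
  have hz : d 0 = 0 := by
    have h1 := key 0 0 1 one_ne_zero (by simp)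
    simpa using h1
  have hadd : ∀ x y, d (x + y) = d x + d y := by
    intro x y
    have kx := key x _ _ (hB x) (hAB x)
    have ky := key y _ _ (hB y) (hAB y)
    have hne : B' x * B' y ≠ 0 := mul_ne_zero (hB x) (hB y)
    have kxy := key (x + y) (A x * B' y + A y * B' x) (B' x * B' y) hne (by
      rw [map_mul, map_add, map_mul, map_mul, ← hAB x, ← hAB y]; ring)
    refine mul_left_cancel₀ (h0 _ hne) ?_
    rw [kxy]
    simp only [Derivation.leibniz, smul_eq_mul, map_add, map_mul]
    rw [← hAB x, ← hAB y]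
    linear_combination (- j (B' y)) * kx - j (B' x) * ky
  have hmul : ∀ x y, d (x * y) = x * d y + y * d x := by
    intro x y
    have kx := key x _ _ (hB x) (hAB x)
    have ky := key y _ _ (hB y) (hAB y)
    have hne : B' x * B' y ≠ 0 := mul_ne_zero (hB x) (hB y)
    have kxy := key (x * y) (A x * A y) (B' x * B' y) hne (by
      rw [map_mul, map_mul, ← hAB x, ← hAB y]; ring)
    refine mul_left_cancel₀ (h0 _ hne) ?_
    rw [kxy]
    simp only [Derivation.leibniz, smul_eq_mul, map_add, map_mul]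
    rw [← hAB x, ← hAB y]
    linear_combination (- (j (B' y) * y)) * kx - (j (B' x) * x) * ky
  refine ⟨toDer ⟨⟨d, hz⟩, hadd⟩ hmul, fun a => ?_⟩
  show d (j a) = j (D a)
  have h1 := key (j a) a 1 one_ne_zero (by simp)
  simpa using h1

theorem exists_dsL : ∃ D : Der (RatFunc N), (∀ a, D (jL M N a) = jL M N (dsP M a)) ∧
    ∀ x, D (DZ N x) = DZ N (D x) := by
  obtain ⟨D, hD⟩ := der_ext (jL M N) jL_injective jL_surj (dsP M)
  refine ⟨D, hD, fun x => ?_⟩
  have hc : ∀ a : Polynomial (PowerSeries M),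
      dsP M (dtP (PowerSeries M) a) = dtP (PowerSeries M) (dsP M a) := by
    intro a
    ext1 k
    show (polyDer (dsR M) (dtP (PowerSeries M) a)).coeff k =
      (dtP (PowerSeries M) (polyDer (dsR M) a)).coeff k
    rw [coeff_polyDer, dtP_apply, dtP_apply, Polynomial.coeff_derivative,
      Polynomial.coeff_derivative, coeff_polyDer]
    exact isokb_nat (dsR M) _ k
  have hE : ∀ a : Polynomial (PowerSeries M), D (DZ N (jL M N a)) = DZ N (D (jL M N a)) := by
    intro a
    rw [DZ_jL, hD, hD, DZ_jL, hc]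
  obtain ⟨a, b, hb, hab⟩ := jL_surj (M := M) (N := N) x
  have hb' : jL M N b ≠ 0 := fun h => hb (jL_injective (M := M) (N := N) (by rw [h, map_zero]))
  have h1 := hE a
  rw [← hab] at h1
  simp only [Derivation.leibniz, smul_eq_mul, map_add] at h1
  have h2 := hE b
  refine mul_left_cancel₀ hb' ?_
  rw [h2] at h1
  linear_combination h1

theorem Cmp_jL (a : Polynomial (PowerSeries M)) : Cmp (jL M N a) (jR M a) := by
  exact ⟨a, 1, one_ne_zero, by rw [map_one, one_mul], by rw [map_one, one_mul]⟩

theorem Cmp_add {x x' : RatFunc N} {y y' : PowerSeries (RatFunc M)} (h : Cmp x y)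
    (h' : Cmp x' y') : Cmp (x + x') (y + y') := by
  obtain ⟨a, b, hb, h1, h2⟩ := h
  obtain ⟨a', b', hb', h1', h2'⟩ := h'
  refine ⟨a * b' + a' * b, b * b', mul_ne_zero hb hb', ?_, ?_⟩
  · simp only [map_add, map_mul]
    linear_combination (jL M N b') * h1 + (jL M N b) * h1'
  · simp only [map_add, map_mul]
    linear_combination (jR M b') * h2 + (jR M b) * h2'

theorem Cmp_mul {x x' : RatFunc N} {y y' : PowerSeries (RatFunc M)} (h : Cmp x y)
    (h' : Cmp x' y') : Cmp (x * x') (y * y') := by
  obtain ⟨a, b, hb, h1, h2⟩ := h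
  obtain ⟨a', b', hb', h1', h2'⟩ := h'
  refine ⟨a * a', b * b', mul_ne_zero hb hb', ?_, ?_⟩
  · simp only [map_mul]
    linear_combination (jL M N b' * x') * h1 + (jL M N a) * h1'
  · simp only [map_mul]
    linear_combination (jR M b' * y') * h2 + (jR M a) * h2'

theorem Cmp_neg {x : RatFunc N} {y : PowerSeries (RatFunc M)} (h : Cmp x y) :
    Cmp (-x) (-y) := by
  obtain ⟨a, b, hb, h1, h2⟩ := h
  refine ⟨-a, b, hb, ?_, ?_⟩
  · rw [map_neg, ← h1, mul_neg]
  · rw [map_neg, ← h2, mul_neg]

private theorem isokc_int {x : RatFunc N} {y : PowerSeries (RatFunc M)}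
    (k : Polynomial (PowerSeries M)) (hk : jL M N k = x) (hk' : jR M k = y) : Cmp x y := by
  rw [← hk, ← hk']
  exact Cmp_jL k

theorem Cmp_sum {α : Type*} (s : Finset α) {x : α → RatFunc N}
    {y : α → PowerSeries (RatFunc M)} (h : ∀ i ∈ s, Cmp (x i) (y i)) :
    Cmp (∑ i ∈ s, x i) (∑ i ∈ s, y i) := by
  classical
  induction s using Finset.induction_on with
  | empty =>
    rw [Finset.sum_empty, Finset.sum_empty]
    exact isokc_int 0 (map_zero _) (map_zero _)
  | insert i s hi ih =>
    rw [Finset.sum_insert hi, Finset.sum_insert hi]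
    exact Cmp_add (h i (Finset.mem_insert_self i s))
      (ih fun j hj => h j (Finset.mem_insert_of_mem hj))

private theorem isokc_prod {α : Type*} (s : Finset α) {x : α → RatFunc N}
    {y : α → PowerSeries (RatFunc M)} (h : ∀ i ∈ s, Cmp (x i) (y i)) :
    Cmp (∏ i ∈ s, x i) (∏ i ∈ s, y i) := by
  classical
  induction s using Finset.induction_on with
  | empty =>
    rw [Finset.prod_empty, Finset.prod_empty]
    exact isokc_int 1 (map_one _) (map_one _)
  | insert i s hi ih =>
    rw [Finset.prod_insert hi, Finset.prod_insert hi]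
    exact Cmp_mul (h i (Finset.mem_insert_self i s))
      (ih fun j hj => h j (Finset.mem_insert_of_mem hj))

theorem Cmp_det {α : Type*} [Fintype α] [DecidableEq α] {x : Matrix α α (RatFunc N)}
    {y : Matrix α α (PowerSeries (RatFunc M))} (h : ∀ i j, Cmp (x i j) (y i j)) :
    Cmp x.det y.det := by
  rw [Matrix.det_apply', Matrix.det_apply']
  refine Cmp_sum _ fun σ _ => Cmp_mul ?_ (isokc_prod _ fun i _ => h _ _)
  exact isokc_int ((Equiv.Perm.sign σ : ℤ) : Polynomial (PowerSeries M)) (map_intCast _ _)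
    (map_intCast _ _)

theorem Cmp_zero {y : PowerSeries (RatFunc M)} (h : Cmp (0 : RatFunc N) y) : y = 0 := by
  obtain ⟨a, b, hb, h1, h2⟩ := h
  have ha : a = 0 := by
    apply jL_injective (M := M) (N := N)
    rw [← h1, mul_zero, map_zero]
  rw [ha, map_zero] at h2
  rcases mul_eq_zero.1 h2 with h3 | h3
  · exfalso
    apply hb
    apply jR_injective (M := M)
    rw [h3, map_zero]
  · exact h3

theorem Cmp_div (a b : Polynomial (PowerSeries M))
    (hb : PowerSeries.constantCoeff (jR M b) ≠ 0) :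
    Cmp (jL M N a / jL M N b) (jR M a * (jR M b)⁻¹) := by
  have hb0 : b ≠ 0 := by
    rintro rfl
    rw [map_zero, map_zero] at hb
    exact hb rfl
  have hL : jL M N b ≠ 0 := by
    intro h
    apply hb0
    apply jL_injective (M := M) (N := N)
    rw [h, map_zero]
  refine ⟨a, b, hb0, mul_div_cancel₀ _ hL, ?_⟩
  rw [mul_left_comm, PowerSeries.mul_inv_cancel _ hb, mul_one]

private theorem isokc_der {R : Type*} [CommRing R] (D : Der R) {a b x : R} (h : b * x = a) :
    (b * b) * D x = b * D a - a * D b := by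
  rw [← h, Derivation.leibniz, smul_eq_mul, smul_eq_mul]
  ring

theorem Cmp_dt {x : RatFunc N} {y : PowerSeries (RatFunc M)} (h : Cmp x y) :
    Cmp (DZ N x) (dtR M y) := by
  obtain ⟨a, b, hb, h1, h2⟩ := h
  refine ⟨b * dtP (PowerSeries M) a - a * dtP (PowerSeries M) b, b * b, mul_ne_zero hb hb, ?_, ?_⟩
  · rw [map_mul, isokc_der (DZ N) h1, DZ_jL, DZ_jL, map_sub, map_mul, map_mul]
  · rw [map_mul, isokc_der (dtR M) h2, dtR_jR, dtR_jR, map_sub, map_mul, map_mul]

theorem Cmp_ds (D : Der (RatFunc N)) (hD : ∀ a, D (jL M N a) = jL M N (dsP M a))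
    {x : RatFunc N} {y : PowerSeries (RatFunc M)} (h : Cmp x y) :
    Cmp (D x) (dsR (RatFunc M) y) := by
  obtain ⟨a, b, hb, h1, h2⟩ := h
  refine ⟨b * dsP M a - a * dsP M b, b * b, mul_ne_zero hb hb, ?_, ?_⟩
  · rw [map_mul, isokc_der D h1, hD, hD, map_sub, map_mul, map_mul]
  · rw [map_mul, isokc_der (dsR (RatFunc M)) h2, dsR_jR, dsR_jR, map_sub, map_mul, map_mul]

end MPadcHM
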