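import Pool.Agent.Lib.MP_adc574_ag_HM.IsoDefs
import Pool.Agent.Lib.MP_adc574_ag_HM.MilDefs

/-!
# The isomonodromic deformation `φ + s θ`: definitions

`M` a field of characteristic 0, `A = M[[s]]` (`PowerSeries M`, `s = X`), `N` its fraction field, `jL : A[t] → N(t)`.
-/

set_option autoImplicit false

namespace MPadcHM

open MvPolynomial MPadcLP

universe u

theorem coeff_cder {B : Type*} [CommRing B] {n : ℕ} (D : Der B) (P : MvPolynomial (Fin n) B)
    (m : Fin n →₀ ℕ) : coeff m (cder D P) = D (coeff m P) := by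
  classical
  unfold cder
  rw [coeff_sum]
  simp only [coeff_monomial]
  rw [Finset.sum_ite_eq' P.support m (fun e => D (coeff e P))]
  by_cases h : m ∈ P.support
  · rw [if_pos h]
  · rw [if_neg h]
    rw [MvPolynomial.notMem_support_iff] at h
    rw [h, map_zero]

/-- The coefficientwise derivation of `B[x]`. -/
noncomputable def mD {B : Type*} [CommRing B] (n : ℕ) (D : Der B) :
    Der (MvPolynomial (Fin n) B) :=
  toDer ⟨⟨fun P => cder D P, by
    ext m
    rw [coeff_cder, coeff_zero, map_zero]⟩, fun P Q => by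
    ext m
    show coeff m (cder D (P + Q)) = coeff m (cder D P + cder D Q)
    rw [coeff_cder, coeff_add, coeff_add, map_add, coeff_cder, coeff_cder]⟩ fun P Q => by
    ext m
    show coeff m (cder D (P * Q)) = coeff m (P * cder D Q + Q * cder D P)
    have h1 : Q * cder D P = cder D P * Q := mul_comm _ _
    rw [coeff_cder, coeff_add, h1, coeff_mul, map_sum, coeff_mul, coeff_mul,
      ← Finset.sum_add_distrib]
    refine Finset.sum_congr rfl fun x _ => ?_
    rw [Derivation.leibniz, coeff_cder, coeff_cder, smul_eq_mul, smul_eq_mul,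
      mul_comm (coeff x.2 Q)]

theorem coeff_mD {B : Type*} [CommRing B] {n : ℕ} (D : Der B) (P : MvPolynomial (Fin n) B)
    (m : Fin n →₀ ℕ) : coeff m (mD n D P) = D (coeff m P) := coeff_cder D P m

/-- `φ + s θ`. -/
noncomputable def phs {M : Type u} [Field M] {n : ℕ} (φ θ : MvPolynomial (Fin n) M) :
    MvPolynomial (Fin n) (PowerSeries M) :=
  φ.map PowerSeries.C + C PowerSeries.X * θ.map PowerSeries.C

/-- `P = ∑ u ∈ U, a_u(φ) x^u + z(A)`. -/
def Rep {B : Type*} [CommRing B] {n : ℕ} (U : Finset (Fin n →₀ ℕ))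
    (φ P : MvPolynomial (Fin n) B) (a : U → Polynomial B) : Prop :=
  ∃ A : Fin n → Fin n → MvPolynomial (Fin n) B, Asym A ∧
    P = ∑ u : U, Polynomial.aeval φ (a u) * monomial (u : Fin n →₀ ℕ) 1 +
      zz A fun j => pderiv j φ

/-- `M[[s]][t] → N(t)`, `N` the fraction field of `M[[s]]`. -/
noncomputable def jL (M N : Type u) [Field M] [Field N] [Algebra (PowerSeries M) N] :
    Polynomial (PowerSeries M) →+* RatFunc N :=
  (algebraMap (Polynomial N) (RatFunc N)).comp
    (Polynomial.mapRingHom (algebraMap (PowerSeries M) N))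

/-- Related elements of `N(t)` and `M(t)[[s]]`. -/
def Cmp {M N : Type u} [Field M] [Field N] [Algebra (PowerSeries M) N] (x : RatFunc N)
    (y : PowerSeries (RatFunc M)) : Prop :=
  ∃ a b : Polynomial (PowerSeries M), b ≠ 0 ∧ jL M N b * x = jL M N a ∧ jR M b * y = jR M a

/-- The data of the deformation `φ + s θ` of `φ`: `δ` annihilates `φ + s θ` and `v(φ + s θ) = θ`
in the Jacobian algebra. -/
structure Defo (M : Type u) [Field M] (n : ℕ) where
  S : Dat M n
  θ : MvPolynomial (Fin n) M
  U : Finset (Fin n →₀ ℕ)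
  δ : Polynomial (PowerSeries M)
  v : Polynomial (PowerSeries M)
  q : Fin n → MvPolynomial (Fin n) (PowerSeries M)
  r : Fin n → MvPolynomial (Fin n) (PowerSeries M)

/-- The polynomial `φ + s θ`. -/
noncomputable def Defo.f {M : Type u} [Field M] {n : ℕ} (D : Defo M n) :
    MvPolynomial (Fin n) (PowerSeries M) := phs D.S.φ D.θ

structure Defo.Ok {M : Type u} [Field M] {n : ℕ} (D : Defo M n) : Prop where
  ok : D.S.Ok
  deg : ∀ e ∈ D.θ.support, wt D.S.w e < D.S.d
  mb : IsMB D.S.w (part D.S.w D.S.d D.S.φ) D.U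
  monic : D.δ.Monic
  red : D.S.δ = D.δ.map (PowerSeries.constantCoeff (R := M))
  ann : Polynomial.aeval D.f D.δ = ∑ i, D.q i * pderiv i D.f
  vec : Polynomial.aeval D.f D.v - D.θ.map PowerSeries.C = ∑ i, D.r i * pderiv i D.f
  dvd : D.δ ∣ dsP M D.δ + D.v * dtP (PowerSeries M) D.δ

end MPadcHM
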