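import Pool.Agent.Lib.MP_adc574_ag_HM.IsoKDefs
import Pool.Agent.Lib.MP_adc574_ag_HM.MilC
import Pool.Agent.Lib.MP_adc574_ag_HM.WA

/-!
# JOB IsoL: coordinates in the Milnor basis

`co : H ≃ (U → κ(t))` the coordinates in the basis `br x^u`, `u ∈ U`.
* `Rep_map`: apply `MvPolynomial.map f` to the identity (`f` commutes with `pderiv`, `aeval`: `(aeval φ a).map f = aeval (φ.map f) (a.map f)`; `zz` maps to `zz`; `Asym` is preserved).
* `Rep_exists`: `mb_gen` (take `N` a bound for the weights of the monomials of `P`).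
* `exists_co`: `h_gen` (with some `nab`, `exists_nab`; every element of `HH` is a `κ(t)`-combination of the `br P`: `IsGM.span`) and `h_ind` give a basis of `HH S.fK` indexed by `U` (`Basis.mk`), `co = Basis.equivFun`.
* `br_aeval`: `br (aeval φ a * P) = algebraMap a • br P` (`hG.mul`, induction on `a`: see `finab_pow`, `finab_aeval` in FinA for the pattern). `br_jac`: `nab (br (∑ q_i ∂_i φ)) = br (dvg q)` (`hG.exa`, sum).
* `co_rep`: `br P = ∑ u, algebraMap (a u) • br x^u` (`br_aeval`, `hG.lev`).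
* `co_nab_br`: `nab (br (aeval φ δ * P)) = nab (∑ i, br (q_i P ∂_i φ)) = br (dvg (q P))`, and `= nab (δ(t) • br P) = δ'(t) • br P + δ(t) • nab (br P)` (`hG.leib`, `DK_poly`), so `δ(t) • nab (br P) = br (dvg (q P) - δ'(φ) P)`, and `co_rep`.
* `co_nab`: `h = ∑ (co h) u • br x^u`; `nab (a • y) = DK a • y + a • nab y`; `co_nab_br` with `P = x^u`.
* `co_InW`: the coefficients in `InW` are the coordinates (`hco`, linearity), restricted to `U`.
* `co_deg`: `br P ∈ W_q` (`InW_br`), `X • nab (br P) - (q/d) • br P ∈ W_{q-1}` (`InW_theta`), so `X • nab (br P) ∈ W_q` (`InW_mono`, `InW_smul`, `InW_add`), `nab (br P) = X⁻¹ • ..∈ W_{q-d}` (`InW_mul` with `Bd d (-d) X⁻¹`: `intDegree X⁻¹ = -1`), `co_InW`. The hypothesis `hgen` of the WA lemmas is the conclusion of `h_gen`.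
-/

set_option autoImplicit false

namespace MPadcHM

open MvPolynomial MPadcLP

universe u

private theorem isola_aeval {B B' : Type*} [CommRing B] [CommRing B'] {n : ℕ} (f : B →+* B')
    (φ : MvPolynomial (Fin n) B) (a : Polynomial B) :
    MvPolynomial.map f (Polynomial.aeval φ a) =
      Polynomial.aeval (MvPolynomial.map f φ) (Polynomial.map f a) := by
  rw [Polynomial.aeval_def, Polynomial.aeval_def, Polynomial.hom_eval₂, Polynomial.eval₂_map]
  have h : (MvPolynomial.map (σ := Fin n) f).comp (algebraMap B (MvPolynomial (Fin n) B)) =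
      (algebraMap B' (MvPolynomial (Fin n) B')).comp f := by
    ext x
    rw [RingHom.comp_apply, RingHom.comp_apply, MvPolynomial.algebraMap_eq,
      MvPolynomial.algebraMap_eq, MvPolynomial.map_C]
  rw [h]

private theorem isola_zz {B B' : Type*} [CommRing B] [CommRing B'] {n : ℕ} (f : B →+* B')
    (A : Fin n → Fin n → MvPolynomial (Fin n) B) (φ : MvPolynomial (Fin n) B) :
    MvPolynomial.map f (zz A fun j => pderiv j φ) =
      zz (fun i j => MvPolynomial.map f (A i j)) fun j => pderiv j (MvPolynomial.map f φ) := by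
  unfold zz
  rw [map_sum]
  refine Finset.sum_congr rfl fun j _ => ?_
  rw [map_mul, map_sum]
  simp only [pderiv_map]

theorem Rep_map {B B' : Type*} [CommRing B] [CommRing B'] {n : ℕ} {U : Finset (Fin n →₀ ℕ)}
    {φ P : MvPolynomial (Fin n) B} {a : U → Polynomial B} (f : B →+* B') (h : Rep U φ P a) :
    Rep U (φ.map f) (P.map f) fun u => (a u).map f := by
  obtain ⟨A, hA, hP⟩ := h
  refine ⟨fun i j => MvPolynomial.map f (A i j), ⟨fun i => ?_, fun i j => ?_⟩, ?_⟩
  · show MvPolynomial.map f (A i i) = 0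
    rw [hA.1 i, map_zero]
  · show MvPolynomial.map f (A i j) = - MvPolynomial.map f (A j i)
    rw [hA.2 i j, map_neg]
  · rw [hP, map_add, map_sum, isola_zz]
    congr 1
    refine Finset.sum_congr rfl fun u _ => ?_
    rw [map_mul, isola_aeval, map_monomial, map_one f]

theorem Rep_exists {κ B : Type*} [Field κ] [CharZero κ] {n : ℕ} (hn : 2 ≤ n) (w : Fin n → ℕ)
    (hw : ∀ i, 0 < w i) (d : ℕ) (hd : 0 < d) (g : MvPolynomial (Fin n) κ) (hg : Hom w d g)
    (U : Finset (Fin n →₀ ℕ)) (hU : IsMB w g U) [CommRing B] [Algebra κ B]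
    (φ : MvPolynomial (Fin n) B)
    (hφ : ∀ e ∈ (φ - g.map (algebraMap κ B)).support, wt w e < d)
    (P : MvPolynomial (Fin n) B) : ∃ a : U → Polynomial B, Rep U φ P a := by
  classical
  obtain ⟨a, A, hA, -, hP⟩ := mb_gen hn w hw d hd g hg U hU φ hφ P (P.support.sup (wt w))
    (fun e he => Finset.le_sup (f := wt w) he)
  refine ⟨fun u => a u, A, hA, ?_⟩
  rw [Finset.sum_coe_sort U (fun u => Polynomial.aeval φ (a u) * monomial u 1)]
  exact hP

private theorem isola_weight {n : ℕ} (w : Fin n → ℕ) (e : Fin n →₀ ℕ) :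
    Finsupp.weight w e = wt w e := by
  rw [Finsupp.weight_apply, Finsupp.sum_fintype _ _ (fun i => by simp)]
  unfold wt
  exact Finset.sum_congr rfl fun i _ => by rw [smul_eq_mul, mul_comm]

private theorem isola_coeff {κ : Type*} [Field κ] {n : ℕ} (w : Fin n → ℕ) (N : ℕ)
    (P : MvPolynomial (Fin n) κ) (e : Fin n →₀ ℕ) :
    coeff e (part w N P) = if wt w e = N then coeff e P else 0 := by
  rw [part, coeff_weightedHomogeneousComponent, isola_weight]

/-- every class is a combination of the classes of the `x^u` -/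
private theorem isola_span {κ : Type u} [Field κ] [CharZero κ] {n : ℕ} (hn : 2 ≤ n) (S : Dat κ n)
    (hS : S.Ok) (U : Finset (Fin n →₀ ℕ)) (hU : IsMB S.w (part S.w S.d S.φ) U)
    (P : MvPolynomial (Fin n) (RatFunc κ)) :
    ∃ c : U → RatFunc κ, (Zmod S.fK).mkQ P =
      ∑ u : U, c u • S.br (monomial (u : Fin n →₀ ℕ) 1) := by
  have hg : Hom S.w S.d (part S.w S.d S.φ) := by
    intro e he
    rw [mem_support_iff, isola_coeff] at he
    by_contra h
    exact he (if_neg h)
  have hφ : ∀ e ∈ (S.fK - (part S.w S.d S.φ).map (algebraMap κ (RatFunc κ))).support,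
      wt S.w e < S.d := by
    intro e he
    rw [mem_support_iff, coeff_sub, coeff_map, isola_coeff] at he
    unfold Dat.fK at he
    rw [coeff_sub, coeff_map, coeff_C] at he
    by_cases h0 : (0 : Fin n →₀ ℕ) = e
    · rw [← h0]
      have h1 : wt S.w (0 : Fin n →₀ ℕ) = 0 := by
        unfold wt
        exact Finset.sum_eq_zero fun i _ => by rw [Finsupp.zero_apply, mul_zero]
      rw [h1]
      exact hS.d_pos
    · rw [if_neg h0, sub_zero] at he
      by_cases h : wt S.w e = S.d
      · rw [if_pos h, sub_self] at he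
        exact absurd rfl he
      · rw [if_neg h, map_zero, sub_zero] at he
        have h1 : coeff e S.φ ≠ 0 := by
          intro h2
          rw [h2, map_zero] at he
          exact he rfl
        exact lt_of_le_of_ne (hS.deg e (mem_support_iff.2 h1)) h
  obtain ⟨a, A, hA, hP⟩ := Rep_exists hn S.w hS.w_pos S.d hS.d_pos (part S.w S.d S.φ) hg U hU
    S.fK hφ P
  refine ⟨fun u => (a u).coeff 0, ?_⟩
  have h1 : (Zmod S.fK).mkQ (zz A fun j => pderiv j S.fK) = 0 := by
    rw [Submodule.mkQ_apply, Submodule.Quotient.mk_eq_zero]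
    exact ⟨A, 0, hA, by rw [zero_mul, add_zero]⟩
  have h2 : ∀ (b : Polynomial (RatFunc κ)) (Q : MvPolynomial (Fin n) (RatFunc κ)),
      (Zmod S.fK).mkQ (Polynomial.aeval S.fK b * Q) = b.coeff 0 • (Zmod S.fK).mkQ Q := by
    intro b Q
    rw [← map_smul, ← sub_eq_zero, ← map_sub, Submodule.mkQ_apply,
      Submodule.Quotient.mk_eq_zero]
    refine ⟨fun _ _ => 0, Polynomial.aeval S.fK b.divX * Q, ⟨fun _ => rfl, fun _ _ => by simp⟩, ?_⟩
    have h3 : (zz (fun _ _ => (0 : MvPolynomial (Fin n) (RatFunc κ))) fun j => pderiv j S.fK) = 0 := by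
      unfold zz
      refine Finset.sum_eq_zero fun j _ => ?_
      rw [Finset.sum_eq_zero fun i _ => map_zero _, zero_mul]
    have h4 : Polynomial.aeval S.fK b = Polynomial.aeval S.fK b.divX * S.fK + C (b.coeff 0) := by
      have h5 := congrArg (Polynomial.aeval S.fK) (Polynomial.divX_mul_X_add b)
      rw [map_add, map_mul, Polynomial.aeval_X, Polynomial.aeval_C,
        MvPolynomial.algebraMap_eq] at h5
      exact h5.symm
    rw [h3, zero_add, h4, MvPolynomial.smul_eq_C_mul]
    ring
  rw [hP, map_add, h1, add_zero, map_sum]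
  refine Finset.sum_congr rfl fun u _ => ?_
  rw [h2]
  congr 1
  show _ = (Zmod S.fK).mkQ _
  rw [map_monomial, map_one (algebraMap κ (RatFunc κ))]

theorem exists_co {κ : Type u} [Field κ] [CharZero κ] {n : ℕ} (hn : 2 ≤ n) (S : Dat κ n)
    (hS : S.Ok) (U : Finset (Fin n →₀ ℕ)) (hU : IsMB S.w (part S.w S.d S.φ) U) :
    ∃ co : HH S.fK ≃ₗ[RatFunc κ] (U → RatFunc κ),
      ∀ u : U, co (S.br (monomial (u : Fin n →₀ ℕ) 1)) = Pi.single u 1 := by
  classical
  have hli : LinearIndependent (RatFunc κ)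
      (fun u : U => S.br (monomial (u : Fin n →₀ ℕ) 1)) := by
    rw [Fintype.linearIndependent_iff]
    intro g hg i
    have h1 := h_ind hn S hS U hU (fun e => if h : e ∈ U then g ⟨e, h⟩ else 0) (by
      rw [← Finset.sum_coe_sort U
        (fun u => (if h : u ∈ U then g ⟨u, h⟩ else 0) • S.br (monomial u 1)), ← hg]
      refine Finset.sum_congr rfl fun u _ => ?_
      rw [dif_pos u.2]) i i.2
    rw [dif_pos i.2] at h1
    exact h1
  have hsp : ⊤ ≤ Submodule.span (RatFunc κ)
      (Set.range fun u : U => S.br (monomial (u : Fin n →₀ ℕ) 1)) := by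
    intro x _
    obtain ⟨P, rfl⟩ := (Zmod S.fK).mkQ_surjective x
    obtain ⟨c, hc⟩ := isola_span hn S hS U hU P
    rw [hc]
    exact Submodule.sum_mem _ fun u _ => Submodule.smul_mem _ _ (Submodule.subset_span ⟨u, rfl⟩)
  refine ⟨(Module.Basis.mk hli hsp).equivFun, fun u => ?_⟩
  have h1 : S.br (monomial (u : Fin n →₀ ℕ) 1) = Module.Basis.mk hli hsp u := by
    rw [Module.Basis.mk_apply]
  rw [h1]
  ext v
  rw [Module.Basis.equivFun_self, Pi.single_apply]
  by_cases h : u = v
  · rw [if_pos h, if_pos h.symm]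
  · rw [if_neg h, if_neg (Ne.symm h)]

variable {κ : Type u} [Field κ] [CharZero κ] {n : ℕ} {S : Dat κ n} {H : Type u} [AddCommGroup H]
  [Module (RatFunc κ) H] [Module κ H] [IsScalarTower κ (RatFunc κ) H]
  {nab : H →ₗ[κ] H} {br : MvPolynomial (Fin n) κ →ₗ[κ] H} {U : Finset (Fin n →₀ ℕ)}
  (hG : IsGM S nab br) (co : H ≃ₗ[RatFunc κ] (U → RatFunc κ))
  (hco : ∀ u : U, co (br (monomial (u : Fin n →₀ ℕ) 1)) = Pi.single u 1)

include hG in
omit [CharZero κ] [IsScalarTower κ (RatFunc κ) H] in
private theorem isolc_pow (m : ℕ) (P : MvPolynomial (Fin n) κ) :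
    br (S.φ ^ m * P) = (RatFunc.X : RatFunc κ) ^ m • br P := by
  induction m with
  | zero => rw [pow_zero, pow_zero, one_mul, one_smul]
  | succ m ih => rw [pow_succ', mul_assoc, hG.mul, ih, smul_smul, ← pow_succ']

include hG in
theorem br_aeval (a : Polynomial κ) (P : MvPolynomial (Fin n) κ) :
    br (Polynomial.aeval S.φ a * P) = algebraMap (Polynomial κ) (RatFunc κ) a • br P := by
  induction a using Polynomial.induction_on' with
  | add p q hp hq => rw [map_add, add_mul, map_add, hp, hq, map_add, add_smul]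
  | monomial m c =>
    rw [Polynomial.aeval_monomial, mul_assoc, ← Algebra.smul_def, map_smul, isolc_pow hG,
      ← Polynomial.C_mul_X_pow_eq_monomial, RingHom.map_mul, RingHom.map_pow,
      RatFunc.algebraMap_X, RatFunc.algebraMap_C, ← RatFunc.algebraMap_eq_C, mul_smul,
      algebraMap_smul]

include hG in
theorem br_jac (q : Fin n → MvPolynomial (Fin n) κ) :
    nab (br (∑ i, q i * pderiv i S.φ)) = br (dvg q) := by
  rw [map_sum, map_sum]
  unfold dvg
  rw [map_sum]
  exact Finset.sum_congr rfl fun i _ => hG.exa i (q i)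

include hG hco in
theorem co_rep {P : MvPolynomial (Fin n) κ} {a : U → Polynomial κ} (h : Rep U S.φ P a) (u : U) :
    co (br P) u = algebraMap (Polynomial κ) (RatFunc κ) (a u) := by
  obtain ⟨A, hA, hP⟩ := h
  have h1 : br P = ∑ v : U, algebraMap (Polynomial κ) (RatFunc κ) (a v) •
      br (monomial (v : Fin n →₀ ℕ) 1) := by
    rw [hP, map_add, hG.lev A hA, add_zero, map_sum]
    exact Finset.sum_congr rfl fun v _ => br_aeval hG _ _
  rw [h1, map_sum, Finset.sum_apply, Finset.sum_eq_single u]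
  · rw [map_smul, hco, Pi.smul_apply, Pi.single_eq_same, smul_eq_mul, mul_one]
  · intro v _ hv
    rw [map_smul, hco, Pi.smul_apply, Pi.single_eq_of_ne (Ne.symm hv), smul_zero]
  · intro hu
    exact absurd (Finset.mem_univ u) hu

include hG hco in
theorem co_nab_br (δ : Polynomial κ) (hδ0 : δ ≠ 0) (q : Fin n → MvPolynomial (Fin n) κ)
    (hδ : Polynomial.aeval S.φ δ = ∑ i, q i * pderiv i S.φ) (P : MvPolynomial (Fin n) κ)
    {a : U → Polynomial κ} (h : Rep U S.φ ((dvg fun i => q i * P) -
      Polynomial.aeval S.φ (Polynomial.derivative δ) * P) a) (u : U) :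
    co (nab (br P)) u = algebraMap (Polynomial κ) (RatFunc κ) (a u) /
      algebraMap (Polynomial κ) (RatFunc κ) δ := by
  have hδ' : algebraMap (Polynomial κ) (RatFunc κ) δ ≠ 0 := by
    intro h0
    exact hδ0 ((map_eq_zero_iff _ (IsFractionRing.injective (Polynomial κ) (RatFunc κ))).1 h0)
  have h1 : nab (br (Polynomial.aeval S.φ δ * P)) = br (dvg fun i => q i * P) := by
    rw [hδ, Finset.sum_mul]
    have h2 : ∑ i, q i * pderiv i S.φ * P = ∑ i, (q i * P) * pderiv i S.φ :=
      Finset.sum_congr rfl fun i _ => by ring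
    rw [h2]
    exact br_jac hG fun i => q i * P
  rw [br_aeval hG, hG.leib, DK_poly, ← br_aeval hG] at h1
  have h3 : algebraMap (Polynomial κ) (RatFunc κ) δ • nab (br P) =
      br ((dvg fun i => q i * P) - Polynomial.aeval S.φ (Polynomial.derivative δ) * P) := by
    rw [map_sub, ← h1]
    abel
  have h4 := co_rep hG co hco h u
  rw [← h3, map_smul, Pi.smul_apply, smul_eq_mul] at h4
  rw [eq_div_iff hδ', mul_comm]
  exact h4

include hG hco in
theorem co_nab (δ : Polynomial κ) (hδ0 : δ ≠ 0) (q : Fin n → MvPolynomial (Fin n) κ)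
    (hδ : Polynomial.aeval S.φ δ = ∑ i, q i * pderiv i S.φ) (G : Matrix U U (Polynomial κ))
    (h : ∀ u : U, Rep U S.φ ((dvg fun i => q i * monomial (u : Fin n →₀ ℕ) 1) -
      Polynomial.aeval S.φ (Polynomial.derivative δ) * monomial (u : Fin n →₀ ℕ) 1)
        fun v => G v u) (x : H) :
    co (nab x) = conn (DZ κ) (fun i j => algebraMap (Polynomial κ) (RatFunc κ) (G i j) /
      algebraMap (Polynomial κ) (RatFunc κ) δ) (co x) := by
  have hx : x = ∑ v : U, co x v • br (monomial (v : Fin n →₀ ℕ) 1) := by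
    apply co.injective
    rw [map_sum]
    funext u
    rw [Finset.sum_apply, Finset.sum_eq_single u]
    · rw [map_smul, hco, Pi.smul_apply, Pi.single_eq_same, smul_eq_mul, mul_one]
    · intro v _ hv
      rw [map_smul, hco, Pi.smul_apply, Pi.single_eq_of_ne (Ne.symm hv), smul_zero]
    · intro hu
      exact absurd (Finset.mem_univ u) hu
  have h1 : nab x = ∑ v : U, (DK κ (co x v) • br (monomial (v : Fin n →₀ ℕ) 1) +
      co x v • nab (br (monomial (v : Fin n →₀ ℕ) 1))) := by
    conv_lhs => rw [hx]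
    rw [map_sum]
    exact Finset.sum_congr rfl fun v _ => hG.leib _ _
  funext u
  rw [h1, Finset.sum_add_distrib, map_add, Pi.add_apply]
  unfold conn
  congr 1
  · rw [map_sum, Finset.sum_apply, Finset.sum_eq_single u]
    · rw [map_smul, hco, Pi.smul_apply, Pi.single_eq_same, smul_eq_mul, mul_one]
      rfl
    · intro v _ hv
      rw [map_smul, hco, Pi.smul_apply, Pi.single_eq_of_ne (Ne.symm hv), smul_zero]
    · intro hu
      exact absurd (Finset.mem_univ u) hu
  · rw [map_sum, Finset.sum_apply]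
    refine Finset.sum_congr rfl fun v _ => ?_
    rw [map_smul, Pi.smul_apply, smul_eq_mul, co_nab_br hG co hco δ hδ0 q hδ _ (h v) u, mul_comm]

include hco in
theorem co_InW (q : ℤ) (x : H) (hx : InW S br U q x) (u : U) :
    Bd S.d (q - ((wtp S.w u : ℤ) - S.d)) (co x u) := by
  obtain ⟨a, ha, hxa⟩ := hx
  have h1 : co x u = a u := by
    rw [hxa, ← Finset.sum_coe_sort U (fun v => a v • br (monomial v 1)), map_sum,
      Finset.sum_apply]
    have h2 : ∀ v : U, co (a v • br (monomial (v : Fin n →₀ ℕ) 1)) u =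
        if u = v then a v else 0 := by
      intro v
      rw [map_smul, hco, Pi.smul_apply, Pi.single_apply, smul_eq_mul]
      by_cases h : u = v
      · rw [if_pos h, if_pos h, mul_one]
      · rw [if_neg h, if_neg h, mul_zero]
    rw [Finset.sum_congr rfl fun v _ => h2 v]
    rw [Finset.sum_ite_eq, if_pos (Finset.mem_univ u)]
  rw [h1]
  exact ha u

include hG hco in
theorem co_deg (hn : 2 ≤ n) (hS : S.Ok) (hU : IsMB S.w (part S.w S.d S.φ) U)
    (P : MvPolynomial (Fin n) κ) (q : ℤ) (hP : ∀ e ∈ P.support, (wtp S.w e : ℤ) - S.d ≤ q)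
    (u : U) : Bd S.d (q - S.d - ((wtp S.w u : ℤ) - S.d)) (co (nab (br P)) u) := by
  have hgen := fun (P : MvPolynomial (Fin n) κ) (N : ℕ) (hP : ∀ e ∈ P.support, wt S.w e ≤ N) =>
    h_gen hn hS hG U hU P N hP
  have h1 : InW S br U q (br P) := InW_br hgen P q hP
  have h2 := InW_theta hgen (by omega) hS hG q (br P) h1
  have h3 : InW S br U q ((RatFunc.X : RatFunc κ) • nab (br P)) := by
    have h4 := InW_add (InW_mono (by omega) h2) (InW_smul ((q : κ) / S.d) h1)
    rwa [sub_add_cancel] at h4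
  have h5 : Bd S.d (-(S.d : ℤ)) ((RatFunc.X : RatFunc κ)⁻¹) := by
    right
    rw [RatFunc.intDegree_inv, RatFunc.intDegree_X]
    linarith
  have h6 := InW_mul h5 h3
  rw [smul_smul, inv_mul_cancel₀ RatFunc.X_ne_zero, one_smul, ← sub_eq_add_neg] at h6
  exact co_InW co hco _ _ h6 u

end MPadcHM
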