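import Pool.Agent.Lib.MP_adc574_ag_HM.IsoL
import Pool.Agent.Lib.MP_adc574_ag_HM.IsoK
import Pool.Agent.Lib.MP_adc574_ag_HM.IsoJc
import Pool.Agent.Lib.MP_adc574_ag_HM.IsoG

/-!
# JOB IsoM: the connection matrices of the deformation

`A = M[[s]]`, `F = D.f = φ + s θ ∈ A[x]`, `Θ = D.θ.map C`. `D.Mats I`: the matrices `Gt`, `Gs`, `Dm` over `A[t]` of the isomonodromic data `I`. `N` = fraction field of `A`, `S'` a datum over `N` with polynomial `F`, `i = algebraMap A N`, `H` its Gauss-Manin module with connection `nab = ∇_t`, coordinates `co`. For `P ∈ A[x]` write `[P] = br (P.map i)`.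
* `exists_mats` (part a): `Rep_exists` (`κ = M`, `B = A`, `φ = D.f`, `g = part d φ`; `algebraMap M A = PowerSeries.C`; the monomials of `D.f - g.map C` have weight `< d`).
* `mat_t` (part a): `co (nab [x^j]) i = jL (Gt i j) / jL δ`, `mat_s`: `co (nab [Θ x^j]) i = - jL (Gs i j) / jL δ`: `Rep_map` with `algebraMap A N`, `co_nab_br` (with `δ.map`, `q` mapped; `jL a = algebraMap (a.map (algebraMap A N))` by definition, `Polynomial.derivative_map`, `dtP_apply`, `(dvg q).map = dvg (q.map)`).
* `mats_comb` (part b): `v(F) - Θ = ∑ r_i ∂_i F`, so `nab [(v(F) - Θ) x^j] = [dvg (r x^j)]` (`br_jac`), `nab [v(F) x^j] = nab (v(t) • [x^j]) = v'(t) • [x^j] + v(t) • nab [x^j]` (`br_aeval`, `hG.leib`, `DK_poly`). So `v(t) nab [x^j] - nab [Θ x^j] = [dvg (r x^j) - v'(F) x^j]`, whose coordinates are `jL (Dm i j)` (`co_rep`). With `mat_t`, `mat_s`: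
  `jL v * jL (Gt i j) + jL (Gs i j) = jL δ * jL (Dm i j)`; `jL_injective`.
* `mats_degt` (part c): `co_deg` with `P = x^j`, `q = wtp j - d`: `Bd d (q_j - d - q_i) (jL (Gt i j) / jL δ)`; `RatFunc.intDegree_div`, `intDegree_polynomial`; `natDegree` does not change under `A → N` (injective), `δ` monic. `mats_degs` (part c): `P = Θ x^j` has `wtp - d ≤ q_j + d - 1` (`hD.deg`), so `Bd d (q_j - 1 - q_i) (jL (Gs i j) / jL δ)`.
-/

set_option autoImplicit false

namespace MPadcHM

open MvPolynomial MPadcLP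

universe u

variable {M : Type u} [Field M] [CharZero M] {n : ℕ}

/-- The matrices of the deformation. -/
structure Defo.Mats (D : Defo M n) (I : IsoData M D.U) : Prop where
  d : I.d = D.S.d
  q : ∀ u : D.U, I.q u = (wtp D.S.w u : ℤ) - D.S.d
  δ : I.δ = D.δ
  v : I.v = D.v
  gt : ∀ u : D.U, Rep D.U D.f ((dvg fun i => D.q i * monomial (u : Fin n →₀ ℕ) 1) -
      Polynomial.aeval D.f (dtP _ D.δ) * monomial (u : Fin n →₀ ℕ) 1) fun v => I.Gt v u
  gs : ∀ u : D.U, Rep D.U D.f (- ((dvg fun i => D.q i *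
      (D.θ.map PowerSeries.C * monomial (u : Fin n →₀ ℕ) 1)) -
      Polynomial.aeval D.f (dtP _ D.δ) * (D.θ.map PowerSeries.C *
        monomial (u : Fin n →₀ ℕ) 1))) fun v => I.Gs v u
  dm : ∀ u : D.U, Rep D.U D.f ((dvg fun i => D.r i * monomial (u : Fin n →₀ ℕ) 1) -
      Polynomial.aeval D.f (dtP _ D.v) * monomial (u : Fin n →₀ ℕ) 1) fun v => I.Dm v u

/-- `S'` is the datum of `φ + s θ` over the fraction field `N` of `M[[s]]`. -/
structure Defo.Ext (D : Defo M n) {N : Type u} [Field N] [Algebra (PowerSeries M) N]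
    (S' : Dat N n) : Prop where
  ok : S'.Ok
  w : S'.w = D.S.w
  d : S'.d = D.S.d
  φ : S'.φ = D.f.map (algebraMap (PowerSeries M) N)

private theorem isoma_weight {n : ℕ} (w : Fin n → ℕ) (e : Fin n →₀ ℕ) :
    Finsupp.weight w e = wt w e := by
  rw [Finsupp.weight_apply, Finsupp.sum_fintype _ _ (fun i => by simp)]
  unfold wt
  exact Finset.sum_congr rfl fun i _ => by rw [smul_eq_mul, mul_comm]

private theorem isoma_coeff {κ : Type*} [Field κ] {n : ℕ} (w : Fin n → ℕ) (N : ℕ)
    (P : MvPolynomial (Fin n) κ) (e : Fin n →₀ ℕ) :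
    coeff e (part w N P) = if wt w e = N then coeff e P else 0 := by
  rw [part, coeff_weightedHomogeneousComponent, isoma_weight]

private theorem isoma_aeval {B B' : Type*} [CommRing B] [CommRing B'] {n : ℕ} (ψ : B →+* B')
    (φ : MvPolynomial (Fin n) B) (δ : Polynomial B) :
    (Polynomial.aeval φ δ).map ψ = Polynomial.aeval (φ.map ψ) (δ.map ψ) := by
  rw [Polynomial.aeval_def, Polynomial.aeval_def, Polynomial.eval₂_map, Polynomial.hom_eval₂]
  congr 1
  ext a : 1
  simp only [RingHom.comp_apply, algebraMap_eq, map_C]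

private theorem isoma_dvg {B B' : Type*} [CommRing B] [CommRing B'] {n : ℕ} (ψ : B →+* B')
    (q : Fin n → MvPolynomial (Fin n) B) :
    (dvg q).map ψ = dvg fun i => (q i).map ψ := by
  unfold dvg
  rw [map_sum]
  exact Finset.sum_congr rfl fun i _ => (pderiv_map).symm

private theorem isoma_neg {B : Type*} [CommRing B] {n : ℕ} {U : Finset (Fin n →₀ ℕ)}
    {φ P : MvPolynomial (Fin n) B} {a : U → Polynomial B} (h : Rep U φ (-P) a) :
    Rep U φ P fun u => -a u := by
  obtain ⟨A, hA, hP⟩ := h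
  refine ⟨fun i j => -A i j, ⟨fun i => by simp [hA.1 i], fun i j => by
    show -A i j = -(-A j i)
    rw [hA.2 i j]⟩, ?_⟩
  have h1 : P = -(-P) := (neg_neg P).symm
  rw [h1, hP, neg_add]
  congr 1
  · rw [← Finset.sum_neg_distrib]
    exact Finset.sum_congr rfl fun u _ => by rw [map_neg, neg_mul]
  · unfold zz
    rw [← Finset.sum_neg_distrib]
    refine Finset.sum_congr rfl fun j _ => ?_
    rw [← neg_mul, ← Finset.sum_neg_distrib]
    congr 1
    exact Finset.sum_congr rfl fun i _ => (map_neg _ _).symm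

omit [CharZero M] in
private theorem isoma_supp (D : Defo M n) (hD : D.Ok) :
    ∀ e ∈ (D.f - (part D.S.w D.S.d D.S.φ).map (algebraMap M (PowerSeries M))).support,
      wt D.S.w e < D.S.d := by
  intro e he
  by_contra hc
  rw [not_lt] at hc
  rw [MvPolynomial.mem_support_iff] at he
  apply he
  have hθ : coeff e D.θ = 0 := by
    by_contra h
    exact absurd (hD.deg e (MvPolynomial.mem_support_iff.2 h)) (not_lt.2 hc)
  have halg : ∀ c : M, algebraMap M (PowerSeries M) c = PowerSeries.C c := fun c => by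
    rw [PowerSeries.algebraMap_apply, Algebra.algebraMap_self, RingHom.id_apply]
  have h1 : coeff e D.f = PowerSeries.C (coeff e D.S.φ) := by
    unfold Defo.f phs
    rw [coeff_add, coeff_C_mul, coeff_map, coeff_map, hθ, map_zero, mul_zero, add_zero]
  rw [coeff_sub, h1, coeff_map, halg, isoma_coeff]
  rcases hc.lt_or_eq with h | h
  · have hφ : coeff e D.S.φ = 0 := by
      by_contra h2
      exact absurd (hD.ok.deg e (MvPolynomial.mem_support_iff.2 h2)) (not_le.2 h)
    rw [if_neg h.ne', hφ, map_zero, sub_zero]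
  · rw [if_pos h.symm, sub_self]

theorem exists_mats (hn : 2 ≤ n) (D : Defo M n) (hD : D.Ok) : ∃ I : IsoData M D.U, D.Mats I := by
  have hg : Hom D.S.w D.S.d (part D.S.w D.S.d D.S.φ) := by
    intro e he
    rw [MvPolynomial.mem_support_iff, isoma_coeff] at he
    by_contra h
    rw [if_neg h] at he
    exact he rfl
  have key : ∀ P : MvPolynomial (Fin n) (PowerSeries M), ∃ a : D.U → Polynomial (PowerSeries M),
      Rep D.U D.f P a := fun P =>
    Rep_exists hn D.S.w hD.ok.w_pos D.S.d hD.ok.d_pos (part D.S.w D.S.d D.S.φ) hg D.U hD.mb D.f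
      (isoma_supp D hD) P
  choose a ha using key
  exact ⟨⟨D.S.d, fun u => (wtp D.S.w u : ℤ) - D.S.d, D.δ, D.v,
    fun v u => a _ v, fun v u => a _ v, fun v u => a _ v⟩, rfl, fun _ => rfl, rfl, rfl,
    fun u => ha _, fun u => ha _, fun u => ha _⟩

/-- The polynomial with the linear functional `l` applied to the coefficients. -/
private noncomputable def isomy_L {κ κ' : Type u} [Field κ] [Field κ'] [Algebra κ κ'] {n : ℕ}
    (l : κ' →ₗ[κ] κ) (P : MvPolynomial (Fin n) κ') : MvPolynomial (Fin n) κ :=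
  ∑ e ∈ P.support, monomial e (l (coeff e P))

private theorem isomy_coeff {κ κ' : Type u} [Field κ] [Field κ'] [Algebra κ κ'] {n : ℕ}
    (l : κ' →ₗ[κ] κ) (P : MvPolynomial (Fin n) κ') (e : Fin n →₀ ℕ) :
    coeff e (isomy_L l P) = l (coeff e P) := by
  classical
  unfold isomy_L
  rw [coeff_sum]
  simp only [coeff_monomial]
  rw [Finset.sum_ite_eq']
  split_ifs with h
  · rfl
  · rw [notMem_support_iff.1 h, map_zero]

private theorem isomy_add {κ κ' : Type u} [Field κ] [Field κ'] [Algebra κ κ'] {n : ℕ}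
    (l : κ' →ₗ[κ] κ) {ι : Type*} (s : Finset ι) (P : ι → MvPolynomial (Fin n) κ') :
    isomy_L l (∑ i ∈ s, P i) = ∑ i ∈ s, isomy_L l (P i) := by
  ext e
  rw [isomy_coeff, coeff_sum, coeff_sum, map_sum]
  exact Finset.sum_congr rfl fun i _ => (isomy_coeff l (P i) e).symm

private theorem isomy_mul {κ κ' : Type u} [Field κ] [Field κ'] [Algebra κ κ'] {n : ℕ}
    (l : κ' →ₗ[κ] κ) (P : MvPolynomial (Fin n) κ') (Q : MvPolynomial (Fin n) κ) :
    isomy_L l (P * Q.map (algebraMap κ κ')) = isomy_L l P * Q := by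
  classical
  ext e
  rw [isomy_coeff, coeff_mul, coeff_mul, map_sum]
  refine Finset.sum_congr rfl fun a _ => ?_
  rw [isomy_coeff, coeff_map, mul_comm, ← Algebra.smul_def, map_smul, smul_eq_mul, mul_comm]

private theorem isomy_monomial {κ κ' : Type u} [Field κ] [Field κ'] [Algebra κ κ'] {n : ℕ}
    (l : κ' →ₗ[κ] κ) (u : Fin n →₀ ℕ) (c : κ') :
    isomy_L l (monomial u c) = monomial u (l c) := by
  classical
  ext e
  rw [isomy_coeff, coeff_monomial, coeff_monomial]
  split_ifs
  · rfl
  · rw [map_zero]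

private theorem isomy_jac {κ κ' : Type u} [Field κ] [Field κ'] [Algebra κ κ'] {n : ℕ}
    (g : MvPolynomial (Fin n) κ) (P : MvPolynomial (Fin n) κ) (hP : P ∈ Jac g) :
    P.map (algebraMap κ κ') ∈ Jac (g.map (algebraMap κ κ')) := by
  unfold Jac at hP ⊢
  rw [Ideal.mem_span_range_iff_exists_fun] at hP ⊢
  obtain ⟨c, hc⟩ := hP
  refine ⟨fun j => (c j).map (algebraMap κ κ'), ?_⟩
  rw [← hc, map_sum]
  refine Finset.sum_congr rfl fun j _ => ?_
  rw [map_mul, pderiv_map]

private theorem isomy_jac' {κ κ' : Type u} [Field κ] [Field κ'] [Algebra κ κ'] {n : ℕ}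
    (l : κ' →ₗ[κ] κ) (g : MvPolynomial (Fin n) κ) (P : MvPolynomial (Fin n) κ')
    (hP : P ∈ Jac (g.map (algebraMap κ κ'))) : isomy_L l P ∈ Jac g := by
  unfold Jac at hP ⊢
  rw [Ideal.mem_span_range_iff_exists_fun] at hP ⊢
  obtain ⟨c, hc⟩ := hP
  refine ⟨fun j => isomy_L l (c j), ?_⟩
  rw [← hc, isomy_add]
  refine Finset.sum_congr rfl fun j _ => ?_
  rw [pderiv_map, isomy_mul]

private theorem isomy_MBmap {κ κ' : Type u} [Field κ] [Field κ'] [Algebra κ κ'] {n : ℕ} (w : Fin n → ℕ)
    (g : MvPolynomial (Fin n) κ) (U : Finset (Fin n →₀ ℕ)) (hU : IsMB w g U) :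
    IsMB w (g.map (algebraMap κ κ')) U := by
  refine ⟨fun e => ?_, fun c hc u hu => ?_⟩
  · obtain ⟨c, h1, h2⟩ := hU.span e
    refine ⟨fun u => algebraMap κ κ' (c u), fun u hu => h1 u ?_, ?_⟩
    · intro h0
      apply hu
      show algebraMap κ κ' (c u) = 0
      rw [h0, map_zero]
    · have h3 := isomy_jac (κ' := κ') g _ h2
      have h4 : (monomial e (1 : κ) - ∑ u ∈ U, monomial u (c u)).map (algebraMap κ κ') =
          monomial e 1 - ∑ u ∈ U, monomial u (algebraMap κ κ' (c u)) := by
        rw [map_sub, map_sum, map_monomial, map_one]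
        congr 1
        exact Finset.sum_congr rfl fun u _ => by rw [map_monomial]
      rw [h4] at h3
      exact h3
  · rw [← Module.forall_dual_apply_eq_zero_iff κ (c u)]
    intro l
    have h1 := isomy_jac' l g _ hc
    rw [isomy_add] at h1
    simp only [isomy_monomial] at h1
    exact hU.ind (fun u => l (c u)) h1 u hu

private theorem isomy_weight {n : ℕ} (w : Fin n → ℕ) (e : Fin n →₀ ℕ) :
    Finsupp.weight w e = wt w e := by
  rw [Finsupp.weight_apply, Finsupp.sum_fintype _ _ (fun i => by simp)]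
  unfold wt
  exact Finset.sum_congr rfl fun i _ => by rw [smul_eq_mul, mul_comm]

private theorem isomy_coeff_part {R : Type*} [CommRing R] {n : ℕ} (w : Fin n → ℕ) (N : ℕ)
    (P : MvPolynomial (Fin n) R) (e : Fin n →₀ ℕ) :
    coeff e (part w N P) = if wt w e = N then coeff e P else 0 := by
  rw [part, coeff_weightedHomogeneousComponent, isomy_weight]

private theorem isomy_wt_add {n : ℕ} (w : Fin n → ℕ) (a b : Fin n →₀ ℕ) :
    wt w (a + b) = wt w a + wt w b := by
  unfold wt
  rw [← Finset.sum_add_distrib]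
  exact Finset.sum_congr rfl fun i _ => by rw [Finsupp.add_apply, mul_add]

private theorem isomy_MB {D : Defo M n} (hD : D.Ok) {N : Type u} [Field N]
    [Algebra (PowerSeries M) N] {S' : Dat N n} (hE : D.Ext S') :
    IsMB S'.w (part S'.w S'.d S'.φ) D.U := by
  let _ : Algebra M N := ((algebraMap (PowerSeries M) N).comp PowerSeries.C).toAlgebra
  have h := isomy_MBmap (κ' := N) D.S.w (part D.S.w D.S.d D.S.φ) D.U hD.mb
  rw [hE.w, hE.d, hE.φ]
  have e : part D.S.w D.S.d (D.f.map (algebraMap (PowerSeries M) N)) =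
      (part D.S.w D.S.d D.S.φ).map (algebraMap M N) := by
    ext m
    rw [isomy_coeff_part, coeff_map, coeff_map, isomy_coeff_part]
    split_ifs with hm
    · have h1 : coeff m D.f = PowerSeries.C (coeff m D.S.φ) := by
        unfold Defo.f phs
        rw [coeff_add, coeff_C_mul, coeff_map, coeff_map]
        have h2 : coeff m D.θ = 0 := by
          by_contra h3
          have h4 := hD.deg m (mem_support_iff.2 h3)
          omega
        rw [h2, map_zero, mul_zero, add_zero]
      rw [h1]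
      rfl
    · rw [map_zero]
  rw [e]
  exact h

private theorem isomy_deg {N : Type u} [Field N] [Algebra (PowerSeries M) N]
    [IsFractionRing (PowerSeries M) N] (a b : Polynomial (PowerSeries M)) (ha : a ≠ 0)
    (hb : b ≠ 0) : jL M N a / jL M N b ≠ 0 ∧
      (jL M N a / jL M N b).intDegree = (a.natDegree : ℤ) - b.natDegree := by
  have ha' : jL M N a ≠ 0 := (map_ne_zero_iff _ jL_injective).2 ha
  have hb' : jL M N b ≠ 0 := (map_ne_zero_iff _ jL_injective).2 hb
  refine ⟨div_ne_zero ha' hb', ?_⟩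
  have hi : Function.Injective (algebraMap (PowerSeries M) N) :=
    IsFractionRing.injective (PowerSeries M) N
  have h1 : ∀ p : Polynomial (PowerSeries M), (jL M N p).intDegree = (p.natDegree : ℤ) := by
    intro p
    have h2 : jL M N p = algebraMap (Polynomial N) (RatFunc N)
        (p.map (algebraMap (PowerSeries M) N)) := rfl
    rw [h2, RatFunc.intDegree_polynomial, Polynomial.natDegree_map_eq_of_injective hi]
  rw [RatFunc.intDegree_div ha' hb', h1, h1]

variable {D : Defo M n} (hD : D.Ok) {I : IsoData M D.U} (hI : D.Mats I)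
  {N : Type u} [Field N] [CharZero N] [Algebra (PowerSeries M) N]
  [IsFractionRing (PowerSeries M) N] {S' : Dat N n} (hE : D.Ext S')
  {H : Type u} [AddCommGroup H] [Module (RatFunc N) H] [Module N H] [IsScalarTower N (RatFunc N) H]
  {nab : H →ₗ[N] H} {br : MvPolynomial (Fin n) N →ₗ[N] H}
  (hG : IsGM S' nab br) (co : H ≃ₗ[RatFunc N] (D.U → RatFunc N))
  (hco : ∀ u : D.U, co (br (monomial (u : Fin n →₀ ℕ) 1)) = Pi.single u 1)

omit [CharZero M] in
include hD hI hE hG hco in
private theorem isoma_gen (P : MvPolynomial (Fin n) (PowerSeries M))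
    {a : D.U → Polynomial (PowerSeries M)} (h : Rep D.U D.f ((dvg fun i => D.q i * P) -
      Polynomial.aeval D.f (dtP _ D.δ) * P) a) (i : D.U) :
    co (nab (br (P.map (algebraMap (PowerSeries M) N)))) i =
      jL M N (a i) / jL M N I.δ := by
  have hinj : Function.Injective (algebraMap (PowerSeries M) N) := IsFractionRing.injective _ _
  have hδ0 : D.δ.map (algebraMap (PowerSeries M) N) ≠ 0 :=
    (Polynomial.map_ne_zero_iff hinj).2 hD.monic.ne_zero
  have hann : Polynomial.aeval S'.φ (D.δ.map (algebraMap (PowerSeries M) N)) =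
      ∑ i, (D.q i).map (algebraMap (PowerSeries M) N) * pderiv i S'.φ := by
    rw [hE.φ, ← isoma_aeval, hD.ann, map_sum]
    exact Finset.sum_congr rfl fun i _ => by rw [map_mul, pderiv_map]
  have h1 := Rep_map (algebraMap (PowerSeries M) N) h
  rw [map_sub, isoma_dvg, map_mul, isoma_aeval, ← hE.φ, dtP_apply] at h1
  simp only [map_mul] at h1
  rw [← Polynomial.derivative_map] at h1
  rw [hI.δ]
  exact co_nab_br hG co hco _ hδ0 _ hann _ h1 i

include hD hI hE hG hco in
theorem mat_t (j i : D.U) : co (nab (br (monomial (j : Fin n →₀ ℕ) 1))) i =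
    jL M N (I.Gt i j) / jL M N I.δ := by
  have h1 := isoma_gen hD hI hE hG co hco _ (hI.gt j) i
  rwa [map_monomial, map_one] at h1

include hD hI hE hG hco in
theorem mat_s (j i : D.U) : co (nab (br ((D.θ.map PowerSeries.C *
    monomial (j : Fin n →₀ ℕ) (1 : PowerSeries M)).map (algebraMap (PowerSeries M) N)))) i =
    - (jL M N (I.Gs i j) / jL M N I.δ) := by
  have h1 := isoma_gen hD hI hE hG co hco _ (isoma_neg (hI.gs j)) i
  rw [h1, map_neg, neg_div]

private theorem isomx_aeval {A B : Type*} [CommRing A] [CommRing B] {n : ℕ} (f : A →+* B)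
    (F : MvPolynomial (Fin n) A) (a : Polynomial A) :
    MvPolynomial.map f (Polynomial.aeval F a) =
      Polynomial.aeval (MvPolynomial.map f F) (a.map f) := by
  rw [Polynomial.aeval_def, Polynomial.aeval_def, Polynomial.hom_eval₂, Polynomial.eval₂_map]
  have e : (MvPolynomial.map f : MvPolynomial (Fin n) A →+* MvPolynomial (Fin n) B).comp
      (algebraMap A (MvPolynomial (Fin n) A)) = (algebraMap B (MvPolynomial (Fin n) B)).comp f := by
    ext a m
    simp only [RingHom.comp_apply, MvPolynomial.algebraMap_eq, MvPolynomial.map_C]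
  rw [e]

private theorem isomx_dvg {A B : Type*} [CommRing A] [CommRing B] {n : ℕ} (f : A →+* B)
    (q : Fin n → MvPolynomial (Fin n) A) :
    dvg (fun k => MvPolynomial.map f (q k)) = MvPolynomial.map f (dvg q) := by
  unfold dvg
  rw [map_sum]
  exact Finset.sum_congr rfl fun k _ => MvPolynomial.pderiv_map

private theorem isomx_vec {M B : Type u} [Field M] [Field B] {n : ℕ} (f : PowerSeries M →+* B)
    (F Θ : MvPolynomial (Fin n) (PowerSeries M)) (v : Polynomial (PowerSeries M))
    (r : Fin n → MvPolynomial (Fin n) (PowerSeries M))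
    (h : Polynomial.aeval F v - Θ = ∑ i, r i * pderiv i F)
    (m : MvPolynomial (Fin n) (PowerSeries M)) :
    ∑ k, MvPolynomial.map f (r k * m) * pderiv k (MvPolynomial.map f F) =
      Polynomial.aeval (MvPolynomial.map f F) (v.map f) * MvPolynomial.map f m -
        MvPolynomial.map f (Θ * m) := by
  have h1 : MvPolynomial.map f (Polynomial.aeval F v) - MvPolynomial.map f Θ =
      ∑ k, MvPolynomial.map f (r k) * pderiv k (MvPolynomial.map f F) := by
    rw [← map_sub, h, map_sum]
    exact Finset.sum_congr rfl fun k _ => by rw [map_mul, MvPolynomial.pderiv_map]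
  rw [← isomx_aeval, map_mul, ← sub_mul, h1, Finset.sum_mul]
  refine Finset.sum_congr rfl fun k _ => ?_
  rw [map_mul]
  ring

include hD hI hE hG hco in
theorem mats_comb (i j : D.U) : I.Gs i j + I.v * I.Gt i j = I.δ * I.Dm i j := by
  have hδ0 : jL M N I.δ ≠ 0 := by
    rw [hI.δ]
    intro h0
    exact hD.monic.ne_zero (jL_injective (M := M) (N := N) (by rw [h0, map_zero]))
  have hmt := mat_t hD hI hE hG co hco j i
  have hms := mat_s hD hI hE hG co hco j i
  have hm1 : MvPolynomial.map (algebraMap (PowerSeries M) N)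
      (monomial (j : Fin n →₀ ℕ) (1 : PowerSeries M)) = monomial (j : Fin n →₀ ℕ) (1 : N) := by
    rw [MvPolynomial.map_monomial, map_one]
  have hvec0 := isomx_vec (M := M) (B := N) (algebraMap (PowerSeries M) N) D.f
    (D.θ.map PowerSeries.C) D.v D.r
  have hvec := hvec0 hD.vec (monomial (j : Fin n →₀ ℕ) 1)
  rw [hm1, ← hE.φ] at hvec
  have h1 := br_jac hG (fun k => MvPolynomial.map (algebraMap (PowerSeries M) N)
    (D.r k * monomial (j : Fin n →₀ ℕ) 1))
  rw [hvec, map_sub, map_sub, br_aeval hG, hG.leib, DK_poly, isomx_dvg] at h1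
  have h2 := co_rep hG co hco (P := MvPolynomial.map (algebraMap (PowerSeries M) N)
    ((dvg fun i => D.r i * monomial (j : Fin n →₀ ℕ) 1) -
      Polynomial.aeval D.f (dtP _ D.v) * monomial (j : Fin n →₀ ℕ) 1))
    (a := fun v => (I.Dm v j).map (algebraMap (PowerSeries M) N))
    (by
      rw [hE.φ]
      exact Rep_map _ (hI.dm j)) i
  have h3 : br (MvPolynomial.map (algebraMap (PowerSeries M) N)
      ((dvg fun i => D.r i * monomial (j : Fin n →₀ ℕ) 1) -
        Polynomial.aeval D.f (dtP _ D.v) * monomial (j : Fin n →₀ ℕ) 1)) =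
      jL M N D.v • nab (br (monomial (j : Fin n →₀ ℕ) 1)) -
        nab (br ((D.θ.map PowerSeries.C *
          monomial (j : Fin n →₀ ℕ) (1 : PowerSeries M)).map (algebraMap (PowerSeries M) N))) := by
    have h4 : MvPolynomial.map (algebraMap (PowerSeries M) N)
        (Polynomial.aeval D.f (dtP _ D.v) * monomial (j : Fin n →₀ ℕ) 1) =
        Polynomial.aeval S'.φ (Polynomial.derivative (D.v.map (algebraMap (PowerSeries M) N))) *
          monomial (j : Fin n →₀ ℕ) 1 := by
      rw [map_mul, hm1, isomx_aeval, dtP_apply, Polynomial.derivative_map, hE.φ]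
    rw [map_sub, map_sub, h4, br_aeval hG, ← h1]
    show _ = algebraMap (Polynomial N) (RatFunc N) (D.v.map (algebraMap (PowerSeries M) N)) • _ - _
    abel
  rw [h3, map_sub, map_smul, Pi.sub_apply, Pi.smul_apply, smul_eq_mul, hmt, hms, sub_neg_eq_add] at h2
  apply jL_injective (M := M) (N := N)
  have h5 : jL M N (I.Dm i j) = algebraMap (Polynomial N) (RatFunc N)
      ((I.Dm i j).map (algebraMap (PowerSeries M) N)) := rfl
  rw [map_add, map_mul, map_mul, h5, ← h2, hI.v]
  field_simp
  ring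

include hD hI hE hG hco in
theorem mats_degt (hn : 2 ≤ n) (i j : D.U) (h : I.Gt i j ≠ 0) :
    (I.d : ℤ) * (I.Gt i j).natDegree + I.q i ≤ I.q j + I.d * I.δ.natDegree - I.d := by
  have hδ : I.δ ≠ 0 := by
    rw [hI.δ]
    exact hD.monic.ne_zero
  have h1 := co_deg hG co hco hn hE.ok (isomy_MB hD hE) (monomial (j : Fin n →₀ ℕ) 1)
    ((wtp D.S.w j : ℤ) - D.S.d) (fun e he => by
      have h2 := Finset.mem_singleton.1 (support_monomial_subset he)
      rw [h2, hE.w, hE.d]) i
  rw [mat_t hD hI hE hG co hco, hE.w, hE.d] at h1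
  obtain ⟨h2, h3⟩ := isomy_deg (N := N) _ _ h hδ
  have h4 := h1.resolve_left h2
  rw [h3] at h4
  rw [hI.q, hI.q, hI.d]
  linarith

include hD hI hE hG hco in
theorem mats_degs (hn : 2 ≤ n) (i j : D.U) (h : I.Gs i j ≠ 0) :
    (I.d : ℤ) * (I.Gs i j).natDegree + I.q i ≤ I.q j + I.d * I.δ.natDegree := by
  have hδ : I.δ ≠ 0 := by
    rw [hI.δ]
    exact hD.monic.ne_zero
  have h1 := co_deg hG co hco hn hE.ok (isomy_MB hD hE) ((D.θ.map PowerSeries.C *
    monomial (j : Fin n →₀ ℕ) (1 : PowerSeries M)).map (algebraMap (PowerSeries M) N))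
    ((wtp D.S.w j : ℤ) - 1) (fun e he => by
      have h2 := support_map_subset _ _ he
      rw [mem_support_iff, coeff_mul_monomial', mul_one] at h2
      have h3 : (j : Fin n →₀ ℕ) ≤ e := by
        by_contra h4
        exact h2 (if_neg h4)
      rw [if_pos h3, coeff_map] at h2
      have h5 : e - (j : Fin n →₀ ℕ) ∈ D.θ.support := by
        rw [mem_support_iff]
        intro h6
        exact h2 (by rw [h6, map_zero])
      have h6 := hD.deg _ h5
      have h7 : wtp D.S.w e = wt D.S.w (e - (j : Fin n →₀ ℕ)) + wtp D.S.w j := by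
        rw [wtp_eq, wtp_eq, ← add_assoc, ← isomy_wt_add, tsub_add_cancel_of_le h3]
      rw [hE.w, hE.d, h7]
      push_cast
      have h8 : (wt D.S.w (e - (j : Fin n →₀ ℕ)) : ℤ) + 1 ≤ D.S.d := by exact_mod_cast h6
      linarith) i
  rw [mat_s hD hI hE hG co hco, hE.w, hE.d] at h1
  obtain ⟨h2, h3⟩ := isomy_deg (N := N) _ _ h hδ
  have h4 := h1.resolve_left (neg_ne_zero.2 h2)
  rw [RatFunc.intDegree_neg, h3] at h4
  rw [hI.q, hI.q, hI.d]
  linarith

end MPadcHM
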