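import Pool.Agent.Lib.MP_adc574_ag_HM.IsoM

/-!
# JOB IsoMb: the connection `∇_s` and its integrability

Notation of IsoM.lean. `Ds` is the derivation `∂_s` of `L = N(t)` (`exists_dsL`). `ns h := co.symm (conn Ds Bs (co h))`, `Bs i j = jL (Gs i j) / jL δ`.
* `nsL_add`, `nsL_smul` (part a): from `conn (x + y) = conn x + conn y`, `conn (a x) = Ds a x + a conn x`. `nsL_basis` (part a): `ns [x^j] = - nab [Θ x^j]`: coordinates (`conn Ds Bs (Pi.single j 1) = Bs · j`, `Ds 1 = 0`, `Ds 0 = 0`; `mat_s`).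
* `nsL_br` (part b): for `P ∈ A[x]`: `ns [P] = [∂_s P] - nab [P Θ]`, `∂_s P = mD n (dsR M) P`. Let `P = ∑ a_u(F) x^u + z_F(A')` (`Rep_exists`; `z_F(A') = zz A' (∂ F)`). `[P] = ∑ jL a_u • [x^u]` (`br_aeval` mapped; `hG.lev`). So `ns [P] = ∑ jL (dsP a_u) • [x^u] - ∑ jL a_u • nab [Θ x^u]`.
  `∂_s P = ∑ ((dsP a_u)(F) + a_u'(F) Θ) x^u + z_F(∂_s A') + z_Θ(A')` (`mD_aeval`, `mD_pderiv`, `mD_phs`: `∂_s ∂_j F = ∂_j Θ`; `∂_s` of `monomial u 1` is 0; `∂_s A'` is antisymmetric), `z_Θ(A') = ∑_j (∑_i ∂_i A'_ij) ∂_j Θ`. `[P Θ] = ∑ jL a_u • [Θ x^u] + [Θ z_F(A')]`, so `nab [P Θ] = ∑ jL a_u' • [Θ x^u] + ∑ jL a_u • nab [Θ x^u] + nab [Θ z_F(A')]`,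
  `nab [Θ z_F(A')] = nab [∑_j (Θ ∑_i ∂_i A'_ij) ∂_j F] = [∑_j ∂_j (Θ ∑_i ∂_i A'_ij)] = [z_Θ(A')]` (`br_jac`; `∑_ij ∂_j ∂_i A'_ij = 0` by antisymmetry, `dvg_dvg`). Everything cancels.
* `nsL_nab` (part c): `ns (nab h) = nab (ns h)`. The difference `c h` is `L`-linear: `c (a • h) = (Ds (DZ a) - DZ (Ds a)) • h + a • c h` and the derivations commute (hypothesis `hDs2`). For `P = ∑ Q_i ∂_i F`, `Q_i ∈ A[x]`: `nab [P] = [dvg Q]`, `ns (nab [P]) = [∂_s dvg Q] - nab [Θ dvg Q]`; `nab (ns [P]) = nab [∂_s P] - nab (nab [P Θ])`, `∂_s P = ∑ ∂_s Q_i ∂_i F + ∑ Q_i ∂_i Θ`,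
  `nab [∂_s P] = [dvg (∂_s Q)] + nab [∑ Q_i ∂_i Θ]`, `nab [P Θ] = [dvg (Θ Q)] = [∑ ∂_i Θ Q_i + Θ dvg Q]`. So `c [P] = 0`. Apply this to `P = δ(F) x^u = ∑ q_i x^u ∂_i F`: `[P] = jL δ • [x^u]`, `jL δ ≠ 0`, so `c [x^u] = 0`, and the `[x^u]` generate `H`.
* `mats_flat` (part d): in coordinates `nsL_nab` says `conn Ds Bs (conn DZ Bt x) = conn DZ Bt (conn Ds Bs x)` (`co_nab` mapped as in `mat_t`; `co (nab x) = conn (DZ N) Bt (co x)`). With `x = Pi.single j 1`: `Ds (Bt i j) + (Bs Bt) i j = DZ (Bs i j) + (Bt Bs) i j`; multiply by `(jL δ)²`: `jL δ (jL (dsP Gt) - jL (dtP Gs)) - jL (dsP δ) jL Gt + jL (dtP δ) jL Gs + ... = 0` (quotient rule; `DZ_jL`); `jL_injective`.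
* `mats_ok` (part e): collect: `mats_comb`, `mats_flat`, `mats_degt`, `mats_degs`, `hD.monic`, `hD.dvd`, `hD.red` + `hD.ok.sep`, `hD.ok.d_pos`; `N := FractionRing (PowerSeries M)` is not needed: `S'`, `H` are given.
-/

set_option autoImplicit false

namespace MPadcHM

open MvPolynomial MPadcLP

universe u

private theorem isombc_leib {E : Type*} [CommRing E] (D : Der E) (a b : E) :
    D (a * b) = a * D b + b * D a := by
  rw [Derivation.leibniz, smul_eq_mul, smul_eq_mul]

private theorem isombc_dvg_map {B B' : Type*} [CommRing B] [CommRing B'] {n : ℕ} (f : B →+* B')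
    (Q : Fin n → MvPolynomial (Fin n) B) : (dvg Q).map f = dvg fun i => (Q i).map f := by
  unfold dvg
  rw [map_sum]
  exact Finset.sum_congr rfl fun i _ => pderiv_map.symm

private theorem isombc_aeval_map {B B' : Type*} [CommRing B] [CommRing B'] {n : ℕ} (f : B →+* B')
    (F : MvPolynomial (Fin n) B) (a : Polynomial B) :
    (Polynomial.aeval F a).map f = Polynomial.aeval (F.map f) (a.map f) := by
  rw [Polynomial.aeval_def, Polynomial.aeval_def, Polynomial.hom_eval₂, Polynomial.eval₂_map]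
  congr 1
  refine RingHom.ext fun b => ?_
  exact map_C f b

variable {M : Type u} [Field M] [CharZero M] {n : ℕ} {D : Defo M n} (hD : D.Ok)
  {I : IsoData M D.U} (hI : D.Mats I)
  {N : Type u} [Field N] [CharZero N] [Algebra (PowerSeries M) N]
  [IsFractionRing (PowerSeries M) N] {S' : Dat N n} (hE : D.Ext S')
  {H : Type u} [AddCommGroup H] [Module (RatFunc N) H] [Module N H] [IsScalarTower N (RatFunc N) H]
  {nab : H →ₗ[N] H} {br : MvPolynomial (Fin n) N →ₗ[N] H}
  (hG : IsGM S' nab br) (co : H ≃ₗ[RatFunc N] (D.U → RatFunc N))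
  (hco : ∀ u : D.U, co (br (monomial (u : Fin n →₀ ℕ) 1)) = Pi.single u 1)
  (Ds : Der (RatFunc N)) (hDs : ∀ a, Ds (jL M N a) = jL M N (dsP M a))
  (hDs2 : ∀ x, Ds (DZ N x) = DZ N (Ds x))

private theorem isomba_one {B : Type*} [CommRing B] (D : Der B) : D 1 = 0 :=
  D.map_one_eq_zero
private theorem isombd_quot {L : Type*} [Field L] (D' : Der L) (a b : L) (hb : b ≠ 0) :
    b ^ 2 * D' (a / b) = b * D' a - a * D' b := by
  have h1 : D' (b * (a / b)) = D' a := by rw [mul_div_cancel₀ _ hb]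
  rw [Derivation.leibniz, smul_eq_mul, smul_eq_mul] at h1
  have h2 : a / b * b = a := div_mul_cancel₀ _ hb
  linear_combination b * h1 - (D' b) * h2

/-- The connection `∇_s`. -/
noncomputable def nsL (I : IsoData M D.U) (Ds : Der (RatFunc N))
    (co : H ≃ₗ[RatFunc N] (D.U → RatFunc N)) (h : H) : H :=
  co.symm (conn Ds (fun i j => jL M N (I.Gs i j) / jL M N I.δ) (co h))

theorem nsL_add (x y : H) : nsL I Ds co (x + y) = nsL I Ds co x + nsL I Ds co y := by
  unfold nsL
  rw [← map_add co.symm]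
  congr 1
  funext i
  simp only [conn, map_add, Pi.add_apply, mul_add, Finset.sum_add_distrib]
  ring

theorem nsL_smul (a : RatFunc N) (x : H) :
    nsL I Ds co (a • x) = Ds a • x + a • nsL I Ds co x := by
  unfold nsL
  apply co.injective
  rw [LinearEquiv.apply_symm_apply, map_add, map_smul, map_smul, map_smul,
    LinearEquiv.apply_symm_apply]
  funext i
  simp only [conn, Pi.smul_apply, Pi.add_apply, smul_eq_mul, Derivation.leibniz, mul_add,
    Finset.mul_sum]
  have h1 : ∀ v, jL M N (I.Gs i v) / jL M N I.δ * (a * co x v) =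
      a * (jL M N (I.Gs i v) / jL M N I.δ * co x v) := fun v => by ring
  rw [Finset.sum_congr rfl fun v _ => h1 v]
  ring

/-! ### Auxiliary lemmas (job IsoMbb) -/

private theorem isombb_weight {n : ℕ} (w : Fin n → ℕ) (e : Fin n →₀ ℕ) :
    Finsupp.weight w e = wt w e := by
  rw [Finsupp.weight_apply, Finsupp.sum_fintype]
  · unfold wt
    exact Finset.sum_congr rfl fun i _ => by rw [smul_eq_mul, mul_comm]
  · intro i
    rw [zero_smul]

private theorem isombb_part {κ : Type*} [Field κ] {n : ℕ} (w : Fin n → ℕ) (d : ℕ)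
    (f : MvPolynomial (Fin n) κ) (e : Fin n →₀ ℕ) :
    coeff e (part w d f) = if wt w e = d then coeff e f else 0 := by
  classical
  unfold part
  rw [coeff_weightedHomogeneousComponent, isombb_weight]

private theorem isombb_hom {κ : Type*} [Field κ] {n : ℕ} (w : Fin n → ℕ) (d : ℕ)
    (f : MvPolynomial (Fin n) κ) : Hom w d (part w d f) := by
  intro e he
  by_contra h
  rw [mem_support_iff, isombb_part, if_neg h] at he
  exact he rfl

private theorem isombb_supp {M : Type u} [Field M] {n : ℕ} {D : Defo M n} (hD : D.Ok) :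
    ∀ e ∈ (D.f - (part D.S.w D.S.d D.S.φ).map (algebraMap M (PowerSeries M))).support,
      wt D.S.w e < D.S.d := by
  intro e he
  by_contra hlt
  rw [mem_support_iff] at he
  apply he
  have h1 : coeff e D.f = PowerSeries.C (coeff e D.S.φ) +
      PowerSeries.X * PowerSeries.C (coeff e D.θ) := by
    unfold Defo.f phs
    rw [coeff_add, coeff_C_mul, coeff_map, coeff_map]
  have h2 : coeff e D.θ = 0 := by
    by_contra h
    exact hlt (hD.deg e (mem_support_iff.2 h))
  have h3 : coeff e (part D.S.w D.S.d D.S.φ) = coeff e D.S.φ := by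
    rw [isombb_part]
    by_cases h4 : wt D.S.w e = D.S.d
    · rw [if_pos h4]
    · rw [if_neg h4]
      by_contra h
      have h5 := hD.ok.deg e (mem_support_iff.2 (Ne.symm h))
      omega
  rw [coeff_sub, h1, h2, coeff_map, h3, PowerSeries.algebraMap_apply, map_zero, mul_zero, add_zero]
  exact sub_self _

private theorem isombb_aeval {A N : Type*} [CommRing A] [CommRing N] {n : ℕ} (i : A →+* N)
    (F : MvPolynomial (Fin n) A) (a : Polynomial A) :
    (Polynomial.aeval F a).map i = Polynomial.aeval (F.map i) (a.map i) := by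
  induction a using Polynomial.induction_on' with
  | add p q hp hq => rw [map_add, map_add, hp, hq, Polynomial.map_add, map_add]
  | monomial k c =>
    rw [Polynomial.map_monomial, Polynomial.aeval_monomial, Polynomial.aeval_monomial, map_mul,
      map_pow, MvPolynomial.algebraMap_eq, MvPolynomial.algebraMap_eq, map_C]

private theorem isombb_zz {A N : Type*} [CommRing A] [CommRing N] {n : ℕ} (i : A →+* N)
    (F : MvPolynomial (Fin n) A) (B : Fin n → Fin n → MvPolynomial (Fin n) A) :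
    (zz B fun j => pderiv j F).map i =
      zz (fun k l => (B k l).map i) fun j => pderiv j (F.map i) := by
  unfold zz
  rw [map_sum]
  refine Finset.sum_congr rfl fun j _ => ?_
  rw [map_mul, map_sum]
  beta_reduce
  rw [pderiv_map]
  congr 1
  exact Finset.sum_congr rfl fun k _ => pderiv_map.symm

private theorem isombb_asym {A N : Type*} [CommRing A] [CommRing N] {n : ℕ} (i : A →+* N)
    {B : Fin n → Fin n → MvPolynomial (Fin n) A} (hB : Asym B) :
    Asym fun k l => (B k l).map i := by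
  refine ⟨fun k => ?_, fun k l => ?_⟩
  · change (B k k).map i = 0
    rw [hB.1, map_zero]
  · change (B k l).map i = -((B l k).map i)
    rw [hB.2 k l, map_neg]

private theorem isombb_leib {R : Type*} [CommRing R] (D : Der R) (a b : R) :
    D (a * b) = a * D b + b * D a := by
  rw [Derivation.leibniz, smul_eq_mul, smul_eq_mul]

include hD hI hE hG hco hDs hDs2

theorem nsL_basis (j : D.U) : nsL I Ds co (br (monomial (j : Fin n →₀ ℕ) 1)) =
    - nab (br ((D.θ.map PowerSeries.C *
      monomial (j : Fin n →₀ ℕ) (1 : PowerSeries M)).map (algebraMap (PowerSeries M) N))) := by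
  classical
  apply co.injective
  unfold nsL
  rw [LinearEquiv.apply_symm_apply, hco, map_neg]
  funext i
  rw [Pi.neg_apply, mat_s hD hI hE hG co hco j i, neg_neg]
  simp only [conn]
  rw [Finset.sum_eq_single j]
  · rw [Pi.single_eq_same, mul_one]
    by_cases h : i = j
    · subst h
      rw [Pi.single_eq_same, isomba_one Ds, zero_add]
    · rw [Pi.single_eq_of_ne h, map_zero, zero_add]
  · intro b _ hb
    rw [Pi.single_eq_of_ne hb, mul_zero]
  · intro h
    exact absurd (Finset.mem_univ j) h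

theorem nsL_br (hn : 2 ≤ n) (P : MvPolynomial (Fin n) (PowerSeries M)) :
    nsL I Ds co (br (P.map (algebraMap (PowerSeries M) N))) =
      br ((mD n (dsR M) P).map (algebraMap (PowerSeries M) N)) -
        nab (br ((P * D.θ.map PowerSeries.C).map (algebraMap (PowerSeries M) N))) := by
  obtain ⟨ι, hι⟩ : ∃ ι : PowerSeries M →+* N, ι = algebraMap (PowerSeries M) N := ⟨_, rfl⟩
  obtain ⟨Θ, hΘ⟩ : ∃ Θ : MvPolynomial (Fin n) (PowerSeries M), Θ = D.θ.map PowerSeries.C :=
    ⟨_, rfl⟩
  have hφ : S'.φ = D.f.map ι := by rw [hι]; exact hE.φ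
  obtain ⟨bm, hbm⟩ : ∃ bm : MvPolynomial (Fin n) (PowerSeries M) →+ H,
      ∀ P, br (P.map ι) = bm P :=
    ⟨AddMonoidHom.mk' (fun P => br (P.map ι)) fun P Q => by rw [map_add, map_add], fun P => rfl⟩
  -- the rules
  have hbA : ∀ (a : Polynomial (PowerSeries M)) (P : MvPolynomial (Fin n) (PowerSeries M)),
      bm (Polynomial.aeval D.f a * P) = jL M N a • bm P := by
    intro a P
    rw [← hbm, ← hbm, map_mul, isombb_aeval, ← hφ, br_aeval hG, hι]
    rfl
  have hbZ : ∀ A' : Fin n → Fin n → MvPolynomial (Fin n) (PowerSeries M), Asym A' →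
      bm (zz A' fun j => pderiv j D.f) = 0 := by
    intro A' hA'
    rw [← hbm, isombb_zz, ← hφ]
    exact hG.lev _ (isombb_asym ι hA')
  have hbJ : ∀ q : Fin n → MvPolynomial (Fin n) (PowerSeries M),
      nab (bm (∑ i, q i * pderiv i D.f)) = bm (dvg q) := by
    intro q
    rw [← hbm, ← hbm, map_sum]
    have e1 : ∑ i, (q i * pderiv i D.f).map ι = ∑ i, (q i).map ι * pderiv i S'.φ := by
      refine Finset.sum_congr rfl fun i _ => ?_
      rw [map_mul, hφ, pderiv_map]
    have e2 : (dvg q).map ι = dvg fun i => (q i).map ι := by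
      unfold dvg
      rw [map_sum]
      exact Finset.sum_congr rfl fun i _ => pderiv_map.symm
    rw [e1, e2]
    exact br_jac hG fun i => (q i).map ι
  have hbD : ∀ A' : Fin n → Fin n → MvPolynomial (Fin n) (PowerSeries M), Asym A' →
      ∀ Q : MvPolynomial (Fin n) (PowerSeries M),
        bm (Q * dvg fun j => ∑ i, pderiv i (A' i j)) = 0 := by
    intro A' hA' Q
    have h1 := dvg_dvg (fun k l => (A' k l).map ι) (isombb_asym ι hA')
    have h2 : (dvg fun j => ∑ i, pderiv i (A' i j)).map ι =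
        dvg fun j => ∑ i, pderiv i ((A' i j).map ι) := by
      unfold dvg
      rw [map_sum]
      refine Finset.sum_congr rfl fun j _ => ?_
      rw [← pderiv_map, map_sum]
      congr 1
      exact Finset.sum_congr rfl fun i _ => pderiv_map.symm
    rw [← hbm, map_mul, h2, h1, mul_zero, map_zero]
  -- the operator `ns`
  obtain ⟨ns, hns⟩ : ∃ ns : H →+ H, ∀ h, nsL I Ds co h = ns h :=
    ⟨AddMonoidHom.mk' (nsL I Ds co) fun x y => nsL_add co Ds x y, fun h => rfl⟩
  have hnsS : ∀ (a : RatFunc N) (x : H), ns (a • x) = Ds a • x + a • ns x := by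
    intro a x
    rw [← hns, ← hns]
    exact nsL_smul co Ds a x
  have hnsB : ∀ j : D.U, ns (bm (monomial (j : Fin n →₀ ℕ) 1)) =
      -nab (bm (Θ * monomial (j : Fin n →₀ ℕ) 1)) := by
    intro j
    have h1 := nsL_basis hD hI hE hG co hco Ds hDs hDs2 j
    rw [hns, ← hι, ← hΘ, hbm] at h1
    rw [← h1, ← hbm, map_monomial, map_one]
  obtain ⟨ds, hds⟩ : ∃ ds : Der (MvPolynomial (Fin n) (PowerSeries M)), ds = mD n (dsR M) :=
    ⟨_, rfl⟩
  have hdsp : ∀ (i : Fin n) (P : MvPolynomial (Fin n) (PowerSeries M)),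
      ds (pderiv i P) = pderiv i (ds P) := by
    intro i P
    rw [hds, mD_pderiv]
  have hdsF : ds D.f = Θ := by
    rw [hds, hΘ]
    exact mD_phs D.S.φ D.θ
  have hdsA : ∀ a : Polynomial (PowerSeries M), ds (Polynomial.aeval D.f a) =
      Polynomial.aeval D.f (dsP M a) + Polynomial.aeval D.f (dtP (PowerSeries M) a) * Θ := by
    intro a
    rw [hds, hΘ]
    exact mD_aeval D.S.φ D.θ a
  have hdsM : ∀ u : Fin n →₀ ℕ, ds (monomial u 1) = 0 := by
    intro u
    have h1 : dsR M (1 : PowerSeries M) = 0 := by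
      have h2 := isombb_leib (dsR M) 1 1
      rw [mul_one, one_mul] at h2
      exact left_eq_add.1 h2
    rw [hds, mD_monomial, h1, map_zero]
  rw [← hι, ← hΘ, ← hds, hbm, hbm, hbm, hns]
  -- the decomposition
  obtain ⟨a, A', hA', hP⟩ := Rep_exists hn D.S.w hD.ok.w_pos D.S.d hD.ok.d_pos
    (part D.S.w D.S.d D.S.φ) (isombb_hom _ _ _) D.U hD.mb D.f (isombb_supp hD) P
  have hdA' : Asym fun k l => ds (A' k l) := by
    refine ⟨fun k => ?_, fun k l => ?_⟩
    · change ds (A' k k) = 0
      rw [hA'.1, map_zero]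
    · change ds (A' k l) = -(ds (A' l k))
      rw [hA'.2 k l, map_neg]
  obtain ⟨b, hb⟩ : ∃ b : Fin n → MvPolynomial (Fin n) (PowerSeries M),
      ∀ j, ∑ i, pderiv i (A' i j) = b j := ⟨_, fun _ => rfl⟩
  have hzz : ∀ h : Fin n → MvPolynomial (Fin n) (PowerSeries M), zz A' h = ∑ j, b j * h j := by
    intro h
    unfold zz
    exact Finset.sum_congr rfl fun j _ => by rw [hb]
  have h1 : bm P = ∑ u : D.U, jL M N (a u) • bm (monomial (u : Fin n →₀ ℕ) 1) := by
    rw [hP, map_add, hbZ A' hA', add_zero, map_sum]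
    exact Finset.sum_congr rfl fun u _ => hbA _ _
  have h2 : ns (bm P) = ∑ u : D.U, (jL M N (dsP M (a u)) • bm (monomial (u : Fin n →₀ ℕ) 1) -
      jL M N (a u) • nab (bm (Θ * monomial (u : Fin n →₀ ℕ) 1))) := by
    rw [h1, map_sum]
    refine Finset.sum_congr rfl fun u _ => ?_
    rw [hnsS, hDs, hnsB, smul_neg, sub_eq_add_neg]
  have h3 : bm (ds P) = ∑ u : D.U, (jL M N (dsP M (a u)) • bm (monomial (u : Fin n →₀ ℕ) 1) +
      jL M N (dtP (PowerSeries M) (a u)) • bm (Θ * monomial (u : Fin n →₀ ℕ) 1)) +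
        bm (∑ j, b j * pderiv j Θ) := by
    have e1 : ds P = ∑ u : D.U, (Polynomial.aeval D.f (dsP M (a u)) *
        monomial (u : Fin n →₀ ℕ) 1 + Polynomial.aeval D.f (dtP (PowerSeries M) (a u)) *
          (Θ * monomial (u : Fin n →₀ ℕ) 1)) +
        ((zz (fun k l => ds (A' k l)) fun j => pderiv j D.f) + ∑ j, b j * pderiv j Θ) := by
      conv_lhs => rw [hP]
      rw [map_add, map_sum]
      congr 1
      · refine Finset.sum_congr rfl fun u _ => ?_
        rw [isombb_leib, hdsM, hdsA, mul_zero, zero_add]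
        ring
      · unfold zz
        rw [map_sum, ← Finset.sum_add_distrib]
        refine Finset.sum_congr rfl fun j _ => ?_
        have e2 : ds (∑ i, pderiv i (A' i j)) = ∑ i, pderiv i (ds (A' i j)) := by
          rw [map_sum]
          exact Finset.sum_congr rfl fun i _ => hdsp i _
        rw [isombb_leib, e2, hb, hdsp, hdsF]
        ring
    rw [e1, map_add, map_add, hbZ _ hdA', zero_add, map_sum]
    congr 1
    refine Finset.sum_congr rfl fun u _ => ?_
    rw [map_add, hbA, hbA]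
  have h4 : nab (bm (P * Θ)) = ∑ u : D.U,
      (jL M N (dtP (PowerSeries M) (a u)) • bm (Θ * monomial (u : Fin n →₀ ℕ) 1) +
        jL M N (a u) • nab (bm (Θ * monomial (u : Fin n →₀ ℕ) 1))) +
        bm (∑ j, b j * pderiv j Θ) := by
    have e1 : P * Θ = ∑ u : D.U, Polynomial.aeval D.f (a u) *
        (Θ * monomial (u : Fin n →₀ ℕ) 1) + ∑ j, (Θ * b j) * pderiv j D.f := by
      conv_lhs => rw [hP]
      rw [hzz, add_mul, Finset.sum_mul, Finset.sum_mul]
      congr 1
      · exact Finset.sum_congr rfl fun u _ => by ring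
      · exact Finset.sum_congr rfl fun u _ => by ring
    have e2 : (dvg fun j => Θ * b j) = ∑ j, b j * pderiv j Θ +
        Θ * dvg fun j => ∑ i, pderiv i (A' i j) := by
      unfold dvg
      rw [Finset.mul_sum, ← Finset.sum_add_distrib]
      refine Finset.sum_congr rfl fun j _ => ?_
      beta_reduce
      rw [hb, Derivation.leibniz, smul_eq_mul, smul_eq_mul, add_comm]
    rw [e1, map_add, map_add, hbJ, e2, map_add, hbD A' hA' Θ, add_zero, map_sum, map_sum]
    congr 1
    refine Finset.sum_congr rfl fun u _ => ?_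
    rw [hbA, hG.leib, ← DZ_apply, DZ_jL]
  rw [h2, h3, h4, add_sub_add_right_eq_sub, ← Finset.sum_sub_distrib]
  refine Finset.sum_congr rfl fun u _ => ?_
  abel

private theorem isombc_pol (hn : 2 ≤ n) (Q : Fin n → MvPolynomial (Fin n) (PowerSeries M)) :
    nsL I Ds co (nab (br ((∑ i, Q i * pderiv i D.f).map (algebraMap (PowerSeries M) N)))) =
      nab (nsL I Ds co (br ((∑ i, Q i * pderiv i D.f).map (algebraMap (PowerSeries M) N)))) := by
  have hj : ∀ R : Fin n → MvPolynomial (Fin n) (PowerSeries M),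
      nab (br ((∑ i, R i * pderiv i D.f).map (algebraMap (PowerSeries M) N))) =
        br ((dvg R).map (algebraMap (PowerSeries M) N)) := by
    intro R
    rw [map_sum, isombc_dvg_map, ← br_jac hG]
    congr 2
    refine Finset.sum_congr rfl fun i _ => ?_
    rw [map_mul, hE.φ, pderiv_map]
  set Θ : MvPolynomial (Fin n) (PowerSeries M) := D.θ.map PowerSeries.C with hΘ
  have e0 : mD n (dsR M) D.f = Θ := mD_phs D.S.φ D.θ
  have e1 : mD n (dsR M) (∑ i, Q i * pderiv i D.f) =
      (∑ i, mD n (dsR M) (Q i) * pderiv i D.f) + ∑ i, Q i * pderiv i Θ := by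
    rw [map_sum, ← Finset.sum_add_distrib]
    refine Finset.sum_congr rfl fun i _ => ?_
    rw [isombc_leib, mD_pderiv, e0]
    ring
  have e2 : (∑ i, Q i * pderiv i D.f) * Θ = ∑ i, (Q i * Θ) * pderiv i D.f := by
    rw [Finset.sum_mul]
    refine Finset.sum_congr rfl fun i _ => ?_
    ring
  have e3 : dvg (fun i => Q i * Θ) = dvg Q * Θ + ∑ i, Q i * pderiv i Θ := by
    unfold dvg
    rw [Finset.sum_mul, ← Finset.sum_add_distrib]
    refine Finset.sum_congr rfl fun i _ => ?_
    rw [Derivation.leibniz, smul_eq_mul, smul_eq_mul]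
    ring
  have e4 : dvg (fun i => mD n (dsR M) (Q i)) = mD n (dsR M) (dvg Q) := by
    unfold dvg
    rw [map_sum]
    refine Finset.sum_congr rfl fun i _ => ?_
    rw [mD_pderiv]
  rw [hj Q, nsL_br hD hI hE hG co hco Ds hDs hDs2 hn (dvg Q),
    nsL_br hD hI hE hG co hco Ds hDs hDs2 hn (∑ i, Q i * pderiv i D.f), ← hΘ, e1, e2, hj, e3,
    map_sub, map_add, map_add, map_add, hj, e4, map_add, map_add, map_add]
  abel

omit hD hI hE hco hDs in
private theorem isombc_smul (a : RatFunc N) (h : H)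
    (hc : nsL I Ds co (nab h) = nab (nsL I Ds co h)) :
    nsL I Ds co (nab (a • h)) = nab (nsL I Ds co (a • h)) := by
  have h2 : Ds (DK N a) = DK N (Ds a) := hDs2 a
  rw [hG.leib a h, nsL_add, nsL_smul, nsL_smul, nsL_smul, map_add, hG.leib, hG.leib, hc, h2]
  abel

private theorem isombc_mono (hn : 2 ≤ n) (u : Fin n →₀ ℕ) :
    nsL I Ds co (nab (br (monomial u 1))) = nab (nsL I Ds co (br (monomial u 1))) := by
  have h1 : Polynomial.aeval D.f D.δ * monomial u (1 : PowerSeries M) =
      ∑ i, (D.q i * monomial u 1) * pderiv i D.f := by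
    rw [hD.ann, Finset.sum_mul]
    refine Finset.sum_congr rfl fun i _ => ?_
    ring
  have h2 := isombc_pol hD hI hE hG co hco Ds hDs hDs2 hn fun i => D.q i * monomial u 1
  rw [← h1] at h2
  have h3 : br ((Polynomial.aeval D.f D.δ * monomial u (1 : PowerSeries M)).map
      (algebraMap (PowerSeries M) N)) = jL M N D.δ • br (monomial u 1) := by
    rw [map_mul, isombc_aeval_map, ← hE.φ, br_aeval hG, map_monomial, map_one]
    rfl
  rw [h3] at h2
  have h4 : jL M N D.δ ≠ 0 := by
    intro h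
    exact hD.monic.ne_zero (jL_injective (h.trans (map_zero (jL M N)).symm))
  have h5 := isombc_smul hG co Ds hDs2 (jL M N D.δ)⁻¹ _ h2
  rw [inv_smul_smul₀ h4] at h5
  exact h5

theorem nsL_nab (hn : 2 ≤ n) (h : H) : nsL I Ds co (nab h) = nab (nsL I Ds co h) := by
  have hadd : ∀ x y : H, nsL I Ds co (nab x) = nab (nsL I Ds co x) →
      nsL I Ds co (nab y) = nab (nsL I Ds co y) →
      nsL I Ds co (nab (x + y)) = nab (nsL I Ds co (x + y)) := by
    intro x y hx hy
    rw [map_add, nsL_add, nsL_add, map_add, hx, hy]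
  have hbr : ∀ P : MvPolynomial (Fin n) N,
      nsL I Ds co (nab (br P)) = nab (nsL I Ds co (br P)) := by
    intro P
    induction P using MvPolynomial.induction_on' with
    | monomial u a =>
      have h1 : br (monomial u a) = algebraMap N (RatFunc N) a • br (monomial u 1) := by
        rw [algebraMap_smul, ← map_smul, smul_monomial, smul_eq_mul, mul_one]
      rw [h1]
      exact isombc_smul hG co Ds hDs2 _ _ (isombc_mono hD hI hE hG co hco Ds hDs hDs2 hn u)
    | add p q hp hq =>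
      rw [map_add]
      exact hadd _ _ hp hq
  have hmem : h ∈ Submodule.span (RatFunc N) (Set.range br) := by
    rw [hG.span]
    exact Submodule.mem_top
  induction hmem using Submodule.span_induction with
  | mem x hx =>
    obtain ⟨P, rfl⟩ := hx
    exact hbr P
  | zero =>
    have h1 := hbr 0
    rw [map_zero] at h1
    exact h1
  | add x y _ _ hx hy => exact hadd x y hx hy
  | smul a x _ hx => exact isombc_smul hG co Ds hDs2 a x hx

omit hDs hDs2 Ds in
private theorem isombd_nab (y : H) (i : D.U) : co (nab y) i =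
    DZ N (co y i) + ∑ k : D.U, jL M N (I.Gt i k) / jL M N I.δ * co y k := by
  classical
  have h1 : y = ∑ k : D.U, co y k • br (monomial (k : Fin n →₀ ℕ) 1) := by
    apply co.injective
    rw [map_sum]
    funext i
    rw [Finset.sum_apply]
    simp only [map_smul, hco, Pi.smul_apply, smul_eq_mul]
    rw [Finset.sum_eq_single i]
    · rw [Pi.single_eq_same, mul_one]
    · intro b _ hb
      rw [Pi.single_eq_of_ne (Ne.symm hb), mul_zero]
    · intro h
      exact absurd (Finset.mem_univ i) h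
  have h2 : nab y = ∑ k : D.U, (DK N (co y k) • br (monomial (k : Fin n →₀ ℕ) 1) +
      co y k • nab (br (monomial (k : Fin n →₀ ℕ) 1))) := by
    conv_lhs => rw [h1]
    rw [map_sum]
    exact Finset.sum_congr rfl fun k _ => hG.leib _ _
  rw [h2, map_sum, Finset.sum_apply]
  have h3 : ∀ k : D.U, co (DK N (co y k) • br (monomial (k : Fin n →₀ ℕ) 1) +
      co y k • nab (br (monomial (k : Fin n →₀ ℕ) 1))) i =
      DK N (co y k) * (Pi.single k (1 : RatFunc N) : D.U → RatFunc N) i +
        jL M N (I.Gt i k) / jL M N I.δ * co y k := by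
    intro k
    rw [map_add, map_smul, map_smul, hco, Pi.add_apply, Pi.smul_apply, Pi.smul_apply, smul_eq_mul,
      smul_eq_mul, mat_t hD hI hE hG co hco k i, mul_comm (co y k)]
  rw [Finset.sum_congr rfl fun k _ => h3 k, Finset.sum_add_distrib]
  congr 1
  rw [Finset.sum_eq_single i]
  · rw [Pi.single_eq_same, mul_one]
    rfl
  · intro b _ hb
    rw [Pi.single_eq_of_ne (Ne.symm hb), mul_zero]
  · intro h
    exact absurd (Finset.mem_univ i) h

theorem mats_flat (hn : 2 ≤ n) (i j : D.U) :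
    I.δ * (dsP M (I.Gt i j) - dtP (PowerSeries M) (I.Gs i j)) -
      dsP M I.δ * I.Gt i j + dtP (PowerSeries M) I.δ * I.Gs i j +
        (I.Gs * I.Gt - I.Gt * I.Gs) i j = 0 := by
  classical
  have hδ0 : I.δ ≠ 0 := by
    rw [hI.δ]
    exact hD.monic.ne_zero
  have hd : jL M N I.δ ≠ 0 := fun h => hδ0 (jL_injective (M := M) (N := N) (by rw [h, map_zero]))
  have h0 := congrArg (fun z => co z i)
    (nsL_nab hD hI hE hG co hco Ds hDs hDs2 hn (br (monomial (j : Fin n →₀ ℕ) 1)))
  have hL : co (nsL I Ds co (nab (br (monomial (j : Fin n →₀ ℕ) 1)))) i =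
      Ds (jL M N (I.Gt i j) / jL M N I.δ) + ∑ k : D.U, jL M N (I.Gs i k) / jL M N I.δ *
        (jL M N (I.Gt k j) / jL M N I.δ) := by
    unfold nsL
    rw [LinearEquiv.apply_symm_apply]
    simp only [conn]
    rw [mat_t hD hI hE hG co hco j i]
    congr 1
    refine Finset.sum_congr rfl fun k _ => ?_
    rw [mat_t hD hI hE hG co hco j k]
  have hS : ∀ k : D.U, co (nsL I Ds co (br (monomial (j : Fin n →₀ ℕ) 1))) k =
      jL M N (I.Gs k j) / jL M N I.δ := by
    intro k
    rw [nsL_basis hD hI hE hG co hco Ds hDs hDs2 j, map_neg, Pi.neg_apply,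
      mat_s hD hI hE hG co hco j k, neg_neg]
  have hR : co (nab (nsL I Ds co (br (monomial (j : Fin n →₀ ℕ) 1)))) i =
      DZ N (jL M N (I.Gs i j) / jL M N I.δ) + ∑ k : D.U, jL M N (I.Gt i k) / jL M N I.δ *
        (jL M N (I.Gs k j) / jL M N I.δ) := by
    rw [isombd_nab hD hI hE hG co hco, hS]
    congr 1
    exact Finset.sum_congr rfl fun k _ => by rw [hS]
  change co (nsL I Ds co (nab (br (monomial (j : Fin n →₀ ℕ) 1)))) i =
    co (nab (nsL I Ds co (br (monomial (j : Fin n →₀ ℕ) 1)))) i at h0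
  rw [hL, hR] at h0
  have q1 := isombd_quot Ds (jL M N (I.Gt i j)) (jL M N I.δ) hd
  have q2 := isombd_quot (DZ N) (jL M N (I.Gs i j)) (jL M N I.δ) hd
  have s1 : ∀ A B : Matrix D.U D.U (Polynomial (PowerSeries M)),
      jL M N I.δ ^ 2 * (∑ k : D.U, jL M N (A i k) / jL M N I.δ * (jL M N (B k j) / jL M N I.δ)) =
        jL M N ((A * B) i j) := by
    intro A B
    rw [Matrix.mul_apply, map_sum, Finset.mul_sum]
    refine Finset.sum_congr rfl fun k _ => ?_
    rw [map_mul]
    field_simp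
  rw [hDs, hDs] at q1
  rw [DZ_jL, DZ_jL] at q2
  have s2 := s1 I.Gs I.Gt
  have s3 := s1 I.Gt I.Gs
  apply jL_injective (M := M) (N := N)
  rw [map_zero, Matrix.sub_apply]
  simp only [map_add, map_sub, map_mul]
  linear_combination (jL M N I.δ ^ 2) * h0 - q1 + q2 - s2 + s3

omit hDs hDs2 Ds in
theorem mats_ok (hn : 2 ≤ n) : I.Ok := by
  obtain ⟨Ds, hDs, hDs2⟩ := exists_dsL (M := M) (N := N)
  refine ⟨?_, ?_, ?_, ?_, ?_, ?_, ?_, ?_⟩
  · rw [hI.d]
    exact hD.ok.d_pos
  · rw [hI.δ]
    exact hD.monic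
  · rw [hI.δ, ← hD.red]
    exact hD.ok.sep
  · intro i j
    exact mats_flat hD hI hE hG co hco Ds hDs hDs2 hn i j
  · intro i j
    exact mats_comb hD hI hE hG co hco i j
  · rw [hI.δ, hI.v]
    exact hD.dvd
  · intro i j h
    exact mats_degt hD hI hE hG co hco hn i j h
  · intro i j h
    exact mats_degs hD hI hE hG co hco hn i j h

end MPadcHM
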