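import Pool.Agent.Lib.MP_adc574_ag_HM.IsoMb

/-!
# JOB IsoN: the coordinates of the `[x^e]_k` over `M(t)[[s]]`

Notation of IsoM.lean. For every exponent `e` let `a e : D.U → A[t]` with `Rep D.U D.f (monomial e 1) (a e)`. `cx I a k : U → R = M(t)[[s]]` is defined by `cx 0 = jR a`, `cx (k+1) = (k+1)⁻¹ • ∇_t (cx k)`: the coordinates of `[x^e]_k` (for `a = a e`).
* `cx_cmp` (part a): induction on `k`. `k = 0`: `lv_zero`, `co (br x^e) u = jL (a e u)` (`Rep_map`, `co_rep`), `Cmp_jL`. Step: `lv (k+1) = (k+1)⁻¹ • nab (lv k)` (`nab_lv`), `co (nab h) = conn (DZ N) Bt (co h)` with `Bt i j = jL (Gt i j) / jL δ` (`co_nab` with the data mapped to `N` as in `mat_t`; or from `mat_t` and `hG.leib`). `Cmp` is compatible with `conn`: `Cmp_dt`, `Cmp_sum`, `Cmp_mul`, `Cmp_div` (`BtR i j = jR (Gt i j) * (jR δ)⁻¹`,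
  `constantCoeff (jR δ) ≠ 0` by `jR_const`, `hD.monic`), and the scalar `(k+1)⁻¹ = jL (C (PowerSeries.C ..))`.
* `cx_const` (part b): `constantCoeff (cx I (a e) k u) = co₀ (lv nab₀ br₀ k x^e) u`, the coordinates over `M` (`s = 0`): `Rep_map` with `constantCoeff` (`phs_map`: `D.f.map constantCoeff = D.S.φ`), `co_rep`, `jR_const`; step: `constantCoeff` of `conn (dtR M) BtR x` is `conn (DZ M) B₀ (constantCoeff x)`, `B₀ i j = algebraMap ((Gt i j).map constantCoeff) / algebraMap D.S.δ` (`coeff_dtR`, `hD.red`), `co_nab` for `D.S`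
  (`Rep_map` of `hI.gt`, `hD.ann` mapped, `dtP` commutes with the reduction).
* `nsL_lv` (part c): `ns [x^e]_k = - (k+1) ∑_m θ_m [x^(e+m)]_{k+1}`: `[P]_k = (k!)⁻¹ nab^k [P]`, `ns nab = nab ns` (`nsL_nab`), `ns [x^e] = - nab [x^e Θ]` (`nsL_br`, `∂_s x^e = 0`), `nab_lv`, `Θ = ∑ θ_m x^m`, `nsL_smul` for the rational constant (`Ds` of a rational constant is 0).
* `cx_ns` (part d): `conn (dsR) BsR (cx I (a e) k) = - (k+1) ∑_m C θ_m • cx I (a (e+m)) (k+1)`. By `cx_cmp`, `Cmp_ds`, `Cmp_div`, ... both sides are coordinatewise `Cmp`-related to the coordinates of the two sides of `nsL_lv` (`co (nsL ..) = conn Ds Bs (co ..)`), whose difference is 0; `Cmp_zero`.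
-/

set_option autoImplicit false

namespace MPadcHM

open MvPolynomial MPadcLP

universe u

private theorem isonb_aeval {B B' : Type*} [CommRing B] [CommRing B'] {n : ℕ} (ψ : B →+* B')
    (φ : MvPolynomial (Fin n) B) (δ : Polynomial B) :
    (Polynomial.aeval φ δ).map ψ = Polynomial.aeval (φ.map ψ) (δ.map ψ) := by
  rw [Polynomial.aeval_def, Polynomial.aeval_def, Polynomial.eval₂_map, Polynomial.hom_eval₂]
  congr 1
  ext a : 1
  simp only [RingHom.comp_apply, algebraMap_eq, map_C]

private theorem isonb_dvg {B B' : Type*} [CommRing B] [CommRing B'] {n : ℕ} (ψ : B →+* B')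
    (q : Fin n → MvPolynomial (Fin n) B) :
    (dvg q).map ψ = dvg fun i => (q i).map ψ := by
  unfold dvg
  rw [map_sum]
  exact Finset.sum_congr rfl fun i _ => (pderiv_map).symm

private theorem isonb_f {M : Type u} [Field M] [CharZero M] {n : ℕ} (D : Defo M n) :
    D.f.map (PowerSeries.constantCoeff (R := M)) = D.S.φ := phs_map D.S.φ D.θ

/-- The coordinates of `[x^e]_k` over `M(t)[[s]]`. -/
noncomputable def cx {M : Type u} [Field M] {ι : Type} [Fintype ι] (I : IsoData M ι)
    (a : ι → Polynomial (PowerSeries M)) : ℕ → ι → PowerSeries (RatFunc M)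
  | 0 => fun u => jR M (a u)
  | k + 1 => fun u => PowerSeries.C (((k : RatFunc M) + 1)⁻¹) *
      conn (dtR M) (fun i j => jR M (I.Gt i j) * (jR M I.δ)⁻¹) (cx I a k) u

variable {M : Type u} [Field M] [CharZero M] {n : ℕ} {D : Defo M n} (hD : D.Ok)
  {I : IsoData M D.U} (hI : D.Mats I)
  {N : Type u} [Field N] [CharZero N] [Algebra (PowerSeries M) N]
  [IsFractionRing (PowerSeries M) N] {S' : Dat N n} (hE : D.Ext S')
  {H : Type u} [AddCommGroup H] [Module (RatFunc N) H] [Module N H] [IsScalarTower N (RatFunc N) H]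
  {nab : H →ₗ[N] H} {br : MvPolynomial (Fin n) N →ₗ[N] H}
  (hG : IsGM S' nab br) (co : H ≃ₗ[RatFunc N] (D.U → RatFunc N))
  (hco : ∀ u : D.U, co (br (monomial (u : Fin n →₀ ℕ) 1)) = Pi.single u 1)
  {H₀ : Type u} [AddCommGroup H₀] [Module (RatFunc M) H₀] [Module M H₀]
  [IsScalarTower M (RatFunc M) H₀] {nab₀ : H₀ →ₗ[M] H₀} {br₀ : MvPolynomial (Fin n) M →ₗ[M] H₀}
  (hG₀ : IsGM D.S nab₀ br₀) (co₀ : H₀ ≃ₗ[RatFunc M] (D.U → RatFunc M))
  (hco₀ : ∀ u : D.U, co₀ (br₀ (monomial (u : Fin n →₀ ℕ) 1)) = Pi.single u 1)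
  (Ds : Der (RatFunc N)) (hDs : ∀ a, Ds (jL M N a) = jL M N (dsP M a))
  (hDs2 : ∀ x, Ds (DZ N x) = DZ N (Ds x))
  (a : (Fin n →₀ ℕ) → D.U → Polynomial (PowerSeries M))
  (ha : ∀ e, Rep D.U D.f (monomial e 1) (a e))

private theorem isona_aeval {B B' : Type*} [CommRing B] [CommRing B'] {n : ℕ} (ψ : B →+* B')
    (φ : MvPolynomial (Fin n) B) (δ : Polynomial B) :
    (Polynomial.aeval φ δ).map ψ = Polynomial.aeval (φ.map ψ) (δ.map ψ) := by
  rw [Polynomial.aeval_def, Polynomial.aeval_def, Polynomial.eval₂_map, Polynomial.hom_eval₂]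
  congr 1
  ext a : 1
  simp only [RingHom.comp_apply, algebraMap_eq, map_C]

private theorem isona_dvg {B B' : Type*} [CommRing B] [CommRing B'] {n : ℕ} (ψ : B →+* B')
    (q : Fin n → MvPolynomial (Fin n) B) :
    (dvg q).map ψ = dvg fun i => (q i).map ψ := by
  unfold dvg
  rw [map_sum]
  exact Finset.sum_congr rfl fun i _ => (pderiv_map).symm

private theorem isona_scal {M N : Type u} [Field M] [CharZero M] [Field N] [CharZero N]
    [Algebra (PowerSeries M) N] (k : ℕ) :
    Cmp (M := M) (((k : RatFunc N) + 1)⁻¹) (PowerSeries.C (((k : RatFunc M) + 1)⁻¹)) := by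
  have hN : ((k : RatFunc N) + 1) ≠ 0 := by exact_mod_cast Nat.succ_ne_zero k
  have hM : ((k : RatFunc M) + 1) ≠ 0 := by exact_mod_cast Nat.succ_ne_zero k
  have e1 : jL M N ((k : Polynomial (PowerSeries M)) + 1) = (k : RatFunc N) + 1 := by
    rw [map_add, map_natCast, map_one]
  have e2 : jR M ((k : Polynomial (PowerSeries M)) + 1) =
      PowerSeries.C ((k : RatFunc M) + 1) := by
    rw [map_add, map_natCast, map_one, map_add, map_natCast, map_one]
  refine ⟨1, (k : Polynomial (PowerSeries M)) + 1, ?_, ?_, ?_⟩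
  · intro h
    rw [h, map_zero] at e1
    exact hN e1.symm
  · rw [e1, mul_inv_cancel₀ hN, map_one]
  · rw [e2, ← map_mul, mul_inv_cancel₀ hM, map_one, map_one]

include hD hI hE hG hco in
theorem co_nab_t (h : H) : co (nab h) =
    conn (DZ N) (fun i j => jL M N (I.Gt i j) / jL M N I.δ) (co h) := by
  have hinj : Function.Injective (algebraMap (PowerSeries M) N) := IsFractionRing.injective _ _
  have hδ0 : D.δ.map (algebraMap (PowerSeries M) N) ≠ 0 :=
    (Polynomial.map_ne_zero_iff hinj).2 hD.monic.ne_zero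
  have hann : Polynomial.aeval S'.φ (D.δ.map (algebraMap (PowerSeries M) N)) =
      ∑ i, (D.q i).map (algebraMap (PowerSeries M) N) * pderiv i S'.φ := by
    rw [hE.φ, ← isona_aeval, hD.ann, map_sum]
    exact Finset.sum_congr rfl fun i _ => by rw [map_mul, pderiv_map]
  have h1 : ∀ u : D.U, Rep D.U S'.φ ((dvg fun i => (D.q i).map (algebraMap (PowerSeries M) N) *
      monomial (u : Fin n →₀ ℕ) 1) -
      Polynomial.aeval S'.φ (Polynomial.derivative (D.δ.map (algebraMap (PowerSeries M) N))) *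
        monomial (u : Fin n →₀ ℕ) 1)
      fun v => (I.Gt v u).map (algebraMap (PowerSeries M) N) := fun u => by
    have h2 := Rep_map (algebraMap (PowerSeries M) N) (hI.gt u)
    rw [map_sub, isona_dvg, map_mul, isona_aeval, ← hE.φ, dtP_apply] at h2
    simp only [map_mul, map_monomial, map_one] at h2
    rw [← Polynomial.derivative_map] at h2
    exact h2
  have h3 := co_nab hG co hco (D.δ.map (algebraMap (PowerSeries M) N)) hδ0
    (fun i => (D.q i).map (algebraMap (PowerSeries M) N)) hann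
    (fun v u => (I.Gt v u).map (algebraMap (PowerSeries M) N)) h1 h
  rw [hI.δ]
  exact h3

include hD hI hE hG hco ha in
theorem cx_cmp (k : ℕ) (e : Fin n →₀ ℕ) (u : D.U) :
    Cmp (co (lv nab br k (monomial e 1)) u) (cx I (a e) k u) := by
  have hδ : PowerSeries.constantCoeff (jR M I.δ) ≠ 0 := by
    rw [jR_const, hI.δ]
    exact (map_ne_zero_iff _ (RatFunc.algebraMap_injective M)).2 (hD.monic.map _).ne_zero
  induction k generalizing u with
  | zero =>
    have h1 := Rep_map (algebraMap (PowerSeries M) N) (ha e)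
    rw [map_monomial, map_one, ← hE.φ] at h1
    rw [lv_zero, co_rep hG co hco h1 u]
    exact Cmp_jL (a e u)
  | succ k ih =>
    have hN : ((k : N) + 1) ≠ 0 := by exact_mod_cast Nat.succ_ne_zero k
    have h1 : lv nab br (k + 1) (monomial e (1 : N)) =
        (((k : RatFunc N) + 1)⁻¹) • nab (lv nab br k (monomial e 1)) := by
      rw [nab_lv]
      have h2 : (((k : N) + 1) • lv nab br (k + 1) (monomial e (1 : N)) : H) =
          ((k : RatFunc N) + 1) • lv nab br (k + 1) (monomial e 1) := by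
        rw [← algebraMap_smul (RatFunc N) ((k : N) + 1)]
        rw [map_add, map_natCast, map_one]
      have hN' : ((k : RatFunc N) + 1) ≠ 0 := by exact_mod_cast Nat.succ_ne_zero k
      rw [h2, smul_smul, inv_mul_cancel₀ hN', one_smul]
    rw [h1, map_smul, Pi.smul_apply, smul_eq_mul, co_nab_t hD hI hE hG co hco]
    show Cmp (((k : RatFunc N) + 1)⁻¹ * (DZ N (co (lv nab br k (monomial e 1)) u) +
      ∑ v, jL M N (I.Gt u v) / jL M N I.δ * co (lv nab br k (monomial e 1)) v))
      (PowerSeries.C (((k : RatFunc M) + 1)⁻¹) * (dtR M (cx I (a e) k u) +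
        ∑ v, jR M (I.Gt u v) * (jR M I.δ)⁻¹ * cx I (a e) k v))
    exact Cmp_mul (isona_scal k) (Cmp_add (Cmp_dt (ih u))
      (Cmp_sum _ fun v _ => Cmp_mul (Cmp_div (I.Gt u v) I.δ hδ) (ih v)))

include hD hI hG₀ hco₀ in
theorem co_nab_0 (h : H₀) : co₀ (nab₀ h) = conn (DZ M) (fun i j =>
    algebraMap (Polynomial M) (RatFunc M) ((I.Gt i j).map (PowerSeries.constantCoeff (R := M))) /
      algebraMap (Polynomial M) (RatFunc M) D.S.δ) (co₀ h) := by
  have hδ0 : D.S.δ ≠ 0 := hD.ok.sep.ne_zero
  have hδ : Polynomial.aeval D.S.φ D.S.δ = ∑ i, (D.q i).map (PowerSeries.constantCoeff (R := M)) *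
      pderiv i D.S.φ := by
    have h1 := congrArg (MvPolynomial.map (PowerSeries.constantCoeff (R := M))) hD.ann
    rw [isonb_aeval, isonb_f, ← hD.red, map_sum] at h1
    rw [h1]
    refine Finset.sum_congr rfl fun i _ => ?_
    rw [map_mul, ← pderiv_map, isonb_f]
  have hR : ∀ u : D.U, Rep D.U D.S.φ ((dvg fun i =>
      (D.q i).map (PowerSeries.constantCoeff (R := M)) * monomial (u : Fin n →₀ ℕ) 1) -
      Polynomial.aeval D.S.φ (Polynomial.derivative D.S.δ) * monomial (u : Fin n →₀ ℕ) 1)
        fun v => (I.Gt v u).map (PowerSeries.constantCoeff (R := M)) := by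
    intro u
    have h1 := Rep_map (PowerSeries.constantCoeff (R := M)) (hI.gt u)
    rw [isonb_f, map_sub, isonb_dvg, map_mul, isonb_aeval, isonb_f, dtP_apply,
      ← Polynomial.derivative_map, ← hD.red, map_monomial,
      map_one (PowerSeries.constantCoeff (R := M))] at h1
    have h2 : (fun i => MvPolynomial.map (PowerSeries.constantCoeff (R := M))
        (D.q i * monomial (u : Fin n →₀ ℕ) (1 : PowerSeries M))) =
        fun i => (D.q i).map (PowerSeries.constantCoeff (R := M)) *
          monomial (u : Fin n →₀ ℕ) (1 : M) := by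
      funext i
      rw [map_mul, map_monomial, map_one]
    rw [h2] at h1
    exact h1
  exact co_nab hG₀ co₀ hco₀ D.S.δ hδ0 (fun i => (D.q i).map (PowerSeries.constantCoeff (R := M)))
    hδ (fun i j => (I.Gt i j).map (PowerSeries.constantCoeff (R := M))) hR h

include hD hI hG₀ hco₀ ha in
theorem cx_const (k : ℕ) (e : Fin n →₀ ℕ) (u : D.U) :
    PowerSeries.constantCoeff (cx I (a e) k u) = co₀ (lv nab₀ br₀ k (monomial e 1)) u := by
  induction k generalizing u with
  | zero =>
    have h1 := Rep_map (PowerSeries.constantCoeff (R := M)) (ha e)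
    rw [isonb_f, map_monomial, map_one] at h1
    have h2 : cx I (a e) 0 u = jR M (a e u) := rfl
    rw [h2, jR_const, lv_zero, co_rep hG₀ co₀ hco₀ h1 u]
  | succ k ih =>
    have h2 : cx I (a e) (k + 1) u = PowerSeries.C (((k : RatFunc M) + 1)⁻¹) *
      conn (dtR M) (fun i j => jR M (I.Gt i j) * (jR M I.δ)⁻¹) (cx I (a e) k) u := rfl
    have h3 : PowerSeries.constantCoeff
        (conn (dtR M) (fun i j => jR M (I.Gt i j) * (jR M I.δ)⁻¹) (cx I (a e) k) u) =
        co₀ (nab₀ (lv nab₀ br₀ k (monomial e 1))) u := by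
      rw [co_nab_0 hD hI hG₀ co₀ hco₀]
      unfold conn
      rw [map_add, map_sum]
      congr 1
      · rw [← PowerSeries.coeff_zero_eq_constantCoeff_apply, coeff_dtR,
          PowerSeries.coeff_zero_eq_constantCoeff_apply, ih u, DZ_apply]
      · refine Finset.sum_congr rfl fun v _ => ?_
        rw [map_mul, map_mul, PowerSeries.constantCoeff_inv, jR_const, jR_const, ih v, hI.δ,
          ← hD.red]
        exact congrArg (fun t => t * co₀ ((lv nab₀ br₀ k) ((monomial e) 1)) v)
          (div_eq_mul_inv _ _).symm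
    have hk : ((k : RatFunc M) + 1) ≠ 0 := Nat.cast_add_one_ne_zero k
    have h4 : nab₀ (lv nab₀ br₀ k (monomial e 1)) =
        ((k : RatFunc M) + 1) • lv nab₀ br₀ (k + 1) (monomial e 1) := by
      rw [nab_lv, ← algebraMap_smul (RatFunc M), map_add, map_natCast, map_one]
    rw [h2, map_mul, h3, h4, PowerSeries.constantCoeff_C, map_smul, Pi.smul_apply, smul_eq_mul,
      ← mul_assoc, inv_mul_cancel₀ hk, one_mul]

private theorem isonc_jL {M N : Type u} [Field M] [Field N] [Algebra (PowerSeries M) N]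
    (c : PowerSeries M) : jL M N (Polynomial.C c) =
      algebraMap N (RatFunc N) (algebraMap (PowerSeries M) N c) := by
  unfold jL
  rw [RingHom.comp_apply, Polynomial.coe_mapRingHom, Polynomial.map_C,
    IsScalarTower.algebraMap_apply N (Polynomial N) (RatFunc N)]
  rfl

private theorem isonc_smul {M N : Type u} [Field M] [Field N] [Algebra (PowerSeries M) N]
    {H : Type u} [AddCommGroup H] [Module (RatFunc N) H] [Module N H]
    [IsScalarTower N (RatFunc N) H] (c : PowerSeries M) (h : H) :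
    jL M N (Polynomial.C c) • h = algebraMap (PowerSeries M) N c • h := by
  rw [isonc_jL, algebraMap_smul]

private theorem isonc_mul {M N : Type u} [Field M] [Field N] [Algebra (PowerSeries M) N] {n : ℕ}
    (θ : MvPolynomial (Fin n) M) (e : Fin n →₀ ℕ) :
    ((monomial e (1 : PowerSeries M)) * θ.map PowerSeries.C).map (algebraMap (PowerSeries M) N) =
      ∑ m ∈ θ.support, algebraMap (PowerSeries M) N (PowerSeries.C (coeff m θ)) •
        monomial (e + m) (1 : N) := by
  classical
  have h1 : θ = ∑ m ∈ θ.support, monomial m (coeff m θ) := θ.as_sum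
  conv_lhs => rw [h1]
  rw [map_sum, Finset.mul_sum, map_sum]
  refine Finset.sum_congr rfl fun m _ => ?_
  rw [map_monomial, monomial_mul, one_mul, map_monomial, smul_monomial, smul_eq_mul, mul_one]

private theorem isonc_der1 {R : Type*} [CommRing R] (D : Der R) : D 1 = 0 :=
  D.map_one_eq_zero

private theorem isonc_der {R : Type*} [CommRing R] (D : Der R) (k : ℕ) : D ((k : R) + 1) = 0 := by
  rw [map_add, Derivation.map_natCast, Derivation.map_one_eq_zero, add_zero]

private theorem isonc_cst (a : ℕ) (x : H) :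
    nsL I Ds co (((a : RatFunc N) + 1) • x) = ((a : RatFunc N) + 1) • nsL I Ds co x := by
  rw [nsL_smul, isonc_der, zero_smul, zero_add]

private theorem isonc_nat (N : Type u) [Field N] {H : Type u} [AddCommGroup H]
    [Module (RatFunc N) H] [Module N H] [IsScalarTower N (RatFunc N) H] (k : ℕ) (h : H) :
    ((k : RatFunc N) + 1) • h = ((k : N) + 1) • h := by
  rw [← algebraMap_smul (RatFunc N) ((k : N) + 1) h, map_add, map_natCast, map_one]

include hD hI hE hG hco hDs hDs2 in
theorem nsL_lv (hn : 2 ≤ n) (k : ℕ) (e : Fin n →₀ ℕ) :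
    nsL I Ds co (lv nab br k (monomial e 1)) = - (((k : RatFunc N) + 1) •
      ∑ m ∈ D.θ.support, jL M N (Polynomial.C (PowerSeries.C (coeff m D.θ))) •
        lv nab br (k + 1) (monomial (e + m) 1)) := by
  induction k with
  | zero =>
    have h1 : (monomial e (1 : N)) =
        (monomial e (1 : PowerSeries M)).map (algebraMap (PowerSeries M) N) := by
      rw [map_monomial, (algebraMap (PowerSeries M) N).map_one]
    have h2 := nsL_br hD hI hE hG co hco Ds hDs hDs2 hn (monomial e (1 : PowerSeries M))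
    rw [lv_zero, h1, h2, mD_monomial, isonc_der1, monomial_zero, map_zero,
      map_zero, zero_sub, isonc_mul, isonc_nat N, map_sum, map_sum, Nat.cast_zero, zero_add,
      one_smul]
    congr 1
    refine Finset.sum_congr rfl fun m _ => ?_
    rw [isonc_smul, map_smul, map_smul]
    congr 1
    rw [← lv_zero (nab := nab) (br := br) (monomial (e + m) 1), nab_lv, Nat.cast_zero, zero_add,
      one_smul]
  | succ k ih =>
    have hk : ((k : RatFunc N) + 1) ≠ 0 := Nat.cast_add_one_ne_zero k
    have h1 := nsL_nab hD hI hE hG co hco Ds hDs hDs2 hn (lv nab br k (monomial e 1))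
    rw [nab_lv, ← isonc_nat N, isonc_cst, ih, map_neg, isonc_nat N k (∑ m ∈ D.θ.support, _),
      map_smul, map_sum, ← isonc_nat N, ← smul_neg] at h1
    have h2 := smul_right_injective H hk h1
    rw [h2]
    congr 1
    rw [Finset.smul_sum]
    refine Finset.sum_congr rfl fun m _ => ?_
    rw [isonc_smul, map_smul, nab_lv, isonc_smul, isonc_nat N, smul_comm]

omit [CharZero M] in
private theorem isond_const (a : M) : jR M (Polynomial.C (PowerSeries.C a)) =
    PowerSeries.C (algebraMap M (RatFunc M) a) := by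
  show Polynomial.eval₂ (PowerSeries.map (algebraMap M (RatFunc M)))
    (PowerSeries.C (RatFunc.X : RatFunc M)) (Polynomial.C (PowerSeries.C a)) = _
  rw [Polynomial.eval₂_C, PowerSeries.map_C]

omit [CharZero M] [CharZero N] in
private theorem isond_nat (k : ℕ) :
    Cmp (M := M) ((k : RatFunc N) + 1) (PowerSeries.C ((k : RatFunc M) + 1)) := by
  have h := Cmp_jL (M := M) (N := N) ((k : Polynomial (PowerSeries M)) + 1)
  rw [map_add, map_natCast, map_one, map_add, map_natCast, map_one] at h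
  rw [map_add, map_natCast, map_one]
  exact h

include hD hI hE hG hco hDs hDs2 ha in
theorem cx_ns (hn : 2 ≤ n) (k : ℕ) (e : Fin n →₀ ℕ) :
    conn (dsR (RatFunc M)) I.BsR (cx I (a e) k) =
      - ((PowerSeries.C ((k : RatFunc M) + 1) : PowerSeries (RatFunc M)) •
        ∑ m ∈ D.θ.support, (PowerSeries.C (algebraMap M (RatFunc M) (coeff m D.θ)) :
          PowerSeries (RatFunc M)) • cx I (a (e + m)) (k + 1)) := by
  have hδ : PowerSeries.constantCoeff (jR M I.δ) ≠ 0 := by
    rw [jR_const, hI.δ]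
    intro h
    exact (hD.monic.map _).ne_zero (RatFunc.algebraMap_injective M (by rw [h, map_zero]))
  funext u
  have h1 := congrArg (fun h => co h u) (nsL_lv hD hI hE hG co hco Ds hDs hDs2 hn k e)
  have h2 : co (nsL I Ds co (lv nab br k (monomial e 1))) =
      conn Ds (fun i j => jL M N (I.Gs i j) / jL M N I.δ) (co (lv nab br k (monomial e 1))) := by
    unfold nsL
    rw [co.apply_symm_apply]
  have h3 : co (- (((k : RatFunc N) + 1) •
      ∑ m ∈ D.θ.support, jL M N (Polynomial.C (PowerSeries.C (coeff m D.θ))) •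
        lv nab br (k + 1) (monomial (e + m) 1))) u = - (((k : RatFunc N) + 1) *
      ∑ m ∈ D.θ.support, jL M N (Polynomial.C (PowerSeries.C (coeff m D.θ))) *
        co (lv nab br (k + 1) (monomial (e + m) 1)) u) := by
    simp only [map_neg, map_smul, map_sum, Pi.neg_apply, Pi.smul_apply, Finset.sum_apply,
      smul_eq_mul]
  have h4 : conn Ds (fun i j => jL M N (I.Gs i j) / jL M N I.δ)
      (co (lv nab br k (monomial e 1))) u = - (((k : RatFunc N) + 1) *
      ∑ m ∈ D.θ.support, jL M N (Polynomial.C (PowerSeries.C (coeff m D.θ))) *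
        co (lv nab br (k + 1) (monomial (e + m) 1)) u) := by
    rw [← h3, ← h2]
    exact h1
  have h5 : Cmp (conn Ds (fun i j => jL M N (I.Gs i j) / jL M N I.δ)
      (co (lv nab br k (monomial e 1))) u) (conn (dsR (RatFunc M)) I.BsR (cx I (a e) k) u) := by
    unfold conn
    refine Cmp_add (Cmp_ds Ds hDs (cx_cmp hD hI hE hG co hco a ha k e u))
      (Cmp_sum _ fun v _ => Cmp_mul ?_ (cx_cmp hD hI hE hG co hco a ha k e v))
    exact Cmp_div _ _ hδ
  have h6 : Cmp (((k : RatFunc N) + 1) *
      ∑ m ∈ D.θ.support, jL M N (Polynomial.C (PowerSeries.C (coeff m D.θ))) *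
        co (lv nab br (k + 1) (monomial (e + m) 1)) u)
      (PowerSeries.C ((k : RatFunc M) + 1) * ∑ m ∈ D.θ.support,
        PowerSeries.C (algebraMap M (RatFunc M) (coeff m D.θ)) * cx I (a (e + m)) (k + 1) u) := by
    refine Cmp_mul (isond_nat k) (Cmp_sum _ fun m _ => Cmp_mul ?_
      (cx_cmp hD hI hE hG co hco a ha (k + 1) (e + m) u))
    rw [← isond_const]
    exact Cmp_jL _
  have h7 := Cmp_add h5 h6
  rw [h4, neg_add_cancel] at h7
  have h8 := Cmp_zero h7
  rw [Pi.neg_apply, Pi.smul_apply, Finset.sum_apply, smul_eq_mul]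
  simp only [Pi.smul_apply, smul_eq_mul]
  exact eq_neg_of_add_eq_zero_left h8

end MPadcHM
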