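import Pool.Agent.Lib.MP_adc574_ag_HM.KosC
import Pool.Agent.Lib.MP_adc574_ag_HM.KosD

/-!
# JOB KosE: Lemma S (strictness)

`f` of weighted degree `≤ d`, `f_d = part w d f` its top part, `h j = ∂_j f_d`, `hJ`: powers of the variables in `(h)`. Level: `A` has level `N` if `wtp e ≤ N + w i + w j` for
all `e ∈ (A i j).support`. `zz A (∂ f)` then has only monomials with `wtp e ≤ N + d`.

`lemS`: if `A` has level `N` and the coefficients of `z(A) = zz A (∂ f)` at all `e` with `wtp e = N + d` vanish, then there is an antisymmetric `A'` of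
level `< N` (`wtp e + 1 ≤ N + w i + w j`) with `z(A') = z(A)`.
Proof by strong induction on `N`. Let `a i j` be the part of `A i j` of `wtp e = N + w i + w j`, `b j = ∑ i, ∂_i a i j` (monomials `wtp e = N + w j`). The part of
`z(A)` with `wtp e = N + d` is `∑ j, b j * h j` (products of lower parts have smaller `wtp`), so `∑ j, b j * h j = 0`. `koszul_hom`:
`b j = ∑ i, C' j i * h i`, `Asym C'`, `wtp e + d = N + w i + w j` on `C' j i`; put `C i j = C' j i`, so `b j = ∑ i, C i j * h i`. `dvg b = 0` (`dvg_dvg`), and `dvg b = - zz C h` (`dvg_asym` for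
`f_d`), so `zz C h = 0`. If `N < d` then `C = 0` (`wtp e ≥ ∑ w ≥ w i + w j` for `i ≠ j`); put `C2 = C`. If `N ≥ d`: `C` has level `N - d < N`, and the coefficients of
`z(C) = zz C (∂ f)` at `wtp e = (N - d) + d` are those of `zz C h = 0`; by induction there is `C1` of level `< N - d` with `z(C1) = z(C)`; put `C2 = C - C1`: `z(C2) = 0`, `C2` has level `N - d` with top part `C`.
`B j := ∑ i, ∂_i A i j - ∑ i, C2 i j * ∂_i f`: its monomials have `wtp e ≤ N + w j`, and those with `wtp e = N + w j` cancel (top parts `b j` and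
`∑ i, C i j * h i`), so `wtp e ≤ (N - 1) + w j` (for `N = 0`: `B = 0` since `wtp e ≥ ∑ w > w j`; then take `A' = 0`, `z(A) = ∑ B_j ∂_j f + 0 = 0`). `dvg B = 0 + z(C2) = 0` (`dvg_dvg`, `dvg_asym`). By `poincare`
`B j = ∑ i, ∂_i A' i j`, `A'` of level `N - 1`. `z(A') = ∑ B j ∂_j f = z(A) - ∑_{i,j} C2 i j ∂_i f ∂_j f = z(A)`.
-/

set_option autoImplicit false

namespace MPadcHM

open MvPolynomial

variable {K : Type*} [Field K] [CharZero K] {n : ℕ}

private theorem kose_wtp_add (w : Fin n → ℕ) (e1 e2 : Fin n →₀ ℕ) : wtp w (e1 + e2) = wtp w e1 + wt w e2 := by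
  unfold wtp wt
  rw [← Finset.sum_add_distrib]
  refine Finset.sum_congr rfl fun i _ => ?_
  rw [Finsupp.add_apply]
  ring

private theorem kose_wt_single (w : Fin n → ℕ) (i : Fin n) : wt w (Finsupp.single i 1) = w i := by
  unfold wt
  rw [Finset.sum_eq_single i]
  · rw [Finsupp.single_eq_same, mul_one]
  · intro j _ hj
    rw [Finsupp.single_eq_of_ne hj, mul_zero]
  · intro h
    exact absurd (Finset.mem_univ i) h

private theorem kose_wt_add (w : Fin n → ℕ) (e1 e2 : Fin n →₀ ℕ) : wt w (e1 + e2) = wt w e1 + wt w e2 := by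
  unfold wt
  rw [← Finset.sum_add_distrib]
  refine Finset.sum_congr rfl fun i _ => ?_
  rw [Finsupp.add_apply]
  ring

private theorem kose_wtp_single (w : Fin n → ℕ) (e : Fin n →₀ ℕ) (i : Fin n) :
    wtp w (e + Finsupp.single i 1) = wtp w e + w i := by
  rw [kose_wtp_add, kose_wt_single]

private theorem kose_weight (w : Fin n → ℕ) (e : Fin n →₀ ℕ) : Finsupp.weight w e = wt w e := by
  rw [Finsupp.weight_apply]
  refine (Finsupp.sum_fintype e (fun i c => c • w i) (fun i => zero_smul ℕ (w i))).trans ?_
  unfold wt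
  refine Finset.sum_congr rfl fun i _ => ?_
  rw [smul_eq_mul, mul_comm]

private theorem kose_wtp_lb (w : Fin n → ℕ) (e : Fin n →₀ ℕ) {i j : Fin n} (hij : i ≠ j) :
    w i + w j ≤ wtp w e := by
  classical
  unfold wtp
  have h1 : ∑ k ∈ ({i, j} : Finset (Fin n)), w k * (e k + 1) ≤ ∑ k, w k * (e k + 1) :=
    Finset.sum_le_sum_of_subset (Finset.subset_univ _)
  rw [Finset.sum_pair hij] at h1
  have h2 : w i ≤ w i * (e i + 1) := Nat.le_mul_of_pos_right _ (Nat.succ_pos _)
  have h3 : w j ≤ w j * (e j + 1) := Nat.le_mul_of_pos_right _ (Nat.succ_pos _)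
  omega

private theorem kose_wtp_lb1 (w : Fin n → ℕ) (e : Fin n →₀ ℕ) (j : Fin n) : w j ≤ wtp w e := by
  unfold wtp
  have h1 := Finset.single_le_sum (f := fun k => w k * (e k + 1)) (fun k _ => Nat.zero_le _) (Finset.mem_univ j)
  have h3 : w j ≤ w j * (e j + 1) := Nat.le_mul_of_pos_right _ (Nat.succ_pos _)
  exact le_trans h3 h1

/-- a polynomial with `wtp ≤ k` -/
private def KoseL (w : Fin n → ℕ) (k : ℤ) (P : MvPolynomial (Fin n) K) : Prop :=
  ∀ e, coeff e P ≠ 0 → (wtp w e : ℤ) ≤ k

/-- a polynomial with `wt ≤ k` -/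
private def KoseD (w : Fin n → ℕ) (k : ℤ) (P : MvPolynomial (Fin n) K) : Prop :=
  ∀ e, coeff e P ≠ 0 → (wt w e : ℤ) ≤ k

/-- `P0` is the part of `P` of `wtp = k` -/
private def KoseT (w : Fin n → ℕ) (k : ℤ) (P P0 : MvPolynomial (Fin n) K) : Prop :=
  ∀ e, coeff e P0 = if (wtp w e : ℤ) = k then coeff e P else 0

/-- `P0` is the part of `P` of `wt = k` -/
private def KoseU (w : Fin n → ℕ) (k : ℤ) (P P0 : MvPolynomial (Fin n) K) : Prop :=
  ∀ e, coeff e P0 = if (wt w e : ℤ) = k then coeff e P else 0

private theorem kose_mul_le {w : Fin n → ℕ} {p q : ℤ} {P Q : MvPolynomial (Fin n) K} (hP : KoseL w p P)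
    (hQ : KoseD w q Q) : KoseL w (p + q) (P * Q) := by
  classical
  intro e he
  rw [coeff_mul] at he
  obtain ⟨x, hx, hx0⟩ := Finset.exists_ne_zero_of_sum_ne_zero he
  have h1 := hP x.1 (left_ne_zero_of_mul hx0)
  have h2 := hQ x.2 (right_ne_zero_of_mul hx0)
  rw [← Finset.HasAntidiagonal.mem_antidiagonal.mp hx, kose_wtp_add]
  push_cast
  linarith

private theorem kose_mul_top {w : Fin n → ℕ} {p q : ℤ} {P Q P0 Q0 : MvPolynomial (Fin n) K} (hP : KoseL w p P)
    (hQ : KoseD w q Q) (hP0 : KoseT w p P P0) (hQ0 : KoseU w q Q Q0) : KoseT w (p + q) (P * Q) (P0 * Q0) := by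
  classical
  intro e
  rw [coeff_mul, coeff_mul]
  by_cases h : (wtp w e : ℤ) = p + q
  · rw [if_pos h]
    refine Finset.sum_congr rfl fun x hx => ?_
    have hs : (wtp w x.1 : ℤ) + wt w x.2 = p + q := by
      rw [← h, ← Finset.HasAntidiagonal.mem_antidiagonal.mp hx, kose_wtp_add]
      push_cast
      ring
    rw [hP0, hQ0]
    by_cases c1 : coeff x.1 P = 0
    · rw [c1]; simp
    by_cases c2 : coeff x.2 Q = 0
    · rw [c2]; simp
    have h1 := hP x.1 c1
    have h2 := hQ x.2 c2
    rw [if_pos (by linarith), if_pos (by linarith)]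
  · rw [if_neg h]
    refine Finset.sum_eq_zero fun x hx => ?_
    have hs : (wtp w x.1 : ℤ) + wt w x.2 = wtp w e := by
      rw [← Finset.HasAntidiagonal.mem_antidiagonal.mp hx, kose_wtp_add]
      push_cast
      ring
    rw [hP0, hQ0]
    by_cases c1 : (wtp w x.1 : ℤ) = p
    · rw [if_neg (c := (wt w x.2 : ℤ) = q) (fun h2 => h (by rw [← hs, c1, h2])), mul_zero]
    · rw [if_neg c1, zero_mul]

private theorem kose_sum_le {w : Fin n → ℕ} {p : ℤ} {P : Fin n → MvPolynomial (Fin n) K}
    (hP : ∀ i, KoseL w p (P i)) : KoseL w p (∑ i, P i) := by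
  intro e he
  rw [coeff_sum] at he
  obtain ⟨x, _, hx0⟩ := Finset.exists_ne_zero_of_sum_ne_zero he
  exact hP x e hx0

private theorem kose_sum_top {w : Fin n → ℕ} {p : ℤ} {P P0 : Fin n → MvPolynomial (Fin n) K}
    (hP : ∀ i, KoseT w p (P i) (P0 i)) : KoseT w p (∑ i, P i) (∑ i, P0 i) := by
  intro e
  rw [coeff_sum, coeff_sum]
  by_cases h : (wtp w e : ℤ) = p
  · rw [if_pos h]
    exact Finset.sum_congr rfl fun i _ => by rw [hP i e, if_pos h]
  · rw [if_neg h]
    exact Finset.sum_eq_zero fun i _ => by rw [hP i e, if_neg h]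

private theorem kose_pd_le {w : Fin n → ℕ} {p : ℤ} {P : MvPolynomial (Fin n) K} (hP : KoseL w p P) (i : Fin n) :
    KoseL w (p - w i) (pderiv i P) := by
  intro e he
  rw [coeff_pderiv] at he
  have h := hP _ (left_ne_zero_of_mul he)
  rw [kose_wtp_single] at h
  push_cast at h
  linarith

private theorem kose_pd_top {w : Fin n → ℕ} {p : ℤ} {P P0 : MvPolynomial (Fin n) K} (hP : KoseT w p P P0) (i : Fin n) :
    KoseT w (p - w i) (pderiv i P) (pderiv i P0) := by
  intro e
  rw [coeff_pderiv, coeff_pderiv, hP, kose_wtp_single]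
  by_cases h : (wtp w e : ℤ) = p - w i
  · rw [if_pos h, if_pos (by push_cast; linarith)]
  · rw [if_neg h, if_neg (fun h2 => h (by push_cast at h2; linarith)), zero_mul]

private theorem kose_exists_top (w : Fin n → ℕ) (p : ℤ) (P : MvPolynomial (Fin n) K) : ∃ P0, KoseT w p P P0 := by
  classical
  refine ⟨∑ e ∈ P.support.filter (fun e => (wtp w e : ℤ) = p), monomial e (coeff e P), fun e => ?_⟩
  rw [coeff_sum]
  by_cases h : (wtp w e : ℤ) = p
  · rw [if_pos h]
    by_cases h0 : coeff e P = 0
    · rw [h0]
      refine Finset.sum_eq_zero fun x _ => ?_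
      rw [coeff_monomial]
      by_cases hx : x = e
      · rw [if_pos hx, hx, h0]
      · rw [if_neg hx]
    · rw [Finset.sum_eq_single e]
      · rw [coeff_monomial, if_pos rfl]
      · intro x _ hx
        rw [coeff_monomial, if_neg hx]
      · intro hx
        exact absurd (Finset.mem_filter.mpr ⟨mem_support_iff.mpr h0, h⟩) hx
  · rw [if_neg h]
    refine Finset.sum_eq_zero fun x hx => ?_
    rw [coeff_monomial, if_neg]
    rintro rfl
    exact h (Finset.mem_filter.mp hx).2

private theorem kose_quad {C : Fin n → Fin n → MvPolynomial (Fin n) K} (hC : Asym C)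
    (x : Fin n → MvPolynomial (Fin n) K) : ∑ j, (∑ i, C i j * x i) * x j = 0 := by
  have h1 : ∑ j, (∑ i, C i j * x i) * x j = - ∑ j, (∑ i, C i j * x i) * x j := by
    have e1 : ∑ j, (∑ i, C i j * x i) * x j = ∑ j, ∑ i, C i j * x i * x j :=
      Finset.sum_congr rfl fun j _ => Finset.sum_mul _ _ _
    rw [e1]
    conv_lhs => rw [Finset.sum_comm]
    rw [← Finset.sum_neg_distrib]
    refine Finset.sum_congr rfl fun j _ => ?_
    rw [← Finset.sum_neg_distrib]
    refine Finset.sum_congr rfl fun i _ => ?_
    rw [hC.2 j i]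
    ring
  have h2 : (2 : MvPolynomial (Fin n) K) * ∑ j, (∑ i, C i j * x i) * x j = 0 := by linear_combination h1
  have h3 : (2 : MvPolynomial (Fin n) K) ≠ 0 := two_ne_zero
  exact (mul_eq_zero.mp h2).resolve_left h3

private theorem kose_zz_sub (A B : Fin n → Fin n → MvPolynomial (Fin n) K) (x : Fin n → MvPolynomial (Fin n) K) :
    zz (fun i j => A i j - B i j) x = zz A x - zz B x := by
  unfold zz
  rw [← Finset.sum_sub_distrib]
  refine Finset.sum_congr rfl fun j _ => ?_
  rw [← sub_mul, ← Finset.sum_sub_distrib]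
  refine congrArg (fun y => y * x j) (Finset.sum_congr rfl fun i _ => ?_)
  rw [map_sub]

private theorem kose_zz_zero (x : Fin n → MvPolynomial (Fin n) K) :
    zz (fun _ _ => (0 : MvPolynomial (Fin n) K)) x = 0 := by
  unfold zz
  refine Finset.sum_eq_zero fun j _ => ?_
  rw [Finset.sum_eq_zero (fun i _ => by rw [map_zero]), zero_mul]

theorem lemS (hn : 2 ≤ n) (w : Fin n → ℕ) (hw : ∀ i, 0 < w i) (d : ℕ) (hd : 0 < d)
    (f : MvPolynomial (Fin n) K) (hf : DegLe w d f) (M : ℕ)
    (hJ : ∀ i, (X i : MvPolynomial (Fin n) K) ^ M ∈ Jac (part w d f)) (N : ℕ)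
    (A : Fin n → Fin n → MvPolynomial (Fin n) K) (hA : Asym A)
    (hlev : ∀ i j, ∀ e ∈ (A i j).support, wtp w e ≤ N + w i + w j)
    (htop : ∀ e, wtp w e = N + d → coeff e (zz A fun j => pderiv j f) = 0) :
    ∃ A' : Fin n → Fin n → MvPolynomial (Fin n) K, Asym A' ∧
      (∀ i j, ∀ e ∈ (A' i j).support, wtp w e + 1 ≤ N + w i + w j) ∧
      (zz A' fun j => pderiv j f) = zz A fun j => pderiv j f := by
  classical
  induction N using Nat.strong_induction_on generalizing A with
  | _ N ih =>
    set F : Fin n → MvPolynomial (Fin n) K := fun j => pderiv j f with hF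
    set fd : MvPolynomial (Fin n) K := part w d f with hfd
    set h : Fin n → MvPolynomial (Fin n) K := fun j => pderiv j fd with hh
    set β : Fin n → MvPolynomial (Fin n) K := fun j => ∑ i, pderiv i (A i j) with hβ
    have hzA : ∀ x : Fin n → MvPolynomial (Fin n) K, zz A x = ∑ j, β j * x j := fun x => rfl
    -- degrees of `F j` and its part `h j`
    have hFle : ∀ j, KoseD w ((d : ℤ) - w j) (F j) := by
      intro j e he
      have he' : coeff (e + Finsupp.single j 1) f ≠ 0 := by
        have : coeff e (pderiv j f) ≠ 0 := he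
        rw [coeff_pderiv] at this
        exact left_ne_zero_of_mul this
      have h1 := hf _ (mem_support_iff.mpr he')
      rw [kose_wt_add, kose_wt_single] at h1
      have h2 : ((wt w e : ℕ) : ℤ) + w j ≤ d := by exact_mod_cast h1
      linarith
    have hFtop : ∀ j, KoseU w ((d : ℤ) - w j) (F j) (h j) := by
      intro j e
      show coeff e (pderiv j fd) = if ((wt w e : ℕ) : ℤ) = (d : ℤ) - w j then coeff e (pderiv j f) else 0
      rw [coeff_pderiv, coeff_pderiv, hfd]
      unfold part
      rw [coeff_weightedHomogeneousComponent, kose_weight, kose_wt_add, kose_wt_single]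
      by_cases hc : ((wt w e : ℕ) : ℤ) = (d : ℤ) - w j
      · have hc' : wt w e + w j = d := by omega
        rw [if_pos hc, if_pos hc']
      · have hc' : ¬ (wt w e + w j = d) := by omega
        rw [if_neg hc, if_neg hc', zero_mul]
    have hhom : ∀ j, ∀ e ∈ (h j).support, wt w e + w j = d := by
      intro j e he
      rw [mem_support_iff] at he
      by_contra hc
      refine he ?_
      rw [hFtop j e, if_neg (by omega)]
    -- levels of `β j` and its top part
    have hAle : ∀ i j, KoseL w ((N : ℤ) + w i + w j) (A i j) := by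
      intro i j e he
      have := hlev i j e (mem_support_iff.mpr he)
      exact_mod_cast this
    have hβle : ∀ j, KoseL w ((N : ℤ) + w j) (β j) := by
      intro j
      refine kose_sum_le fun i => ?_
      have := kose_pd_le (hAle i j) i
      have e1 : (N : ℤ) + w i + w j - w i = N + w j := by ring
      rwa [e1] at this
    choose b hb using fun j => kose_exists_top w ((N : ℤ) + w j) (β j)
    -- the syzygy
    have hsyz : ∑ j, b j * h j = 0 := by
      have ht : KoseT w ((N : ℤ) + d) (∑ j, β j * F j) (∑ j, b j * h j) := by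
        refine kose_sum_top fun j => ?_
        have := kose_mul_top (hβle j) (hFle j) (hb j) (hFtop j)
        have e1 : (N : ℤ) + w j + (d - w j) = N + d := by ring
        rwa [e1] at this
      ext e
      rw [ht e, coeff_zero]
      by_cases hc : ((wtp w e : ℕ) : ℤ) = (N : ℤ) + d
      · rw [if_pos hc]
        exact htop e (by exact_mod_cast hc)
      · rw [if_neg hc]
    obtain ⟨C', hC'a, hC'l, hC'e⟩ := koszul_hom w d h M (fun i => by
        have := hJ i
        unfold Jac at this
        exact this) hhom N b (by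
        intro j e he
        rw [mem_support_iff] at he
        by_contra hc
        refine he ?_
        rw [hb j e, if_neg (fun h2 => hc (by exact_mod_cast h2))]) hsyz
    set C1' : Fin n → Fin n → MvPolynomial (Fin n) K := fun i j => C' j i with hCdef
    have hCa : Asym C1' := ⟨fun i => hC'a.1 i, fun i j => hC'a.2 j i⟩
    have hCl : ∀ i j, ∀ e ∈ (C1' i j).support, wtp w e + d = N + w i + w j := by
      intro i j e he
      have := hC'l j i e he
      omega
    have hCe : ∀ j, b j = ∑ i, C1' i j * h i := fun j => hC'e j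
    have hCle : ∀ i j, KoseL w ((N : ℤ) - d + w i + w j) (C1' i j) := by
      intro i j e he
      have := hCl i j e (mem_support_iff.mpr he)
      omega
    have hCtop : ∀ i j, KoseT w ((N : ℤ) - d + w i + w j) (C1' i j) (C1' i j) := by
      intro i j e
      by_cases hc : ((wtp w e : ℕ) : ℤ) = (N : ℤ) - d + w i + w j
      · rw [if_pos hc]
      · rw [if_neg hc]
        by_contra he
        exact hc (by have := hCl i j e (mem_support_iff.mpr he); omega)
    -- divergence of `b`
    have hdβ : dvg β = 0 := dvg_dvg A hA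
    have hdb : dvg b = 0 := by
      have ht : KoseT w (N : ℤ) (dvg β) (dvg b) := by
        unfold dvg
        refine kose_sum_top fun j => ?_
        have := kose_pd_top (hb j) j
        have e1 : (N : ℤ) + w j - w j = N := by ring
        rwa [e1] at this
      ext e
      rw [ht e, hdβ]
      simp
    have hzC : zz C1' h = 0 := by
      have h1 := dvg_asym fd C1' hCa
      have h2 : dvg (fun j => ∑ i, C1' i j * pderiv i fd) = dvg b := by
        unfold dvg
        exact Finset.sum_congr rfl fun j _ => by rw [hCe j]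
      rw [h2, hdb] at h1
      have h3 : zz C1' (fun j => pderiv j fd) = 0 := by
        rw [eq_comm, neg_eq_zero] at h1
        exact h1
      exact h3
    -- correction of lower level
    obtain ⟨D, hDa, hDl, hDe⟩ : ∃ D : Fin n → Fin n → MvPolynomial (Fin n) K, Asym D ∧
        (∀ i j, ∀ e ∈ (D i j).support, wtp w e + 1 + d ≤ N + w i + w j) ∧ zz D F = zz C1' F := by
      rcases Nat.lt_or_ge N d with hNd | hNd
      · have hC0 : ∀ i j, C1' i j = 0 := by
          intro i j
          by_cases hij : i = j
          · rw [hij]; exact hCa.1 j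
          · by_contra hne
            obtain ⟨e, he⟩ := support_nonempty.mpr hne
            have h1 := hCl i j e he
            have h2 := kose_wtp_lb w e hij
            omega
        refine ⟨fun _ _ => 0, ⟨fun _ => rfl, fun _ _ => by simp⟩, fun i j e he => ?_, ?_⟩
        · simp at he
        · have : C1' = fun _ _ => 0 := by
            funext i j
            exact hC0 i j
          rw [this]
      · obtain ⟨D, hDa, hDl, hDe⟩ := ih (N - d) (by omega) C1' hCa (fun i j e he => by
            have := hCl i j e he
            omega) (by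
            intro e he
            have ht : KoseT w (N : ℤ) (∑ j, (∑ i, pderiv i (C1' i j)) * F j) (∑ j, (∑ i, pderiv i (C1' i j)) * h j) := by
              refine kose_sum_top fun j => ?_
              have hγ : KoseL w ((N : ℤ) - d + w j) (∑ i, pderiv i (C1' i j)) := by
                refine kose_sum_le fun i => ?_
                have := kose_pd_le (hCle i j) i
                have e1 : (N : ℤ) - d + w i + w j - w i = N - d + w j := by ring
                rwa [e1] at this
              have hγt : KoseT w ((N : ℤ) - d + w j) (∑ i, pderiv i (C1' i j)) (∑ i, pderiv i (C1' i j)) := by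
                refine kose_sum_top fun i => ?_
                have := kose_pd_top (hCtop i j) i
                have e1 : (N : ℤ) - d + w i + w j - w i = N - d + w j := by ring
                rwa [e1] at this
              have := kose_mul_top hγ (hFle j) hγt (hFtop j)
              have e1 : (N : ℤ) - d + w j + (d - w j) = N := by ring
              rwa [e1] at this
            have h1 := ht e
            have h2 : ((wtp w e : ℕ) : ℤ) = N := by
              have : wtp w e = N := by omega
              exact_mod_cast this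
            rw [if_pos h2] at h1
            have h3 : coeff e (∑ j, (∑ i, pderiv i (C1' i j)) * h j) = 0 := by
              have : (∑ j, (∑ i, pderiv i (C1' i j)) * h j) = 0 := hzC
              rw [this, coeff_zero]
            rw [h3] at h1
            exact h1.symm)
        exact ⟨D, hDa, fun i j e he => by have := hDl i j e he; omega, hDe⟩
    set C2 : Fin n → Fin n → MvPolynomial (Fin n) K := fun i j => C1' i j - D i j with hC2
    have hC2a : Asym C2 := by
      refine ⟨fun i => ?_, fun i j => ?_⟩
      · show C1' i i - D i i = 0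
        rw [hCa.1 i, hDa.1 i, sub_zero]
      · show C1' i j - D i j = -(C1' j i - D j i)
        rw [hCa.2 i j, hDa.2 i j]
        ring
    have hzC2 : zz C2 F = 0 := by
      rw [hC2, kose_zz_sub, hDe, sub_self]
    set B : Fin n → MvPolynomial (Fin n) K := fun j => β j - ∑ i, C2 i j * F i with hB
    have hBl : ∀ j, ∀ e ∈ (B j).support, wtp w e + 1 ≤ N + w j := by
      intro j e he
      rw [mem_support_iff] at he
      by_contra hcon
      refine he ?_
      have hge : (N : ℤ) + w j ≤ ((wtp w e : ℕ) : ℤ) := by omega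
      have hDz : ∀ i, coeff e (D i j * F i) = 0 := by
        intro i
        by_contra hne
        have hDle : KoseL w ((N : ℤ) - d + w i + w j - 1) (D i j) := by
          intro e' he'
          have := hDl i j e' (mem_support_iff.mpr he')
          omega
        have := kose_mul_le hDle (hFle i) e hne
        omega
      have hCz : ∀ i, KoseT w ((N : ℤ) + w j) (C1' i j * F i) (C1' i j * h i) := by
        intro i
        have := kose_mul_top (hCle i j) (hFle i) (hCtop i j) (hFtop i)
        have e1 : (N : ℤ) - d + w i + w j + (d - w i) = N + w j := by ring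
        rwa [e1] at this
      have hCzl : ∀ i, KoseL w ((N : ℤ) + w j) (C1' i j * F i) := by
        intro i
        have := kose_mul_le (hCle i j) (hFle i)
        have e1 : (N : ℤ) - d + w i + w j + (d - w i) = N + w j := by ring
        rwa [e1] at this
      have e2 : coeff e (∑ i, C2 i j * F i) = coeff e (∑ i, C1' i j * F i) := by
        rw [coeff_sum, coeff_sum]
        refine Finset.sum_congr rfl fun i _ => ?_
        show coeff e ((C1' i j - D i j) * F i) = _
        rw [sub_mul, coeff_sub, hDz i, sub_zero]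
      show coeff e (β j - ∑ i, C2 i j * F i) = 0
      rw [coeff_sub, e2]
      rcases eq_or_lt_of_le hge with heq | hlt
      · have h1 := hb j e
        rw [if_pos heq.symm] at h1
        have h2 := kose_sum_top hCz e
        rw [if_pos heq.symm] at h2
        rw [← h1, ← h2, ← hCe j, sub_self]
      · have h1 : coeff e (β j) = 0 := by
          by_contra hne
          have := hβle j e hne
          omega
        have h2 : coeff e (∑ i, C1' i j * F i) = 0 := by
          by_contra hne
          have := kose_sum_le hCzl e hne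
          omega
        rw [h1, h2, sub_self]
    have hBd : dvg B = 0 := by
      have h1 : dvg B = dvg β - dvg (fun j => ∑ i, C2 i j * F i) := by
        unfold dvg
        rw [← Finset.sum_sub_distrib]
        refine Finset.sum_congr rfl fun j _ => ?_
        show pderiv j (β j - ∑ i, C2 i j * F i) = _
        rw [map_sub]
      have h2 : dvg (fun j => ∑ i, C2 i j * F i) = - zz C2 F := dvg_asym f C2 hC2a
      rw [h1, hdβ, h2, hzC2]
      simp
    obtain ⟨A', hA'a, hA'l, hA'e⟩ : ∃ A' : Fin n → Fin n → MvPolynomial (Fin n) K, Asym A' ∧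
        (∀ i j, ∀ e ∈ (A' i j).support, wtp w e + 1 ≤ N + w i + w j) ∧ ∀ j, B j = ∑ i, pderiv i (A' i j) := by
      rcases Nat.eq_zero_or_pos N with hN | hN
      · refine ⟨fun _ _ => 0, ⟨fun _ => rfl, fun _ _ => by simp⟩, fun i j e he => by simp at he, fun j => ?_⟩
        have h0 : B j = 0 := by
          by_contra hne
          obtain ⟨e, he⟩ := support_nonempty.mpr hne
          have h1 := hBl j e he
          have h2 := kose_wtp_lb1 w e j
          omega
        rw [h0]
        exact (Finset.sum_eq_zero fun i _ => by rw [map_zero]).symm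
      · obtain ⟨A', h1, h2, h3⟩ := poincare hn w hw (N - 1) B (fun j e he => by
          have := hBl j e he
          omega) hBd
        exact ⟨A', h1, fun i j e he => by have := h2 i j e he; omega, h3⟩
    refine ⟨A', hA'a, hA'l, ?_⟩
    show ∑ j, (∑ i, pderiv i (A' i j)) * F j = ∑ j, β j * F j
    have e1 : ∑ j, (∑ i, pderiv i (A' i j)) * F j = ∑ j, β j * F j - ∑ j, (∑ i, C2 i j * F i) * F j := by
      rw [← Finset.sum_sub_distrib]
      refine Finset.sum_congr rfl fun j _ => ?_
      rw [← hA'e j]
      show (β j - ∑ i, C2 i j * F i) * F j = _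
      rw [sub_mul]
    rw [e1, kose_quad hC2a F, sub_zero]

end MPadcHM
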