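import Pool.Agent.Lib.MP_adc574_ag_HM.Defs

/-!
# JOB LocB: the rank one action on alternating arrays

* `act_act`: `act N (act N c) σ = ∑ j, ∑ i, (∑ k, ∑ m, c (σ[j→i][k→m]) N m (σ[j→i] k)) N i (σ j)` with `N i j = a i * l j`.
  The terms `k = j`: `∑ i m, c (σ[j→m]) a m l i a i l (σ j) = (∑ i, l i a i) act N c`. The terms `k ≠ j`, fixed:
  `∑ i m, c (σ[j→i][k→m]) a i a m l (σ j) l (σ k) = 0`: exchanging `i` and `m` changes the sign, since
  `σ[j→m][k→i] = (σ[j→i][k→m]) ∘ swap j k` and `c` is alternating (first part of `Alt`). To conclude `S = 0` from `S = - S` in a general commutative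
  ring pair the terms: `∑_{i,m} f(i,m)` with `f(i,m) = - f(m,i)` and `f(i,i) = 0` (second part of `Alt`) is 0: `Finset.sum_involution` or
  split into `i < m`, `i = m`, `m < i` after choosing a linear order on `ι` (e.g. through `Fintype.equivFin`).
* `horiz`: `X (a i l j)' + (Γ N - N Γ) i j = 0` by the product rule: `X a' l + a X l' = (-Γ a + α a) lᵀ + a (Γᵀ l - α l)ᵀ`.
-/

set_option autoImplicit false

namespace MPadcHM

open MPadcLP

variable {γ ι : Type} [Fintype γ] [DecidableEq γ] [Fintype ι] [DecidableEq ι]

private theorem locb_pair {E : Type*} [CommRing E] (f : ι → ι → E) (h0 : ∀ i, f i i = 0)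
    (h1 : ∀ i m, f i m = - f m i) : ∑ i, ∑ m, f i m = 0 := by
  rw [← Finset.sum_product' (s := Finset.univ) (t := Finset.univ) (f := f)]
  refine Finset.sum_involution (fun p _ => (p.2, p.1)) ?_ ?_ ?_ ?_
  · intro p _
    rw [h1 p.1 p.2]
    ring
  · intro p _ hp hq
    apply hp
    have : p.2 = p.1 := congrArg Prod.fst hq
    rw [this]
    exact h0 _
  · intro p _
    exact Finset.mem_product.mpr ⟨Finset.mem_univ _, Finset.mem_univ _⟩
  · intro p _
    rfl

omit [Fintype γ] [Fintype ι] [DecidableEq ι] in
private theorem locb_swap (σ : γ → ι) (j k : γ) (hjk : k ≠ j) (i m : ι) :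
    Function.update (Function.update σ j m) k i =
      Function.update (Function.update σ j i) k m ∘ Equiv.swap j k := by
  funext x
  rw [Function.comp_apply]
  by_cases hxj : x = j
  · subst hxj
    rw [Equiv.swap_apply_left, Function.update_self, Function.update_of_ne (Ne.symm hjk),
      Function.update_self]
  · by_cases hxk : x = k
    · subst hxk
      rw [Equiv.swap_apply_right, Function.update_self, Function.update_of_ne (Ne.symm hjk),
        Function.update_self]
    · rw [Equiv.swap_apply_of_ne_of_ne hxj hxk, Function.update_of_ne hxk,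
        Function.update_of_ne hxj, Function.update_of_ne hxk, Function.update_of_ne hxj]

private theorem locb_off {E : Type*} [CommRing E] (a l : ι → E) (c : (γ → ι) → E) (hc : Alt c)
    (σ : γ → ι) (j k : γ) (hjk : k ≠ j) :
    ∑ i, ∑ m, c (Function.update (Function.update σ j i) k m) *
      (a m * l (Function.update σ j i k)) * (a i * l (σ j)) = 0 := by
  apply locb_pair
  · intro i
    have h : c (Function.update (Function.update σ j i) k i) = 0 := by
      apply hc.2 _ j k (Ne.symm hjk)
      rw [Function.update_self, Function.update_of_ne (Ne.symm hjk), Function.update_self]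
    rw [h]
    ring
  · intro i m
    rw [locb_swap σ j k hjk i m, hc.1 _ j k (Ne.symm hjk), Function.update_of_ne hjk,
      Function.update_of_ne hjk]
    ring

private theorem locb_diag {E : Type*} [CommRing E] (a l : ι → E) (c : (γ → ι) → E)
    (σ : γ → ι) (j : γ) :
    ∑ i, ∑ m, c (Function.update (Function.update σ j i) j m) *
      (a m * l (Function.update σ j i j)) * (a i * l (σ j)) =
      (∑ i, l i * a i) * ∑ m, c (Function.update σ j m) * (a m * l (σ j)) := by
  rw [Finset.sum_mul]
  refine Finset.sum_congr rfl fun i _ => ?_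
  rw [Finset.mul_sum]
  refine Finset.sum_congr rfl fun m _ => ?_
  rw [Function.update_idem, Function.update_self]
  ring

theorem act_act {E : Type*} [CommRing E] (a l : ι → E) (c : (γ → ι) → E) (hc : Alt c) :
    act (Matrix.vecMulVec a l) (act (Matrix.vecMulVec a l) c) =
      (∑ i, l i * a i) • act (Matrix.vecMulVec a l) c := by
  funext σ
  simp only [act, Matrix.vecMulVec_apply, Pi.smul_apply, smul_eq_mul]
  rw [Finset.mul_sum]
  refine Finset.sum_congr rfl fun j _ => ?_
  rw [← locb_diag a l c σ j]
  have h1 : ∀ i, (∑ k, ∑ m, c (Function.update (Function.update σ j i) k m) *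
      (a m * l (Function.update σ j i k))) * (a i * l (σ j)) =
      ∑ k, ∑ m, c (Function.update (Function.update σ j i) k m) *
        (a m * l (Function.update σ j i k)) * (a i * l (σ j)) := by
    intro i
    rw [Finset.sum_mul]
    refine Finset.sum_congr rfl fun k _ => ?_
    rw [Finset.sum_mul]
  rw [Finset.sum_congr rfl fun i _ => h1 i, Finset.sum_comm]
  refine (Finset.sum_eq_single j ?_ ?_)
  · intro k _ hk
    exact locb_off a l c hc σ j k hk
  · intro h
    exact absurd (Finset.mem_univ j) h

open PowerSeries in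
theorem horiz {F : Type*} [Field F] (Γ : Matrix ι ι F⟦X⟧) (α : F)
    (a l : ι → F⟦X⟧) (ha : ∀ i, X * derivative F (a i) = -(Γ.mulVec a i) + C α * a i)
    (hl : ∀ j, X * derivative F (l j) = (∑ i, Γ i j * l i) - C α * l j) :
    ∀ i j, X * derivative F (Matrix.vecMulVec a l i j) +
      (Γ * Matrix.vecMulVec a l - Matrix.vecMulVec a l * Γ) i j = 0 := by
  intro i j
  have h1 : (Γ * Matrix.vecMulVec a l) i j = Γ.mulVec a i * l j := by
    rw [Matrix.mul_apply, Matrix.mulVec, dotProduct, Finset.sum_mul]
    refine Finset.sum_congr rfl fun k _ => ?_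
    rw [Matrix.vecMulVec_apply]
    ring
  have h2 : (Matrix.vecMulVec a l * Γ) i j = a i * ∑ k, Γ k j * l k := by
    rw [Matrix.mul_apply, Finset.mul_sum]
    refine Finset.sum_congr rfl fun k _ => ?_
    rw [Matrix.vecMulVec_apply]
    ring
  rw [Matrix.sub_apply, h1, h2, Matrix.vecMulVec_apply, Derivation.leibniz, smul_eq_mul,
    smul_eq_mul, mul_add, mul_left_comm, hl j, mul_left_comm, ha i]
  ring

end MPadcHM
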