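import Pool.Agent.Lib.MP_adc574_ag_HM.LocB
import Pool.Agent.Lib.MP_adc574_ag_LP.LocalGood

/-!
# JOB LocC: local Jordan decomposition

`Θ = Theta Γ` (`X d/dX - act Γ`) on arrays over `F⟦X⟧`, `N = vecMulVec a l`, `B c = act N c = - NT N c`. `Θ` and `NT N` commute
(`commute_Theta_NT` with `horiz`), and `Θ - NT N = Θ + B` has residue 0: `Theta_sub_NT_mem` (hypothesis: `Γ(0) = N(0)`).

* `jordan_zero` (`α = 0`): `N * N = (∑ l i a i) • N = 0`, so `NT N` is nilpotent (`isNilpotent_NT`) and LP's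
  `exists_aeval_sub_mem` (file Interp, used exactly like this in `local_good` of LocalGood.lean, copy that part) gives for every `M` a polynomial `q`
  with `q(Θ) v - NT N v ∈ Fil M` for all `v`. So `μ . (NT N c) = - μ . (q(Θ) c - NT N c)` is divisible by `X ^ M` for all `M`
  (`μ . q(Θ) c = 0` by `h`), hence 0, and `NT N c = - act N c`.
* `jordan_int` (`α ∉ ℤ`): `B² c = α B c` (`act_act`, `∑ l i a i = C α`). Put `c2 = α⁻¹ • B c`, `c1 = c - c2`: `B c1 = 0`, `B c2 = α • c2`. With
  `Θ' = Θ + B` (commutes with `Θ`, `B`), `P_k = ∏_{j<k} (T - j)`: `P_k(Θ') v ∈ Fil k` for all `v` (induction with `Theta_sub_NT_mem`).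
  `B` commutes with `Θ`, so for every polynomial `q`: `q(Θ') c1 = q(Θ) c1` and `q(Θ') c2 = q(Θ + α) c2` (induction on the power), i.e.
  `(P_k.comp (T + α))(Θ) c2 = P_k(Θ') c2 ∈ Fil k`, `P_k(Θ) c1 ∈ Fil k`. The polynomials `P_k` and `P_k.comp (T + C α)` are coprime (roots `0..k-1`
  and `-α, .., k-1-α`, `α ∉ ℤ`; products of coprime linear factors: `IsCoprime.prod_left`, `IsCoprime.prod_right`,
  `Polynomial.isCoprime_X_sub_C_of_isUnit_sub`): `u P_k + v P_k(T+α) = 1`. `q := α u P_k`: `q(Θ) c1 ∈ Fil k` and `q(Θ) c2 = α c2 - α v(Θ) P_k(Θ+α) c2`, so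
  `q(Θ) c - B c = q(Θ) c1 + q(Θ) c2 - α c2 ∈ Fil k` (`Fil k` is stable under `Θ`: from `Theta_sub_NT_mem`-like computation or directly: `X^k ∣ c σ` for all
  `σ` implies `X^k ∣ X (c σ)' - act Γ c σ`). As before `μ . B c` is divisible by `X ^ k` for all `k`.
-/

set_option autoImplicit false

namespace MPadcHM

open MPadcLP PowerSeries

variable {γ ι : Type} [Fintype γ] [DecidableEq γ] [Fintype ι] [DecidableEq ι]

theorem jordan_zero {F : Type*} [Field F] [CharZero F] (Γ : Matrix ι ι F⟦X⟧)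
    (a l : ι → F⟦X⟧) (ha : ∀ i, X * derivative F (a i) = -(Γ.mulVec a i))
    (hl : ∀ j, X * derivative F (l j) = ∑ i, Γ i j * l i)
    (hla : ∑ i, l i * a i = 0)
    (h0 : ∀ i j, constantCoeff (Γ i j) = constantCoeff (a i) * constantCoeff (l j))
    (c μ : (γ → ι) → F⟦X⟧)
    (h : ∀ k : ℕ, μ ⬝ᵥ (((Theta Γ : Module.End F ((γ → ι) → F⟦X⟧)) ^ k) c) = 0) :
    μ ⬝ᵥ act (Matrix.vecMulVec a l) c = 0 := by
  set A : Matrix ι ι F⟦X⟧ := Matrix.vecMulVec a l with hA
  have hAhor := horiz Γ 0 a l (fun i => by rw [ha i, map_zero, zero_mul, add_zero])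
    (fun j => by rw [hl j, map_zero, zero_mul, sub_zero])
  have hcomm := commute_Theta_NT (γ := γ) Γ A hAhor
  have : CharZero F⟦X⟧ := charZero_of_injective_ringHom (f := (C : F →+* F⟦X⟧)) C_injective
  have hA2 : A * A = 0 := by
    ext1 i j
    rw [Matrix.mul_apply, Matrix.zero_apply]
    have h1 : ∀ k, A i k * A k j = a i * l j * (l k * a k) := by
      intro k
      rw [hA, Matrix.vecMulVec_apply, Matrix.vecMulVec_apply]
      ring
    rw [Finset.sum_congr rfl fun k _ => h1 k, ← Finset.mul_sum, hla, mul_zero]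
  obtain ⟨r, hr⟩ := isNilpotent_NT (γ := γ) A hA2
  have hΓA : ∀ i j, constantCoeff (Γ i j) = constantCoeff (A i j) := by
    intro i j
    rw [hA, Matrix.vecMulVec_apply, map_mul]
    exact h0 i j
  have hpol : ∀ q : Polynomial F,
      μ ⬝ᵥ ((Polynomial.aeval (Theta Γ : Module.End F ((γ → ι) → F⟦X⟧)) q) c) = 0 := by
    intro q
    rw [Polynomial.aeval_eq_sum_range, LinearMap.sum_apply, dotProduct_sum]
    refine Finset.sum_eq_zero fun m _ => ?_
    rw [LinearMap.smul_apply, dotProduct_smul, h m, smul_zero]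
  have hdiv : ∀ M : ℕ, (X : F⟦X⟧) ^ M ∣ μ ⬝ᵥ (NT A c) := by
    intro M
    obtain ⟨q, hq⟩ := exists_aeval_sub_mem
      (Theta Γ - NT A : Module.End F ((γ → ι) → F⟦X⟧)) (NT A)
      (hcomm.sub_left (Commute.refl _)) r hr Fil (by
        rw [eq_top_iff]
        intro c _ σ
        rw [pow_zero]
        exact one_dvd _) (fun k c hc => Theta_sub_NT_mem Γ A hΓA k c hc) M
    have h1 := hq c
    rw [sub_add_cancel] at h1
    have h3 : μ ⬝ᵥ (NT A c) = -(μ ⬝ᵥ
        ((Polynomial.aeval (Theta Γ : Module.End F ((γ → ι) → F⟦X⟧)) q) c - NT A c)) := by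
      rw [dotProduct_sub, hpol q]
      ring
    rw [h3, dvd_neg]
    unfold dotProduct
    exact Finset.dvd_sum fun σ _ => (h1 σ).mul_left _
  have hzero : μ ⬝ᵥ (NT A c) = 0 := by
    ext m
    rw [map_zero]
    exact (X_pow_dvd_iff.mp (hdiv (m + 1))) m (Nat.lt_succ_self m)
  have h4 : (NT A : Module.End F ((γ → ι) → F⟦X⟧)) c = -(act A c) := rfl
  rw [h4, dotProduct_neg, neg_eq_zero] at hzero
  exact hzero

private theorem locCb_aeval_eig {F : Type*} [Field F] {V : Type*} [AddCommGroup V] [Module F V]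
    (T B : Module.End F V) (hTB : Commute T B) (v : V) (β : F) (hv : B v = β • v)
    (q : Polynomial F) :
    (Polynomial.aeval (T + B) q) v =
      (Polynomial.aeval T (q.comp (Polynomial.X + Polynomial.C β))) v := by
  have hpow : ∀ n : ℕ, ((T + B) ^ n) v = ((T + algebraMap F (Module.End F V) β) ^ n) v := by
    intro n
    induction n with
    | zero => rfl
    | succ n ih =>
      have h1 : Commute B ((T + algebraMap F (Module.End F V) β) ^ n) :=
        (hTB.symm.add_right (Algebra.commute_algebraMap_right β B)).pow_right n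
      have h2 : B (((T + algebraMap F (Module.End F V) β) ^ n) v) =
          ((T + algebraMap F (Module.End F V) β) ^ n) (B v) := by
        have h3 := congrArg (fun S : Module.End F V => S v) h1.eq
        exact h3
      rw [pow_succ', pow_succ', Module.End.mul_apply, Module.End.mul_apply, ih,
        LinearMap.add_apply, LinearMap.add_apply, h2, hv, map_smul,
        Module.algebraMap_end_apply]
  rw [Polynomial.aeval_comp, map_add, Polynomial.aeval_X, Polynomial.aeval_C,
    Polynomial.aeval_eq_sum_range, Polynomial.aeval_eq_sum_range, LinearMap.sum_apply,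
    LinearMap.sum_apply]
  refine Finset.sum_congr rfl fun m _ => ?_
  rw [LinearMap.smul_apply, LinearMap.smul_apply, hpow]

private theorem locCb_prod {F : Type*} [Field F] {V : Type*} [AddCommGroup V]
    [Module F V] (T : Module.End F V) (Fi : ℕ → Submodule F V) (h0 : Fi 0 = ⊤)
    (hT : ∀ k, ∀ v ∈ Fi k, T v - (k : F) • v ∈ Fi (k + 1)) (M : ℕ) (v : V) :
    (Polynomial.aeval T (∏ k ∈ Finset.range M, (Polynomial.X - Polynomial.C (k : F)))) v ∈
      Fi M := by
  induction M with
  | zero =>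
    rw [h0]
    exact Submodule.mem_top
  | succ M ih =>
    have h1 := hT M _ ih
    rw [Finset.prod_range_succ, mul_comm, map_mul, map_sub, Polynomial.aeval_X,
      Polynomial.aeval_C]
    exact h1

private theorem locCb_stable {F : Type*} [Field F] {V : Type*} [AddCommGroup V]
    [Module F V] (T : Module.End F V) (W : Submodule F V) (hW : ∀ v ∈ W, T v ∈ W)
    (q : Polynomial F) (v : V) (hv : v ∈ W) : (Polynomial.aeval T q) v ∈ W := by
  have hpow : ∀ m : ℕ, (T ^ m) v ∈ W := by
    intro m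
    induction m with
    | zero => exact hv
    | succ m ih =>
      rw [pow_succ', Module.End.mul_apply]
      exact hW _ ih
  rw [Polynomial.aeval_eq_sum_range, LinearMap.sum_apply]
  refine Submodule.sum_mem _ fun m _ => ?_
  rw [LinearMap.smul_apply]
  exact W.smul_mem _ (hpow m)

private theorem locCb_coprime {F : Type*} [Field F] [CharZero F] (α : F)
    (hα : ∀ m : ℤ, α ≠ m) (M : ℕ) :
    IsCoprime (∏ k ∈ Finset.range M, (Polynomial.X - Polynomial.C (k : F)))
      ((∏ k ∈ Finset.range M, (Polynomial.X - Polynomial.C (k : F))).comp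
        (Polynomial.X + Polynomial.C α)) := by
  have h1 : (∏ k ∈ Finset.range M, (Polynomial.X - Polynomial.C (k : F))).comp
      (Polynomial.X + Polynomial.C α) =
      ∏ k ∈ Finset.range M, (Polynomial.X - Polynomial.C ((k : F) - α)) := by
    rw [Polynomial.prod_comp]
    refine Finset.prod_congr rfl fun k _ => ?_
    rw [Polynomial.sub_comp, Polynomial.X_comp, Polynomial.C_comp, Polynomial.C_sub]
    ring
  rw [h1]
  refine IsCoprime.prod_left fun i _ => IsCoprime.prod_right fun j _ => ?_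
  apply Polynomial.isCoprime_X_sub_C_of_isUnit_sub
  rw [isUnit_iff_ne_zero]
  intro h2
  apply hα ((j : ℤ) - (i : ℤ))
  push_cast
  linear_combination h2

/-- the abstract form: the projection to the `α`-eigenspace of `B` is a limit of polynomials -/
private theorem locCb_abs {F : Type*} [Field F] [CharZero F] {V : Type*} [AddCommGroup V]
    [Module F V] (T B : Module.End F V) (hTB : Commute T B) (α : F) (hα : ∀ m : ℤ, α ≠ m)
    (Fi : ℕ → Submodule F V) (h0 : Fi 0 = ⊤) (hanti : ∀ k, Fi (k + 1) ≤ Fi k)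
    (hB : ∀ k, ∀ v ∈ Fi k, B v ∈ Fi k)
    (hT : ∀ k, ∀ v ∈ Fi k, (T + B) v - (k : F) • v ∈ Fi (k + 1)) (c : V)
    (hc : B (B c) = α • B c) (M : ℕ) :
    ∃ q : Polynomial F, (Polynomial.aeval T q) c - B c ∈ Fi M := by
  have hα0 : α ≠ 0 := by
    have h1 := hα 0
    rwa [Int.cast_zero] at h1
  have hTst : ∀ v ∈ Fi M, T v ∈ Fi M := by
    intro v hv
    have h1 := hanti M (hT M v hv)
    have h2 : T v = ((T + B) v - (M : F) • v) + (M : F) • v - B v := by
      rw [LinearMap.add_apply]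
      abel
    rw [h2]
    exact Submodule.sub_mem _ (Submodule.add_mem _ h1 (Submodule.smul_mem _ _ hv)) (hB M v hv)
  obtain ⟨P, hP⟩ : ∃ P : Polynomial F,
    P = ∏ k ∈ Finset.range M, (Polynomial.X - Polynomial.C (k : F)) := ⟨_, rfl⟩
  have hcop : IsCoprime P (P.comp (Polynomial.X + Polynomial.C α)) := by
    rw [hP]
    exact locCb_coprime α hα M
  obtain ⟨u, w, huw⟩ := hcop
  have hPmem : ∀ v : V, (Polynomial.aeval (T + B) P) v ∈ Fi M := by
    intro v
    rw [hP]
    exact locCb_prod (T + B) Fi h0 hT M v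
  obtain ⟨c2, hc2⟩ : ∃ c2 : V, c2 = α⁻¹ • B c := ⟨_, rfl⟩
  obtain ⟨c1, hc1⟩ : ∃ c1 : V, c1 = c - c2 := ⟨_, rfl⟩
  have hBc : B c = α • c2 := by
    rw [hc2, smul_smul, mul_inv_cancel₀ hα0, one_smul]
  have hBc2 : B c2 = α • c2 := by
    rw [← hBc, hc2, map_smul, hc, smul_smul, inv_mul_cancel₀ hα0, one_smul]
  have hBc1 : B c1 = (0 : F) • c1 := by
    rw [zero_smul, hc1, map_sub, hBc2, hBc, sub_self]
  have h1 : (Polynomial.aeval T P) c1 ∈ Fi M := by
    have h2 := locCb_aeval_eig T B hTB c1 0 hBc1 P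
    rw [Polynomial.C_0, add_zero, Polynomial.comp_X] at h2
    rw [← h2]
    exact hPmem c1
  have h2 : (Polynomial.aeval T (P.comp (Polynomial.X + Polynomial.C α))) c2 ∈ Fi M := by
    rw [← locCb_aeval_eig T B hTB c2 α hBc2 P]
    exact hPmem c2
  refine ⟨Polynomial.C α * (u * P), ?_⟩
  have h3 : (Polynomial.aeval T (Polynomial.C α * (u * P))) c1 =
      α • (Polynomial.aeval T u) ((Polynomial.aeval T P) c1) := by
    rw [map_mul, map_mul, Polynomial.aeval_C, Module.End.mul_apply, Module.End.mul_apply,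
      Module.algebraMap_end_apply]
  have h4 : (Polynomial.aeval T (Polynomial.C α * (u * P))) c2 = α • c2 -
      α • (Polynomial.aeval T w)
        ((Polynomial.aeval T (P.comp (Polynomial.X + Polynomial.C α))) c2) := by
    have h5 : u * P = 1 - w * P.comp (Polynomial.X + Polynomial.C α) := by
      linear_combination huw
    rw [h5, map_mul, map_sub, map_one, map_mul, Polynomial.aeval_C, Module.End.mul_apply,
      Module.algebraMap_end_apply, LinearMap.sub_apply, Module.End.one_apply,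
      Module.End.mul_apply, smul_sub]
  have h6 : c = c1 + c2 := by
    rw [hc1, sub_add_cancel]
  have h7 : (Polynomial.aeval T (Polynomial.C α * (u * P))) c - B c =
      α • (Polynomial.aeval T u) ((Polynomial.aeval T P) c1) -
      α • (Polynomial.aeval T w)
        ((Polynomial.aeval T (P.comp (Polynomial.X + Polynomial.C α))) c2) := by
    rw [hBc]
    nth_rewrite 1 [h6]
    rw [map_add, h3, h4]
    abel
  rw [h7]
  exact Submodule.sub_mem _
    (Submodule.smul_mem _ _ (locCb_stable T _ hTst u _ h1))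
    (Submodule.smul_mem _ _ (locCb_stable T _ hTst w _ h2))

theorem jordan_int {F : Type*} [Field F] [CharZero F] (Γ : Matrix ι ι F⟦X⟧) (α : F)
    (hα : ∀ m : ℤ, α ≠ m)
    (a l : ι → F⟦X⟧) (ha : ∀ i, X * derivative F (a i) = -(Γ.mulVec a i) + C α * a i)
    (hl : ∀ j, X * derivative F (l j) = (∑ i, Γ i j * l i) - C α * l j)
    (hla : ∑ i, l i * a i = C α)
    (h0 : ∀ i j, constantCoeff (Γ i j) = constantCoeff (a i) * constantCoeff (l j))
    (c μ : (γ → ι) → F⟦X⟧) (hc : Alt c)
    (h : ∀ k : ℕ, μ ⬝ᵥ (((Theta Γ : Module.End F ((γ → ι) → F⟦X⟧)) ^ k) c) = 0) :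
    μ ⬝ᵥ act (Matrix.vecMulVec a l) c = 0 := by
  obtain ⟨N, hN⟩ : ∃ N : Matrix ι ι F⟦X⟧, N = Matrix.vecMulVec a l := ⟨_, rfl⟩
  have hcomm : Commute (Theta Γ : Module.End F ((γ → ι) → F⟦X⟧)) (NT N) := by
    rw [hN]
    exact commute_Theta_NT Γ _ (horiz Γ α a l ha hl)
  obtain ⟨B, hB⟩ : ∃ B : Module.End F ((γ → ι) → F⟦X⟧), B = - NT N := ⟨_, rfl⟩
  have hBv : ∀ v : (γ → ι) → F⟦X⟧, B v = act N v := by
    intro v
    rw [hB]
    funext σ
    show - (- act N v σ) = act N v σ
    rw [neg_neg]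
  have hTB : Commute (Theta Γ : Module.End F ((γ → ι) → F⟦X⟧)) B := by
    rw [hB]
    exact hcomm.neg_right
  have hΓN : ∀ i j, constantCoeff (Γ i j) = constantCoeff (N i j) := by
    intro i j
    rw [h0, hN, Matrix.vecMulVec_apply, map_mul]
  have hBB : B (B c) = α • B c := by
    rw [hBv, hBv, hN, act_act a l c hc, hla]
    funext σ
    show C α * act (Matrix.vecMulVec a l) c σ = α • act (Matrix.vecMulVec a l) c σ
    rw [PowerSeries.smul_eq_C_mul]
  have hdiv : ∀ M : ℕ, (X : F⟦X⟧) ^ M ∣ μ ⬝ᵥ act N c := by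
    intro M
    obtain ⟨q, hq⟩ := locCb_abs (Theta Γ : Module.End F ((γ → ι) → F⟦X⟧)) B hTB α hα Fil (by
        rw [eq_top_iff]
        intro c _ σ
        rw [pow_zero]
        exact one_dvd _)
      (fun k v hv σ => (pow_dvd_pow _ (Nat.le_succ k)).trans (hv σ))
      (fun k v hv σ => by
        rw [hBv]
        unfold act
        exact Finset.dvd_sum fun j _ => Finset.dvd_sum fun i _ => (hv _).mul_right _)
      (fun k v hv => by
        have h1 := Theta_sub_NT_mem Γ N hΓN k v hv
        rw [sub_eq_add_neg (Theta Γ : Module.End F ((γ → ι) → F⟦X⟧)) (NT N), ← hB] at h1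
        exact h1) c hBB M
    have h2 : μ ⬝ᵥ ((Polynomial.aeval (Theta Γ : Module.End F ((γ → ι) → F⟦X⟧)) q) c) = 0 := by
      rw [Polynomial.aeval_eq_sum_range, LinearMap.sum_apply, dotProduct_sum]
      refine Finset.sum_eq_zero fun m _ => ?_
      rw [LinearMap.smul_apply, dotProduct_smul, h m, smul_zero]
    have h3 : μ ⬝ᵥ act N c = -(μ ⬝ᵥ
        ((Polynomial.aeval (Theta Γ : Module.End F ((γ → ι) → F⟦X⟧)) q) c - B c)) := by
      rw [dotProduct_sub, h2, hBv]
      ring
    rw [h3, dvd_neg]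
    unfold dotProduct
    exact Finset.dvd_sum fun σ _ => (hq σ).mul_left _
  rw [← hN]
  ext m
  rw [map_zero]
  exact (X_pow_dvd_iff.mp (hdiv (m + 1))) m (Nat.lt_succ_self m)

end MPadcHM
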